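import Pool.Agent.Lib.MP_fe51c6_an_EO.Core

/-! Complex differentiable maps on open subsets of finite dimensional spaces, with parameters. -/

open scoped Topology
open Filter Set

noncomputable section

namespace EqOka

variable {E F : Type} [NormedAddCommGroup E] [NormedSpace ℂ E] [FiniteDimensional ℂ E]
  [NormedAddCommGroup F] [NormedSpace ℂ F] [CompleteSpace F]

omit [FiniteDimensional ℂ E] [CompleteSpace F] in
private theorem cauchy_line_deriv {g : E → F} {v : E} (hg : DifferentiableAt ℂ g v) (w : E) :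
    HasDerivAt (fun ζ : ℂ => g (v + ζ • w)) (fderiv ℂ g v w) 0 := by
  have h1 : HasDerivAt (fun ζ : ℂ => v + ζ • w) w 0 := by
    have h := ((hasDerivAt_id (0 : ℂ)).smul_const w).const_add v
    rw [one_smul] at h
    exact h
  have h2 : HasFDerivAt g (fderiv ℂ g v) (v + (0 : ℂ) • w) := by
    rw [zero_smul, add_zero]
    exact hg.hasFDerivAt
  exact h2.comp_hasDerivAt (0 : ℂ) h1

omit [FiniteDimensional ℂ E] [CompleteSpace F] in
private theorem cauchy_line_diff {g : E → F} {v w : E} {ζ : ℂ}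
    (hg : DifferentiableAt ℂ g (v + ζ • w)) :
    DifferentiableAt ℂ (fun ζ : ℂ => g (v + ζ • w)) ζ := by
  have h1 : DifferentiableAt ℂ (fun ζ : ℂ => v + ζ • w) ζ :=
    (differentiableAt_id.smul_const w).const_add v
  exact DifferentiableAt.comp ζ hg h1

omit [FiniteDimensional ℂ E] [CompleteSpace F] in
/-- Cauchy estimate for the difference of two derivatives. -/
private theorem cauchy_est {g h : E → F} {v v' w : E} {r ε : ℝ} (hr : 0 < r)
    (hg : ∀ ζ ∈ Metric.closedBall (0 : ℂ) r, DifferentiableAt ℂ g (v + ζ • w))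
    (hh : ∀ ζ ∈ Metric.closedBall (0 : ℂ) r, DifferentiableAt ℂ h (v' + ζ • w))
    (hb : ∀ ζ ∈ Metric.sphere (0 : ℂ) r, ‖g (v + ζ • w) - h (v' + ζ • w)‖ ≤ ε) :
    ‖fderiv ℂ g v w - fderiv ℂ h v' w‖ ≤ ε / r := by
  have h0 : (0 : ℂ) ∈ Metric.closedBall (0 : ℂ) r := Metric.mem_closedBall_self hr.le
  have hg0 : DifferentiableAt ℂ g v := by
    have := hg 0 h0
    rwa [zero_smul, add_zero] at this
  have hh0 : DifferentiableAt ℂ h v' := by
    have := hh 0 h0
    rwa [zero_smul, add_zero] at this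
  have hd : HasDerivAt (fun ζ : ℂ => g (v + ζ • w) - h (v' + ζ • w))
      (fderiv ℂ g v w - fderiv ℂ h v' w) 0 :=
    (cauchy_line_deriv hg0 w).sub (cauchy_line_deriv hh0 w)
  rw [← hd.deriv]
  refine Complex.norm_deriv_le_of_forall_mem_sphere_norm_le hr ?_ hb
  refine DifferentiableOn.diffContOnCl fun ζ hζ => ?_
  rw [closure_ball _ hr.ne'] at hζ
  exact ((cauchy_line_diff (hg ζ hζ)).sub (cauchy_line_diff (hh ζ hζ))).differentiableWithinAt

omit [FiniteDimensional ℂ E] [CompleteSpace F] in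
private theorem cauchy_param_aux {P : Type} [TopologicalSpace P] (f : P → E → F) (p₀ : P)
    (v₀ : E) (U : Set (P × E)) (hU : U ∈ 𝓝 (p₀, v₀))
    (hc : ContinuousOn (fun q : P × E => f q.1 q.2) U)
    (hd : ∀ q ∈ U, DifferentiableAt ℂ (f q.1) q.2) (w : E) :
    ContinuousAt (fun q : P × E => fderiv ℂ (f q.1) q.2 w) (p₀, v₀) := by
  obtain ⟨U', hU'U, hU'o, hU'0⟩ := mem_nhds_iff.1 hU
  have hm : Continuous (fun z : (P × E) × ℂ => ((z.1.1, z.1.2 + z.2 • w) : P × E)) := by
    fun_prop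
  have h0 : (fun z : (P × E) × ℂ => ((z.1.1, z.1.2 + z.2 • w) : P × E)) ⁻¹' U' ∈
      𝓝 (((p₀, v₀), 0) : (P × E) × ℂ) := by
    refine (hU'o.preimage hm).mem_nhds ?_
    change ((p₀, v₀ + (0 : ℂ) • w) : P × E) ∈ U'
    rw [zero_smul, add_zero]
    exact hU'0
  rw [nhds_prod_eq] at h0
  obtain ⟨V, hV, B, hB, hVB⟩ := Filter.mem_prod_iff.1 h0
  obtain ⟨r, hr, hrB⟩ := Metric.nhds_basis_closedBall.mem_iff.1 hB
  have hin : ∀ q ∈ V, ∀ ζ ∈ Metric.closedBall (0 : ℂ) r, ((q.1, q.2 + ζ • w) : P × E) ∈ U' :=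
    fun q hq ζ hζ => hVB (mk_mem_prod hq (hrB hζ))
  have hV0 : ((p₀, v₀) : P × E) ∈ V := mem_of_mem_nhds hV
  rw [ContinuousAt, Metric.tendsto_nhds]
  intro ε hε
  have htube : ∀ᶠ q in 𝓝 ((p₀, v₀) : P × E), ∀ ζ ∈ Metric.sphere (0 : ℂ) r,
      ‖f q.1 (q.2 + ζ • w) - f p₀ (v₀ + ζ • w)‖ < ε / 2 * r := by
    refine (isCompact_sphere (0 : ℂ) r).eventually_forall_of_forall_eventually
      (P := fun (q : P × E) (ζ : ℂ) => ‖f q.1 (q.2 + ζ • w) - f p₀ (v₀ + ζ • w)‖ < ε / 2 * r) ?_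
    intro ζ₀ hζ₀
    have hζ₀' : ζ₀ ∈ Metric.closedBall (0 : ℂ) r := Metric.sphere_subset_closedBall hζ₀
    have hq₀ : ((p₀, v₀ + ζ₀ • w) : P × E) ∈ U' := hin _ hV0 ζ₀ hζ₀'
    have hfc : ContinuousAt (fun q : P × E => f q.1 q.2) (p₀, v₀ + ζ₀ • w) :=
      hc.continuousAt (mem_of_superset (hU'o.mem_nhds hq₀) hU'U)
    have h1 : ContinuousAt (fun z : (P × E) × ℂ => f z.1.1 (z.1.2 + z.2 • w)) ((p₀, v₀), ζ₀) :=
      ContinuousAt.comp (f := fun z : (P × E) × ℂ => ((z.1.1, z.1.2 + z.2 • w) : P × E))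
        (g := fun q : P × E => f q.1 q.2) (x := ((p₀, v₀), ζ₀)) hfc hm.continuousAt
    have hm2 : Continuous (fun z : (P × E) × ℂ => ((p₀, v₀ + z.2 • w) : P × E)) := by
      fun_prop
    have h2 : ContinuousAt (fun z : (P × E) × ℂ => f p₀ (v₀ + z.2 • w)) ((p₀, v₀), ζ₀) :=
      ContinuousAt.comp (f := fun z : (P × E) × ℂ => ((p₀, v₀ + z.2 • w) : P × E))
        (g := fun q : P × E => f q.1 q.2) (x := ((p₀, v₀), ζ₀)) hfc hm2.continuousAt
    have h3 : ContinuousAt (fun z : (P × E) × ℂ =>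
        ‖f z.1.1 (z.1.2 + z.2 • w) - f p₀ (v₀ + z.2 • w)‖) ((p₀, v₀), ζ₀) := (h1.sub h2).norm
    refine h3.eventually (gt_mem_nhds ?_)
    change ‖f p₀ (v₀ + ζ₀ • w) - f p₀ (v₀ + ζ₀ • w)‖ < ε / 2 * r
    rw [sub_self, norm_zero]
    positivity
  filter_upwards [hV, htube] with q hqV hq
  rw [dist_eq_norm]
  have h4 := cauchy_est (g := f q.1) (h := f p₀) (v := q.2) (v' := v₀) (w := w) hr
    (fun ζ hζ => hd _ (hU'U (hin q hqV ζ hζ))) (fun ζ hζ => hd _ (hU'U (hin _ hV0 ζ hζ)))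
    (fun ζ hζ => (hq ζ hζ).le)
  have h5 : ε / 2 * r / r = ε / 2 := by
    field_simp
  rw [h5] at h4
  linarith

/-- Continuity of the derivative, with a parameter. -/
theorem continuousAt_fderiv_param {P : Type} [TopologicalSpace P] (f : P → E → F) (p₀ : P) (v₀ : E)
    (U : Set (P × E)) (hU : U ∈ 𝓝 (p₀, v₀)) (hc : ContinuousOn (fun q : P × E => f q.1 q.2) U)
    (hd : ∀ q ∈ U, DifferentiableAt ℂ (f q.1) q.2) :
    ContinuousAt (fun q : P × E => fderiv ℂ (f q.1) q.2) (p₀, v₀) := by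
  rw [continuousAt_clm_apply]
  intro w
  exact cauchy_param_aux f p₀ v₀ U hU hc hd w

/-- Complex differentiable maps are `C¹`. -/
theorem continuousAt_fderiv_of_eventually (f : E → F) (v₀ : E)
    (hd : ∀ᶠ v in 𝓝 v₀, DifferentiableAt ℂ f v) : ContinuousAt (fderiv ℂ f) v₀ := by
  obtain ⟨U, hU, hUo, hU0⟩ := mem_nhds_iff.1 hd
  have h1 : ContinuousAt (fun q : Unit × E => fderiv ℂ ((fun _ : Unit => f) q.1) q.2)
      ((), v₀) := by
    refine continuousAt_fderiv_param (fun _ : Unit => f) () v₀ (univ ×ˢ U)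
      ((isOpen_univ.prod hUo).mem_nhds (mk_mem_prod (mem_univ _) hU0)) ?_ ?_
    · intro q hq
      have h2 : ContinuousAt f q.2 := (hU hq.2 : DifferentiableAt ℂ f q.2).continuousAt
      exact (ContinuousAt.comp (f := fun q : Unit × E => q.2) (g := f) (x := q) h2
        continuous_snd.continuousAt).continuousWithinAt
    · intro q hq
      exact hU hq.2
  have h3 : ContinuousAt (fun v : E => (((), v) : Unit × E)) v₀ := by
    fun_prop
  exact ContinuousAt.comp (f := fun v : E => (((), v) : Unit × E))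
    (g := fun q : Unit × E => fderiv ℂ f q.2) (x := v₀) h1 h3

theorem hasStrictFDerivAt_of_eventually (f : E → F) (v₀ : E)
    (hd : ∀ᶠ v in 𝓝 v₀, DifferentiableAt ℂ f v) : HasStrictFDerivAt f (fderiv ℂ f v₀) v₀ :=
  hasStrictFDerivAt_of_hasFDerivAt_of_continuousAt (hd.mono fun _ hv => hv.hasFDerivAt)
    (continuousAt_fderiv_of_eventually f v₀ hd)

theorem contDiffOn_one_of_differentiableOn (f : E → F) (U : Set E) (hU : IsOpen U)
    (hd : DifferentiableOn ℂ f U) : ContDiffOn ℂ 1 f U := by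
  have h1 : ContinuousOn (fderiv ℂ f) U := fun v hv =>
    (continuousAt_fderiv_of_eventually f v (hd.eventually_differentiableAt
      (hU.mem_nhds hv))).continuousWithinAt
  have h2 : ((0 : ℕ∞) : WithTop ℕ∞) + 1 = 1 := by norm_num
  rw [← h2, contDiffOn_succ_iff_fderiv_of_isOpen hU]
  refine ⟨hd, ?_, ?_⟩
  · intro h
    exact absurd h (by simp)
  · exact contDiffOn_zero.2 h1

/-- Integrals over a compact set of parameters. -/
theorem hasFDerivAt_integral_compact {P : Type} [NormedAddCommGroup P] [NormedSpace ℂ P]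
    [FiniteDimensional ℂ P] [MeasurableSpace P] [BorelSpace P] (μ : MeasureTheory.Measure P)
    [MeasureTheory.IsFiniteMeasure μ] (K : Set P) (hK : IsCompact K) (hμ : μ Kᶜ = 0)
    (U : Set E) (hU : IsOpen U) (f : P → E → F)
    (hc : ContinuousOn (fun q : P × E => f q.1 q.2) (K ×ˢ U))
    (hd : ∀ p ∈ K, DifferentiableOn ℂ (f p) U) (v : E) (hv : v ∈ U) :
    HasFDerivAt (fun v => ∫ p, f p v ∂μ) (∫ p, fderiv ℂ (f p) v ∂μ) v := by
  have hae : ∀ᵐ p ∂μ, p ∈ K := MeasureTheory.mem_ae_iff.2 hμ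
  have hres : μ.restrict K = μ := MeasureTheory.Measure.restrict_eq_self_of_ae_mem hae
  have hprop : ProperSpace E := FiniteDimensional.proper ℂ E
  -- the derivative is continuous on `K × U`
  have hG : ∀ p : K, ∀ x ∈ U,
      ContinuousAt (fun q : K × E => fderiv ℂ (f q.1) q.2) (p, x) := by
    intro p x hx
    refine continuousAt_fderiv_param (fun p : K => f p) p x (univ ×ˢ U)
      ((isOpen_univ.prod hU).mem_nhds (mk_mem_prod (mem_univ _) hx)) ?_ ?_
    · have h1 : ContinuousOn (fun q : K × E => (((q.1 : P), q.2) : P × E)) (univ ×ˢ U) := by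
        fun_prop
      exact hc.comp h1 fun q hq => mk_mem_prod q.1.2 hq.2
    · intro q hq
      exact (hd q.1 q.1.2).differentiableAt (hU.mem_nhds hq.2)
  obtain ⟨ρ, hρ, hρU⟩ := Metric.nhds_basis_closedBall.mem_iff.1 (hU.mem_nhds hv)
  have hKc : CompactSpace K := isCompact_iff_compactSpace.1 hK
  have hcomp : IsCompact ((univ : Set K) ×ˢ Metric.closedBall v ρ) :=
    isCompact_univ.prod (isCompact_closedBall v ρ)
  have hGc : ContinuousOn (fun q : K × E => fderiv ℂ (f q.1) q.2)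
      ((univ : Set K) ×ˢ Metric.closedBall v ρ) := fun q hq =>
    (hG q.1 q.2 (hρU hq.2)).continuousWithinAt
  obtain ⟨C, hC⟩ := hcomp.exists_bound_of_continuousOn hGc
  have hKm : MeasurableSet K := hK.measurableSet
  have hcx : ∀ x ∈ U, ContinuousOn (fun p => f p x) K := by
    intro x hx
    have h1 : ContinuousOn (fun p : P => ((p, x) : P × E)) K := by
      fun_prop
    exact hc.comp h1 fun p hp => mk_mem_prod hp hx
  have hcd : ContinuousOn (fun p => fderiv ℂ (f p) v) K := by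
    rw [continuousOn_iff_continuous_domRestrict]
    rw [continuous_iff_continuousAt]
    intro p
    have h1 : ContinuousAt (fun p : K => ((p, v) : K × E)) p := by
      fun_prop
    exact ContinuousAt.comp (f := fun p : K => ((p, v) : K × E))
      (g := fun q : K × E => fderiv ℂ (f q.1) q.2) (x := p) (hG p v hv) h1
  refine hasFDerivAt_integral_of_dominated_of_fderiv_le (𝕜 := ℂ)
    (F := fun x p => f p x) (F' := fun x p => fderiv ℂ (f p) x) (bound := fun _ => C)
    (s := Metric.closedBall v ρ) (Metric.closedBall_mem_nhds v hρ) ?_ ?_ ?_ ?_ ?_ ?_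
  · filter_upwards [hU.mem_nhds hv] with x hx
    rw [← hres]
    exact (hcx x hx).aestronglyMeasurable_of_isCompact hK hKm
  · have h1 := (hcx v hv).integrableOn_compact (μ := μ) hK
    rw [MeasureTheory.IntegrableOn, hres] at h1
    exact h1
  · rw [← hres]
    exact hcd.aestronglyMeasurable_of_isCompact hK hKm
  · filter_upwards [hae] with p hp x hx
    exact hC (⟨p, hp⟩, x) (mk_mem_prod (mem_univ _) hx)
  · exact MeasureTheory.integrable_const C
  · filter_upwards [hae] with p hp x hx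
    exact ((hd p hp).differentiableAt (hU.mem_nhds (hρU hx))).hasFDerivAt

/-- Locally uniform limits of holomorphic functions are holomorphic. -/
theorem differentiableOn_of_locallyUniform (g : ℕ → E → ℂ) (f : E → ℂ) (U : Set E) (hU : IsOpen U)
    (hg : ∀ j, DifferentiableOn ℂ (g j) U) (h : TendstoLocallyUniformlyOn g f atTop U) :
    DifferentiableOn ℂ f U := by
  intro v₀ hv₀
  have hprop : ProperSpace E := FiniteDimensional.proper ℂ E
  obtain ⟨ρ, hρ, hρU⟩ := Metric.nhds_basis_closedBall.mem_iff.1 (hU.mem_nhds hv₀)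
  have hunif : TendstoUniformlyOn g f atTop (Metric.closedBall v₀ ρ) :=
    (tendstoLocallyUniformlyOn_iff_forall_isCompact hU).1 h _ hρU (isCompact_closedBall v₀ ρ)
  have hc1 : UniformCauchySeqOn g atTop (Metric.closedBall v₀ ρ) :=
    hunif.uniformCauchySeqOn
  have hρ2 : 0 < ρ / 2 := by linarith
  -- derivatives
  have hder : ∀ ε : ℝ, 0 < ε → ∃ N : ℕ, ∀ m ≥ N, ∀ n ≥ N, ∀ v ∈ Metric.ball v₀ (ρ / 2),
      dist (fderiv ℂ (g m) v) (fderiv ℂ (g n) v) < ε := by
    intro ε hε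
    obtain ⟨N, hN⟩ := Metric.uniformCauchySeqOn_iff.1 hc1 (ε / 2 * (ρ / 2)) (by positivity)
    refine ⟨N, fun m hm n hn v hv => ?_⟩
    rw [dist_eq_norm]
    refine lt_of_le_of_lt (ContinuousLinearMap.opNorm_le_of_unit_norm ?_ ?_) (half_lt_self hε)
    · positivity
    · intro w hw
      have hin : ∀ ζ ∈ Metric.closedBall (0 : ℂ) (ρ / 2), v + ζ • w ∈ Metric.closedBall v₀ ρ := by
        intro ζ hζ
        rw [mem_closedBall_iff_norm]
        have h1 : v + ζ • w - v₀ = (v - v₀) + ζ • w := by abel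
        rw [h1]
        refine (norm_add_le _ _).trans ?_
        rw [norm_smul, hw, mul_one]
        rw [mem_closedBall_zero_iff] at hζ
        have h2 : ‖v - v₀‖ < ρ / 2 := mem_ball_iff_norm.1 hv
        linarith
      have h3 := cauchy_est (g := g m) (h := g n) (v := v) (v' := v) (w := w) hρ2
        (fun ζ hζ => (hg m).differentiableAt (hU.mem_nhds (hρU (hin ζ hζ))))
        (fun ζ hζ => (hg n).differentiableAt (hU.mem_nhds (hρU (hin ζ hζ))))
        (ε := ε / 2 * (ρ / 2)) (by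
          intro ζ hζ
          have h4 := hN m hm n hn _ (hin ζ (Metric.sphere_subset_closedBall hζ))
          rw [dist_eq_norm] at h4
          exact h4.le)
      have h5 : ε / 2 * (ρ / 2) / (ρ / 2) = ε / 2 := by
        field_simp
      rw [h5] at h3
      rw [sub_apply]
      exact h3
  have hc2 : UniformCauchySeqOn (fun n v => fderiv ℂ (g n) v) atTop (Metric.ball v₀ (ρ / 2)) := by
    rw [Metric.uniformCauchySeqOn_iff]
    intro ε hε
    obtain ⟨N, hN⟩ := hder ε hε
    exact ⟨N, fun m hm n hn v hv => hN m hm n hn v hv⟩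
  have hlim : ∀ v, ∃ l : E →L[ℂ] ℂ, v ∈ Metric.ball v₀ (ρ / 2) →
      Tendsto (fun n => fderiv ℂ (g n) v) atTop (𝓝 l) := by
    intro v
    by_cases hv : v ∈ Metric.ball v₀ (ρ / 2)
    · have h1 : CauchySeq (fun n => fderiv ℂ (g n) v) := by
        rw [Metric.cauchySeq_iff]
        intro ε hε
        obtain ⟨N, hN⟩ := hder ε hε
        exact ⟨N, fun m hm n hn => hN m hm n hn v hv⟩
      obtain ⟨l, hl⟩ := cauchySeq_tendsto_of_complete h1
      exact ⟨l, fun _ => hl⟩
    · exact ⟨0, fun h1 => absurd h1 hv⟩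
  choose g' hg' using hlim
  have hu2 : TendstoUniformlyOn (fun n v => fderiv ℂ (g n) v) g' atTop
      (Metric.ball v₀ (ρ / 2)) :=
    hc2.tendstoUniformlyOn_of_tendsto hg'
  have hsub : Metric.ball v₀ (ρ / 2) ⊆ Metric.closedBall v₀ ρ :=
    (Metric.ball_subset_ball (by linarith)).trans Metric.ball_subset_closedBall
  have hfin := hasFDerivAt_of_tendstoUniformlyOn (x := v₀) Metric.isOpen_ball hu2
    (fun n v hv => ((hg n).differentiableAt (hU.mem_nhds (hρU (hsub hv)))).hasFDerivAt)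
    (fun v hv => hunif.tendsto_at (hsub hv)) (Metric.mem_ball_self hρ2)
  exact hfin.differentiableAt.differentiableWithinAt

end EqOka
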