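import Pool.Agent.Lib.MP_fe51c6_an_EO.Grp

/-! Elementary facts on holomorphic actions. -/

open scoped Manifold Topology

noncomputable section

namespace EqOka

variable {n d e : ℕ} {G : RedGrp n} {X : Type} [TopologicalSpace X] [ChartedSpace (Cd d) X]
  [IsManifold 𝓘(ℂ, Cd d) 1 X] {act : Op n → X → X}

private theorem act_bas_spec (G : RedGrp n) : Function.Injective G.bas ∧
    LinearMap.range (G.bas : Cd G.dim →ₗ[ℂ] Op n) = G.lie :=
  Classical.choose_spec (exists_param G.lie)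

theorem RedGrp.bas_mem (G : RedGrp n) (v : Cd G.dim) : G.bas v ∈ G.lie :=
  (act_bas_spec G).2.le ⟨v, rfl⟩

theorem RedGrp.bas_injective (G : RedGrp n) : Function.Injective G.bas :=
  (act_bas_spec G).1

theorem RedGrp.exists_bas {ξ : Op n} (hξ : ξ ∈ G.lie) : ∃ v : Cd G.dim, G.bas v = ξ :=
  (act_bas_spec G).2.ge hξ

/-- A continuous linear left inverse of `bas`. -/
theorem RedGrp.exists_coord (G : RedGrp n) :
    ∃ c : Op n →L[ℂ] Cd G.dim, (∀ v, c (G.bas v) = v) ∧ ∀ ξ ∈ G.lie, G.bas (c ξ) = ξ := by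
  obtain ⟨c, hc⟩ := LinearMap.exists_leftInverse_of_injective
    (G.bas : Cd G.dim →ₗ[ℂ] Op n) (LinearMap.ker_eq_bot.2 G.bas_injective)
  have h1 : ∀ v, LinearMap.toContinuousLinearMap c (G.bas v) = v := fun v =>
    LinearMap.congr_fun hc v
  refine ⟨LinearMap.toContinuousLinearMap c, h1, fun ξ hξ => ?_⟩
  obtain ⟨v, rfl⟩ := RedGrp.exists_bas hξ
  rw [h1]

theorem HolAct.inv_act (hA : HolAct d G act) {g h : Op n} (hg : g ∈ G.carrier) (hgh : g * h = 1)
    (x : X) : act g (act h x) = x ∧ act h (act g x) = x := by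
  obtain ⟨hh, hhg⟩ := RedGrp.inv_mem' hg hgh
  exact ⟨by rw [← hA.mul g hg h hh, hgh, hA.one], by rw [← hA.mul h hh g hg, hhg, hA.one]⟩

theorem HolAct.tendsto (hA : HolAct d G act) {ι : Type} {l : Filter ι} {g : ι → Op n} {x : ι → X}
    {g₀ : Op n} {x₀ : X} (hg : ∀ᶠ i in l, g i ∈ G.carrier) (hg₀ : g₀ ∈ G.carrier)
    (h1 : Filter.Tendsto g l (𝓝 g₀)) (h2 : Filter.Tendsto x l (𝓝 x₀)) :
    Filter.Tendsto (fun i => act (g i) (x i)) l (𝓝 (act g₀ x₀)) := by
  have h3 : ContinuousWithinAt (fun p : Op n × X => act p.1 p.2) (G.carrier ×ˢ Set.univ)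
      (g₀, x₀) := hA.cont (g₀, x₀) ⟨hg₀, trivial⟩
  exact h3.tendsto.comp (tendsto_nhdsWithin_iff.2
    ⟨h1.prodMk_nhds h2, hg.mono fun i hi => ⟨hi, trivial⟩⟩)

theorem HolAct.continuous_act (hA : HolAct d G act) {g : Op n} (hg : g ∈ G.carrier) :
    Continuous (act g) :=
  (hA.hol g hg).continuous

/-- Joint continuity, for maps into the group and into `X`. -/
theorem HolAct.continuous_comp (hA : HolAct d G act) {M : Type} [TopologicalSpace M]
    {g : M → Op n} {u : M → X} {s : Set M} (hg : ContinuousOn g s) (hgm : ∀ p ∈ s, g p ∈ G.carrier)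
    (hu : ContinuousOn u s) : ContinuousOn (fun p => act (g p) (u p)) s := by
  intro p hp
  exact hA.tendsto (l := 𝓝[s] p) (eventually_nhdsWithin_of_forall fun q hq => hgm q hq)
    (hgm p hp) (hg p hp) (hu p hp)

theorem HolAct.map_nhds (hA : HolAct d G act) {g : Op n} (hg : g ∈ G.carrier) (x : X) :
    Filter.map (act g) (𝓝 x) = 𝓝 (act g x) := by
  obtain ⟨h, hh, hgh, hhg⟩ := G.inv_mem g hg
  let φ : X ≃ₜ X :=
    { toFun := act g
      invFun := act h
      left_inv := fun y => (hA.inv_act hg hgh y).2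
      right_inv := fun y => (hA.inv_act hg hgh y).1
      continuous_toFun := hA.continuous_act hg
      continuous_invFun := hA.continuous_act hh }
  exact φ.map_nhds_eq x

theorem HolAct.exp_add (hA : HolAct d G act) {ξ : Op n} (hξ : ξ ∈ G.lie) (s t : ℂ) (x : X) :
    act (NormedSpace.exp ((s + t) • ξ)) x
      = act (NormedSpace.exp (s • ξ)) (act (NormedSpace.exp (t • ξ)) x) := by
  rw [exp_add_smul, hA.mul _ (RedGrp.exp_smul_mem hξ s) _ (RedGrp.exp_smul_mem hξ t)]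

/-- `p ↦ exp(ξ(p)) u(p)` is holomorphic when `ξ` and `u` are. -/
theorem HolAct.mdiff (hA : HolAct d G act) {E' H' M : Type} [NormedAddCommGroup E']
    [NormedSpace ℂ E'] [TopologicalSpace H'] (I' : ModelWithCorners ℂ E' H') [TopologicalSpace M]
    [ChartedSpace H' M] (ξ : M → Op n) (u : M → X) (p : M) (hm : ∀ q, ξ q ∈ G.lie)
    (hξ : MDifferentiableAt I' 𝓘(ℂ, Op n) ξ p) (hu : MDifferentiableAt I' 𝓘(ℂ, Cd d) u p) :
    MDifferentiableAt I' 𝓘(ℂ, Cd d) (fun q => act (NormedSpace.exp (ξ q)) (u q)) p := by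
  obtain ⟨c, -, h2⟩ := G.exists_coord
  have h3 : MDifferentiableAt I' 𝓘(ℂ, Cd G.dim) (fun q => c (ξ q)) p :=
    (c.mdifferentiableAt (x := ξ p)).comp p hξ
  have h4 := (hA.hol_exp G.dim G.bas G.bas_mem (c (ξ p), u p)).comp p (h3.prodMk hu)
  have h5 : (fun q => act (NormedSpace.exp (ξ q)) (u q)) =
      (fun p : Cd G.dim × X => act (NormedSpace.exp (G.bas p.1)) p.2) ∘
        fun q => (c (ξ q), u q) := by
    funext q
    simp only [Function.comp_apply, h2 _ (hm q)]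
  rw [h5]
  exact h4

/-- `z ↦ exp(c z ξ) u(z)` is holomorphic on `ℂ` where `u` is. -/
theorem HolAct.mdiff_curve (hA : HolAct d G act) {ξ : Op n} (hξ : ξ ∈ G.lie) (c : ℂ) (u : ℂ → X)
    (z : ℂ) (hu : MDifferentiableAt 𝓘(ℂ, ℂ) 𝓘(ℂ, Cd d) u z) :
    MDifferentiableAt 𝓘(ℂ, ℂ) 𝓘(ℂ, Cd d) (fun w => act (NormedSpace.exp ((c * w) • ξ)) (u w)) z := by
  refine hA.mdiff 𝓘(ℂ, ℂ) (fun w : ℂ => (c * w) • ξ) u z (fun w => G.lie.smul_mem _ hξ) ?_ hu
  rw [mdifferentiableAt_iff_differentiableAt]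
  fun_prop

/-- The orbit curves `z ↦ exp(z ξ) x` are holomorphic. -/
theorem HolAct.mdiff_orbit (hA : HolAct d G act) {ξ : Op n} (hξ : ξ ∈ G.lie) (x : X) :
    MDifferentiable 𝓘(ℂ, ℂ) 𝓘(ℂ, Cd d) (fun z : ℂ => act (NormedSpace.exp (z • ξ)) x) := by
  intro z
  have h := hA.mdiff_curve hξ 1 (fun _ => x) z mdifferentiableAt_const
  simp only [one_mul] at h
  exact h

theorem HolAct.restrict (hA : HolAct d G act) {N : RedGrp n} (hN : N.carrier ⊆ G.carrier) :
    HolAct d N act where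
  one := hA.one
  mul := fun g hg h hh x => hA.mul g (hN hg) h (hN hh) x
  cont := hA.cont.mono (Set.prod_mono hN subset_rfl)
  hol := fun g hg => hA.hol g (hN hg)
  hol_exp := fun m L hL => hA.hol_exp m L fun v => RedGrp.lie_le hN (hL v)

variable {Y : Type} [TopologicalSpace Y] [ChartedSpace (Cd e) Y] [IsManifold 𝓘(ℂ, Cd e) 1 Y]
  {actY : Op n → Y → Y}

/-- Holomorphy of an equivariant map is transported along orbits. -/
theorem HolAct.holAt_translate (hA : HolAct d G act) (hB : HolAct e G actY) {g : Op n}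
    (hg : g ∈ G.carrier) {f : X → Y} {x : X}
    (hf : ∀ᶠ y in 𝓝 x, f (act g y) = actY g (f y)) (h : HolAt d e f x) :
    HolAt d e f (act g x) := by
  obtain ⟨h', hh', hgh, hhg⟩ := G.inv_mem g hg
  unfold HolAt
  rw [← hA.map_nhds hg x, Filter.eventually_map]
  filter_upwards [hf.eventually_nhds, h] with y hy1 hy2
  have h1 : f =ᶠ[𝓝 (act g y)] fun z => actY g (f (act h' z)) := by
    rw [← hA.map_nhds hg y]
    change ∀ᶠ z in Filter.map (act g) (𝓝 y), f z = actY g (f (act h' z))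
    rw [Filter.eventually_map]
    filter_upwards [hy1] with y' hy'
    rw [hy', (hA.inv_act hg hgh y').2]
  refine MDifferentiableAt.congr_of_eventuallyEq ?_ h1
  have h2 : MDifferentiableAt 𝓘(ℂ, Cd d) 𝓘(ℂ, Cd e) f (act h' (act g y)) := by
    rw [(hA.inv_act hg hgh y).2]
    exact hy2
  exact (hB.hol g hg _).comp (act g y) (h2.comp (act g y) (hA.hol h' hh' _))

end EqOka
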