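import Pool.Agent.Lib.MP_fe51c6_an_EO.Stab

/-! Conjugation of subspaces by exponentials. -/

open scoped Topology
open Set

noncomputable section

namespace EqOka

section AdSqAbs

variable {E : Type*} [NormedRing E] [NormedAlgebra ℂ E] [CompleteSpace E]

private theorem AdSq_exp_add {x y : E} (h : Commute x y) :
    NormedSpace.exp (x + y) = NormedSpace.exp x * NormedSpace.exp y :=
  NormedSpace.exp_add_of_commute_of_mem_ball (𝕂 := ℂ) h
    ((NormedSpace.expSeries_radius_eq_top ℂ E).symm ▸ edist_lt_top _ _)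
    ((NormedSpace.expSeries_radius_eq_top ℂ E).symm ▸ edist_lt_top _ _)

private theorem AdSq_hasSum (x : E) :
    HasSum (fun k : ℕ => ((k.factorial : ℂ)⁻¹) • x ^ k) (NormedSpace.exp x) :=
  NormedSpace.expSeries_hasSum_exp_of_mem_ball' (𝕂 := ℂ) x
    ((NormedSpace.expSeries_radius_eq_top ℂ E).symm ▸ edist_lt_top _ _)

private theorem AdSq_exp_neg_mul (x : E) :
    NormedSpace.exp (-x) * NormedSpace.exp x = 1 := by
  rw [← AdSq_exp_add (Commute.refl x).neg_left, neg_add_cancel, NormedSpace.exp_zero]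

private theorem AdSq_exp_mul_neg (x : E) :
    NormedSpace.exp x * NormedSpace.exp (-x) = 1 := by
  rw [← AdSq_exp_add (Commute.refl x).neg_right, add_neg_cancel, NormedSpace.exp_zero]

variable (E) in
/-- Left multiplication. -/
private def AdSqL : E →L[ℂ] (E →L[ℂ] E) := ContinuousLinearMap.mul ℂ E

variable (E) in
/-- Right multiplication. -/
private def AdSqR : E →L[ℂ] (E →L[ℂ] E) := (ContinuousLinearMap.mul ℂ E).flip

variable (E) in
/-- The bracket. -/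
private def AdSqA : E →L[ℂ] (E →L[ℂ] E) := AdSqL E - AdSqR E

omit [CompleteSpace E] in
private theorem AdSqL_apply (x y : E) : AdSqL E x y = x * y := rfl

omit [CompleteSpace E] in
private theorem AdSqR_apply (x y : E) : AdSqR E x y = y * x := rfl

omit [CompleteSpace E] in
private theorem AdSqA_apply (x y : E) : AdSqA E x y = x * y - y * x := rfl

omit [CompleteSpace E] in
private theorem AdSqL_pow (x : E) (k : ℕ) : AdSqL E (x ^ k) = (AdSqL E x) ^ k := by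
  induction k with
  | zero =>
    ext y
    simp [AdSqL_apply]
  | succ k ih =>
    ext y
    rw [pow_succ, pow_succ, ← ih]
    simp [AdSqL_apply, mul_assoc]

omit [CompleteSpace E] in
private theorem AdSqR_pow (x : E) (k : ℕ) : AdSqR E (x ^ k) = (AdSqR E x) ^ k := by
  induction k with
  | zero =>
    ext y
    simp [AdSqR_apply]
  | succ k ih =>
    ext y
    rw [pow_succ', pow_succ, ← ih]
    simp [AdSqR_apply, mul_assoc]

private theorem AdSqL_exp (x : E) : NormedSpace.exp (AdSqL E x) = AdSqL E (NormedSpace.exp x) := by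
  have h1 := AdSq_hasSum (AdSqL E x)
  have h2 := (AdSq_hasSum x).mapL (AdSqL E)
  refine h1.unique ?_
  have h3 : (fun k : ℕ => ((k.factorial : ℂ)⁻¹) • (AdSqL E x) ^ k)
      = fun k : ℕ => AdSqL E (((k.factorial : ℂ)⁻¹) • x ^ k) := by
    funext k
    rw [map_smul, AdSqL_pow]
  rw [h3]
  exact h2

private theorem AdSqR_exp (x : E) : NormedSpace.exp (AdSqR E x) = AdSqR E (NormedSpace.exp x) := by
  have h1 := AdSq_hasSum (AdSqR E x)
  have h2 := (AdSq_hasSum x).mapL (AdSqR E)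
  refine h1.unique ?_
  have h3 : (fun k : ℕ => ((k.factorial : ℂ)⁻¹) • (AdSqR E x) ^ k)
      = fun k : ℕ => AdSqR E (((k.factorial : ℂ)⁻¹) • x ^ k) := by
    funext k
    rw [map_smul, AdSqR_pow]
  rw [h3]
  exact h2

private theorem AdSqA_exp (x y : E) :
    NormedSpace.exp (AdSqA E x) y = NormedSpace.exp x * (y * NormedSpace.exp (-x)) := by
  have h1 : AdSqA E x = AdSqL E x + AdSqR E (-x) := by
    rw [map_neg, ← sub_eq_add_neg]
    rfl
  have h2 : Commute (AdSqL E x) (AdSqR E (-x)) := by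
    ext z
    simp [AdSqL_apply, AdSqR_apply, mul_assoc]
  rw [h1, AdSq_exp_add h2, AdSqL_exp, AdSqR_exp]
  rfl

private theorem AdSq_star_exp [StarRing E] [ContinuousStar E] [StarModule ℂ E] (x : E) :
    NormedSpace.exp (star x) = star (NormedSpace.exp x) := by
  have h1 := AdSq_hasSum (star x)
  have h2 := (AdSq_hasSum x).star
  refine h1.unique ?_
  have h3 : (fun k : ℕ => ((k.factorial : ℂ)⁻¹) • (star x) ^ k)
      = fun k : ℕ => star (((k.factorial : ℂ)⁻¹) • x ^ k) := by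
    funext k
    rw [star_smul, star_pow]
    simp
  rw [h3]
  exact h2

variable {W : Type*} [NormedAddCommGroup W] [NormedSpace ℂ W] [CompleteSpace W]

private theorem AdSq_hasSum_apply (A : W →L[ℂ] W) (v : W) :
    HasSum (fun k : ℕ => ((k.factorial : ℂ)⁻¹) • (A ^ k) v) (NormedSpace.exp A v) := by
  have h := (AdSq_hasSum A).mapL (ContinuousLinearMap.apply ℂ W v)
  exact h

omit [CompleteSpace W] in
private theorem AdSq_pow_mem {𝔩 : Submodule ℂ W} {A : W →L[ℂ] W} (hA : ∀ ζ ∈ 𝔩, A ζ ∈ 𝔩) (k : ℕ) :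
    ∀ ζ ∈ 𝔩, (A ^ k) ζ ∈ 𝔩 := by
  induction k with
  | zero =>
    intro ζ hζ
    simpa using hζ
  | succ k ih =>
    intro ζ hζ
    rw [pow_succ]
    exact ih _ (hA ζ hζ)

private theorem AdSq_exp_mem {𝔩 : Submodule ℂ W} (h𝔩 : IsClosed (𝔩 : Set W)) {A : W →L[ℂ] W}
    (hA : ∀ ζ ∈ 𝔩, A ζ ∈ 𝔩) : ∀ ζ ∈ 𝔩, NormedSpace.exp A ζ ∈ 𝔩 := by
  intro ζ hζ
  refine h𝔩.mem_of_tendsto (AdSq_hasSum_apply A ζ) ?_
  refine Filter.Eventually.of_forall fun s => ?_
  exact Submodule.sum_mem _ fun k _ => Submodule.smul_mem _ _ (AdSq_pow_mem hA k ζ hζ)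

/-- Operators preserving a subspace. -/
private def AdSqP (𝔩 : Submodule ℂ W) : Submodule ℂ (W →L[ℂ] W) where
  carrier := {B | ∀ ζ ∈ 𝔩, B ζ ∈ 𝔩}
  add_mem' := by
    intro a b ha hb ζ hζ
    exact 𝔩.add_mem (ha ζ hζ) (hb ζ hζ)
  zero_mem' := by
    intro ζ _
    exact 𝔩.zero_mem
  smul_mem' := by
    intro c a ha ζ hζ
    exact 𝔩.smul_mem c (ha ζ hζ)

omit [CompleteSpace W] in
private theorem AdSqP_closed {𝔩 : Submodule ℂ W} (h𝔩 : IsClosed (𝔩 : Set W)) :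
    IsClosed (AdSqP 𝔩 : Set (W →L[ℂ] W)) := by
  have h : (AdSqP 𝔩 : Set (W →L[ℂ] W))
      = ⋂ ζ ∈ 𝔩, (fun B : W →L[ℂ] W => B ζ) ⁻¹' (𝔩 : Set W) := by
    ext B
    simp only [mem_iInter, mem_preimage]
    rfl
  rw [h]
  refine isClosed_biInter fun ζ _ => h𝔩.preimage ?_
  exact (ContinuousLinearMap.apply ℂ W ζ).continuous

private theorem AdSq_small {𝔩 : Submodule ℂ W} (h𝔩 : IsClosed (𝔩 : Set W)) :
    ∃ ε > 0, ∀ A : W →L[ℂ] W, ‖A‖ < ε → (∀ ζ ∈ 𝔩, NormedSpace.exp A ζ ∈ 𝔩) →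
      ∀ ζ ∈ 𝔩, A ζ ∈ 𝔩 := by
  have hd : HasStrictFDerivAt NormedSpace.exp (1 : (W →L[ℂ] W) →L[ℂ] (W →L[ℂ] W)) 0 :=
    hasStrictFDerivAt_exp_zero
  obtain ⟨s, hs, happ⟩ := hd.approximates_deriv_on_nhds (c := 1 / 8) (Or.inr (by norm_num))
  obtain ⟨r, hr, hrs⟩ := Metric.mem_nhds_iff.mp hs
  refine ⟨r / 4, by positivity, fun A hA hexp => ?_⟩
  have hcl := AdSqP_closed h𝔩
  have hne : (AdSqP 𝔩 : Set (W →L[ℂ] W)).Nonempty := ⟨0, (AdSqP 𝔩).zero_mem⟩
  suffices hmem : A ∈ (AdSqP 𝔩 : Set (W →L[ℂ] W)) from hmem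
  rw [hcl.mem_iff_infDist_zero hne]
  by_contra hne0
  have hpos : 0 < Metric.infDist A (AdSqP 𝔩 : Set (W →L[ℂ] W)) :=
    lt_of_le_of_ne Metric.infDist_nonneg (Ne.symm hne0)
  set δ := Metric.infDist A (AdSqP 𝔩 : Set (W →L[ℂ] W)) with hδ
  have hδA : δ ≤ ‖A‖ := by
    have := Metric.infDist_le_dist_of_mem (x := A) (s := (AdSqP 𝔩 : Set (W →L[ℂ] W)))
      (AdSqP 𝔩).zero_mem
    rwa [dist_zero_right] at this
  obtain ⟨B, hB, hAB⟩ := (Metric.infDist_lt_iff hne).mp (show δ < 2 * δ by linarith)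
  rw [dist_eq_norm] at hAB
  have hBn : ‖B‖ < r := by
    have h1 : ‖B‖ ≤ ‖A‖ + ‖A - B‖ := by
      have := norm_sub_le A (A - B)
      rwa [sub_sub_cancel] at this
    linarith
  have hAs : A ∈ s := hrs (by rw [mem_ball_zero_iff]; linarith)
  have hBs : B ∈ s := hrs (by rw [mem_ball_zero_iff]; exact hBn)
  have h1 := happ A hAs B hBs
  set D := NormedSpace.exp A - NormedSpace.exp B - (1 : (W →L[ℂ] W) →L[ℂ] (W →L[ℂ] W)) (A - B)
    with hD
  have hD1 : (1 : (W →L[ℂ] W) →L[ℂ] (W →L[ℂ] W)) (A - B) = A - B := rfl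
  rw [hD1] at hD
  have hmem : A + D ∈ AdSqP 𝔩 := by
    have h2 : A + D = (NormedSpace.exp A - NormedSpace.exp B) + B := by
      rw [hD]
      abel
    rw [h2]
    refine (AdSqP 𝔩).add_mem ((AdSqP 𝔩).sub_mem hexp ?_) hB
    exact AdSq_exp_mem h𝔩 hB
  have h3 := Metric.infDist_le_dist_of_mem (x := A) (s := (AdSqP 𝔩 : Set (W →L[ℂ] W))) hmem
  rw [dist_self_add_right] at h3
  have h4 : ((1 / 8 : NNReal) : ℝ) = 1 / 8 := by norm_num
  rw [h4] at h1
  linarith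

private theorem AdSq_exp_eig {A : W →L[ℂ] W} {v : W} {c : ℂ} (h : A v = c • v) :
    NormedSpace.exp A v = NormedSpace.exp c • v := by
  have hp : ∀ k : ℕ, (A ^ k) v = c ^ k • v := by
    intro k
    induction k with
    | zero => simp
    | succ k ih =>
      rw [pow_succ']
      change A ((A ^ k) v) = _
      rw [ih, map_smul, h, smul_smul, pow_succ]
  have h1 := AdSq_hasSum_apply A v
  have h2 := (AdSq_hasSum c).smul_const v
  refine h1.unique ?_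
  have h3 : (fun k : ℕ => ((k.factorial : ℂ)⁻¹) • (A ^ k) v)
      = fun k : ℕ => (((k.factorial : ℂ)⁻¹) • c ^ k) • v := by
    funext k
    rw [hp, smul_assoc]
  rw [h3]
  exact h2

private theorem AdSq_eig {𝔩 : Submodule ℂ W} {A : W →L[ℂ] W} {ι : Type*} [Finite ι] (v : ι → W)
    (μ : ι → ℝ) (hspan : ∀ w : W, w ∈ Submodule.span ℂ (range v))
    (hv : ∀ i, A (v i) = (μ i : ℂ) • v i)
    (hexp : ∀ ζ ∈ 𝔩, NormedSpace.exp A ζ ∈ 𝔩) : ∀ ζ ∈ 𝔩, A ζ ∈ 𝔩 := by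
  classical
  have := Fintype.ofFinite ι
  set s : Finset ℝ := Finset.univ.image μ with hs
  set p : Polynomial ℂ := Lagrange.interpolate s (fun x : ℝ => NormedSpace.exp (x : ℂ))
    (fun x : ℝ => (x : ℂ)) with hp
  have hinj : Set.InjOn (fun x : ℝ => NormedSpace.exp (x : ℂ)) (s : Set ℝ) := by
    intro x _ y _ hxy
    have h1 : Complex.exp (x : ℂ) = Complex.exp (y : ℂ) := by
      rw [Complex.exp_eq_exp_ℂ]
      exact hxy
    rw [← Complex.ofReal_exp, ← Complex.ofReal_exp] at h1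
    exact Real.exp_injective (Complex.ofReal_injective h1)
  have hev : ∀ i, p.eval (NormedSpace.exp (μ i : ℂ)) = (μ i : ℂ) := by
    intro i
    exact Lagrange.eval_interpolate_at_node (fun x : ℝ => (x : ℂ)) hinj
      (Finset.mem_image_of_mem μ (Finset.mem_univ i))
  have hpow : ∀ (k : ℕ) (i : ι), ((NormedSpace.exp A) ^ k) (v i)
      = (NormedSpace.exp (μ i : ℂ)) ^ k • v i := by
    intro k i
    induction k with
    | zero => simp
    | succ k ih =>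
      rw [pow_succ']
      change NormedSpace.exp A (((NormedSpace.exp A) ^ k) (v i)) = _
      rw [ih, map_smul, AdSq_exp_eig (hv i), smul_smul, pow_succ]
  have haev : ∀ i, (Polynomial.aeval (NormedSpace.exp A) p) (v i) = (μ i : ℂ) • v i := by
    intro i
    conv_rhs => rw [← hev i]
    rw [Polynomial.aeval_eq_sum_range, Polynomial.eval_eq_sum_range, Finset.sum_smul]
    rw [_root_.sum_apply]
    refine Finset.sum_congr rfl fun k _ => ?_
    rw [_root_.smul_apply, hpow, smul_smul]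
  have heq : ∀ w : W, (Polynomial.aeval (NormedSpace.exp A) p) w = A w := by
    intro w
    have hw := hspan w
    induction hw using Submodule.span_induction with
    | mem x hx =>
      obtain ⟨i, rfl⟩ := hx
      rw [haev, hv]
    | zero => rw [map_zero, map_zero]
    | add x y _ _ hx hy => rw [map_add, map_add, hx, hy]
    | smul c x _ hx => rw [map_smul, map_smul, hx]
  intro ζ hζ
  rw [← heq ζ, Polynomial.aeval_eq_sum_range, _root_.sum_apply]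
  refine Submodule.sum_mem _ fun k _ => ?_
  rw [_root_.smul_apply]
  exact Submodule.smul_mem _ _ (AdSq_pow_mem hexp k ζ hζ)

end AdSqAbs

variable {n : ℕ}

private theorem AdSq_mem {g h ξ : Op n} {𝔩 : Submodule ℂ (Op n)} :
    ξ ∈ conjS g h 𝔩 ↔ ∃ ζ ∈ 𝔩, g * (ζ * h) = ξ := by
  unfold conjS
  rw [Submodule.mem_map]
  rfl

private theorem AdSq_closed (𝔩 : Submodule ℂ (Op n)) : IsClosed (𝔩 : Set (Op n)) :=
  𝔩.closed_of_finiteDimensional

theorem conjS_conjS (g h g' h' : Op n) (𝔩 : Submodule ℂ (Op n)) :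
    conjS g h (conjS g' h' 𝔩) = conjS (g * g') (h' * h) 𝔩 := by
  ext ξ
  rw [AdSq_mem, AdSq_mem]
  constructor
  · rintro ⟨ζ, hζ, rfl⟩
    rw [AdSq_mem] at hζ
    obtain ⟨ρ, hρ, rfl⟩ := hζ
    exact ⟨ρ, hρ, by simp only [mul_assoc]⟩
  · rintro ⟨ρ, hρ, rfl⟩
    exact ⟨g' * (ρ * h'), AdSq_mem.mpr ⟨ρ, hρ, rfl⟩, by simp only [mul_assoc]⟩

theorem conjS_one (𝔩 : Submodule ℂ (Op n)) : conjS 1 1 𝔩 = 𝔩 := by
  ext ξ
  rw [AdSq_mem]
  constructor
  · rintro ⟨ζ, hζ, rfl⟩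
    rwa [mul_one, one_mul]
  · intro hξ
    exact ⟨ξ, hξ, by rw [mul_one, one_mul]⟩

theorem conjS_star (g h : Op n) (𝔩 : Submodule ℂ (Op n)) (ξ : Op n) :
    StarCl 𝔩 → (star ξ ∈ conjS g h 𝔩 ↔ ξ ∈ conjS (star h) (star g) 𝔩) := by
  intro hs
  rw [AdSq_mem, AdSq_mem]
  constructor
  · rintro ⟨ζ, hζ, hz⟩
    refine ⟨star ζ, hs ζ hζ, ?_⟩
    rw [← star_star ξ, ← hz, star_mul, star_mul, mul_assoc]
  · rintro ⟨ζ, hζ, rfl⟩
    refine ⟨star ζ, hs ζ hζ, ?_⟩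
    rw [star_mul, star_mul, star_star, star_star, mul_assoc]

private theorem AdSq_conj_iff {𝔩 : Submodule ℂ (Op n)} {ξ : Op n} :
    (∀ ζ ∈ 𝔩, NormedSpace.exp (AdSqA (Op n) ξ) ζ ∈ 𝔩) ↔
      ∀ ζ ∈ conjS (NormedSpace.exp ξ) (NormedSpace.exp (-ξ)) 𝔩, ζ ∈ 𝔩 := by
  constructor
  · intro h ζ hζ
    obtain ⟨ρ, hρ, rfl⟩ := AdSq_mem.mp hζ
    rw [← AdSqA_exp]
    exact h ρ hρ
  · intro h ζ hζ
    rw [AdSqA_exp]
    exact h _ (AdSq_mem.mpr ⟨ζ, hζ, rfl⟩)

/-- `exp(ξ) 𝔩 exp(-ξ) = 𝔩` if `[ξ, 𝔩] ⊆ 𝔩`. -/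
theorem conj_exp_of_bracket {𝔩 : Submodule ℂ (Op n)} {ξ : Op n}
    (h : ∀ ζ ∈ 𝔩, ξ * ζ - ζ * ξ ∈ 𝔩) :
    conjS (NormedSpace.exp ξ) (NormedSpace.exp (-ξ)) 𝔩 = 𝔩 := by
  have h1 : ∀ ζ ∈ 𝔩, AdSqA (Op n) ξ ζ ∈ 𝔩 := h
  have h2 : ∀ ζ ∈ 𝔩, AdSqA (Op n) (-ξ) ζ ∈ 𝔩 := by
    intro ζ hζ
    rw [map_neg]
    exact 𝔩.neg_mem (h1 ζ hζ)
  have h3 := AdSq_exp_mem (AdSq_closed 𝔩) h1
  have h4 := AdSq_exp_mem (AdSq_closed 𝔩) h2
  apply le_antisymm
  · exact AdSq_conj_iff.mp h3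
  · intro ζ hζ
    rw [AdSq_mem]
    refine ⟨_, h4 ζ hζ, ?_⟩
    rw [AdSqA_exp, neg_neg]
    have e1 := AdSq_exp_mul_neg ξ
    calc NormedSpace.exp ξ * (NormedSpace.exp (-ξ) * (ζ * NormedSpace.exp ξ) * NormedSpace.exp (-ξ))
        = (NormedSpace.exp ξ * NormedSpace.exp (-ξ)) * ζ
            * (NormedSpace.exp ξ * NormedSpace.exp (-ξ)) := by simp only [mul_assoc]
      _ = ζ := by rw [e1, one_mul, mul_one]

/-- For small `ξ` it is enough that `exp(ξ)` normalises `𝔩`. -/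
theorem bracket_of_conj_small (𝔩 : Submodule ℂ (Op n)) :
    ∃ ε > 0, ∀ ξ : Op n, ‖ξ‖ < ε → conjS (NormedSpace.exp ξ) (NormedSpace.exp (-ξ)) 𝔩 = 𝔩 →
      ∀ ζ ∈ 𝔩, ξ * ζ - ζ * ξ ∈ 𝔩 := by
  obtain ⟨ε, hε, hsm⟩ := AdSq_small (AdSq_closed 𝔩)
  refine ⟨ε / (‖AdSqA (Op n)‖ + 1), by positivity, fun ξ hξ hc => ?_⟩
  have h0 : 0 ≤ ‖AdSqA (Op n)‖ := (AdSqA (Op n)).opNorm_nonneg
  have h1 : ‖AdSqA (Op n) ξ‖ < ε := by
    have h2 := (AdSqA (Op n)).le_opNorm ξ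
    rw [lt_div_iff₀ (by positivity)] at hξ
    have h3 : 0 ≤ ‖ξ‖ := norm_nonneg _
    nlinarith
  exact hsm _ h1 (AdSq_conj_iff.mpr fun ζ hζ => by rwa [hc] at hζ)

theorem bracket_of_conj_all {𝔩 : Submodule ℂ (Op n)} {ξ : Op n}
    (h : ∀ t : ℝ, conjS (NormedSpace.exp ((t : ℂ) • ξ)) (NormedSpace.exp (-((t : ℂ) • ξ))) 𝔩 = 𝔩) :
    ∀ ζ ∈ 𝔩, ξ * ζ - ζ * ξ ∈ 𝔩 := by
  obtain ⟨ε, hε, hsm⟩ := bracket_of_conj_small 𝔩
  set t : ℝ := ε / (‖ξ‖ + 1) / 2 with ht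
  have h0 : 0 ≤ ‖ξ‖ := norm_nonneg _
  have htpos : 0 < t := by positivity
  have h1 : ‖((t : ℂ) • ξ)‖ < ε := by
    rw [norm_smul, Complex.norm_real, Real.norm_of_nonneg htpos.le]
    have h2 : t * (‖ξ‖ + 1) = ε / 2 := by
      rw [ht]
      field_simp
    nlinarith
  intro ζ hζ
  have h3 := hsm _ h1 (h t) ζ hζ
  have h4 : (t : ℂ) • ξ * ζ - ζ * ((t : ℂ) • ξ) = (t : ℂ) • (ξ * ζ - ζ * ξ) := by
    rw [smul_mul_assoc, mul_smul_comm, smul_sub]
  rw [h4] at h3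
  have ht0 : (t : ℂ) ≠ 0 := by
    exact_mod_cast htpos.ne'
  exact (𝔩.smul_mem_iff ht0).mp h3

/-- Matrix units. -/
private def AdSqU (b : OrthonormalBasis (Fin n) ℂ (Cd n)) (p : Fin n × Fin n) : Op n :=
  (innerSL ℂ (b p.2)).smulRight (b p.1)

private theorem AdSqU_apply (b : OrthonormalBasis (Fin n) ℂ (Cd n)) (p : Fin n × Fin n) (x : Cd n) :
    AdSqU b p x = (inner ℂ (b p.2) x) • b p.1 := rfl

private theorem AdSqU_span (b : OrthonormalBasis (Fin n) ℂ (Cd n)) (B : Op n) :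
    B ∈ Submodule.span ℂ (range (AdSqU b)) := by
  have h : B = ∑ p : Fin n × Fin n, (inner ℂ (b p.1) (B (b p.2))) • AdSqU b p := by
    ext1 x
    rw [_root_.sum_apply, Fintype.sum_prod_type_right]
    have h1 : B x = ∑ j, (inner ℂ (b j) x) • B (b j) := by
      conv_lhs => rw [← b.sum_repr' x]
      rw [map_sum]
      refine Finset.sum_congr rfl fun j _ => ?_
      rw [map_smul]
    rw [h1]
    refine Finset.sum_congr rfl fun j _ => ?_
    conv_lhs => rw [← b.sum_repr' (B (b j))]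
    rw [Finset.smul_sum]
    refine Finset.sum_congr rfl fun i _ => ?_
    rw [_root_.smul_apply, AdSqU_apply, smul_smul, smul_smul, mul_comm]
  rw [h]
  exact Submodule.sum_mem _ fun p _ => Submodule.smul_mem _ _ (Submodule.subset_span ⟨p, rfl⟩)

/-- For selfadjoint `η` it is enough that `exp(η)` normalises `𝔩`. -/
theorem bracket_of_conj_selfAdjoint {𝔩 : Submodule ℂ (Op n)} {η : Op n} (hη : IsSelfAdjoint η)
    (h : conjS (NormedSpace.exp η) (NormedSpace.exp (-η)) 𝔩 = 𝔩) :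
    ∀ ζ ∈ 𝔩, η * ζ - ζ * η ∈ 𝔩 := by
  have hsym : ((η : Cd n →L[ℂ] Cd n) : Cd n →ₗ[ℂ] Cd n).IsSymmetric :=
    ContinuousLinearMap.isSelfAdjoint_iff_isSymmetric.mp hη
  have hfr : Module.finrank ℂ (Cd n) = n := finrank_euclideanSpace_fin
  set b := hsym.eigenvectorBasis hfr with hb
  set μ := hsym.eigenvalues hfr with hμ
  have hap : ∀ i, η (b i) = (μ i : ℂ) • b i := fun i => hsym.apply_eigenvectorBasis hfr i
  refine AdSq_eig (A := AdSqA (Op n) η) (AdSqU b) (fun p => μ p.1 - μ p.2) (AdSqU_span b) ?_ ?_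
  · intro p
    ext1 x
    rw [AdSqA_apply]
    change η (AdSqU b p x) - AdSqU b p (η x) = (((μ p.1 - μ p.2 : ℝ) : ℂ)) • (AdSqU b p x)
    have hin : inner ℂ (b p.2) (η x) = (μ p.2 : ℂ) * inner ℂ (b p.2) x := by
      have h1 : inner ℂ (η (b p.2)) x = inner ℂ (b p.2) (η x) := hsym (b p.2) x
      rw [← h1, hap, inner_smul_left, Complex.conj_ofReal]
    rw [AdSqU_apply, AdSqU_apply, map_smul, hap, hin, smul_smul, smul_smul, ← sub_smul,
      Complex.ofReal_sub]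
    congr 1
    ring
  · exact AdSq_conj_iff.mpr fun ζ hζ => by rwa [h] at hζ

/-- If `𝔩` and `exp(η) 𝔩 exp(-η)` are both closed under adjoints, then `η` normalises `𝔩`. -/
theorem bracket_of_starCl {𝔩 : Submodule ℂ (Op n)} (hs : StarCl 𝔩) {η : Op n}
    (hη : IsSelfAdjoint η)
    (h : StarCl (conjS (NormedSpace.exp η) (NormedSpace.exp (-η)) 𝔩)) :
    ∀ ζ ∈ 𝔩, η * ζ - ζ * η ∈ 𝔩 := by
  have hst1 : star (NormedSpace.exp η) = NormedSpace.exp η := by
    rw [← AdSq_star_exp, hη.star_eq]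
  have hst2 : star (NormedSpace.exp (-η)) = NormedSpace.exp (-η) := by
    rw [← AdSq_star_exp, star_neg, hη.star_eq]
  have hstar := conjS_star (NormedSpace.exp η) (NormedSpace.exp (-η)) 𝔩
  have heq : conjS (NormedSpace.exp η) (NormedSpace.exp (-η)) 𝔩
      = conjS (NormedSpace.exp (-η)) (NormedSpace.exp η) 𝔩 := by
    ext ξ
    have h1 := hstar ξ hs
    rw [hst1, hst2] at h1
    rw [← h1]
    constructor
    · intro h2
      exact h ξ h2
    · intro h2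
      have h3 := h _ h2
      rwa [star_star] at h3
  have h2 : conjS (NormedSpace.exp (η + η)) (NormedSpace.exp (-(η + η))) 𝔩 = 𝔩 := by
    have e1 : NormedSpace.exp (η + η) = NormedSpace.exp η * NormedSpace.exp η :=
      AdSq_exp_add (Commute.refl η)
    have e2 : NormedSpace.exp (-(η + η)) = NormedSpace.exp (-η) * NormedSpace.exp (-η) := by
      rw [neg_add, AdSq_exp_add (Commute.refl (-η))]
    rw [e1, e2, ← conjS_conjS, heq, conjS_conjS, AdSq_exp_mul_neg, conjS_one]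
  have hη2 : IsSelfAdjoint (η + η) := by
    have h6 := star_add η η
    rw [hη.star_eq] at h6
    exact h6
  intro ζ hζ
  have h3 := bracket_of_conj_selfAdjoint hη2 h2 ζ hζ
  have h4 : η * ζ - ζ * η = (2⁻¹ : ℂ) • ((η + η) * ζ - ζ * (η + η)) := by
    have h5 : (η + η) * ζ - ζ * (η + η) = (η * ζ - ζ * η) + (η * ζ - ζ * η) := by
      rw [add_mul, mul_add]
      abel
    rw [h5, smul_add, ← add_smul]
    norm_num
  rw [h4]
  exact 𝔩.smul_mem _ h3

theorem starCl_conj_unitary {𝔩 : Submodule ℂ (Op n)} (hs : StarCl 𝔩) {k : Op n}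
    (hk : k ∈ unitary (Op n)) : StarCl (conjS k (star k) 𝔩) := by
  intro ξ hξ
  have h := conjS_star k (star k) 𝔩 ξ hs
  rw [star_star] at h
  exact h.mpr hξ

end EqOka
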