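import Pool.Agent.Lib.MP_fe51c6_an_EO.Act
import Pool.Agent.Lib.MP_fe51c6_an_EO.Cauchy

/-! Agreement to order `ℓ`. -/

open scoped Manifold Topology

set_option linter.unusedSectionVars false

noncomputable section

namespace EqOka

variable {n d d' e : ℕ} {G : RedGrp n} {X S Y : Type} [TopologicalSpace X] [ChartedSpace (Cd d) X]
  [IsManifold 𝓘(ℂ, Cd d) 1 X] [TopologicalSpace S] [ChartedSpace (Cd d') S]
  [IsManifold 𝓘(ℂ, Cd d') 1 S] [TopologicalSpace Y] [ChartedSpace (Cd e) Y]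
  [IsManifold 𝓘(ℂ, Cd e) 1 Y] {act : Op n → X → X} {actY : Op n → Y → Y}

/-- A map which is differentiable at a point is Lipschitz at the point, in charts. -/
theorem Agree.isBigO_chart {s : X → S} {x₀ : X} {y₀ : S} (hy : s x₀ = y₀)
    (hs : MDifferentiableAt 𝓘(ℂ, Cd d) 𝓘(ℂ, Cd d') s x₀) :
    (fun x => chartAt (Cd d') y₀ (s x) - chartAt (Cd d') y₀ y₀) =O[𝓝 x₀]
      (fun x => chartAt (Cd d) x₀ x - chartAt (Cd d) x₀ x₀) := by
  subst hy
  set χ := chartAt (Cd d) x₀ with hχ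
  set χ' := chartAt (Cd d') (s x₀) with hχ'
  have h1 : MDifferentiableAt 𝓘(ℂ, Cd d) 𝓘(ℂ, Cd d) χ.symm (χ x₀) :=
    mdifferentiableAt_atlas_symm (chart_mem_atlas _ _) (χ.map_source (mem_chart_source _ _))
  have hx : χ.symm (χ x₀) = x₀ := χ.left_inv (mem_chart_source _ _)
  have h2 : MDifferentiableAt 𝓘(ℂ, Cd d) 𝓘(ℂ, Cd d') (s ∘ χ.symm) (χ x₀) := by
    refine MDifferentiableAt.comp (χ x₀) ?_ h1
    rw [hx]
    exact hs
  have h3 : MDifferentiableAt 𝓘(ℂ, Cd d) 𝓘(ℂ, Cd d') (χ' ∘ (s ∘ χ.symm)) (χ x₀) := by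
    refine MDifferentiableAt.comp (χ x₀) ?_ h2
    rw [Function.comp_apply, hx]
    exact mdifferentiableAt_atlas (chart_mem_atlas _ _) (mem_chart_source _ _)
  rw [mdifferentiableAt_iff_differentiableAt] at h3
  have h4 := h3.hasFDerivAt.isBigO_sub
  have h5 : Filter.Tendsto χ (𝓝 x₀) (𝓝 (χ x₀)) := χ.continuousAt (mem_chart_source _ _)
  have h6 := h4.comp_tendsto h5
  refine h6.congr' ?_ Filter.EventuallyEq.rfl
  filter_upwards [χ.open_source.mem_nhds (mem_chart_source _ x₀)] with x hxs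
  simp only [Function.comp_apply]
  rw [hx, χ.left_inv hxs]

/-- The Lipschitz estimate for families of holomorphic maps, in charts. -/
theorem Agree.isBigO_family {m : ℕ} {Θ : Cd m → Y → Y} {p₀ : Cd m} {y₁ : Y}
    (hΘ : ∀ᶠ q in 𝓝 (p₀, chartAt (Cd e) y₁ y₁), MDifferentiableAt 𝓘(ℂ, Cd m × Cd e) 𝓘(ℂ, Cd e)
      (fun q : Cd m × Cd e => Θ q.1 ((chartAt (Cd e) y₁).symm q.2)) q)
    {ι : Type} {l : Filter ι} {π : ι → Cd m} {α β : ι → Y} (hπ : Filter.Tendsto π l (𝓝 p₀))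
    (hα : Filter.Tendsto α l (𝓝 y₁)) (hβ : Filter.Tendsto β l (𝓝 y₁)) :
    (fun i => chartAt (Cd e) (Θ p₀ y₁) (Θ (π i) (α i)) -
        chartAt (Cd e) (Θ p₀ y₁) (Θ (π i) (β i))) =O[l]
      (fun i => chartAt (Cd e) y₁ (α i) - chartAt (Cd e) y₁ (β i)) := by
  set χ₁ := chartAt (Cd e) y₁ with hχ₁
  set χ := chartAt (Cd e) (Θ p₀ y₁) with hχ
  set f : Cd m × Cd e → Y := fun q => Θ q.1 (χ₁.symm q.2) with hf
  have hy : χ₁.symm (χ₁ y₁) = y₁ := χ₁.left_inv (mem_chart_source _ _)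
  have hf0 : f (p₀, χ₁ y₁) = Θ p₀ y₁ := by rw [hf]; simp only [hy]
  have hcont : ContinuousAt f (p₀, χ₁ y₁) := hΘ.self_of_nhds.continuousAt
  have hsrc : ∀ᶠ q in 𝓝 (p₀, χ₁ y₁), f q ∈ χ.source := by
    refine hcont.eventually_mem ?_
    rw [hf0]
    exact χ.open_source.mem_nhds (mem_chart_source _ _)
  have hd : ∀ᶠ q in 𝓝 (p₀, χ₁ y₁), DifferentiableAt ℂ (χ ∘ f) q := by
    filter_upwards [hΘ, hsrc] with q hq hqs
    rw [← mdifferentiableAt_iff_differentiableAt]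
    exact MDifferentiableAt.comp q (mdifferentiableAt_atlas (chart_mem_atlas _ _) hqs) hq
  have h1 := (hasStrictFDerivAt_of_eventually (χ ∘ f) (p₀, χ₁ y₁) hd).isBigO_sub
  have hχα : Filter.Tendsto (fun i => χ₁ (α i)) l (𝓝 (χ₁ y₁)) :=
    (χ₁.continuousAt (mem_chart_source _ _)).tendsto.comp hα
  have hχβ : Filter.Tendsto (fun i => χ₁ (β i)) l (𝓝 (χ₁ y₁)) :=
    (χ₁.continuousAt (mem_chart_source _ _)).tendsto.comp hβ
  have h2 : Filter.Tendsto (fun i => ((π i, χ₁ (α i)), (π i, χ₁ (β i)))) l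
      (𝓝 ((p₀, χ₁ y₁), (p₀, χ₁ y₁))) :=
    (hπ.prodMk_nhds hχα).prodMk_nhds (hπ.prodMk_nhds hχβ)
  have h3 := h1.comp_tendsto h2
  have hαs : ∀ᶠ i in l, α i ∈ χ₁.source :=
    hα.eventually_mem (χ₁.open_source.mem_nhds (mem_chart_source _ _))
  have hβs : ∀ᶠ i in l, β i ∈ χ₁.source :=
    hβ.eventually_mem (χ₁.open_source.mem_nhds (mem_chart_source _ _))
  have h4 : (fun i => χ (Θ (π i) (α i)) - χ (Θ (π i) (β i))) =O[l]
      (fun i => ((π i, χ₁ (α i)) : Cd m × Cd e) - (π i, χ₁ (β i))) := by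
    refine h3.congr' ?_ Filter.EventuallyEq.rfl
    filter_upwards [hαs, hβs] with i hi hi'
    simp only [Function.comp_apply, hf]
    rw [χ₁.left_inv hi, χ₁.left_inv hi']
  refine h4.trans (Asymptotics.isBigO_of_le l fun i => ?_)
  rw [Prod.mk_sub_mk, sub_self, Prod.norm_mk, norm_zero]
  exact max_le (norm_nonneg _) le_rfl

/-- Maps which coincide near `z` agree to all orders. -/
theorem agree_of_eventuallyEq (ℓ : ℕ) {u v : X → Y} {z : X} (h : ∀ᶠ x in 𝓝 z, u x = v x) :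
    AgreeTo d e ℓ u v z := by
  refine ⟨h.self_of_nhds, ?_⟩
  have h1 : (fun x => chartAt (Cd e) (v z) (u x) - chartAt (Cd e) (v z) (v x)) =ᶠ[𝓝 z]
      fun _ => (0 : Cd e) := by
    filter_upwards [h] with x hx
    rw [hx, sub_self]
  exact h1.trans_isBigO (Asymptotics.isBigO_zero _ _)

/-- Replacing maps by maps which coincide with them near `z`. -/
theorem AgreeTo.congr {ℓ : ℕ} {u v u' v' : X → Y} {z : X} (h : AgreeTo d e ℓ u v z)
    (hu : ∀ᶠ x in 𝓝 z, u' x = u x) (hv : ∀ᶠ x in 𝓝 z, v' x = v x) :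
    AgreeTo d e ℓ u' v' z := by
  refine ⟨by rw [hu.self_of_nhds, hv.self_of_nhds]; exact h.1, ?_⟩
  rw [hv.self_of_nhds]
  refine h.2.congr' ?_ Filter.EventuallyEq.rfl
  filter_upwards [hu, hv] with x hx hx'
  rw [hx, hx']

/-- The composition lemma: if `a`, `b : S → Y` agree to order `ℓ` at `s(x₀)`, then so do
`x ↦ exp(ξ(x)) a(s(x))` and `x ↦ exp(ξ(x)) b(s(x))` at `x₀`. -/
theorem AgreeTo.comp_act (hB : HolAct e G actY) {ℓ : ℕ} {a b : S → Y} {s : X → S} {ξ : X → Op n}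
    {x₀ : X} (hs : MDifferentiableAt 𝓘(ℂ, Cd d) 𝓘(ℂ, Cd d') s x₀) (hξ : ContinuousAt ξ x₀)
    (hξm : ∀ x, ξ x ∈ G.lie) (ha : ContinuousAt a (s x₀)) (hb : ContinuousAt b (s x₀))
    (h : AgreeTo d' e ℓ a b (s x₀)) :
    AgreeTo d e ℓ (fun x => actY (NormedSpace.exp (ξ x)) (a (s x)))
      (fun x => actY (NormedSpace.exp (ξ x)) (b (s x))) x₀ := by
  obtain ⟨c, _, hc⟩ := G.exists_coord
  refine ⟨by simp only [h.1], ?_⟩
  have hΘ : ∀ᶠ q in 𝓝 (c (ξ x₀), chartAt (Cd e) (b (s x₀)) (b (s x₀))),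
      MDifferentiableAt 𝓘(ℂ, Cd G.dim × Cd e) 𝓘(ℂ, Cd e)
      (fun q : Cd G.dim × Cd e => actY (NormedSpace.exp (G.bas q.1))
        ((chartAt (Cd e) (b (s x₀))).symm q.2)) q := by
    have ht : ∀ᶠ q in 𝓝 (c (ξ x₀), chartAt (Cd e) (b (s x₀)) (b (s x₀))),
        q.2 ∈ (chartAt (Cd e) (b (s x₀))).target := by
      refine (continuous_snd.tendsto _).eventually_mem ?_
      exact (chartAt (Cd e) (b (s x₀))).open_target.mem_nhds
        ((chartAt (Cd e) (b (s x₀))).map_source (mem_chart_source _ _))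
    filter_upwards [ht] with q hq
    refine hB.mdiff 𝓘(ℂ, Cd G.dim × Cd e) (fun q : Cd G.dim × Cd e => G.bas q.1)
      (fun q : Cd G.dim × Cd e => (chartAt (Cd e) (b (s x₀))).symm q.2) q
      (fun q => G.bas_mem q.1) ?_ ?_
    · rw [mdifferentiableAt_iff_differentiableAt]
      exact G.bas.differentiableAt.comp q differentiableAt_fst
    · refine MDifferentiableAt.comp q (mdifferentiableAt_atlas_symm (chart_mem_atlas _ _) hq) ?_
      rw [mdifferentiableAt_iff_differentiableAt]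
      exact differentiableAt_snd
  have hsc : Filter.Tendsto s (𝓝 x₀) (𝓝 (s x₀)) := hs.continuousAt
  have hα : Filter.Tendsto (fun x => a (s x)) (𝓝 x₀) (𝓝 (b (s x₀))) := by
    rw [← h.1]
    exact ha.tendsto.comp hsc
  have hβ : Filter.Tendsto (fun x => b (s x)) (𝓝 x₀) (𝓝 (b (s x₀))) := hb.tendsto.comp hsc
  have hπ : Filter.Tendsto (fun x => c (ξ x)) (𝓝 x₀) (𝓝 (c (ξ x₀))) :=
    (c.continuous.tendsto _).comp hξ.tendsto
  have h1 := Agree.isBigO_family (Θ := fun v y => actY (NormedSpace.exp (G.bas v)) y) hΘ hπ hα hβ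
  simp only [hc _ (hξm _)] at h1
  refine h1.trans ((h.2.comp_tendsto hsc).trans ?_)
  exact (Agree.isBigO_chart rfl hs).norm_norm.pow (ℓ + 1)

/-- Agreement to order `ℓ` of equivariant maps is transported along orbits. -/
theorem HolAct.agree_translate (hA : HolAct d G act) (hB : HolAct e G actY) {g : Op n}
    (hg : g ∈ G.carrier) {u v : X → Y} {x : X} {ℓ : ℕ}
    (hu : ∀ᶠ y in 𝓝 x, u (act g y) = actY g (u y)) (hv : ∀ᶠ y in 𝓝 x, v (act g y) = actY g (v y))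
    (hcu : ContinuousAt u x) (hcv : ContinuousAt v x)
    (h : AgreeTo d e ℓ u v x) : AgreeTo d e ℓ u v (act g x) := by
  obtain ⟨k, hk, hgk, hkg⟩ := G.inv_mem g hg
  refine ⟨by rw [hu.self_of_nhds, hv.self_of_nhds, h.1], ?_⟩
  rw [hv.self_of_nhds, ← hA.map_nhds hg x, Asymptotics.isBigO_map]
  have hΘ : ∀ᶠ q in 𝓝 ((0 : Cd 0), chartAt (Cd e) (v x) (v x)),
      MDifferentiableAt 𝓘(ℂ, Cd 0 × Cd e) 𝓘(ℂ, Cd e)
      (fun q : Cd 0 × Cd e => actY g ((chartAt (Cd e) (v x)).symm q.2)) q := by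
    have ht : ∀ᶠ q in 𝓝 ((0 : Cd 0), chartAt (Cd e) (v x) (v x)),
        q.2 ∈ (chartAt (Cd e) (v x)).target := by
      refine (continuous_snd.tendsto _).eventually_mem ?_
      exact (chartAt (Cd e) (v x)).open_target.mem_nhds
        ((chartAt (Cd e) (v x)).map_source (mem_chart_source _ _))
    filter_upwards [ht] with q hq
    refine MDifferentiableAt.comp q (hB.hol g hg _) ?_
    refine MDifferentiableAt.comp q (mdifferentiableAt_atlas_symm (chart_mem_atlas _ _) hq) ?_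
    rw [mdifferentiableAt_iff_differentiableAt]
    exact differentiableAt_snd
  have hα : Filter.Tendsto u (𝓝 x) (𝓝 (v x)) := by
    rw [← h.1]
    exact hcu
  have h1 := Agree.isBigO_family (Θ := fun _ y => actY g y) hΘ
    (tendsto_const_nhds (x := (0 : Cd 0))) hα hcv
  have h2 : ((fun x' => chartAt (Cd e) (actY g (v x)) (u x') -
      chartAt (Cd e) (actY g (v x)) (v x')) ∘ act g) =O[𝓝 x]
      (fun y => chartAt (Cd e) (v x) (u y) - chartAt (Cd e) (v x) (v y)) := by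
    refine h1.congr' ?_ Filter.EventuallyEq.rfl
    filter_upwards [hu, hv] with y hy hy'
    simp only [Function.comp_apply]
    rw [hy, hy']
  refine h2.trans (h.2.trans ?_)
  have hx : act k (act g x) = x := (hA.inv_act hg hgk x).2
  have hks : MDifferentiableAt 𝓘(ℂ, Cd d) 𝓘(ℂ, Cd d) (act k) (act g x) := hA.hol k hk _
  have h3 := Agree.isBigO_chart hx hks
  have h4 : Filter.Tendsto (act g) (𝓝 x) (𝓝 (act g x)) := (hA.map_nhds hg x).le
  have h5 := h3.comp_tendsto h4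
  have h6 : (fun y => chartAt (Cd d) x y - chartAt (Cd d) x x) =O[𝓝 x]
      (fun y => chartAt (Cd d) (act g x) (act g y) - chartAt (Cd d) (act g x) (act g x)) := by
    refine h5.congr_left fun y => ?_
    simp only [Function.comp_apply]
    rw [(hA.inv_act hg hgk y).2]
  exact h6.norm_norm.pow (ℓ + 1)

end EqOka
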