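import Pool.Agent.Lib.MP_fe51c6_an_EO.Grp

/-! The function `FF g = tr g*g + tr (g*g)⁻¹`. -/

open scoped Topology
open Set

noncomputable section

namespace EqOka

variable {n : ℕ}

namespace HSAux

theorem trace_basis (b : OrthonormalBasis (Fin n) ℂ (Cd n)) (g : Op n) :
    LinearMap.trace ℂ (Cd n) ((star g * g : Op n) : Cd n →ₗ[ℂ] Cd n) =
      ((∑ i, ‖g (b i)‖ ^ 2 : ℝ) : ℂ) := by
  rw [LinearMap.trace_eq_sum_inner _ b]
  push_cast
  refine Finset.sum_congr rfl fun i _ => ?_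
  change inner ℂ (b i) (ContinuousLinearMap.adjoint g (g (b i))) = _
  rw [ContinuousLinearMap.adjoint_inner_right, inner_self_eq_norm_sq_to_K]
  rfl

theorem exp_eigen {η : Op n} {v : Cd n} {c : ℂ} (h : η v = c • v) :
    NormedSpace.exp η v = Complex.exp c • v := by
  have h1 := NormedSpace.exp_series_hasSum_exp' (𝕂 := ℂ) η
  have h2 := (ContinuousLinearMap.apply ℂ (Cd n) v).hasSum h1
  have h3 : ∀ k : ℕ, (η ^ k) v = c ^ k • v := by
    intro k
    induction k with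
    | zero => rw [pow_zero, pow_zero, one_smul]; rfl
    | succ k ih =>
      have h4 : (η ^ (k + 1)) v = η ((η ^ k) v) := by
        rw [pow_succ']
        rfl
      rw [h4, ih, map_smul, h, smul_smul, pow_succ]
  have h5 := NormedSpace.exp_series_hasSum_exp' (𝕂 := ℂ) c
  have h6 := h5.smul_const v
  rw [← Complex.exp_eq_exp_ℂ] at h6
  have h7 : (fun k : ℕ => (ContinuousLinearMap.apply ℂ (Cd n) v) (((k.factorial : ℂ)⁻¹) • η ^ k)) =
      fun k : ℕ => (((k.factorial : ℂ)⁻¹) • c ^ k) • v := by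
    funext k
    have h8 : (ContinuousLinearMap.apply ℂ (Cd n) v) (((k.factorial : ℂ)⁻¹) • η ^ k) =
        ((k.factorial : ℂ)⁻¹) • (η ^ k) v := rfl
    rw [h8, h3, smul_smul, smul_eq_mul]
  rw [h7] at h2
  exact h2.unique h6

end HSAux

theorem hs_eq_trace (g : Op n) :
    ((hs g : ℝ) : ℂ) = LinearMap.trace ℂ (Cd n) ((star g * g : Op n) : Cd n →ₗ[ℂ] Cd n) := by
  rw [HSAux.trace_basis (EuclideanSpace.basisFun (Fin n) ℂ) g]
  congr 1
  unfold hs
  refine Finset.sum_congr rfl fun i _ => ?_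
  rw [EuclideanSpace.basisFun_apply]

/-- The Hilbert-Schmidt norm is independent of the orthonormal basis. -/
theorem hs_eq_sum_basis (b : OrthonormalBasis (Fin n) ℂ (Cd n)) (g : Op n) :
    hs g = ∑ i, ‖g (b i)‖ ^ 2 := by
  apply Complex.ofReal_injective
  rw [hs_eq_trace, HSAux.trace_basis b g]

theorem hs_star (g : Op n) : hs (star g) = hs g := by
  apply Complex.ofReal_injective
  rw [hs_eq_trace, hs_eq_trace, star_star]
  exact LinearMap.trace_mul_comm ℂ (g : Cd n →ₗ[ℂ] Cd n) ((star g : Op n) : Cd n →ₗ[ℂ] Cd n)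

theorem hs_mul_unitary {k : Op n} (hk : k ∈ unitary (Op n)) (g : Op n) :
    hs (g * k) = hs g ∧ hs (k * g) = hs g := by
  have h1 : ∀ (k : Op n), k ∈ unitary (Op n) → ∀ g, hs (k * g) = hs g := by
    intro k hk g
    apply Complex.ofReal_injective
    rw [hs_eq_trace, hs_eq_trace, star_mul, mul_assoc, ← mul_assoc (star k),
      Unitary.star_mul_self_of_mem hk, one_mul]
  refine ⟨?_, h1 k hk g⟩
  rw [← hs_star, star_mul, h1 (star k) (Unitary.star_mem hk), hs_star]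

theorem FF_eq {g h : Op n} (h1 : g * h = 1) (h2 : h * g = 1) : FF g = hs g + hs h := by
  have h3 : Ring.inverse g = h := Ring.inverse_unit (⟨g, h, h1, h2⟩ : (Op n)ˣ)
  unfold FF
  rw [h3]

theorem FF_nonneg (g : Op n) : 0 ≤ FF g := by
  unfold FF hs
  positivity

namespace HSAux

theorem hs_nonneg (g : Op n) : 0 ≤ hs g := by
  unfold hs
  positivity

theorem continuous_hs : Continuous (hs : Op n → ℝ) := by
  unfold hs
  fun_prop

theorem norm_sq_le (g : Op n) : ‖g‖ ^ 2 ≤ hs g := by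
  have h1 : ‖g‖ ≤ Real.sqrt (hs g) := by
    refine ContinuousLinearMap.opNorm_le_bound _ (Real.sqrt_nonneg _) fun x => ?_
    have h2 : g x = ∑ i, x i • g (EuclideanSpace.single i 1) := by
      conv_lhs => rw [← (EuclideanSpace.basisFun (Fin n) ℂ).sum_repr x, map_sum]
      refine Finset.sum_congr rfl fun i _ => ?_
      rw [map_smul, EuclideanSpace.basisFun_apply]
      rfl
    have h3 : ‖g x‖ ≤ ∑ i, ‖x i‖ * ‖g (EuclideanSpace.single i 1)‖ := by
      rw [h2]
      refine (norm_sum_le _ _).trans (Finset.sum_le_sum fun i _ => ?_)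
      rw [norm_smul]
    have h4 : ∑ i, ‖x i‖ * ‖g (EuclideanSpace.single i 1)‖ ≤
        Real.sqrt (∑ i, ‖x i‖ ^ 2) * Real.sqrt (∑ i, ‖g (EuclideanSpace.single i 1)‖ ^ 2) :=
      Real.sum_mul_le_sqrt_mul_sqrt _ _ _
    have h5 : Real.sqrt (∑ i, ‖x i‖ ^ 2) = ‖x‖ := (EuclideanSpace.norm_eq x).symm
    calc ‖g x‖ ≤ _ := h3
      _ ≤ _ := h4
      _ = Real.sqrt (hs g) * ‖x‖ := by rw [h5, mul_comm]; rfl
  calc ‖g‖ ^ 2 ≤ Real.sqrt (hs g) ^ 2 := by gcongr
    _ = hs g := Real.sq_sqrt (hs_nonneg g)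

theorem hs_mul_le (a b : Op n) : hs (a * b) ≤ hs a * hs b := by
  have h1 : hs (a * b) ≤ ‖a‖ ^ 2 * hs b := by
    unfold hs
    rw [Finset.mul_sum]
    refine Finset.sum_le_sum fun i _ => ?_
    have h2 : (a * b) (EuclideanSpace.single i 1) = a (b (EuclideanSpace.single i 1)) := rfl
    rw [h2, ← mul_pow]
    have h3 := a.le_opNorm (b (EuclideanSpace.single i 1))
    gcongr
  exact h1.trans (mul_le_mul_of_nonneg_right (norm_sq_le a) (hs_nonneg b))

theorem isUnit_iff' {g : Op n} : IsUnit g ↔ ∃ h : Op n, g * h = 1 ∧ h * g = 1 := by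
  constructor
  · rintro ⟨u, rfl⟩
    exact ⟨(u⁻¹ : (Op n)ˣ), u.mul_inv, u.inv_mul⟩
  · rintro ⟨h, h1, h2⟩
    exact ⟨⟨g, h, h1, h2⟩, rfl⟩

theorem FF_exp (w : Op n) : FF (NormedSpace.exp w) =
    hs (NormedSpace.exp w) + hs (NormedSpace.exp (-w)) :=
  FF_eq (GrpAux.exp_neg_mul_self w).2 (GrpAux.exp_neg_mul_self w).1

theorem exp_cont : Continuous (NormedSpace.exp : Op n → Op n) := by
  let _ : NormedAlgebra ℚ (Op n) := NormedAlgebra.restrictScalars ℚ ℂ (Op n)
  exact NormedSpace.exp_continuous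

/-- An orthonormal eigenbasis. -/
theorem exists_eigen {η : Op n} (hη : IsSelfAdjoint η) :
    ∃ (b : OrthonormalBasis (Fin n) ℂ (Cd n)) (μ : Fin n → ℝ), ∀ i, η (b i) = (μ i : ℂ) • b i := by
  have h1 : (η : Cd n →ₗ[ℂ] Cd n).IsSymmetric :=
    ContinuousLinearMap.isSelfAdjoint_iff_isSymmetric.1 hη
  have hn : Module.finrank ℂ (Cd n) = n := finrank_euclideanSpace_fin
  exact ⟨h1.eigenvectorBasis hn, h1.eigenvalues hn, fun i => h1.apply_eigenvectorBasis hn i⟩

theorem exp_basis {η : Op n} {b : OrthonormalBasis (Fin n) ℂ (Cd n)} {μ : Fin n → ℝ}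
    (h : ∀ i, η (b i) = (μ i : ℂ) • b i) (t : ℝ) (i : Fin n) :
    NormedSpace.exp ((t : ℂ) • η) (b i) = ((Real.exp (t * μ i) : ℝ) : ℂ) • b i := by
  have h1 : ((t : ℂ) • η) (b i) = ((t : ℂ) * (μ i : ℂ)) • b i := by
    have h2 : ((t : ℂ) • η) (b i) = (t : ℂ) • η (b i) := rfl
    rw [h2, h i, smul_smul]
  rw [exp_eigen h1]
  push_cast
  rfl

theorem hs_mul_exp {η : Op n} {b : OrthonormalBasis (Fin n) ℂ (Cd n)} {μ : Fin n → ℝ}
    (h : ∀ i, η (b i) = (μ i : ℂ) • b i) (t : ℝ) (g : Op n) :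
    hs (g * NormedSpace.exp ((t : ℂ) • η)) = ∑ i, Real.exp (t * μ i) ^ 2 * ‖g (b i)‖ ^ 2 := by
  rw [hs_eq_sum_basis b]
  refine Finset.sum_congr rfl fun i _ => ?_
  have h1 : (g * NormedSpace.exp ((t : ℂ) • η)) (b i) =
      g (NormedSpace.exp ((t : ℂ) • η) (b i)) := rfl
  rw [h1, exp_basis h, map_smul, norm_smul, mul_pow, Complex.norm_real, Real.norm_eq_abs,
    abs_of_pos (Real.exp_pos _)]

theorem FF_mul_exp {g k : Op n} (h1 : g * k = 1) (h2 : k * g = 1) {η : Op n}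
    (hη : IsSelfAdjoint η)
    {b : OrthonormalBasis (Fin n) ℂ (Cd n)} {μ : Fin n → ℝ}
    (h : ∀ i, η (b i) = (μ i : ℂ) • b i) (t : ℝ) :
    FF (g * NormedSpace.exp ((t : ℂ) • η)) =
      ∑ i, (Real.exp (t * μ i) ^ 2 * ‖g (b i)‖ ^ 2 +
        Real.exp (-(t * μ i)) ^ 2 * ‖(star k) (b i)‖ ^ 2) := by
  set e := NormedSpace.exp ((t : ℂ) • η) with he
  set e' := NormedSpace.exp (-((t : ℂ) • η)) with he'
  have h3 : e' * e = 1 ∧ e * e' = 1 := GrpAux.exp_neg_mul_self _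
  have h4 : (g * e) * (e' * k) = 1 := by
    rw [mul_assoc, ← mul_assoc e, h3.2, one_mul, h1]
  have h5 : (e' * k) * (g * e) = 1 := by
    rw [mul_assoc, ← mul_assoc k, h2, one_mul, h3.1]
  have h6 : e' = NormedSpace.exp (((-t : ℝ) : ℂ) • η) := by
    rw [he']
    congr 1
    rw [Complex.ofReal_neg]
    exact (neg_smul (t : ℂ) η).symm
  have h7 : star e' = e' := by
    rw [h6]
    exact (GrpAux.exp_isSelfAdjoint hη (-t)).star_eq
  rw [FF_eq h4 h5, ← hs_star (e' * k), star_mul, h7, he, hs_mul_exp h, h6, hs_mul_exp h,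
    ← Finset.sum_add_distrib]
  refine Finset.sum_congr rfl fun i _ => ?_
  rw [neg_mul]

theorem real_mid (x : ℝ) : Real.exp ((1 / 2) * x) ^ 2 ≤ (1 + Real.exp x ^ 2) / 2 ∧
    (x ≠ 0 → Real.exp ((1 / 2) * x) ^ 2 < (1 + Real.exp x ^ 2) / 2) := by
  have h1 : Real.exp ((1 / 2) * x) ^ 2 = Real.exp x := by
    rw [← Real.exp_nat_mul]
    congr 1
    push_cast
    ring
  rw [h1]
  constructor
  · nlinarith [sq_nonneg (Real.exp x - 1)]
  · intro hx
    have h2 : Real.exp x - 1 ≠ 0 := by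
      intro h
      apply hx
      have h3 : Real.exp x = 1 := by linarith
      exact (Real.exp_eq_one_iff x).1 h3
    have h3 : 0 < (Real.exp x - 1) ^ 2 := by positivity
    nlinarith

theorem norm_pos_of_unit {g k : Op n} (h2 : k * g = 1) (b : OrthonormalBasis (Fin n) ℂ (Cd n))
    (i : Fin n) : 0 < ‖g (b i)‖ ^ 2 := by
  have h3 : g (b i) ≠ 0 := by
    intro h
    have h4 : (k * g) (b i) = k (g (b i)) := rfl
    rw [h2, h, map_zero] at h4
    have h5 : b i = 0 := h4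
    have h6 := b.orthonormal.1 i
    rw [h5, norm_zero] at h6
    exact zero_ne_one h6
  have h4 := norm_pos_iff.2 h3
  positivity

end HSAux

theorem FF_mul_unitary {k : Op n} (hk : k ∈ unitary (Op n)) (g : Op n) :
    FF (g * k) = FF g ∧ FF (k * g) = FF g := by
  have hk1 : k * star k = 1 := Unitary.mul_star_self_of_mem hk
  have hk2 : star k * k = 1 := Unitary.star_mul_self_of_mem hk
  have hks : star k ∈ unitary (Op n) := Unitary.star_mem hk
  by_cases hg : IsUnit g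
  · obtain ⟨h, h1, h2⟩ := HSAux.isUnit_iff'.1 hg
    constructor
    · have h3 : (g * k) * (star k * h) = 1 := by
        rw [mul_assoc, ← mul_assoc k, hk1, one_mul, h1]
      have h4 : (star k * h) * (g * k) = 1 := by
        rw [mul_assoc, ← mul_assoc h, h2, one_mul, hk2]
      rw [FF_eq h3 h4, FF_eq h1 h2, (hs_mul_unitary hk g).1, (hs_mul_unitary hks h).2]
    · have h3 : (k * g) * (h * star k) = 1 := by
        rw [mul_assoc, ← mul_assoc g, h1, one_mul, hk1]
      have h4 : (h * star k) * (k * g) = 1 := by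
        rw [mul_assoc, ← mul_assoc (star k), hk2, one_mul, h2]
      rw [FF_eq h3 h4, FF_eq h1 h2, (hs_mul_unitary hk g).2, (hs_mul_unitary hks h).1]
  · have hku : IsUnit k := HSAux.isUnit_iff'.2 ⟨star k, hk1, hk2⟩
    have h1 : ¬ IsUnit (g * k) := fun h => hg ((hku.mul_right_iff).1 h)
    have h2 : ¬ IsUnit (k * g) := fun h => hg ((hku.mul_left_iff).1 h)
    unfold FF
    rw [Ring.inverse_non_unit _ hg, Ring.inverse_non_unit _ h1, Ring.inverse_non_unit _ h2,
      (hs_mul_unitary hk g).1, (hs_mul_unitary hk g).2]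
    exact ⟨rfl, rfl⟩

theorem FF_continuousOn : ContinuousOn (FF : Op n → ℝ) {g | IsUnit g} := by
  intro g hg
  obtain ⟨u, hu⟩ := (hg : IsUnit g)
  have h1 : ContinuousAt Ring.inverse (u : Op n) := NormedRing.inverse_continuousAt u
  rw [hu] at h1
  have h2 : ContinuousAt (fun g : Op n => hs g + hs (Ring.inverse g)) g :=
    HSAux.continuous_hs.continuousAt.add (HSAux.continuous_hs.continuousAt.comp h1)
  exact h2.continuousWithinAt

theorem FF_compact (R : ℝ) : IsCompact {g : Op n | IsUnit g ∧ FF g ≤ R} := by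
  have h1 : {g : Op n | IsUnit g ∧ FF g ≤ R} =
      Prod.fst '' {p : Op n × Op n | p.1 * p.2 = 1 ∧ p.2 * p.1 = 1 ∧ hs p.1 + hs p.2 ≤ R} := by
    ext g
    constructor
    · rintro ⟨hg, hR⟩
      obtain ⟨h, h1, h2⟩ := HSAux.isUnit_iff'.1 hg
      exact ⟨(g, h), ⟨h1, h2, by rw [← FF_eq h1 h2]; exact hR⟩, rfl⟩
    · rintro ⟨p, ⟨h1, h2, h3⟩, rfl⟩
      exact ⟨HSAux.isUnit_iff'.2 ⟨p.2, h1, h2⟩, by rw [FF_eq h1 h2]; exact h3⟩
  rw [h1]
  refine IsCompact.image ?_ continuous_fst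
  have hc : IsClosed {p : Op n × Op n | p.1 * p.2 = 1 ∧ p.2 * p.1 = 1 ∧ hs p.1 + hs p.2 ≤ R} := by
    have c1 : IsClosed {p : Op n × Op n | p.1 * p.2 = 1} :=
      isClosed_eq (continuous_fst.mul continuous_snd) continuous_const
    have c2 : IsClosed {p : Op n × Op n | p.2 * p.1 = 1} :=
      isClosed_eq (continuous_snd.mul continuous_fst) continuous_const
    have c3 : IsClosed {p : Op n × Op n | hs p.1 + hs p.2 ≤ R} :=
      isClosed_le ((HSAux.continuous_hs.comp continuous_fst).add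
        (HSAux.continuous_hs.comp continuous_snd)) continuous_const
    exact c1.inter (c2.inter c3)
  have hb : {p : Op n × Op n | p.1 * p.2 = 1 ∧ p.2 * p.1 = 1 ∧ hs p.1 + hs p.2 ≤ R} ⊆
      Metric.closedBall (0 : Op n) (Real.sqrt R) ×ˢ Metric.closedBall (0 : Op n) (Real.sqrt R) := by
    rintro p ⟨-, -, h3⟩
    have h4 := HSAux.norm_sq_le p.1
    have h5 := HSAux.norm_sq_le p.2
    have h6 := HSAux.hs_nonneg p.1
    have h7 := HSAux.hs_nonneg p.2
    refine ⟨?_, ?_⟩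
    · rw [Metric.mem_closedBall, dist_zero_right]
      exact Real.le_sqrt_of_sq_le (by linarith)
    · rw [Metric.mem_closedBall, dist_zero_right]
      exact Real.le_sqrt_of_sq_le (by linarith)
  exact ((isCompact_closedBall _ _).prod (isCompact_closedBall _ _)).of_isClosed_subset hc hb

/-- Strict midpoint convexity along `t ↦ g exp(tη)`. -/
theorem FF_mid {g : Op n} (hg : IsUnit g) {η : Op n} (hη : IsSelfAdjoint η) (hne : η ≠ 0) :
    FF (g * NormedSpace.exp ((1 / 2 : ℂ) • η)) < (FF g + FF (g * NormedSpace.exp η)) / 2 := by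
  obtain ⟨k, h1, h2⟩ := HSAux.isUnit_iff'.1 hg
  obtain ⟨b, μ, hb⟩ := HSAux.exists_eigen hη
  have hex : ∃ i, μ i ≠ 0 := by
    by_contra hcon
    push Not at hcon
    apply hne
    have h3 : (η : Cd n →ₗ[ℂ] Cd n) = 0 := by
      refine b.toBasis.ext fun i => ?_
      rw [OrthonormalBasis.coe_toBasis]
      change η (b i) = 0
      rw [hb i, hcon i]
      simp
    ext1 x
    exact congrArg (fun f : Cd n →ₗ[ℂ] Cd n => f x) h3
  have e1 : ((1 / 2 : ℝ) : ℂ) • η = (1 / 2 : ℂ) • η := by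
    congr 1
    push_cast
    ring
  have e2 : ((1 : ℝ) : ℂ) • η = η := by
    rw [Complex.ofReal_one, one_smul]
  have e3 : g * NormedSpace.exp (((0 : ℝ) : ℂ) • η) = g := by
    have e4 : ((0 : ℝ) : ℂ) • η = 0 := by
      rw [Complex.ofReal_zero]
      exact zero_smul ℂ η
    rw [e4, NormedSpace.exp_zero, mul_one]
  have f1 := HSAux.FF_mul_exp h1 h2 hη hb (1 / 2)
  have f2 := HSAux.FF_mul_exp h1 h2 hη hb 1
  have f3 := HSAux.FF_mul_exp h1 h2 hη hb 0
  rw [e1] at f1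
  rw [e2] at f2
  rw [e3] at f3
  rw [f1, f2, f3, ← Finset.sum_add_distrib, Finset.sum_div]
  have hk1 : star g * star k = 1 := by rw [← star_mul, h2, star_one]
  have hp : ∀ i, 0 < ‖g (b i)‖ ^ 2 := HSAux.norm_pos_of_unit h2 b
  have hq : ∀ i, 0 < ‖(star k) (b i)‖ ^ 2 := HSAux.norm_pos_of_unit hk1 b
  have z1 : ∀ i, Real.exp (0 * μ i) = 1 := fun i => by rw [zero_mul, Real.exp_zero]
  have z2 : ∀ i, Real.exp (-(0 * μ i)) = 1 := fun i => by rw [zero_mul, neg_zero, Real.exp_zero]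
  have z3 : ∀ i, -((1 / 2) * μ i) = (1 / 2) * (-μ i) := fun i => by ring
  refine Finset.sum_lt_sum (fun i _ => ?_) ?_
  · rw [z1, z2, z3, one_mul]
    have m1 := (HSAux.real_mid (μ i)).1
    have m2 := (HSAux.real_mid (-μ i)).1
    have m3 := mul_le_mul_of_nonneg_right m1 (hp i).le
    have m4 := mul_le_mul_of_nonneg_right m2 (hq i).le
    linarith
  · obtain ⟨i, hi⟩ := hex
    refine ⟨i, Finset.mem_univ _, ?_⟩
    rw [z1, z2, z3, one_mul]
    have m1 := (HSAux.real_mid (μ i)).2 hi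
    have m2 := (HSAux.real_mid (-μ i)).1
    have m3 := mul_lt_mul_of_pos_right m1 (hp i)
    have m4 := mul_le_mul_of_nonneg_right m2 (hq i).le
    linarith

theorem FF_bound (n : ℕ) (R : ℝ) :
    ∃ C : ℝ, ∀ w : Op n, IsSelfAdjoint w → FF (NormedSpace.exp w) ≤ R → ‖w‖ ≤ C := by
  refine ⟨Real.sqrt (n * R ^ 2), fun w hw hR => ?_⟩
  obtain ⟨b, μ, hb⟩ := HSAux.exists_eigen hw
  have f1 := HSAux.FF_mul_exp (one_mul (1 : Op n)) (one_mul (1 : Op n)) hw hb 1
  rw [Complex.ofReal_one, one_smul, one_mul, star_one] at f1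
  have hnb : ∀ i, ‖(1 : Op n) (b i)‖ = 1 := fun i => b.orthonormal.1 i
  have f2 : FF (NormedSpace.exp w) =
      ∑ i, (Real.exp (μ i) ^ 2 + Real.exp (-μ i) ^ 2) := by
    rw [f1]
    refine Finset.sum_congr rfl fun i _ => ?_
    rw [hnb i, one_mul, one_pow, mul_one, mul_one]
  have h1 : ∀ i, |μ i| ≤ R := by
    intro i
    have h2 : Real.exp (μ i) ^ 2 + Real.exp (-μ i) ^ 2 ≤ R := by
      rw [f2] at hR
      refine le_trans ?_ hR
      exact Finset.single_le_sum (f := fun i => Real.exp (μ i) ^ 2 + Real.exp (-μ i) ^ 2)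
        (fun j _ => by positivity) (Finset.mem_univ i)
    have h3 := Real.add_one_le_exp (μ i)
    have h4 := Real.add_one_le_exp (-μ i)
    have h5 := Real.exp_pos (μ i)
    have h6 := Real.exp_pos (-μ i)
    have h7 : Real.exp (μ i) ≤ Real.exp (μ i) ^ 2 + 1 := by nlinarith [sq_nonneg (Real.exp (μ i) - 1)]
    rw [abs_le]
    constructor
    · nlinarith [sq_nonneg (Real.exp (-μ i) - 1), sq_nonneg (Real.exp (μ i))]
    · nlinarith [sq_nonneg (Real.exp (μ i) - 1), sq_nonneg (Real.exp (-μ i))]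
  have h2 : hs w ≤ n * R ^ 2 := by
    rw [hs_eq_sum_basis b]
    calc ∑ i, ‖w (b i)‖ ^ 2 ≤ ∑ _i : Fin n, R ^ 2 := by
          refine Finset.sum_le_sum fun i _ => ?_
          rw [hb i, norm_smul, b.orthonormal.1 i, mul_one, Complex.norm_real, Real.norm_eq_abs]
          have := h1 i
          have h0 := abs_nonneg (μ i)
          nlinarith
      _ = n * R ^ 2 := by
          rw [Finset.sum_const, Finset.card_univ, Fintype.card_fin, nsmul_eq_mul]
  exact Real.le_sqrt_of_sq_le ((HSAux.norm_sq_le w).trans h2)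

/-- `FF` is bounded on `exp` of bounded sets. -/
theorem FF_exp_le (n : ℕ) (C : ℝ) : ∃ R : ℝ, ∀ w : Op n, ‖w‖ ≤ C → FF (NormedSpace.exp w) ≤ R := by
  have h1 : Continuous fun w : Op n => hs (NormedSpace.exp w) + hs (NormedSpace.exp (-w)) :=
    (HSAux.continuous_hs.comp HSAux.exp_cont).add
      (HSAux.continuous_hs.comp (HSAux.exp_cont.comp continuous_neg))
  obtain ⟨R, hR⟩ := ((isCompact_closedBall (0 : Op n) C).bddAbove_image h1.continuousOn)
  refine ⟨R, fun w hw => ?_⟩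
  rw [HSAux.FF_exp]
  refine hR ⟨w, ?_, rfl⟩
  rw [Metric.mem_closedBall, dist_zero_right]
  exact hw

theorem FF_mul_le {a b : Op n} (ha : IsUnit a) (hb : IsUnit b) : FF (a * b) ≤ FF a * FF b := by
  obtain ⟨a', a1, a2⟩ := HSAux.isUnit_iff'.1 ha
  obtain ⟨b', b1, b2⟩ := HSAux.isUnit_iff'.1 hb
  have h3 : (a * b) * (b' * a') = 1 := by
    rw [mul_assoc, ← mul_assoc b, b1, one_mul, a1]
  have h4 : (b' * a') * (a * b) = 1 := by
    rw [mul_assoc, ← mul_assoc a', a2, one_mul, b2]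
  rw [FF_eq h3 h4, FF_eq a1 a2, FF_eq b1 b2]
  have h5 := HSAux.hs_mul_le a b
  have h6 := HSAux.hs_mul_le b' a'
  have h7 := HSAux.hs_nonneg a
  have h8 := HSAux.hs_nonneg b
  have h9 := HSAux.hs_nonneg a'
  have h10 := HSAux.hs_nonneg b'
  nlinarith [mul_nonneg h7 h10, mul_nonneg h9 h8]

end EqOka
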