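import Pool.Agent.Lib.MP_fe51c6_an_EO.Grp

/-! Orthogonal decomposition with respect to `tr(ξ η*)`. -/

open scoped Topology
open Set

noncomputable section

namespace EqOka

variable {n : ℕ}

/-- the trace as a sum of inner products -/
private theorem orth_trace (T : Op n) : LinearMap.trace ℂ (Cd n) (T : Cd n →ₗ[ℂ] Cd n) =
    ∑ i : Fin n, inner ℂ (EuclideanSpace.single i (1 : ℂ)) (T (EuclideanSpace.single i (1 : ℂ))) := by
  rw [LinearMap.trace_eq_sum_inner _ (EuclideanSpace.basisFun (Fin n) ℂ)]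
  refine Finset.sum_congr rfl fun i _ => ?_
  rw [EuclideanSpace.basisFun_apply]
  rfl

private theorem orth_trace_mul (S T : Op n) :
    LinearMap.trace ℂ (Cd n) ((S * T : Op n) : Cd n →ₗ[ℂ] Cd n) =
      LinearMap.trace ℂ (Cd n) ((T * S : Op n) : Cd n →ₗ[ℂ] Cd n) :=
  LinearMap.trace_mul_comm ℂ (S : Cd n →ₗ[ℂ] Cd n) (T : Cd n →ₗ[ℂ] Cd n)

/-- the columns of an operator -/
private def orthV : Op n →ₗ[ℂ] PiLp 2 (fun _ : Fin n => Cd n) where
  toFun T := WithLp.toLp 2 fun i => T (EuclideanSpace.single i (1 : ℂ))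
  map_add' S T := by
    ext i : 1
    simp
  map_smul' c T := by
    ext i : 1
    simp

private theorem orth_inner (ξ ζ : Op n) : inner ℂ (orthV ξ) (orthV ζ) =
    LinearMap.trace ℂ (Cd n) ((ζ * star ξ : Op n) : Cd n →ₗ[ℂ] Cd n) := by
  rw [orth_trace_mul, orth_trace, PiLp.inner_apply]
  refine Finset.sum_congr rfl fun i _ => ?_
  rw [ContinuousLinearMap.star_eq_adjoint, mul_apply_eq_comp,
    ContinuousLinearMap.adjoint_inner_right]
  rfl

private theorem orthV_inj {ζ : Op n} (h : orthV ζ = 0) : ζ = 0 := by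
  have h1 : ∀ i : Fin n, ζ (EuclideanSpace.single i (1 : ℂ)) = 0 := by
    intro i
    have := congrArg (fun v : PiLp 2 (fun _ : Fin n => Cd n) => v i) h
    exact this
  have h2 : (ζ : Cd n →ₗ[ℂ] Cd n) = 0 := by
    refine (EuclideanSpace.basisFun (Fin n) ℂ).toBasis.ext fun i => ?_
    rw [OrthonormalBasis.coe_toBasis, EuclideanSpace.basisFun_apply]
    exact h1 i
  ext1 v
  exact LinearMap.congr_fun h2 v

theorem perp_inf (𝔩 : Submodule ℂ (Op n)) : 𝔩 ⊓ perp 𝔩 = ⊥ := by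
  rw [eq_bot_iff]
  rintro ζ ⟨h1, h2⟩
  have h3 : LinearMap.trace ℂ (Cd n) ((ζ * star ζ : Op n) : Cd n →ₗ[ℂ] Cd n) = 0 := h2 ζ h1
  rw [← orth_inner, inner_self_eq_zero] at h3
  exact orthV_inj h3

theorem exists_orth_decomp (𝔩 : Submodule ℂ (Op n)) (w : Op n) :
    ∃ a ∈ 𝔩, ∃ b ∈ perp 𝔩, w = a + b := by
  obtain ⟨y, hy, z, hz, hw⟩ :=
    Submodule.exists_add_mem_mem_orthogonal (K := 𝔩.map orthV) (orthV w)
  obtain ⟨a, ha, rfl⟩ := hy
  refine ⟨a, ha, w - a, ?_, by abel⟩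
  intro ξ hξ
  have h1 : orthV (w - a) = z := by
    rw [map_sub, hw]
    abel
  rw [← orth_inner, h1]
  exact (Submodule.mem_orthogonal _ _).1 hz _ ⟨ξ, hξ, rfl⟩

private theorem orth_trace_star (T : Op n) :
    LinearMap.trace ℂ (Cd n) ((star T : Op n) : Cd n →ₗ[ℂ] Cd n) =
      (starRingEnd ℂ) (LinearMap.trace ℂ (Cd n) (T : Cd n →ₗ[ℂ] Cd n)) := by
  rw [orth_trace, orth_trace, map_sum]
  refine Finset.sum_congr rfl fun i _ => ?_
  rw [ContinuousLinearMap.star_eq_adjoint, ContinuousLinearMap.adjoint_inner_right,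
    inner_conj_symm]

private theorem orth_star {𝔩 : Submodule ℂ (Op n)} (hs : StarCl 𝔩) {b : Op n}
    (hb : b ∈ perp 𝔩) : star b ∈ perp 𝔩 := by
  intro ξ hξ
  have h1 : LinearMap.trace ℂ (Cd n) ((b * star (star ξ) : Op n) : Cd n →ₗ[ℂ] Cd n) = 0 :=
    hb (star ξ) (hs ξ hξ)
  rw [star_star] at h1
  have h2 : star b * star ξ = star (ξ * b) := by rw [star_mul]
  rw [h2, orth_trace_star, orth_trace_mul, h1, map_zero]

/-- A selfadjoint `w` normalising `𝔩` is the sum of commuting selfadjoint elements of `𝔩` and of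
`perp 𝔩`; the second one commutes with `𝔩`. -/
theorem orth_split {𝔩 : Submodule ℂ (Op n)} (hs : StarCl 𝔩) (hb : BrCl 𝔩) {w : Op n}
    (hw : IsSelfAdjoint w) (h : ∀ ζ ∈ 𝔩, w * ζ - ζ * w ∈ 𝔩) :
    ∃ a ∈ 𝔩, ∃ b ∈ perp 𝔩, IsSelfAdjoint a ∧ IsSelfAdjoint b ∧ w = a + b ∧
      ∀ ζ ∈ 𝔩, b * ζ = ζ * b := by
  obtain ⟨a, ha, b, hbp, hwab⟩ := exists_orth_decomp 𝔩 w
  have hinf : ∀ ζ : Op n, ζ ∈ 𝔩 → ζ ∈ perp 𝔩 → ζ = 0 := by
    intro ζ h1 h2
    have h3 : ζ ∈ 𝔩 ⊓ perp 𝔩 := ⟨h1, h2⟩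
    rw [perp_inf] at h3
    exact h3
  have h1 : star a - a = b - star b := by
    have h2 : star (a + b) = a + b := by
      rw [← hwab]
      exact hw
    have h20 : star a + star b = a + b := (star_add a b).symm.trans h2
    have h3 : star a - a = (star a + star b) - (a + star b) := by abel
    rw [h3, h20]
    abel
  have h2 : star a - a = 0 :=
    hinf _ (𝔩.sub_mem (hs a ha) ha) (by
      rw [h1]
      exact (perp 𝔩).sub_mem hbp (orth_star hs hbp))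
  have hsa : IsSelfAdjoint a := sub_eq_zero.1 h2
  have hsb : IsSelfAdjoint b := by
    rw [h2] at h1
    exact (sub_eq_zero.1 h1.symm).symm
  refine ⟨a, ha, b, hbp, hsa, hsb, hwab, fun ζ hζ => ?_⟩
  refine sub_eq_zero.1 (hinf _ ?_ ?_)
  · have h3 : b * ζ - ζ * b = (w * ζ - ζ * w) - (a * ζ - ζ * a) := by
      rw [hwab]
      noncomm_ring
    rw [h3]
    exact 𝔩.sub_mem (h ζ hζ) (hb a ha ζ hζ)
  · intro μ hμ
    have hν : star (ζ * star μ - star μ * ζ) ∈ 𝔩 := hs _ (hb ζ hζ _ (hs μ hμ))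
    have h3 : LinearMap.trace ℂ (Cd n)
        ((b * star (star (ζ * star μ - star μ * ζ)) : Op n) : Cd n →ₗ[ℂ] Cd n) = 0 := hbp _ hν
    rw [star_star] at h3
    have h4 : LinearMap.trace ℂ (Cd n)
        ((ζ * (b * star μ) : Op n) : Cd n →ₗ[ℂ] Cd n) =
        LinearMap.trace ℂ (Cd n) (((b * star μ) * ζ : Op n) : Cd n →ₗ[ℂ] Cd n) :=
      orth_trace_mul _ _
    have h5 : (b * ζ - ζ * b) * star μ = b * (ζ * star μ) - ζ * (b * star μ) := by
      rw [sub_mul, mul_assoc, mul_assoc]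
    have h6 : b * (ζ * star μ - star μ * ζ) = b * (ζ * star μ) - (b * star μ) * ζ := by
      rw [mul_sub, mul_assoc b (star μ) ζ]
    rw [h6, ContinuousLinearMap.toLinearMap_sub, map_sub] at h3
    rw [h5, ContinuousLinearMap.toLinearMap_sub, map_sub, h4]
    exact h3

end EqOka
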