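import Pool.Agent.Lib.MP_fe51c6_an_EO.Cls
import Pool.Agent.Lib.MP_fe51c6_an_EO.HS
import Pool.Agent.Lib.MP_fe51c6_an_EO.Orth

/-! Points near `x₀` are moved to minimal points by group elements in a bounded set. -/

open scoped Manifold Topology
open Set

noncomputable section

namespace EqOka

private theorem Bdd_exp_add {A : Type*} [NormedRing A] [NormedAlgebra ℂ A] [CompleteSpace A]
    {a b : A} (h : b * a = a * b) :
    NormedSpace.exp (a + b) = NormedSpace.exp b * NormedSpace.exp a := by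
  let _ : NormedAlgebra ℚ A := NormedAlgebra.restrictScalars ℚ ℂ A
  rw [add_comm]
  exact NormedSpace.exp_add_of_commute h

section Aux

variable {A : Type*} [CStarAlgebra A]

private theorem Bdd_star_aux {ι : Type} {l : Filter ι} [l.NeBot] {u : ι → A}
    {v : A} (h : Filter.Tendsto u l (𝓝 v)) (hs : ∀ i, IsSelfAdjoint (u i)) :
    IsSelfAdjoint v := by
  have h1 : Filter.Tendsto (fun i => star (u i)) l (𝓝 (star v)) :=
    (continuous_star.tendsto v).comp h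
  have h2 : (fun i => star (u i)) = u := funext fun i => (hs i).star_eq
  rw [h2] at h1
  exact tendsto_nhds_unique h1 h

private theorem Bdd_neg_aux {v : A} (h : IsSelfAdjoint v) : IsSelfAdjoint (-v) := h.neg

private theorem Bdd_smul_aux {v : A} (h : IsSelfAdjoint v) (t : ℝ) :
    IsSelfAdjoint ((t : ℂ) • v) :=
  IsSelfAdjoint.smul (show IsSelfAdjoint (t : ℂ) from Complex.conj_ofReal t) h

private theorem Bdd_br_aux (w ζ : A) : -((-w) * ζ - ζ * (-w)) = w * ζ - ζ * w := by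
  rw [neg_mul, mul_neg]
  abel

end Aux

variable {n d : ℕ} {G : RedGrp n} {X : Type} [TopologicalSpace X] [ChartedSpace (Cd d) X]
  [IsManifold 𝓘(ℂ, Cd d) 1 X] [T2Space X] [SecondCountableTopology X] {act : Op n → X → X}
  {ρ : X → ℝ}

private theorem Bdd_exp_tendsto {ι : Type} {l : Filter ι} {u : ι → Op n} {v : Op n}
    (h : Filter.Tendsto u l (𝓝 v)) :
    Filter.Tendsto (fun i => NormedSpace.exp (u i)) l (𝓝 (NormedSpace.exp v)) := by
  let _ : NormedAlgebra ℚ (Op n) := NormedAlgebra.restrictScalars ℚ ℂ (Op n)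
  exact (NormedSpace.exp_continuous.tendsto v).comp h

private theorem Bdd_selfAdjoint_of_tendsto {ι : Type} {l : Filter ι} [l.NeBot] {u : ι → Op n}
    {v : Op n} (h : Filter.Tendsto u l (𝓝 v)) (hs : ∀ i, IsSelfAdjoint (u i)) :
    IsSelfAdjoint v := Bdd_star_aux h hs

private theorem Bdd_mem_of_tendsto {ι : Type} {l : Filter ι} [l.NeBot] {u : ι → Op n}
    {v : Op n} (h : Filter.Tendsto u l (𝓝 v)) (S : Submodule ℂ (Op n)) (hs : ∀ i, u i ∈ S) :
    v ∈ S :=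
  (Submodule.closed_of_finiteDimensional S).mem_of_tendsto h (Filter.Eventually.of_forall hs)

/-- A point with stabiliser algebra `𝔩` is `exp(w) m` with `m` minimal, `stab m = 𝔩` and
`w ∈ perp 𝔩` selfadjoint. -/
theorem exists_orth_transport (hA : HolAct d G act) (hρ : Exh d G act ρ) (hc : ClosedOrbits G act)
    {𝔩 : Submodule ℂ (Op n)} (hs : StarCl 𝔩) {x : X} (hx : x ∈ SS G act 𝔩) :
    ∃ w ∈ G.lie, w ∈ perp 𝔩 ∧ IsSelfAdjoint w ∧ ∃ m ∈ SS G act 𝔩, IsMn G act ρ m ∧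
      act (NormedSpace.exp w) m = x := by
  have hx' : stab G act x = 𝔩 := hx
  obtain ⟨g, hg, m₁, hm₁, hmn₁, hgm⟩ := exists_mn_SS hA hρ hc hs (SS_subset_Cls hA 𝔩 hx)
  obtain ⟨w, hw, k, hk, hws, rfl⟩ := RedGrp.polar_right hg
  have hmn₂ : IsMn G act ρ (act k m₁) := mn_K hA hρ hmn₁ hk
  have hxe : act (NormedSpace.exp w) (act k m₁) = x := by
    rw [← hA.mul _ (RedGrp.exp_mem hw) _ hk.1]
    exact hgm
  obtain ⟨m₂, hm₂⟩ : ∃ m₂, m₂ = act k m₁ := ⟨_, rfl⟩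
  rw [← hm₂] at hmn₂ hxe
  have hm₂e : m₂ = act (NormedSpace.exp (-w)) x := by
    rw [← hxe]
    exact ((hA.inv_act (RedGrp.exp_mem hw) (exp_neg_mul_self w).2 m₂).2).symm
  have hst : stab G act m₂ = conjS (NormedSpace.exp (-w)) (NormedSpace.exp w) 𝔩 := by
    rw [hm₂e, stab_act hA (RedGrp.exp_mem (G.lie.neg_mem hw)) (exp_neg_mul_self w).1 x, hx']
  have hstar : StarCl (conjS (NormedSpace.exp (-w)) (NormedSpace.exp w) 𝔩) := by
    rw [← hst]
    exact mn_stab_starCl hA hρ hmn₂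
  have hbr : ∀ ζ ∈ 𝔩, (-w) * ζ - ζ * (-w) ∈ 𝔩 := by
    refine bracket_of_starCl hs (Bdd_neg_aux hws) ?_
    rw [neg_neg]
    exact hstar
  have hbr' : ∀ ζ ∈ 𝔩, w * ζ - ζ * w ∈ 𝔩 := by
    intro ζ hζ
    have h1 := 𝔩.neg_mem (hbr ζ hζ)
    have h2 : -((-w) * ζ - ζ * (-w)) = w * ζ - ζ * w := Bdd_br_aux w ζ
    rwa [h2] at h1
  have hst2 : stab G act m₂ = 𝔩 := by
    have h1 := conj_exp_of_bracket hbr
    rw [neg_neg] at h1
    rw [hst, h1]
  have hb : BrCl 𝔩 := by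
    rw [← hx']
    exact stab_brCl hA x
  obtain ⟨a, ha, b, hb', hsa, hsb, hab, hcomm⟩ := orth_split hs hb hws hbr'
  have hal : a ∈ G.lie := by
    have h1 : a ∈ stab G act x := by rw [hx']; exact ha
    exact stab_le x h1
  have hbl : b ∈ G.lie := by
    have h1 : b = w - a := by rw [hab]; abel
    rw [h1]
    exact G.lie.sub_mem hw hal
  have hafix : act (NormedSpace.exp a) m₂ = m₂ := by
    have h1 : a ∈ stab G act m₂ := by rw [hst2]; exact ha
    have h2 := ((mem_stab_real hA m₂ a).1 h1).2 1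
    rwa [Complex.ofReal_one, one_smul] at h2
  refine ⟨b, hbl, hb', hsb, m₂, hst2, hmn₂, ?_⟩
  have h1 : NormedSpace.exp w = NormedSpace.exp b * NormedSpace.exp a := by
    rw [hab]
    exact Bdd_exp_add (hcomm a ha)
  rw [h1, hA.mul _ (RedGrp.exp_mem hbl) _ (RedGrp.exp_mem hal), hafix] at hxe
  exact hxe

/-- Boundedness of the transport for a convergent sequence in `SS 𝔩`. -/
theorem transport_bounded (hA : HolAct d G act) (hρ : Exh d G act ρ) (hc : ClosedOrbits G act)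
    {𝔩 : Submodule ℂ (Op n)} (hs : StarCl 𝔩) (x : ℕ → X) (x₀ : X) (hx : ∀ j, x j ∈ SS G act 𝔩)
    (hlim : Filter.Tendsto x Filter.atTop (𝓝 x₀)) (w : ℕ → Op n) (m : ℕ → X)
    (hw : ∀ j, w j ∈ G.lie ∧ w j ∈ perp 𝔩 ∧ IsSelfAdjoint (w j))
    (hm : ∀ j, m j ∈ SS G act 𝔩 ∧ IsMn G act ρ (m j) ∧ act (NormedSpace.exp (w j)) (m j) = x j) :
    ∃ C : ℝ, ∀ j, ‖w j‖ ≤ C := by
  have hprop : ProperSpace (Op n) := FiniteDimensional.proper ℂ (Op n)
  by_contra hcon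
  push Not at hcon
  obtain ⟨C, hC⟩ : ∃ C : ℝ, ∀ j, ρ (x j) ≤ C := by
    obtain ⟨C, hC⟩ := ((hρ.cont.tendsto x₀).comp hlim).bddAbove_range
    exact ⟨C, fun j => hC ⟨j, rfl⟩⟩
  have hmC : ∀ j, ρ (m j) ≤ C := by
    intro j
    have h1 := (hm j).2.1 _ (RedGrp.exp_mem (hw j).1)
    rw [(hm j).2.2] at h1
    exact h1.trans (hC j)
  choose φ hφ using fun k : ℕ => hcon ((k : ℝ) + 1)
  obtain ⟨T, hT⟩ : ∃ T : ℕ → ℝ, ∀ k, T k = ‖w (φ k)‖ := ⟨_, fun _ => rfl⟩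
  have hT1 : ∀ k : ℕ, (k : ℝ) + 1 < T k := fun k => by rw [hT]; exact hφ k
  have hT0 : ∀ k, 0 < T k := fun k => lt_trans (by positivity) (hT1 k)
  have hTi : ∀ k, (T k)⁻¹ ≤ ((k : ℝ) + 1)⁻¹ := fun k =>
    inv_anti₀ (by positivity) (hT1 k).le
  have hTi1 : ∀ k, (T k)⁻¹ ∈ Icc (0 : ℝ) 1 := by
    intro k
    refine ⟨(inv_pos.2 (hT0 k)).le, (hTi k).trans ?_⟩
    apply inv_le_one_of_one_le₀
    have : (0 : ℝ) ≤ k := Nat.cast_nonneg k
    linarith
  have hTlim : Filter.Tendsto (fun k => (T k)⁻¹) Filter.atTop (𝓝 0) := by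
    refine squeeze_zero (fun k => (hTi1 k).1) hTi ?_
    have h1 := tendsto_one_div_add_atTop_nhds_zero_nat (𝕜 := ℝ)
    refine h1.congr fun k => ?_
    rw [one_div]
  obtain ⟨u, hu⟩ : ∃ u : ℕ → Op n, ∀ k, u k = (((T k)⁻¹ : ℝ) : ℂ) • w (φ k) := ⟨_, fun _ => rfl⟩
  have hun : ∀ k, ‖u k‖ = 1 := by
    intro k
    rw [hu, norm_smul, Complex.norm_real, Real.norm_of_nonneg (hTi1 k).1, ← hT]
    exact inv_mul_cancel₀ (hT0 k).ne'
  have hcpt : IsCompact ({y : X | ρ y ≤ C} ×ˢ Metric.sphere (0 : Op n) 1) :=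
    (hρ.proper C).prod (isCompact_sphere (0 : Op n) 1)
  obtain ⟨⟨mi, ν⟩, hmem, ψ, hψ, hlim2⟩ := hcpt.tendsto_subseq
    (x := fun k => (m (φ k), u k)) (fun k => ⟨hmC _, by simp [hun k]⟩)
  have hmlim : Filter.Tendsto (fun k => m (φ (ψ k))) Filter.atTop (𝓝 mi) :=
    (continuous_fst.tendsto (mi, ν)).comp hlim2
  have hulim : Filter.Tendsto (fun k => u (ψ k)) Filter.atTop (𝓝 ν) :=
    (continuous_snd.tendsto (mi, ν)).comp hlim2
  have hν1 : ‖ν‖ = 1 := by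
    have h1 := hmem.2
    simpa using h1
  have hul : ∀ k, u k ∈ G.lie := fun k => by
    rw [hu]; exact G.lie.smul_mem _ (hw _).1
  have hνl : ν ∈ G.lie := Bdd_mem_of_tendsto hulim G.lie fun k => hul _
  have hνp : ν ∈ perp 𝔩 := Bdd_mem_of_tendsto hulim (perp 𝔩) fun k => by
    rw [hu]; exact (perp 𝔩).smul_mem _ (hw _).2.1
  have hνs : IsSelfAdjoint ν := Bdd_selfAdjoint_of_tendsto hulim fun k => by
    rw [hu]
    exact Bdd_smul_aux (hw _).2.2 _
  have hmi : IsMn G act ρ mi :=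
    (mn_closed hA hρ).mem_of_tendsto hmlim (Filter.Eventually.of_forall fun k => (hm _).2.1)
  have hmiS : mi ∈ SS G act 𝔩 :=
    (isClosed_SS hA hρ hc 𝔩).mem_of_tendsto hmlim (Filter.Eventually.of_forall fun k => (hm _).1)
  have hle : ρ (act (NormedSpace.exp ν) mi) ≤ ρ mi := by
    have h1 : Filter.Tendsto (fun k => ρ (act (NormedSpace.exp (u (ψ k))) (m (φ (ψ k)))))
        Filter.atTop (𝓝 (ρ (act (NormedSpace.exp ν) mi))) := by
      refine (hρ.cont.tendsto _).comp ?_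
      exact hA.tendsto (Filter.Eventually.of_forall fun k => RedGrp.exp_mem (hul _))
        (RedGrp.exp_mem hνl) (Bdd_exp_tendsto hulim) hmlim
    have h2 : Filter.Tendsto (fun k => (1 - (T (ψ k))⁻¹) * ρ (m (φ (ψ k))) + (T (ψ k))⁻¹ * C)
        Filter.atTop (𝓝 ((1 - 0) * ρ mi + 0 * C)) := by
      have h3 := hTlim.comp hψ.tendsto_atTop
      exact ((tendsto_const_nhds.sub h3).mul ((hρ.cont.tendsto mi).comp hmlim)).add
        (h3.mul tendsto_const_nhds)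
    have h4 : ((1 - 0) * ρ mi + 0 * C) = ρ mi := by ring
    rw [h4] at h2
    refine le_of_tendsto_of_tendsto' h1 h2 fun k => ?_
    have h5 := hρ.convex (w (φ (ψ k))) (hw _).1 (hw _).2.2 (m (φ (ψ k))) ((T (ψ k))⁻¹) (hTi1 _)
    rw [(hm _).2.2, ← hu] at h5
    have h6 := mul_le_mul_of_nonneg_left (hC (φ (ψ k))) (hTi1 (ψ k)).1
    linarith
  have hfix := mn_fix hA hρ hmi hνl hνs hle
  have h7 : ν ∈ 𝔩 := by
    have h8 : stab G act mi = 𝔩 := hmiS
    rwa [h8] at hfix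
  have h9 : ν ∈ 𝔩 ⊓ perp 𝔩 := ⟨h7, hνp⟩
  rw [perp_inf, Submodule.mem_bot] at h9
  rw [h9, norm_zero] at hν1
  exact zero_ne_one hν1

/-- The transport of points of `SS 𝔩` near a minimal point of `SS 𝔩` is small. -/
theorem transport_tendsto (hA : HolAct d G act) (hρ : Exh d G act ρ) (hc : ClosedOrbits G act)
    {𝔩 : Submodule ℂ (Op n)} (hs : StarCl 𝔩) (x : ℕ → X) (m₀ : X) (hx : ∀ j, x j ∈ SS G act 𝔩)
    (hm₀ : IsMn G act ρ m₀) (hlim : Filter.Tendsto x Filter.atTop (𝓝 m₀)) (w : ℕ → Op n)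
    (m : ℕ → X) (hw : ∀ j, w j ∈ G.lie ∧ w j ∈ perp 𝔩 ∧ IsSelfAdjoint (w j))
    (hm : ∀ j, m j ∈ SS G act 𝔩 ∧ IsMn G act ρ (m j) ∧ act (NormedSpace.exp (w j)) (m j) = x j) :
    Filter.Tendsto w Filter.atTop (𝓝 0) := by
  have hprop : ProperSpace (Op n) := FiniteDimensional.proper ℂ (Op n)
  obtain ⟨C, hC⟩ := transport_bounded hA hρ hc hs x m₀ hx hlim w m hw hm
  have hm₀S : stab G act m₀ = 𝔩 :=
    (isClosed_SS hA hρ hc 𝔩).mem_of_tendsto hlim (Filter.Eventually.of_forall hx)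
  refine Filter.tendsto_of_subseq_tendsto fun ns hns => ?_
  obtain ⟨ν, -, ψ, hψ, hlim2⟩ := (isCompact_closedBall (0 : Op n) C).tendsto_subseq
    (x := fun k => w (ns k)) (fun k => by simpa using hC (ns k))
  have hwlim : Filter.Tendsto (fun k => w (ns (ψ k))) Filter.atTop (𝓝 ν) := hlim2
  have hνl : ν ∈ G.lie := Bdd_mem_of_tendsto hwlim G.lie fun k => (hw _).1
  have hνp : ν ∈ perp 𝔩 := Bdd_mem_of_tendsto hwlim (perp 𝔩) fun k => (hw _).2.1
  have hνs : IsSelfAdjoint ν := Bdd_selfAdjoint_of_tendsto hwlim fun k => (hw _).2.2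
  have hxlim : Filter.Tendsto (fun k => x (ns (ψ k))) Filter.atTop (𝓝 m₀) :=
    hlim.comp (hns.comp hψ.tendsto_atTop)
  have hmlim : Filter.Tendsto (fun k => m (ns (ψ k))) Filter.atTop
      (𝓝 (act (NormedSpace.exp (-ν)) m₀)) := by
    have h1 : (fun k => m (ns (ψ k))) =
        fun k => act (NormedSpace.exp (-(w (ns (ψ k))))) (x (ns (ψ k))) := by
      funext k
      rw [← (hm (ns (ψ k))).2.2]
      exact ((hA.inv_act (RedGrp.exp_mem (hw _).1) (exp_neg_mul_self _).2 _).2).symm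
    rw [h1]
    exact hA.tendsto
      (Filter.Eventually.of_forall fun k => RedGrp.exp_mem (G.lie.neg_mem (hw _).1))
      (RedGrp.exp_mem (G.lie.neg_mem hνl)) (Bdd_exp_tendsto hwlim.neg) hxlim
  have hmn : IsMn G act ρ (act (NormedSpace.exp (-ν)) m₀) :=
    (mn_closed hA hρ).mem_of_tendsto hmlim (Filter.Eventually.of_forall fun k => (hm _).2.1)
  have hle : ρ (act (NormedSpace.exp (-ν)) m₀) ≤ ρ m₀ := by
    have h1 := hmn _ (RedGrp.exp_mem hνl)
    rwa [(hA.inv_act (RedGrp.exp_mem hνl) (exp_neg_mul_self ν).2 m₀).1] at h1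
  have hfix := mn_fix hA hρ hm₀ (G.lie.neg_mem hνl) (Bdd_neg_aux hνs) hle
  rw [hm₀S] at hfix
  have h7 : ν ∈ 𝔩 := by
    have h8 := 𝔩.neg_mem hfix
    rwa [neg_neg] at h8
  have h9 : ν ∈ 𝔩 ⊓ perp 𝔩 := ⟨h7, hνp⟩
  rw [perp_inf, Submodule.mem_bot] at h9
  rw [h9] at hwlim
  exact ⟨ψ, hwlim⟩

/-- The local version at a minimal point. -/
private theorem Bdd_local (hA : HolAct d G act) (hρ : Exh d G act ρ) (hc : ClosedOrbits G act)
    {m₀ : X} (hm₀ : IsMn G act ρ m₀) (V : Set (Op n)) (hV : V ∈ 𝓝 (1 : Op n)) :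
    ∀ᶠ y in 𝓝 m₀, ∃ g' ∈ G.carrier, g' ∈ V ∧ ∃ m, IsMn G act ρ m ∧ act g' m = y := by
  have hs : StarCl (stab G act m₀) := mn_stab_starCl hA hρ hm₀
  obtain ⟨Q, hQ1, hQ2⟩ := exists_complement (stab G act m₀) G.lie (stab_le m₀)
  obtain ⟨Θ, P, π, h⟩ := exists_slice hA hc m₀ hs Q hQ1 hQ2
  have hQl : Q ≤ G.lie := by
    rw [← hQ2]
    exact le_sup_left
  by_contra hcon
  have hfr := (Filter.not_eventually.1 hcon).and_eventually (Θ.open_source.mem_nhds h.mem)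
  obtain ⟨y, hy, hyP⟩ := Filter.exists_seq_forall_of_frequently hfr
  have hyS : ∀ j, y j ∈ Θ.source := fun j => (hyP j).2
  have hΘ : Filter.Tendsto (fun j => Θ (y j)) Filter.atTop (𝓝 0) := by
    have h1 := (Θ.continuousAt h.mem).tendsto.comp hy
    rw [h.zero] at h1
    exact h1
  have hπ : Filter.Tendsto (fun j => π (Θ (y j))) Filter.atTop (𝓝 0) := by
    have h1 := (π.continuous.tendsto 0).comp hΘ
    rw [map_zero] at h1
    exact h1
  have hPl : Filter.Tendsto (fun j => P (Θ (y j))) Filter.atTop (𝓝 0) := by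
    have h1 := (P.continuous.tendsto 0).comp hΘ
    rw [map_zero] at h1
    exact h1
  have hsl : Filter.Tendsto (fun j => Θ.symm (π (Θ (y j)))) Filter.atTop (𝓝 m₀) := by
    have h0 : (0 : Cd d) ∈ Θ.target := by
      rw [← h.zero]
      exact Θ.map_source h.mem
    have h1 := (Θ.symm.continuousAt (x := (0 : Cd d)) (by simpa using h0)).tendsto.comp hπ
    have h2 : Θ.symm 0 = m₀ := by
      rw [← h.zero]
      exact Θ.left_inv h.mem
    rw [h2] at h1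
    exact h1
  have hsS : ∀ j, Θ.symm (π (Θ (y j))) ∈ SS G act (stab G act m₀) := fun j =>
    h.stab_eq _ (Θ.map_source (hyS j))
  choose w hwl hwp hws m hmS hmn hme using fun j => exists_orth_transport hA hρ hc hs (hsS j)
  have hw0 := transport_tendsto hA hρ hc hs (fun j => Θ.symm (π (Θ (y j)))) m₀ hsS hm₀ hsl w m
    (fun j => ⟨hwl j, hwp j, hws j⟩) (fun j => ⟨hmS j, hmn j, hme j⟩)
  have hgl : Filter.Tendsto (fun j => NormedSpace.exp (P (Θ (y j))) * NormedSpace.exp (w j))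
      Filter.atTop (𝓝 1) := by
    have h1 := (Bdd_exp_tendsto hPl).mul (Bdd_exp_tendsto hw0)
    rw [NormedSpace.exp_zero, one_mul] at h1
    exact h1
  obtain ⟨j, hj⟩ := (hgl.eventually hV).exists
  refine (hyP j).1 ⟨_, G.mul_mem _ (RedGrp.exp_mem (hQl (h.maps _))) _ (RedGrp.exp_mem (hwl j)),
    hj, m j, hmn j, ?_⟩
  rw [hA.mul _ (RedGrp.exp_mem (hQl (h.maps _))) _ (RedGrp.exp_mem (hwl j)), hme j]
  exact (h.eq _ (hyS j)).symm

/-- Points near `x₀ = g m₀`, `m₀` minimal, are obtained from minimal points by group elements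
near `g`. -/
theorem approx_T (hA : HolAct d G act) (hρ : Exh d G act ρ) (hc : ClosedOrbits G act) {x₀ m₀ : X}
    {g : Op n} (hg : g ∈ G.carrier) (hm₀ : IsMn G act ρ m₀) (hgm : act g m₀ = x₀)
    (U : Set (Op n)) (hU : U ∈ 𝓝 g) :
    ∀ᶠ x in 𝓝 x₀, ∃ g' ∈ G.carrier, g' ∈ U ∧ ∃ m, IsMn G act ρ m ∧ act g' m = x := by
  have hV : {v : Op n | g * v ∈ U} ∈ 𝓝 (1 : Op n) := by
    have h1 : Filter.Tendsto (fun v : Op n => g * v) (𝓝 1) (𝓝 (g * 1)) :=
      (continuous_const.mul continuous_id).tendsto 1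
    rw [mul_one] at h1
    exact h1 hU
  have hloc := Bdd_local hA hρ hc hm₀ _ hV
  rw [← hgm, ← hA.map_nhds hg m₀, Filter.eventually_map]
  filter_upwards [hloc] with y hy
  obtain ⟨g', hg', hgU, m, hm, he⟩ := hy
  refine ⟨g * g', G.mul_mem _ hg _ hg', hgU, m, hm, ?_⟩
  rw [hA.mul _ hg _ hg', he]

theorem exists_bdd (hA : HolAct d G act) (hρ : Exh d G act ρ) (hc : ClosedOrbits G act) (x₀ : X) :
    ∃ R : ℝ, ∀ᶠ x in 𝓝 x₀, ∃ g ∈ G.carrier, ∃ m, IsMn G act ρ m ∧ act g m = x ∧ FF g ≤ R := by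
  obtain ⟨g, hg, hm⟩ := exists_mn hA hρ hc x₀
  obtain ⟨h, hh, hgh, hhg⟩ := G.inv_mem g hg
  have he : act h (act g x₀) = x₀ := (hA.inv_act hg hgh x₀).2
  have hcont : ContinuousAt (FF : Op n → ℝ) h :=
    FF_continuousOn.continuousAt (Units.isOpen.mem_nhds (RedGrp.isUnit hh))
  have hU : {v : Op n | FF v < FF h + 1} ∈ 𝓝 h :=
    hcont.eventually_lt continuousAt_const (by linarith)
  refine ⟨FF h + 1, ?_⟩
  filter_upwards [approx_T hA hρ hc hh hm he _ hU] with x hx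
  obtain ⟨g', hg', hgU, m, hm', he'⟩ := hx
  exact ⟨g', hg', m, hm', he', le_of_lt hgU⟩

end EqOka
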