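import Pool.Agent.Lib.MP_fe51c6_an_EO.Haar

/-! Unitarisation of a representation of a compact group. -/

open scoped Topology
open Set

noncomputable section

namespace EqOka

variable {n d : ℕ}

open MeasureTheory in
theorem exists_unitarise (K : Set (Op n)) (hK : IsCompact K) (h1 : (1 : Op n) ∈ K)
    (hmul : ∀ a ∈ K, ∀ b ∈ K, a * b ∈ K) (hinv : ∀ a ∈ K, ∃ b ∈ K, a * b = 1 ∧ b * a = 1)
    (D : Op n → Cd d →L[ℂ] Cd d) (hD : ContinuousOn D K) (hD1 : D 1 = 1)
    (hDm : ∀ a ∈ K, ∀ b ∈ K, D (a * b) = D a * D b) :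
    ∃ J : Cd d ≃L[ℂ] Cd d, ∀ a ∈ K, ∀ v, ‖J (D a (J.symm v))‖ = ‖v‖ := by
  obtain ⟨μ, hμ, hμK, hμi⟩ := exists_haar K hK h1 hmul hinv
  -- inverses
  have hri : ∀ a b : Op n, a * b = 1 → b * a = 1 → Ring.inverse a = b := by
    intro a b hab hba
    exact Ring.inverse_unit (⟨a, b, hab, hba⟩ : (Op n)ˣ)
  have hrK : ∀ a ∈ K, Ring.inverse a ∈ K := by
    intro a ha
    obtain ⟨b, hb, hab, hba⟩ := hinv a ha
    rw [hri a b hab hba]
    exact hb
  have hrc : ContinuousOn (fun a : Op n => Ring.inverse a) K := by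
    intro a ha
    obtain ⟨b, hb, hab, hba⟩ := hinv a ha
    exact (NormedRing.inverse_continuousAt (⟨a, b, hab, hba⟩ : (Op n)ˣ)).continuousWithinAt
  let S : Op n → Cd d →L[ℂ] Cd d := fun a => D (Ring.inverse a)
  have hS : ContinuousOn S K := hD.comp hrc (fun a ha => hrK a ha)
  have hSD : ∀ a ∈ K, D a * S a = 1 := by
    intro a ha
    obtain ⟨b, hb, hab, hba⟩ := hinv a ha
    change D a * D (Ring.inverse a) = 1
    rw [hri a b hab hba, ← hDm a ha b hb, hab, hD1]
  -- the operator-valued function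
  let P : Op n → Cd d →L[ℂ] Cd d := fun a => ContinuousLinearMap.adjoint (S a) * S a
  have hP : ContinuousOn P K :=
    (ContinuousLinearMap.adjoint.continuous.comp_continuousOn hS).mul hS
  have hres : μ.restrict K = μ := by
    rw [Measure.restrict_eq_self_of_ae_mem]
    rw [ae_iff]
    exact hμK
  have hPi : Integrable P μ := by
    have h := hP.integrableOn_compact (μ := μ) hK
    rw [IntegrableOn, hres] at h
    exact h
  let B : Cd d →L[ℂ] Cd d := ∫ a, P a ∂μ
  have hB : ∀ v, inner ℂ v (B v) = ∫ a, inner ℂ v (P a v) ∂μ := by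
    intro v
    have h2 : B v = ∫ a, P a v ∂μ := ContinuousLinearMap.integral_apply hPi v
    rw [h2]
    exact ((innerSL ℂ v).integral_comp_comm (hPi.apply_continuousLinearMap v)).symm
  have hPv : ∀ a v, (inner ℂ v (P a v) : ℂ) = ((‖S a v‖ ^ 2 : ℝ) : ℂ) := by
    intro a v
    change inner ℂ v (ContinuousLinearMap.adjoint (S a) (S a v)) = _
    rw [ContinuousLinearMap.adjoint_inner_right, inner_self_eq_norm_sq_to_K]
    push_cast
    rfl
  have hBr : ∀ v, (inner ℂ v (B v) : ℂ) = ((∫ a, ‖S a v‖ ^ 2 ∂μ : ℝ) : ℂ) := by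
    intro v
    rw [hB]
    simp_rw [hPv]
    exact integral_ofReal
  have hSi : ∀ v, Integrable (fun a => ‖S a v‖ ^ 2) μ := by
    intro v
    have hc : ContinuousOn (fun a => ‖S a v‖ ^ 2) K := by
      have h3 : ContinuousOn (fun a => S a v) K := by
        exact (ContinuousLinearMap.apply ℂ (Cd d) v).continuous.comp_continuousOn hS
      exact h3.norm.pow 2
    have h := hc.integrableOn_compact (μ := μ) hK
    rw [IntegrableOn, hres] at h
    exact h
  have hpos : ∀ v, v ≠ 0 → 0 < ∫ a, ‖S a v‖ ^ 2 ∂μ := by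
    intro v hv
    rw [integral_pos_iff_support_of_nonneg_ae (Filter.Eventually.of_forall
      fun a => by positivity) (hSi v)]
    have h3 : K ⊆ Function.support (fun a => ‖S a v‖ ^ 2) := by
      intro a ha h0
      have h4 : S a v = 0 := by
        have : ‖S a v‖ ^ 2 = 0 := h0
        exact norm_eq_zero.1 (pow_eq_zero_iff (two_ne_zero)|>.1 this)
      apply hv
      have h5 : (D a * S a) v = v := by rw [hSD a ha]; rfl
      rw [← h5]
      change D a (S a v) = 0
      rw [h4, map_zero]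
    have h4 : μ K = 1 := by
      rw [← measure_univ (μ := μ), ← hres]
      simp
    exact lt_of_lt_of_le (by rw [h4]; exact one_pos) (measure_mono h3)
  have hinvar : ∀ b ∈ K, ∀ v, ∫ a, ‖S a (D b v)‖ ^ 2 ∂μ = ∫ a, ‖S a v‖ ^ 2 ∂μ := by
    intro b hb v
    obtain ⟨c, hc, hbc, hcb⟩ := hinv b hb
    have h6 : ∫ a, ‖S a v‖ ^ 2 ∂μ = ∫ a, ‖S (c * a) v‖ ^ 2 ∂μ := by
      have h7 := hμi c hc
      have h8 : Integrable (fun a => ‖S a v‖ ^ 2) (Measure.map (fun x => c * x) μ) := by
        rw [h7]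
        exact hSi v
      calc ∫ a, ‖S a v‖ ^ 2 ∂μ = ∫ a, ‖S a v‖ ^ 2 ∂(Measure.map (fun x => c * x) μ) := by
            rw [h7]
        _ = ∫ a, ‖S (c * a) v‖ ^ 2 ∂μ :=
            integral_map (continuous_const_mul c).measurable.aemeasurable h8.1
    rw [h6]
    refine integral_congr_ae ?_
    have hae : ∀ᵐ a ∂μ, a ∈ K := by
      rw [ae_iff]
      exact hμK
    filter_upwards [hae] with a ha
    have h9 : S (c * a) = S a * D b := by
      obtain ⟨e, he, hae, hea⟩ := hinv a ha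
      change D (Ring.inverse (c * a)) = D (Ring.inverse a) * D b
      rw [hri a e hae hea, ← hDm e he b hb, hri (c * a) (e * b)]
      · calc c * a * (e * b) = c * (a * e) * b := by noncomm_ring
          _ = 1 := by rw [hae, mul_one, hcb]
      · calc e * b * (c * a) = e * (b * c) * a := by noncomm_ring
          _ = 1 := by rw [hbc, mul_one, hea]
    rw [h9]
    rfl
  have hB0 : 0 ≤ B := by
    rw [ContinuousLinearMap.nonneg_iff_isPositive, ContinuousLinearMap.isPositive_iff_complex]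
    intro v
    have h10 : (inner ℂ (B v) v : ℂ) = ((∫ a, ‖S a v‖ ^ 2 ∂μ : ℝ) : ℂ) := by
      rw [← inner_conj_symm, hBr, Complex.conj_ofReal]
    rw [h10]
    refine ⟨?_, ?_⟩
    · simp
    · simp only [RCLike.re_to_complex, Complex.ofReal_re]
      exact integral_nonneg fun a => by positivity
  let J : Cd d →L[ℂ] Cd d := CFC.sqrt B
  have hJJ : J * J = B := CFC.sqrt_mul_sqrt_self B hB0
  have hJs : IsSelfAdjoint J := (CFC.sqrt_nonneg B).isSelfAdjoint
  have hJn : ∀ v, ‖J v‖ ^ 2 = ∫ a, ‖S a v‖ ^ 2 ∂μ := by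
    intro v
    have h11 : (inner ℂ (J v) (J v) : ℂ) = inner ℂ v (B v) := by
      rw [← ContinuousLinearMap.adjoint_inner_right, hJs.adjoint_eq, ← hJJ]
      rfl
    rw [hBr, inner_self_eq_norm_sq_to_K] at h11
    have h14 : ((‖J v‖ ^ 2 : ℝ) : ℂ) = ((∫ a, ‖S a v‖ ^ 2 ∂μ : ℝ) : ℂ) := by
      rw [← h11]
      push_cast
      rfl
    exact Complex.ofReal_injective h14
  have hJinj : Function.Injective J := by
    rw [injective_iff_map_eq_zero]
    intro v hv
    by_contra hne
    have h12 := hpos v hne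
    rw [← hJn, hv] at h12
    simp at h12
  let J' : Cd d ≃L[ℂ] Cd d :=
    (LinearEquiv.ofInjectiveEndo (J : Cd d →ₗ[ℂ] Cd d) hJinj).toContinuousLinearEquiv
  have hJ' : ∀ v, J' v = J v := fun v => rfl
  refine ⟨J', fun a ha v => ?_⟩
  have h13 : ‖J' (D a (J'.symm v))‖ ^ 2 = ‖v‖ ^ 2 := by
    rw [hJ', hJn, hinvar a ha, ← hJn, ← hJ', ContinuousLinearEquiv.apply_symm_apply]
  exact (pow_left_inj₀ (norm_nonneg _) (norm_nonneg _) two_ne_zero).1 h13

end EqOka
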