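import Pool.Agent.Lib.MP_fe51c6_an_EO.BochA
import Pool.Agent.Lib.MP_fe51c6_an_EO.BochB

/-! Linearisation of `K_m`: a chart onto a ball in which `K_m` acts by unitary maps. -/

open scoped Manifold Topology
open Set

noncomputable section

namespace EqOka

variable {n d : ℕ} {G : RedGrp n} {X : Type} [TopologicalSpace X] [ChartedSpace (Cd d) X]

/-- `Ψ` is a holomorphic chart at `m` onto the ball of radius `r`, in which the isotropy group `K_m`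
acts by the unitary maps `U k`. -/
structure BochAt (d : ℕ) (G : RedGrp n) {X : Type} [TopologicalSpace X] [ChartedSpace (Cd d) X]
    (act : Op n → X → X) (m : X) (Ψ : OpenPartialHomeomorph X (Cd d)) (r : ℝ)
    (U : Op n → Cd d →L[ℂ] Cd d) : Prop where
  hol : HolPH (Cd d) (Cd d) Ψ
  mem : m ∈ Ψ.source
  zero : Ψ m = 0
  pos : 0 < r
  tgt : Ψ.target = Metric.ball 0 r
  iso : ∀ k ∈ G.K, act k m = m → ∀ v, ‖U k v‖ = ‖v‖
  eqv : ∀ k ∈ G.K, act k m = m → ∀ x ∈ Ψ.source, act k x ∈ Ψ.source ∧ Ψ (act k x) = U k (Ψ x)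

variable [IsManifold 𝓘(ℂ, Cd d) 1 X] [T2Space X] {act : Op n → X → X}

theorem exists_boch (hA : HolAct d G act) (m : X) :
    ∃ (Ψ : OpenPartialHomeomorph X (Cd d)) (r : ℝ) (U : Op n → Cd d →L[ℂ] Cd d),
      BochAt d G act m Ψ r U := by
  obtain ⟨φ, D, hφ, hm, hφm, hDc, hD1, hDm, hDe⟩ := exists_average hA m
  have h1 : (1 : Op n) ∈ {k | k ∈ G.K ∧ act k m = m} :=
    ⟨⟨G.one_mem, one_mem _⟩, hA.one m⟩
  have hmul : ∀ a ∈ {k | k ∈ G.K ∧ act k m = m}, ∀ b ∈ {k | k ∈ G.K ∧ act k m = m},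
      a * b ∈ {k | k ∈ G.K ∧ act k m = m} := by
    intro a ha b hb
    refine ⟨⟨G.mul_mem a ha.1.1 b hb.1.1, mul_mem ha.1.2 hb.1.2⟩, ?_⟩
    rw [hA.mul a ha.1.1 b hb.1.1, hb.2, ha.2]
  have hinv : ∀ a ∈ {k | k ∈ G.K ∧ act k m = m}, ∃ b ∈ {k | k ∈ G.K ∧ act k m = m},
      a * b = 1 ∧ b * a = 1 := by
    intro a ha
    obtain ⟨b, hb, hab, hba⟩ := G.inv_mem a ha.1.1
    have hbs : b = star a := by
      calc b = b * (a * star a) := by
            rw [(Unitary.mem_iff.1 ha.1.2).2, mul_one]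
        _ = star a := by rw [← mul_assoc, hba, one_mul]
    refine ⟨b, ⟨⟨hb, ?_⟩, ?_⟩, hab, hba⟩
    · rw [hbs]
      exact Unitary.star_mem ha.1.2
    · have h := (hA.inv_act ha.1.1 hab m).2
      rwa [ha.2] at h
  obtain ⟨J, hJ⟩ := exists_unitarise {k | k ∈ G.K ∧ act k m = m} (Km_compact hA m) h1 hmul hinv D
    hDc hD1 (fun a ha b hb => hDm a ha.1 ha.2 b hb.1 hb.2)
  obtain ⟨V, hVo, hmV, hV⟩ := exists_Km_nhds hA m φ.source (φ.open_source.mem_nhds hm)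
  have hVs : V ⊆ φ.source := by
    intro x hx
    have := hV 1 h1.1 h1.2 x hx
    rwa [hA.one] at this
  set φ' : OpenPartialHomeomorph X (Cd d) := φ.transHomeomorph J.toHomeomorph with hφ'
  have hφ's : φ'.source = φ.source := rfl
  have hφ'a : ∀ x, φ' x = J (φ x) := fun _ => rfl
  have hφ'i : ∀ y, φ'.symm y = φ.symm (J.symm y) := fun _ => rfl
  have hopen : IsOpen (φ' '' V) := φ'.isOpen_image_of_subset_source hVo (by rw [hφ's]; exact hVs)
  have h0 : (0 : Cd d) ∈ φ' '' V := ⟨m, hmV, by rw [hφ'a, hφm, map_zero]⟩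
  obtain ⟨r, hr, hball⟩ := Metric.isOpen_iff.1 hopen 0 h0
  have hsub : Metric.ball (0 : Cd d) r ⊆ φ'.target := by
    refine hball.trans ?_
    rintro _ ⟨x, hx, rfl⟩
    exact φ'.map_source (hVs hx)
  refine ⟨(φ'.symm.restrOpen (Metric.ball 0 r) Metric.isOpen_ball).symm, r,
    fun k => (J : Cd d →L[ℂ] Cd d).comp ((D k).comp (J.symm : Cd d →L[ℂ] Cd d)), ?_⟩
  set Ψ := (φ'.symm.restrOpen (Metric.ball 0 r) Metric.isOpen_ball).symm with hΨ
  have hΨs : ∀ x, x ∈ Ψ.source ↔ x ∈ φ.source ∧ φ' x ∈ Metric.ball (0 : Cd d) r := by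
    intro x
    rfl
  have hΨt : Ψ.target = φ'.target ∩ Metric.ball 0 r := rfl
  have hΨa : ∀ x, Ψ x = J (φ x) := fun _ => rfl
  have hΨi : ∀ y, Ψ.symm y = φ.symm (J.symm y) := fun _ => rfl
  refine ⟨⟨?_, ?_⟩, ?_, ?_, hr, ?_, ?_, ?_⟩
  · intro x hx
    have h2 : MDifferentiableAt 𝓘(ℂ, Cd d) 𝓘(ℂ, Cd d) φ x := hφ.fwd x ((hΨs x).1 hx).1
    have h3 : MDifferentiableAt 𝓘(ℂ, Cd d) 𝓘(ℂ, Cd d) (J : Cd d → Cd d) (φ x) :=
      mdifferentiableAt_iff_differentiableAt.2 J.differentiableAt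
    exact h3.comp x h2
  · intro y hy
    rw [hΨt] at hy
    have hy' : J.symm y ∈ φ.target := by
      have := hy.1
      exact this
    have h2 : MDifferentiableAt 𝓘(ℂ, Cd d) 𝓘(ℂ, Cd d) φ.symm (J.symm y) := hφ.bwd _ hy'
    have h3 : MDifferentiableAt 𝓘(ℂ, Cd d) 𝓘(ℂ, Cd d) (J.symm : Cd d → Cd d) y :=
      mdifferentiableAt_iff_differentiableAt.2 J.symm.differentiableAt
    exact h2.comp y h3
  · rw [hΨs]
    refine ⟨hm, ?_⟩
    rw [hφ'a, hφm, map_zero]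
    exact Metric.mem_ball_self hr
  · rw [hΨa, hφm, map_zero]
  · rw [hΨt]
    exact inter_eq_right.2 hsub
  · intro k hk hkm v
    exact hJ k ⟨hk, hkm⟩ v
  · intro k hk hkm x hx
    obtain ⟨hxs, hxb⟩ := (hΨs x).1 hx
    obtain ⟨v, hv, hvx⟩ := hball hxb
    have hxv : v = x := φ'.injOn (hVs hv) hxs hvx
    rw [hxv] at hv
    have h2 : act k x ∈ φ.source := hV k hk hkm x hv
    have h3 : φ (act k x) = D k (φ x) := hDe k hk hkm x hxs h2
    have h4 : J (φ (act k x)) = J (D k (J.symm (J (φ x)))) := by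
      rw [h3, ContinuousLinearEquiv.symm_apply_apply]
    have h5 : ‖J (φ (act k x))‖ = ‖J (φ x)‖ := by
      rw [h4]
      exact hJ k ⟨hk, hkm⟩ _
    refine ⟨(hΨs _).2 ⟨h2, ?_⟩, ?_⟩
    · rw [hφ'a, mem_ball_zero_iff, h5]
      rw [hφ'a, mem_ball_zero_iff] at hxb
      exact hxb
    · rw [hΨa, hΨa]
      exact h4

end EqOka
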