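import Pool.Agent.Lib.MP_fe51c6_an_EO.Strip
import Pool.Agent.Lib.MP_fe51c6_an_EO.Cauchy

/-! Stabiliser algebras. -/

open scoped Manifold Topology
open Set

noncomputable section

namespace EqOka

variable {n d : ℕ} {G : RedGrp n} {X : Type} [TopologicalSpace X] [ChartedSpace (Cd d) X]
  [IsManifold 𝓘(ℂ, Cd d) 1 X] [T2Space X] {act : Op n → X → X}

theorem HolPH.chartAt (x : X) : HolPH (Cd d) (Cd d) (chartAt (Cd d) x) where
  fwd := fun _ hy => mdifferentiableAt_atlas (chart_mem_atlas _ _) hy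
  bwd := fun _ hy => mdifferentiableAt_atlas_symm (chart_mem_atlas _ _) hy

private theorem Stab_zs (ξ : Op n) : (0 : ℂ) • ξ = 0 := zero_smul ℂ ξ

private theorem Stab_exp_zero (hA : HolAct d G act) (x : X) :
    act (NormedSpace.exp (0 : Op n)) x = x := by
  rw [NormedSpace.exp_zero]
  exact hA.one x

/-- The function whose derivative is `orbD` is complex differentiable. -/
private theorem Stab_diff (hA : HolAct d G act) {φ : OpenPartialHomeomorph X (Cd d)}
    (hφ : HolPH (Cd d) (Cd d) φ) {x : X} (w : Cd G.dim)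
    (hw : act (NormedSpace.exp (G.bas w)) x ∈ φ.source) :
    DifferentiableAt ℂ (fun v : Cd G.dim => φ (act (NormedSpace.exp (G.bas v)) x)) w := by
  rw [← mdifferentiableAt_iff_differentiableAt]
  have h1 : MDifferentiableAt 𝓘(ℂ, Cd G.dim) 𝓘(ℂ, Cd d)
      (fun v : Cd G.dim => act (NormedSpace.exp (G.bas v)) x) w :=
    HolAct.mdiff hA 𝓘(ℂ, Cd G.dim) (fun v => G.bas v) (fun _ => x) w (fun v => G.bas_mem v)
      (mdifferentiableAt_iff_differentiableAt.mpr G.bas.differentiableAt) mdifferentiableAt_const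
  exact (hφ.fwd _ hw).comp w h1

/-- The derivative of a curve `exp(zη) x` in a chart. -/
theorem hasDerivAt_orbit (hA : HolAct d G act) {φ : OpenPartialHomeomorph X (Cd d)}
    (hφ : HolPH (Cd d) (Cd d) φ) {x : X} (hx : x ∈ φ.source) (v : Cd G.dim) :
    HasDerivAt (fun z : ℂ => φ (act (NormedSpace.exp (z • G.bas v)) x)) (orbD d G act φ x v) 0 := by
  have h0 : act (NormedSpace.exp (G.bas (0 : Cd G.dim))) x ∈ φ.source := by
    rw [map_zero, Stab_exp_zero hA]
    exact hx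
  have h1 : HasFDerivAt (fun v : Cd G.dim => φ (act (NormedSpace.exp (G.bas v)) x))
      (orbD d G act φ x) ((0 : ℂ) • v) := by
    rw [zero_smul]
    exact (Stab_diff hA hφ 0 h0).hasFDerivAt
  have h2 : HasDerivAt (fun z : ℂ => z • v) ((1 : ℂ) • v) 0 := (hasDerivAt_id (0 : ℂ)).smul_const v
  rw [one_smul] at h2
  have h3 := h1.comp_hasDerivAt (0 : ℂ) h2
  simpa only [Function.comp_def, map_smul] using h3

/-- If the derivative at `0` vanishes, it vanishes everywhere. -/
private theorem Stab_deriv_zero (hA : HolAct d G act) {φ : OpenPartialHomeomorph X (Cd d)}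
    (hφ : HolPH (Cd d) (Cd d) φ) {x : X} (hx : x ∈ φ.source) (v : Cd G.dim)
    (h0 : orbD d G act φ x v = 0) {ψ : OpenPartialHomeomorph X (Cd d)}
    (hψ : HolPH (Cd d) (Cd d) ψ) (z : ℂ)
    (hz : act (NormedSpace.exp (z • G.bas v)) x ∈ ψ.source) :
    HasDerivAt (fun w : ℂ => ψ (act (NormedSpace.exp (w • G.bas v)) x)) 0 z := by
  set ξ := G.bas v with hξ
  have hξm : ξ ∈ G.lie := G.bas_mem v
  have hgz : NormedSpace.exp (z • ξ) ∈ G.carrier := RedGrp.exp_smul_mem hξm z
  -- the local map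
  have h1 : DifferentiableAt ℂ (fun u : Cd d => ψ (act (NormedSpace.exp (z • ξ)) (φ.symm u)))
      (φ x) := by
    rw [← mdifferentiableAt_iff_differentiableAt]
    have e1 : MDifferentiableAt 𝓘(ℂ, Cd d) 𝓘(ℂ, Cd d) φ.symm (φ x) :=
      hφ.bwd _ (φ.map_source hx)
    have e2 : MDifferentiableAt 𝓘(ℂ, Cd d) 𝓘(ℂ, Cd d) (act (NormedSpace.exp (z • ξ)))
        (φ.symm (φ x)) := hA.hol _ hgz _
    have e3 : MDifferentiableAt 𝓘(ℂ, Cd d) 𝓘(ℂ, Cd d) ψ
        (act (NormedSpace.exp (z • ξ)) (φ.symm (φ x))) := by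
      apply hψ.fwd
      rw [φ.left_inv hx]
      exact hz
    exact e3.comp (φ x) (e2.comp (φ x) e1)
  have h2 := hasDerivAt_orbit hA hφ hx v
  rw [h0, ← hξ] at h2
  have h3 : HasDerivAt (fun w : ℂ => φ (act (NormedSpace.exp ((w - z) • ξ)) x)) 0 z := by
    have h4 : HasDerivAt (fun w : ℂ => w - z) 1 z := (hasDerivAt_id z).sub_const z
    have h5 : HasDerivAt (fun w : ℂ => φ (act (NormedSpace.exp (w • ξ)) x)) 0
        ((fun w : ℂ => w - z) z) := by
      simpa using h2
    have h6 := HasDerivAt.scomp (h := fun w : ℂ => w - z) z h5 h4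
    rw [smul_zero] at h6
    exact h6
  have h7 : HasDerivAt (fun w : ℂ => ψ (act (NormedSpace.exp (z • ξ))
      (φ.symm (φ (act (NormedSpace.exp ((w - z) • ξ)) x))))) 0 z := by
    have h8 : HasFDerivAt (fun u : Cd d => ψ (act (NormedSpace.exp (z • ξ)) (φ.symm u)))
        (fderiv ℂ (fun u : Cd d => ψ (act (NormedSpace.exp (z • ξ)) (φ.symm u))) (φ x))
        (φ (act (NormedSpace.exp ((z - z) • ξ)) x)) := by
      rw [sub_self, Stab_zs, Stab_exp_zero hA]
      exact h1.hasFDerivAt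
    have h9 := h8.comp_hasDerivAt z h3
    rw [map_zero] at h9
    exact h9
  refine h7.congr_of_eventuallyEq ?_
  -- near `z` the point stays in the source of `φ`
  have hcont : Continuous (fun w : ℂ => act (NormedSpace.exp ((w - z) • ξ)) x) := by
    have := (HolAct.mdiff_orbit hA hξm x).continuous
    exact this.comp (continuous_id.sub continuous_const)
  have hev : ∀ᶠ w in 𝓝 z, act (NormedSpace.exp ((w - z) • ξ)) x ∈ φ.source := by
    apply hcont.continuousAt.preimage_mem_nhds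
    apply φ.open_source.mem_nhds
    rw [sub_self, Stab_zs, Stab_exp_zero hA]
    exact hx
  filter_upwards [hev] with w hw
  rw [φ.left_inv hw, ← HolAct.exp_add hA hξm, add_sub_cancel]

private theorem Stab_const (hA : HolAct d G act) {φ : OpenPartialHomeomorph X (Cd d)}
    (hφ : HolPH (Cd d) (Cd d) φ) {x : X} (hx : x ∈ φ.source) (v : Cd G.dim)
    (h0 : orbD d G act φ x v = 0) (z : ℂ) :
    act (NormedSpace.exp (z • G.bas v)) x = x := by
  have hcont : Continuous (fun w : ℂ => act (NormedSpace.exp (w • G.bas v)) x) :=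
    (HolAct.mdiff_orbit hA (G.bas_mem v) x).continuous
  have hloc : IsLocallyConstant (fun w : ℂ => act (NormedSpace.exp (w • G.bas v)) x) := by
    rw [IsLocallyConstant.iff_eventually_eq]
    intro z0
    set ψ : OpenPartialHomeomorph X (Cd d) :=
      chartAt (Cd d) (act (NormedSpace.exp (z0 • G.bas v)) x) with hψdef
    have hψ : HolPH (Cd d) (Cd d) ψ := HolPH.chartAt _
    have hz0 : act (NormedSpace.exp (z0 • G.bas v)) x ∈ ψ.source := mem_chart_source _ _
    have hop : IsOpen ((fun w : ℂ => act (NormedSpace.exp (w • G.bas v)) x) ⁻¹' ψ.source) :=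
      ψ.open_source.preimage hcont
    obtain ⟨r, hr, hball⟩ := Metric.isOpen_iff.mp hop z0 hz0
    filter_upwards [Metric.ball_mem_nhds z0 hr] with w hw
    have hd : ∀ u ∈ Metric.ball z0 r,
        HasDerivAt (fun w : ℂ => ψ (act (NormedSpace.exp (w • G.bas v)) x)) 0 u :=
      fun u hu => Stab_deriv_zero hA hφ hx v h0 hψ u (hball hu)
    have h1 : ψ (act (NormedSpace.exp (w • G.bas v)) x) =
        ψ (act (NormedSpace.exp (z0 • G.bas v)) x) := by
      refine Metric.isOpen_ball.is_const_of_deriv_eq_zero (convex_ball z0 r).isPreconnected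
        (f := fun w : ℂ => ψ (act (NormedSpace.exp (w • G.bas v)) x))
        (fun u hu => (hd u hu).differentiableAt.differentiableWithinAt)
        (fun u hu => (hd u hu).deriv) hw (Metric.mem_ball_self hr)
    exact ψ.injOn (hball hw) hz0 h1
  have h2 : act (NormedSpace.exp (z • G.bas v)) x = act (NormedSpace.exp ((0 : ℂ) • G.bas v)) x :=
    hloc.apply_eq_of_preconnectedSpace z 0
  rw [h2, Stab_zs, Stab_exp_zero hA]

/-- `orbD` at `x` detects the one-parameter groups fixing `x`. -/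
theorem orbD_eq_zero_iff (hA : HolAct d G act) {φ : OpenPartialHomeomorph X (Cd d)}
    (hφ : HolPH (Cd d) (Cd d) φ) {x : X} (hx : x ∈ φ.source) (v : Cd G.dim) :
    orbD d G act φ x v = 0 ↔ ∀ t : ℝ, act (NormedSpace.exp ((t : ℂ) • G.bas v)) x = x := by
  constructor
  · intro h t
    exact Stab_const hA hφ hx v h t
  · intro h
    have h1 := hasDerivAt_orbit hA hφ hx v
    have h2 : HasDerivAt (fun t : ℝ => (t : ℂ)) 1 (0 : ℝ) := Complex.ofRealCLM.hasDerivAt
    have h3 : HasDerivAt (fun z : ℂ => φ (act (NormedSpace.exp (z • G.bas v)) x))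
        (orbD d G act φ x v) ((0 : ℝ) : ℂ) := by simpa using h1
    have h4 := h3.scomp (0 : ℝ) h2
    have h5 : (fun z : ℂ => φ (act (NormedSpace.exp (z • G.bas v)) x)) ∘ (fun t : ℝ => (t : ℂ)) =
        fun _ => φ x := by
      funext t
      simp only [Function.comp_apply]
      rw [h t]
    rw [h5, one_smul] at h4
    exact h4.unique (hasDerivAt_const _ _)

/-- the subspace of the elements fixing `x` -/
private theorem Stab_eq_map (hA : HolAct d G act) (x : X) :
    stab G act x = (LinearMap.ker (orbD d G act (chartAt (Cd d) x) x : Cd G.dim →ₗ[ℂ] Cd d)).map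
      (G.bas : Cd G.dim →ₗ[ℂ] Op n) := by
  have hx : x ∈ (chartAt (Cd d) x).source := mem_chart_source _ _
  unfold stab
  apply le_antisymm
  · rw [Submodule.span_le]
    rintro ξ ⟨hξ, hfix⟩
    obtain ⟨v, rfl⟩ := RedGrp.exists_bas hξ
    exact ⟨v, (orbD_eq_zero_iff hA (HolPH.chartAt x) hx v).mpr hfix, rfl⟩
  · rintro _ ⟨v, hv, rfl⟩
    exact Submodule.subset_span ⟨G.bas_mem v, (orbD_eq_zero_iff hA (HolPH.chartAt x) hx v).mp hv⟩

theorem mem_stab_real (hA : HolAct d G act) (x : X) (ξ : Op n) :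
    ξ ∈ stab G act x ↔ ξ ∈ G.lie ∧ ∀ t : ℝ, act (NormedSpace.exp ((t : ℂ) • ξ)) x = x := by
  have hx : x ∈ (chartAt (Cd d) x).source := mem_chart_source _ _
  constructor
  · intro h
    rw [Stab_eq_map hA x] at h
    obtain ⟨v, hv, rfl⟩ := h
    exact ⟨G.bas_mem v, (orbD_eq_zero_iff hA (HolPH.chartAt x) hx v).mp hv⟩
  · intro h
    exact Submodule.subset_span h

theorem mem_stab (hA : HolAct d G act) (x : X) (ξ : Op n) :
    ξ ∈ stab G act x ↔ ξ ∈ G.lie ∧ ∀ z : ℂ, act (NormedSpace.exp (z • ξ)) x = x := by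
  constructor
  · intro h
    refine ⟨((mem_stab_real hA x ξ).mp h).1, fun z => ?_⟩
    have h1 := ((mem_stab_real hA x (z • ξ)).mp ((stab G act x).smul_mem z h)).2 1
    simpa using h1
  · rintro ⟨h, h'⟩
    exact (mem_stab_real hA x ξ).mpr ⟨h, fun t => h' t⟩

/-- It suffices that the small real elements of the one-parameter group fix `x`. -/
theorem mem_stab_of_small (hA : HolAct d G act) (x : X) {ξ : Op n} (hξ : ξ ∈ G.lie)
    (h : ∀ᶠ t : ℝ in 𝓝 0, act (NormedSpace.exp ((t : ℂ) • ξ)) x = x) : ξ ∈ stab G act x := by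
  refine (mem_stab_real hA x ξ).mpr ⟨hξ, fun t => ?_⟩
  have h1 : Filter.Tendsto (fun m : ℕ => t / ((m : ℝ) + 1)) Filter.atTop (𝓝 0) := by
    have := (tendsto_one_div_add_atTop_nhds_zero_nat (𝕜 := ℝ)).const_mul t
    simpa [div_eq_mul_inv] using this
  obtain ⟨m, hm⟩ := (h1.eventually h).exists
  have h2 : ∀ k : ℕ, act (NormedSpace.exp ((((k : ℝ) * (t / ((m : ℝ) + 1)) : ℝ) : ℂ) • ξ)) x = x := by
    intro k
    induction k with
    | zero =>
      simp only [Nat.cast_zero, zero_mul, Complex.ofReal_zero]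
      rw [Stab_zs]
      exact Stab_exp_zero hA x
    | succ k ih =>
      have e : ((((k + 1 : ℕ) : ℝ) * (t / ((m : ℝ) + 1)) : ℝ) : ℂ) =
          (((t / ((m : ℝ) + 1)) : ℝ) : ℂ) + (((k : ℝ) * (t / ((m : ℝ) + 1)) : ℝ) : ℂ) := by
        push_cast
        ring
      rw [e, HolAct.exp_add hA hξ, ih, hm]
  have h3 := h2 (m + 1)
  have h4 : (((m + 1 : ℕ) : ℝ) * (t / ((m : ℝ) + 1))) = t := by
    have : (m : ℝ) + 1 ≠ 0 := by positivity
    push_cast
    field_simp
  rwa [h4] at h3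

theorem stab_le (x : X) : stab G act x ≤ G.lie := by
  unfold stab
  rw [Submodule.span_le]
  exact fun ξ h => h.1

theorem orbD_ker (hA : HolAct d G act) {φ : OpenPartialHomeomorph X (Cd d)}
    (hφ : HolPH (Cd d) (Cd d) φ) {x : X} (hx : x ∈ φ.source) (v : Cd G.dim) :
    orbD d G act φ x v = 0 ↔ G.bas v ∈ stab G act x := by
  rw [orbD_eq_zero_iff hA hφ hx v, mem_stab_real hA]
  exact ⟨fun h => ⟨G.bas_mem v, h⟩, fun h => h.2⟩

private theorem Stab_exp_cont : Continuous (NormedSpace.exp : Op n → Op n) := by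
  let _ : NormedAlgebra ℚ (Op n) := NormedAlgebra.restrictScalars ℚ ℂ (Op n)
  exact NormedSpace.exp_continuous

theorem orbD_continuousOn (hA : HolAct d G act) {φ : OpenPartialHomeomorph X (Cd d)}
    (hφ : HolPH (Cd d) (Cd d) φ) : ContinuousOn (fun x => orbD d G act φ x) φ.source := by
  intro x₀ hx₀
  have hm : Continuous (fun q : X × Cd G.dim => act (NormedSpace.exp (G.bas q.2)) q.1) := by
    rw [← continuousOn_univ]
    refine HolAct.continuous_comp hA (g := fun q : X × Cd G.dim => NormedSpace.exp (G.bas q.2))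
      (u := fun q => q.1) ?_ ?_ ?_
    · exact (Stab_exp_cont.comp (G.bas.continuous.comp continuous_snd)).continuousOn
    · exact fun q _ => RedGrp.exp_mem (G.bas_mem _)
    · exact continuous_fst.continuousOn
  have hU : IsOpen ((fun q : X × Cd G.dim => act (NormedSpace.exp (G.bas q.2)) q.1) ⁻¹' φ.source) :=
    φ.open_source.preimage hm
  have h0 : (x₀, (0 : Cd G.dim)) ∈
      (fun q : X × Cd G.dim => act (NormedSpace.exp (G.bas q.2)) q.1) ⁻¹' φ.source := by
    show act (NormedSpace.exp (G.bas (0 : Cd G.dim))) x₀ ∈ φ.source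
    rw [map_zero, Stab_exp_zero hA]
    exact hx₀
  have h1 := continuousAt_fderiv_param (P := X)
    (fun x (v : Cd G.dim) => φ (act (NormedSpace.exp (G.bas v)) x)) x₀ 0 _ (hU.mem_nhds h0)
    (φ.continuousOn.comp hm.continuousOn (fun q hq => hq))
    (fun q hq => Stab_diff hA hφ q.2 hq)
  have h2 : ContinuousAt (fun x : X => (x, (0 : Cd G.dim))) x₀ := by fun_prop
  exact (ContinuousAt.comp (f := fun x : X => (x, (0 : Cd G.dim))) h1 h2).continuousWithinAt

theorem finrank_range_orbD (hA : HolAct d G act) {φ : OpenPartialHomeomorph X (Cd d)}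
    (hφ : HolPH (Cd d) (Cd d) φ) {x : X} (hx : x ∈ φ.source) :
    Module.finrank ℂ (LinearMap.range (orbD d G act φ x : Cd G.dim →ₗ[ℂ] Cd d))
      + Module.finrank ℂ (stab G act x) = Module.finrank ℂ G.lie := by
  have h1 : stab G act x = (LinearMap.ker (orbD d G act φ x : Cd G.dim →ₗ[ℂ] Cd d)).map
      (G.bas : Cd G.dim →ₗ[ℂ] Op n) := by
    ext ξ
    constructor
    · intro h
      obtain ⟨v, rfl⟩ := RedGrp.exists_bas (stab_le x h)
      exact ⟨v, (orbD_ker hA hφ hx v).mpr h, rfl⟩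
    · rintro ⟨v, hv, rfl⟩
      exact (orbD_ker hA hφ hx v).mp hv
  have h2 : Module.finrank ℂ (LinearMap.ker (orbD d G act φ x : Cd G.dim →ₗ[ℂ] Cd d)) =
      Module.finrank ℂ ((LinearMap.ker (orbD d G act φ x : Cd G.dim →ₗ[ℂ] Cd d)).map
        (G.bas : Cd G.dim →ₗ[ℂ] Op n)) :=
    (Submodule.equivMapOfInjective (G.bas : Cd G.dim →ₗ[ℂ] Op n) G.bas_injective _).finrank_eq
  rw [h1, ← h2, LinearMap.finrank_range_add_finrank_ker, finrank_euclideanSpace_fin]
  rfl

theorem mem_conjS {g h : Op n} (hgh : g * h = 1) (hhg : h * g = 1) (𝔩 : Submodule ℂ (Op n))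
    (ξ : Op n) : ξ ∈ conjS g h 𝔩 ↔ h * ξ * g ∈ 𝔩 := by
  unfold conjS
  constructor
  · rintro ⟨ζ, hζ, rfl⟩
    have h1 : h * (g * (ζ * h)) * g = ζ := by
      calc h * (g * (ζ * h)) * g = (h * g) * ζ * (h * g) := by simp only [mul_assoc]
        _ = ζ := by rw [hhg, one_mul, mul_one]
    show h * (g * (ζ * h)) * g ∈ 𝔩
    rw [h1]
    exact hζ
  · intro hξ
    refine ⟨h * ξ * g, hξ, ?_⟩
    show g * (h * ξ * g * h) = ξ
    calc g * (h * ξ * g * h) = (g * h) * ξ * (g * h) := by simp only [mul_assoc]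
      _ = ξ := by rw [hgh, one_mul, mul_one]

theorem stab_act (hA : HolAct d G act) {g h : Op n} (hg : g ∈ G.carrier) (hgh : g * h = 1) (x : X) :
    stab G act (act g x) = conjS g h (stab G act x) := by
  obtain ⟨hh, hhg⟩ := RedGrp.inv_mem' hg hgh
  ext ξ
  rw [mem_conjS hgh hhg, mem_stab_real hA, mem_stab_real hA]
  have hexp : ∀ t : ℝ, NormedSpace.exp ((t : ℂ) • (h * ξ * g)) =
      h * NormedSpace.exp ((t : ℂ) • ξ) * g := by
    intro t
    rw [← exp_conj hhg hgh, mul_smul_comm, smul_mul_assoc]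
  constructor
  · rintro ⟨hξ, hfix⟩
    refine ⟨RedGrp.Ad_mem hh hhg hξ, fun t => ?_⟩
    have he : NormedSpace.exp ((t : ℂ) • ξ) ∈ G.carrier := RedGrp.exp_smul_mem hξ t
    rw [hexp, hA.mul _ (G.mul_mem _ hh _ he) _ hg, hA.mul _ hh _ he, hfix t]
    exact (HolAct.inv_act hA hg hgh x).2
  · rintro ⟨hξ, hfix⟩
    have hξ' : ξ ∈ G.lie := by
      have h1 := RedGrp.Ad_mem hg hgh hξ
      have h2 : g * (h * ξ * g) * h = ξ := by
        calc g * (h * ξ * g) * h = (g * h) * ξ * (g * h) := by simp only [mul_assoc]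
          _ = ξ := by rw [hgh, one_mul, mul_one]
      rwa [h2] at h1
    refine ⟨hξ', fun t => ?_⟩
    have he : NormedSpace.exp ((t : ℂ) • ξ) ∈ G.carrier := RedGrp.exp_smul_mem hξ' t
    have h1 := hfix t
    rw [hexp, hA.mul _ (G.mul_mem _ hh _ he) _ hg, hA.mul _ hh _ he] at h1
    have h2 := congrArg (act g) h1
    rwa [(HolAct.inv_act hA hg hgh _).1] at h2

theorem finrank_conjS {g h : Op n} (hgh : g * h = 1) (hhg : h * g = 1)
    (𝔩 : Submodule ℂ (Op n)) : Module.finrank ℂ (conjS g h 𝔩) = Module.finrank ℂ 𝔩 := by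
  have hinj : Function.Injective ((LinearMap.mulLeft ℂ g).comp (LinearMap.mulRight ℂ h)) := by
    intro ζ ζ' hz
    have h1 : g * (ζ * h) = g * (ζ' * h) := hz
    have h2 : ∀ ζ : Op n, h * (g * (ζ * h)) * g = ζ := by
      intro ζ
      calc h * (g * (ζ * h)) * g = (h * g) * ζ * (h * g) := by simp only [mul_assoc]
        _ = ζ := by rw [hhg, one_mul, mul_one]
    rw [← h2 ζ, h1, h2 ζ']
  exact (Submodule.equivMapOfInjective _ hinj 𝔩).finrank_eq.symm

private theorem Stab_rank_eventually {P E F : Type} [TopologicalSpace P] [NormedAddCommGroup E]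
    [NormedSpace ℂ E] [FiniteDimensional ℂ E] [NormedAddCommGroup F] [NormedSpace ℂ F]
    [FiniteDimensional ℂ F] {l : Filter P} {b : P → E →L[ℂ] F} {b₀ : E →L[ℂ] F}
    (hb : Filter.Tendsto b l (𝓝 b₀)) :
    ∀ᶠ p in l, Module.finrank ℂ (LinearMap.range (b₀ : E →ₗ[ℂ] F)) ≤
      Module.finrank ℂ (LinearMap.range (b p : E →ₗ[ℂ] F)) := by
  have hop := isOpen_setOfPred_nat_le_rank (𝕜 := ℂ) (E := E) (F := F)
    (Module.finrank ℂ (LinearMap.range (b₀ : E →ₗ[ℂ] F)))
  have h0 : b₀ ∈ {f : E →L[ℂ] F | ((Module.finrank ℂ (LinearMap.range (b₀ : E →ₗ[ℂ] F)) : ℕ) :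
      Cardinal) ≤ (f : E →ₗ[ℂ] F).rank} := by
    show ((Module.finrank ℂ (LinearMap.range (b₀ : E →ₗ[ℂ] F)) : ℕ) : Cardinal) ≤
      (b₀ : E →ₗ[ℂ] F).rank
    rw [LinearMap.rank, ← Module.finrank_eq_rank]
  filter_upwards [hb (hop.mem_nhds h0)] with p hp
  have hp' : ((Module.finrank ℂ (LinearMap.range (b₀ : E →ₗ[ℂ] F)) : ℕ) : Cardinal) ≤
      (b p : E →ₗ[ℂ] F).rank := hp
  rw [LinearMap.rank, ← Module.finrank_eq_rank] at hp'
  exact_mod_cast hp'

theorem stab_semicont (hA : HolAct d G act) (x : X) :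
    ∀ᶠ y in 𝓝 x, Module.finrank ℂ (stab G act y) ≤ Module.finrank ℂ (stab G act x) := by
  have hx : x ∈ (chartAt (Cd d) x).source := mem_chart_source _ _
  have hc : ContinuousAt (fun y => orbD d G act (chartAt (Cd d) x) y) x :=
    (orbD_continuousOn hA (HolPH.chartAt x)).continuousAt
      ((chartAt (Cd d) x).open_source.mem_nhds hx)
  filter_upwards [Stab_rank_eventually hc, (chartAt (Cd d) x).open_source.mem_nhds hx] with y hy hys
  have e1 := finrank_range_orbD hA (HolPH.chartAt x) hx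
  have e2 := finrank_range_orbD hA (HolPH.chartAt x) hys
  omega

theorem isClosed_le_stab (hA : HolAct d G act) (𝔩 : Submodule ℂ (Op n)) :
    IsClosed {x : X | 𝔩 ≤ stab G act x} := by
  by_cases hl : 𝔩 ≤ G.lie
  · have h1 : {x : X | 𝔩 ≤ stab G act x} =
        ⋂ ξ ∈ 𝔩, ⋂ t : ℝ, {x : X | act (NormedSpace.exp ((t : ℂ) • ξ)) x = x} := by
      ext x
      simp only [Set.mem_ofPred_eq, Set.mem_iInter]
      constructor
      · intro h ξ hξ t
        exact ((mem_stab_real hA x ξ).mp (h hξ)).2 t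
      · intro h ξ hξ
        exact (mem_stab_real hA x ξ).mpr ⟨hl hξ, h ξ hξ⟩
    rw [h1]
    refine isClosed_biInter fun ξ hξ => isClosed_iInter fun t => ?_
    exact isClosed_eq (HolAct.continuous_act hA (RedGrp.exp_smul_mem (hl hξ) t)) continuous_id
  · have h1 : {x : X | 𝔩 ≤ stab G act x} = ∅ := by
      ext x
      simp only [Set.mem_ofPred_eq, Set.mem_empty_iff_false, iff_false]
      exact fun h => hl (h.trans (stab_le x))
    rw [h1]
    exact isClosed_empty

theorem stab_brCl (hA : HolAct d G act) (x : X) : BrCl (stab G act x) := by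
  intro ξ hξ ζ hζ
  have hξl : ξ ∈ G.lie := stab_le x hξ
  have key : ∀ z : ℂ, NormedSpace.exp (z • ξ) * ζ * NormedSpace.exp (z • (-ξ)) ∈ stab G act x := by
    intro z
    have e := exp_neg_mul_self (z • ξ)
    have hneg : z • (-ξ) = -(z • ξ) := smul_neg z ξ
    have hfix : act (NormedSpace.exp (-(z • ξ))) x = x := by
      have h1 := ((mem_stab hA x ξ).mp hξ).2 (-z)
      have h2 : (-z) • ξ = -(z • ξ) := neg_smul z ξ
      rwa [h2] at h1
    have hg : NormedSpace.exp (-(z • ξ)) ∈ G.carrier :=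
      RedGrp.exp_mem (G.lie.neg_mem (G.lie.smul_mem z hξl))
    have h3 := stab_act hA hg e.1 x
    rw [hfix] at h3
    rw [hneg, ← mem_conjS e.1 e.2, ← h3]
    exact hζ
  have hd : HasDerivAt (fun z : ℂ => NormedSpace.exp (z • ξ) * ζ * NormedSpace.exp (z • (-ξ)))
      (ξ * ζ - ζ * ξ) 0 := by
    have h1 := hasDerivAt_exp_smul_const ξ (0 : ℂ)
    have h2 := hasDerivAt_exp_smul_const (-ξ) (0 : ℂ)
    have h3 := (h1.mul_const ζ).mul h2
    rw [Stab_zs, Stab_zs, NormedSpace.exp_zero] at h3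
    have h4 : (1 : Op n) * ξ * ζ * 1 + 1 * ζ * (1 * -ξ) = ξ * ζ - ζ * ξ := by
      have h5 : ζ * -ξ = -(ζ * ξ) := mul_neg ζ ξ
      rw [one_mul, mul_one, one_mul, one_mul, h5]
      exact (sub_eq_add_neg _ _).symm
    rw [h4] at h3
    exact h3
  have hcl : IsClosed ((stab G act x : Submodule ℂ (Op n)) : Set (Op n)) :=
    Submodule.closed_of_finiteDimensional _
  refine hcl.mem_of_tendsto hd.tendsto_slope_zero (Filter.Eventually.of_forall fun z => ?_)
  exact (stab G act x).smul_mem _ ((stab G act x).sub_mem (key _) (key _))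

/-- Limits of vectors in the images of operators of constant rank. -/
theorem mem_range_of_tendsto {E F : Type} [NormedAddCommGroup E] [NormedSpace ℂ E]
    [FiniteDimensional ℂ E] [NormedAddCommGroup F] [NormedSpace ℂ F] [FiniteDimensional ℂ F]
    (a : ℕ → E →L[ℂ] F) (a₀ : E →L[ℂ] F) (v : ℕ → F) (v₀ : F)
    (ha : Filter.Tendsto a Filter.atTop (𝓝 a₀)) (hv : Filter.Tendsto v Filter.atTop (𝓝 v₀))
    (hr : ∀ j, Module.finrank ℂ (LinearMap.range (a j : E →ₗ[ℂ] F))
      = Module.finrank ℂ (LinearMap.range (a₀ : E →ₗ[ℂ] F)))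
    (hm : ∀ j, v j ∈ LinearMap.range (a j : E →ₗ[ℂ] F)) :
    v₀ ∈ LinearMap.range (a₀ : E →ₗ[ℂ] F) := by
  by_contra hv0
  let B : (E →L[ℂ] F) → F → (E × ℂ) →L[ℂ] F := fun T w =>
    T.comp (ContinuousLinearMap.fst ℂ E ℂ) + (ContinuousLinearMap.snd ℂ E ℂ).smulRight w
  have hBapp : ∀ T w (p : E × ℂ), B T w p = T p.1 + p.2 • w := fun T w p => rfl
  have hb : Filter.Tendsto (fun j => B (a j) (v j)) Filter.atTop (𝓝 (B a₀ v₀)) := by
    have hc1 : Continuous (fun T : E →L[ℂ] F => T.comp (ContinuousLinearMap.fst ℂ E ℂ)) :=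
      continuous_id.clm_comp continuous_const
    have hc2 : Continuous (fun w : F => (ContinuousLinearMap.snd ℂ E ℂ).smulRight w) :=
      (ContinuousLinearMap.smulRightL ℂ (E × ℂ) F (ContinuousLinearMap.snd ℂ E ℂ)).continuous
    exact ((hc1.tendsto a₀).comp ha).add ((hc2.tendsto v₀).comp hv)
  obtain ⟨j, hj⟩ := (Stab_rank_eventually hb).exists
  have h1 : LinearMap.range (a₀ : E →ₗ[ℂ] F) < LinearMap.range (B a₀ v₀ : (E × ℂ) →ₗ[ℂ] F) := by
    refine lt_of_le_of_ne ?_ ?_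
    · rintro _ ⟨e, rfl⟩
      refine ⟨(e, 0), ?_⟩
      show B a₀ v₀ (e, 0) = a₀ e
      rw [hBapp]
      simp
    · intro h
      apply hv0
      rw [h]
      refine ⟨(0, 1), ?_⟩
      show B a₀ v₀ (0, 1) = v₀
      rw [hBapp]
      simp
  have h2 := Submodule.finrank_lt_finrank_of_lt h1
  have h3 : LinearMap.range (B (a j) (v j) : (E × ℂ) →ₗ[ℂ] F) ≤
      LinearMap.range (a j : E →ₗ[ℂ] F) := by
    rintro _ ⟨p, rfl⟩
    have h4 : (B (a j) (v j) : (E × ℂ) →ₗ[ℂ] F) p = a j p.1 + p.2 • v j := hBapp _ _ p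
    rw [h4]
    exact Submodule.add_mem _ ⟨p.1, rfl⟩ (Submodule.smul_mem _ _ (hm j))
  have h5 := Submodule.finrank_mono h3
  have h6 := hr j
  omega

end EqOka
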