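import Pool.Agent.Lib.MP_fe51c6_an_EO.Haar
import Pool.Agent.Lib.MP_fe51c6_an_EO.Stab

/-! Linearisation of the action of the isotropy group `K_m` near `m`, by averaging. -/

open scoped Manifold Topology
open Set

noncomputable section

namespace EqOka

variable {n d : ℕ} {G : RedGrp n} {X : Type} [TopologicalSpace X] [ChartedSpace (Cd d) X]
  [IsManifold 𝓘(ℂ, Cd d) 1 X] [T2Space X] {act : Op n → X → X}

/-- The isotropy group of `m` in `K` is a compact group. -/
theorem Km_compact (hA : HolAct d G act) (m : X) : IsCompact {k | k ∈ G.K ∧ act k m = m} := by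
  have h1 : ContinuousOn (fun k => act k m) G.K :=
    hA.continuous_comp continuousOn_id (fun k hk => hk.1) continuousOn_const
  have h2 : IsClosed (G.K ∩ (fun k => act k m) ⁻¹' {m}) :=
    h1.preimage_isClosed_of_isClosed G.K_compact.isClosed isClosed_singleton
  exact G.K_compact.of_isClosed_subset h2 (fun k hk => hk.1)

/-- A neighbourhood of `m` whose translates by `K_m` stay in a given neighbourhood. -/
theorem exists_Km_nhds (hA : HolAct d G act) (m : X) (U : Set X) (hU : U ∈ 𝓝 m) :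
    ∃ V : Set X, IsOpen V ∧ m ∈ V ∧ ∀ k ∈ G.K, act k m = m → ∀ x ∈ V, act k x ∈ U := by
  have hK := Km_compact hA m
  have hKs : CompactSpace {k | k ∈ G.K ∧ act k m = m} := isCompact_iff_compactSpace.1 hK
  have h : ∀ᶠ x in 𝓝 m, ∀ k ∈ (univ : Set {k | k ∈ G.K ∧ act k m = m}), act (k : Op n) x ∈ U := by
    refine isCompact_univ.eventually_forall_of_forall_eventually
      (P := fun (x : X) (k : {k | k ∈ G.K ∧ act k m = m}) => act (k : Op n) x ∈ U) ?_
    intro k _
    have h1 := hA.tendsto (l := 𝓝 (m, k))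
      (g := fun z : X × {k | k ∈ G.K ∧ act k m = m} => (z.2 : Op n)) (x := fun z => z.1)
      (g₀ := (k : Op n)) (x₀ := m)
      (Filter.Eventually.of_forall fun z => z.2.2.1.1) k.2.1.1
      (continuous_subtype_val.comp continuous_snd).continuousAt continuous_fst.continuousAt
    rw [k.2.2] at h1
    exact h1 hU
  obtain ⟨V, hV, hVo, hmV⟩ := mem_nhds_iff.1 h
  exact ⟨V, hVo, hmV, fun k hk hkm x hx => hV hx ⟨k, hk, hkm⟩ (mem_univ _)⟩

namespace BochAAux

/-- The local map of `k` in the chart `c`. -/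
def Fk (act : Op n → X → X) (c : OpenPartialHomeomorph X (Cd d)) (k : Op n) (v : Cd d) : Cd d :=
  c (act k (c.symm v))

omit [IsManifold 𝓘(ℂ, Cd d) 1 X] [T2Space X] in
theorem Fk_diff (hA : HolAct d G act) {c : OpenPartialHomeomorph X (Cd d)}
    (hc : HolPH (Cd d) (Cd d) c) {k : Op n} (hk : k ∈ G.carrier) {v : Cd d} (hv : v ∈ c.target)
    (hkv : act k (c.symm v) ∈ c.source) : DifferentiableAt ℂ (Fk act c k) v := by
  rw [← mdifferentiableAt_iff_differentiableAt]
  have e1 : MDifferentiableAt 𝓘(ℂ, Cd d) 𝓘(ℂ, Cd d) c.symm v := hc.bwd _ hv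
  have e2 : MDifferentiableAt 𝓘(ℂ, Cd d) 𝓘(ℂ, Cd d) (act k) (c.symm v) := hA.hol _ hk _
  exact (hc.fwd _ hkv).comp v (e2.comp v e1)

omit [T2Space X] in
theorem Fk_cont (hA : HolAct d G act) (c : OpenPartialHomeomorph X (Cd d)) :
    ContinuousOn (fun q : Op n × Cd d => Fk act c q.1 q.2)
      {q | q.1 ∈ G.carrier ∧ q.2 ∈ c.target ∧ act q.1 (c.symm q.2) ∈ c.source} := by
  have h1 : ContinuousOn (fun q : Op n × Cd d => act q.1 (c.symm q.2))
      {q | q.1 ∈ G.carrier ∧ q.2 ∈ c.target ∧ act q.1 (c.symm q.2) ∈ c.source} :=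
    hA.continuous_comp continuousOn_fst (fun q hq => hq.1)
      (c.continuousOn_symm.comp continuousOn_snd fun q hq => hq.2.1)
  exact c.continuousOn.comp h1 fun q hq => hq.2.2

/-- The derivative at the fixed point. -/
def Dk (act : Op n → X → X) (c : OpenPartialHomeomorph X (Cd d)) (m : X) (k : Op n) :
    Cd d →L[ℂ] Cd d :=
  fderiv ℂ (Fk act c k) (c m)

omit [ChartedSpace (Cd d) X] [IsManifold 𝓘(ℂ, Cd d) 1 X] [T2Space X] in
theorem Fk_fix {c : OpenPartialHomeomorph X (Cd d)} {m : X} (hm : m ∈ c.source) {k : Op n}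
    (hkm : act k m = m) : Fk act c k (c m) = c m := by
  rw [Fk, c.left_inv hm, hkm]

omit [IsManifold 𝓘(ℂ, Cd d) 1 X] [T2Space X] in
theorem Fk_hasFDerivAt (hA : HolAct d G act) {c : OpenPartialHomeomorph X (Cd d)}
    (hc : HolPH (Cd d) (Cd d) c) {m : X} (hm : m ∈ c.source) {k : Op n} (hk : k ∈ G.carrier)
    (hkm : act k m = m) : HasFDerivAt (Fk act c k) (Dk act c m k) (c m) := by
  refine (Fk_diff hA hc hk (c.map_source hm) ?_).hasFDerivAt
  rw [c.left_inv hm, hkm]
  exact hm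

omit [IsManifold 𝓘(ℂ, Cd d) 1 X] [T2Space X] in
theorem Dk_one (hA : HolAct d G act) {c : OpenPartialHomeomorph X (Cd d)} {m : X}
    (hm : m ∈ c.source) : Dk act c m 1 = 1 := by
  have h1 : Fk act c 1 =ᶠ[𝓝 (c m)] id := by
    filter_upwards [c.open_target.mem_nhds (c.map_source hm)] with v hv
    rw [Fk, hA.one, c.right_inv hv, id]
  rw [Dk, h1.fderiv_eq, fderiv_id]
  rfl

omit [T2Space X] in
theorem Dk_mul (hA : HolAct d G act) {c : OpenPartialHomeomorph X (Cd d)}
    (hc : HolPH (Cd d) (Cd d) c) {m : X} (hm : m ∈ c.source) {a b : Op n} (ha : a ∈ G.carrier)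
    (ham : act a m = m) (hb : b ∈ G.carrier) (hbm : act b m = m) :
    Dk act c m (a * b) = Dk act c m a * Dk act c m b := by
  have h1 : Fk act c (a * b) =ᶠ[𝓝 (c m)] fun v => Fk act c a (Fk act c b v) := by
    have h2 : ContinuousAt (fun v => act b (c.symm v)) (c m) := by
      refine (hA.continuous_act hb).continuousAt.comp ?_
      exact c.continuousAt_symm (c.map_source hm)
    have h3 : (fun v => act b (c.symm v)) ⁻¹' c.source ∈ 𝓝 (c m) := by
      apply h2
      apply c.open_source.mem_nhds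
      change act b (c.symm (c m)) ∈ c.source
      rw [c.left_inv hm, hbm]
      exact hm
    filter_upwards [h3] with v hv
    have hv' : act b (c.symm v) ∈ c.source := hv
    rw [Fk, Fk, Fk, c.left_inv hv', hA.mul a ha b hb]
  have h4 := Fk_hasFDerivAt hA hc hm hb hbm
  have h5 : HasFDerivAt (Fk act c a) (Dk act c m a) (Fk act c b (c m)) := by
    rw [Fk_fix hm hbm]
    exact Fk_hasFDerivAt hA hc hm ha ham
  have h6 := h5.comp (c m) h4
  rw [Dk, h1.fderiv_eq]
  exact h6.fderiv

omit [T2Space X] in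
theorem Dk_cont' (hA : HolAct d G act) {c : OpenPartialHomeomorph X (Cd d)}
    (hc : HolPH (Cd d) (Cd d) c) {m : X} (hm : m ∈ c.source) (S : Set (Op n))
    (hS : ∀ k ∈ S, k ∈ G.carrier ∧ act k m = m) : ContinuousOn (Dk act c m) S := by
  rw [continuousOn_iff_continuous_domRestrict, continuous_iff_continuousAt]
  intro p
  have h0 : ContinuousOn (fun q : S × Cd d => act (q.1 : Op n) (c.symm q.2))
      ((univ : Set S) ×ˢ c.target) :=
    hA.continuous_comp (continuous_subtype_val.comp continuous_fst).continuousOn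
      (fun q _ => (hS _ q.1.2).1) (c.continuousOn_symm.comp continuousOn_snd fun q hq => hq.2)
  have hU : IsOpen (((univ : Set S) ×ˢ c.target) ∩
      (fun q : S × Cd d => act (q.1 : Op n) (c.symm q.2)) ⁻¹' c.source) :=
    h0.isOpen_inter_preimage (isOpen_univ.prod c.open_target) c.open_source
  have h1 : ContinuousAt (fun q : S × Cd d => fderiv ℂ (Fk act c (q.1 : Op n)) q.2) (p, c m) := by
    refine continuousAt_fderiv_param (fun k : S => Fk act c (k : Op n)) p (c m) _
      (hU.mem_nhds ⟨⟨mem_univ _, c.map_source hm⟩, ?_⟩) ?_ ?_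
    · change act (p : Op n) (c.symm (c m)) ∈ c.source
      rw [c.left_inv hm, (hS _ p.2).2]
      exact hm
    · exact c.continuousOn.comp (h0.mono inter_subset_left) fun q hq => hq.2
    · intro q hq
      exact Fk_diff hA hc (hS _ q.1.2).1 hq.1.2 hq.2
  have h2 : ContinuousAt (fun p : S => ((p, c m) : S × Cd d)) p := by
    fun_prop
  exact ContinuousAt.comp (f := fun p : S => ((p, c m) : S × Cd d))
    (g := fun q : S × Cd d => fderiv ℂ (Fk act c (q.1 : Op n)) q.2) (x := p) h1 h2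

omit [T2Space X] in
theorem Dk_cont (hA : HolAct d G act) {c : OpenPartialHomeomorph X (Cd d)}
    (hc : HolPH (Cd d) (Cd d) c) {m : X} (hm : m ∈ c.source) :
    ContinuousOn (Dk act c m) {k | k ∈ G.K ∧ act k m = m} :=
  Dk_cont' hA hc hm _ fun _ hk => ⟨hk.1.1, hk.2⟩

theorem star_cont : Continuous (fun k : Op n => star k) :=
  (ContinuousLinearMap.adjoint (𝕜 := ℂ) (E := Cd n) (F := Cd n)).continuous

theorem aesm {F : Type} [NormedAddCommGroup F] [NormedSpace ℂ F] {K : Set (Op n)}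
    (hK : IsCompact K) {μ : MeasureTheory.Measure (Op n)} (hμ : μ Kᶜ = 0) {h : Op n → F}
    (hc : ContinuousOn h K) : MeasureTheory.AEStronglyMeasurable h μ := by
  have hae : ∀ᵐ p ∂μ, p ∈ K := MeasureTheory.mem_ae_iff.2 hμ
  have hres : μ.restrict K = μ := MeasureTheory.Measure.restrict_eq_self_of_ae_mem hae
  rw [← hres]
  exact hc.aestronglyMeasurable_of_isCompact hK hK.measurableSet

theorem integrable {F : Type} [NormedAddCommGroup F] [NormedSpace ℂ F] {K : Set (Op n)}
    (hK : IsCompact K) {μ : MeasureTheory.Measure (Op n)} [MeasureTheory.IsFiniteMeasure μ]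
    (hμ : μ Kᶜ = 0) {h : Op n → F} (hc : ContinuousOn h K) : MeasureTheory.Integrable h μ := by
  have hae : ∀ᵐ p ∂μ, p ∈ K := MeasureTheory.mem_ae_iff.2 hμ
  have hres : μ.restrict K = μ := MeasureTheory.Measure.restrict_eq_self_of_ae_mem hae
  have h1 := hc.integrableOn_compact (μ := μ) hK
  rw [MeasureTheory.IntegrableOn, hres] at h1
  exact h1

theorem translate {F : Type} [NormedAddCommGroup F] [NormedSpace ℂ F] {K : Set (Op n)}
    (hK : IsCompact K) {μ : MeasureTheory.Measure (Op n)} (hμ : μ Kᶜ = 0) {h : Op n → F}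
    (hc : ContinuousOn h K) {b : Op n}
    (hb : MeasureTheory.Measure.map (fun x => b * x) μ = μ) :
    ∫ k, h (b * k) ∂μ = ∫ k, h k ∂μ := by
  have hm : Measurable (fun x : Op n => b * x) :=
    (continuous_const.mul continuous_id).measurable
  have h1 : MeasureTheory.AEStronglyMeasurable h
      (MeasureTheory.Measure.map (fun x => b * x) μ) := by
    rw [hb]
    exact aesm hK hμ hc
  rw [← MeasureTheory.integral_map hm.aemeasurable h1, hb]

/-- The integrand. -/
def hh (act : Op n → X → X) (c : OpenPartialHomeomorph X (Cd d)) (m : X) (x : X) (k : Op n) :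
    Cd d :=
  Dk act c m k (c (act (star k) x) - c m)

omit [T2Space X] in
theorem hh_cont (hA : HolAct d G act) {c : OpenPartialHomeomorph X (Cd d)}
    (hc : HolPH (Cd d) (Cd d) c) {m : X} (hm : m ∈ c.source) {x : X}
    (hx : ∀ k ∈ G.K, act k m = m → act k x ∈ c.source) :
    ContinuousOn (hh act c m x) {k | k ∈ G.K ∧ act k m = m} := by
  have h1 : ContinuousOn (fun k : Op n => act (star k) x) {k | k ∈ G.K ∧ act k m = m} :=
    hA.continuous_comp star_cont.continuousOn (fun k hk => (RedGrp.star_K hk.1).1.1)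
      continuousOn_const
  have h2 : ContinuousOn (fun k : Op n => c (act (star k) x) - c m)
      {k | k ∈ G.K ∧ act k m = m} := by
    refine ContinuousOn.sub (c.continuousOn.comp h1 fun k hk => ?_) continuousOn_const
    refine hx _ (RedGrp.star_K hk.1).1 ?_
    have h3 := (hA.inv_act hk.1.1 (RedGrp.star_K hk.1).2.1 m).2
    rwa [hk.2] at h3
  exact (Dk_cont hA hc hm).clm_apply h2

omit [T2Space X] in
theorem star_fix (hA : HolAct d G act) {m : X} {k : Op n} (hk : k ∈ G.K) (hkm : act k m = m) :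
    act (star k) m = m := by
  have h3 := (hA.inv_act hk.1 (RedGrp.star_K hk).2.1 m).2
  rwa [hkm] at h3

theorem equi (hA : HolAct d G act) {c : OpenPartialHomeomorph X (Cd d)}
    (hc : HolPH (Cd d) (Cd d) c) {m : X} (hm : m ∈ c.source)
    {μ : MeasureTheory.Measure (Op n)} [MeasureTheory.IsProbabilityMeasure μ]
    (hμ : μ {k | k ∈ G.K ∧ act k m = m}ᶜ = 0)
    (hinv : ∀ a ∈ {k | k ∈ G.K ∧ act k m = m},
      MeasureTheory.Measure.map (fun x => a * x) μ = μ) {x : X}
    (hx : ∀ k ∈ G.K, act k m = m → act k x ∈ c.source) {b : Op n} (hb : b ∈ G.K)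
    (hbm : act b m = m) :
    ∫ k, hh act c m (act b x) k ∂μ = Dk act c m b (∫ k, hh act c m x k ∂μ) := by
  have hK := Km_compact hA m
  have hae : ∀ᵐ p ∂μ, p ∈ {k | k ∈ G.K ∧ act k m = m} := MeasureTheory.mem_ae_iff.2 hμ
  have hsb := RedGrp.star_K hb
  have hsbm := star_fix hA hb hbm
  have h1 : ∫ k, hh act c m (act b x) k ∂μ =
      ∫ k, Dk act c m b (hh act c m x (star b * k)) ∂μ := by
    refine MeasureTheory.integral_congr_ae ?_
    filter_upwards [hae] with k hk
    have h2 : b * (star b * k) = k := by rw [← mul_assoc, hsb.2.1, one_mul]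
    have hsk := RedGrp.star_K hk.1
    have h3 : act (star k) (act b x) = act (star (star b * k)) x := by
      rw [star_mul, star_star, hA.mul _ hsk.1.1 _ hb.1]
    have h4 : Dk act c m k = Dk act c m b * Dk act c m (star b * k) := by
      have h5 : act (star b * k) m = m := by
        rw [hA.mul _ hsb.1.1 _ hk.1.1, hk.2, hsbm]
      rw [← Dk_mul hA hc hm hb.1 hbm (G.mul_mem _ hsb.1.1 _ hk.1.1) h5, h2]
    rw [hh, hh, h3, h4]
    rfl
  rw [h1, ContinuousLinearMap.integral_comp_comm]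
  · congr 1
    exact translate hK hμ (hh_cont hA hc hm hx) (hinv (star b) ⟨hsb.1, hsbm⟩)
  · have h6 : MeasureTheory.Integrable (hh act c m x)
        (MeasureTheory.Measure.map (fun k => star b * k) μ) := by
      rw [hinv (star b) ⟨hsb.1, hsbm⟩]
      exact integrable hK hμ (hh_cont hA hc hm hx)
    exact h6.comp_measurable (continuous_const.mul continuous_id).measurable

end BochAAux

open BochAAux in
/-- The averaged chart. -/
theorem exists_average (hA : HolAct d G act) (m : X) :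
    ∃ (φ : OpenPartialHomeomorph X (Cd d)) (D : Op n → Cd d →L[ℂ] Cd d),
      HolPH (Cd d) (Cd d) φ ∧ m ∈ φ.source ∧ φ m = 0 ∧
      ContinuousOn D {k | k ∈ G.K ∧ act k m = m} ∧ D 1 = 1 ∧
      (∀ a ∈ G.K, act a m = m → ∀ b ∈ G.K, act b m = m → D (a * b) = D a * D b) ∧
      ∀ k ∈ G.K, act k m = m → ∀ x ∈ φ.source, act k x ∈ φ.source → φ (act k x) = D k (φ x) := by
  set c : OpenPartialHomeomorph X (Cd d) := chartAt (Cd d) m with hcdef
  have hc : HolPH (Cd d) (Cd d) c := HolPH.chartAt m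
  have hm : m ∈ c.source := mem_chart_source _ _
  have hK := Km_compact hA m
  obtain ⟨V, hVo, hmV, hV⟩ := exists_Km_nhds hA m c.source (c.open_source.mem_nhds hm)
  obtain ⟨μ, hprob, hμ, hinv⟩ := exists_haar {k | k ∈ G.K ∧ act k m = m} hK
    ⟨RedGrp.one_K, hA.one m⟩
    (fun a ha b hb => ⟨RedGrp.mul_K ha.1 hb.1, by rw [hA.mul _ ha.1.1 _ hb.1.1, hb.2, ha.2]⟩)
    (fun a ha => ⟨star a, ⟨(RedGrp.star_K ha.1).1, star_fix hA ha.1 ha.2⟩,
      (RedGrp.star_K ha.1).2.1, (RedGrp.star_K ha.1).2.2⟩)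
  have hae : ∀ᵐ p ∂μ, p ∈ {k | k ∈ G.K ∧ act k m = m} := MeasureTheory.mem_ae_iff.2 hμ
  -- the domain in the chart
  set U' : Set (Cd d) := c.target ∩ c.symm ⁻¹' V with hU'def
  have hU' : IsOpen U' := c.isOpen_inter_preimage_symm hVo
  have hv0 : c m ∈ U' := by
    refine ⟨c.map_source hm, ?_⟩
    rw [mem_preimage, c.left_inv hm]
    exact hmV
  set f : Op n → Cd d → Cd d := fun k v => hh act c m (c.symm v) k with hf
  have hstar : ∀ k ∈ {k | k ∈ G.K ∧ act k m = m}, star k ∈ {k | k ∈ G.K ∧ act k m = m} :=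
    fun k hk => ⟨(RedGrp.star_K hk.1).1, star_fix hA hk.1 hk.2⟩
  have hfc : ContinuousOn (fun q : Op n × Cd d => f q.1 q.2)
      ({k | k ∈ G.K ∧ act k m = m} ×ˢ U') := by
    have h1 : ContinuousOn (fun q : Op n × Cd d => Dk act c m q.1)
        ({k | k ∈ G.K ∧ act k m = m} ×ˢ U') :=
      (Dk_cont hA hc hm).comp continuousOn_fst fun q hq => hq.1
    have h2 : ContinuousOn (fun q : Op n × Cd d => Fk act c (star q.1) q.2)
        ({k | k ∈ G.K ∧ act k m = m} ×ˢ U') := by
      have h3 : ContinuousOn (fun q : Op n × Cd d => ((star q.1, q.2) : Op n × Cd d))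
          ({k | k ∈ G.K ∧ act k m = m} ×ˢ U') :=
        ((star_cont.comp continuous_fst).prodMk continuous_snd).continuousOn
      refine (Fk_cont hA c).comp h3 fun q hq => ?_
      exact ⟨(hstar _ hq.1).1.1, hq.2.1, hV _ (hstar _ hq.1).1 (hstar _ hq.1).2 _ hq.2.2⟩
    exact h1.clm_apply (h2.sub continuousOn_const)
  have hfd' : ∀ k ∈ {k | k ∈ G.K ∧ act k m = m}, ∀ v ∈ U',
      HasFDerivAt (f k) ((Dk act c m k).comp (fderiv ℂ (Fk act c (star k)) v)) v := by
    intro k hk v hv
    have h1 : DifferentiableAt ℂ (Fk act c (star k)) v :=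
      Fk_diff hA hc (hstar k hk).1.1 hv.1 (hV _ (hstar k hk).1 (hstar k hk).2 _ hv.2)
    exact (Dk act c m k).hasFDerivAt.comp v (h1.hasFDerivAt.sub_const (c m))
  have hfd : ∀ k ∈ {k | k ∈ G.K ∧ act k m = m}, DifferentiableOn ℂ (f k) U' :=
    fun k hk v hv => (hfd' k hk v hv).differentiableAt.differentiableWithinAt
  set ψ : Cd d → Cd d := fun v => ∫ k, f k v ∂μ with hψ
  have hψd : ∀ v ∈ U', DifferentiableAt ℂ ψ v := fun v hv =>
    (hasFDerivAt_integral_compact μ _ hK hμ U' hU' f hfc hfd v hv).differentiableAt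
  have hψ0 : fderiv ℂ ψ (c m) = 1 := by
    rw [(hasFDerivAt_integral_compact μ _ hK hμ U' hU' f hfc hfd (c m) hv0).fderiv]
    have h1 : ∫ k, fderiv ℂ (f k) (c m) ∂μ = ∫ _, (1 : Cd d →L[ℂ] Cd d) ∂μ := by
      refine MeasureTheory.integral_congr_ae ?_
      filter_upwards [hae] with k hk
      rw [(hfd' k hk (c m) hv0).fderiv]
      have h2 := Dk_mul hA hc hm hk.1.1 hk.2 (hstar k hk).1.1 (hstar k hk).2
      rw [(RedGrp.star_K hk.1).2.1, Dk_one hA hm] at h2
      exact h2.symm
    rw [h1, MeasureTheory.integral_const, MeasureTheory.probReal_univ, one_smul]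
  have hψm : ψ (c m) = 0 := by
    have h1 : ∫ k, f k (c m) ∂μ = ∫ _, (0 : Cd d) ∂μ := by
      refine MeasureTheory.integral_congr_ae ?_
      filter_upwards [hae] with k hk
      change hh act c m (c.symm (c m)) k = 0
      rw [hh, c.left_inv hm, (hstar k hk).2, sub_self, map_zero]
    change ∫ k, f k (c m) ∂μ = 0
    rw [h1, MeasureTheory.integral_zero]
  have hev : ∀ᶠ v in 𝓝 (c m), DifferentiableAt ℂ ψ v := by
    filter_upwards [hU'.mem_nhds hv0] with v hv
    exact hψd v hv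
  have hstrict : HasStrictFDerivAt ψ
      ((ContinuousLinearEquiv.refl ℂ (Cd d) : Cd d ≃L[ℂ] Cd d) : Cd d →L[ℂ] Cd d) (c m) := by
    have h1 := hasStrictFDerivAt_of_eventually ψ (c m) hev
    rw [hψ0] at h1
    exact h1
  have hunit : ∀ᶠ v in 𝓝 (c m), IsUnit (fderiv ℂ ψ v) := by
    have h1 : ContinuousAt (fderiv ℂ ψ) (c m) := continuousAt_fderiv_of_eventually ψ (c m) hev
    have h2 : {A : Cd d →L[ℂ] Cd d | IsUnit A} ∈ 𝓝 (fderiv ℂ ψ (c m)) := by
      rw [hψ0]
      exact Units.isOpen.mem_nhds isUnit_one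
    exact h1 h2
  obtain ⟨W, hW, hWo, hW0⟩ := mem_nhds_iff.1 (hunit.and (hU'.mem_nhds hv0))
  set e : OpenPartialHomeomorph (Cd d) (Cd d) :=
    (hstrict.toOpenPartialHomeomorph ψ).restrOpen W hWo with he
  have hecoe : ∀ v, e v = ψ v := fun v => rfl
  have hesrc : ∀ v ∈ e.source, v ∈ W := fun v hv => hv.2
  have he0 : c m ∈ e.source := ⟨hstrict.mem_toOpenPartialHomeomorph_source, hW0⟩
  have hψx : ∀ x ∈ c.source, e (c x) = ∫ k, hh act c m x k ∂μ := by
    intro x hx
    change ∫ k, hh act c m (c.symm (c x)) k ∂μ = _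
    rw [c.left_inv hx]
  refine ⟨c.trans e, Dk act c m, ⟨?_, ?_⟩, ?_, ?_, Dk_cont hA hc hm, Dk_one hA hm, ?_, ?_⟩
  · intro x hx
    rw [OpenPartialHomeomorph.trans_source] at hx
    have h1 : DifferentiableAt ℂ ψ (c x) := hψd _ (hW (hesrc _ hx.2)).2
    have h2 : MDifferentiableAt 𝓘(ℂ, Cd d) 𝓘(ℂ, Cd d) ψ (c x) :=
      mdifferentiableAt_iff_differentiableAt.2 h1
    exact h2.comp x (hc.fwd x hx.1)
  · intro y hy
    rw [OpenPartialHomeomorph.trans_target] at hy
    have hys : e.symm y ∈ e.source := e.map_target hy.1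
    have hyc : e.symm y ∈ c.target := hy.2
    have h1 : IsUnit (fderiv ℂ ψ (e.symm y)) := (hW (hesrc _ hys)).1
    obtain ⟨u, hu⟩ := h1
    have h2 : HasFDerivAt e ((ContinuousLinearEquiv.unitsEquiv ℂ (Cd d) u : Cd d ≃L[ℂ] Cd d) :
        Cd d →L[ℂ] Cd d) (e.symm y) := by
      have h3 := (hψd _ (hW (hesrc _ hys)).2).hasFDerivAt
      rw [← hu] at h3
      exact h3
    have h4 := e.hasFDerivAt_symm hy.1 h2
    have h5 : MDifferentiableAt 𝓘(ℂ, Cd d) 𝓘(ℂ, Cd d) e.symm y :=
      mdifferentiableAt_iff_differentiableAt.2 h4.differentiableAt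
    exact (hc.bwd _ hyc).comp y h5
  · rw [OpenPartialHomeomorph.trans_source]
    exact ⟨hm, he0⟩
  · exact hψm
  · intro a ha ham b hb hbm
    exact Dk_mul hA hc hm ha.1 ham hb.1 hbm
  · intro k hk hkm x hx hkx
    rw [OpenPartialHomeomorph.trans_source] at hx hkx
    change e (c (act k x)) = Dk act c m k (e (c x))
    rw [hψx _ hkx.1, hψx _ hx.1]
    have hxV : x ∈ V := by
      have h1 := (hW (hesrc _ hx.2)).2.2
      rw [mem_preimage, c.left_inv hx.1] at h1
      exact h1
    exact equi hA hc hm hμ hinv (fun k' hk' hk'm => hV k' hk' hk'm x hxV) hk hkm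

end EqOka
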