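import Mathlib

/-! The mean of `|u|²` over a circle. -/

open scoped Topology
open Set

namespace EqOka

private theorem re_avg (h : ℂ → ℂ) (hh : Differentiable ℂ h) (c : ℂ) (R : ℝ) :
    Real.circleAverage (fun z => (h z).re) c R = (h c).re := by
  have h1 : Real.circleAverage h c R = h c := hh.diffContOnCl.circleAverage
  have h2 := Complex.reCLM.circleAverage_comp_comm (f := h) (c := c) (R := R)
    hh.continuous.continuousOn.circleIntegrable'
  have h3 : (fun z => (h z).re) = Complex.reCLM ∘ h := rfl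
  rw [h3, h2, h1]
  rfl

private theorem ci (f : ℂ → ℝ) (hf : Continuous f) (c : ℂ) (R : ℝ) : CircleIntegrable f c R :=
  hf.continuousOn.circleIntegrable'

private theorem sq_avg (g : ℂ → ℂ) (hg : Differentiable ℂ g) (c : ℂ) (R : ℝ) :
    ‖g c‖ ^ 2 ≤ Real.circleAverage (fun z => ‖g z‖ ^ 2) c R := by
  have hc := hg.continuous
  have h1 : Real.circleAverage (fun z => ‖g c‖ ^ 2 +
      (2 * (starRingEnd ℂ (g c)) * (g z - g c)).re) c R = ‖g c‖ ^ 2 := by
    rw [Real.circleAverage_fun_add (ci _ continuous_const c R)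
      (ci _ (by fun_prop) c R), Real.circleAverage_const,
      re_avg (fun z => 2 * (starRingEnd ℂ (g c)) * (g z - g c)) (by fun_prop) c R]
    simp
  rw [← h1]
  refine Real.circleAverage_mono (ci _ (by fun_prop) c R) (ci _ (by fun_prop) c R) fun z _ => ?_
  have h2 : ‖g z‖ ^ 2 = ‖g c‖ ^ 2 + (2 * (starRingEnd ℂ (g c)) * (g z - g c)).re +
      ‖g z - g c‖ ^ 2 := by
    simp only [← Complex.normSq_eq_norm_sq, Complex.normSq_apply, Complex.mul_re, Complex.mul_im,
      Complex.sub_re, Complex.sub_im, Complex.conj_re, Complex.conj_im, Complex.re_ofNat,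
      Complex.im_ofNat]
    ring
  rw [h2]
  nlinarith [sq_nonneg ‖g z - g c‖]

theorem mean_ineq (u : ℂ → ℂ) (hu : Differentiable ℂ u) (c : ℂ) (R : ℝ) (hR : 0 < R) :
    ‖u c‖ ^ 2 + R ^ 2 * ‖deriv u c‖ ^ 2 ≤ Real.circleAverage (fun z => ‖u z‖ ^ 2) c R := by
  set g : ℂ → ℂ := dslope u c with hg
  have hgd : Differentiable ℂ g := by
    have := (Complex.differentiableOn_dslope (c := c) (s := Set.univ) (f := u)
      Filter.univ_mem).2 hu.differentiableOn
    exact differentiableOn_univ.1 this
  have hgc : g c = deriv u c := dslope_same u c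
  have hgz : ∀ z, u z = u c + (z - c) * g z := fun z => by
    have := sub_smul_dslope u c z
    rw [smul_eq_mul] at this
    rw [hg, this]; ring
  have h1 : Real.circleAverage (fun z => ‖u z‖ ^ 2) c R =
      Real.circleAverage (fun z => (‖u c‖ ^ 2 + (2 * (starRingEnd ℂ (u c)) * ((z - c) * g z)).re) +
        R ^ 2 * ‖g z‖ ^ 2) c R := by
    refine Real.circleAverage_congr_sphere fun z hz => ?_
    have hz' : ‖z - c‖ = R := by
      have := mem_sphere_iff_norm.1 hz
      rwa [abs_of_pos hR] at this
    have h2 : ‖u z‖ ^ 2 = ‖u c‖ ^ 2 + (2 * (starRingEnd ℂ (u c)) * ((z - c) * g z)).re +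
        ‖(z - c) * g z‖ ^ 2 := by
      rw [hgz z]
      generalize (z - c) * g z = w
      simp only [← Complex.normSq_eq_norm_sq, Complex.normSq_apply, Complex.mul_re, Complex.mul_im,
        Complex.add_re, Complex.add_im, Complex.conj_re, Complex.conj_im, Complex.re_ofNat,
        Complex.im_ofNat]
      ring
    simp only [h2, norm_mul, hz', mul_pow]
  have hcg := hgd.continuous
  rw [h1, Real.circleAverage_fun_add (ci _ (by fun_prop) c R) (ci _ (by fun_prop) c R),
    Real.circleAverage_fun_add (ci _ continuous_const c R) (ci _ (by fun_prop) c R),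
    Real.circleAverage_const,
    re_avg (fun z => 2 * (starRingEnd ℂ (u c)) * ((z - c) * g z)) (by fun_prop) c R]
  have h3 : Real.circleAverage (fun z => R ^ 2 * ‖g z‖ ^ 2) c R =
      R ^ 2 * Real.circleAverage (fun z => ‖g z‖ ^ 2) c R := by
    have := Real.circleAverage_fun_smul (a := R ^ 2) (f := fun z => ‖g z‖ ^ 2) (c := c) (R := R)
    simpa only [smul_eq_mul] using this
  rw [h3]
  have h4 := sq_avg g hgd c R
  rw [hgc] at h4
  have h5 := mul_le_mul_of_nonneg_left h4 (sq_nonneg R)
  simp only [sub_self, zero_mul, mul_zero, Complex.zero_re, add_zero]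
  linarith

end EqOka
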