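import Pool.Agent.Lib.MP_fe51c6_an_EO.Rho

/-! Convexity of `rho` along the curves `exp(tη) x`. -/

open scoped Manifold Topology
open Set

noncomputable section

namespace EqOka

variable {n d : ℕ} {G : RedGrp n} {X : Type} [TopologicalSpace X] [ChartedSpace (Cd d) X]
  [IsManifold 𝓘(ℂ, Cd d) 1 X] [T2Space X] [SecondCountableTopology X] {act : Op n → X → X}

omit [TopologicalSpace X] [ChartedSpace (Cd d) X] [IsManifold 𝓘(ℂ, Cd d) 1 X] [T2Space X]
  [SecondCountableTopology X] in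
private theorem rhoConv_sumSq_nonneg (f : ℕ → X → ℂ) (x : X) : 0 ≤ sumSq f x :=
  tsum_nonneg fun j => by positivity

private theorem rhoConv_rho_nonneg (hA : HolAct d G act) {f : ℕ → X → ℂ} (hf : Fam d f) (x : X) :
    0 ≤ rho G act f x := by
  obtain ⟨k, _, e⟩ := exists_rho_eq hA hf x
  rw [e]
  exact rhoConv_sumSq_nonneg f _

/-- the values of `sumSq` along the complex curve -/
private theorem rhoConv_le (hA : HolAct d G act) {f : ℕ → X → ℂ} (hf : Fam d f) {η : Op n}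
    (hη : η ∈ G.lie) (hs : IsSelfAdjoint η) (x : X) {k : Op n} (hk : k ∈ G.K) (z : ℂ) :
    sumSq f (act k (act (NormedSpace.exp (z • η)) x)) ≤
      rho G act f (act (NormedSpace.exp (((z.re : ℝ) : ℂ) • η)) x) := by
  have h1 : z = (z.im : ℂ) * Complex.I + (z.re : ℂ) := by
    rw [add_comm]
    exact (Complex.re_add_im z).symm
  have h2 : act (NormedSpace.exp (z • η)) x =
      act (NormedSpace.exp (((z.im : ℂ) * Complex.I) • η))
        (act (NormedSpace.exp (((z.re : ℝ) : ℂ) • η)) x) := by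
    conv_lhs => rw [h1]
    exact hA.exp_add hη _ _ x
  have h3 : NormedSpace.exp (((z.im : ℂ) * Complex.I) • η) ∈ G.K := RedGrp.exp_I_K hη hs z.im
  rw [h2, ← hA.mul k hk.1 _ h3.1]
  exact sumSq_le_rho hA hf (RedGrp.mul_K hk h3) _

/-- the three lines theorem and the inequality of the means -/
private theorem rhoConv_three {E : Type} [NormedAddCommGroup E] [NormedSpace ℂ E] (φ : ℂ → E)
    (hφ : Differentiable ℂ φ) (a b C : ℝ) (ha : 0 ≤ a) (hb : 0 ≤ b)
    (h0 : ∀ z : ℂ, z.re = 0 → ‖φ z‖ ^ 2 ≤ a) (h1 : ∀ z : ℂ, z.re = 1 → ‖φ z‖ ^ 2 ≤ b)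
    (hC : ∀ z : ℂ, 0 ≤ z.re → z.re ≤ 1 → ‖φ z‖ ^ 2 ≤ C) (t : ℝ) (ht : t ∈ Icc (0 : ℝ) 1) :
    ‖φ t‖ ^ 2 ≤ (1 - t) * a + t * b := by
  have h2 : ‖φ t‖ ≤ (Real.sqrt a) ^ (1 - t) * (Real.sqrt b) ^ t := by
    have h3 := Complex.HadamardThreeLines.norm_le_interp_of_mem_verticalClosedStrip₀₁' φ
      (z := (t : ℂ)) (a := Real.sqrt a) (b := Real.sqrt b) ?_ hφ.diffContOnCl ?_ ?_ ?_
    · rw [Complex.ofReal_re] at h3
      exact h3
    · change ((t : ℂ)).re ∈ Icc (0 : ℝ) 1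
      rw [Complex.ofReal_re]
      exact ht
    · refine ⟨Real.sqrt C, ?_⟩
      rintro _ ⟨z, hz, rfl⟩
      exact Real.le_sqrt_of_sq_le (hC z hz.1 hz.2)
    · intro z hz
      exact Real.le_sqrt_of_sq_le (h0 z hz)
    · intro z hz
      exact Real.le_sqrt_of_sq_le (h1 z hz)
  have h3 : ‖φ t‖ ^ 2 ≤ a ^ (1 - t) * b ^ t := by
    refine (pow_le_pow_left₀ (norm_nonneg _) h2 2).trans (le_of_eq ?_)
    rw [mul_pow, ← Real.rpow_natCast, ← Real.rpow_natCast, ← Real.rpow_mul (Real.sqrt_nonneg a),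
      ← Real.rpow_mul (Real.sqrt_nonneg b), mul_comm (1 - t), mul_comm t,
      Real.rpow_mul (Real.sqrt_nonneg a), Real.rpow_mul (Real.sqrt_nonneg b),
      Real.rpow_natCast, Real.rpow_natCast, Real.sq_sqrt ha, Real.sq_sqrt hb]
  exact h3.trans (Real.geom_mean_le_arith_mean2_weighted (by linarith [ht.2]) ht.1 ha hb
    (by ring))

theorem rho_convex (hA : HolAct d G act) {f : ℕ → X → ℂ} (hf : Fam d f) {η : Op n}
    (hη : η ∈ G.lie) (hs : IsSelfAdjoint η) (x : X) (t : ℝ) (ht : t ∈ Icc (0 : ℝ) 1) :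
    rho G act f (act (NormedSpace.exp ((t : ℂ) • η)) x)
      ≤ (1 - t) * rho G act f x + t * rho G act f (act (NormedSpace.exp η) x) := by
  obtain ⟨F, -, hF2, -, hFd⟩ := exists_ell2 hf
  obtain ⟨k, hk, hke⟩ := exists_rho_eq hA hf (act (NormedSpace.exp ((t : ℂ) • η)) x)
  have hu : ∀ w : ℂ, MDifferentiableAt 𝓘(ℂ, ℂ) 𝓘(ℂ, Cd d)
      (fun z : ℂ => act k (act (NormedSpace.exp (z • η)) x)) w := fun w =>
    MDifferentiableAt.comp w (hA.hol k hk.1 _) (hA.mdiff_orbit hη x w)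
  have hφ : Differentiable ℂ
      (fun w => F (act k (act (NormedSpace.exp (w • η)) x))) := fun z =>
    hFd _ z (Filter.Eventually.of_forall hu)
  have hle : ∀ z : ℂ, ‖F (act k (act (NormedSpace.exp (z • η)) x))‖ ^ 2 ≤
      rho G act f (act (NormedSpace.exp (((z.re : ℝ) : ℂ) • η)) x) := by
    intro z
    rw [hF2]
    exact rhoConv_le hA hf hη hs x hk z
  have hcurve : Continuous fun s : ℝ =>
      rho G act f (act (NormedSpace.exp ((s : ℂ) • η)) x) :=
    (rho_continuous hA hf).comp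
      (((hA.mdiff_orbit hη x).continuous).comp Complex.continuous_ofReal)
  obtain ⟨C, hC⟩ := (isCompact_Icc (a := (0 : ℝ)) (b := 1)).exists_bound_of_continuousOn
    hcurve.continuousOn
  have h0 : act (NormedSpace.exp (((0 : ℝ) : ℂ) • η)) x = x := by
    have h : ((0 : ℝ) : ℂ) • η = 0 := by
      ext1 v
      simp
    rw [h, NormedSpace.exp_zero, hA.one]
  have h1 : act (NormedSpace.exp (((1 : ℝ) : ℂ) • η)) x = act (NormedSpace.exp η) x := by
    rw [Complex.ofReal_one, one_smul]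
  have h3 := rhoConv_three (fun w => F (act k (act (NormedSpace.exp (w • η)) x))) hφ
    (rho G act f x) (rho G act f (act (NormedSpace.exp η) x)) C
    (rhoConv_rho_nonneg hA hf x) (rhoConv_rho_nonneg hA hf _) ?_ ?_ ?_ t ht
  · rw [hke, ← hF2]
    exact h3
  · intro z hz
    have h4 := hle z
    rw [hz, h0] at h4
    exact h4
  · intro z hz
    have h4 := hle z
    rw [hz, h1] at h4
    exact h4
  · intro z hz hz'
    refine (hle z).trans ?_
    exact (le_abs_self _).trans (hC z.re ⟨hz, hz'⟩)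

end EqOka
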