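import Pool.Agent.Lib.MP_fe51c6_an_EO.Rho
import Pool.Agent.Lib.MP_fe51c6_an_EO.Stab

/-! Strictness, and holomorphic convexity of the sublevel sets of `rho`. -/

open scoped Manifold Topology
open Set

noncomputable section

namespace EqOka

variable {n d : ℕ} {G : RedGrp n} {X : Type} [TopologicalSpace X] [ChartedSpace (Cd d) X]
  [IsManifold 𝓘(ℂ, Cd d) 1 X] [T2Space X] [SecondCountableTopology X] {act : Op n → X → X}

private theorem rhoStrict_K_carrier {k : Op n} (hk : k ∈ G.K) : k ∈ G.carrier := hk.1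

omit [TopologicalSpace X] [T2Space X] [SecondCountableTopology X] in
private theorem rhoStrict_sumSq_nonneg (f : ℕ → X → ℂ) (x : X) : 0 ≤ sumSq f x :=
  tsum_nonneg fun j => by positivity

private theorem rhoStrict_exp_zero (η : Op n) : NormedSpace.exp ((0 : ℂ) • η) = 1 := by
  have h : (0 : ℂ) • η = 0 := by
    ext1 v
    simp
  rw [h, NormedSpace.exp_zero]

private theorem rhoStrict_rho_nonneg (hA : HolAct d G act) {f : ℕ → X → ℂ} (hf : Fam d f) (x : X) :
    0 ≤ rho G act f x := by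
  obtain ⟨k, _, e⟩ := exists_rho_eq hA hf x
  rw [e]
  exact rhoStrict_sumSq_nonneg f _

/-- the values of `sumSq` along the complex curve -/
private theorem rhoStrict_le (hA : HolAct d G act) {f : ℕ → X → ℂ} (hf : Fam d f) {η : Op n}
    (hη : η ∈ G.lie) (hs : IsSelfAdjoint η) (x : X) {k : Op n} (hk : k ∈ G.K) (z : ℂ) :
    sumSq f (act k (act (NormedSpace.exp (z • η)) x)) ≤
      rho G act f (act (NormedSpace.exp (((z.re : ℝ) : ℂ) • η)) x) := by
  have h1 : z = (z.im : ℂ) * Complex.I + (z.re : ℂ) := by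
    rw [add_comm]
    exact (Complex.re_add_im z).symm
  have h2 : act (NormedSpace.exp (z • η)) x =
      act (NormedSpace.exp (((z.im : ℂ) * Complex.I) • η))
        (act (NormedSpace.exp (((z.re : ℝ) : ℂ) • η)) x) := by
    conv_lhs => rw [h1]
    exact hA.exp_add hη _ _ x
  have h3 : NormedSpace.exp (((z.im : ℂ) * Complex.I) • η) ∈ G.K := RedGrp.exp_I_K hη hs z.im
  rw [h2, ← hA.mul k hk.1 _ h3.1]
  exact sumSq_le_rho hA hf (RedGrp.mul_K hk h3) _

theorem rho_strict (hA : HolAct d G act) {f : ℕ → X → ℂ} (hf : Fam d f) {η : Op n}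
    (hη : η ∈ G.lie) (hs : IsSelfAdjoint η) (x : X)
    (h : ∀ t ∈ Icc (0 : ℝ) 1,
      rho G act f (act (NormedSpace.exp ((t : ℂ) • η)) x) = rho G act f x) (t : ℝ) :
    act (NormedSpace.exp ((t : ℂ) • η)) x = x := by
  obtain ⟨F, hF1, hF2, hFc, hFd⟩ := exists_ell2 hf
  obtain ⟨k, hk, hke⟩ := exists_rho_eq hA hf (act (NormedSpace.exp ((((1 : ℝ) / 2 : ℝ) : ℂ) • η)) x)
  rw [h (1 / 2) ⟨by norm_num, by norm_num⟩] at hke
  -- the holomorphic map to `ℓ²`
  have hu : ∀ w : ℂ, MDifferentiableAt 𝓘(ℂ, ℂ) 𝓘(ℂ, Cd d)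
      (fun z : ℂ => act k (act (NormedSpace.exp (z • η)) x)) w := fun w =>
    MDifferentiableAt.comp w (hA.hol k hk.1 _) (hA.mdiff_orbit hη x w)
  have hφ : ∀ z : ℂ, DifferentiableAt ℂ
      (fun w => F (act k (act (NormedSpace.exp (w • η)) x))) z := fun z =>
    hFd _ z (Filter.Eventually.of_forall hu)
  have hstrip : IsOpen {z : ℂ | 0 < z.re ∧ z.re < 1} :=
    (isOpen_lt continuous_const Complex.continuous_re).inter
      (isOpen_lt Complex.continuous_re continuous_const)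
  have hconv : Convex ℝ {z : ℂ | 0 < z.re ∧ z.re < 1} := by
    intro z hz w hw a b ha hb hab
    have e1 : (a • z + b • w).re = a * z.re + b * w.re := by simp
    refine ⟨?_, ?_⟩
    · change 0 < (a • z + b • w).re
      rw [e1]
      rcases ha.eq_or_lt with rfl | ha'
      · have : b = 1 := by linarith
        rw [this]; linarith [hw.1]
      · nlinarith [hz.1, hw.1, mul_pos ha' hz.1, mul_nonneg hb hw.1.le]
    · change (a • z + b • w).re < 1
      rw [e1]
      rcases ha.eq_or_lt with rfl | ha'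
      · have : b = 1 := by linarith
        rw [this]; linarith [hw.2]
      · have h1 : a * z.re < a := by nlinarith [hz.2]
        have h2 : b * w.re ≤ b := by nlinarith [hw.2]
        linarith
  have hhalf : ((((1 : ℝ) / 2 : ℝ) : ℂ)) ∈ {z : ℂ | 0 < z.re ∧ z.re < 1} := by
    refine ⟨?_, ?_⟩
    · rw [Complex.ofReal_re]; norm_num
    · rw [Complex.ofReal_re]; norm_num
  have hmax : IsMaxOn (norm ∘ fun w : ℂ => F (act k (act (NormedSpace.exp (w • η)) x)))
      {z : ℂ | 0 < z.re ∧ z.re < 1} ((((1 : ℝ) / 2 : ℝ) : ℂ)) := by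
    intro z hz
    change ‖F (act k (act (NormedSpace.exp (z • η)) x))‖ ≤
      ‖F (act k (act (NormedSpace.exp ((((1 : ℝ) / 2 : ℝ) : ℂ) • η)) x))‖
    have h1 := rhoStrict_le hA hf hη hs x hk z
    rw [h z.re ⟨hz.1.le, hz.2.le⟩, hke, ← hF2, ← hF2] at h1
    exact (pow_le_pow_iff_left₀ (norm_nonneg _) (norm_nonneg _) two_ne_zero).1 h1
  have hconst : ∀ s ∈ Ioo (0 : ℝ) 1, act (NormedSpace.exp ((s : ℂ) • η)) x =
      act (NormedSpace.exp ((((1 : ℝ) / 2 : ℝ) : ℂ) • η)) x := by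
    intro s hs'
    have h1 := Complex.eqOn_of_isPreconnected_of_isMaxOn_norm hconv.isPreconnected hstrip
      (fun z _ => (hφ z).differentiableWithinAt) hhalf hmax
      (show (s : ℂ) ∈ {z : ℂ | 0 < z.re ∧ z.re < 1} from
        ⟨by rw [Complex.ofReal_re]; exact hs'.1, by rw [Complex.ofReal_re]; exact hs'.2⟩)
    change F (act k (act (NormedSpace.exp ((s : ℂ) • η)) x)) =
      F (act k (act (NormedSpace.exp ((((1 : ℝ) / 2 : ℝ) : ℂ) • η)) x)) at h1
    have h2 : act k (act (NormedSpace.exp ((s : ℂ) • η)) x) =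
        act k (act (NormedSpace.exp ((((1 : ℝ) / 2 : ℝ) : ℂ) • η)) x) := by
      by_contra hne
      obtain ⟨j, hj⟩ := hf.sep _ _ hne
      apply hj
      rw [← hF1, ← hF1, h1]
    obtain ⟨k', _, hkk'⟩ := G.inv_mem k hk.1
    have h3 := congrArg (act k') h2
    rw [(hA.inv_act hk.1 hkk'.1 _).2, (hA.inv_act hk.1 hkk'.1 _).2] at h3
    exact h3
  -- the curve is constant
  have hcurve : Continuous fun z : ℂ => act (NormedSpace.exp (z • η)) x :=
    (hA.mdiff_orbit hη x).continuous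
  have h0 : act (NormedSpace.exp ((((1 : ℝ) / 2 : ℝ) : ℂ) • η)) x = x := by
    have h1 : Filter.Tendsto (fun s : ℝ => act (NormedSpace.exp ((s : ℂ) • η)) x)
        (𝓝[>] 0) (𝓝 (act (NormedSpace.exp (((0 : ℝ) : ℂ) • η)) x)) :=
      ((hcurve.comp Complex.continuous_ofReal).tendsto 0).mono_left nhdsWithin_le_nhds
    have h2 : Filter.Tendsto (fun s : ℝ => act (NormedSpace.exp ((s : ℂ) • η)) x)
        (𝓝[>] 0) (𝓝 (act (NormedSpace.exp ((((1 : ℝ) / 2 : ℝ) : ℂ) • η)) x)) := by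
      refine tendsto_const_nhds.congr' ?_
      filter_upwards [Ioo_mem_nhdsGT (show (0 : ℝ) < 1 by norm_num)] with s hs'
      exact (hconst s hs').symm
    have h3 := tendsto_nhds_unique h2 h1
    rw [h3, Complex.ofReal_zero, rhoStrict_exp_zero, hA.one]
  have hpos : ∀ s ∈ Ioo (0 : ℝ) 1, act (NormedSpace.exp ((s : ℂ) • η)) x = x := fun s hs' =>
    (hconst s hs').trans h0
  refine ((mem_stab_real hA x η).1 (mem_stab_of_small hA x hη ?_)).2 t
  filter_upwards [Ioo_mem_nhds (show (-1 : ℝ) < 0 by norm_num) (show (0 : ℝ) < 1 by norm_num)]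
    with s hs'
  rcases lt_trichotomy s 0 with h1 | h1 | h1
  · have h2 := hpos (-s) ⟨by linarith, by linarith [hs'.1]⟩
    have h3 := hA.exp_add hη (s : ℂ) (((-s : ℝ) : ℂ)) x
    rw [h2] at h3
    rw [← h3]
    have h4 : (s : ℂ) + (((-s : ℝ) : ℂ)) = 0 := by
      rw [← Complex.ofReal_add, add_neg_cancel, Complex.ofReal_zero]
    rw [h4, rhoStrict_exp_zero, hA.one]
  · rw [h1, Complex.ofReal_zero, rhoStrict_exp_zero, hA.one]
  · exact hpos s ⟨h1, hs'.2⟩

theorem rho_hconv (hA : HolAct d G act) {f : ℕ → X → ℂ} (hf : Fam d f) (c : ℝ) (x : X)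
    (hc : c < rho G act f x) :
    ∃ h : X → ℂ, HolFun d h ∧ (∀ y, rho G act f y ≤ c → ‖h y‖ ≤ 1) ∧ 1 < ‖h x‖ := by
  obtain ⟨F, hF1, hF2, hFc, hFd⟩ := exists_ell2 hf
  obtain ⟨k, hk, hke⟩ := exists_rho_eq hA hf x
  have hR0 : 0 ≤ rho G act f x := rhoStrict_rho_nonneg hA hf x
  generalize hR : rho G act f x = R at *
  rcases hR0.eq_or_lt with h0 | hRpos
  · refine ⟨fun _ => 2, mdifferentiable_const, ?_, by norm_num⟩
    intro y hy
    have h1 := rhoStrict_rho_nonneg hA hf y
    exfalso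
    linarith
  have hFx : ‖F (act k x)‖ ^ 2 = R := by rw [hF2, hke]
  obtain ⟨c', hc0, hcc, hcR⟩ : ∃ c' : ℝ, 0 < c' ∧ c ≤ c' ∧ c' < R := by
    refine ⟨(max c 0 + R) / 2, ?_, ?_, ?_⟩
    · linarith [le_max_right c 0]
    · linarith [le_max_left c 0, le_max_right c 0, max_lt hc hRpos]
    · linarith [max_lt hc hRpos]
  have hRc : 0 < Real.sqrt (R * c') := Real.sqrt_pos.2 (mul_pos hRpos hc0)
  -- the coefficients are square summable
  have hsumx : Summable fun j => ‖f j (act k x)‖ ^ 2 := by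
    obtain ⟨M, hM, hMx⟩ := hf.summ {act k x} isCompact_singleton
    exact Summable.of_nonneg_of_le (fun j => by positivity) (fun j => hMx j _ rfl) hM
  have hcont : Continuous (act k) := hA.continuous_act hk.1
  have hhol : HolFun d
      (fun y => ∑' j, (starRingEnd ℂ (f j (act k x))) * f j (act k y)) := by
    apply holFun_tsum
    · intro j
      have h1 : HolFun d (fun y => f j (act k y)) := (hf.hol j).comp (hA.hol k hk.1)
      have h2 : HolFun d (fun y => (starRingEnd ℂ (f j (act k x))) • f j (act k y)) :=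
        h1.const_smul _
      exact h2
    · intro C hC
      obtain ⟨M, hM, hMx⟩ := hf.summ (act k '' C) (hC.image hcont)
      refine ⟨fun j => (‖f j (act k x)‖ ^ 2 + M j) / 2, (hsumx.add hM).div_const 2, ?_⟩
      intro j y hy
      have h1 := hMx j (act k y) ⟨y, hy, rfl⟩
      rw [norm_mul, RCLike.norm_conj]
      nlinarith [sq_nonneg (‖f j (act k x)‖ - ‖f j (act k y)‖)]
  have hin : ∀ y, ∑' j, (starRingEnd ℂ (f j (act k x))) * f j (act k y) =
      inner ℂ (F (act k x)) (F (act k y)) := by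
    intro y
    rw [lp.inner_eq_tsum]
    refine tsum_congr fun j => ?_
    rw [hF1, hF1, RCLike.inner_apply, mul_comm]
  refine ⟨fun y => ((1 / Real.sqrt (R * c') : ℝ) : ℂ) *
    ∑' j, (starRingEnd ℂ (f j (act k x))) * f j (act k y), ?_, ?_, ?_⟩
  · have h1 : HolFun d (fun y => ((1 / Real.sqrt (R * c') : ℝ) : ℂ) •
        ∑' j, (starRingEnd ℂ (f j (act k x))) * f j (act k y)) := hhol.const_smul _
    exact h1
  · intro y hy
    beta_reduce
    rw [hin, norm_mul, Complex.norm_real, Real.norm_eq_abs, abs_of_pos (by positivity)]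
    have h1 : ‖inner ℂ (F (act k x)) (F (act k y))‖ ≤ Real.sqrt (R * c') := by
      refine (norm_inner_le_norm _ _).trans ?_
      apply Real.le_sqrt_of_sq_le
      rw [mul_pow, hFx, hF2]
      have h2 := sumSq_le_rho hA hf hk y
      exact mul_le_mul_of_nonneg_left (by linarith) hRpos.le
    rw [one_div, inv_mul_le_iff₀ hRc, mul_one]
    exact h1
  · beta_reduce
    rw [hin, norm_mul, Complex.norm_real, Real.norm_eq_abs, abs_of_pos (by positivity),
      inner_self_eq_norm_sq_to_K]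
    have h1 : ‖((‖F (act k x)‖ : ℝ) : ℂ) ^ 2‖ = R := by
      rw [norm_pow, Complex.norm_real, Real.norm_eq_abs, sq_abs, hFx]
    have h2 : Real.sqrt (R * c') < R := by
      rw [Real.sqrt_lt' hRpos]
      nlinarith
    have h3 : 1 < 1 / Real.sqrt (R * c') * R := by
      rw [one_div, inv_mul_eq_div, lt_div_iff₀ hRc, one_mul]
      exact h2
    calc (1 : ℝ) < 1 / Real.sqrt (R * c') * R := h3
      _ = 1 / Real.sqrt (R * c') * ‖((‖F (act k x)‖ : ℝ) : ℂ) ^ 2‖ := by rw [h1]

end EqOka
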