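import Pool.Agent.Lib.MP_fe51c6_an_EO.C0Low
import Pool.Agent.Lib.MP_fe51c6_an_EO.C0Mean
import Pool.Agent.Lib.MP_fe51c6_an_EO.RhoConv
import Pool.Agent.Lib.MP_fe51c6_an_EO.RhoStrict

/-! Quadratic growth of `ρ` along an orbit at a minimal point. -/

open scoped Manifold Topology
open Set

noncomputable section

namespace EqOka

variable {n d : ℕ} {G : RedGrp n} {X : Type} [TopologicalSpace X] [ChartedSpace (Cd d) X]
  [IsManifold 𝓘(ℂ, Cd d) 1 X] [T2Space X] [SecondCountableTopology X] {act : Op n → X → X}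

/-- the values of `sumSq` along the complex curve -/
private theorem rhoGrow_le (hA : HolAct d G act) {f : ℕ → X → ℂ} (hf : Fam d f) {η : Op n}
    (hη : η ∈ G.lie) (hs : IsSelfAdjoint η) (x : X) {k : Op n} (hk : k ∈ G.K) (z : ℂ) :
    sumSq f (act k (act (NormedSpace.exp (z • η)) x)) ≤
      rho G act f (act (NormedSpace.exp (((z.re : ℝ) : ℂ) • η)) x) := by
  have h1 : z = (z.im : ℂ) * Complex.I + (z.re : ℂ) := by
    rw [add_comm]
    exact (Complex.re_add_im z).symm
  have h2 : act (NormedSpace.exp (z • η)) x =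
      act (NormedSpace.exp (((z.im : ℂ) * Complex.I) • η))
        (act (NormedSpace.exp (((z.re : ℝ) : ℂ) • η)) x) := by
    conv_lhs => rw [h1]
    exact hA.exp_add hη _ _ x
  have h3 : NormedSpace.exp (((z.im : ℂ) * Complex.I) • η) ∈ G.K := RedGrp.exp_I_K hη hs z.im
  rw [h2, ← hA.mul k hk.1 _ h3.1]
  exact sumSq_le_rho hA hf (RedGrp.mul_K hk h3) _

omit [IsManifold 𝓘(ℂ, Cd d) 1 X] [T2Space X] [SecondCountableTopology X] in
private theorem rhoGrow_summable {f : ℕ → X → ℂ} (hf : Fam d f) (x : X) :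
    Summable fun j => ‖f j x‖ ^ 2 := by
  obtain ⟨M, hM, hMf⟩ := hf.summ {x} isCompact_singleton
  exact Summable.of_nonneg_of_le (fun j => by positivity) (fun j => hMf j x rfl) hM

private theorem rhoGrow_exp_cont : Continuous (NormedSpace.exp : Op n → Op n) := by
  let _ : NormedAlgebra ℚ (Op n) := NormedAlgebra.restrictScalars ℚ ℂ (Op n)
  exact NormedSpace.exp_continuous

private theorem rhoGrow_compact (G : RedGrp n) (R : ℝ) :
    IsCompact ((fun p : Op n × Op n => p.1 * NormedSpace.exp ((1 / 2 : ℂ) • p.2)) ''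
      (G.K ×ˢ (Metric.closedBall (0 : Op n) R ∩ (G.lie : Set (Op n))))) := by
  have : ProperSpace (Op n) := FiniteDimensional.proper ℂ (Op n)
  have h1 : IsCompact (Metric.closedBall (0 : Op n) R ∩ (G.lie : Set (Op n))) :=
    (isCompact_closedBall (0 : Op n) R).inter_right
      (Submodule.closed_of_finiteDimensional G.lie)
  refine (G.K_compact.prod h1).image ?_
  have h2 : Continuous fun p : Op n × Op n => (1 / 2 : ℂ) • p.2 :=
    (continuous_const_smul (1 / 2 : ℂ)).comp continuous_snd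
  exact continuous_fst.mul (rhoGrow_exp_cont.comp h2)

/-- the mean value inequality along the curve -/
private theorem rhoGrow_mean (hA : HolAct d G act) {f : ℕ → X → ℂ} (hf : Fam d f)
    {m : X} (hm : IsMn G act (rho G act f) m) {η : Op n} (hη : η ∈ G.lie) (hs : IsSelfAdjoint η)
    {k : Op n} (hk : k ∈ G.K) (J : ℕ) :
    ∑ j ∈ Finset.range J, (‖f j (act k (act (NormedSpace.exp ((1 / 2 : ℂ) • η)) m))‖ ^ 2 +
      (1 / 4) * ‖deriv (fun z : ℂ => f j (act (k * NormedSpace.exp ((1 / 2 : ℂ) • η))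
        (act (NormedSpace.exp (z • η)) m))) 0‖ ^ 2) ≤ rho G act f (act (NormedSpace.exp η) m) := by
  set u : ℕ → ℂ → ℂ := fun j z => f j (act k (act (NormedSpace.exp (z • η)) m)) with hu
  have hud : ∀ j, Differentiable ℂ (u j) := by
    intro j
    rw [← mdifferentiable_iff_differentiable]
    exact (hf.hol j).comp ((hA.hol k hk.1).comp (hA.mdiff_orbit hη m))
  have hder : ∀ j, deriv (fun z : ℂ => f j (act (k * NormedSpace.exp ((1 / 2 : ℂ) • η))
        (act (NormedSpace.exp (z • η)) m))) 0 = deriv (u j) (1 / 2) := by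
    intro j
    have e : (fun z : ℂ => f j (act (k * NormedSpace.exp ((1 / 2 : ℂ) • η))
        (act (NormedSpace.exp (z • η)) m))) = fun z => u j (z + 1 / 2) := by
      funext z
      simp only [hu]
      rw [hA.mul k hk.1 _ (RedGrp.exp_smul_mem hη _), add_comm z, hA.exp_add hη]
    rw [e, deriv_comp_add_const, zero_add]
  have hci : ∀ j ∈ Finset.range J, CircleIntegrable (fun z => ‖u j z‖ ^ 2) (1 / 2) (1 / 2) := by
    intro j _
    refine ContinuousOn.circleIntegrable (by norm_num) ?_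
    exact ((hud j).continuous.norm.pow 2).continuousOn
  have h1 : ∀ j ∈ Finset.range J, ‖u j (1 / 2)‖ ^ 2 + (1 / 4) * ‖deriv (u j) (1 / 2)‖ ^ 2 ≤
      Real.circleAverage (fun z => ‖u j z‖ ^ 2) (1 / 2) (1 / 2) := by
    intro j _
    have h := mean_ineq (u j) (hud j) (1 / 2) (1 / 2) (by norm_num)
    have e : ((1 : ℝ) / 2) ^ 2 = 1 / 4 := by norm_num
    rwa [e] at h
  have hrho1 := hm (NormedSpace.exp η) (RedGrp.exp_mem hη)
  calc ∑ j ∈ Finset.range J, (‖f j (act k (act (NormedSpace.exp ((1 / 2 : ℂ) • η)) m))‖ ^ 2 +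
      (1 / 4) * ‖deriv (fun z : ℂ => f j (act (k * NormedSpace.exp ((1 / 2 : ℂ) • η))
        (act (NormedSpace.exp (z • η)) m))) 0‖ ^ 2)
      = ∑ j ∈ Finset.range J, (‖u j (1 / 2)‖ ^ 2 + (1 / 4) * ‖deriv (u j) (1 / 2)‖ ^ 2) := by
        refine Finset.sum_congr rfl fun j _ => ?_
        rw [hder j]
    _ ≤ ∑ j ∈ Finset.range J, Real.circleAverage (fun z => ‖u j z‖ ^ 2) (1 / 2) (1 / 2) :=
        Finset.sum_le_sum h1
    _ = Real.circleAverage (fun z => ∑ j ∈ Finset.range J, ‖u j z‖ ^ 2) (1 / 2) (1 / 2) :=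
        (Real.circleAverage_fun_sum hci).symm
    _ ≤ rho G act f (act (NormedSpace.exp η) m) := by
        refine Real.circleAverage_mono_on_of_le_circle ?_ ?_
        · refine ContinuousOn.circleIntegrable (by norm_num) ?_
          refine Continuous.continuousOn ?_
          exact continuous_finsetSum _ fun j _ => (hud j).continuous.norm.pow 2
        · intro z hz
          have hz1 : ‖z - 1 / 2‖ = 1 / 2 := by
            have := mem_sphere_iff_norm.1 hz
            rw [this, abs_of_pos (by norm_num)]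
          have hz2 : |z.re - 1 / 2| ≤ 1 / 2 := by
            have h := Complex.abs_re_le_norm (z - 1 / 2)
            rw [hz1] at h
            have e : (z - 1 / 2).re = z.re - 1 / 2 := by
              rw [Complex.sub_re]
              norm_num
            rwa [e] at h
          rw [abs_le] at hz2
          have ht : z.re ∈ Icc (0 : ℝ) 1 := ⟨by linarith [hz2.1], by linarith [hz2.2]⟩
          have h2 : ∑ j ∈ Finset.range J, ‖u j z‖ ^ 2 ≤
              sumSq f (act k (act (NormedSpace.exp (z • η)) m)) :=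
            Summable.sum_le_tsum _ (fun j _ => by positivity) (rhoGrow_summable hf _)
          have h3 := rhoGrow_le hA hf hη hs m hk z
          have h4 := rho_convex hA hf hη hs m z.re ht
          nlinarith [ht.1, ht.2]

theorem rho_growth (hA : HolAct d G act) {f : ℕ → X → ℂ} (hf : Fam d f) (hdir : Dir G act f)
    {m : X} (hm : IsMn G act (rho G act f) m) (R : ℝ) : ∃ c : ℝ, 0 < c ∧
      ∀ η ∈ G.lie, IsSelfAdjoint η → ‖η‖ ≤ R → ∀ a ∈ stab G act m, ∀ b ∈ perp (stab G act m),
        η = a + b → rho G act f m + c * ‖b‖ ^ 2 ≤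
          rho G act f (act (NormedSpace.exp η) m) := by
  obtain ⟨J, c1, hc1, hlow⟩ := dir_lower hA hf.hol hdir m _ (rhoGrow_compact G R) (by
    rintro _ ⟨p, ⟨hp1, hp2⟩, rfl⟩
    exact G.mul_mem _ hp1.1 _ (RedGrp.exp_smul_mem hp2.2 _))
  refine ⟨c1 / 4, by positivity, ?_⟩
  intro η hη hs hR a ha b hb hab
  have hbl : b ∈ G.lie := by
    have e : b = η - a := by rw [hab]; abel
    rw [e]
    exact G.lie.sub_mem hη (stab_le m ha)
  obtain ⟨k, hk, hke⟩ := exists_rho_eq hA hf (act (NormedSpace.exp ((1 / 2 : ℂ) • η)) m)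
  have hmid : rho G act f m ≤ rho G act f (act (NormedSpace.exp ((1 / 2 : ℂ) • η)) m) :=
    hm _ (RedGrp.exp_smul_mem hη _)
  have h1 := hlow (k * NormedSpace.exp ((1 / 2 : ℂ) • η))
    ⟨(k, η), ⟨hk, by rwa [mem_closedBall_zero_iff], hη⟩, rfl⟩ a ha b hb hbl
  rw [← hab] at h1
  set D : ℕ → ℝ := fun j => ‖deriv (fun z : ℂ => f j (act (k * NormedSpace.exp ((1 / 2 : ℂ) • η))
        (act (NormedSpace.exp (z • η)) m))) 0‖ ^ 2 with hD
  have hD0 : ∀ j, 0 ≤ D j := fun j => by simp only [hD]; positivity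
  have hlim : Filter.Tendsto (fun N => ∑ j ∈ Finset.range N,
      ‖f j (act k (act (NormedSpace.exp ((1 / 2 : ℂ) • η)) m))‖ ^ 2) Filter.atTop
      (𝓝 (sumSq f (act k (act (NormedSpace.exp ((1 / 2 : ℂ) • η)) m)))) :=
    (rhoGrow_summable hf _).hasSum.tendsto_sum_nat
  have h2 : sumSq f (act k (act (NormedSpace.exp ((1 / 2 : ℂ) • η)) m)) ≤
      rho G act f (act (NormedSpace.exp η) m) - c1 / 4 * ‖b‖ ^ 2 := by
    refine le_of_tendsto hlim ?_
    filter_upwards [Filter.eventually_ge_atTop J] with N hN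
    have h3 := rhoGrow_mean hA hf hm hη hs hk N
    rw [Finset.sum_add_distrib, ← Finset.mul_sum] at h3
    have h4 : ∑ j ∈ Finset.range J, D j ≤ ∑ j ∈ Finset.range N, D j :=
      Finset.sum_le_sum_of_subset_of_nonneg
        (Finset.range_subset_range.2 hN) fun j _ _ => hD0 j
    have h5 : c1 * ‖b‖ ^ 2 ≤ ∑ j ∈ Finset.range N, D j := h1.trans h4
    linarith
  rw [← hke] at h2
  linarith

end EqOka
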