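import Pool.Agent.Lib.MP_fe51c6_an_EO.Act

/-! Holomorphic curves on vertical strips and local equivariance. -/

open scoped Manifold Topology
open Set

noncomputable section

namespace EqOka

variable {n d e : ℕ} {G : RedGrp n} {X : Type} [TopologicalSpace X] [ChartedSpace (Cd d) X]
  [IsManifold 𝓘(ℂ, Cd d) 1 X] [T2Space X] {act : Op n → X → X}

omit [T2Space X] in
private theorem strip_loc_const (u : ℂ → X) (a b : ℝ)
    (hu : ∀ z : ℂ, a < z.re → z.re < b → MDifferentiableAt 𝓘(ℂ, ℂ) 𝓘(ℂ, Cd d) u z)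
    (hs : ∀ (z : ℂ) (s : ℝ), a < z.re → z.re < b → u (z + s * Complex.I) = u z)
    (z₀ : ℂ) (hz : a < z₀.re ∧ z₀.re < b) : ∀ᶠ z in 𝓝 z₀, u z = u z₀ := by
  have hS : IsOpen {z : ℂ | a < z.re ∧ z.re < b} :=
    (isOpen_lt continuous_const Complex.continuous_re).inter
      (isOpen_lt Complex.continuous_re continuous_const)
  have h1 : {z : ℂ | a < z.re ∧ z.re < b} ∈ 𝓝 z₀ := hS.mem_nhds hz
  have h2 : ∀ᶠ z in 𝓝 z₀, u z ∈ (chartAt (Cd d) (u z₀)).source :=
    (hu z₀ hz.1 hz.2).continuousAt.eventually_mem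
      ((chartAt (Cd d) (u z₀)).open_source.mem_nhds (mem_chart_source _ _))
  obtain ⟨r, hr, hball⟩ := Metric.mem_nhds_iff.1 (Filter.inter_mem h1 h2)
  set f : ℂ → Cd d := fun z => extChartAt 𝓘(ℂ, Cd d) (u z₀) (u z) with hf
  have hd : ∀ z ∈ Metric.ball z₀ r, DifferentiableAt ℂ f z := by
    intro z hzb
    have h3 := hball hzb
    have h4 : MDifferentiableAt 𝓘(ℂ, Cd d) 𝓘(ℂ, Cd d) (extChartAt 𝓘(ℂ, Cd d) (u z₀)) (u z) :=
      mdifferentiableAt_extChartAt h3.2
    have h5 : MDifferentiableAt 𝓘(ℂ, ℂ) 𝓘(ℂ, Cd d) f z :=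
      h4.comp z (hu z h3.1.1 h3.1.2)
    exact h5.differentiableAt
  have hd0 : Set.EqOn (deriv f) 0 (Metric.ball z₀ r) := by
    intro z hzb
    have h3 := hball hzb
    have h4 : HasDerivAt f (deriv f z) z := (hd z hzb).hasDerivAt
    have h5 : HasDerivAt (fun s : ℝ => z + (s : ℂ) * Complex.I) Complex.I 0 := by
      have h6 : HasDerivAt (fun s : ℝ => (s : ℂ)) 1 (0 : ℝ) := Complex.ofRealCLM.hasDerivAt
      have h7 := (h6.mul_const Complex.I).const_add z
      rw [one_mul] at h7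
      exact h7
    have h4' : HasDerivAt f (deriv f z) ((fun s : ℝ => z + (s : ℂ) * Complex.I) 0) := by
      simpa using h4
    have h8 : HasDerivAt (f ∘ fun s : ℝ => z + (s : ℂ) * Complex.I) (Complex.I • deriv f z) 0 :=
      h4'.scomp (0 : ℝ) h5
    have h9 : (f ∘ fun s : ℝ => z + (s : ℂ) * Complex.I) = fun _ => f z := by
      funext s
      simp only [Function.comp_apply, hf]
      rw [hs z s h3.1.1 h3.1.2]
    rw [h9] at h8
    have h10 := h8.unique (hasDerivAt_const (0 : ℝ) (f z))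
    exact (smul_eq_zero.1 h10).resolve_left Complex.I_ne_zero
  have hconst : ∀ z ∈ Metric.ball z₀ r, f z = f z₀ := fun z hzb =>
    Metric.isOpen_ball.is_const_of_deriv_eq_zero (convex_ball z₀ r).isPreconnected
      (fun w hw => (hd w hw).differentiableWithinAt) hd0 hzb (Metric.mem_ball_self hr)
  filter_upwards [Metric.ball_mem_nhds z₀ hr] with z hzb
  have h3 : f z = f z₀ := hconst z hzb
  have h4 : u z ∈ (extChartAt 𝓘(ℂ, Cd d) (u z₀)).source := by
    rw [extChartAt_source]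
    exact (hball hzb).2
  exact (extChartAt 𝓘(ℂ, Cd d) (u z₀)).injOn h4 (mem_extChartAt_source _) h3

/-- A holomorphic map on a vertical strip which is invariant under vertical translations is
constant. -/
theorem strip_const (u : ℂ → X) (a b : ℝ)
    (hu : ∀ z : ℂ, a < z.re → z.re < b → MDifferentiableAt 𝓘(ℂ, ℂ) 𝓘(ℂ, Cd d) u z)
    (hs : ∀ (z : ℂ) (s : ℝ), a < z.re → z.re < b → u (z + s * Complex.I) = u z)
    (z w : ℂ) (hz : a < z.re ∧ z.re < b) (hw : a < w.re ∧ w.re < b) : u z = u w := by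
  have hconv : Convex ℝ {z : ℂ | a < z.re ∧ z.re < b} :=
    (convex_halfSpace_re_gt a).inter (convex_halfSpace_re_lt b)
  have hpre : PreconnectedSpace {z : ℂ | a < z.re ∧ z.re < b} :=
    Subtype.preconnectedSpace hconv.isPreconnected
  have hloc : IsLocallyConstant fun z : {z : ℂ | a < z.re ∧ z.re < b} => u z := by
    rw [IsLocallyConstant.iff_eventually_eq]
    rintro ⟨z₀, hz₀⟩
    have h1 : ContinuousAt (Subtype.val : {z : ℂ | a < z.re ∧ z.re < b} → ℂ) ⟨z₀, hz₀⟩ :=
      continuousAt_subtype_val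
    exact h1.eventually (strip_loc_const u a b hu hs z₀ hz₀)
  exact hloc.apply_eq_of_preconnectedSpace ⟨z, hz⟩ ⟨w, hw⟩

omit [T2Space X] [IsManifold 𝓘(ℂ, Cd d) 1 X] in
private theorem strip_exp_zero (hA : HolAct d G act) (η : Op n) (x : X) :
    act (NormedSpace.exp ((0 : ℂ) • η)) x = x := by
  have h0 : (0 : ℂ) • η = 0 := zero_smul ℂ η
  rw [h0, NormedSpace.exp_zero, hA.one]

theorem strip_equivariant (hA : HolAct d G act) {η : Op n} (hη : η ∈ G.lie) (u : ℂ → X) (a b : ℝ)
    (hu : ∀ z : ℂ, a < z.re → z.re < b → MDifferentiableAt 𝓘(ℂ, ℂ) 𝓘(ℂ, Cd d) u z)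
    (hs : ∀ (z : ℂ) (s : ℝ), a < z.re → z.re < b →
      u (z + s * Complex.I) = act (NormedSpace.exp (((s : ℂ) * Complex.I) • η)) (u z))
    (z w : ℂ) (hz : a < z.re ∧ z.re < b) (hw : a < w.re ∧ w.re < b) :
    u z = act (NormedSpace.exp ((z - w) • η)) (u w) := by
  have h1 : act (NormedSpace.exp ((-1 * z) • η)) (u z) =
      act (NormedSpace.exp ((-1 * w) • η)) (u w) := by
    refine strip_const (d := d) (fun z : ℂ => act (NormedSpace.exp ((-1 * z) • η)) (u z)) a b
      ?_ ?_ z w hz hw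
    · intro z h1 h2
      exact hA.mdiff_curve hη (-1) u z (hu z h1 h2)
    · intro z s h1 h2
      change act (NormedSpace.exp ((-1 * (z + s * Complex.I)) • η)) (u (z + s * Complex.I)) =
        act (NormedSpace.exp ((-1 * z) • η)) (u z)
      rw [hs z s h1 h2, ← hA.exp_add hη]
      congr 3
      ring
  have h2 : u z = act (NormedSpace.exp (z • η)) (act (NormedSpace.exp ((-1 * z) • η)) (u z)) := by
    rw [← hA.exp_add hη]
    have h3 : z + -1 * z = 0 := by ring
    rw [h3, strip_exp_zero hA]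
  rw [h1, ← hA.exp_add hη] at h2
  rw [h2]
  congr 3
  ring

/-- A point fixed by `exp(isη)`, `s` real, is fixed by `exp(zη)` for all complex `z`. -/
theorem fixed_of_I (hA : HolAct d G act) {η : Op n} (hη : η ∈ G.lie) (x : X)
    (h : ∀ s : ℝ, act (NormedSpace.exp (((s : ℂ) * Complex.I) • η)) x = x) (z : ℂ) :
    act (NormedSpace.exp (z • η)) x = x := by
  have h1 := strip_equivariant hA hη (fun _ => x) (min (z.re - 1) (-1)) (max (z.re + 1) 1)
    (fun _ _ _ => mdifferentiableAt_const) (fun _ s _ _ => (h s).symm) z 0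
    ⟨(min_le_left _ _).trans_lt (by linarith), lt_of_lt_of_le (by linarith) (le_max_left _ _)⟩
    ⟨(min_le_right _ _).trans_lt (by simp), lt_of_lt_of_le (by simp) (le_max_right _ _)⟩
  rw [sub_zero] at h1
  exact h1.symm

variable {Y : Type} [TopologicalSpace Y] [ChartedSpace (Cd e) Y] [IsManifold 𝓘(ℂ, Cd e) 1 Y]
  [T2Space Y] {actY : Op n → Y → Y}

omit [T2Space X] [T2Space Y] in
private theorem strip_shift (hA : HolAct d G act) {f : X → Y}
    (hf : Eqvt G.K act actY f) {η : Op n} (hη : η ∈ G.lie) (hs : IsSelfAdjoint η) (x : X)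
    (z : ℂ) (s : ℝ) :
    f (act (NormedSpace.exp ((z + s * Complex.I) • η)) x) =
      actY (NormedSpace.exp (((s : ℂ) * Complex.I) • η))
        (f (act (NormedSpace.exp (z • η)) x)) := by
  rw [add_comm, hA.exp_add hη]
  exact hf _ (RedGrp.exp_I_K hη hs s) _

/-- A `K`-equivariant map which is holomorphic along the path `exp(tη) x`, `0 ≤ t ≤ 1`, is
equivariant along this path. -/
theorem loc_equivariant (hA : HolAct d G act) (hB : HolAct e G actY) {f : X → Y}
    (hf : Eqvt G.K act actY f) {η : Op n} (hη : η ∈ G.lie) (hs : IsSelfAdjoint η) (x : X)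
    (h : ∀ t ∈ Icc (0 : ℝ) 1, HolAt d e f (act (NormedSpace.exp ((t : ℂ) • η)) x)) :
    ∀ t ∈ Icc (0 : ℝ) 1, f (act (NormedSpace.exp ((t : ℂ) • η)) x)
      = actY (NormedSpace.exp ((t : ℂ) • η)) (f x) := by
  have hcont : Continuous fun t : ℝ => act (NormedSpace.exp ((t : ℂ) • η)) x :=
    (hA.mdiff_orbit hη x).continuous.comp Complex.continuous_ofReal
  have hopen : IsOpen {t : ℝ | HolAt d e f (act (NormedSpace.exp ((t : ℂ) • η)) x)} :=
    (isOpen_setOfPred_eventually_nhds (p := fun y =>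
      MDifferentiableAt 𝓘(ℂ, Cd d) 𝓘(ℂ, Cd e) f y)).preimage hcont
  obtain ⟨ε₁, hε₁, h1⟩ := Metric.isOpen_iff.1 hopen 0 (h 0 ⟨le_refl _, zero_le_one⟩)
  obtain ⟨ε₂, hε₂, h2⟩ := Metric.isOpen_iff.1 hopen 1 (h 1 ⟨zero_le_one, le_refl _⟩)
  set ε := min ε₁ ε₂ with hε
  have hε0 : 0 < ε := lt_min hε₁ hε₂
  have hU : ∀ t : ℝ, -ε < t → t < 1 + ε →
      HolAt d e f (act (NormedSpace.exp ((t : ℂ) • η)) x) := by
    intro t ht1 ht2
    rcases lt_or_ge t 0 with h3 | h3
    · apply h1
      rw [Metric.mem_ball, Real.dist_eq, sub_zero, abs_of_neg h3]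
      have := min_le_left ε₁ ε₂
      linarith
    · rcases le_or_gt t 1 with h4 | h4
      · exact h t ⟨h3, h4⟩
      · apply h2
        rw [Metric.mem_ball, Real.dist_eq, abs_of_pos (by linarith)]
        have := min_le_right ε₁ ε₂
        linarith
  intro t ht
  have h3 := strip_equivariant hB hη (fun z : ℂ => f (act (NormedSpace.exp (z • η)) x)) (-ε)
    (1 + ε) ?_ (fun z s _ _ => strip_shift hA hf hη hs x z s) (t : ℂ) 0 ?_ ?_
  · simp only [sub_zero] at h3
    rw [strip_exp_zero hA] at h3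
    exact h3
  · intro z hz1 hz2
    have h4 : act (NormedSpace.exp (z • η)) x =
        act (NormedSpace.exp (((z.im : ℂ) * Complex.I) • η))
          (act (NormedSpace.exp ((z.re : ℂ) • η)) x) := by
      rw [← hA.exp_add hη]
      congr 3
      rw [add_comm]
      exact (Complex.re_add_im z).symm
    have hk : NormedSpace.exp (((z.im : ℂ) * Complex.I) • η) ∈ G.K :=
      RedGrp.exp_I_K hη hs z.im
    have h5 : HolAt d e f (act (NormedSpace.exp (z • η)) x) := by
      rw [h4]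
      exact hA.holAt_translate hB hk.1 (Filter.Eventually.of_forall fun y => hf _ hk y)
        (hU z.re hz1 hz2)
    exact MDifferentiableAt.comp z h5.self_of_nhds (hA.mdiff_orbit hη x z)
  · rw [Complex.ofReal_re]
    exact ⟨by linarith [ht.1], by linarith [ht.2]⟩
  · rw [Complex.zero_re]
    exact ⟨by linarith, by linarith⟩

/-- A `K`-equivariant map which is holomorphic on a `G`-invariant set `Z` is `G`-equivariant
on `Z`. -/
theorem equivariant_on_sub (hA : HolAct d G act) (hB : HolAct e G actY) {f : X → Y}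
    (hf : Eqvt G.K act actY f) {Z : Set X} (hZ : Invt G.carrier act Z) (hfZ : HolOnSub d e f Z)
    (g : Op n) (hg : g ∈ G.carrier) (z : X) (hz : z ∈ Z) : f (act g z) = actY g (f z) := by
  obtain ⟨k, hk, η, hη, hs, hgk⟩ := RedGrp.polar_left hg
  have h1 := strip_equivariant hB hη (fun w : ℂ => f (act (NormedSpace.exp (w • η)) z)) (-1) 2 ?_
    (fun w s _ _ => strip_shift hA hf hη hs z w s) 1 0 ?_ ?_
  · simp only [sub_zero, one_smul] at h1
    rw [strip_exp_zero hA] at h1
    have he : NormedSpace.exp η ∈ G.carrier := RedGrp.exp_mem hη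
    rw [hgk, hA.mul k hk.1 _ he, hf k hk, h1, ← hB.mul k hk.1 _ he]
  · intro w _ _
    have hmem : ∀ w : ℂ, act (NormedSpace.exp (w • η)) z ∈ Z := fun w =>
      hZ _ (RedGrp.exp_smul_mem hη w) z hz
    obtain ⟨F, hF, hFf⟩ := hfZ _ (hmem w)
    have h2 : MDifferentiableAt 𝓘(ℂ, ℂ) 𝓘(ℂ, Cd e)
        (fun w : ℂ => F (act (NormedSpace.exp (w • η)) z)) w :=
      MDifferentiableAt.comp w hF.self_of_nhds (hA.mdiff_orbit hη z w)
    refine h2.congr_of_eventuallyEq ?_
    have h3 : Filter.Tendsto (fun w : ℂ => act (NormedSpace.exp (w • η)) z) (𝓝 w)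
        (𝓝 (act (NormedSpace.exp (w • η)) z)) := (hA.mdiff_orbit hη z w).continuousAt
    filter_upwards [h3.eventually hFf] with w' hw'
    exact (hw' (hmem w')).symm
  · simp
  · simp

/-- A holomorphic `K`-equivariant map is `G`-equivariant. -/
theorem equivariant_of_hol (hA : HolAct d G act) (hB : HolAct e G actY) {f : X → Y}
    (hf : Eqvt G.K act actY f) (h : Hol d e f) : Eqvt G.carrier act actY f := by
  intro g hg x
  refine equivariant_on_sub hA hB hf (Z := Set.univ) (fun _ _ _ _ => trivial) ?_ g hg x trivial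
  intro z _
  exact ⟨f, Filter.Eventually.of_forall fun y => h y, Filter.Eventually.of_forall fun _ _ => rfl⟩

end EqOka
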