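import Pool.Agent.Lib.MP_fe51c6_an_EO.Ell2
import Pool.Agent.Lib.MP_fe51c6_an_EO.Strip

/-! The exhaustion function `rho`. -/

open scoped Manifold Topology
open Set

noncomputable section

namespace EqOka

variable {n d : ℕ} {G : RedGrp n} {X : Type} [TopologicalSpace X] [ChartedSpace (Cd d) X]
  [IsManifold 𝓘(ℂ, Cd d) 1 X] [T2Space X] [SecondCountableTopology X] {act : Op n → X → X}

private theorem rho_contOn (hA : HolAct d G act) {f : ℕ → X → ℂ} (hf : Fam d f) :
    ContinuousOn (fun p : Op n × X => sumSq f (act p.1 p.2)) (G.K ×ˢ univ) :=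
  (sumSq_continuous hf).comp_continuousOn
    (hA.cont.mono (prod_mono (fun _ hk => hk.1) subset_rfl))

private theorem rho_contOn' (hA : HolAct d G act) {f : ℕ → X → ℂ} (hf : Fam d f) (x : X) :
    ContinuousOn (fun k : Op n => sumSq f (act k x)) G.K :=
  (rho_contOn hA hf).comp (f := fun k : Op n => (k, x))
    (Continuous.continuousOn (by fun_prop)) (fun _ hk => ⟨hk, mem_univ _⟩)

theorem sumSq_le_rho (hA : HolAct d G act) {f : ℕ → X → ℂ} (hf : Fam d f) {k : Op n}
    (hk : k ∈ G.K) (x : X) : sumSq f (act k x) ≤ rho G act f x :=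
  le_csSup (G.K_compact.image_of_continuousOn (rho_contOn' hA hf x)).bddAbove ⟨k, hk, rfl⟩

theorem exists_rho_eq (hA : HolAct d G act) {f : ℕ → X → ℂ} (hf : Fam d f) (x : X) :
    ∃ k ∈ G.K, rho G act f x = sumSq f (act k x) :=
  G.K_compact.exists_sSup_image_eq ⟨1, RedGrp.one_K⟩ (rho_contOn' hA hf x)

theorem rho_continuous (hA : HolAct d G act) {f : ℕ → X → ℂ} (hf : Fam d f) :
    Continuous (rho G act f) := by
  have hc : CompactSpace G.K := isCompact_iff_compactSpace.1 G.K_compact
  have h1 : Continuous (fun p : X × G.K => sumSq f (act p.2 p.1)) := by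
    rw [← continuousOn_univ]
    exact (rho_contOn hA hf).comp (f := fun p : X × G.K => ((p.2 : Op n), p.1))
      (Continuous.continuousOn (by fun_prop)) (fun p _ => ⟨p.2.2, mem_univ _⟩)
  have h2 := (isCompact_univ (X := G.K)).continuous_sSup
    (f := fun (x : X) (k : G.K) => sumSq f (act k x)) h1
  have h3 : rho G act f =
      fun x => sSup ((fun k : G.K => sumSq f (act k x)) '' univ) := by
    funext x
    unfold rho
    congr 1
    ext r
    constructor
    · rintro ⟨k, hk, rfl⟩
      exact ⟨⟨k, hk⟩, mem_univ _, rfl⟩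
    · rintro ⟨k, -, rfl⟩
      exact ⟨k, k.2, rfl⟩
  rw [h3]
  exact h2

theorem rho_inv (hA : HolAct d G act) {f : ℕ → X → ℂ} (hf : Fam d f) {k : Op n}
    (hk : k ∈ G.K) (x : X) : rho G act f (act k x) = rho G act f x := by
  apply le_antisymm
  · obtain ⟨k', hk', h⟩ := exists_rho_eq hA hf (act k x)
    rw [h, ← hA.mul k' hk'.1 k hk.1]
    exact sumSq_le_rho hA hf (RedGrp.mul_K hk' hk) x
  · obtain ⟨k', hk', h⟩ := exists_rho_eq hA hf x
    obtain ⟨hs, -, hs2⟩ := RedGrp.star_K hk
    have h2 : act k' x = act (k' * star k) (act k x) := by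
      rw [← hA.mul _ (RedGrp.mul_K hk' hs).1 k hk.1, mul_assoc, hs2, mul_one]
    rw [h, h2]
    exact sumSq_le_rho hA hf (RedGrp.mul_K hk' hs) (act k x)

theorem rho_proper (hA : HolAct d G act) {f : ℕ → X → ℂ} (hf : Fam d f) (c : ℝ) :
    IsCompact {x | rho G act f x ≤ c} := by
  obtain ⟨C, hC, hCf⟩ := hf.proper c
  refine hC.of_isClosed_subset (isClosed_le (rho_continuous hA hf) continuous_const) ?_
  intro x hx
  apply hCf
  have h := sumSq_le_rho hA hf (RedGrp.one_K (G := G)) x
  rw [hA.one] at h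
  exact h.trans hx

end EqOka
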