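import Pool.Agent.Lib.MP_fe51c6_an_EO.C0Def
import Pool.Agent.Lib.MP_fe51c6_an_EO.Rho

/-! The function `ρ` is locally Lipschitz. -/

open scoped Manifold Topology
open Set

noncomputable section

namespace EqOka

variable {n d : ℕ} {G : RedGrp n} {X : Type} [TopologicalSpace X] [ChartedSpace (Cd d) X]
  [IsManifold 𝓘(ℂ, Cd d) 1 X] [T2Space X] [SecondCountableTopology X] {act : Op n → X → X}

/-- the Schwarz lemma along the segments of a chart -/
private theorem lip_line (hA : HolAct d G act) {E : Type} [NormedAddCommGroup E]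
    [NormedSpace ℂ E] (F : X → E)
    (hF : ∀ (u : ℂ → X) (z : ℂ), (∀ᶠ w in 𝓝 z, MDifferentiableAt 𝓘(ℂ, ℂ) 𝓘(ℂ, Cd d) u w) →
      DifferentiableAt ℂ (fun w => F (u w)) z) (m : X) {g : Op n} (hg : g ∈ G.carrier)
    {r M : ℝ} (hr : 0 < r) (hM : 0 ≤ M)
    (hb : Metric.closedBall (chartAt (Cd d) m m) r ⊆ (chartAt (Cd d) m).target)
    (hFM : ∀ v ∈ Metric.closedBall (chartAt (Cd d) m m) r,
      ‖F (act g ((chartAt (Cd d) m).symm v))‖ ≤ M) (v : Cd d)
    (hv : v ∈ Metric.ball (chartAt (Cd d) m m) r) :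
    ‖F (act g ((chartAt (Cd d) m).symm v)) -
      F (act g ((chartAt (Cd d) m).symm (chartAt (Cd d) m m)))‖ ≤
        (2 * M + 1) / r * ‖v - chartAt (Cd d) m m‖ := by
  set φ := chartAt (Cd d) m with hφ
  set v0 : Cd d := φ m with hv0
  by_cases hvv : v = v0
  · rw [hvv]; simp
  have ht : 0 < ‖v - v0‖ := norm_pos_iff.2 (sub_ne_zero.2 hvv)
  obtain ⟨t, htd⟩ : ∃ t : ℝ, t = ‖v - v0‖ := ⟨_, rfl⟩
  have ht' : 0 < t := by rw [htd]; exact ht
  have htc : (t : ℂ) ≠ 0 := by exact_mod_cast ht'.ne'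
  obtain ⟨γ, hγ⟩ : ∃ γ : ℂ → Cd d, γ = fun z => v0 + (z / (t : ℂ)) • (v - v0) := ⟨_, rfl⟩
  have hγn : ∀ z : ℂ, ‖γ z - v0‖ = ‖z‖ := by
    intro z
    rw [hγ]
    simp only [add_sub_cancel_left]
    rw [norm_smul, norm_div, Complex.norm_real, Real.norm_of_nonneg ht'.le, ← htd,
      div_mul_cancel₀ _ ht'.ne']
  have hγb : ∀ z ∈ Metric.ball (0 : ℂ) r, γ z ∈ Metric.ball v0 r := by
    intro z hz
    rw [Metric.mem_ball, dist_eq_norm, hγn]
    simpa using hz
  have hγd : ∀ z, DifferentiableAt ℂ γ z := by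
    intro z
    rw [hγ]
    fun_prop
  have hu : ∀ w ∈ Metric.ball (0 : ℂ) r,
      MDifferentiableAt 𝓘(ℂ, ℂ) 𝓘(ℂ, Cd d) (fun z => act g (φ.symm (γ z))) w := by
    intro w hw
    have h1 : MDifferentiableAt 𝓘(ℂ, ℂ) 𝓘(ℂ, Cd d) γ w :=
      mdifferentiableAt_iff_differentiableAt.2 (hγd w)
    have h2 : MDifferentiableAt 𝓘(ℂ, Cd d) 𝓘(ℂ, Cd d) φ.symm (γ w) :=
      mdifferentiableAt_atlas_symm (chart_mem_atlas (Cd d) m)
        (hb (Metric.ball_subset_closedBall (hγb w hw)))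
    have h3 : MDifferentiableAt 𝓘(ℂ, ℂ) 𝓘(ℂ, Cd d) (fun z => φ.symm (γ z)) w :=
      MDifferentiableAt.comp w h2 h1
    exact MDifferentiableAt.comp w ((hA.hol g hg) (φ.symm (γ w))) h3
  have hd : DifferentiableOn ℂ (fun z => F (act g (φ.symm (γ z)))) (Metric.ball (0 : ℂ) r) := by
    intro z hz
    refine (hF (fun z => act g (φ.symm (γ z))) z ?_).differentiableWithinAt
    filter_upwards [Metric.isOpen_ball.mem_nhds hz] with w hw
    exact hu w hw
  have hγ0 : γ 0 = v0 := by rw [hγ]; simp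
  have hγt : γ (t : ℂ) = v := by
    rw [hγ]
    simp only
    rw [div_self htc, one_smul, add_sub_cancel]
  have hmaps : MapsTo (fun z => F (act g (φ.symm (γ z)))) (Metric.ball (0 : ℂ) r)
      (Metric.closedBall ((fun z => F (act g (φ.symm (γ z)))) 0) (2 * M + 1)) := by
    intro z hz
    rw [Metric.mem_closedBall, dist_eq_norm]
    have h1 := hFM (γ z) (Metric.ball_subset_closedBall (hγb z hz))
    have h2 := hFM (γ 0) (Metric.ball_subset_closedBall (hγb 0 (Metric.mem_ball_self hr)))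
    have h3 := norm_sub_le (F (act g (φ.symm (γ z)))) (F (act g (φ.symm (γ 0))))
    simp only
    linarith
  have htz : (t : ℂ) ∈ Metric.ball (0 : ℂ) r := by
    rw [Metric.mem_ball, dist_zero_right, Complex.norm_real, Real.norm_of_nonneg ht'.le, htd]
    rwa [Metric.mem_ball, dist_eq_norm] at hv
  have h := Complex.dist_le_div_mul_dist_of_mapsTo_ball hd hmaps htz
  rw [dist_eq_norm, dist_zero_right, Complex.norm_real, Real.norm_of_nonneg ht'.le, htd] at h
  rw [hγ0, ← htd, hγt, htd] at h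
  exact h

theorem rho_lip (hA : HolAct d G act) {f : ℕ → X → ℂ} (hf : Fam d f) (m : X) (C : Set (Op n))
    (hC : IsCompact C) (hCG : C ⊆ G.carrier) : ∃ c : ℝ, ∀ᶠ s in 𝓝 m, ∀ g ∈ C,
      |rho G act f (act g s) - rho G act f (act g m)| ≤
        c * ‖chartAt (Cd d) m s - chartAt (Cd d) m m‖ := by
  obtain ⟨F, -, hFn, hFc, hFh⟩ := exists_ell2 hf
  obtain ⟨C', hC'd⟩ : ∃ C' : Set (Op n),
      C' = (fun p : Op n × Op n => p.1 * p.2) '' (G.K ×ˢ C) := ⟨_, rfl⟩
  have hC' : IsCompact C' := by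
    rw [hC'd]
    exact (G.K_compact.prod hC).image continuous_mul
  have hC'G : C' ⊆ G.carrier := by
    rw [hC'd]
    rintro _ ⟨p, hp, rfl⟩
    exact G.mul_mem _ hp.1.1 _ (hCG hp.2)
  have hkg : ∀ k ∈ G.K, ∀ g ∈ C, k * g ∈ C' := by
    intro k hk g hg
    rw [hC'd]
    exact ⟨(k, g), ⟨hk, hg⟩, rfl⟩
  set φ := chartAt (Cd d) m with hφ
  have hms : m ∈ φ.source := mem_chart_source (Cd d) m
  obtain ⟨R, hR, hRb⟩ := Metric.isOpen_iff.1 φ.open_target (φ m) (φ.map_source hms)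
  have hr : 0 < R / 2 := by linarith
  have hb : Metric.closedBall (φ m) (R / 2) ⊆ φ.target :=
    (Metric.closedBall_subset_ball (by linarith)).trans hRb
  have hcont : ContinuousOn (fun p : Op n × Cd d => ‖F (act p.1 (φ.symm p.2))‖)
      (C' ×ˢ Metric.closedBall (φ m) (R / 2)) := by
    refine (hFc.comp_continuousOn ?_).norm
    refine hA.cont.comp (f := fun p : Op n × Cd d => (p.1, φ.symm p.2))
      (continuousOn_fst.prodMk (φ.continuousOn_symm.comp continuousOn_snd ?_)) ?_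
    · intro p hp
      exact hb hp.2
    · intro p hp
      exact ⟨hC'G hp.1, mem_univ _⟩
  obtain ⟨M, hM⟩ := (hC'.prod (isCompact_closedBall (φ m) (R / 2))).bddAbove_image hcont
  have hM' : ∀ g ∈ C', ∀ v ∈ Metric.closedBall (φ m) (R / 2), ‖F (act g (φ.symm v))‖ ≤ |M| := by
    intro g hg v hv
    exact (hM ⟨(g, v), ⟨hg, hv⟩, rfl⟩).trans (le_abs_self M)
  have hM0 : 0 ≤ |M| := abs_nonneg M
  obtain ⟨c, hcd⟩ : ∃ c : ℝ, c = 2 * |M| * ((2 * |M| + 1) / (R / 2)) := ⟨_, rfl⟩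
  refine ⟨c, ?_⟩
  have hev1 : ∀ᶠ s in 𝓝 m, s ∈ φ.source := φ.open_source.mem_nhds hms
  have hev2 : ∀ᶠ s in 𝓝 m, φ s ∈ Metric.ball (φ m) (R / 2) :=
    (φ.continuousAt hms).eventually (Metric.ball_mem_nhds (φ m) hr)
  filter_upwards [hev1, hev2] with s hs1 hs2
  have hsym : φ.symm (φ s) = s := φ.left_inv hs1
  have hsymm : φ.symm (φ m) = m := φ.left_inv hms
  have key : ∀ g ∈ C', |sumSq f (act g s) - sumSq f (act g m)| ≤ c * ‖φ s - φ m‖ := by
    intro g hg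
    have h1 := lip_line hA F hFh m (hC'G hg) hr hM0 hb (hM' g hg) (φ s) hs2
    have h2 := hM' g hg (φ s) (Metric.ball_subset_closedBall hs2)
    have h3 := hM' g hg (φ m) (Metric.mem_closedBall_self hr.le)
    rw [← hφ, hsym, hsymm] at h1
    rw [hsym] at h2
    rw [hsymm] at h3
    rw [← hFn, ← hFn]
    have h4 : ‖F (act g s)‖ ^ 2 - ‖F (act g m)‖ ^ 2 =
        (‖F (act g s)‖ + ‖F (act g m)‖) * (‖F (act g s)‖ - ‖F (act g m)‖) := by ring
    rw [h4, abs_mul, abs_of_nonneg (by positivity), hcd]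
    have h5 : |‖F (act g s)‖ - ‖F (act g m)‖| ≤ ‖F (act g s) - F (act g m)‖ :=
      abs_norm_sub_norm_le _ _
    calc (‖F (act g s)‖ + ‖F (act g m)‖) * |‖F (act g s)‖ - ‖F (act g m)‖|
        ≤ (2 * |M|) * ((2 * |M| + 1) / (R / 2) * ‖φ s - φ m‖) := by
          refine mul_le_mul (by linarith) (h5.trans h1) (abs_nonneg _) (by positivity)
      _ = _ := by ring
  intro g hg
  rw [abs_le]
  constructor
  · obtain ⟨k, hk, hke⟩ := exists_rho_eq hA hf (act g m)
    have h1 := sumSq_le_rho hA hf hk (act g s)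
    rw [← hA.mul k hk.1 g (hCG hg)] at hke h1
    have h2 := (abs_le.1 (key (k * g) (hkg k hk g hg))).1
    linarith
  · obtain ⟨k, hk, hke⟩ := exists_rho_eq hA hf (act g s)
    have h1 := sumSq_le_rho hA hf hk (act g m)
    rw [← hA.mul k hk.1 g (hCG hg)] at hke h1
    have h2 := (abs_le.1 (key (k * g) (hkg k hk g hg))).2
    linarith

end EqOka
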