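import Pool.Agent.Lib.MP_fe51c6_an_EO.Fam
import Pool.Agent.Lib.MP_fe51c6_an_EO.RhoConv
import Pool.Agent.Lib.MP_fe51c6_an_EO.RhoStrict

/-! Existence of the exhaustion function. -/

open scoped Manifold Topology
open Set

noncomputable section

namespace EqOka

variable {n d : ℕ} {G : RedGrp n} {X : Type} [TopologicalSpace X] [ChartedSpace (Cd d) X]
  [IsManifold 𝓘(ℂ, Cd d) 1 X] [T2Space X] [SecondCountableTopology X] {act : Op n → X → X}

theorem exists_exh (hX : IsStein d X) (hA : HolAct d G act) (A : Set X) (hAc : IsCompact A)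
    (hAK : Invt G.K act A) (hh : hull d A ⊆ A) (U : Set X) (hU : IsOpen U) (hAU : A ⊆ U) :
    ∃ ρ : X → ℝ, Exh d G act ρ ∧ (∀ x ∈ A, ρ x < 1) ∧ ∀ x, ρ x ≤ 1 → x ∈ U := by
  obtain ⟨f, hf, h1, h2⟩ := exists_fam hX A hAc hh U hU hAU
  refine ⟨rho G act f, ⟨rho_continuous hA hf, rho_proper hA hf,
    fun k hk x => rho_inv hA hf hk x, fun η hη hs x t ht => rho_convex hA hf hη hs x t ht,
    fun η hη hs x h t => rho_strict hA hf hη hs x h t,
    fun c x hc => rho_hconv hA hf c x hc⟩, ?_, ?_⟩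
  · intro x hx
    obtain ⟨k, hk, e⟩ := exists_rho_eq hA hf x
    rw [e]
    exact h1 _ (hAK k hk x hx)
  · intro x hx
    have h3 := sumSq_le_rho hA hf RedGrp.one_K x
    rw [hA.one] at h3
    exact h2 x (h3.trans hx)

end EqOka
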