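import Pool.Agent.Lib.MP_fe51c6_an_EO.C0Fam
import Pool.Agent.Lib.MP_fe51c6_an_EO.C0Grow
import Pool.Agent.Lib.MP_fe51c6_an_EO.C0Lip
import Pool.Agent.Lib.MP_fe51c6_an_EO.ExhEx

/-! An exhaustion function with the Hölder property. -/

open scoped Manifold Topology
open Set

noncomputable section

namespace EqOka

variable {n d : ℕ} {G : RedGrp n} {X : Type} [TopologicalSpace X] [ChartedSpace (Cd d) X]
  [IsManifold 𝓘(ℂ, Cd d) 1 X] [T2Space X] [SecondCountableTopology X] {act : Op n → X → X}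

private theorem Hold_neg_aux {A : Type*} [CStarAlgebra A] {η : A} (h : IsSelfAdjoint η) :
    IsSelfAdjoint (-η) := h.neg

private theorem Hold_neg {η : Op n} (h : IsSelfAdjoint η) : IsSelfAdjoint (-η) :=
  Hold_neg_aux (A := Op n) h

private theorem Hold_exp_cont : Continuous (NormedSpace.exp : Op n → Op n) := by
  let _ : NormedAlgebra ℚ (Op n) := NormedAlgebra.restrictScalars ℚ ℂ (Op n)
  exact NormedSpace.exp_continuous

private theorem Hold_compact (G : RedGrp n) (R : ℝ) :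
    IsCompact ((fun ξ : Op n => NormedSpace.exp (-ξ)) ''
      ((G.lie : Set (Op n)) ∩ Metric.closedBall 0 R)) := by
  have : ProperSpace (Op n) := FiniteDimensional.proper ℂ (Op n)
  have hcl : IsClosed (G.lie : Set (Op n)) := Submodule.closed_of_finiteDimensional G.lie
  exact ((isCompact_closedBall (0 : Op n) R).inter_left hcl).image
    (Hold_exp_cont.comp continuous_neg)

private theorem Hold_arith {ρm ρe ρs em b c c' δ : ℝ} (hc' : 0 < c')
    (h1 : |em - ρe| ≤ c * δ) (h2 : |ρs - ρm| ≤ c * δ) (h3 : ρm + c' * b ≤ em)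
    (h4 : ρe ≤ ρs) : b ≤ (2 * c / c') * δ := by
  have h5 := (abs_le.1 h1).2
  have h6 := (abs_le.1 h2).2
  have h7 : c' * b ≤ 2 * c * δ := by linarith
  have h8 : (2 * c / c') * δ = (2 * c * δ) / c' := by ring
  rw [h8, le_div_iff₀ hc']
  linarith

private theorem Hold_rho (hA : HolAct d G act) {f : ℕ → X → ℂ} (hf : Fam d f)
    (hdir : Dir G act f) : Hold d G act (rho G act f) := by
  intro w hw m hm
  obtain ⟨c', hc', hgr⟩ := rho_growth hA hf hdir hm (‖w m‖ + 1)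
  obtain ⟨c, hlip⟩ := rho_lip hA hf m _ (Hold_compact G (‖w m‖ + 1)) (by
    rintro g ⟨ξ, ⟨hξ, -⟩, rfl⟩
    exact RedGrp.exp_mem (G.lie.neg_mem hξ))
  refine ⟨2 * c / c', ?_⟩
  have hev : ∀ᶠ s in 𝓝 m, ‖w s‖ < ‖w m‖ + 1 :=
    (hw.cont.norm.tendsto m).eventually_lt_const (lt_add_one _)
  filter_upwards [hlip, hev] with s hs hws a ha b hb hab
  have hRs : ‖w s‖ ≤ ‖w m‖ + 1 := hws.le
  have hR0 : 0 ≤ ‖w m‖ + 1 := by positivity
  have h1 := hs (NormedSpace.exp (-w s)) ⟨w s, ⟨hw.mem s, by simpa using hRs⟩, rfl⟩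
  have h2 := hs 1 ⟨0, ⟨G.lie.zero_mem, by simpa using hR0⟩, by simp⟩
  rw [hA.one, hA.one] at h2
  have h3 := hgr (-w s) (G.lie.neg_mem (hw.mem s)) (Hold_neg (hw.sa s)) (by rwa [norm_neg]) (-a)
    ((stab G act m).neg_mem ha) (-b) ((perp (stab G act m)).neg_mem hb) (by rw [hab]; abel)
  rw [norm_neg] at h3
  have h4 := hw.mn s (NormedSpace.exp (w s)) (RedGrp.exp_mem (hw.mem s))
  rw [(hA.inv_act (RedGrp.exp_mem (hw.mem s)) (exp_neg_mul_self (w s)).2 s).1] at h4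
  rw [abs_sub_comm] at h1
  exact Hold_arith hc' h1 h2 h3 h4

theorem exists_exh_hold (hX : IsStein d X) (hA : HolAct d G act) (A : Set X) (hAc : IsCompact A)
    (hAK : Invt G.K act A) (hh : hull d A ⊆ A) (U : Set X) (hU : IsOpen U) (hAU : A ⊆ U) :
    ∃ ρ : X → ℝ, Exh d G act ρ ∧ Hold d G act ρ ∧ (∀ x ∈ A, ρ x < 1) ∧
      ∀ x, ρ x ≤ 1 → x ∈ U := by
  obtain ⟨f, hf, hdir, h1, h2⟩ := exists_fam_dir hX hA A hAc hh U hU hAU
  refine ⟨rho G act f, ⟨rho_continuous hA hf, rho_proper hA hf,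
    fun k hk x => rho_inv hA hf hk x, fun η hη hs x t ht => rho_convex hA hf hη hs x t ht,
    fun η hη hs x h t => rho_strict hA hf hη hs x h t,
    fun c x hc => rho_hconv hA hf c x hc⟩, Hold_rho hA hf hdir, ?_, ?_⟩
  · intro x hx
    obtain ⟨k, hk, e⟩ := exists_rho_eq hA hf x
    rw [e]
    exact h1 _ (hAK k hk x hx)
  · intro x hx
    have h3 := sumSq_le_rho hA hf RedGrp.one_K x
    rw [hA.one] at h3
    exact h2 x (h3.trans hx)

end EqOka
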