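import Pool.Agent.Lib.MP_fe51c6_an_EO.Bdd

/-! The retraction onto the set of minimal points. -/

open scoped Manifold Topology
open Set

noncomputable section

namespace EqOka

variable {n d : ℕ} {G : RedGrp n} {X : Type} [TopologicalSpace X] [ChartedSpace (Cd d) X]
  [IsManifold 𝓘(ℂ, Cd d) 1 X] [T2Space X] [SecondCountableTopology X] {act : Op n → X → X}
  {ρ : X → ℝ}

/-- `w` is continuous, `K`-equivariant, selfadjoint, and `exp(-w(x)) x` is a minimal point. -/
structure Retr (G : RedGrp n) {X : Type} [TopologicalSpace X] (act : Op n → X → X) (ρ : X → ℝ)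
    (w : X → Op n) : Prop where
  cont : Continuous w
  mem : ∀ x, w x ∈ G.lie
  sa : ∀ x, IsSelfAdjoint (w x)
  eqv : ∀ k ∈ G.K, ∀ x, w (act k x) = k * w x * star k
  mn : ∀ x, IsMn G act ρ (act (NormedSpace.exp (-w x)) x)

private theorem Retr_neg_aux {A : Type*} [CStarAlgebra A] {η : A} (h : IsSelfAdjoint η) :
    IsSelfAdjoint (-η) := h.neg

private theorem Retr_neg {η : Op n} (h : IsSelfAdjoint η) : IsSelfAdjoint (-η) :=
  Retr_neg_aux (A := Op n) h

private theorem Retr_sa_closed_aux {A : Type*} [CStarAlgebra A] :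
    IsClosed {η : A | IsSelfAdjoint η} := isClosed_eq continuous_star continuous_id

private theorem Retr_sa_closed : IsClosed {η : Op n | IsSelfAdjoint η} :=
  Retr_sa_closed_aux (A := Op n)

private theorem Retr_ring1 {A : Type*} [Ring A] (a b c : A) : -(a * b * c) = a * (-b) * c := by
  rw [mul_neg, neg_mul]

private theorem Retr_ring2 {A : Type*} [Ring A] (a b : A) : -(-a * b - b * -a) = a * b - b * a := by
  rw [neg_mul, mul_neg]
  abel

private theorem Retr_ring3 {A : Type*} [AddCommGroup A] [Module ℂ A] (z : ℂ) (a : A) :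
    z • (-a) = (-z) • a := by
  rw [smul_neg, neg_smul]

private theorem Retr_inv {g : Op n} (hg : g ∈ G.carrier) :
    Ring.inverse g ∈ G.carrier ∧ g * Ring.inverse g = 1 ∧ Ring.inverse g * g = 1 := by
  have h1 := Ring.mul_inverse_cancel g (RedGrp.isUnit hg)
  have h2 := RedGrp.inv_mem' hg h1
  exact ⟨h2.1, h1, h2.2⟩

private theorem Retr_exp_cont : Continuous (NormedSpace.exp : Op n → Op n) := by
  let _ : NormedAlgebra ℚ (Op n) := NormedAlgebra.restrictScalars ℚ ℂ (Op n)
  exact NormedSpace.exp_continuous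

private theorem Retr_exp_unit (ξ : Op n) : IsUnit (NormedSpace.exp ξ) :=
  ⟨⟨NormedSpace.exp ξ, NormedSpace.exp (-ξ), (exp_neg_mul_self ξ).2, (exp_neg_mul_self ξ).1⟩, rfl⟩

private theorem Retr_FF_at {g : Op n} (hg : IsUnit g) : ContinuousAt (FF : Op n → ℝ) g :=
  FF_continuousOn.continuousAt (Units.isOpen.mem_nhds hg)

omit [SecondCountableTopology X] in
private theorem Retr_closed (hA : HolAct d G act) (hρ : Exh d G act ρ) {x : X} (u : ℕ → Op n)
    (g : Op n) (hg : IsUnit g) (hu : ∀ j, u j ∈ G.carrier)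
    (hm : ∀ j, ∃ m, IsMn G act ρ m ∧ act (u j) m = x)
    (hlim : Filter.Tendsto u Filter.atTop (𝓝 g)) :
    g ∈ G.carrier ∧ ∃ m, IsMn G act ρ m ∧ act g m = x := by
  have hgc : g ∈ G.carrier :=
    G.closed g hg (mem_closure_of_tendsto hlim (Filter.Eventually.of_forall hu))
  obtain ⟨hi, h1, h2⟩ := Retr_inv hgc
  refine ⟨hgc, act (Ring.inverse g) x, ?_, (hA.inv_act hgc h1 x).1⟩
  obtain ⟨v, rfl⟩ := hg
  have h3 : Filter.Tendsto (fun j => Ring.inverse (u j)) Filter.atTop
      (𝓝 (Ring.inverse (v : Op n))) := (NormedRing.inverse_continuousAt v).tendsto.comp hlim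
  have h4 : Filter.Tendsto (fun j => act (Ring.inverse (u j)) x) Filter.atTop
      (𝓝 (act (Ring.inverse (v : Op n)) x)) :=
    hA.tendsto (x := fun _ => x) (Filter.Eventually.of_forall fun j => (Retr_inv (hu j)).1) hi h3
      tendsto_const_nhds
  refine (mn_closed hA hρ).mem_of_tendsto h4 (Filter.Eventually.of_forall fun j => ?_)
  obtain ⟨m, hm1, hm2⟩ := hm j
  have h5 := (hA.inv_act (hu j) (Retr_inv (hu j)).2.1 m).2
  rw [hm2] at h5
  show IsMn G act ρ (act (Ring.inverse (u j)) x)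
  rw [h5]
  exact hm1

/-- Existence of the element of `exp(p)` with the smallest value of `FF` among the group elements
moving a minimal point to `x`. -/
theorem exists_min_FF (hA : HolAct d G act) (hρ : Exh d G act ρ) (hc : ClosedOrbits G act) (x : X) :
    ∃ w ∈ G.lie, IsSelfAdjoint w ∧ IsMn G act ρ (act (NormedSpace.exp (-w)) x) ∧
      ∀ g ∈ G.carrier, ∀ m, IsMn G act ρ m → act g m = x → FF (NormedSpace.exp w) ≤ FF g := by
  obtain ⟨g₀, hg₀, hm₀⟩ := exists_mn hA hρ hc x
  obtain ⟨hi, h1, h2⟩ := Retr_inv hg₀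
  set h₀ := Ring.inverse g₀ with hh₀
  have hx₀ : act h₀ (act g₀ x) = x := (hA.inv_act hg₀ h1 x).2
  set S : Set (Op n) := {g | IsUnit g ∧ FF g ≤ FF h₀} ∩
    {g | g ∈ G.carrier ∧ ∃ m, IsMn G act ρ m ∧ act g m = x} with hS
  have hcl : IsClosed S := by
    refine isClosed_of_closure_subset fun g hg => ?_
    obtain ⟨u, hu, hlim⟩ := mem_closure_iff_seq_limit.1 hg
    have hgK : g ∈ {g : Op n | IsUnit g ∧ FF g ≤ FF h₀} :=
      (FF_compact (FF h₀)).isClosed.mem_of_tendsto hlim (Filter.Eventually.of_forall fun j => (hu j).1)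
    exact ⟨hgK, Retr_closed hA hρ u g hgK.1 (fun j => (hu j).2.1) (fun j => (hu j).2.2) hlim⟩
  have hcomp : IsCompact S := (FF_compact (FF h₀)).of_isClosed_subset hcl inter_subset_left
  have hne : S.Nonempty := ⟨h₀, ⟨RedGrp.isUnit hi, le_refl _⟩, hi, _, hm₀, hx₀⟩
  obtain ⟨g, hgS, hgmin⟩ := hcomp.exists_isMinOn hne (FF_continuousOn.mono fun g hg => hg.1.1)
  obtain ⟨w, hw, k, hk, hsa, hgk⟩ := RedGrp.polar_right hgS.2.1
  obtain ⟨m, hm, hgm⟩ := hgS.2.2
  have hew : NormedSpace.exp w ∈ G.carrier := RedGrp.exp_mem hw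
  have hFF : FF (NormedSpace.exp w) = FF g := by
    rw [hgk, (FF_mul_unitary hk.2 _).1]
  have hxk : act (NormedSpace.exp (-w)) x = act k m := by
    rw [← hgm, hgk, hA.mul _ hew _ hk.1]
    exact (hA.inv_act hew (exp_neg_mul_self w).2 _).2
  refine ⟨w, hw, hsa, ?_, fun g' hg' m' hm' hx' => ?_⟩
  · rw [hxk]
    exact mn_K hA hρ hm hk
  · rw [hFF]
    by_cases hle : FF g' ≤ FF h₀
    · exact hgmin (show g' ∈ S from ⟨⟨RedGrp.isUnit hg', hle⟩, hg', m', hm', hx'⟩)
    · exact hgS.1.2.trans (not_le.1 hle).le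

/-- Uniqueness. -/
theorem unique_min_FF (hA : HolAct d G act) (hρ : Exh d G act ρ) {x : X} {w w' : Op n}
    (hw : w ∈ G.lie) (hw' : w' ∈ G.lie) (hs : IsSelfAdjoint w) (hs' : IsSelfAdjoint w')
    (hm : IsMn G act ρ (act (NormedSpace.exp (-w)) x))
    (hm' : IsMn G act ρ (act (NormedSpace.exp (-w')) x))
    (h : ∀ g ∈ G.carrier, ∀ m, IsMn G act ρ m → act g m = x → FF (NormedSpace.exp w) ≤ FF g)
    (h' : ∀ g ∈ G.carrier, ∀ m, IsMn G act ρ m → act g m = x → FF (NormedSpace.exp w') ≤ FF g) :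
    w = w' := by
  have e := exp_neg_mul_self w
  have e' := exp_neg_mul_self w'
  have hew : NormedSpace.exp w ∈ G.carrier := RedGrp.exp_mem hw
  have hew' : NormedSpace.exp w' ∈ G.carrier := RedGrp.exp_mem hw'
  have hewn : NormedSpace.exp (-w) ∈ G.carrier := RedGrp.exp_mem (G.lie.neg_mem hw)
  have hx : act (NormedSpace.exp w) (act (NormedSpace.exp (-w)) x) = x :=
    (hA.inv_act hew e.2 x).1
  have hx' : act (NormedSpace.exp w') (act (NormedSpace.exp (-w')) x) = x :=
    (hA.inv_act hew' e'.2 x).1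
  have hFF : FF (NormedSpace.exp w) = FF (NormedSpace.exp w') :=
    le_antisymm (h _ hew' _ hm' hx') (h' _ hew _ hm hx)
  have hgm : act (NormedSpace.exp (-w) * NormedSpace.exp w') (act (NormedSpace.exp (-w')) x) =
      act (NormedSpace.exp (-w)) x := by
    rw [hA.mul _ hewn _ hew', hx']
  obtain ⟨k, hk, η, hη, hηs, hke, -⟩ := mn_orbit hA hρ hm'
    (G.mul_mem _ hewn _ hew') (by rw [hgm]; exact hm)
  have h1 : NormedSpace.exp w' = NormedSpace.exp w * k * NormedSpace.exp η := by
    rw [mul_assoc, ← hke, ← mul_assoc, e.2, one_mul]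
  have h2 : NormedSpace.exp w' * NormedSpace.exp (-η) = NormedSpace.exp w * k := by
    rw [h1, mul_assoc, (exp_neg_mul_self η).2, mul_one]
  have h3 : FF (NormedSpace.exp w' * NormedSpace.exp (-η)) = FF (NormedSpace.exp w') := by
    rw [h2, (FF_mul_unitary hk.2 _).1, hFF]
  have hη0 : η = 0 := by
    by_contra hne
    have h4 := FF_mid (RedGrp.isUnit hew') (Retr_neg hηs) (neg_ne_zero.2 hne)
    rw [h3] at h4
    have hstab := (mem_stab hA (act (NormedSpace.exp (-w')) x) η).1 hη
    have h5 : ((1 / 2 : ℂ) • (-η) : Op n) = (-(1 / 2) : ℂ) • η := Retr_ring3 _ _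
    rw [h5] at h4
    have h6 := h' (NormedSpace.exp w' * NormedSpace.exp ((-(1 / 2) : ℂ) • η))
      (G.mul_mem _ hew' _ (RedGrp.exp_smul_mem hstab.1 _)) _ hm' (by
        rw [hA.mul _ hew' _ (RedGrp.exp_smul_mem hstab.1 _), hstab.2, hx'])
    linarith
  rw [hη0, NormedSpace.exp_zero, mul_one] at h1
  exact (polar_unique' (Submonoid.one_mem _) hk.2 hs' hs (by rw [mul_one]; exact h1)).2.symm

theorem exists_retr (hA : HolAct d G act) (hρ : Exh d G act ρ) (hc : ClosedOrbits G act) :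
    ∃ w : X → Op n, Retr G act ρ w := by
  choose w hw hsa hmn hmin using fun x => exists_min_FF hA hρ hc x
  refine ⟨w, ?_, hw, hsa, ?_, hmn⟩
  · rw [continuous_iff_continuousAt]
    intro x₀
    unfold ContinuousAt
    rw [Filter.tendsto_iff_ultrafilter]
    intro U hU
    obtain ⟨R, hR⟩ := exists_bdd hA hρ hc x₀
    obtain ⟨C, hC⟩ := FF_bound n R
    have : ProperSpace (Op n) := FiniteDimensional.proper ℂ (Op n)
    have hb : ∀ᶠ x in (U : Filter X), w x ∈ Metric.closedBall (0 : Op n) C := by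
      filter_upwards [hU hR] with x hx
      obtain ⟨g, hg, m, hm, hgm, hgR⟩ := hx
      rw [mem_closedBall_zero_iff]
      exact hC _ (hsa x) ((hmin x g hg m hm hgm).trans hgR)
    obtain ⟨w', -, hw'⟩ := (isCompact_closedBall (0 : Op n) C).ultrafilter_le_nhds (U.map w)
      (by rw [Filter.le_principal_iff]; exact hb)
    have hlim : Filter.Tendsto w (U : Filter X) (𝓝 w') := hw'
    have hid : Filter.Tendsto (fun x : X => x) (U : Filter X) (𝓝 x₀) := hU
    have hw'l : w' ∈ G.lie :=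
      (Submodule.closed_of_finiteDimensional G.lie).mem_of_tendsto hlim
        (Filter.Eventually.of_forall hw)
    have hw's : IsSelfAdjoint w' :=
      Retr_sa_closed.mem_of_tendsto hlim (Filter.Eventually.of_forall hsa)
    have hw'm : IsMn G act ρ (act (NormedSpace.exp (-w')) x₀) := by
      have h1 : Filter.Tendsto (fun x => act (NormedSpace.exp (-(w x))) x) (U : Filter X)
          (𝓝 (act (NormedSpace.exp (-w')) x₀)) :=
        hA.tendsto (Filter.Eventually.of_forall fun x => RedGrp.exp_mem (G.lie.neg_mem (hw x)))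
          (RedGrp.exp_mem (G.lie.neg_mem hw'l))
          ((Retr_exp_cont.tendsto _).comp hlim.neg) hid
      exact (mn_closed hA hρ).mem_of_tendsto h1 (Filter.Eventually.of_forall hmn)
    have hFF : Filter.Tendsto (fun x => FF (NormedSpace.exp (w x))) (U : Filter X)
        (𝓝 (FF (NormedSpace.exp w'))) :=
      (Retr_FF_at (Retr_exp_unit w')).tendsto.comp ((Retr_exp_cont.tendsto _).comp hlim)
    have hmin' : ∀ g ∈ G.carrier, ∀ m, IsMn G act ρ m → act g m = x₀ →
        FF (NormedSpace.exp w') ≤ FF g := by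
      intro g hg m hm hgm
      refine le_of_forall_pos_le_add fun ε hε => ?_
      have hV : {g' : Op n | FF g' < FF g + ε} ∈ 𝓝 g :=
        (Retr_FF_at (RedGrp.isUnit hg)).eventually_lt continuousAt_const
          (show FF g < FF g + ε by linarith)
      refine le_of_tendsto hFF ?_
      filter_upwards [hU (approx_T hA hρ hc hg hm hgm _ hV)] with x hx
      obtain ⟨g', hg', hg'V, m', hm', hx'⟩ := hx
      exact (hmin x g' hg' m' hm' hx').trans (le_of_lt hg'V)
    have heq : w' = w x₀ := unique_min_FF hA hρ hw'l (hw x₀) hw's (hsa x₀) hw'm (hmn x₀) hmin'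
      (hmin x₀)
    rw [← heq]
    exact hlim
  · intro k hk x
    obtain ⟨hsk, hk1, hk2⟩ := RedGrp.star_K hk
    have hex : ∀ ξ : Op n, NormedSpace.exp (k * ξ * star k) = k * NormedSpace.exp ξ * star k :=
      fun ξ => exp_conj hk1 hk2 ξ
    refine unique_min_FF hA hρ (x := act k x) (hw _) (RedGrp.Ad_mem hk.1 hk1 (hw x)) (hsa _) ?_
      (hmn _) ?_ (hmin _) ?_
    · rw [IsSelfAdjoint, star_mul, star_mul, star_star, (hsa x).star_eq, mul_assoc]
    · have h1 : (-(k * w x * star k) : Op n) = k * (-(w x)) * star k := Retr_ring1 _ _ _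
      have hen : NormedSpace.exp (-(w x)) ∈ G.carrier := RedGrp.exp_mem (G.lie.neg_mem (hw x))
      rw [h1, hex, hA.mul _ (G.mul_mem _ hk.1 _ hen) _ hsk.1, (hA.inv_act hk.1 hk1 x).2,
        hA.mul _ hk.1 _ hen]
      exact mn_K hA hρ (hmn x) hk
    · intro g hg m hm hgm
      rw [hex, (FF_mul_unitary hsk.2 _).1, (FF_mul_unitary hk.2 _).2]
      have h1 := hmin x (star k * g) (G.mul_mem _ hsk.1 _ hg) m hm (by
        rw [hA.mul _ hsk.1 _ hg, hgm, (hA.inv_act hk.1 hk1 x).2])
      rwa [(FF_mul_unitary hsk.2 _).2] at h1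

/-- If the stabiliser algebra of `x` is closed under adjoints then `w x` normalises it, and the
points `exp(-τ w(x)) x` have the same stabiliser algebra. -/
theorem Retr.normalises (hA : HolAct d G act) (hρ : Exh d G act ρ) {w : X → Op n}
    (hw : Retr G act ρ w) (x : X) (hs : StarCl (stab G act x)) :
    ∀ ζ ∈ stab G act x, w x * ζ - ζ * w x ∈ stab G act x := by
  have e := exp_neg_mul_self (w x)
  have h1 : stab G act (act (NormedSpace.exp (-(w x))) x) =
      conjS (NormedSpace.exp (-(w x))) (NormedSpace.exp (w x)) (stab G act x) :=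
    stab_act hA (RedGrp.exp_mem (G.lie.neg_mem (hw.mem x))) e.1 x
  have h2 := mn_stab_starCl hA hρ (hw.mn x)
  rw [h1] at h2
  have h3 := bracket_of_starCl hs (η := -(w x)) (Retr_neg (hw.sa x)) (by rw [neg_neg]; exact h2)
  intro ζ hζ
  have h4 := (stab G act x).neg_mem (h3 ζ hζ)
  have h5 : -(-(w x) * ζ - ζ * -(w x)) = w x * ζ - ζ * w x := Retr_ring2 _ _
  rwa [h5] at h4

theorem Retr.stab_path (hA : HolAct d G act) (hρ : Exh d G act ρ) {w : X → Op n}
    (hw : Retr G act ρ w) (x : X) (hs : StarCl (stab G act x)) (z : ℂ) :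
    stab G act (act (NormedSpace.exp (z • w x)) x) = stab G act x := by
  have e := exp_neg_mul_self (z • w x)
  rw [stab_act hA (RedGrp.exp_smul_mem (hw.mem x) z) e.2 x]
  refine conj_exp_of_bracket fun ζ hζ => ?_
  have h1 := (stab G act x).smul_mem z (hw.normalises hA hρ x hs ζ hζ)
  have h2 : z • (w x * ζ - ζ * w x) = (z • w x) * ζ - ζ * (z • w x) := by
    rw [smul_sub, smul_mul_assoc, mul_smul_comm]
  rwa [h2] at h1

end EqOka
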