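import Pool.Agent.Lib.MP_fe51c6_an_EO.Cls
import Pool.Agent.Lib.MP_fe51c6_an_EO.Retr

/-! Gluing over the classes. -/

open scoped Manifold Topology
open Set

noncomputable section

namespace EqOka

variable {n d e : ℕ} {G : RedGrp n} {X Y : Type} [TopologicalSpace X] [ChartedSpace (Cd d) X]
  [IsManifold 𝓘(ℂ, Cd d) 1 X] [T2Space X] [SecondCountableTopology X] {act : Op n → X → X}
  {ρ : X → ℝ} [TopologicalSpace Y] [ChartedSpace (Cd e) Y] {actY : Op n → Y → Y}

/-- A locally constant, `G`-invariant choice of representatives of the classes. -/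
theorem exists_rep (hA : HolAct d G act) (hρ : Exh d G act ρ) (hc : ClosedOrbits G act) :
    ∃ rep : X → Submodule ℂ (Op n), (∀ x, x ∈ Cls G act (rep x)) ∧
      (∀ x, ∃ m, IsMn G act ρ m ∧ stab G act m = rep x) ∧
      (∀ x, ∀ᶠ y in 𝓝 x, rep y = rep x) ∧ (∀ g ∈ G.carrier, ∀ x, rep (act g x) = rep x) ∧
      ∀ x y, y ∈ Cls G act (rep x) → rep y = rep x := by
  let T : X → Submodule ℂ (Op n) → Prop := fun x 𝔩 =>
    x ∈ Cls G act 𝔩 ∧ ∃ m, IsMn G act ρ m ∧ stab G act m = 𝔩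
  have hne : ∀ x, ∃ 𝔩, T x 𝔩 := by
    intro x
    obtain ⟨g, hg, hm⟩ := exists_mn hA hρ hc x
    exact ⟨stab G act (act g x),
      Cls_congr hA (Cls_act hA (mem_Cls_self hA x) hg) (mem_Cls_self hA x), act g x, hm, rfl⟩
  have hT : ∀ x y, y ∈ Cls G act (stab G act x) → T y = T x := by
    intro x y hy
    funext 𝔩
    refine propext ⟨fun h => ⟨Cls_trans hA h.1 (Cls_congr hA hy (mem_Cls_self hA x)), h.2⟩,
      fun h => ⟨Cls_trans hA h.1 hy, h.2⟩⟩
  have hr : ∀ x, T x (Classical.epsilon (T x)) := fun x => Classical.epsilon_spec (hne x)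
  refine ⟨fun x => Classical.epsilon (T x), fun x => (hr x).1, fun x => (hr x).2, fun x => ?_,
    fun g hg x => ?_, fun x y hy => ?_⟩
  · filter_upwards [class_nhds hA hρ hc x] with y hy
    exact congrArg Classical.epsilon (hT x y hy)
  · exact congrArg Classical.epsilon (hT x _ (Cls_act hA (mem_Cls_self hA x) hg))
  · exact congrArg Classical.epsilon (hT x y (Cls_congr hA (hr x).1 hy))

/-- Gluing maps given on the classes. -/
theorem exists_glue (hA : HolAct d G act) (hρ : Exh d G act ρ) (hc : ClosedOrbits G act)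
    (F : Submodule ℂ (Op n) → unitInterval × X → Y)
    (hF : ∀ 𝔩 : Submodule ℂ (Op n), (∃ m, IsMn G act ρ m ∧ stab G act m = 𝔩) →
      ContinuousOn (F 𝔩) (univ ×ˢ Cls G act 𝔩)) :
    ∃ H : unitInterval × X → Y, Continuous H ∧
      ∀ x, ∃ 𝔩 : Submodule ℂ (Op n), (∃ m, IsMn G act ρ m ∧ stab G act m = 𝔩) ∧
        x ∈ Cls G act 𝔩 ∧ ∀ t, ∀ y ∈ Cls G act 𝔩, H (t, y) = F 𝔩 (t, y) := by
  obtain ⟨rep, h1, h2, h3, -, h5⟩ := exists_rep hA hρ hc
  refine ⟨fun p => F (rep p.2) p, ?_, fun x => ⟨rep x, h2 x, h1 x, fun t y hy => ?_⟩⟩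
  · rw [continuous_iff_continuousAt]
    rintro ⟨t, x⟩
    have hop : IsOpen ((univ : Set unitInterval) ×ˢ (Cls G act (rep x) : Set X)) :=
      isOpen_univ.prod (isOpen_Cls hA hρ hc (rep x))
    have hc1 : ContinuousAt (F (rep x)) (t, x) :=
      (hF (rep x) (h2 x)).continuousAt (hop.mem_nhds ⟨mem_univ _, h1 x⟩)
    refine hc1.congr ?_
    have hev : ∀ᶠ p : unitInterval × X in 𝓝 (t, x), rep p.2 = rep x :=
      (continuous_snd.tendsto (t, x)).eventually (h3 x)
    filter_upwards [hev] with p hp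
    rw [hp]
  · show F (rep y) (t, y) = F (rep x) (t, y)
    rw [h5 x y hy]

end EqOka
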