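import Pool.Agent.Lib.MP_fe51c6_an_EO.Core

/-! Elementary facts on deformations. -/

open scoped Topology
open Set

noncomputable section

namespace EqOka

variable {X Y : Type} [TopologicalSpace X] [TopologicalSpace Y]

theorem Deforms.mono {P Q : (X → Y) → Prop} (h : ∀ u, P u → Q u) {f g : X → Y}
    (hd : Deforms P f g) : Deforms Q f g := by
  obtain ⟨H, hH, h0, h1, hP⟩ := hd
  exact ⟨H, hH, h0, h1, fun t => h _ (hP t)⟩

theorem Deforms.trans {P : (X → Y) → Prop} {f g k : X → Y} (h1 : Deforms P f g)
    (h2 : Deforms P g k) : Deforms P f k := by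
  obtain ⟨H, hH, hH0, hH1, hHP⟩ := h1
  obtain ⟨H', hH', hH'0, hH'1, hH'P⟩ := h2
  have hf : Continuous f := by
    have : f = fun x => H (0, x) := funext fun x => (hH0 x).symm
    rw [this]
    exact hH.comp (Continuous.prodMk_right 0)
  have hg : Continuous g := by
    have : g = fun x => H (1, x) := funext fun x => (hH1 x).symm
    rw [this]
    exact hH.comp (Continuous.prodMk_right 1)
  have hk : Continuous k := by
    have : k = fun x => H' (1, x) := funext fun x => (hH'1 x).symm
    rw [this]
    exact hH'.comp (Continuous.prodMk_right 1)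
  let F : ContinuousMap.Homotopy (⟨f, hf⟩ : C(X, Y)) ⟨g, hg⟩ :=
    { toFun := H
      continuous_toFun := hH
      map_zero_left := hH0
      map_one_left := hH1 }
  let F' : ContinuousMap.Homotopy (⟨g, hg⟩ : C(X, Y)) ⟨k, hk⟩ :=
    { toFun := H'
      continuous_toFun := hH'
      map_zero_left := hH'0
      map_one_left := hH'1 }
  refine ⟨fun p => F.trans F' p, (F.trans F').continuous, fun x => (F.trans F').apply_zero x,
    fun x => (F.trans F').apply_one x, fun t => ?_⟩
  by_cases ht : (t : ℝ) ≤ 1 / 2
  · have : (fun x => (F.trans F') (t, x)) = fun x =>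
        H (⟨2 * t, (unitInterval.mul_pos_mem_iff zero_lt_two).2 ⟨t.2.1, ht⟩⟩, x) := by
      funext x
      rw [ContinuousMap.Homotopy.trans_apply]
      simp only
      rw [dif_pos ht]
      rfl
    rw [this]
    exact hHP _
  · have : (fun x => (F.trans F') (t, x)) = fun x =>
        H' (⟨2 * t - 1, unitInterval.two_mul_sub_one_mem_iff.2 ⟨(not_le.1 ht).le, t.2.2⟩⟩, x) := by
      funext x
      rw [ContinuousMap.Homotopy.trans_apply]
      simp only
      rw [dif_neg ht]
      rfl
    rw [this]
    exact hH'P _

/-- The deformation may be assumed to consist of continuous maps. -/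
theorem Deforms.mono_cont {P Q : (X → Y) → Prop} (h : ∀ u, Continuous u → P u → Q u) {f g : X → Y}
    (hd : Deforms P f g) : Deforms Q f g := by
  obtain ⟨H, hH, h0, h1, hP⟩ := hd
  exact ⟨H, hH, h0, h1, fun t => h _ (hH.comp (Continuous.prodMk_right t)) (hP t)⟩

end EqOka
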