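import Pool.Agent.Lib.MP_fe51c6_an_EO.Strip

/-! `K`-equivariant maps which are holomorphic near `Z` (or on a set stable under the paths) are
equivariant along the paths `exp(-τ w(x)) x`. -/

open scoped Manifold Topology
open Set

noncomputable section

namespace EqOka

variable {n d e : ℕ} {G : RedGrp n} {X Y : Type} [TopologicalSpace X] [ChartedSpace (Cd d) X]
  [IsManifold 𝓘(ℂ, Cd d) 1 X] [T2Space X] {act : Op n → X → X} [TopologicalSpace Y]
  [ChartedSpace (Cd e) Y] [IsManifold 𝓘(ℂ, Cd e) 1 Y] [T2Space Y] {actY : Op n → Y → Y}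

/-- `f` is equivariant along the path `exp(-τ w(x)) x`, `0 ≤ τ ≤ 1`. -/
def PathEq (act : Op n → X → X) (actY : Op n → Y → Y) (w : X → Op n) (f : X → Y) (x : X) : Prop :=
  ∀ τ ∈ Icc (0 : ℝ) 1, f (act (NormedSpace.exp ((-(τ : ℂ)) • w x)) x)
    = actY (NormedSpace.exp ((-(τ : ℂ)) • w x)) (f x)

private theorem Near_neg_sa {A : Type} [CStarAlgebra A] {w : A} (h : IsSelfAdjoint w) :
    IsSelfAdjoint (-w) := h.neg

private theorem Near_neg_smul {A : Type} [CStarAlgebra A] (c : ℂ) (w : A) :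
    c • (-w) = (-c) • w := by
  rw [neg_smul, smul_neg]

private theorem Near_cont {A M : Type} [CStarAlgebra A] [TopologicalSpace M] {w : M → A}
    (hw : Continuous w) :
    Continuous fun q : M × ℝ => NormedSpace.exp ((-(q.2 : ℂ)) • w q.1) := by
  let _ : NormedAlgebra ℚ A := NormedAlgebra.restrictScalars ℚ ℂ A
  have h1 : Continuous fun q : M × ℝ => (-(q.2 : ℂ)) • w q.1 :=
    (Complex.continuous_ofReal.comp continuous_snd).neg.smul (hw.comp continuous_fst)
  exact NormedSpace.exp_continuous.comp h1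

private theorem Near_of_path (hA : HolAct d G act) (hB : HolAct e G actY) {w : X → Op n}
    (hwm : ∀ x, w x ∈ G.lie) (hws : ∀ x, IsSelfAdjoint (w x)) {f : X → Y}
    (hf : Eqvt G.K act actY f) (x : X)
    (h : ∀ τ ∈ Icc (0 : ℝ) 1, HolAt d e f (act (NormedSpace.exp ((-(τ : ℂ)) • w x)) x)) :
    PathEq act actY w f x := by
  have e1 : ∀ c : ℂ, (c • (-w x) : Op n) = (-c) • w x := fun c =>
    Near_neg_smul (A := Op n) c (w x)
  have h1 := loc_equivariant hA hB hf (G.lie.neg_mem (hwm x)) (Near_neg_sa (A := Op n) (hws x)) x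
    (fun t ht => by
      rw [e1]
      exact h t ht)
  intro τ hτ
  have h2 := h1 τ hτ
  rwa [e1] at h2

theorem pathEq_near (hA : HolAct d G act) (hB : HolAct e G actY) {w : X → Op n}
    (hw : Continuous w) (hwm : ∀ x, w x ∈ G.lie) (hws : ∀ x, IsSelfAdjoint (w x)) {f : X → Y}
    (hf : Eqvt G.K act actY f) {Z : Set X} (hZ : Invt G.carrier act Z)
    (hh : ∀ z ∈ Z, HolAt d e f z) (z : X) (hz : z ∈ Z) :
    ∀ᶠ x in 𝓝 z, PathEq act actY w f x := by
  have hopen : IsOpen {y : X | HolAt d e f y} :=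
    isOpen_setOfPred_eventually_nhds (p := fun y =>
      MDifferentiableAt 𝓘(ℂ, Cd d) 𝓘(ℂ, Cd e) f y)
  have hcont : Continuous fun q : X × ℝ =>
      act (NormedSpace.exp ((-(q.2 : ℂ)) • w q.1)) q.1 := by
    rw [← continuousOn_univ]
    refine HolAct.continuous_comp hA
      (g := fun q : X × ℝ => NormedSpace.exp ((-(q.2 : ℂ)) • w q.1)) (u := fun q => q.1) ?_ ?_ ?_
    · exact (Near_cont (A := Op n) hw).continuousOn
    · exact fun q _ => RedGrp.exp_smul_mem (hwm q.1) _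
    · exact continuous_fst.continuousOn
  have key : ∀ᶠ x in 𝓝 z, ∀ τ ∈ Icc (0 : ℝ) 1,
      HolAt d e f (act (NormedSpace.exp ((-(τ : ℂ)) • w x)) x) := by
    refine isCompact_Icc.eventually_forall_of_forall_eventually (P := fun (x : X) (τ : ℝ) =>
      HolAt d e f (act (NormedSpace.exp ((-(τ : ℂ)) • w x)) x)) fun τ _ => ?_
    have h1 : act (NormedSpace.exp ((-(τ : ℂ)) • w z)) z ∈ {y : X | HolAt d e f y} :=
      hh _ (hZ _ (RedGrp.exp_smul_mem (hwm z) _) z hz)
    exact hcont.continuousAt.preimage_mem_nhds (x := (z, τ)) (hopen.mem_nhds h1)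
  filter_upwards [key] with x hx
  exact Near_of_path hA hB hwm hws hf x hx

theorem pathEq_of_stable (hA : HolAct d G act) (hB : HolAct e G actY) {w : X → Op n}
    (hwm : ∀ x, w x ∈ G.lie) (hws : ∀ x, IsSelfAdjoint (w x)) {f : X → Y}
    (hf : Eqvt G.K act actY f) {B : Set X}
    (hB' : ∀ x ∈ B, ∀ τ ∈ Icc (0 : ℝ) 1, act (NormedSpace.exp ((-(τ : ℂ)) • w x)) x ∈ B)
    (hh : ∀ x ∈ B, HolAt d e f x) (x : X) (hx : x ∈ B) : PathEq act actY w f x :=
  Near_of_path hA hB hwm hws hf x fun τ hτ => hh _ (hB' x hx τ hτ)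

theorem pathEq_of_sub (hA : HolAct d G act) (hB : HolAct e G actY) {w : X → Op n}
    (hwm : ∀ x, w x ∈ G.lie) {f : X → Y} (hf : Eqvt G.K act actY f) {Z : Set X}
    (hZ : Invt G.carrier act Z) (hh : HolOnSub d e f Z) (z : X) (hz : z ∈ Z) :
    PathEq act actY w f z := fun _ _ =>
  equivariant_on_sub hA hB hf hZ hh _ (RedGrp.exp_smul_mem (hwm z) _) z hz

end EqOka
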