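import Pool.Agent.Lib.MP_fe51c6_an_EO.Retr
import Pool.Agent.Lib.MP_fe51c6_an_EO.Near
import Pool.Agent.Lib.MP_fe51c6_an_EO.Deform

/-! Step 1: deformation of a `K`-equivariant map to a `G`-equivariant continuous map. -/

open scoped Manifold Topology
open Set

noncomputable section

namespace EqOka

variable {n d e : ℕ} {G : RedGrp n} {X Y : Type} [TopologicalSpace X] [ChartedSpace (Cd d) X]
  [IsManifold 𝓘(ℂ, Cd d) 1 X] [T2Space X] [SecondCountableTopology X] {act : Op n → X → X}
  {ρ : X → ℝ} [TopologicalSpace Y] [ChartedSpace (Cd e) Y] [IsManifold 𝓘(ℂ, Cd e) 1 Y] [T2Space Y]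
  {actY : Op n → Y → Y}

/-- The deformation: `exp(s w(x)) f(exp(-s w(x)) x)`. -/
private def Step1_S (act : Op n → X → X) (actY : Op n → Y → Y) (w : X → Op n) (f : X → Y) (s : ℂ)
    (x : X) : Y :=
  actY (NormedSpace.exp (s • w x)) (f (act (NormedSpace.exp ((-s) • w x)) x))

private theorem Step1_exp_cont : Continuous (NormedSpace.exp : Op n → Op n) := by
  let _ : NormedAlgebra ℚ (Op n) := NormedAlgebra.restrictScalars ℚ ℂ (Op n)
  exact NormedSpace.exp_continuous

private theorem Step1_ns (s : ℂ) (ξ : Op n) : (-s) • ξ = -(s • ξ) := neg_smul s ξ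

private theorem Step1_n1 (ξ : Op n) : (-1 : ℂ) • ξ = -ξ := neg_one_smul ℂ ξ

private theorem Step1_zs (ξ : Op n) : (0 : ℂ) • ξ = 0 := zero_smul ℂ ξ

private theorem Step1_inv (s : ℂ) (ξ : Op n) :
    NormedSpace.exp (s • ξ) * NormedSpace.exp ((-s) • ξ) = 1 := by
  have h := (exp_neg_mul_self (s • ξ)).2
  rwa [← Step1_ns] at h

omit [T2Space X] [SecondCountableTopology X] in
private theorem Step1_conj (hA : HolAct d G act) {k : Op n} (hk : k ∈ G.K) {g : Op n}
    (hg : g ∈ G.carrier) (x : X) :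
    act (k * g * star k) (act k x) = act k (act g x) := by
  obtain ⟨hk', hkk', hk'k⟩ := RedGrp.star_K hk
  rw [hA.mul _ (G.mul_mem _ hk.1 _ hg) _ hk'.1, (hA.inv_act hk.1 hkk' x).2, hA.mul _ hk.1 _ hg]

private theorem Step1_exp_conj {k : Op n} (hk : k ∈ G.K) (s : ℂ) (ξ : Op n) :
    NormedSpace.exp (s • (k * ξ * star k)) = k * NormedSpace.exp (s • ξ) * star k := by
  obtain ⟨hk', hkk', hk'k⟩ := RedGrp.star_K hk
  rw [← exp_conj hkk' hk'k, mul_smul_comm, smul_mul_assoc]

omit [T2Space X] [SecondCountableTopology X] [T2Space Y] in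
private theorem Step1_cont (hA : HolAct d G act) (hB : HolAct e G actY) {w : X → Op n}
    (hw : Retr G act ρ w) {f : X → Y} (hfc : Continuous f) :
    Continuous (fun p : ℂ × X => Step1_S act actY w f p.1 p.2) := by
  have h1 : Continuous (fun p : ℂ × X => NormedSpace.exp (p.1 • w p.2)) :=
    Step1_exp_cont.comp (continuous_fst.smul (hw.cont.comp continuous_snd))
  have h2 : Continuous (fun p : ℂ × X => NormedSpace.exp ((-p.1) • w p.2)) :=
    Step1_exp_cont.comp (continuous_fst.neg.smul (hw.cont.comp continuous_snd))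
  have h3 : ContinuousOn (fun p : ℂ × X => act (NormedSpace.exp ((-p.1) • w p.2)) p.2) univ :=
    hA.continuous_comp h2.continuousOn (fun p _ => RedGrp.exp_smul_mem (hw.mem _) _)
      continuous_snd.continuousOn
  rw [← continuousOn_univ]
  exact hB.continuous_comp h1.continuousOn (fun p _ => RedGrp.exp_smul_mem (hw.mem _) _)
    (hfc.comp_continuousOn h3)

omit [T2Space X] [SecondCountableTopology X] [T2Space Y] in
private theorem Step1_eqvt (hA : HolAct d G act) (hB : HolAct e G actY) {w : X → Op n}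
    (hw : Retr G act ρ w) {f : X → Y} (hf : Eqvt G.K act actY f) (s : ℂ) :
    Eqvt G.K act actY (Step1_S act actY w f s) := by
  intro k hk x
  unfold Step1_S
  rw [hw.eqv k hk x, Step1_exp_conj hk, Step1_exp_conj hk,
    Step1_conj hA hk (RedGrp.exp_smul_mem (hw.mem x) _), hf k hk,
    Step1_conj hB hk (RedGrp.exp_smul_mem (hw.mem x) _)]

omit [T2Space X] [SecondCountableTopology X] [T2Space Y] in
private theorem Step1_path (hB : HolAct e G actY) {w : X → Op n}
    (hw : Retr G act ρ w) {f : X → Y} {x : X} (hx : PathEq act actY w f x) {t : ℝ}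
    (ht : t ∈ Icc (0 : ℝ) 1) : Step1_S act actY w f (t : ℂ) x = f x := by
  unfold Step1_S
  rw [hx t ht]
  exact (hB.inv_act (RedGrp.exp_smul_mem (hw.mem x) _) (Step1_inv (t : ℂ) (w x)) (f x)).1

omit [SecondCountableTopology X] in
private theorem Step1_mn (hA : HolAct d G act) (hB : HolAct e G actY) (hρ : Exh d G act ρ)
    {w : X → Op n} (hw : Retr G act ρ w) {f : X → Y} (hf : Eqvt G.K act actY f) {m : X}
    (hm : IsMn G act ρ m) {g : Op n} (hg : g ∈ G.carrier) :
    Step1_S act actY w f 1 (act g m) = actY g (f m) := by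
  unfold Step1_S
  rw [one_smul, Step1_n1]
  set x := act g m with hx
  have he := RedGrp.exp_mem (G.lie.neg_mem (hw.mem x))
  have he' := RedGrp.exp_mem (hw.mem x)
  have hh : NormedSpace.exp (-w x) * g ∈ G.carrier := G.mul_mem _ he _ hg
  have h1 : act (NormedSpace.exp (-w x) * g) m = act (NormedSpace.exp (-w x)) x := by
    rw [hA.mul _ he _ hg]
  obtain ⟨k, hk, η, hη, hs, hgk, h2⟩ := mn_orbit hA hρ hm hh (by rw [h1]; exact hw.mn x)
  have h3 : actY (NormedSpace.exp η) (f m) = f m := by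
    refine mn_fixed_Y hA hρ hB hm (f m) (fun k' hk' h => ?_) _ (RedGrp.exp_mem (stab_le m hη)) ?_
    · rw [← hf k' hk', h]
    · have h4 := ((mem_stab_real hA m η).1 hη).2 1
      rwa [Complex.ofReal_one, one_smul] at h4
  have h5 : g = NormedSpace.exp (w x) * (k * NormedSpace.exp η) := by
    rw [← hgk, ← mul_assoc, (exp_neg_mul_self (w x)).2, one_mul]
  rw [← h1, h2, hf k hk]
  conv_rhs => rw [h5, hB.mul _ he' _ (G.mul_mem _ hk.1 _ (RedGrp.exp_mem (stab_le m hη))),
    hB.mul _ hk.1 _ (RedGrp.exp_mem (stab_le m hη)), h3]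

theorem step1 (hA : HolAct d G act) (hB : HolAct e G actY) (hρ : Exh d G act ρ) {w : X → Op n}
    (hw : Retr G act ρ w) {f : X → Y} (hfc : Continuous f) (hf : Eqvt G.K act actY f) :
    ∃ f₁ : X → Y, Continuous f₁ ∧ Eqvt G.carrier act actY f₁ ∧
      (∀ x, PathEq act actY w f x → f₁ x = f x) ∧
      Deforms (fun u => Eqvt G.K act actY u ∧ ∀ x, PathEq act actY w f x → u x = f x) f f₁ := by
  have hc := Step1_cont hA hB hw hfc
  refine ⟨Step1_S act actY w f 1, hc.comp (continuous_const.prodMk continuous_id), ?_, ?_, ?_⟩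
  · intro g hg x
    have he := RedGrp.exp_mem (hw.mem x)
    have h1 : act (NormedSpace.exp (w x)) (act (NormedSpace.exp (-w x)) x) = x :=
      (hA.inv_act he (exp_neg_mul_self (w x)).2 x).1
    have h2 : Step1_S act actY w f 1 x
        = actY (NormedSpace.exp (w x)) (f (act (NormedSpace.exp (-w x)) x)) := by
      unfold Step1_S
      rw [one_smul, Step1_n1]
    have h3 : act g x = act (g * NormedSpace.exp (w x)) (act (NormedSpace.exp (-w x)) x) := by
      rw [hA.mul _ hg _ he, h1]
    rw [h3, Step1_mn hA hB hρ hw hf (hw.mn x) (G.mul_mem _ hg _ he), hB.mul _ hg _ he, h2]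
  · intro x hx
    have h := Step1_path hB hw hx (t := 1) ⟨zero_le_one, le_rfl⟩
    rwa [Complex.ofReal_one] at h
  · refine ⟨fun p => Step1_S act actY w f ((p.1 : ℝ) : ℂ) p.2, ?_, ?_, ?_, ?_⟩
    · exact hc.comp (((Complex.continuous_ofReal.comp continuous_subtype_val).comp
        continuous_fst).prodMk continuous_snd)
    · intro x
      show Step1_S act actY w f (((0 : unitInterval) : ℝ) : ℂ) x = f x
      unfold Step1_S
      rw [Set.Icc.coe_zero, Complex.ofReal_zero, neg_zero, Step1_zs, NormedSpace.exp_zero,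
        hA.one, hB.one]
    · intro x
      show Step1_S act actY w f (((1 : unitInterval) : ℝ) : ℂ) x = _
      rw [Set.Icc.coe_one, Complex.ofReal_one]
    · intro t
      exact ⟨Step1_eqvt hA hB hw hf ((t : ℝ) : ℂ), fun x hx => Step1_path hB hw hx t.2⟩

end EqOka
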