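import Pool.Agent.Lib.MP_fe51c6_an_EO.C0Class
import Pool.Agent.Lib.MP_fe51c6_an_EO.C0Hold
import Pool.Agent.Lib.MP_fe51c6_an_EO.Glue
import Pool.Agent.Lib.MP_fe51c6_an_EO.Step1

/-! Part (c) of the equivariant Oka principle for closed orbits, without holomorphy of the
intermediate maps. -/

open scoped Manifold Topology
open Set

noncomputable section

namespace EqOka

variable {n d e : ℕ} {G : RedGrp n} {X Y : Type} [TopologicalSpace X] [ChartedSpace (Cd d) X]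
  [IsManifold 𝓘(ℂ, Cd d) 1 X] [T2Space X] [SecondCountableTopology X] {act : Op n → X → X}
  [TopologicalSpace Y] [ChartedSpace (Cd e) Y] [IsManifold 𝓘(ℂ, Cd e) 1 Y] [T2Space Y]
  [SecondCountableTopology Y] {actY : Op n → Y → Y}

private theorem C0Main_holAt_congr {X Y : Type} [TopologicalSpace X] [ChartedSpace (Cd d) X]
    [TopologicalSpace Y] [ChartedSpace (Cd e) Y] {u f : X → Y} {z : X}
    (h : ∀ᶠ x in 𝓝 z, u x = f x) (hf : HolAt d e f z) : HolAt d e u z := by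
  have h1 := eventually_eventually_nhds.2 h
  unfold HolAt at hf ⊢
  filter_upwards [h1, hf] with y hy hy'
  exact hy'.congr_of_eventuallyEq hy

theorem partC0_main (hX : IsStein d X) (hA : HolAct d G act) (hB : HolAct e G actY)
    (hc : ClosedOrbits G act) (hR : RedEOP .c0 e G actY) : PartC0 d e G act actY := by
  intro Z hZ hZi A hAc hAK hAh f hfc hf hfh ℓ W hW hfW
  have hUo : IsOpen {x : X | HolAt d e f x} := isOpen_setOfPred_eventually_nhds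
  obtain ⟨ρ, hρ, hρh, hρA, hρU⟩ := exists_exh_hold hX hA A hAc hAK hAh {x : X | HolAt d e f x} hUo
    (fun x hx => hfh x (Or.inr hx))
  obtain ⟨w, hw⟩ := exists_retr hA hρ hc
  obtain ⟨f₁, hf₁c, hf₁, hf₁f, hd₁⟩ := step1 hA hB hρ hw hfc hf
  have hBo : IsOpen {x : X | ρ x < 1} := isOpen_lt hρ.cont continuous_const
  have hPB : ∀ x : X, ρ x < 1 → PathEq act actY w f x := by
    intro x hx
    refine pathEq_of_stable hA hB hw.mem hw.sa hf (B := {x : X | ρ x < 1}) ?_ ?_ x hx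
    · intro y hy τ hτ
      exact lt_of_le_of_lt (rho_le_of_mn hA hρ (hw.mem y) (hw.sa y) y (hw.mn y) τ hτ) hy
    · intro y hy
      exact hρU y (le_of_lt hy)
  have hPB' : ∀ x : X, ρ x < 1 → ∀ᶠ y in 𝓝 x, PathEq act actY w f y := by
    intro x hx
    filter_upwards [hBo.mem_nhds hx] with y hy
    exact hPB y hy
  have hPZA : ∀ z ∈ Z ∪ A, ∀ᶠ y in 𝓝 z, PathEq act actY w f y := by
    intro z hz
    rcases hz with hz | hz
    · exact pathEq_near hA hB hw.cont hw.mem hw.sa hf hZi (fun z hz => hfh z (Or.inl hz)) z hz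
    · exact hPB' z (hρA z hz)
  have hfe : ∀ z ∈ Z ∪ A, ∀ᶠ y in 𝓝 z, f₁ y = f y := by
    intro z hz
    filter_upwards [hPZA z hz] with y hy
    exact hf₁f y hy
  have h1 : Deforms (fun u => Eqvt G.K act actY u ∧
        (∀ z ∈ Z, AgreeTo d e ℓ u f z) ∧ ∀ x ∈ A, (x, u x) ∈ W) f f₁ := by
    refine hd₁.mono fun u hu => ?_
    have hue : ∀ z ∈ Z ∪ A, ∀ᶠ y in 𝓝 z, u y = f y := by
      intro z hz
      filter_upwards [hPZA z hz] with y hy
      exact hu.2 y hy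
    refine ⟨hu.1, fun z hz => agree_of_eventuallyEq ℓ (hue z (Or.inl hz)), fun x hx => ?_⟩
    rw [(hue x (Or.inr hx)).self_of_nhds]
    exact hfW x hx
  obtain ⟨c, hcA, hc1⟩ : ∃ c : ℝ, (∀ x ∈ A, ρ x < c) ∧ c < 1 := by
    rcases A.eq_empty_or_nonempty with hAe | hAe
    · refine ⟨0, fun x hx => ?_, one_pos⟩
      rw [hAe] at hx
      exact absurd hx (notMem_empty x)
    · obtain ⟨a, ha, hmax⟩ := hAc.exists_isMaxOn hAe hρ.cont.continuousOn
      have h2 := hρA a ha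
      refine ⟨(ρ a + 1) / 2, fun x hx => ?_, by linarith⟩
      have h3 : ρ x ≤ ρ a := hmax hx
      linarith
  have hf₁ρ : ∀ x, ρ x ≤ c → HolAt d e f₁ x := by
    intro x hx
    have hx1 : ρ x < 1 := lt_of_le_of_lt hx hc1
    have h2 : ∀ᶠ y in 𝓝 x, f₁ y = f y := by
      filter_upwards [hPB' x hx1] with y hy
      exact hf₁f y hy
    exact C0Main_holAt_congr h2 (hρU x hx1.le)
  have hf₁Z : ∀ z ∈ Z, HolAt d e f₁ z := fun z hz =>
    C0Main_holAt_congr (hfe z (Or.inl hz)) (hfh z (Or.inl hz))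
  have hf₁W : ∀ x ∈ A, (x, f₁ x) ∈ W := by
    intro x hx
    rw [(hfe x (Or.inr hx)).self_of_nhds]
    exact hfW x hx
  have key : ∀ 𝔩 : Submodule ℂ (Op n), ∃ F : unitInterval × X → Y,
      (∃ m, IsMn G act ρ m ∧ stab G act m = 𝔩) →
      ContinuousOn F (univ ×ˢ Cls G act 𝔩) ∧
      (∀ x ∈ Cls G act 𝔩, F (0, x) = f₁ x) ∧
      (∀ t, ∀ g ∈ G.carrier, ∀ x ∈ Cls G act 𝔩, F (t, act g x) = actY g (F (t, x))) ∧
      (∀ x ∈ Cls G act 𝔩, HolAt d e (fun y => F (1, y)) x) ∧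
      (∀ t, ∀ z ∈ Z ∩ Cls G act 𝔩, AgreeTo d e ℓ (fun y => F (t, y)) f₁ z) ∧
      ∀ t, ∀ x ∈ A ∩ Cls G act 𝔩, (x, F (t, x)) ∈ W := by
    intro 𝔩
    by_cases h : ∃ m, IsMn G act ρ m ∧ stab G act m = 𝔩
    · obtain ⟨m, hm, hm2⟩ := h
      obtain ⟨d', inst, N, hg, hN, hAS, hE⟩ := exists_setup hX hA hρ hc hm hm2 hR
      have hs : StarCl 𝔩 := by
        rw [← hm2]
        exact mn_stab_starCl hA hρ hm
      obtain ⟨F, hF⟩ := classC0 hA hB hρ hρh hc hw hs hg hN hAS hE Z hZ hZi A hAc c hcA f₁ hf₁c hf₁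
        hf₁Z hf₁ρ ℓ W hW hf₁W
      exact ⟨F, fun _ => hF⟩
    · exact ⟨fun p => f₁ p.2, fun h' => absurd h' h⟩
  choose F hF using key
  obtain ⟨H, hHc, hH⟩ := exists_glue hA hρ hc F (fun 𝔩 h => (hF 𝔩 h).1)
  have hHG : ∀ t, ∀ g ∈ G.carrier, ∀ x, H (t, act g x) = actY g (H (t, x)) := by
    intro t g hg x
    obtain ⟨𝔩, h𝔩, hx, hHF⟩ := hH x
    rw [hHF t _ (Cls_act hA hx hg), hHF t x hx]
    exact (hF 𝔩 h𝔩).2.2.1 t g hg x hx
  refine ⟨fun x => H (1, x), ?_, fun g hg x => hHG 1 g hg x, ?_⟩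
  · intro x
    obtain ⟨𝔩, h𝔩, hx, hHF⟩ := hH x
    have h2 := ((hF 𝔩 h𝔩).2.2.2.1 x hx).self_of_nhds
    refine h2.congr_of_eventuallyEq ?_
    filter_upwards [(isOpen_Cls hA hρ hc 𝔩).mem_nhds hx] with y hy
    exact hHF 1 y hy
  · refine h1.trans ⟨H, hHc, ?_, fun x => rfl, ?_⟩
    · intro x
      obtain ⟨𝔩, h𝔩, hx, hHF⟩ := hH x
      rw [hHF 0 x hx]
      exact (hF 𝔩 h𝔩).2.1 x hx
    · intro t
      have hHe : ∀ x, ∃ 𝔩 : Submodule ℂ (Op n), (∃ m, IsMn G act ρ m ∧ stab G act m = 𝔩) ∧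
          x ∈ Cls G act 𝔩 ∧ ∀ᶠ y in 𝓝 x, H (t, y) = F 𝔩 (t, y) := by
        intro x
        obtain ⟨𝔩, h𝔩, hx, hHF⟩ := hH x
        refine ⟨𝔩, h𝔩, hx, ?_⟩
        filter_upwards [(isOpen_Cls hA hρ hc 𝔩).mem_nhds hx] with y hy
        exact hHF t y hy
      refine ⟨fun g hg x => hHG t g hg.1 x, fun z hz => ?_, fun x hx => ?_⟩
      · obtain ⟨𝔩, h𝔩, hzc, he⟩ := hHe z
        refine AgreeTo.congr ((hF 𝔩 h𝔩).2.2.2.2.1 t z ⟨hz, hzc⟩) he ?_
        filter_upwards [hfe z (Or.inl hz)] with y hy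
        exact hy.symm
      · obtain ⟨𝔩, h𝔩, hxc, he⟩ := hHe x
        have h2 := (hF 𝔩 h𝔩).2.2.2.2.2 t x ⟨hx, hxc⟩
        change (x, H (t, x)) ∈ W
        rw [he.self_of_nhds]
        exact h2

end EqOka
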