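import Pool.Agent.Lib.MP_fe51c6_an_EO.Stmt
import Pool.Agent.Lib.MP_fe51c6_an_EO.Final
import Pool.Agent.Lib.MP_fe51c6_an_EO.C0Main

/-! Closed orbits from finite stabilisers modulo `L`. -/

open scoped Manifold Topology

namespace EqOka

theorem closed_of_finiteMod {p : Part} (h : EOPFiniteMod p) : EOPClosed p := by
  intro n d e G X _ _ _ _ _ Y _ _ _ _ _ actX actY hX hA hB hO hc
  have hR : RedEOP p e G actY := by
    intro d' N L S _ _ _ _ _ actS hN hS hAS hcS hF
    exact h n d' e N L S Y actS actY hS hAS (hB.restrict hN)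
      (fun H hH => hO H (hH.trans hN)) hcS hF
  cases p
  · exact partA_main hX hA hB hc hR
  · exact partB_main hX hA hB hc hR
  · exact partC_main hX hA hB hc hR
  · exact partC0_main hX hA hB hc hR

end EqOka
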