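import Pool.Agent.Lib.MP_fe51c6_an_EO.ExhEx
import Pool.Agent.Lib.MP_fe51c6_an_EO.Stab

/-! If all stabilisers are finite then all orbits are closed. -/

open scoped Manifold Topology
open Set

noncomputable section

namespace EqOka

section Aux

private theorem FinClosed_star_aux {A : Type*} [CStarAlgebra A] {ι : Type} {l : Filter ι} [l.NeBot]
    {u : ι → A} {v : A} (h : Filter.Tendsto u l (𝓝 v)) (hs : ∀ i, IsSelfAdjoint (u i)) :
    IsSelfAdjoint v := by
  have h1 : Filter.Tendsto (fun i => star (u i)) l (𝓝 (star v)) :=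
    (continuous_star.tendsto v).comp h
  have h2 : (fun i => star (u i)) = u := funext fun i => (hs i).star_eq
  rw [h2] at h1
  exact tendsto_nhds_unique h1 h

private theorem FinClosed_smul_aux {A : Type*} [CStarAlgebra A] {v : A} (h : IsSelfAdjoint v)
    (t : ℝ) : IsSelfAdjoint ((t : ℂ) • v) :=
  IsSelfAdjoint.smul (show IsSelfAdjoint (t : ℂ) from Complex.conj_ofReal t) h

private theorem FinClosed_exp_const {A : Type*} [NormedRing A] [NormedAlgebra ℂ A]
    [CompleteSpace A] {ξ : A}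
    (h : ∀ z : ℂ, NormedSpace.exp (z • ξ) = NormedSpace.exp ((0 : ℂ) • ξ)) : ξ = 0 := by
  have h1 : HasDerivAt (fun z : ℂ => NormedSpace.exp (z • ξ)) (NormedSpace.exp ((0 : ℂ) • ξ) * ξ) 0 :=
    hasDerivAt_exp_smul_const (𝕂 := ℂ) ξ (0 : ℂ)
  have h2 : (fun z : ℂ => NormedSpace.exp (z • ξ)) = fun _ => NormedSpace.exp ((0 : ℂ) • ξ) :=
    funext h
  rw [h2] at h1
  have h3 := h1.unique (hasDerivAt_const (0 : ℂ) _)
  rwa [zero_smul, NormedSpace.exp_zero, one_mul] at h3

private theorem FinClosed_exp_cont {A : Type*} [NormedRing A] [NormedAlgebra ℂ A]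
    [CompleteSpace A] : Continuous (NormedSpace.exp : A → A) := by
  let _ : NormedAlgebra ℚ A := NormedAlgebra.restrictScalars ℚ ℂ A
  exact NormedSpace.exp_continuous

/-- A function which is convex (in the weak form below) and bounded above is non-increasing. -/
private theorem FinClosed_mono (φ : ℝ → ℝ) (R : ℝ) (hR : ∀ t, 0 ≤ t → φ t ≤ R)
    (hc : ∀ a s t : ℝ, t ∈ Icc (0 : ℝ) 1 → φ (a + t * s) ≤ (1 - t) * φ a + t * φ (a + s))
    {a b : ℝ} (ha : 0 ≤ a) (hab : a ≤ b) : φ b ≤ φ a := by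
  by_contra hcon
  push Not at hcon
  have hlt : a < b := by
    rcases hab.lt_or_eq with h | h
    · exact h
    · rw [h] at hcon
      exact absurd hcon (lt_irrefl _)
  have hRa : φ a ≤ R := hR a ha
  -- choose `s` large
  obtain ⟨s, hs⟩ := exists_gt (max (b - a) ((b - a) * (R - φ a) / (φ b - φ a)))
  have hs1 : b - a < s := (le_max_left _ _).trans_lt hs
  have hs2 : (b - a) * (R - φ a) / (φ b - φ a) < s := (le_max_right _ _).trans_lt hs
  have hba : 0 < b - a := by linarith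
  have hs0 : 0 < s := by linarith
  have hd : 0 < φ b - φ a := by linarith
  have ht : (b - a) / s ∈ Icc (0 : ℝ) 1 :=
    ⟨by positivity, by rw [div_le_one hs0]; exact hs1.le⟩
  have h1 := hc a s ((b - a) / s) ht
  have h2 : a + (b - a) / s * s = b := by field_simp; ring
  rw [h2] at h1
  have h3 : φ (a + s) ≤ R := hR _ (by linarith)
  have h4 : (b - a) / s * φ (a + s) ≤ (b - a) / s * R := mul_le_mul_of_nonneg_left h3 ht.1
  have h5 : φ b - φ a ≤ (b - a) / s * (R - φ a) := by nlinarith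
  rw [div_lt_iff₀ hd] at hs2
  have h6 : (b - a) / s * (R - φ a) = (b - a) * (R - φ a) / s := by ring
  rw [h6, le_div_iff₀ hs0] at h5
  nlinarith

/-- Such a function which is moreover bounded below converges. -/
private theorem FinClosed_lim (φ : ℝ → ℝ) (R m : ℝ) (hR : ∀ t, 0 ≤ t → φ t ≤ R)
    (hm : ∀ t, 0 ≤ t → m ≤ φ t)
    (hc : ∀ a s t : ℝ, t ∈ Icc (0 : ℝ) 1 → φ (a + t * s) ≤ (1 - t) * φ a + t * φ (a + s)) :
    ∃ L : ℝ, Filter.Tendsto φ Filter.atTop (𝓝 L) := by
  have h1 : Antitone (fun t : ℝ => φ (max t 0)) := by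
    intro a b hab
    exact FinClosed_mono φ R hR hc (le_max_right _ _) (max_le_max hab le_rfl)
  have h2 : BddBelow (range (fun t : ℝ => φ (max t 0))) := by
    refine ⟨m, ?_⟩
    rintro _ ⟨t, rfl⟩
    exact hm _ (le_max_right _ _)
  have h3 := tendsto_atTop_ciInf h1 h2
  refine ⟨_, h3.congr' ?_⟩
  filter_upwards [Filter.eventually_ge_atTop (0 : ℝ)] with t ht
  rw [max_eq_left ht]

end Aux

variable {n d : ℕ} {G : RedGrp n} {X : Type} [TopologicalSpace X] [ChartedSpace (Cd d) X]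
  [IsManifold 𝓘(ℂ, Cd d) 1 X] [T2Space X] [SecondCountableTopology X] {act : Op n → X → X}

theorem stab_eq_bot_of_finite (hA : HolAct d G act) (x : X)
    (h : {g | g ∈ G.carrier ∧ act g x = x}.Finite) : stab G act x = ⊥ := by
  rw [Submodule.eq_bot_iff]
  intro ξ hξ
  obtain ⟨hl, hfix⟩ := (mem_stab hA x ξ).1 hξ
  have hdisc : IsDiscrete {g : Op n | g ∈ G.carrier ∧ act g x = x} := h.isDiscrete
  have hc : Continuous (fun z : ℂ => NormedSpace.exp (z • ξ)) :=
    (FinClosed_exp_cont (A := Op n)).comp (continuous_id.smul continuous_const)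
  refine FinClosed_exp_const (A := Op n) fun z => ?_
  have h1 : MapsTo (fun z : ℂ => NormedSpace.exp (z • ξ)) univ
      {g : Op n | g ∈ G.carrier ∧ act g x = x} :=
    fun z _ => ⟨RedGrp.exp_smul_mem hl z, hfix z⟩
  exact (isPreconnected_univ (α := ℂ)).constant_of_mapsTo hdisc hc.continuousOn h1 (mem_univ z)
    (mem_univ 0)

private theorem FinClosed_selfAdjoint {u : ℕ → Op n} {v : Op n}
    (h : Filter.Tendsto u Filter.atTop (𝓝 v)) (hs : ∀ i, IsSelfAdjoint (u i)) :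
    IsSelfAdjoint v := FinClosed_star_aux h hs

private theorem FinClosed_smul {v : Op n} (h : IsSelfAdjoint v)
    (t : ℝ) : IsSelfAdjoint ((t : ℂ) • v) := FinClosed_smul_aux h t

private theorem FinClosed_mem {u : ℕ → Op n} {v : Op n}
    (h : Filter.Tendsto u Filter.atTop (𝓝 v)) (S : Submodule ℂ (Op n)) (hs : ∀ i, u i ∈ S) :
    v ∈ S :=
  (Submodule.closed_of_finiteDimensional S).mem_of_tendsto h (Filter.Eventually.of_forall hs)

private theorem FinClosed_exp_tendsto {u : ℕ → Op n} {v : Op n}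
    (h : Filter.Tendsto u Filter.atTop (𝓝 v)) :
    Filter.Tendsto (fun i => NormedSpace.exp (u i)) Filter.atTop (𝓝 (NormedSpace.exp v)) :=
  (FinClosed_exp_cont (A := Op n)).continuousAt.tendsto.comp h

/-- The main point: no escape to infinity. -/
private theorem FinClosed_ray (hA : HolAct d G act) {ρ : X → ℝ} (hρ : Exh d G act ρ) (x : X)
    {ν : Op n} (hν : ν ∈ G.lie) (hs : IsSelfAdjoint ν)
    (hb : ∀ t : ℝ, 0 ≤ t → ρ (act (NormedSpace.exp ((t : ℂ) • ν)) x) ≤ ρ x) :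
    ∃ z : X, ν ∈ stab G act z := by
  -- the function along the ray
  obtain ⟨φ, hφ⟩ : ∃ φ : ℝ → ℝ,
      φ = fun t : ℝ => ρ (act (NormedSpace.exp ((t : ℂ) • ν)) x) := ⟨_, rfl⟩
  have hφt : ∀ t, φ t = ρ (act (NormedSpace.exp ((t : ℂ) • ν)) x) := fun t => by rw [hφ]
  have hR : ∀ t, 0 ≤ t → φ t ≤ ρ x := fun t ht => by rw [hφt]; exact hb t ht
  have hc : ∀ a s t : ℝ, t ∈ Icc (0 : ℝ) 1 → φ (a + t * s) ≤ (1 - t) * φ a + t * φ (a + s) := by
    intro a s t ht
    have h1 := hρ.convex ((s : ℂ) • ν) (G.lie.smul_mem _ hν) (FinClosed_smul hs s)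
      (act (NormedSpace.exp ((a : ℂ) • ν)) x) t ht
    have h2 : ∀ r : ℝ, act (NormedSpace.exp ((r : ℂ) • ν)) (act (NormedSpace.exp ((a : ℂ) • ν)) x)
        = act (NormedSpace.exp (((a + r : ℝ) : ℂ) • ν)) x := by
      intro r
      rw [← HolAct.exp_add hA hν]
      have e : (r : ℂ) + (a : ℂ) = ((a + r : ℝ) : ℂ) := by push_cast; ring
      rw [e]
    have h3 : ((t : ℂ) • ((s : ℂ) • ν) : Op n) = (((t * s : ℝ) : ℂ)) • ν := by
      rw [smul_smul]
      push_cast
      rfl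
    rw [h3, h2, h2] at h1
    rw [hφt, hφt, hφt]
    exact h1
  -- lower bound
  have hK : IsCompact {y | ρ y ≤ ρ x} := hρ.proper _
  obtain ⟨y₀, -, hy₀⟩ := hK.exists_isMinOn ⟨x, le_refl (ρ x)⟩ hρ.cont.continuousOn
  have hm : ∀ t, 0 ≤ t → ρ y₀ ≤ φ t := by
    intro t ht
    rw [hφt]
    exact hy₀ (hb t ht)
  obtain ⟨L, hL⟩ := FinClosed_lim φ (ρ x) (ρ y₀) hR hm hc
  -- a limit point
  obtain ⟨z, -, θ, hθ, hz⟩ := hK.tendsto_subseq
    (x := fun j : ℕ => act (NormedSpace.exp (((j : ℝ) : ℂ) • ν)) x)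
    (fun j => hb j (Nat.cast_nonneg j))
  have hθ' : Filter.Tendsto (fun j => ((θ j : ℕ) : ℝ)) Filter.atTop Filter.atTop :=
    tendsto_natCast_atTop_atTop.comp hθ.tendsto_atTop
  have key : ∀ s : ℝ, ρ (act (NormedSpace.exp ((s : ℂ) • ν)) z) = L := by
    intro s
    have h1 : Filter.Tendsto (fun j => ρ (act (NormedSpace.exp ((s : ℂ) • ν))
        (act (NormedSpace.exp (((θ j : ℝ) : ℂ) • ν)) x))) Filter.atTop
        (𝓝 (ρ (act (NormedSpace.exp ((s : ℂ) • ν)) z))) :=
      (hρ.cont.tendsto _).comp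
        (((HolAct.continuous_act hA (RedGrp.exp_smul_mem hν (s : ℂ))).tendsto z).comp hz)
    have h2 : Filter.Tendsto (fun j => ρ (act (NormedSpace.exp ((s : ℂ) • ν))
        (act (NormedSpace.exp (((θ j : ℝ) : ℂ) • ν)) x))) Filter.atTop (𝓝 L) := by
      have h3 : Filter.Tendsto (fun j => φ (s + (θ j : ℝ))) Filter.atTop (𝓝 L) :=
        hL.comp (Filter.tendsto_atTop_add_const_left _ s hθ')
      refine h3.congr fun j => ?_
      rw [hφt, ← HolAct.exp_add hA hν]
      push_cast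
      rfl
    exact tendsto_nhds_unique h1 h2
  have hzL : ρ z = L := by
    have h1 := key 0
    have e : ((0 : ℝ) : ℂ) • ν = (0 : Op n) := by
      rw [Complex.ofReal_zero]
      exact zero_smul ℂ ν
    rw [e, NormedSpace.exp_zero, hA.one] at h1
    exact h1
  refine ⟨z, (mem_stab_real hA z ν).2 ⟨hν, hρ.strict ν hν hs z fun t _ => ?_⟩⟩
  rw [key t, hzL]

/-- In the unbounded case the limit direction keeps `ρ` bounded by `ρ x`. -/
private theorem FinClosed_dir (hA : HolAct d G act) {ρ : X → ℝ} (hρ : Exh d G act ρ) (x : X)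
    (η : ℕ → Op n) (hη : ∀ j, η j ∈ G.lie) (hs : ∀ j, IsSelfAdjoint (η j)) (C : ℝ)
    (hC : ∀ j, ρ (act (NormedSpace.exp (η j)) x) ≤ C)
    (hT : Filter.Tendsto (fun j => ‖η j‖) Filter.atTop Filter.atTop) {ν : Op n}
    (hν : Filter.Tendsto (fun j => ((‖η j‖⁻¹ : ℝ) : ℂ) • η j) Filter.atTop (𝓝 ν)) (hνl : ν ∈ G.lie)
    (t : ℝ) (ht : 0 ≤ t) :
    ρ (act (NormedSpace.exp ((t : ℂ) • ν)) x) ≤ ρ x := by
  have hinv : Filter.Tendsto (fun j => t * ‖η j‖⁻¹) Filter.atTop (𝓝 0) := by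
    have h1 := (tendsto_inv_atTop_zero.comp hT).const_mul t
    rw [mul_zero] at h1
    exact h1
  have h1 : Filter.Tendsto (fun j => ((t * ‖η j‖⁻¹ : ℝ) : ℂ) • η j) Filter.atTop
      (𝓝 ((t : ℂ) • ν)) := by
    refine (hν.const_smul (t : ℂ)).congr fun j => ?_
    rw [smul_smul]
    push_cast
    rfl
  have h2 : Filter.Tendsto (fun j => ρ (act (NormedSpace.exp (((t * ‖η j‖⁻¹ : ℝ) : ℂ) • η j)) x))
      Filter.atTop (𝓝 (ρ (act (NormedSpace.exp ((t : ℂ) • ν)) x))) := by
    refine (hρ.cont.tendsto _).comp ?_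
    exact hA.tendsto (Filter.Eventually.of_forall fun j => RedGrp.exp_smul_mem (hη j) _)
      (RedGrp.exp_smul_mem hνl _) (FinClosed_exp_tendsto h1) tendsto_const_nhds
  have h3 : Filter.Tendsto (fun j => (1 - t * ‖η j‖⁻¹) * ρ x + t * ‖η j‖⁻¹ * C) Filter.atTop
      (𝓝 ((1 - 0) * ρ x + 0 * C)) :=
    ((tendsto_const_nhds.sub hinv).mul_const _).add (hinv.mul_const _)
  have e : (1 - 0) * ρ x + 0 * C = ρ x := by ring
  rw [e] at h3
  refine le_of_tendsto_of_tendsto h2 h3 ?_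
  filter_upwards [hT.eventually_ge_atTop (max t 1)] with j hj
  have hj1 : 1 ≤ ‖η j‖ := (le_max_right _ _).trans hj
  have hj2 : t ≤ ‖η j‖ := (le_max_left _ _).trans hj
  have hpos : 0 < ‖η j‖ := by linarith
  have hmem : t * ‖η j‖⁻¹ ∈ Icc (0 : ℝ) 1 := by
    refine ⟨by positivity, ?_⟩
    rw [← div_eq_mul_inv, div_le_one hpos]
    exact hj2
  have h4 := hρ.convex (η j) (hη j) (hs j) x (t * ‖η j‖⁻¹) hmem
  have h5 : t * ‖η j‖⁻¹ * ρ (act (NormedSpace.exp (η j)) x) ≤ t * ‖η j‖⁻¹ * C :=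
    mul_le_mul_of_nonneg_left (hC j) hmem.1
  linarith

theorem closedOrbits_of_stab (hX : IsStein d X) (hA : HolAct d G act)
    (h : ∀ x : X, stab G act x = ⊥) : ClosedOrbits G act := by
  have hprop : ProperSpace (Op n) := FiniteDimensional.proper ℂ (Op n)
  obtain ⟨ρ, hρ, -, -⟩ := exists_exh hX hA ∅ isCompact_empty (fun k _ x hx => absurd hx (by simp))
    (by
      intro x hx
      have h1 := hx (fun _ => 0) mdifferentiable_const (-1) (by simp)
      simp only [norm_zero] at h1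
      linarith) univ isOpen_univ (subset_univ _)
  intro x
  refine IsSeqClosed.isClosed ?_
  intro y y₀ hy hlim
  choose g hg hgy using hy
  choose k hk η hη hs hgk using fun j => RedGrp.polar_left (hg j)
  by_cases hT : Filter.Tendsto (fun j => ‖η j‖) Filter.atTop Filter.atTop
  · exfalso
    -- the directions
    have hsph : ∀ᶠ j in Filter.atTop, ((‖η j‖⁻¹ : ℝ) : ℂ) • η j ∈ Metric.sphere (0 : Op n) 1 := by
      filter_upwards [hT.eventually_ge_atTop 1] with j hj
      rw [mem_sphere_zero_iff_norm, norm_smul, Complex.norm_real, norm_inv, norm_norm]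
      exact inv_mul_cancel₀ (by linarith)
    obtain ⟨ν, hν1, θ, hθ, hθν⟩ := (isCompact_sphere (0 : Op n) 1).tendsto_subseq' hsph.frequently
    have hνl : ν ∈ G.lie := FinClosed_mem hθν G.lie fun j => G.lie.smul_mem _ (hη _)
    have hνs : IsSelfAdjoint ν := FinClosed_selfAdjoint hθν fun j => FinClosed_smul (hs _) _
    -- bound for `ρ`
    have hρy : Filter.Tendsto (fun j => ρ (y j)) Filter.atTop (𝓝 (ρ y₀)) :=
      (hρ.cont.tendsto _).comp hlim
    obtain ⟨C, hC⟩ := hρy.bddAbove_range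
    have hC' : ∀ j, ρ (act (NormedSpace.exp (η j)) x) ≤ C := by
      intro j
      have h1 : ρ (y j) ≤ C := hC ⟨j, rfl⟩
      rw [← hgy j, hgk j, hA.mul _ (hk j).1 _ (RedGrp.exp_mem (hη j)), hρ.inv _ (hk j)] at h1
      exact h1
    obtain ⟨z, hz⟩ := FinClosed_ray hA hρ x hνl hνs (fun t ht =>
      FinClosed_dir hA hρ x (fun j => η (θ j)) (fun j => hη _) (fun j => hs _) C (fun j => hC' _)
        (hT.comp hθ.tendsto_atTop) hθν hνl t ht)
    rw [h z, Submodule.mem_bot] at hz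
    rw [hz, mem_sphere_zero_iff_norm, norm_zero] at hν1
    exact zero_ne_one hν1
  · -- bounded subsequence
    rw [Filter.tendsto_atTop] at hT
    push Not at hT
    obtain ⟨C, hC⟩ := hT
    have hC2 : ∃ᶠ j in Filter.atTop, η j ∈ Metric.closedBall (0 : Op n) C := by
      refine hC.mono fun j hj => ?_
      rw [mem_closedBall_zero_iff]
      exact hj.le
    obtain ⟨η₀, -, θ, hθ, hθη⟩ :=
      (isCompact_closedBall (0 : Op n) C).tendsto_subseq' hC2
    have hη₀ : η₀ ∈ G.lie := FinClosed_mem hθη G.lie fun j => hη _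
    obtain ⟨k₀, hk₀, τ, hτ, hτk⟩ := (RedGrp.K_compact G).tendsto_subseq (x := fun j => k (θ j))
      (fun j => hk _)
    refine ⟨k₀ * NormedSpace.exp η₀, G.mul_mem _ hk₀.1 _ (RedGrp.exp_mem hη₀), ?_⟩
    have h1 : Filter.Tendsto (fun j => g (θ (τ j))) Filter.atTop
        (𝓝 (k₀ * NormedSpace.exp η₀)) := by
      have h2 := FinClosed_exp_tendsto (hθη.comp hτ.tendsto_atTop)
      refine (hτk.mul h2).congr fun j => ?_
      exact (hgk _).symm
    have h2 : Filter.Tendsto (fun j => act (g (θ (τ j))) x) Filter.atTop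
        (𝓝 (act (k₀ * NormedSpace.exp η₀) x)) :=
      hA.tendsto (Filter.Eventually.of_forall fun j => hg _)
        (G.mul_mem _ hk₀.1 _ (RedGrp.exp_mem hη₀)) h1 tendsto_const_nhds
    have h3 : Filter.Tendsto (fun j => act (g (θ (τ j))) x) Filter.atTop (𝓝 y₀) := by
      refine ((hlim.comp hθ.tendsto_atTop).comp hτ.tendsto_atTop).congr fun j => ?_
      exact (hgy _).symm
    exact tendsto_nhds_unique h2 h3

theorem closedOrbits_of_finite (hX : IsStein d X) (hA : HolAct d G act)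
    (h : ∀ x : X, {g | g ∈ G.carrier ∧ act g x = x}.Finite) : ClosedOrbits G act :=
  closedOrbits_of_stab hX hA fun x => stab_eq_bot_of_finite hA x (h x)

end EqOka
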