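import Pool.Agent.Lib.MP_fe51c6_an_EO.QGrp
import Pool.Agent.Lib.MP_fe51c6_an_EO.Act
import Pool.Agent.Lib.MP_fe51c6_an_EO.HS

/-! The action of the quotient group. -/

open scoped Manifold Topology
open Set

noncomputable section

namespace EqOka

variable {n n' d e : ℕ} {N L : RedGrp n} {M : RedGrp n'} {π : Op n → Op n'}
  {dπ : Op n →L[ℂ] Op n'}

/-- The action of `g' = π(g)` is that of `g`. -/
def quotAct {n n' : ℕ} (N : RedGrp n) (π : Op n → Op n') {X : Type} (act : Op n → X → X)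
    (g' : Op n') (x : X) : X :=
  open Classical in if h : ∃ g ∈ N.carrier, π g = g' then act (Classical.choose h) x else x

variable {X Y : Type} [TopologicalSpace X] [ChartedSpace (Cd d) X] [IsManifold 𝓘(ℂ, Cd d) 1 X]
  {act : Op n → X → X} [TopologicalSpace Y] [ChartedSpace (Cd e) Y]
  [IsManifold 𝓘(ℂ, Cd e) 1 Y] {actY : Op n → Y → Y}

theorem quotAct_eq (hQ : QRep N L n' π dπ) (hA : HolAct d N act)
    (ht : ∀ l ∈ L.carrier, ∀ x, act l x = x) {g : Op n} (hg : g ∈ N.carrier) (x : X) :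
    quotAct N π act (π g) x = act g x := by
  have h : ∃ g₀ ∈ N.carrier, π g₀ = π g := ⟨g, hg, rfl⟩
  have h1 : quotAct N π act (π g) x = act (Classical.choose h) x := by
    unfold quotAct
    rw [dif_pos h]
  obtain ⟨h2, h3⟩ := Classical.choose_spec h
  rw [h1]
  obtain ⟨k, hk, hk1, hk2⟩ := N.inv_mem _ h2
  have h4 : π (k * g) = 1 := by
    rw [hQ.mul k hk g hg, ← h3, ← hQ.mul k hk _ h2, hk2, hQ.one]
  have h5 : act (k * g) x = x := ht _ ((hQ.ker _ (N.mul_mem k hk g hg)).1 h4) x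
  rw [hA.mul k hk g hg] at h5
  have h6 := (hA.inv_act h2 hk1 (act g x)).1
  rw [h5] at h6
  exact h6

private theorem QAct_half {A : Type*} [CStarAlgebra A] (ξ : A) :
    IsSelfAdjoint ((1 / 2 : ℂ) • (ξ + star ξ)) := by
  rw [IsSelfAdjoint, star_smul, star_add, star_star, add_comm (star ξ)]
  congr 1
  simp

/-- Representatives in `K exp(p)` of the elements of `M`. -/
private theorem QAct_rep (hM : IsQ N M π dπ) (hQ : QRep N L n' π dπ)
    (hL : L.carrier ⊆ N.carrier)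
    (hn : ∀ g ∈ N.carrier, ∀ h : Op n, g * h = 1 → ∀ l ∈ L.carrier, g * l * h ∈ L.carrier)
    (g' : Op n') (hg' : g' ∈ M.carrier) :
    ∃ k ∈ N.K, ∃ b ∈ N.lie, b ∈ perp L.lie ∧ IsSelfAdjoint b ∧ π (k * NormedSpace.exp b) = g' ∧
      g' = π k * NormedSpace.exp (dπ b) ∧ IsSelfAdjoint (dπ b) := by
  obtain ⟨k', hk', η', hη', hs', rfl⟩ := RedGrp.polar_left hg'
  obtain ⟨k, hk, rfl⟩ := (hM.K_iff hQ hL k').1 hk'
  obtain ⟨ξ, hξ, rfl⟩ := (hM.lie η').1 hη'
  have hη : (1 / 2 : ℂ) • (ξ + star ξ) ∈ N.lie :=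
    N.lie.smul_mem _ (N.lie.add_mem hξ (RedGrp.star_lie hξ))
  have hsa : IsSelfAdjoint ((1 / 2 : ℂ) • (ξ + star ξ)) := QAct_half ξ
  have hd : dπ ((1 / 2 : ℂ) • (ξ + star ξ)) = dπ ξ := by
    rw [map_smul, map_add, hQ.dstar hξ, hs'.star_eq, ← two_smul ℂ (dπ ξ), smul_smul]
    have : (1 / 2 : ℂ) * 2 = 1 := by norm_num
    rw [this, one_smul]
  obtain ⟨a, ha, b, hb, hbp, -, hbs, hab, -⟩ := lie_split hL hn hη hsa
  have h1 : dπ b = dπ ξ := by
    rw [← hd, hab, map_add, (hQ.dker hL (RedGrp.lie_le hL ha)).2 ha, zero_add]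
  have h2 : π (NormedSpace.exp b) = NormedSpace.exp (dπ ξ) := by
    have h3 := hQ.exp b hb 1
    rw [one_smul, one_smul, h1] at h3
    exact h3
  refine ⟨k, hk, b, hb, hbp, hbs, ?_, ?_, ?_⟩
  · rw [hQ.mul k hk.1 _ (RedGrp.exp_mem hb), h2]
  · rw [h1]
  · rw [h1]
    exact hs'

/-- `dπ` is bounded below on the complement of its kernel. -/
private theorem QAct_bound (hQ : QRep N L n' π dπ) (hL : L.carrier ⊆ N.carrier) :
    ∃ C : ℝ, 0 ≤ C ∧ ∀ b ∈ N.lie, b ∈ perp L.lie → ‖b‖ ≤ C * ‖dπ b‖ := by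
  obtain ⟨f, hf1, hf2⟩ := exists_param (N.lie ⊓ perp L.lie)
  have hker : LinearMap.ker ((dπ : Op n →ₗ[ℂ] Op n').comp
      (f : Cd (Module.finrank ℂ (N.lie ⊓ perp L.lie : Submodule ℂ (Op n))) →ₗ[ℂ] Op n)) = ⊥ := by
    rw [LinearMap.ker_eq_bot']
    intro v hv
    have h1 : f v ∈ N.lie ⊓ perp L.lie := hf2.le ⟨v, rfl⟩
    have h2 : dπ (f v) = 0 := hv
    have h3 : f v ∈ L.lie := (hQ.dker hL h1.1).1 h2
    have h4 : f v ∈ L.lie ⊓ perp L.lie := ⟨h3, h1.2⟩
    rw [perp_inf] at h4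
    have h5 : f v = 0 := h4
    apply hf1
    rw [h5, map_zero]
  obtain ⟨c, -, hc⟩ := LinearMap.exists_antilipschitzWith _ hker
  refine ⟨‖f‖ * c, by positivity, fun b hb hbp => ?_⟩
  obtain ⟨v, hv⟩ := hf2.ge (show b ∈ N.lie ⊓ perp L.lie from ⟨hb, hbp⟩)
  have hv' : f v = b := hv
  have h6 : ‖v‖ ≤ c * ‖dπ (f v)‖ := by
    have h7 := hc.le_mul_dist v 0
    rw [map_zero, dist_zero_right, dist_zero_right] at h7
    exact h7
  rw [← hv']
  calc ‖f v‖ ≤ ‖f‖ * ‖v‖ := f.le_opNorm v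
    _ ≤ ‖f‖ * (c * ‖dπ (f v)‖) := by gcongr
    _ = ‖f‖ * c * ‖dπ (f v)‖ := by ring

/-- Lifting convergence from `M` to `N` (along ultrafilters). -/
theorem exists_lift (hM : IsQ N M π dπ) (hQ : QRep N L n' π dπ) (hL : L.carrier ⊆ N.carrier)
    (hn : ∀ g ∈ N.carrier, ∀ h : Op n, g * h = 1 → ∀ l ∈ L.carrier, g * l * h ∈ L.carrier) :
    ∃ s : Op n' → Op n, (∀ g' ∈ M.carrier, s g' ∈ N.carrier ∧ π (s g') = g') ∧
      ∀ (l : Ultrafilter (Op n')) (g' : Op n'), g' ∈ M.carrier → M.carrier ∈ l →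
        (l : Filter (Op n')) ≤ 𝓝 g' →
        ∃ g ∈ N.carrier, π g = g' ∧ Filter.Tendsto s l (𝓝 g) := by
  have h0 : ∀ g' : Op n', ∃ (k b : Op n), g' ∈ M.carrier → k ∈ N.K ∧ b ∈ N.lie ∧ b ∈ perp L.lie ∧
      IsSelfAdjoint b ∧ π (k * NormedSpace.exp b) = g' ∧
      g' = π k * NormedSpace.exp (dπ b) ∧ IsSelfAdjoint (dπ b) := by
    intro g'
    by_cases hg' : g' ∈ M.carrier
    · obtain ⟨k, hk, b, hb, h⟩ := QAct_rep hM hQ hL hn g' hg'
      exact ⟨k, b, fun _ => ⟨hk, hb, h⟩⟩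
    · exact ⟨0, 0, fun h => absurd h hg'⟩
  choose kk bb hkb using h0
  have hs : ∀ g' ∈ M.carrier, kk g' * NormedSpace.exp (bb g') ∈ N.carrier ∧
      π (kk g' * NormedSpace.exp (bb g')) = g' := by
    intro g' hg'
    obtain ⟨h1, h2, -, -, h5, -⟩ := hkb g' hg'
    exact ⟨N.mul_mem _ h1.1 _ (RedGrp.exp_mem h2), h5⟩
  refine ⟨fun g' => kk g' * NormedSpace.exp (bb g'), hs, ?_⟩
  intro l g₀ hg₀ hMl hl
  obtain ⟨C, hC0, hC⟩ := QAct_bound hQ hL
  obtain ⟨C', hC'⟩ := FF_bound n' (FF g₀ + 1)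
  -- `FF` is bounded along `l`
  have hFF : ∀ᶠ g' in (l : Filter (Op n')), FF g' ≤ FF g₀ + 1 := by
    have h1 : ContinuousWithinAt (FF : Op n' → ℝ) {g | IsUnit g} g₀ :=
      FF_continuousOn g₀ (RedGrp.isUnit hg₀)
    have h2 : (l : Filter (Op n')) ≤ 𝓝[{g | IsUnit g}] g₀ := by
      rw [nhdsWithin]
      refine le_inf hl ?_
      rw [Filter.le_principal_iff]
      exact Filter.mem_of_superset hMl fun g hg => RedGrp.isUnit hg
    have h3 : Filter.Tendsto FF (l : Filter (Op n')) (𝓝 (FF g₀)) := h1.tendsto.mono_left h2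
    exact (h3.eventually_lt_const (lt_add_one (FF g₀))).mono fun _ h => h.le
  have hMe : ∀ᶠ g' in (l : Filter (Op n')), g' ∈ M.carrier := hMl
  have hbd : ∀ᶠ g' in (l : Filter (Op n')), bb g' ∈ Metric.closedBall (0 : Op n) (C * C') := by
    filter_upwards [hFF, hMe] with g' h1 h2
    obtain ⟨a1, a2, a3, -, -, a6, a7⟩ := hkb g' h2
    have a8 : FF (NormedSpace.exp (dπ (bb g'))) ≤ FF g₀ + 1 := by
      rw [← (FF_mul_unitary (hQ.unitary a1) (NormedSpace.exp (dπ (bb g')))).2, ← a6]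
      exact h1
    rw [Metric.mem_closedBall, dist_zero_right]
    exact (hC _ a2 a3).trans (mul_le_mul_of_nonneg_left (hC' _ a7 a8) hC0)
  have hbK : ∀ᶠ g' in (l : Filter (Op n')), kk g' ∈ N.K := by
    filter_upwards [hMe] with g' h2
    exact (hkb g' h2).1
  have : ProperSpace (Op n) := FiniteDimensional.proper ℂ (Op n)
  obtain ⟨b₀, -, hb₀⟩ := (isCompact_closedBall (0 : Op n) (C * C')).ultrafilter_le_nhds
    (l.map bb) (by rw [Filter.le_principal_iff]; exact hbd)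
  obtain ⟨k₀, hk₀, hk₀'⟩ := N.K_compact.ultrafilter_le_nhds (l.map kk)
    (by rw [Filter.le_principal_iff]; exact hbK)
  have tb : Filter.Tendsto bb (l : Filter (Op n')) (𝓝 b₀) := hb₀
  have tk : Filter.Tendsto kk (l : Filter (Op n')) (𝓝 k₀) := hk₀'
  have hb₀l : b₀ ∈ N.lie := by
    have hcl : IsClosed (N.lie : Set (Op n)) := Submodule.closed_of_finiteDimensional N.lie
    exact hcl.mem_of_tendsto tb (hMe.mono fun g' h => (hkb g' h).2.1)
  have ts : Filter.Tendsto (fun g' => kk g' * NormedSpace.exp (bb g')) (l : Filter (Op n'))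
      (𝓝 (k₀ * NormedSpace.exp b₀)) :=
    tk.mul ((HSAux.exp_cont.tendsto b₀).comp tb)
  have hg : k₀ * NormedSpace.exp b₀ ∈ N.carrier := N.mul_mem _ hk₀.1 _ (RedGrp.exp_mem hb₀l)
  refine ⟨k₀ * NormedSpace.exp b₀, hg, ?_, ts⟩
  have t1 : Filter.Tendsto (fun g' => π (kk g' * NormedSpace.exp (bb g'))) (l : Filter (Op n'))
      (𝓝 (π (k₀ * NormedSpace.exp b₀))) := by
    have h1 : ContinuousWithinAt π N.carrier (k₀ * NormedSpace.exp b₀) := hQ.cont _ hg
    exact h1.tendsto.comp (tendsto_nhdsWithin_iff.2 ⟨ts, hMe.mono fun g' h => (hs g' h).1⟩)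
  have t2 : Filter.Tendsto (fun g' => π (kk g' * NormedSpace.exp (bb g'))) (l : Filter (Op n'))
      (𝓝 g₀) := by
    have h1 : Filter.Tendsto (fun g' : Op n' => g') (l : Filter (Op n')) (𝓝 g₀) := hl
    exact h1.congr' (hMe.mono fun g' h => ((hs g' h).2).symm)
  exact tendsto_nhds_unique t1 t2

theorem quot_holAct (hM : IsQ N M π dπ) (hQ : QRep N L n' π dπ) (hL : L.carrier ⊆ N.carrier)
    (hn : ∀ g ∈ N.carrier, ∀ h : Op n, g * h = 1 → ∀ l ∈ L.carrier, g * l * h ∈ L.carrier)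
    (hA : HolAct d N act) (ht : ∀ l ∈ L.carrier, ∀ x, act l x = x) :
    HolAct d M (quotAct N π act) where
  one := by
    intro x
    rw [← hQ.one, quotAct_eq hQ hA ht N.one_mem, hA.one]
  mul := by
    intro g' hg' h' hh' x
    obtain ⟨g, hg, rfl⟩ := (hM.car g').1 hg'
    obtain ⟨h, hh, rfl⟩ := (hM.car h').1 hh'
    rw [← hQ.mul g hg h hh, quotAct_eq hQ hA ht (N.mul_mem g hg h hh),
      quotAct_eq hQ hA ht hh, quotAct_eq hQ hA ht hg, hA.mul g hg h hh]
  cont := by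
    obtain ⟨s, hs1, hs2⟩ := exists_lift hM hQ hL hn
    rintro ⟨g₀, x₀⟩ ⟨hg₀, -⟩
    have hg₀ : g₀ ∈ M.carrier := hg₀
    rw [ContinuousWithinAt, Filter.tendsto_iff_ultrafilter]
    intro u hu
    have hu1 : (u : Filter (Op n' × X)) ≤ 𝓝 (g₀, x₀) := hu.trans nhdsWithin_le_nhds
    have hu2 : ∀ᶠ p in (u : Filter (Op n' × X)), p ∈ M.carrier ×ˢ (univ : Set X) :=
      hu self_mem_nhdsWithin
    have hu3 : ∀ᶠ p in (u : Filter (Op n' × X)), p.1 ∈ M.carrier := hu2.mono fun p hp => hp.1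
    have hf : Filter.Tendsto Prod.fst (u : Filter (Op n' × X)) (𝓝 g₀) :=
      (continuous_fst.tendsto (g₀, x₀)).mono_left hu1
    have hsn : Filter.Tendsto Prod.snd (u : Filter (Op n' × X)) (𝓝 x₀) :=
      (continuous_snd.tendsto (g₀, x₀)).mono_left hu1
    obtain ⟨g, hg, hgg, hts⟩ := hs2 (u.map Prod.fst) g₀ hg₀ hu3 hf
    have hts' : Filter.Tendsto (fun p : Op n' × X => s p.1) (u : Filter (Op n' × X)) (𝓝 g) :=
      hts.comp Filter.tendsto_map
    have h1 : Filter.Tendsto (fun p : Op n' × X => act (s p.1) p.2) (u : Filter (Op n' × X))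
        (𝓝 (act g x₀)) :=
      hA.tendsto (hu3.mono fun p hp => (hs1 p.1 hp).1) hg hts' hsn
    have h2 : quotAct N π act g₀ x₀ = act g x₀ := by
      rw [← hgg, quotAct_eq hQ hA ht hg]
    change Filter.Tendsto (fun p : Op n' × X => quotAct N π act p.1 p.2)
      (u : Filter (Op n' × X)) (𝓝 (quotAct N π act g₀ x₀))
    rw [h2]
    refine h1.congr' (hu3.mono fun p hp => ?_)
    change act (s p.1) p.2 = quotAct N π act p.1 p.2
    rw [← quotAct_eq hQ hA ht (hs1 p.1 hp).1, (hs1 p.1 hp).2]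
  hol := by
    intro g' hg'
    obtain ⟨g, hg, rfl⟩ := (hM.car g').1 hg'
    have h1 : quotAct N π act (π g) = act g := by
      funext x
      exact quotAct_eq hQ hA ht hg x
    rw [h1]
    exact hA.hol g hg
  hol_exp := by
    intro m L' hL'
    have h0 : ∀ i : Fin m, ∃ ξ ∈ N.lie, dπ ξ = L' (EuclideanSpace.single i 1) := fun i =>
      (hM.lie _).1 (hL' _)
    choose ξ hξ1 hξ2 using h0
    let L₁ : Cd m →L[ℂ] Op n :=
      ∑ i : Fin m, (EuclideanSpace.proj i : Cd m →L[ℂ] ℂ).smulRight (ξ i)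
    have hL₁ : ∀ v : Cd m, L₁ v = ∑ i : Fin m, v i • ξ i := by
      intro v
      simp only [L₁, sum_apply, ContinuousLinearMap.smulRight_apply]
      rfl
    have h1 : ∀ v, L₁ v ∈ N.lie := by
      intro v
      rw [hL₁]
      exact N.lie.sum_mem fun i _ => N.lie.smul_mem _ (hξ1 i)
    have h2 : ∀ v, dπ (L₁ v) = L' v := by
      intro v
      rw [hL₁, map_sum]
      conv_rhs => rw [← (EuclideanSpace.basisFun (Fin m) ℂ).sum_repr v, map_sum]
      refine Finset.sum_congr rfl fun i _ => ?_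
      rw [map_smul, map_smul, hξ2, EuclideanSpace.basisFun_apply]
      rfl
    have h3 : (fun p : Cd m × X => quotAct N π act (NormedSpace.exp (L' p.1)) p.2) =
        fun p : Cd m × X => act (NormedSpace.exp (L₁ p.1)) p.2 := by
      funext p
      have h4 := hQ.exp (L₁ p.1) (h1 p.1) 1
      rw [one_smul, one_smul, h2] at h4
      rw [← h4]
      exact quotAct_eq hQ hA ht (RedGrp.exp_mem (h1 p.1)) p.2
    rw [h3]
    exact hA.hol_exp m L₁ h1

private theorem QAct_eqvt (hQ : QRep N L n' π dπ) (hA : HolAct d N act)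
    (ht : ∀ l ∈ L.carrier, ∀ x, act l x = x) (hB : HolAct e N actY)
    (htY : ∀ l ∈ L.carrier, ∀ y, actY l y = y) {S : Set (Op n)} {S' : Set (Op n')}
    (hS : S ⊆ N.carrier) (h : ∀ g', g' ∈ S' ↔ ∃ g ∈ S, π g = g') :
    (Eqvt S' (quotAct N π act) (quotAct N π actY) : (X → Y) → Prop) = Eqvt S act actY := by
  funext f
  apply propext
  constructor
  · intro h1 g hg x
    have h2 := h1 (π g) ((h _).2 ⟨g, hg, rfl⟩) x
    rw [quotAct_eq hQ hA ht (hS hg), quotAct_eq hQ hB htY (hS hg)] at h2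
    exact h2
  · intro h1 g' hg' x
    obtain ⟨g, hg, rfl⟩ := (h g').1 hg'
    rw [quotAct_eq hQ hA ht (hS hg), quotAct_eq hQ hB htY (hS hg)]
    exact h1 g hg x

private theorem QAct_invt (hQ : QRep N L n' π dπ) (hA : HolAct d N act)
    (ht : ∀ l ∈ L.carrier, ∀ x, act l x = x) {S : Set (Op n)} {S' : Set (Op n')}
    (hS : S ⊆ N.carrier) (h : ∀ g', g' ∈ S' ↔ ∃ g ∈ S, π g = g') :
    (Invt S' (quotAct N π act) : Set X → Prop) = Invt S act := by
  funext Z
  apply propext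
  constructor
  · intro h1 g hg x hx
    have h2 := h1 (π g) ((h _).2 ⟨g, hg, rfl⟩) x hx
    rw [quotAct_eq hQ hA ht (hS hg)] at h2
    exact h2
  · intro h1 g' hg' x hx
    obtain ⟨g, hg, rfl⟩ := (h g').1 hg'
    rw [quotAct_eq hQ hA ht (hS hg)]
    exact h1 g hg x hx

/-- Part `p` of the equivariant Oka principle for `M` and for `N`. -/
theorem quot_EOP {p : Part} (hM : IsQ N M π dπ) (hQ : QRep N L n' π dπ) (hL : L.carrier ⊆ N.carrier)
    (hA : HolAct d N act) (ht : ∀ l ∈ L.carrier, ∀ x, act l x = x) (hB : HolAct e N actY)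
    (htY : ∀ l ∈ L.carrier, ∀ y, actY l y = y)
    (h : EOP p d e M (quotAct N π act) (quotAct N π actY)) : EOP p d e N act actY := by
  have hK : ∀ g', g' ∈ M.K ↔ ∃ g ∈ N.K, π g = g' := hM.K_iff hQ hL
  have e1 := QAct_eqvt hQ hA ht hB htY (S := N.K) (S' := M.K) (fun _ hk => hk.1) hK
  have e2 := QAct_eqvt hQ hA ht hB htY (S := N.carrier) (S' := M.carrier) subset_rfl hM.car
  have e3 := QAct_invt hQ hA ht (S := N.K) (S' := M.K) (fun _ hk => hk.1) hK
  have e4 := QAct_invt hQ hA ht (S := N.carrier) (S' := M.carrier) subset_rfl hM.car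
  cases p
  · have ha : PartA d e M (quotAct N π act) (quotAct N π actY) := h
    change PartA d e N act actY
    unfold PartA at ha ⊢
    rw [e1, e2] at ha
    exact ha
  · have hb : PartB d e M (quotAct N π act) (quotAct N π actY) := h
    change PartB d e N act actY
    unfold PartB at hb ⊢
    rw [e1, e2, e4] at hb
    exact hb
  · have hc : PartC d e M (quotAct N π act) (quotAct N π actY) := h
    change PartC d e N act actY
    unfold PartC at hc ⊢
    rw [e1, e2, e3, e4] at hc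
    exact hc
  · have hc : PartC0 d e M (quotAct N π act) (quotAct N π actY) := h
    change PartC0 d e N act actY
    unfold PartC0 at hc ⊢
    rw [e1, e2, e3, e4] at hc
    exact hc

theorem quot_closedOrbits (hM : IsQ N M π dπ) (hQ : QRep N L n' π dπ) (hA : HolAct d N act)
    (ht : ∀ l ∈ L.carrier, ∀ x, act l x = x) (hc : ClosedOrbits N act) :
    ClosedOrbits M (quotAct N π act) := by
  intro x
  have h1 : {y | ∃ g' ∈ M.carrier, quotAct N π act g' x = y} =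
      {y | ∃ g ∈ N.carrier, act g x = y} := by
    ext y
    constructor
    · rintro ⟨g', hg', rfl⟩
      obtain ⟨g, hg, rfl⟩ := (hM.car g').1 hg'
      exact ⟨g, hg, (quotAct_eq hQ hA ht hg x).symm⟩
    · rintro ⟨g, hg, rfl⟩
      exact ⟨π g, (hM.car _).2 ⟨g, hg, rfl⟩, quotAct_eq hQ hA ht hg x⟩
  rw [h1]
  exact hc x

theorem quot_finite (hM : IsQ N M π dπ) (hQ : QRep N L n' π dπ) (hA : HolAct d N act)
    (hF : FiniteStab N L act) (x : X) :
    {g' | g' ∈ M.carrier ∧ quotAct N π act g' x = x}.Finite := by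
  obtain ⟨T, hT, hTN, hT2⟩ := hF.finite x
  refine (hT.image π).subset ?_
  rintro g' ⟨hg', hx⟩
  obtain ⟨g, hg, rfl⟩ := (hM.car g').1 hg'
  rw [quotAct_eq hQ hA hF.trivial hg] at hx
  obtain ⟨t, htT, l, hl, rfl⟩ := hT2 g hg hx
  refine ⟨t, htT, ?_⟩
  rw [hQ.mul t (hTN htT) l (hF.le hl), (hQ.ker l (hF.le hl)).2 hl, mul_one]

end EqOka
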