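import Pool.Agent.Lib.MP_fe51c6_an_EO.Subm
import Pool.Agent.Lib.MP_fe51c6_an_EO.Act

/-! Restriction of actions and of the notions of the problem to a closed submanifold. -/

open scoped Manifold Topology
open Set

noncomputable section

namespace EqOka

/-- The action restricted to a subset. -/
def subAct {n : ℕ} {X : Type} (S : Set X) (act : Op n → X → X) (g : Op n) (s : S) : S :=
  open Classical in if h : act g s ∈ S then ⟨act g s, h⟩ else s

variable {n d d' e : ℕ} {G N : RedGrp n} {X Y : Type} [TopologicalSpace X] [ChartedSpace (Cd d) X]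
  [IsManifold 𝓘(ℂ, Cd d) 1 X] [T2Space X] {act : Op n → X → X} [TopologicalSpace Y]
  [ChartedSpace (Cd e) Y] [IsManifold 𝓘(ℂ, Cd e) 1 Y] {S : Set X} [ChartedSpace (Cd d') S]

theorem subAct_val (act : Op n → X → X) {g : Op n} {s : S} (h : act g s ∈ S) :
    (subAct S act g s : X) = act g s := by
  classical
  unfold subAct
  rw [dif_pos h]

theorem sub_holAct (hA : HolAct d G act) (hN : N.carrier ⊆ G.carrier)
    (hS : Invt N.carrier act S) (hg : GoodSub d d' S) : HolAct d' N (subAct S act) := by
  have hB : HolAct d N act := hA.restrict hN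
  have hv : ∀ g ∈ N.carrier, ∀ s : S, (subAct S act g s : X) = act g s :=
    fun g hg s => subAct_val act (hS g hg s s.2)
  refine ⟨?_, ?_, ?_, ?_, ?_⟩
  · intro s
    exact Subtype.ext ((hv 1 N.one_mem s).trans (hB.one s))
  · intro g hg' h hh s
    apply Subtype.ext
    rw [hv _ (N.mul_mem g hg' h hh), hv g hg', hv h hh, hB.mul g hg' h hh]
  · rw [Topology.IsInducing.subtypeVal.continuousOn_iff]
    have h1 : ContinuousOn (fun p : Op n × S => act p.1 (p.2 : X)) (N.carrier ×ˢ Set.univ) :=
      hB.continuous_comp continuous_fst.continuousOn (fun p hp => hp.1)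
        (continuous_subtype_val.comp continuous_snd).continuousOn
    refine h1.congr fun p hp => ?_
    exact hv p.1 hp.1 p.2
  · intro g hg' s
    refine hg.lift _ _ _ _ _ _ ?_
    have h1 : (fun q : S => (subAct S act g q : X)) = act g ∘ (Subtype.val : S → X) :=
      funext fun q => hv g hg' q
    rw [h1]
    exact (hB.hol g hg' _).comp s (hg.incl s)
  · intro m L hL p
    have := hg.mfd
    refine hg.lift _ _ _ _ _ _ ?_
    have h0 : ∀ v, NormedSpace.exp (L v) ∈ N.carrier := by
      intro v
      have h2 := (N.lie_iff _).1 (hL v) 1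
      rwa [Complex.ofReal_one, one_smul] at h2
    have h1 : (fun q : Cd m × S => (subAct S act (NormedSpace.exp (L q.1)) q.2 : X)) =
        (fun q : Cd m × X => act (NormedSpace.exp (L q.1)) q.2) ∘
          fun q : Cd m × S => (q.1, (q.2 : X)) :=
      funext fun q => hv _ (h0 q.1) q.2
    rw [h1]
    refine (hB.hol_exp m L hL _).comp p (MDifferentiableAt.prodMk ?_ ?_)
    · exact mdifferentiableAt_fst
    · exact (hg.incl p.2).comp p mdifferentiableAt_snd

theorem sub_holFun (hg : GoodSub d d' S) {f : X → ℂ} (hf : HolFun d f) :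
    HolFun d' (fun x : S => f x) := by
  intro s
  exact (hf (s : X)).comp s (hg.incl s)

theorem sub_stein (hX : IsStein d X) (hS : IsClosed S) (hg : GoodSub d d' S) : IsStein d' S := by
  refine ⟨fun A hA => ?_, fun x y hxy => ?_⟩
  · have h1 : IsCompact (hull d (Subtype.val '' A)) :=
      hX.convex _ (hA.image continuous_subtype_val)
    have h2 : IsCompact ((Subtype.val : S → X) ⁻¹' hull d (Subtype.val '' A)) :=
      hS.isClosedEmbedding_subtypeVal.isCompact_preimage h1
    have h3 : IsClosed (hull d' A) := by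
      have h4 : hull d' A = ⋂ (f : S → ℂ) (_ : HolFun d' f) (C : ℝ) (_ : ∀ a ∈ A, ‖f a‖ ≤ C),
          {x | ‖f x‖ ≤ C} := by
        ext x
        simp only [hull, mem_ofPred_eq, mem_iInter]
      rw [h4]
      refine isClosed_iInter fun f => isClosed_iInter fun hf => isClosed_iInter fun C =>
        isClosed_iInter fun _ => ?_
      exact isClosed_le (continuous_norm.comp (MDifferentiable.continuous hf)) continuous_const
    refine h2.of_isClosed_subset h3 ?_
    intro x hx f hf C hC
    exact hx (fun y : S => f y) (sub_holFun hg hf) C fun a ha => hC _ ⟨a, ha, rfl⟩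
  · obtain ⟨f, hf, hne⟩ := hX.separates (x : X) y fun h => hxy (Subtype.ext h)
    exact ⟨fun z : S => f z, sub_holFun hg hf, hne⟩

theorem sub_subvariety (hg : GoodSub d d' S) {Z : Set X} (hZ : IsSubvariety d Z) :
    IsSubvariety d' (Subtype.val ⁻¹' Z : Set S) := by
  refine ⟨hZ.1.preimage continuous_subtype_val, fun z hz => ?_⟩
  obtain ⟨U, hU, hzU, M, g, hgd, hiff⟩ := hZ.2 (z : X) hz
  refine ⟨Subtype.val ⁻¹' U, hU.preimage continuous_subtype_val, hzU, M,
    fun i (x : S) => g i x, fun i => ?_, fun x hx => hiff x hx⟩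
  exact (hgd i).comp (hg.incl.mdifferentiableOn) (fun x hx => hx)

theorem sub_holAt (hg : GoodSub d d' S) {f : X → Y} {s : S} (hf : HolAt d e f (s : X)) :
    HolAt d' e (fun x : S => f x) s := by
  have h1 : ∀ᶠ y : S in 𝓝 s, MDifferentiableAt 𝓘(ℂ, Cd d) 𝓘(ℂ, Cd e) f (y : X) :=
    continuous_subtype_val.continuousAt.eventually hf
  filter_upwards [h1] with y hy
  exact hy.comp y (hg.incl y)

theorem sub_holOnSub (hg : GoodSub d d' S) {f : X → Y} {Z : Set X} (hf : HolOnSub d e f Z) :
    HolOnSub d' e (fun x : S => f x) (Subtype.val ⁻¹' Z : Set S) := by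
  intro z hz
  obtain ⟨F, hF, hFf⟩ := hf (z : X) hz
  refine ⟨fun x : S => F x, sub_holAt hg hF, ?_⟩
  have h1 : ∀ᶠ x : S in 𝓝 z, (x : X) ∈ Z → F x = f x :=
    continuous_subtype_val.continuousAt.eventually hFf
  exact h1

end EqOka
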