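import Pool.Agent.Lib.MP_fe51c6_an_EO.FixFlat
import Pool.Agent.Lib.MP_fe51c6_an_EO.SubAct
import Pool.Agent.Lib.MP_fe51c6_an_EO.QAct

/-! The Oka property of the parts of the fixed point set. -/

open scoped Manifold Topology
open Set

noncomputable section

namespace EqOka

variable {n n' d e e' : ℕ} {N L : RedGrp n} {M : RedGrp n'} {π : Op n → Op n'}
  {dπ : Op n →L[ℂ] Op n'} {Y : Type} [TopologicalSpace Y] [ChartedSpace (Cd e) Y]
  [IsManifold 𝓘(ℂ, Cd e) 1 Y] [T2Space Y] {actY : Op n → Y → Y}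

/-- A relatively open and closed part of an Oka set is Oka. -/
theorem isOka_clopen {T T' : Set Y} (hT : IsOka e T) (hs : T' ⊆ T) (hc : IsClosed T')
    (ho : ∀ y ∈ T', ∀ᶠ x in 𝓝 y, x ∈ T → x ∈ T') : IsOka e T' := by
  intro m A hA hAn hAc f hf hfT W hW hWf
  have hVo : IsOpen (interior {x | x ∈ T → x ∈ T'}) := isOpen_interior
  have hTV : T' ⊆ interior {x | x ∈ T → x ∈ T'} := by
    intro y hy
    rw [mem_interior_iff_mem_nhds]
    exact ho y hy
  obtain ⟨F, hF, hFT, hFW⟩ := hT m A hA hAn hAc f hf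
    (fun a ha => (hfT a ha).mono fun z hz => hs hz)
    (W ∩ Prod.snd ⁻¹' interior {x | x ∈ T → x ∈ T'}) (hW.inter (hVo.preimage continuous_snd))
    (fun a ha => ⟨hWf a ha, hTV (hfT a ha).self_of_nhds⟩)
  have hFc : Continuous F := MDifferentiable.continuous hF
  have h1 : IsClosed (F ⁻¹' T') := hc.preimage hFc
  have h2 : IsOpen (F ⁻¹' T') := by
    rw [isOpen_iff_mem_nhds]
    intro z hz
    have h3 : ∀ᶠ w in 𝓝 z, F w ∈ T → F w ∈ T' := hFc.continuousAt.eventually (ho (F z) hz)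
    exact h3.mono fun w hw => hw (hFT w)
  have h4 : (F ⁻¹' T').Nonempty := by
    obtain ⟨a, ha⟩ := hAn
    have h5 : F a ∈ interior {x | x ∈ T → x ∈ T'} := (hFW a ha).2
    exact ⟨a, interior_subset h5 (hFT a)⟩
  have h6 : F ⁻¹' T' = univ := IsClopen.eq_univ ⟨h1, h2⟩ h4
  refine ⟨F, hF, fun z => ?_, fun a ha => (hFW a ha).1⟩
  have h7 : z ∈ F ⁻¹' T' := by rw [h6]; trivial
  exact h7

/-- The Oka property of a subset of a submanifold. -/
theorem isOka_sub {T : Set Y} [ChartedSpace (Cd e') T] (hg : GoodSub e e' T) (R : Set T)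
    (h : IsOka e (Subtype.val '' R)) : IsOka e' R := by
  intro m A hA hAn hAc f hf hfR W hW hWf
  have hind : Topology.IsInducing (fun p : Cd m × T => ((p.1, (p.2 : Y)) : Cd m × Y)) :=
    Topology.IsInducing.id.prodMap Topology.IsInducing.subtypeVal
  obtain ⟨W0, hW0, hW0W⟩ := hind.isOpen_iff.1 hW
  obtain ⟨F0, hF0, hF0R, hF0W⟩ := h m A hA hAn hAc (fun z => (f z : Y))
    (fun a ha => (hf a ha).mono fun z hz => (hg.incl (f z)).comp z hz)
    (fun a ha => (hfR a ha).mono fun z hz => mem_image_of_mem _ hz) W0 hW0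
    (fun a ha => by
      have h1 : (a, f a) ∈ (fun p : Cd m × T => ((p.1, (p.2 : Y)) : Cd m × Y)) ⁻¹' W0 := by
        rw [hW0W]
        exact hWf a ha
      exact h1)
  choose G hGR hGF using hF0R
  refine ⟨G, fun z => ?_, hGR, fun a ha => ?_⟩
  · refine hg.lift _ _ _ _ G z ?_
    have h2 : (fun q => (G q : Y)) = F0 := funext hGF
    rw [h2]
    exact hF0 z
  · rw [← hW0W]
    change (a, (G a : Y)) ∈ W0
    rw [hGF a]
    exact hF0W a ha

/-- The part `Y_j^L` is `M`-Oka, `M = N / L`. -/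
theorem gOka_FixJ (hM : IsQ N M π dπ) (hQ : QRep N L n' π dπ) (hL : L.carrier ⊆ N.carrier)
    (hn : ∀ g ∈ N.carrier, ∀ h : Op n, g * h = 1 → ∀ l ∈ L.carrier, g * l * h ∈ L.carrier)
    (hB : HolAct e N actY) (hO : GOka e N actY) (j : ℕ)
    [ChartedSpace (Cd e') (FixJ e L actY j)] (hg : GoodSub e e' (FixJ e L actY j)) :
    GOka e' M (quotAct N π (subAct (FixJ e L actY j) actY)) := by
  intro H' hH'
  obtain ⟨H, hHN, hLH, hH⟩ := exists_preimage hM hQ hL H' hH'
  have hinv : Invt N.carrier actY (FixJ e L actY j) := FixJ_invt hB hL hn j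
  have := hg.mfd
  have hact : HolAct e' N (subAct (FixJ e L actY j) actY) := sub_holAct hB subset_rfl hinv hg
  have htriv : ∀ l ∈ L.carrier, ∀ x, subAct (FixJ e L actY j) actY l x = x := by
    intro l hl x
    apply Subtype.ext
    rw [subAct_val actY (hinv l (hL hl) x x.2)]
    exact x.2.1 l hl
  have hBL : HolAct e L actY := hB.restrict hL
  have hBH : HolAct e H actY := hB.restrict hHN
  refine isOka_sub hg _ ?_
  have himg : (Subtype.val '' Fix H'.carrier (quotAct N π (subAct (FixJ e L actY j) actY)) : Set Y) =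
      Fix H.carrier actY ∩ FixJ e L actY j := by
    ext y
    constructor
    · rintro ⟨x, hx, rfl⟩
      refine ⟨fun g hgH => ?_, x.2⟩
      obtain ⟨hgN, hgH'⟩ := (hH g).1 hgH
      have h1 := hx (π g) hgH'
      rw [quotAct_eq hQ hact htriv hgN] at h1
      rw [← subAct_val actY (hinv g hgN x x.2), h1]
    · rintro ⟨hy, hyJ⟩
      refine ⟨⟨y, hyJ⟩, fun g' hg' => ?_, rfl⟩
      obtain ⟨g, hgN, rfl⟩ := (hM.car g').1 (hH' hg')
      rw [quotAct_eq hQ hact htriv hgN]
      apply Subtype.ext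
      rw [subAct_val actY (hinv g hgN y hyJ)]
      exact hy g ((hH g).2 ⟨hgN, hg'⟩)
  rw [himg]
  refine isOka_clopen (hO H hHN) inter_subset_left
    ((isClosed_Fix hBH).inter (isClosed_FixJ hBL j)) ?_
  rintro y ⟨hy, hyJ⟩
  filter_upwards [FixJ_nhds hBL j y hyJ] with x hx hxH
  exact ⟨hxH, hx fun l hl => hxH l (hLH hl)⟩

end EqOka
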