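import Pool.Agent.Lib.MP_fe51c6_an_EO.Defs

/-! Parts (a) and (b) of the equivariant Oka principle in one form: (a) is (b) with `Z = ∅`. -/

open scoped Manifold Topology

namespace EqOka

variable {n d e : ℕ} {G : RedGrp n} {X Y : Type} [TopologicalSpace X] [ChartedSpace (Cd d) X]
  [TopologicalSpace Y] [ChartedSpace (Cd e) Y] {actX : Op n → X → X} {actY : Op n → Y → Y}

theorem EOP.ab {p : Part} {Z : Set X} (hE : EOP p d e G actX actY) (hp : p = .b ∨ p = .a ∧ Z = ∅)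
    (hZ : IsSubvariety d Z) (hZi : Invt G.carrier actX Z) (f : X → Y) (hfc : Continuous f)
    (hf : Eqvt G.K actX actY f) (hfZ : HolOnSub d e f Z) :
    ∃ g : X → Y, Hol d e g ∧ Eqvt G.carrier actX actY g ∧
      Deforms (fun u => Eqvt G.K actX actY u ∧ ∀ z ∈ Z, u z = f z) f g := by
  rcases hp with rfl | ⟨rfl, rfl⟩
  · exact hE Z hZ hZi f hfc hf hfZ
  · obtain ⟨g, h1, h2, H, h3, h4, h5, h6⟩ := hE f hfc hf
    exact ⟨g, h1, h2, H, h3, h4, h5, fun t => ⟨h6 t, fun z hz => absurd hz (Set.notMem_empty z)⟩⟩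

end EqOka
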