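import Pool.Agent.Lib.MP_fe51c6_an_EO.Piece
import Pool.Agent.Lib.MP_fe51c6_an_EO.Parts

/-! Parts (a) and (b) from the pieces. -/

open scoped Manifold Topology
open Set

noncomputable section

namespace EqOka

variable {p : Part} {n d d' e e' : ℕ} {N L : RedGrp n} {X Y : Type} [TopologicalSpace X]
  [ChartedSpace (Cd d) X] [IsManifold 𝓘(ℂ, Cd d) 1 X] [T2Space X] [SecondCountableTopology X]
  {act : Op n → X → X} [TopologicalSpace Y] [ChartedSpace (Cd e) Y] [IsManifold 𝓘(ℂ, Cd e) 1 Y]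
  [T2Space Y] {actY : Op n → Y → Y}

/-- A linear projection onto `D`. -/
private theorem pieceB_proj (D : Submodule ℂ (Cd e)) :
    ∃ π : Cd e →L[ℂ] Cd e, (∀ v, π v ∈ D) ∧ ∀ v ∈ D, π v = v := by
  obtain ⟨g, hg⟩ := D.subtype.exists_leftInverse_of_injective (by simp)
  refine ⟨LinearMap.toContinuousLinearMap (D.subtype.comp g), ?_, ?_⟩
  · intro v
    simp
  · intro v hv
    have h := LinearMap.congr_fun hg ⟨v, hv⟩
    simp only [LinearMap.coe_comp, Function.comp_apply, LinearMap.id_coe, id_eq,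
      Submodule.subtype_apply] at h
    simp [h]

omit [SecondCountableTopology X] [T2Space Y] in
/-- A map into a submanifold which is holomorphic along `Z` as a map into the ambient manifold is
holomorphic along `Z`: local extensions are composed with a local holomorphic retraction. -/
theorem pieceB_holOnSub {O : Set X} [ChartedSpace (Cd d) O] {T : Set Y} [ChartedSpace (Cd e') T]
    (hg : GoodSub d d O) (hgT : GoodSub e e' T)
    (hT : ∀ y ∈ T, ∃ (Φ : OpenPartialHomeomorph Y (Cd e)) (D : Submodule ℂ (Cd e)),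
      HolPH (Cd e) (Cd e) Φ ∧ y ∈ Φ.source ∧ Module.finrank ℂ D = e' ∧
        ∀ x ∈ Φ.source, (x ∈ T ↔ Φ x ∈ D))
    {f : X → Y} {Z : Set X} (hf : HolOnSub d e f Z) (u : O → T) (hu : ∀ x, (u x : Y) = f x) :
    HolOnSub d e' u (Subtype.val ⁻¹' Z : Set O) := by
  classical
  intro z hz
  obtain ⟨F, hF, hFf⟩ := sub_holOnSub hg hf z hz
  have hFz : F z = f z := hFf.self_of_nhds hz
  obtain ⟨Φ, D, hΦ, hzs, -, hTD⟩ := hT (u z) (u z).2
  obtain ⟨π, hπ1, hπ2⟩ := pieceB_proj D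
  have hΦz : Φ (u z) ∈ D := (hTD _ hzs).1 (u z).2
  have hFc : ContinuousAt F z := (hF.self_of_nhds).continuousAt
  have hFz' : F z = (u z : Y) := by rw [hFz, hu z]
  -- the good neighbourhood
  have e1 : ∀ᶠ x in 𝓝 z, F x ∈ Φ.source := by
    apply hFc.preimage_mem_nhds
    rw [hFz']
    exact Φ.open_source.mem_nhds hzs
  have e2 : ∀ᶠ x in 𝓝 z, π (Φ (F x)) ∈ Φ.target := by
    have h1 : ContinuousAt (fun x => π (Φ (F x))) z := by
      have h2 : ContinuousAt Φ (F z) := by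
        rw [hFz']
        exact Φ.continuousAt hzs
      exact π.continuous.continuousAt.comp (h2.comp hFc)
    apply h1.preimage_mem_nhds
    rw [hFz', hπ2 _ hΦz]
    exact Φ.open_target.mem_nhds (Φ.map_source hzs)
  have key : ∀ x : O, F x ∈ Φ.source → π (Φ (F x)) ∈ Φ.target → Φ.symm (π (Φ (F x))) ∈ T := by
    intro x _ h2
    rw [hTD _ (Φ.map_target h2), Φ.right_inv h2]
    exact hπ1 _
  let F' : O → T := fun x => if h : Φ.symm (π (Φ (F x))) ∈ T then ⟨Φ.symm (π (Φ (F x))), h⟩ else u z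
  have hF' : ∀ x : O, F x ∈ Φ.source → π (Φ (F x)) ∈ Φ.target →
      (F' x : Y) = Φ.symm (π (Φ (F x))) := by
    intro x h1 h2
    have h3 : F' x = ⟨Φ.symm (π (Φ (F x))), key x h1 h2⟩ := dif_pos (key x h1 h2)
    rw [h3]
  refine ⟨F', ?_, ?_⟩
  · filter_upwards [hF, (e1.and e2).eventually_nhds] with x hx hx2
    apply hgT.lift
    obtain ⟨h1, h2⟩ := hx2.self_of_nhds
    have h3 : MDifferentiableAt 𝓘(ℂ, Cd d) 𝓘(ℂ, Cd e) (Φ.symm ∘ (π ∘ (Φ ∘ F))) x := by
      apply MDifferentiableAt.comp x (hΦ.bwd _ h2)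
      apply MDifferentiableAt.comp x π.differentiableAt.mdifferentiableAt
      exact (hΦ.fwd _ h1).comp x hx
    refine h3.congr_of_eventuallyEq ?_
    filter_upwards [hx2] with q hq
    exact hF' q hq.1 hq.2
  · filter_upwards [hFf, e1, e2] with x hx h1 h2 hxZ
    have h3 : F x = (u x : Y) := by rw [hx hxZ, hu x]
    apply Subtype.ext
    have h4 : Φ (F x) ∈ D := by
      rw [← hTD _ h1, h3]
      exact (u x).2
    rw [hF' x h1 h2, hπ2 _ h4, Φ.left_inv h1, h3]

/-- The result for one piece. -/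
theorem pieceB_one (hA : HolAct d N act) (hB : HolAct e N actY) (hL : L.carrier ⊆ N.carrier)
    (hn : ∀ g ∈ N.carrier, ∀ h : Op n, g * h = 1 → ∀ l ∈ L.carrier, g * l * h ∈ L.carrier)
    (hP : PieceEOP p d e N L act actY) {Z : Set X} (hp : p = .b ∨ p = .a ∧ Z = ∅)
    (hZ : IsSubvariety d Z)
    (hZi : Invt N.carrier act Z) {f : X → Y} (hfc : Continuous f) (hfe : Eqvt N.K act actY f)
    (hfZ : HolOnSub d e f Z) (hfix : ∀ x, f x ∈ Fix L.carrier actY) (j : ℕ) :
    ∃ (g : X → Y) (H : unitInterval × X → Y),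
      (∀ x ∈ f ⁻¹' FixJ e L actY j, MDifferentiableAt 𝓘(ℂ, Cd d) 𝓘(ℂ, Cd e) g x) ∧
      (∀ a ∈ N.carrier, ∀ x ∈ f ⁻¹' FixJ e L actY j, g (act a x) = actY a (g x)) ∧
      (∀ t, ∀ x ∈ f ⁻¹' FixJ e L actY j, ContinuousAt H (t, x)) ∧
      (∀ x ∈ f ⁻¹' FixJ e L actY j, H (0, x) = f x) ∧
      (∀ x ∈ f ⁻¹' FixJ e L actY j, H (1, x) = g x) ∧
      (∀ t, ∀ a ∈ N.K, ∀ x ∈ f ⁻¹' FixJ e L actY j, H (t, act a x) = actY a (H (t, x))) ∧
      (∀ t, ∀ z ∈ Z, z ∈ f ⁻¹' FixJ e L actY j → H (t, z) = f z) := by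
  classical
  have hBL : HolAct e L actY := hB.restrict hL
  obtain ⟨hO, hC⟩ := isOpen_pre (e := e) hB hL hfc hfix j
  have hT : Invt N.carrier actY (FixJ e L actY j) := FixJ_invt hB hL hn j
  have hSK : Invt N.K act (f ⁻¹' FixJ e L actY j) := by
    intro a ha x hx
    show f (act a x) ∈ FixJ e L actY j
    rw [hfe a ha x]
    exact hT a ha.1 _ hx
  have hSN : Invt N.carrier act (f ⁻¹' FixJ e L actY j) := invt_of_clopen hA _ hO hC hSK
  obtain ⟨CS, hg⟩ := exists_open_goodSub (d := d) (f ⁻¹' FixJ e L actY j) hO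
  obtain ⟨CT, hgT⟩ := exists_subManifold (d := e) (d' := j) (FixJ e L actY j) (FixJ_flat hBL j)
  have hE := hP (f ⁻¹' FixJ e L actY j) j CS CT hO hC hSN hg hgT
  have hact : ∀ a ∈ N.carrier, ∀ x : f ⁻¹' FixJ e L actY j,
      (subAct (f ⁻¹' FixJ e L actY j) act a x : X) = act a x :=
    fun a ha x => subAct_val act (hSN a ha x x.2)
  have hactY : ∀ a ∈ N.carrier, ∀ y : FixJ e L actY j,
      (subAct (FixJ e L actY j) actY a y : Y) = actY a y :=
    fun a ha y => subAct_val actY (hT a ha y y.2)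
  obtain ⟨g, hgh, hge, H, hHc, hH0, hH1, hHP⟩ := hE.ab (Z := Subtype.val ⁻¹' Z)
    (hp.imp_right fun h => ⟨h.1, by rw [h.2, Set.preimage_empty]⟩) (sub_subvariety hg hZ) (by
      intro a ha x hx
      show (subAct (f ⁻¹' FixJ e L actY j) act a x : X) ∈ Z
      rw [hact a ha x]
      exact hZi a ha _ hx)
    (fun x => ⟨f x, x.2⟩) (by
      exact (hfc.comp continuous_subtype_val).subtype_mk _) (by
      intro a ha x
      apply Subtype.ext
      rw [hactY a ha.1]
      show f (subAct (f ⁻¹' FixJ e L actY j) act a x : X) = _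
      rw [hact a ha.1 x, hfe a ha])
    (pieceB_holOnSub hg hgT (FixJ_flat hBL j) hfZ _ fun x => rfl)
  let g' : X → Y := fun x => if h : x ∈ f ⁻¹' FixJ e L actY j then g ⟨x, h⟩ else f x
  let H' : unitInterval × X → Y := fun p =>
    if h : p.2 ∈ f ⁻¹' FixJ e L actY j then H (p.1, ⟨p.2, h⟩) else f p.2
  have hg' : ∀ x : f ⁻¹' FixJ e L actY j, g' x = g x := fun x => dif_pos x.2
  have hH' : ∀ (t : unitInterval) (x : f ⁻¹' FixJ e L actY j), H' (t, x) = H (t, x) :=
    fun t x => dif_pos x.2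
  refine ⟨g', H', ?_, ?_, ?_, ?_, ?_, ?_, ?_⟩
  · intro x hx
    have h1 : HolAt d j g ⟨x, hx⟩ := Filter.Eventually.of_forall hgh
    exact ((holAt_incl hO hg hgT g g' hg' ⟨x, hx⟩).1 h1).self_of_nhds
  · intro a ha x hx
    have h1 := hg' (subAct (f ⁻¹' FixJ e L actY j) act a ⟨x, hx⟩)
    rw [hact a ha, hge a ha, hactY a ha, ← hg' ⟨x, hx⟩] at h1
    exact h1
  · intro t x hx
    have h1 : Topology.IsOpenEmbedding (Prod.map id Subtype.val :
        unitInterval × (f ⁻¹' FixJ e L actY j) → unitInterval × X) :=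
      Topology.IsOpenEmbedding.id.prodMap hO.isOpenEmbedding_subtypeVal
    have h2 : ContinuousAt (H' ∘ (Prod.map id Subtype.val :
        unitInterval × (f ⁻¹' FixJ e L actY j) → unitInterval × X)) (t, ⟨x, hx⟩) := by
      have h3 : (H' ∘ (Prod.map id Subtype.val :
        unitInterval × (f ⁻¹' FixJ e L actY j) → unitInterval × X)) = fun p => (H p : Y) := by
        funext p
        exact hH' p.1 p.2
      rw [h3]
      exact (continuous_subtype_val.comp hHc).continuousAt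
    exact h1.continuousAt_iff.1 h2
  · intro x hx
    have h1 := hH' 0 ⟨x, hx⟩
    rw [hH0] at h1
    exact h1
  · intro x hx
    have h1 := hH' 1 ⟨x, hx⟩
    rw [hH1, ← hg'] at h1
    exact h1
  · intro t a ha x hx
    have h1 := hH' t (subAct (f ⁻¹' FixJ e L actY j) act a ⟨x, hx⟩)
    have h2 := (hHP t).1 a ha ⟨x, hx⟩
    simp only at h2
    rw [hact a ha.1, h2, hactY a ha.1, ← hH' t ⟨x, hx⟩] at h1
    exact h1
  · intro t z hz hzS
    have h1 := hH' t ⟨z, hzS⟩
    have h2 := (hHP t).2 ⟨z, hzS⟩ hz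
    simp only at h2
    rw [h2] at h1
    exact h1

theorem piece_partAB (hA : HolAct d N act) (hB : HolAct e N actY) (hL : L.carrier ⊆ N.carrier)
    (hn : ∀ g ∈ N.carrier, ∀ h : Op n, g * h = 1 → ∀ l ∈ L.carrier, g * l * h ∈ L.carrier)
    (ht : ∀ l ∈ L.carrier, ∀ x, act l x = x) (hP : PieceEOP p d e N L act actY) (Z : Set X)
    (hp : p = .b ∨ p = .a ∧ Z = ∅) (hZ : IsSubvariety d Z) (hZi : Invt N.carrier act Z) (f : X → Y)
    (hfc : Continuous f) (hfe : Eqvt N.K act actY f) (hfZ : HolOnSub d e f Z) :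
    ∃ g : X → Y, Hol d e g ∧ Eqvt N.carrier act actY g ∧
      Deforms (fun u => Eqvt N.K act actY u ∧ ∀ z ∈ Z, u z = f z) f g := by
  have hBL : HolAct e L actY := hB.restrict hL
  have hfix : ∀ x, f x ∈ Fix L.carrier actY := values_in_Fix hB hL ht hfe
  have hex : ∀ x, ∃ j, f x ∈ FixJ e L actY j := by
    intro x
    obtain ⟨j, hj⟩ := exists_flatAt hBL (f x) (hfix x)
    exact ⟨j, hfix x, hj⟩
  choose jx hjx using hex
  have huniq : ∀ x j, f x ∈ FixJ e L actY j → jx x = j :=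
    fun x j hj => flatAt_unique (hfix x) (hjx x).2 hj.2
  have hO : ∀ j, IsOpen (f ⁻¹' FixJ e L actY j) := fun j => (isOpen_pre (e := e) hB hL hfc hfix j).1
  have hC : ∀ j, IsClosed (f ⁻¹' FixJ e L actY j) :=
    fun j => (isOpen_pre (e := e) hB hL hfc hfix j).2
  have hT : ∀ j, Invt N.carrier actY (FixJ e L actY j) := fun j => FixJ_invt hB hL hn j
  have hSN : ∀ j, Invt N.carrier act (f ⁻¹' FixJ e L actY j) := by
    intro j
    refine invt_of_clopen hA _ (hO j) (hC j) ?_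
    intro a ha x hx
    show f (act a x) ∈ FixJ e L actY j
    rw [hfe a ha x]
    exact hT j a ha.1 _ hx
  choose g H h1 h2 h3 h4 h5 h6 h7 using
    pieceB_one hA hB hL hn hP hp hZ hZi hfc hfe hfZ hfix
  have hjn : ∀ x, ∀ᶠ y in 𝓝 x, jx y = jx x := by
    intro x
    filter_upwards [(hO (jx x)).mem_nhds (hjx x)] with y hy
    exact huniq y _ hy
  have hja : ∀ a ∈ N.carrier, ∀ x, jx (act a x) = jx x :=
    fun a ha x => huniq _ _ (hSN (jx x) a ha x (hjx x))
  refine ⟨fun x => g (jx x) x, ?_, ?_, fun p => H (jx p.2) p, ?_, ?_, ?_, ?_⟩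
  · intro x
    refine (h1 (jx x) x (hjx x)).congr_of_eventuallyEq ?_
    filter_upwards [hjn x] with y hy
    rw [hy]
  · intro a ha x
    show g (jx (act a x)) (act a x) = actY a (g (jx x) x)
    rw [hja a ha x]
    exact h2 (jx x) a ha x (hjx x)
  · rw [continuous_iff_continuousAt]
    rintro ⟨t, x⟩
    refine (h3 (jx x) t x (hjx x)).congr ?_
    have h8 : ∀ᶠ p : unitInterval × X in 𝓝 (t, x), jx p.2 = jx x :=
      (continuous_snd.tendsto (t, x)).eventually (hjn x)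
    filter_upwards [h8] with p hp
    rw [hp]
  · intro x
    exact h4 (jx x) x (hjx x)
  · intro x
    exact h5 (jx x) x (hjx x)
  · intro t
    refine ⟨?_, ?_⟩
    · intro a ha x
      show H (jx (act a x)) (t, act a x) = actY a (H (jx x) (t, x))
      rw [hja a ha.1 x]
      exact h6 (jx x) t a ha x (hjx x)
    · intro z hz
      exact h7 (jx z) t z hz (hjx z)

theorem piece_partA (hA : HolAct d N act) (hB : HolAct e N actY) (hL : L.carrier ⊆ N.carrier)
    (hn : ∀ g ∈ N.carrier, ∀ h : Op n, g * h = 1 → ∀ l ∈ L.carrier, g * l * h ∈ L.carrier)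
    (ht : ∀ l ∈ L.carrier, ∀ x, act l x = x) (hP : PieceEOP .a d e N L act actY) :
    PartA d e N act actY := by
  intro f hfc hf
  obtain ⟨g, hg1, hg2, H, hg3, hg4, hg5, hg6⟩ := piece_partAB hA hB hL hn ht hP ∅
    (Or.inr ⟨rfl, rfl⟩) ⟨isClosed_empty, fun z hz => absurd hz (notMem_empty z)⟩
    (fun _ _ x hx => absurd hx (notMem_empty x)) f hfc hf (fun z hz => absurd hz (notMem_empty z))
  exact ⟨g, hg1, hg2, H, hg3, hg4, hg5, fun t => (hg6 t).1⟩

theorem piece_partB (hA : HolAct d N act) (hB : HolAct e N actY) (hL : L.carrier ⊆ N.carrier)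
    (hn : ∀ g ∈ N.carrier, ∀ h : Op n, g * h = 1 → ∀ l ∈ L.carrier, g * l * h ∈ L.carrier)
    (ht : ∀ l ∈ L.carrier, ∀ x, act l x = x) (hP : PieceEOP .b d e N L act actY) :
    PartB d e N act actY := fun Z hZ hZi f hfc hf hfZ =>
  piece_partAB hA hB hL hn ht hP Z (Or.inl rfl) hZ hZi f hfc hf hfZ

end EqOka
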