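import Pool.Agent.Lib.MP_fe51c6_an_EO.Piece

/-! Part (c) from the pieces. -/

open scoped Manifold Topology
open Set

noncomputable section

namespace EqOka

variable {n d d' e e' : ℕ} {N L : RedGrp n} {X Y : Type} [TopologicalSpace X]
  [ChartedSpace (Cd d) X] [IsManifold 𝓘(ℂ, Cd d) 1 X] [T2Space X] [SecondCountableTopology X]
  {act : Op n → X → X} [TopologicalSpace Y] [ChartedSpace (Cd e) Y] [IsManifold 𝓘(ℂ, Cd e) 1 Y]
  [T2Space Y] {actY : Op n → Y → Y}

/-- Part (c), the holomorphy of the intermediate maps being required if `q` holds. -/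
private def PartCH (q : Prop) {n : ℕ} (d e : ℕ) (G : RedGrp n) {X Y : Type} [TopologicalSpace X]
    [ChartedSpace (Cd d) X] [TopologicalSpace Y] [ChartedSpace (Cd e) Y] (actX : Op n → X → X)
    (actY : Op n → Y → Y) : Prop :=
  ∀ Z : Set X, IsSubvariety d Z → Invt G.carrier actX Z →
  ∀ A : Set X, IsCompact A → Invt G.K actX A → hull d A ⊆ A →
  ∀ f : X → Y, Continuous f → Eqvt G.K actX actY f → (∀ x ∈ Z ∪ A, HolAt d e f x) →
  ∀ (ℓ : ℕ) (W : Set (X × Y)), IsOpen W → (∀ x ∈ A, (x, f x) ∈ W) →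
    ∃ g : X → Y, Hol d e g ∧ Eqvt G.carrier actX actY g ∧
      Deforms (fun u => Eqvt G.K actX actY u ∧ (q → ∀ x ∈ Z ∪ A, HolAt d e u x) ∧
        (∀ z ∈ Z, AgreeTo d e ℓ u f z) ∧ ∀ x ∈ A, (x, u x) ∈ W) f g

omit [IsManifold 𝓘(ℂ, Cd d) 1 X] [T2Space X] [SecondCountableTopology X]
  [IsManifold 𝓘(ℂ, Cd e) 1 Y] [T2Space Y] in
private theorem partCH_true : PartCH True d e N act actY ↔ PartC d e N act actY := by
  simp only [PartCH, PartC, true_imp_iff]

omit [IsManifold 𝓘(ℂ, Cd d) 1 X] [T2Space X] [SecondCountableTopology X]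
  [IsManifold 𝓘(ℂ, Cd e) 1 Y] [T2Space Y] in
private theorem partCH_false : PartCH False d e N act actY ↔ PartC0 d e N act actY := by
  simp only [PartCH, PartC0, false_imp_iff, true_and]

/-- The same for all pieces. -/
private def PieceCH (q : Prop) {n : ℕ} (d e : ℕ) (N L : RedGrp n) {X Y : Type} [TopologicalSpace X]
    [ChartedSpace (Cd d) X] [TopologicalSpace Y] [ChartedSpace (Cd e) Y] (act : Op n → X → X)
    (actY : Op n → Y → Y) : Prop :=
  ∀ (S : Set X) (j : ℕ) (_ : ChartedSpace (Cd d) S) (_ : ChartedSpace (Cd j) (FixJ e L actY j)),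
    IsOpen S → IsClosed S → Invt N.carrier act S → GoodSub d d S →
      GoodSub e j (FixJ e L actY j) →
        PartCH q d j N (subAct S act) (subAct (FixJ e L actY j) actY)

omit [ChartedSpace (Cd d) X] [IsManifold 𝓘(ℂ, Cd d) 1 X] [T2Space X] [SecondCountableTopology X]
  [T2Space Y] in
private theorem pieceC_continuous {F : ℕ → Set X} (ho : ∀ j, IsOpen (F j)) (hF : ∀ x, ∃ j, x ∈ F j)
    (H : unitInterval × X → Y) (Hj : ∀ j, unitInterval × F j → Y) (hc : ∀ j, Continuous (Hj j))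
    (hH : ∀ j (t : unitInterval) (x : F j), H (t, x) = Hj j (t, x)) : Continuous H := by
  rw [continuous_iff_continuousAt]
  rintro ⟨t, x⟩
  obtain ⟨j, hj⟩ := hF x
  have hemb : Topology.IsOpenEmbedding (Prod.map id Subtype.val : unitInterval × F j →
      unitInterval × X) :=
    Topology.IsOpenEmbedding.id.prodMap (ho j).isOpenEmbedding_subtypeVal
  have h1 : ContinuousAt (H ∘ (Prod.map id Subtype.val : unitInterval × F j →
      unitInterval × X)) (t, ⟨x, hj⟩) := by
    have h2 : H ∘ (Prod.map id Subtype.val : unitInterval × F j → unitInterval × X) = Hj j := by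
      funext p
      exact hH j p.1 p.2
    rw [h2]
    exact (hc j).continuousAt
  exact hemb.continuousAt_iff.1 h1

private theorem pieceC_one {q : Prop} (hA : HolAct d N act) (hB : HolAct e N actY)
    (hL : L.carrier ⊆ N.carrier)
    (hn : ∀ g ∈ N.carrier, ∀ h : Op n, g * h = 1 → ∀ l ∈ L.carrier, g * l * h ∈ L.carrier)
    (hP : PieceCH q d e N L act actY)
    {Z : Set X} (hZ : IsSubvariety d Z) (hZi : Invt N.carrier act Z) {A : Set X}
    (hAc : IsCompact A) (hAi : Invt N.K act A) (hAh : hull d A ⊆ A) {f : X → Y}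
    (hf : Continuous f) (hfe : Eqvt N.K act actY f) (hfh : ∀ x ∈ Z ∪ A, HolAt d e f x) (ℓ : ℕ)
    {W : Set (X × Y)} (hW : IsOpen W) (hfW : ∀ x ∈ A, (x, f x) ∈ W)
    (hfF : ∀ x, f x ∈ Fix L.carrier actY) (j : ℕ) (S : Set X) (hS : S = f ⁻¹' FixJ e L actY j) :
    IsOpen S ∧ Invt N.carrier act S ∧ ∃ (g : S → Y) (H : unitInterval × S → Y), Continuous H ∧
      (∀ x, H (0, x) = f x) ∧ (∀ x, H (1, x) = g x) ∧
      (∀ (x : S) (g' : X → Y), (∀ y : S, g' y = g y) → HolAt d e g' x) ∧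
      (∀ k ∈ N.carrier, ∀ (x : S) (hx : act k x ∈ S), g ⟨act k x, hx⟩ = actY k (g x)) ∧
      ∀ t : unitInterval,
        (∀ k ∈ N.K, ∀ (x : S) (hx : act k x ∈ S), H (t, ⟨act k x, hx⟩) = actY k (H (t, x))) ∧
        (q → ∀ x : S, (x : X) ∈ Z ∪ A → ∀ u' : X → Y, (∀ y : S, u' y = H (t, y)) →
          HolAt d e u' x) ∧
        (∀ z : S, (z : X) ∈ Z → ∀ u' : X → Y, (∀ y : S, u' y = H (t, y)) →
          AgreeTo d e ℓ u' f z) ∧
        ∀ x : S, (x : X) ∈ A → ((x : X), H (t, x)) ∈ W := by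
  have hBL : HolAct e L actY := hB.restrict hL
  obtain ⟨ho, hcl⟩ := isOpen_pre hB hL hf hfF j
  rw [← hS] at ho hcl
  have hTi : Invt N.carrier actY (FixJ e L actY j) := FixJ_invt hB hL hn j
  have hSK : Invt N.K act S := by
    intro k hk x hx
    rw [hS] at hx ⊢
    show f (act k x) ∈ FixJ e L actY j
    rw [hfe k hk x]
    exact hTi k hk.1 _ hx
  have hSi : Invt N.carrier act S := invt_of_clopen hA S ho hcl hSK
  refine ⟨ho, hSi, ?_⟩
  obtain ⟨cs, hg⟩ := exists_open_goodSub (d := d) S ho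
  obtain ⟨ct, hgT⟩ := exists_subManifold (d' := j) (FixJ e L actY j) (FixJ_flat hBL j)
  have hmem : ∀ x : S, f x ∈ FixJ e L actY j := by
    intro x
    exact (Set.ext_iff.1 hS (x : X)).1 x.2
  have hval : ∀ k ∈ N.carrier, ∀ x : S, (subAct S act k x : X) = act k x :=
    fun k hk x => subAct_val act (hSi k hk x x.2)
  have hvalT : ∀ k ∈ N.carrier, ∀ y : FixJ e L actY j,
      (subAct (FixJ e L actY j) actY k y : Y) = actY k y :=
    fun k hk y => subAct_val actY (hTi k hk y y.2)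
  let fj : S → FixJ e L actY j := fun x => ⟨f x, hmem x⟩
  have hfj : Continuous fj := (hf.comp continuous_subtype_val).subtype_mk _
  have hfjh : ∀ x : S, (x : X) ∈ Z ∪ A → HolAt d j fj x := fun x hx =>
    (holAt_incl ho hg hgT fj f (fun _ => rfl) x).2 (hfh x hx)
  have hPC := hP S j cs ct ho hcl hSi hg hgT
  obtain ⟨g, hgh, hge, H, hH, hH0, hH1, hHP⟩ := hPC (Subtype.val ⁻¹' Z) (sub_subvariety hg hZ)
    (by
      intro k hk x hx
      show (subAct S act k x : X) ∈ Z
      rw [hval k hk]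
      exact hZi k hk x hx)
    (Subtype.val ⁻¹' A) (hcl.isClosedEmbedding_subtypeVal.isCompact_preimage hAc)
    (by
      intro k hk x hx
      show (subAct S act k x : X) ∈ A
      rw [hval k hk.1]
      exact hAi k hk x hx)
    (by
      intro x hx
      show (x : X) ∈ A
      refine hAh fun F hF C hC => ?_
      exact hx (fun y : S => F y) (sub_holFun hg hF) C fun a ha => hC _ ha)
    fj hfj
    (by
      intro k hk x
      apply Subtype.ext
      rw [hvalT k hk.1]
      show f (subAct S act k x : X) = actY k (f x)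
      rw [hval k hk.1]
      exact hfe k hk x)
    (fun x hx => hfjh x hx) ℓ {p | ((p.1 : X), (p.2 : Y)) ∈ W}
    (hW.preimage ((continuous_subtype_val.comp continuous_fst).prodMk
      (continuous_subtype_val.comp continuous_snd)))
    (fun x hx => hfW x hx)
  have hHt : ∀ t : unitInterval, Continuous fun x : S => H (t, x) :=
    fun t => hH.comp (Continuous.prodMk_right t)
  refine ⟨fun x => g x, fun p => H p, continuous_subtype_val.comp hH, ?_, ?_, ?_, ?_, ?_⟩
  · intro x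
    exact congrArg Subtype.val (hH0 x)
  · intro x
    exact congrArg Subtype.val (hH1 x)
  · intro x g' hg'
    refine (holAt_incl ho hg hgT g g' hg' x).1 ?_
    exact Filter.Eventually.of_forall fun y => hgh y
  · intro k hk x hx
    have h1 : (⟨act k x, hx⟩ : S) = subAct S act k x := Subtype.ext (hval k hk x).symm
    show (g ⟨act k x, hx⟩ : Y) = actY k (g x)
    rw [h1, hge k hk x, hvalT k hk]
  · intro t
    obtain ⟨h1, h2, h3, h4⟩ := hHP t
    refine ⟨?_, ?_, ?_, ?_⟩
    · intro k hk x hx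
      have h5 : (⟨act k x, hx⟩ : S) = subAct S act k x := Subtype.ext (hval k hk.1 x).symm
      have h6 : H (t, subAct S act k x) = subAct (FixJ e L actY j) actY k (H (t, x)) := h1 k hk x
      show (H (t, ⟨act k x, hx⟩) : Y) = actY k (H (t, x))
      rw [h5, h6, hvalT k hk.1]
    · intro hq x hx u' hu'
      exact (holAt_incl ho hg hgT (fun y => H (t, y)) u' hu' x).1 (h2 hq x hx)
    · intro z hz u' hu'
      exact agree_incl ho hg hgT ℓ (fun y => H (t, y)) fj u' f hu' (fun _ => rfl) z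
        (hHt t).continuousAt hfj.continuousAt (h3 z hz)
    · intro x hx
      exact h4 x hx

private theorem piece_partCH {q : Prop} (hA : HolAct d N act) (hB : HolAct e N actY)
    (hL : L.carrier ⊆ N.carrier)
    (hn : ∀ g ∈ N.carrier, ∀ h : Op n, g * h = 1 → ∀ l ∈ L.carrier, g * l * h ∈ L.carrier)
    (ht : ∀ l ∈ L.carrier, ∀ x, act l x = x) (hP : PieceCH q d e N L act actY) :
    PartCH q d e N act actY := by
  intro Z hZ hZi A hAc hAi hAh f hf hfe hfh ℓ W hW hfW
  have hfF : ∀ x, f x ∈ Fix L.carrier actY := values_in_Fix hB hL ht hfe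
  have hBL : HolAct e L actY := hB.restrict hL
  let S : ℕ → Set X := fun j => f ⁻¹' FixJ e L actY j
  have hone := fun j => pieceC_one hA hB hL hn hP hZ hZi hAc hAi hAh hf hfe hfh ℓ hW hfW hfF j
    (S j) rfl
  choose ho hSi g H hH hH0 hH1 hgh hge hHP using hone
  have hex : ∀ x, ∃ j, x ∈ S j := by
    intro x
    obtain ⟨j, hj⟩ := exists_flatAt hBL (f x) (hfF x)
    exact ⟨j, hfF x, hj⟩
  choose J hJ using hex
  have hJu : ∀ x j, x ∈ S j → J x = j := by
    intro x j hx
    exact flatAt_unique (hfF x) (hJ x).2 hx.2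
  let g' : X → Y := fun x => g (J x) ⟨x, hJ x⟩
  let H' : unitInterval × X → Y := fun p => H (J p.2) (p.1, ⟨p.2, hJ p.2⟩)
  have hg' : ∀ j (x : S j), g' x = g j x := by
    rintro j ⟨x, hx⟩
    have h1 := hJu x j hx
    subst h1
    rfl
  have hH' : ∀ j (t : unitInterval) (x : S j), H' (t, x) = H j (t, x) := by
    rintro j t ⟨x, hx⟩
    have h1 := hJu x j hx
    subst h1
    rfl
  refine ⟨g', ?_, ?_, H', ?_, ?_, ?_, ?_⟩
  · intro x
    exact (hgh (J x) ⟨x, hJ x⟩ g' (hg' (J x))).self_of_nhds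
  · intro k hk x
    have h1 : act k x ∈ S (J x) := hSi (J x) k hk x (hJ x)
    have h2 := hg' (J x) ⟨act k x, h1⟩
    exact h2.trans (hge (J x) k hk ⟨x, hJ x⟩ h1)
  · exact pieceC_continuous ho (fun x => ⟨J x, hJ x⟩) H' H hH hH'
  · intro x
    exact hH0 (J x) ⟨x, hJ x⟩
  · intro x
    exact hH1 (J x) ⟨x, hJ x⟩
  · intro t
    refine ⟨?_, ?_, ?_, ?_⟩
    · intro k hk x
      have h1 : act k x ∈ S (J x) := hSi (J x) k hk.1 x (hJ x)
      have h2 := hH' (J x) t ⟨act k x, h1⟩
      exact h2.trans ((hHP (J x) t).1 k hk ⟨x, hJ x⟩ h1)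
    · intro hq x hx
      exact (hHP (J x) t).2.1 hq ⟨x, hJ x⟩ hx _ (hH' (J x) t)
    · intro z hz
      exact (hHP (J z) t).2.2.1 ⟨z, hJ z⟩ hz _ (hH' (J z) t)
    · intro x hx
      exact (hHP (J x) t).2.2.2 ⟨x, hJ x⟩ hx

theorem piece_partC (hA : HolAct d N act) (hB : HolAct e N actY) (hL : L.carrier ⊆ N.carrier)
    (hn : ∀ g ∈ N.carrier, ∀ h : Op n, g * h = 1 → ∀ l ∈ L.carrier, g * l * h ∈ L.carrier)
    (ht : ∀ l ∈ L.carrier, ∀ x, act l x = x) (hP : PieceEOP .c d e N L act actY) :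
    PartC d e N act actY :=
  partCH_true.1 (piece_partCH hA hB hL hn ht fun S j cs ct ho hcl hSi hg hgT =>
    partCH_true.2 (hP S j cs ct ho hcl hSi hg hgT))

theorem piece_partC0 (hA : HolAct d N act) (hB : HolAct e N actY) (hL : L.carrier ⊆ N.carrier)
    (hn : ∀ g ∈ N.carrier, ∀ h : Op n, g * h = 1 → ∀ l ∈ L.carrier, g * l * h ∈ L.carrier)
    (ht : ∀ l ∈ L.carrier, ∀ x, act l x = x) (hP : PieceEOP .c0 d e N L act actY) :
    PartC0 d e N act actY :=
  partCH_false.1 (piece_partCH hA hB hL hn ht fun S j cs ct ho hcl hSi hg hgT =>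
    partCH_false.2 (hP S j cs ct ho hcl hSi hg hgT))

end EqOka
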