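import Pool.Agent.Lib.MP_fe51c6_an_EO.Stmt
import Pool.Agent.Lib.MP_fe51c6_an_EO.PieceB
import Pool.Agent.Lib.MP_fe51c6_an_EO.PieceC
import Pool.Agent.Lib.MP_fe51c6_an_EO.OkaCl
import Pool.Agent.Lib.MP_fe51c6_an_EO.FinClosed
import Pool.Agent.Lib.MP_fe51c6_an_EO.Final

/-! Finite stabilisers modulo `L` from finite stabilisers, and closedness of the orbits. -/

open scoped Manifold Topology

namespace EqOka

/-- Restriction of an action with finite stabilisers modulo `L` to an invariant subset. -/
private theorem MainB_finiteStab {n : ℕ} {G L : RedGrp n} {X : Type} [TopologicalSpace X]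
    [T2Space X] {act : Op n → X → X}
    (hF : FiniteStab G L act) {S : Set X} (hS : Invt G.carrier act S) :
    FiniteStab G L (subAct S act) := by
  refine ⟨hF.le, hF.normal, ?_, ?_⟩
  · intro l hl x
    exact Subtype.ext ((subAct_val act (hS l (hF.le hl) x x.2)).trans (hF.trivial l hl x))
  · intro x
    obtain ⟨T, hT, hTG, h⟩ := hF.finite (x : X)
    refine ⟨T, hT, hTG, fun g hg hgx => h g hg ?_⟩
    rw [← subAct_val act (hS g hg x x.2), hgx]

theorem finiteMod_of_finite {p : Part} (h : EOPFinite p) : EOPFiniteMod p := by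
  intro n d e G L X _ _ _ _ _ Y _ _ _ _ _ actX actY hX hA hB hO _ hF
  obtain ⟨n', π, dπ, hQ⟩ := exists_QRep hF.le hF.normal
  obtain ⟨M, hM⟩ := exists_QGrp hQ hF.le hF.normal
  have hP : PieceEOP p d e G L actX actY := by
    intro S j instS instJ _ hSc hSi hgS hgJ
    have := hgS.mfd
    have := hgJ.mfd
    have hJi := FixJ_invt hB hF.le hF.normal j
    have hFS := MainB_finiteStab hF hSi
    have hA' : HolAct d G (subAct S actX) := sub_holAct hA subset_rfl hSi hgS
    have hB' : HolAct j G (subAct (FixJ e L actY j) actY) := sub_holAct hB subset_rfl hJi hgJ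
    have htY : ∀ l ∈ L.carrier, ∀ y, subAct (FixJ e L actY j) actY l y = y := by
      intro l hl y
      exact Subtype.ext ((subAct_val actY (hJi l (hF.le hl) y y.2)).trans (y.2.1 l hl))
    refine quot_EOP hM hQ hF.le hA' hFS.trivial hB' htY ?_
    exact h n' d j M S (FixJ e L actY j) (quotAct G π (subAct S actX))
      (quotAct G π (subAct (FixJ e L actY j) actY)) (sub_stein hX hSc hgS)
      (quot_holAct hM hQ hF.le hF.normal hA' hFS.trivial)
      (quot_holAct hM hQ hF.le hF.normal hB' htY)
      (gOka_FixJ hM hQ hF.le hF.normal hB hO j hgJ) (fun x => quot_finite hM hQ hA' hFS x)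
  cases p
  · exact piece_partA hA hB hF.le hF.normal hF.trivial hP
  · exact piece_partB hA hB hF.le hF.normal hF.trivial hP
  · exact piece_partC hA hB hF.le hF.normal hF.trivial hP
  · exact piece_partC0 hA hB hF.le hF.normal hF.trivial hP

theorem finite_of_closed {p : Part} (h : EOPClosed p) : EOPFinite p := by
  intro n d e G X _ _ _ _ _ Y _ _ _ _ _ actX actY hX hA hB hO hF
  exact h n d e G X Y actX actY hX hA hB hO (closedOrbits_of_finite hX hA hF)

end EqOka
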