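import Pool.Agent.Lib.MP_fe51c6_an_EO.Public
import Pool.Agent.Lib.MP_fe51c6_an_EO.MainA
import Pool.Agent.Lib.MP_fe51c6_an_EO.MainB

/-! Translation between the public definitions and the ones used in the proof. -/

open scoped Manifold Topology

noncomputable section

namespace EquivOka

/-- A public reductive group as one of the groups used in the proof. -/
def toInt {n : ℕ} (G : RedGrp n) : EqOka.RedGrp n where
  carrier := G.carrier
  lie := G.lie
  one_mem := G.one_mem
  mul_mem := G.mul_mem
  inv_mem := G.inv_mem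
  closed := G.closed
  lie_iff := G.lie_iff
  polar := G.polar

/-- The inverse of `toInt`. -/
def ofInt {n : ℕ} (G : EqOka.RedGrp n) : RedGrp n where
  carrier := G.carrier
  lie := G.lie
  one_mem := G.one_mem
  mul_mem := G.mul_mem
  inv_mem := G.inv_mem
  closed := G.closed
  lie_iff := G.lie_iff
  polar := G.polar

section

variable {n : ℕ} {d e : ℕ} {X Y : Type} [TopologicalSpace X] [ChartedSpace (Cd d) X]
  [TopologicalSpace Y] [ChartedSpace (Cd e) Y]

theorem isStein_iff : IsStein d X ↔ EqOka.IsStein d X :=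
  ⟨fun h => ⟨h.convex, h.separates⟩, fun h => ⟨h.convex, h.separates⟩⟩

theorem holAct_to {G : RedGrp n} {act : Mat n → X → X} (h : HolAct d G act) :
    EqOka.HolAct d (toInt G) act :=
  ⟨h.one, h.mul, h.cont, h.hol, h.hol_exp⟩

theorem holAct_of {G : EqOka.RedGrp n} {act : Mat n → X → X} (h : EqOka.HolAct d G act) :
    HolAct d (ofInt G) act :=
  ⟨h.one, h.mul, h.cont, h.hol, h.hol_exp⟩

theorem gOka_to {G : RedGrp n} {act : Mat n → Y → Y} (h : GOka e G act) :
    EqOka.GOka e (toInt G) act := fun H hH => h (ofInt H) hH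

theorem gOka_of {G : EqOka.RedGrp n} {act : Mat n → Y → Y} (h : EqOka.GOka e G act) :
    GOka e (ofInt G) act := fun H hH => h (toInt H) hH

/-- The parts of the principle in the two versions. -/
def toPart : Part → EqOka.Part
  | .a => .a
  | .b => .b
  | .c => .c0
  | .c' => .c

theorem eop_to {p : Part} {G : RedGrp n} {actX : Mat n → X → X} {actY : Mat n → Y → Y}
    (h : EqOka.EOP (toPart p) d e (toInt G) actX actY) : EOP d e G p actX actY := by
  cases p
  · exact h
  · exact h
  · exact h
  · exact h

theorem eop_of {p : Part} {G : EqOka.RedGrp n} {actX : Mat n → X → X} {actY : Mat n → Y → Y}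
    (h : EOP d e (ofInt G) p actX actY) : EqOka.EOP (toPart p) d e G actX actY := by
  cases p
  · exact h
  · exact h
  · exact h
  · exact h

end

theorem closed_iff (p : Part) : EOPClosedOrbits p ↔ EqOka.EOPClosed (toPart p) := by
  constructor
  · intro h n d e G X _ _ _ _ _ Y _ _ _ _ _ actX actY hX hA hB hO hc
    exact eop_of (h n d e (ofInt G) X Y actX actY (isStein_iff.2 hX) (holAct_of hA) (holAct_of hB)
      (gOka_of hO) hc)
  · intro h n d e G X _ _ _ _ _ Y _ _ _ _ _ actX actY hX hA hB hO hc
    exact eop_to (h n d e (toInt G) X Y actX actY (isStein_iff.1 hX) (holAct_to hA) (holAct_to hB)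
      (gOka_to hO) hc)

theorem finite_iff (p : Part) : EOPFiniteStabilisers p ↔ EqOka.EOPFinite (toPart p) := by
  constructor
  · intro h n d e G X _ _ _ _ _ Y _ _ _ _ _ actX actY hX hA hB hO hc
    exact eop_of (h n d e (ofInt G) X Y actX actY (isStein_iff.2 hX) (holAct_of hA) (holAct_of hB)
      (gOka_of hO) hc)
  · intro h n d e G X _ _ _ _ _ Y _ _ _ _ _ actX actY hX hA hB hO hc
    exact eop_to (h n d e (toInt G) X Y actX actY (isStein_iff.1 hX) (holAct_to hA) (holAct_to hB)
      (gOka_to hO) hc)

theorem closed_iff_finite (p : Part) : EOPClosedOrbits p ↔ EOPFiniteStabilisers p :=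
  (closed_iff p).trans ⟨fun h => (finite_iff p).2 (EqOka.finite_of_closed h),
    fun h => EqOka.closed_of_finiteMod (EqOka.finiteMod_of_finite ((finite_iff p).1 h))⟩

end EquivOka
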