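import Pool.Agent.Lib.MP_fe51c6_an_EO.Agree

/-! The composition lemma for a map which is Hölder continuous with exponent `1/2`. -/

open scoped Manifold Topology

noncomputable section

namespace EqOka

variable {n d' e : ℕ} {G : RedGrp n} {S Y : Type} [TopologicalSpace S] [ChartedSpace (Cd d') S]
  [IsManifold 𝓘(ℂ, Cd d') 1 S] [TopologicalSpace Y] [ChartedSpace (Cd e) Y]
  [IsManifold 𝓘(ℂ, Cd e) 1 Y] {actY : Op n → Y → Y}

theorem AgreeTo.comp_act_half (hB : HolAct e G actY) {ℓ : ℕ} {a b : S → Y} {r : S → S}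
    {ξ : S → Op n} {m : S} (hr : ContinuousAt r m) (hrm : r m = m) (hξ : ContinuousAt ξ m)
    (hξm : ∀ x, ξ x ∈ G.lie) (C : ℝ) (hC : ∀ᶠ s in 𝓝 m,
      ‖chartAt (Cd d') m (r s) - chartAt (Cd d') m m‖ ^ 2 ≤
        C * ‖chartAt (Cd d') m s - chartAt (Cd d') m m‖)
    (ha : ContinuousAt a m) (hb : ContinuousAt b m) (h : AgreeTo d' e (2 * ℓ + 1) a b m) :
    AgreeTo d' e ℓ (fun x => actY (NormedSpace.exp (ξ x)) (a (r x)))
      (fun x => actY (NormedSpace.exp (ξ x)) (b (r x))) m := by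
  obtain ⟨c, _, hc⟩ := G.exists_coord
  refine ⟨by simp only [hrm, h.1], ?_⟩
  simp only [hrm]
  have hΘ : ∀ᶠ q in 𝓝 (c (ξ m), chartAt (Cd e) (b m) (b m)),
      MDifferentiableAt 𝓘(ℂ, Cd G.dim × Cd e) 𝓘(ℂ, Cd e)
      (fun q : Cd G.dim × Cd e => actY (NormedSpace.exp (G.bas q.1))
        ((chartAt (Cd e) (b m)).symm q.2)) q := by
    have ht : ∀ᶠ q in 𝓝 (c (ξ m), chartAt (Cd e) (b m) (b m)),
        q.2 ∈ (chartAt (Cd e) (b m)).target := by
      refine (continuous_snd.tendsto _).eventually_mem ?_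
      exact (chartAt (Cd e) (b m)).open_target.mem_nhds
        ((chartAt (Cd e) (b m)).map_source (mem_chart_source _ _))
    filter_upwards [ht] with q hq
    refine hB.mdiff 𝓘(ℂ, Cd G.dim × Cd e) (fun q : Cd G.dim × Cd e => G.bas q.1)
      (fun q : Cd G.dim × Cd e => (chartAt (Cd e) (b m)).symm q.2) q
      (fun q => G.bas_mem q.1) ?_ ?_
    · rw [mdifferentiableAt_iff_differentiableAt]
      exact G.bas.differentiableAt.comp q differentiableAt_fst
    · refine MDifferentiableAt.comp q (mdifferentiableAt_atlas_symm (chart_mem_atlas _ _) hq) ?_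
      rw [mdifferentiableAt_iff_differentiableAt]
      exact differentiableAt_snd
  have hsc : Filter.Tendsto r (𝓝 m) (𝓝 m) := by
    have h0 : Filter.Tendsto r (𝓝 m) (𝓝 (r m)) := hr
    rwa [hrm] at h0
  have hα : Filter.Tendsto (fun x => a (r x)) (𝓝 m) (𝓝 (b m)) := by
    rw [← h.1]
    exact ha.tendsto.comp hsc
  have hβ : Filter.Tendsto (fun x => b (r x)) (𝓝 m) (𝓝 (b m)) := hb.tendsto.comp hsc
  have hπ : Filter.Tendsto (fun x => c (ξ x)) (𝓝 m) (𝓝 (c (ξ m))) :=
    (c.continuous.tendsto _).comp hξ.tendsto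
  have h1 := Agree.isBigO_family (Θ := fun v y => actY (NormedSpace.exp (G.bas v)) y) hΘ hπ hα hβ
  simp only [hc _ (hξm _)] at h1
  refine h1.trans ((h.2.comp_tendsto hsc).trans ?_)
  have h2 : (fun x => ‖chartAt (Cd d') m (r x) - chartAt (Cd d') m m‖ ^ 2) =O[𝓝 m]
      (fun x => ‖chartAt (Cd d') m x - chartAt (Cd d') m m‖) := by
    refine Asymptotics.IsBigO.of_bound C ?_
    filter_upwards [hC] with x hx
    rw [norm_norm, Real.norm_of_nonneg (sq_nonneg _)]
    exact hx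
  have h3 := h2.pow (ℓ + 1)
  refine h3.congr_left fun x => ?_
  simp only [Function.comp_apply]
  rw [← pow_mul]
  congr 1

end EqOka
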