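import Pool.Agent.Lib.MP_fe51c6_an_EO.Grp

/-! The closed subgroup theorem, for compact groups of matrices. -/

open scoped Topology
open Set

noncomputable section

namespace EqOka

namespace ClosedSubAux

variable {A : Type*} [NormedRing A] [NormedAlgebra ℝ A] [FiniteDimensional ℝ A]

theorem exp_neg_mul (ξ : A) : NormedSpace.exp (-ξ) * NormedSpace.exp ξ = 1 ∧
    NormedSpace.exp ξ * NormedSpace.exp (-ξ) = 1 := by
  have : CompleteSpace A := FiniteDimensional.complete ℝ A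
  let _ : NormedAlgebra ℚ A := NormedAlgebra.restrictScalars ℚ ℝ A
  constructor
  · rw [← NormedSpace.exp_add_of_commute (Commute.refl ξ).neg_left, neg_add_cancel,
      NormedSpace.exp_zero]
  · rw [← NormedSpace.exp_add_of_commute (Commute.refl ξ).neg_right, add_neg_cancel,
      NormedSpace.exp_zero]

theorem exp_nsmul' (ξ : A) (k : ℕ) : NormedSpace.exp (k • ξ) = NormedSpace.exp ξ ^ k := by
  have : CompleteSpace A := FiniteDimensional.complete ℝ A
  let _ : NormedAlgebra ℚ A := NormedAlgebra.restrictScalars ℚ ℝ A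
  exact NormedSpace.exp_nsmul k ξ

theorem exp_continuous : Continuous (NormedSpace.exp : A → A) := by
  have : CompleteSpace A := FiniteDimensional.complete ℝ A
  let _ : NormedAlgebra ℚ A := NormedAlgebra.restrictScalars ℚ ℝ A
  exact NormedSpace.exp_continuous

/-- the limit direction belongs to the Lie algebra -/
theorem limit_mem (H : Set A) (hH : IsClosed H) (h1 : (1 : A) ∈ H)
    (hmul : ∀ a ∈ H, ∀ b ∈ H, a * b ∈ H) (hinv : ∀ a ∈ H, ∃ b ∈ H, a * b = 1 ∧ b * a = 1)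
    (z : ℕ → A) (hz0 : ∀ j, z j ≠ 0) (hz : Filter.Tendsto z Filter.atTop (𝓝 0))
    (hzH : ∀ j, NormedSpace.exp (z j) ∈ H) (ζ : A)
    (hζ : Filter.Tendsto (fun j => ‖z j‖⁻¹ • z j) Filter.atTop (𝓝 ζ)) (t : ℝ) :
    NormedSpace.exp (t • ζ) ∈ H := by
  have key : ∀ t : ℝ, 0 ≤ t → NormedSpace.exp (t • ζ) ∈ H := by
    intro t ht
    have hpow : ∀ a ∈ H, ∀ k : ℕ, a ^ k ∈ H := by
      intro a ha k
      induction k with
      | zero => rw [pow_zero]; exact h1
      | succ k ih => rw [pow_succ]; exact hmul _ ih _ ha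
    have hn0 : Filter.Tendsto (fun j => ‖z j‖) Filter.atTop (𝓝 0) := by
      have := hz.norm
      rwa [norm_zero] at this
    have h2 : Filter.Tendsto (fun j => (⌊t / ‖z j‖⌋₊ : ℝ) * ‖z j‖) Filter.atTop (𝓝 t) := by
      rw [tendsto_iff_norm_sub_tendsto_zero]
      refine squeeze_zero (fun _ => norm_nonneg _) (fun j => ?_) hn0
      have hp : 0 < ‖z j‖ := norm_pos_iff.2 (hz0 j)
      have h3 : (⌊t / ‖z j‖⌋₊ : ℝ) ≤ t / ‖z j‖ := Nat.floor_le (div_nonneg ht hp.le)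
      have h4 : t / ‖z j‖ < ⌊t / ‖z j‖⌋₊ + 1 := Nat.lt_floor_add_one _
      have h5 : (⌊t / ‖z j‖⌋₊ : ℝ) * ‖z j‖ ≤ t := by
        rwa [le_div_iff₀ hp] at h3
      have h6 : t < (⌊t / ‖z j‖⌋₊ + 1) * ‖z j‖ := by
        rwa [div_lt_iff₀ hp] at h4
      rw [Real.norm_eq_abs, abs_le]
      constructor
      · linarith
      · linarith
    have h3 : Filter.Tendsto (fun j => ((⌊t / ‖z j‖⌋₊ : ℝ) * ‖z j‖) • (‖z j‖⁻¹ • z j))
        Filter.atTop (𝓝 (t • ζ)) := h2.smul hζ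
    have h4 := (exp_continuous (A := A)).continuousAt.tendsto.comp h3
    refine hH.mem_of_tendsto h4 (Filter.Eventually.of_forall fun j => ?_)
    have hp : ‖z j‖ ≠ 0 := norm_ne_zero_iff.2 (hz0 j)
    have h5 : ((⌊t / ‖z j‖⌋₊ : ℝ) * ‖z j‖) • (‖z j‖⁻¹ • z j) = ⌊t / ‖z j‖⌋₊ • z j := by
      rw [smul_smul, mul_assoc, mul_inv_cancel₀ hp, mul_one, Nat.cast_smul_eq_nsmul]
    simp only [Function.comp_apply, h5]
    rw [exp_nsmul']
    exact hpow _ (hzH j) _
  rcases le_total 0 t with ht | ht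
  · exact key t ht
  · have h2 := key (-t) (by linarith)
    obtain ⟨b, hb, hb1, _⟩ := hinv _ h2
    have h3 : NormedSpace.exp (t • ζ) = b := by
      have h4 := (exp_neg_mul ((-t) • ζ)).1
      rw [neg_smul, neg_neg, ← neg_smul] at h4
      exact left_inv_eq_right_inv h4 hb1
    rw [h3]
    exact hb

theorem main (H : Set A) (hH : IsClosed H) (h1 : (1 : A) ∈ H)
    (hmul : ∀ a ∈ H, ∀ b ∈ H, a * b ∈ H) (hinv : ∀ a ∈ H, ∃ b ∈ H, a * b = 1 ∧ b * a = 1)
    (𝔥 : Submodule ℝ A) (h𝔥 : ∀ ξ, ξ ∈ 𝔥 ↔ ∀ t : ℝ, NormedSpace.exp (t • ξ) ∈ H) :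
    ∃ ε > 0, ∀ h ∈ H, ‖h - 1‖ < ε → ∃ ξ ∈ 𝔥, h = NormedSpace.exp ξ := by
  have : CompleteSpace A := FiniteDimensional.complete ℝ A
  have : ProperSpace A := FiniteDimensional.proper ℝ A
  let _ : NormedAlgebra ℚ A := NormedAlgebra.restrictScalars ℚ ℝ A
  -- the projection
  obtain ⟨f, hf⟩ := 𝔥.subtype.exists_leftInverse_of_injective (by
    rw [Submodule.ker_subtype])
  let P : A →L[ℝ] A := LinearMap.toContinuousLinearMap (𝔥.subtype.comp f)
  have hPmem : ∀ x, P x ∈ 𝔥 := fun x => (f x).2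
  have hPid : ∀ x ∈ 𝔥, P x = x := by
    intro x hx
    have := congrArg (fun g => ((g ⟨x, hx⟩ : 𝔥) : A)) hf
    exact this
  let Q : A →L[ℝ] A := ContinuousLinearMap.id ℝ A - P
  have hQ : ∀ x, Q x = x - P x := fun x => rfl
  let Φ : A → A := fun x => NormedSpace.exp (P x) * NormedSpace.exp (Q x)
  have hΦ0 : Φ 0 = 1 := by
    simp only [Φ, map_zero, NormedSpace.exp_zero, mul_one]
  have hder : HasStrictFDerivAt Φ (ContinuousLinearEquiv.refl ℝ A : A →L[ℝ] A) 0 := by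
    have e1 : HasStrictFDerivAt (fun x => NormedSpace.exp (P x))
        ((1 : A →L[ℝ] A).comp P) 0 := by
      have h2 : HasStrictFDerivAt (NormedSpace.exp : A → A) (1 : A →L[ℝ] A) (P 0) := by
        rw [map_zero]
        exact hasStrictFDerivAt_exp_zero
      exact h2.comp 0 P.hasStrictFDerivAt
    have e2 : HasStrictFDerivAt (fun x => NormedSpace.exp (Q x))
        ((1 : A →L[ℝ] A).comp Q) 0 := by
      have h2 : HasStrictFDerivAt (NormedSpace.exp : A → A) (1 : A →L[ℝ] A) (Q 0) := by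
        rw [map_zero]
        exact hasStrictFDerivAt_exp_zero
      exact h2.comp 0 Q.hasStrictFDerivAt
    have e3 := e1.mul' e2
    refine e3.congr_fderiv ?_
    ext x
    have h5 : NormedSpace.exp (P 0) = 1 := by rw [map_zero, NormedSpace.exp_zero]
    have h6 : NormedSpace.exp (Q 0) = 1 := by rw [map_zero, NormedSpace.exp_zero]
    change NormedSpace.exp (P 0) • (Q x) + MulOpposite.op (NormedSpace.exp (Q 0)) • (P x) = x
    rw [h5, h6, one_smul, MulOpposite.op_one, one_smul, hQ]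
    abel
  have hmap : Filter.map Φ (𝓝 0) = 𝓝 1 := by
    rw [hder.map_nhds_eq_of_equiv, hΦ0]
  by_contra hcon
  push Not at hcon
  -- the sequence
  have hseq : ∀ j : ℕ, ∃ x : A, ‖x‖ < 1 / ((j : ℝ) + 1) ∧ Φ x ∈ H ∧ Q x ≠ 0 := by
    intro j
    have hpos : (0 : ℝ) < 1 / ((j : ℝ) + 1) := by positivity
    have h2 : Φ '' Metric.ball 0 (1 / ((j : ℝ) + 1)) ∈ 𝓝 (1 : A) := by
      rw [← hmap]
      exact Filter.image_mem_map (Metric.ball_mem_nhds 0 hpos)
    obtain ⟨ε, hε, hb⟩ := Metric.mem_nhds_iff.1 h2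
    obtain ⟨h, hh, hh1, hh2⟩ := hcon ε hε
    have h3 : h ∈ Metric.ball (1 : A) ε := by
      rw [Metric.mem_ball, dist_eq_norm]
      exact hh1
    obtain ⟨x, hx, rfl⟩ := hb h3
    refine ⟨x, ?_, hh, fun h0 => ?_⟩
    · rw [Metric.mem_ball, dist_zero_right] at hx
      exact hx
    · apply hh2 (P x) (hPmem x)
      simp only [Φ, h0, NormedSpace.exp_zero, mul_one]
  choose x hx1 hx2 hx3 using hseq
  have hx0 : Filter.Tendsto x Filter.atTop (𝓝 0) := by
    rw [tendsto_zero_iff_norm_tendsto_zero]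
    exact squeeze_zero (fun _ => norm_nonneg _) (fun j => (hx1 j).le)
      tendsto_one_div_add_atTop_nhds_zero_nat
  let z : ℕ → A := fun j => Q (x j)
  have hz : Filter.Tendsto z Filter.atTop (𝓝 0) := by
    have := Q.continuous.continuousAt.tendsto.comp hx0
    rwa [map_zero] at this
  have hzH : ∀ j, NormedSpace.exp (z j) ∈ H := by
    intro j
    have h2 : NormedSpace.exp (-(P (x j))) ∈ H := by
      have h3 := (h𝔥 _).1 (𝔥.neg_mem (hPmem (x j))) 1
      rwa [one_smul] at h3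
    have h3 : NormedSpace.exp (z j) = NormedSpace.exp (-(P (x j))) * Φ (x j) := by
      simp only [Φ, z]
      rw [← mul_assoc, (exp_neg_mul (P (x j))).1, one_mul]
    rw [h3]
    exact hmul _ h2 _ (hx2 j)
  have hQQ : ∀ y, Q (Q y) = Q y := by
    intro y
    rw [hQ (Q y), hQ y, map_sub, hPid _ (hPmem y)]
    abel
  -- a convergent subsequence
  have hsph : ∀ j, ‖z j‖⁻¹ • z j ∈ Metric.sphere (0 : A) 1 := by
    intro j
    rw [mem_sphere_zero_iff_norm, norm_smul, norm_inv, norm_norm]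
    exact inv_mul_cancel₀ (norm_ne_zero_iff.2 (hx3 j))
  obtain ⟨ζ, hζ1, φ, hφ, hζ⟩ := (isCompact_sphere (0 : A) 1).tendsto_subseq hsph
  have hζh : ζ ∈ 𝔥 := by
    rw [h𝔥]
    intro t
    exact limit_mem H hH h1 hmul hinv (fun j => z (φ j)) (fun j => hx3 (φ j))
      (hz.comp hφ.tendsto_atTop) (fun j => hzH (φ j)) ζ hζ t
  have hQζ : Q ζ = ζ := by
    have h2 := Q.continuous.continuousAt.tendsto.comp hζ
    have h3 : (⇑Q ∘ (fun j => ‖z j‖⁻¹ • z j) ∘ φ) = (fun j => ‖z j‖⁻¹ • z j) ∘ φ := by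
      funext j
      simp only [Function.comp_apply, map_smul, z, hQQ]
    rw [h3] at h2
    exact tendsto_nhds_unique h2 hζ
  have h0 : ζ = 0 := by
    rw [← hQζ, hQ, hPid ζ hζh, sub_self]
  rw [h0, mem_sphere_zero_iff_norm, norm_zero] at hζ1
  exact zero_ne_one hζ1

end ClosedSubAux

variable {n : ℕ}

theorem exists_log_near (H : Set (Op n)) (hH : IsCompact H) (h1 : (1 : Op n) ∈ H)
    (hmul : ∀ a ∈ H, ∀ b ∈ H, a * b ∈ H) (hinv : ∀ a ∈ H, ∃ b ∈ H, a * b = 1 ∧ b * a = 1)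
    (𝔥 : Submodule ℝ (Op n)) (h𝔥 : ∀ ξ, ξ ∈ 𝔥 ↔ ∀ t : ℝ, NormedSpace.exp (t • ξ) ∈ H) :
    ∃ ε > 0, ∀ h ∈ H, ‖h - 1‖ < ε → ∃ ξ ∈ 𝔥, h = NormedSpace.exp ξ := by
  have : FiniteDimensional ℝ (Op n) := FiniteDimensional.trans ℝ ℂ (Op n)
  exact ClosedSubAux.main H hH.isClosed h1 hmul hinv 𝔥 h𝔥

end EqOka
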