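import Pool.Agent.Lib.MP_fe51c6_an_EO.AdSq

/-! The normaliser of a subspace of the Lie algebra closed under adjoints. -/

open scoped Topology
open Set

noncomputable section

namespace EqOka

variable {n : ℕ}

/-- `N` is the normaliser of `𝔩` in `G`. -/
structure IsNorm (G N : RedGrp n) (𝔩 : Submodule ℂ (Op n)) : Prop where
  car : ∀ g, g ∈ N.carrier ↔ g ∈ G.carrier ∧ ∀ h, g * h = 1 → conjS g h 𝔩 = 𝔩
  lie : ∀ ξ, ξ ∈ N.lie ↔ ξ ∈ G.lie ∧ ∀ ζ ∈ 𝔩, ξ * ζ - ζ * ξ ∈ 𝔩

/-- the Lie algebra of the normaliser -/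
private def NGrp_lie (G : RedGrp n) (𝔩 : Submodule ℂ (Op n)) : Submodule ℂ (Op n) where
  carrier := {ξ | ξ ∈ G.lie ∧ ∀ ζ ∈ 𝔩, ξ * ζ - ζ * ξ ∈ 𝔩}
  add_mem' := by
    rintro a b ⟨ha, ha'⟩ ⟨hb, hb'⟩
    refine ⟨G.lie.add_mem ha hb, fun ζ hζ => ?_⟩
    have h : (a + b) * ζ - ζ * (a + b) = (a * ζ - ζ * a) + (b * ζ - ζ * b) := by noncomm_ring
    rw [h]
    exact 𝔩.add_mem (ha' ζ hζ) (hb' ζ hζ)
  zero_mem' := by
    refine ⟨G.lie.zero_mem, fun ζ _ => ?_⟩
    rw [zero_mul, mul_zero, sub_zero]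
    exact 𝔩.zero_mem
  smul_mem' := by
    rintro c a ⟨ha, ha'⟩
    refine ⟨G.lie.smul_mem c ha, fun ζ hζ => ?_⟩
    rw [smul_mul_assoc, mul_smul_comm, ← smul_sub]
    exact 𝔩.smul_mem c (ha' ζ hζ)

private theorem NGrp_uniq {g h h' : Op n} (h1 : h' * g = 1) (h2 : g * h = 1) : h = h' :=
  (left_inv_eq_right_inv h1 h2).symm

/-- the carrier of the normaliser -/
private def NGrp_car (G : RedGrp n) (𝔩 : Submodule ℂ (Op n)) : Set (Op n) :=
  {g | g ∈ G.carrier ∧ ∀ h, g * h = 1 → conjS g h 𝔩 = 𝔩}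

private theorem NGrp_mem {G : RedGrp n} {𝔩 : Submodule ℂ (Op n)} {g h : Op n}
    (hg : g ∈ G.carrier) (hhg : h * g = 1) (hc : conjS g h 𝔩 = 𝔩) : g ∈ NGrp_car G 𝔩 := by
  refine ⟨hg, fun h' h2 => ?_⟩
  rw [NGrp_uniq hhg h2]
  exact hc

private theorem NGrp_closed (G : RedGrp n) (𝔩 : Submodule ℂ (Op n)) (g : Op n) (hu : IsUnit g)
    (hg : g ∈ closure (NGrp_car G 𝔩)) : g ∈ NGrp_car G 𝔩 := by
  have hcl : IsClosed (𝔩 : Set (Op n)) := Submodule.closed_of_finiteDimensional 𝔩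
  have hgG : g ∈ G.carrier := G.closed g hu (closure_mono (fun x hx => hx.1) hg)
  have hi1 : g * Ring.inverse g = 1 := Ring.mul_inverse_cancel g hu
  have hi2 : Ring.inverse g * g = 1 := Ring.inverse_mul_cancel g hu
  have hcinv : ContinuousAt (Ring.inverse : Op n → Op n) g := by
    obtain ⟨u, rfl⟩ := hu
    exact NormedRing.inverse_continuousAt u
  refine NGrp_mem hgG hi2 (le_antisymm ?_ ?_)
  · intro ζ hζ
    rw [mem_conjS hi1 hi2] at hζ
    have hF : ContinuousAt (fun x : Op n => x * (Ring.inverse g * ζ * g) * Ring.inverse x) g :=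
      (continuousAt_id.mul continuousAt_const).mul hcinv
    have h1 := mem_closure_image hF hg
    have h2 : (fun x : Op n => x * (Ring.inverse g * ζ * g) * Ring.inverse x) ''
        (NGrp_car G 𝔩) ⊆ (𝔩 : Set (Op n)) := by
      rintro _ ⟨x, hx, rfl⟩
      have hxu : IsUnit x := RedGrp.isUnit hx.1
      have hx1 : x * Ring.inverse x = 1 := Ring.mul_inverse_cancel x hxu
      have hx2 : Ring.inverse x * x = 1 := Ring.inverse_mul_cancel x hxu
      have h3 := hx.2 _ hx1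
      have h4 : x * (Ring.inverse g * ζ * g) * Ring.inverse x ∈
          conjS x (Ring.inverse x) 𝔩 := by
        rw [mem_conjS hx1 hx2]
        have h5 : Ring.inverse x * (x * (Ring.inverse g * ζ * g) * Ring.inverse x) * x =
            (Ring.inverse x * x) * (Ring.inverse g * ζ * g) * (Ring.inverse x * x) := by
          simp only [mul_assoc]
        rw [h5, hx2, one_mul, mul_one]
        exact hζ
      rw [h3] at h4
      exact h4
    have h3 := closure_minimal h2 hcl h1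
    have h4 : g * (Ring.inverse g * ζ * g) * Ring.inverse g = ζ := by
      have h5 : g * (Ring.inverse g * ζ * g) * Ring.inverse g =
          (g * Ring.inverse g) * ζ * (g * Ring.inverse g) := by
        simp only [mul_assoc]
      rw [h5, hi1, one_mul, mul_one]
    simp only [h4] at h3
    exact h3
  · intro ζ hζ
    rw [mem_conjS hi1 hi2]
    have hF : ContinuousAt (fun x : Op n => Ring.inverse x * ζ * x) g :=
      (hcinv.mul continuousAt_const).mul continuousAt_id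
    have h1 := mem_closure_image hF hg
    have h2 : (fun x : Op n => Ring.inverse x * ζ * x) '' (NGrp_car G 𝔩) ⊆
        (𝔩 : Set (Op n)) := by
      rintro _ ⟨x, hx, rfl⟩
      have hxu : IsUnit x := RedGrp.isUnit hx.1
      have hx1 : x * Ring.inverse x = 1 := Ring.mul_inverse_cancel x hxu
      have hx2 : Ring.inverse x * x = 1 := Ring.inverse_mul_cancel x hxu
      have h3 := hx.2 _ hx1
      have h4 : ζ ∈ conjS x (Ring.inverse x) 𝔩 := by
        rw [h3]
        exact hζ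
      rw [mem_conjS hx1 hx2] at h4
      exact h4
    exact closure_minimal h2 hcl h1

private theorem NGrp_lie_iff (G : RedGrp n) (𝔩 : Submodule ℂ (Op n)) (ξ : Op n) :
    ξ ∈ NGrp_lie G 𝔩 ↔ ∀ t : ℝ, NormedSpace.exp ((t : ℂ) • ξ) ∈ NGrp_car G 𝔩 := by
  constructor
  · rintro ⟨h1, h2⟩ t
    have hb : ∀ ζ ∈ 𝔩, ((t : ℂ) • ξ) * ζ - ζ * ((t : ℂ) • ξ) ∈ 𝔩 := by
      intro ζ hζ
      have h3 : ((t : ℂ) • ξ) * ζ - ζ * ((t : ℂ) • ξ) = (t : ℂ) • (ξ * ζ - ζ * ξ) := by
        rw [smul_sub, smul_mul_assoc, mul_smul_comm]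
      rw [h3]
      exact 𝔩.smul_mem _ (h2 ζ hζ)
    exact NGrp_mem ((G.lie_iff ξ).1 h1 t) (exp_neg_mul_self ((t : ℂ) • ξ)).1
      (conj_exp_of_bracket hb)
  · intro h
    refine ⟨(G.lie_iff ξ).2 fun t => (h t).1, ?_⟩
    exact bracket_of_conj_all fun t => (h t).2 _ (exp_neg_mul_self ((t : ℂ) • ξ)).2

theorem exists_N (G : RedGrp n) (𝔩 : Submodule ℂ (Op n)) (hs : StarCl 𝔩) :
    ∃ N : RedGrp n, IsNorm G N 𝔩 := by
  refine ⟨{ carrier := NGrp_car G 𝔩
            lie := NGrp_lie G 𝔩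
            one_mem := NGrp_mem G.one_mem (one_mul 1) (conjS_one 𝔩)
            mul_mem := ?_
            inv_mem := ?_
            closed := NGrp_closed G 𝔩
            lie_iff := NGrp_lie_iff G 𝔩
            polar := ?_ }, ⟨fun g => Iff.rfl, fun ξ => Iff.rfl⟩⟩
  · intro g hg g' hg'
    obtain ⟨h1, _, h2, h3⟩ := G.inv_mem g hg.1
    obtain ⟨h1', _, h2', h3'⟩ := G.inv_mem g' hg'.1
    refine NGrp_mem (h := h1' * h1) (G.mul_mem g hg.1 g' hg'.1) ?_ ?_
    · have h5 : h1' * h1 * (g * g') = h1' * (h1 * g) * g' := by simp only [mul_assoc]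
      rw [h5, h3, mul_one, h3']
    · rw [← conjS_conjS, hg'.2 _ h2', hg.2 _ h2]
  · intro g hg
    obtain ⟨h, hh, h2, h3⟩ := G.inv_mem g hg.1
    refine ⟨h, NGrp_mem hh h2 ?_, h2, h3⟩
    conv_lhs => rw [← hg.2 h h2]
    rw [conjS_conjS, h3, conjS_one]
  · intro g hg
    obtain ⟨k, hk, η, hη, hu, hsa, he⟩ := G.polar g hg.1
    have hk1 : k * star k = 1 := Unitary.mul_star_self_of_mem hu
    have hk2 : star k * k = 1 := Unitary.star_mul_self_of_mem hu
    obtain ⟨e1, e2⟩ := exp_neg_mul_self η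
    have hgh : g * (NormedSpace.exp (-η) * star k) = 1 := by
      have h5 : k * NormedSpace.exp η * (NormedSpace.exp (-η) * star k) =
          k * (NormedSpace.exp η * NormedSpace.exp (-η)) * star k := by simp only [mul_assoc]
      rw [he, h5, e2, mul_one, hk1]
    have h6 := hg.2 _ hgh
    rw [he, ← conjS_conjS] at h6
    have h7 : conjS (NormedSpace.exp η) (NormedSpace.exp (-η)) 𝔩 = conjS (star k) k 𝔩 := by
      conv_rhs => rw [← h6]
      rw [conjS_conjS (star k) k, hk2, conjS_one]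
    have h8 : StarCl (conjS (NormedSpace.exp η) (NormedSpace.exp (-η)) 𝔩) := by
      rw [h7]
      have h9 := starCl_conj_unitary hs (Unitary.star_mem hu)
      rw [star_star] at h9
      exact h9
    have h9 := bracket_of_starCl hs hsa h8
    have h10 : conjS k (star k) 𝔩 = 𝔩 := by
      rw [conj_exp_of_bracket h9] at h6
      exact h6
    exact ⟨k, NGrp_mem hk hk2 h10, η, ⟨hη, h9⟩, hu, hsa, he⟩

end EqOka
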