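import Pool.Agent.Lib.MP_fe51c6_an_EO.Cls
import Pool.Agent.Lib.MP_fe51c6_an_EO.NGrp
import Pool.Agent.Lib.MP_fe51c6_an_EO.ClosedSub

/-! The pointwise stabiliser `L` of `SS 𝔩` and its finite index in the stabilisers. -/

open scoped Manifold Topology
open Set

noncomputable section

namespace EqOka

variable {n d : ℕ} {G : RedGrp n} {X : Type} [TopologicalSpace X] [ChartedSpace (Cd d) X]
  [IsManifold 𝓘(ℂ, Cd d) 1 X] [T2Space X] {act : Op n → X → X} {ρ : X → ℝ}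

/-- `L` is the pointwise stabiliser of `SS 𝔩` in `G`, with Lie algebra `𝔩`. -/
structure IsKer (G L : RedGrp n) {X : Type} (act : Op n → X → X) (𝔩 : Submodule ℂ (Op n)) :
    Prop where
  car : ∀ g, g ∈ L.carrier ↔ g ∈ G.carrier ∧ ∀ s ∈ SS G act 𝔩, act g s = s
  lie : L.lie = 𝔩

private theorem LGrp_fix_of_mem (hA : HolAct d G act) {𝔩 : Submodule ℂ (Op n)} {ξ : Op n}
    (hξ : ξ ∈ 𝔩) {s : X} (hs : s ∈ SS G act 𝔩) (t : ℝ) :
    act (NormedSpace.exp ((t : ℂ) • ξ)) s = s := by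
  have h1 : ξ ∈ stab G act s := by
    have : stab G act s = 𝔩 := hs
    rw [this]
    exact hξ
  exact ((mem_stab_real hA s ξ).1 h1).2 t

theorem exists_L (hA : HolAct d G act) (hρ : Exh d G act ρ) (hc : ClosedOrbits G act)
    {𝔩 : Submodule ℂ (Op n)} {m : X} (hm : IsMn G act ρ m) (hm2 : m ∈ SS G act 𝔩) :
    ∃ L : RedGrp n, IsKer G L act 𝔩 := by
  have hms : stab G act m = 𝔩 := hm2
  have hle : 𝔩 ≤ G.lie := hms ▸ stab_le m
  have hexp : ∀ ξ : Op n, ξ ∈ 𝔩 ↔ ∀ t : ℝ,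
      NormedSpace.exp ((t : ℂ) • ξ) ∈ {g | g ∈ G.carrier ∧ ∀ s ∈ SS G act 𝔩, act g s = s} := by
    intro ξ
    constructor
    · intro hξ t
      exact ⟨RedGrp.exp_smul_mem (hle hξ) _, fun s hs => LGrp_fix_of_mem hA hξ hs t⟩
    · intro h
      have h1 : ξ ∈ stab G act m :=
        (mem_stab_real hA m ξ).2 ⟨(G.lie_iff ξ).2 fun t => (h t).1, fun t => (h t).2 m hm2⟩
      rw [hms] at h1
      exact h1
  refine ⟨⟨{g | g ∈ G.carrier ∧ ∀ s ∈ SS G act 𝔩, act g s = s}, 𝔩, ?_, ?_, ?_, ?_, hexp, ?_⟩,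
    fun g => Iff.rfl, rfl⟩
  · exact ⟨G.one_mem, fun s _ => hA.one s⟩
  · rintro g ⟨hg, hg'⟩ h ⟨hh, hh'⟩
    exact ⟨G.mul_mem g hg h hh, fun s hs => by rw [hA.mul g hg h hh, hh' s hs, hg' s hs]⟩
  · rintro g ⟨hg, hg'⟩
    obtain ⟨h, hh, h1, h2⟩ := G.inv_mem g hg
    refine ⟨h, ⟨hh, fun s hs => ?_⟩, h1, h2⟩
    have h3 := (hA.inv_act hg h1 s).2
    rwa [hg' s hs] at h3
  · intro g hu hg
    have hgG : g ∈ G.carrier := G.closed g hu (closure_mono (fun k hk => hk.1) hg)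
    refine ⟨hgG, fun s hs => ?_⟩
    obtain ⟨u, hu1, hu2⟩ := mem_closure_iff_seq_limit.1 hg
    have h3 : Filter.Tendsto (fun i => act (u i) s) Filter.atTop (𝓝 (act g s)) :=
      hA.tendsto (Filter.Eventually.of_forall fun i => (hu1 i).1) hgG hu2 tendsto_const_nhds
    have h4 : (fun i => act (u i) s) = fun _ => s := by
      funext i
      exact (hu1 i).2 s hs
    rw [h4] at h3
    exact tendsto_nhds_unique h3 tendsto_const_nhds
  · rintro g ⟨hg, hg'⟩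
    obtain ⟨k, hk, η, hη, hs, he, hkm⟩ := mn_stab_polar hA hρ hm hg (hg' m hm2)
    rw [hms] at hη
    have h1 := (hexp η).1 hη 1
    rw [Complex.ofReal_one, one_smul] at h1
    refine ⟨k, ⟨hk.1, fun s hs' => ?_⟩, η, hη, hk.2, hs, he⟩
    have h2 := hg' s hs'
    rw [he, hA.mul k hk.1 _ h1.1, h1.2 s hs'] at h2
    exact h2

private theorem LGrp_smul (t : ℝ) (ξ : Op n) : t • ξ = (t : ℂ) • ξ := by
  ext v
  simp

private theorem LGrp_star_add {A : Type*} [CStarAlgebra A] {a b : A} (ha : star a = -a)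
    (hb : star b = -b) : star (a + b) = -(a + b) := by
  rw [star_add, ha, hb]
  abel

private theorem LGrp_star_zero {A : Type*} [CStarAlgebra A] : star (0 : A) = -0 := by
  rw [star_zero, neg_zero]

private theorem LGrp_skew {A : Type*} [CStarAlgebra A] (ξ : A)
    (h : ∀ t : ℝ, NormedSpace.exp ((t : ℂ) • ξ) ∈ unitary A) : star ξ = -ξ := by
  have h1 : ∀ t : ℝ, NormedSpace.exp ((t : ℂ) • star ξ) = NormedSpace.exp ((t : ℂ) • (-ξ)) := by
    intro t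
    have h2 : star (NormedSpace.exp ((t : ℂ) • ξ)) = NormedSpace.exp ((t : ℂ) • star ξ) := by
      rw [NormedSpace.star_exp, star_smul]
      congr 2
      exact Complex.conj_ofReal t
    have h3 := Unitary.star_mul_self_of_mem (h t)
    rw [h2] at h3
    have h4 := (GrpAux.exp_neg_mul_self ((t : ℂ) • ξ)).2
    rw [smul_neg]
    calc NormedSpace.exp ((t : ℂ) • star ξ)
        = NormedSpace.exp ((t : ℂ) • star ξ) *
            (NormedSpace.exp ((t : ℂ) • ξ) * NormedSpace.exp (-((t : ℂ) • ξ))) := by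
          rw [h4, mul_one]
      _ = NormedSpace.exp (-((t : ℂ) • ξ)) := by rw [← mul_assoc, h3, one_mul]
  have h5 : ∀ ζ : A, HasDerivAt (fun t : ℝ => NormedSpace.exp ((t : ℂ) • ζ)) ζ 0 := by
    intro ζ
    have h6 := hasDerivAt_exp_smul_const (𝕂 := ℂ) ζ (0 : ℂ)
    have h7 : HasDerivAt (fun t : ℝ => (t : ℂ)) 1 (0 : ℝ) := Complex.ofRealCLM.hasDerivAt
    rw [zero_smul, NormedSpace.exp_zero, one_mul] at h6
    have h8 := HasDerivAt.scomp (0 : ℝ) (g₁ := fun u : ℂ => NormedSpace.exp (u • ζ))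
      (h := fun t : ℝ => (t : ℂ)) (by simpa using h6) h7
    rw [one_smul] at h8
    exact h8
  have h9 := h5 (star ξ)
  have h10 : (fun t : ℝ => NormedSpace.exp ((t : ℂ) • star ξ)) =
      fun t : ℝ => NormedSpace.exp ((t : ℂ) • (-ξ)) := funext h1
  rw [h10] at h9
  exact h9.unique (h5 (-ξ))

private theorem LGrp_finite (hA : HolAct d G act) (hρ : Exh d G act ρ)
    {𝔩 : Submodule ℂ (Op n)} {L : RedGrp n} (hL : IsKer G L act 𝔩) {m : X}
    (hm : IsMn G act ρ m) (hm2 : m ∈ SS G act 𝔩) :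
    ∃ T : Set (Op n), T.Finite ∧ (∀ k ∈ T, k ∈ G.carrier ∧ act k m = m) ∧
      ∀ g ∈ G.carrier, act g m = m → ∃ t ∈ T, ∃ l ∈ L.carrier, g = t * l := by
  have hms : stab G act m = 𝔩 := hm2
  set H : Set (Op n) := {k | k ∈ G.K ∧ act k m = m} with hHdef
  have hHc : IsCompact H := by
    refine (RedGrp.K_compact G).of_isClosed_subset ?_ fun k hk => hk.1
    have h1 : ContinuousOn (fun k : Op n => act k m) G.K :=
      hA.continuous_comp continuousOn_id (fun k hk => hk.1) continuousOn_const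
    have h2 := h1.preimage_isClosed_of_isClosed (RedGrp.K_compact G).isClosed
      (isClosed_singleton (x := m))
    exact h2
  have hH1 : (1 : Op n) ∈ H := ⟨RedGrp.one_K, hA.one m⟩
  have hHmul : ∀ a ∈ H, ∀ b ∈ H, a * b ∈ H := by
    rintro a ⟨ha, ha'⟩ b ⟨hb, hb'⟩
    exact ⟨RedGrp.mul_K ha hb, by rw [hA.mul a ha.1 b hb.1, hb', ha']⟩
  have hHinv : ∀ a ∈ H, ∃ b ∈ H, a * b = 1 ∧ b * a = 1 := by
    rintro a ⟨ha, ha'⟩
    obtain ⟨h1, h2, h3⟩ := RedGrp.star_K ha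
    refine ⟨star a, ⟨h1, ?_⟩, h2, h3⟩
    have h4 := (hA.inv_act ha.1 h2 m).2
    rwa [ha'] at h4
  let 𝔥 : Submodule ℝ (Op n) :=
    { carrier := {ξ | ξ ∈ 𝔩 ∧ star ξ = -ξ}
      add_mem' := by
        rintro a b ⟨ha, ha'⟩ ⟨hb, hb'⟩
        exact ⟨𝔩.add_mem ha hb, LGrp_star_add (A := Op n) ha' hb'⟩
      zero_mem' := ⟨𝔩.zero_mem, LGrp_star_zero (A := Op n)⟩
      smul_mem' := by
        rintro t a ⟨ha, ha'⟩
        rw [LGrp_smul]
        refine ⟨𝔩.smul_mem _ ha, ?_⟩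
        rw [star_smul, ha', smul_neg]
        congr 2
        exact Complex.conj_ofReal t }
  have h𝔥 : ∀ ξ, ξ ∈ 𝔥 ↔ ∀ t : ℝ, NormedSpace.exp (t • ξ) ∈ H := by
    intro ξ
    constructor
    · rintro ⟨h1, h2⟩ t
      rw [LGrp_smul]
      refine ⟨⟨?_, ?_⟩, LGrp_fix_of_mem hA h1 hm2 t⟩
      · exact RedGrp.exp_smul_mem (stab_le m (hms.symm ▸ h1)) _
      · let _ : NormedAlgebra ℚ (Op n) := NormedAlgebra.restrictScalars ℚ ℂ (Op n)
        refine NormedSpace.exp_mem_unitary_of_mem_skewAdjoint ?_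
        rw [skewAdjoint.mem_iff, star_smul, h2, smul_neg]
        congr 2
        exact Complex.conj_ofReal t
    · intro h
      simp only [LGrp_smul] at h
      refine ⟨?_, LGrp_skew ξ fun t => (h t).1.2⟩
      rw [← hms]
      exact (mem_stab_real hA m ξ).2 ⟨(G.lie_iff ξ).2 fun t => (h t).1.1, fun t => (h t).2⟩
  obtain ⟨ε, hε, hlog⟩ := exists_log_near H hHc hH1 hHmul hHinv 𝔥 h𝔥
  have hU : ∀ k ∈ H, {g : Op n | ‖star k * g - 1‖ < ε} ∈ 𝓝 k := by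
    intro k hk
    have h1 : Continuous fun g : Op n => ‖star k * g - 1‖ :=
      ((continuous_const.mul continuous_id).sub continuous_const).norm
    refine (isOpen_lt h1 continuous_const).mem_nhds ?_
    change ‖star k * k - 1‖ < ε
    rw [(RedGrp.star_K hk.1).2.2, sub_self, norm_zero]
    exact hε
  obtain ⟨T, hT1, hT2⟩ := hHc.elim_nhds_subcover (fun k => {g : Op n | ‖star k * g - 1‖ < ε}) hU
  refine ⟨↑T, T.finite_toSet, fun k hk => ⟨(hT1 k hk).1.1, (hT1 k hk).2⟩, ?_⟩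
  intro g hg hgm
  obtain ⟨k, hk, η, hη, hs, he, hkm⟩ := mn_stab_polar hA hρ hm hg hgm
  rw [hms] at hη
  obtain ⟨t, ht, hkt⟩ := mem_iUnion₂.1 (hT2 (show k ∈ H from ⟨hk, hkm⟩))
  have htH := hT1 t ht
  obtain ⟨h1, h2, h3⟩ := RedGrp.star_K htH.1
  have h4 : star t * k ∈ H := by
    obtain ⟨b, hb, hb1, hb2⟩ := hHinv t htH
    have : b = star t := by
      calc b = (star t * t) * b := by rw [h3, one_mul]
        _ = star t := by rw [mul_assoc, hb1, mul_one]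
    exact hHmul _ (this ▸ hb) _ ⟨hk, hkm⟩
  obtain ⟨ξ, hξ, hξe⟩ := hlog _ h4 hkt
  refine ⟨t, ht, star t * k * NormedSpace.exp η, L.mul_mem _ ?_ _ ?_, ?_⟩
  · rw [hξe]
    exact RedGrp.exp_mem (hL.lie.symm ▸ hξ.1)
  · exact RedGrp.exp_mem (hL.lie.symm ▸ hη)
  · rw [he, ← mul_assoc, ← mul_assoc, h2, one_mul]

theorem finite_cosets (hA : HolAct d G act) (hρ : Exh d G act ρ) (hc : ClosedOrbits G act)
    {𝔩 : Submodule ℂ (Op n)} (hs : StarCl 𝔩) {N L : RedGrp n} (hN : IsNorm G N 𝔩)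
    (hL : IsKer G L act 𝔩) (x : X) (hx : x ∈ SS G act 𝔩) :
    ∃ T : Set (Op n), T.Finite ∧ T ⊆ N.carrier ∧
      ∀ g ∈ N.carrier, act g x = x → ∃ t ∈ T, ∃ l ∈ L.carrier, g = t * l := by
  obtain ⟨g₀, hg₀, m, hm2, hm, hmx⟩ := exists_mn_SS hA hρ hc hs (SS_subset_Cls hA 𝔩 hx)
  obtain ⟨h₀, hh₀, hgh, hhg⟩ := G.inv_mem g₀ hg₀
  obtain ⟨T, hTf, hT, hTg⟩ := LGrp_finite hA hρ hL hm hm2
  have hNmem : ∀ g ∈ G.carrier, ∀ y ∈ SS G act 𝔩, act g y ∈ SS G act 𝔩 → g ∈ N.carrier := by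
    intro g hg y hy hgy
    exact (hN.car g).2 ⟨hg, fun h hgh' => conj_of_SS hA hy hg hgh' hgy⟩
  have hg₀N : g₀ ∈ N.carrier := hNmem g₀ hg₀ m hm2 (by rw [hmx]; exact hx)
  have hh₀N : h₀ ∈ N.carrier := (RedGrp.inv_mem' hg₀N hgh).1
  refine ⟨(fun k => g₀ * k * h₀) '' T, hTf.image _, ?_, ?_⟩
  · rintro _ ⟨k, hk, rfl⟩
    have hkN : k ∈ N.carrier := hNmem k (hT k hk).1 m hm2 (by rw [(hT k hk).2]; exact hm2)
    exact N.mul_mem _ (N.mul_mem _ hg₀N _ hkN) _ hh₀N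
  · intro g hg hgx
    have hgG : g ∈ G.carrier := ((hN.car g).1 hg).1
    have hg'G : h₀ * g * g₀ ∈ G.carrier := G.mul_mem _ (G.mul_mem _ hh₀ _ hgG) _ hg₀
    have h1 : act (h₀ * g * g₀) m = m := by
      rw [hA.mul _ (G.mul_mem _ hh₀ _ hgG) _ hg₀, hmx, hA.mul _ hh₀ _ hgG, hgx, ← hmx]
      exact (hA.inv_act hg₀ hgh m).2
    obtain ⟨t, ht, l, hl, htl⟩ := hTg _ hg'G h1
    refine ⟨_, ⟨t, ht, rfl⟩, g₀ * l * h₀, ?_, ?_⟩
    · rw [hL.car] at hl ⊢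
      refine ⟨G.mul_mem _ (G.mul_mem _ hg₀ _ hl.1) _ hh₀, fun s hs' => ?_⟩
      have h2 : act h₀ s ∈ SS G act 𝔩 := by
        change stab G act (act h₀ s) = 𝔩
        rw [stab_act hA hh₀ hhg s]
        have h3 : stab G act s = 𝔩 := hs'
        rw [h3]
        exact ((hN.car h₀).1 hh₀N).2 g₀ hhg
      rw [hA.mul _ (G.mul_mem _ hg₀ _ hl.1) _ hh₀, hA.mul _ hg₀ _ hl.1, hl.2 _ h2]
      exact (hA.inv_act hg₀ hgh s).1
    · calc g = (g₀ * h₀) * g * (g₀ * h₀) := by rw [hgh, one_mul, mul_one]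
        _ = g₀ * (h₀ * g * g₀) * h₀ := by simp only [mul_assoc]
        _ = g₀ * (t * l) * h₀ := by rw [htl]
        _ = g₀ * t * (h₀ * g₀) * l * h₀ := by rw [hhg, mul_one]; simp only [mul_assoc]
        _ = g₀ * t * h₀ * (g₀ * l * h₀) := by simp only [mul_assoc]

end EqOka
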