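import Pool.Agent.Lib.MP_fe51c6_an_EO.Retr
import Pool.Agent.Lib.MP_fe51c6_an_EO.LGrp
import Pool.Agent.Lib.MP_fe51c6_an_EO.SubAct

/-! Extension of `N_K`-equivariant maps on `SS 𝔩` (restricted to the minimal points) to
`G`-equivariant maps on the class of `𝔩`. -/

open scoped Manifold Topology
open Set

noncomputable section

namespace EqOka

variable {n d e : ℕ} {G : RedGrp n} {X Y : Type} [TopologicalSpace X] [ChartedSpace (Cd d) X]
  [IsManifold 𝓘(ℂ, Cd d) 1 X] [T2Space X] [SecondCountableTopology X] {act : Op n → X → X}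
  {ρ : X → ℝ} [TopologicalSpace Y] [ChartedSpace (Cd e) Y] [IsManifold 𝓘(ℂ, Cd e) 1 Y] [T2Space Y]
  {actY : Op n → Y → Y} {𝔩 : Submodule ℂ (Op n)}

/-- Well-definedness. -/
theorem ext_wd (hA : HolAct d G act) (hB : HolAct e G actY) (hρ : Exh d G act ρ)
    {N : RedGrp n} (hN : IsNorm G N 𝔩) (v : SS G act 𝔩 → Y)
    (hv : ∀ k ∈ N.K, ∀ s, v (subAct (SS G act 𝔩) act k s) = actY k (v s))
    (m m' : SS G act 𝔩) (hm : IsMn G act ρ (m : X)) (hm' : IsMn G act ρ (m' : X)) {g g' : Op n}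
    (hg : g ∈ G.carrier) (hg' : g' ∈ G.carrier) (h : act g (m : X) = act g' (m' : X)) :
    actY g (v m) = actY g' (v m') := by
  obtain ⟨h', hh', hgh, hhg⟩ := G.inv_mem g' hg'
  have ha : h' * g ∈ G.carrier := G.mul_mem _ hh' _ hg
  have ham : act (h' * g) (m : X) = m' := by
    rw [hA.mul _ hh' _ hg, h, (hA.inv_act hg' hgh _).2]
  obtain ⟨k, hk, η, hη, hs, he, hkm⟩ := mn_orbit hA hρ hm ha (by rw [ham]; exact hm')
  have hηG : NormedSpace.exp η ∈ G.carrier := RedGrp.exp_mem (stab_le _ hη)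
  have hexp : act (NormedSpace.exp η) (m : X) = m := by
    have h1 := ((mem_stab_real hA _ η).1 hη).2 1
    rwa [Complex.ofReal_one, one_smul] at h1
  -- elements of `K` which move `m` inside `SS` are in `N`
  have hNK : ∀ a ∈ G.K, act a (m : X) ∈ SS G act 𝔩 → a ∈ N.K := by
    intro a haK haS
    exact ⟨(hN.car a).2 ⟨haK.1, fun b hab => conj_of_SS hA m.2 haK.1 hab haS⟩, haK.2⟩
  have hkm' : act k (m : X) = m' := by rw [← hkm, ham]
  have hkS : act k (m : X) ∈ SS G act 𝔩 := by rw [hkm']; exact m'.2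
  have hvm' : v m' = actY k (v m) := by
    rw [← hv k (hNK k hk hkS) m]
    congr 1
    apply Subtype.ext
    rw [subAct_val act hkS, hkm']
  have hfix : ∀ a ∈ G.K, act a (m : X) = m → actY a (v m) = v m := by
    intro a haK ham
    have haS : act a (m : X) ∈ SS G act 𝔩 := by rw [ham]; exact m.2
    rw [← hv a (hNK a haK haS) m]
    congr 1
    apply Subtype.ext
    rw [subAct_val act haS, ham]
  have hexpY : actY (NormedSpace.exp η) (v m) = v m :=
    mn_fixed_Y hA hρ hB hm (v m) hfix _ hηG hexp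
  have hgg : g = g' * (k * NormedSpace.exp η) := by
    rw [← he, ← mul_assoc, hgh, one_mul]
  rw [hgg, hB.mul _ hg' _ (G.mul_mem _ hk.1 _ hηG), hB.mul _ hk.1 _ hηG, hexpY, hvm']

private theorem ExtMap_exp_cont : Continuous (NormedSpace.exp : Op n → Op n) := by
  let _ : NormedAlgebra ℚ (Op n) := NormedAlgebra.restrictScalars ℚ ℂ (Op n)
  exact NormedSpace.exp_continuous

private theorem ExtMap_star_cont {A : Type*} [CStarAlgebra A] : Continuous (star : A → A) :=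
  continuous_star

/-- Continuity of the extension. -/
private theorem ExtMap_cont (hA : HolAct d G act) (hB : HolAct e G actY) (hρ : Exh d G act ρ)
    (hc : ClosedOrbits G act) {w : X → Op n} (hw : Retr G act ρ w) (hs : StarCl 𝔩)
    (h : unitInterval × SS G act 𝔩 → Y) (hcont : Continuous h) (F : unitInterval × X → Y)
    (hF : ∀ t, ∀ g ∈ G.carrier, ∀ m : SS G act 𝔩, IsMn G act ρ (m : X) →
        F (t, act g m) = actY g (h (t, m))) :
    ContinuousOn F (univ ×ˢ Cls G act 𝔩) := by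
  intro p₀ hp₀
  have hx₀ : p₀.2 ∈ Cls G act 𝔩 := hp₀.2
  -- the minimal points
  have hmin : ∀ x ∈ Cls G act 𝔩, ∃ k ∈ G.K, ∃ m ∈ SS G act 𝔩, IsMn G act ρ m ∧
      act k m = act (NormedSpace.exp (-w x)) x := by
    intro x hx
    exact exists_K_SS hA hρ hc hs (Cls_act hA hx (RedGrp.exp_mem (G.lie.neg_mem (hw.mem x))))
      (hw.mn x)
  obtain ⟨k₁, -, m₁, hm₁, -, -⟩ := hmin p₀.2 hx₀
  have hch : ∀ p : unitInterval × X, ∃ k : Op n, ∃ m : SS G act 𝔩, p.2 ∈ Cls G act 𝔩 →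
      (k ∈ G.K ∧ IsMn G act ρ (m : X) ∧ act k (m : X) = act (NormedSpace.exp (-w p.2)) p.2) := by
    intro p
    by_cases hp : p.2 ∈ Cls G act 𝔩
    · obtain ⟨k, hk, m, hm, hmn, he⟩ := hmin p.2 hp
      exact ⟨k, ⟨m, hm⟩, fun _ => ⟨hk, hmn, he⟩⟩
    · exact ⟨1, ⟨m₁, hm₁⟩, fun h => absurd h hp⟩
  choose k m hkm using hch
  rw [ContinuousWithinAt, Filter.tendsto_iff_ultrafilter]
  intro U hU
  have hU1 : (U : Filter (unitInterval × X)) ≤ 𝓝 p₀ := hU.trans nhdsWithin_le_nhds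
  have hU2 : ∀ᶠ p in (U : Filter (unitInterval × X)), p.2 ∈ Cls G act 𝔩 := by
    have h1 : ∀ᶠ p in 𝓝[univ ×ˢ Cls G act 𝔩] p₀, p.2 ∈ Cls G act 𝔩 :=
      eventually_nhdsWithin_of_forall fun p hp => hp.2
    exact hU h1
  have ht : Filter.Tendsto (fun p : unitInterval × X => p.1) U (𝓝 p₀.1) :=
    (continuous_fst.tendsto p₀).mono_left hU1
  have hx : Filter.Tendsto (fun p : unitInterval × X => p.2) U (𝓝 p₀.2) :=
    (continuous_snd.tendsto p₀).mono_left hU1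
  have hwt : Filter.Tendsto (fun p : unitInterval × X => w p.2) U (𝓝 (w p₀.2)) :=
    (hw.cont.tendsto _).comp hx
  have hexp1 : Filter.Tendsto (fun p : unitInterval × X => NormedSpace.exp (w p.2)) U
      (𝓝 (NormedSpace.exp (w p₀.2))) := (ExtMap_exp_cont.tendsto _).comp hwt
  have hexp2 : Filter.Tendsto (fun p : unitInterval × X => NormedSpace.exp (-w p.2)) U
      (𝓝 (NormedSpace.exp (-w p₀.2))) := (ExtMap_exp_cont.tendsto _).comp hwt.neg
  have hm' : Filter.Tendsto (fun p : unitInterval × X => act (NormedSpace.exp (-w p.2)) p.2) U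
      (𝓝 (act (NormedSpace.exp (-w p₀.2)) p₀.2)) :=
    hA.tendsto (Filter.Eventually.of_forall fun p =>
      RedGrp.exp_mem (G.lie.neg_mem (hw.mem p.2))) (RedGrp.exp_mem (G.lie.neg_mem (hw.mem p₀.2)))
      hexp2 hx
  -- the limit of `k`
  obtain ⟨k₀, hk₀, hk₀t⟩ : ∃ k₀ ∈ G.K, Filter.Tendsto k U (𝓝 k₀) := by
    have h1 : ((U.map k : Ultrafilter (Op n)) : Filter (Op n)) ≤ Filter.principal G.K := by
      rw [Filter.le_principal_iff, Ultrafilter.mem_coe, Ultrafilter.mem_map]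
      exact hU2.mono fun p hp => (hkm p hp).1
    obtain ⟨k₀, hk₀, h2⟩ := (RedGrp.K_compact G).ultrafilter_le_nhds (U.map k) h1
    exact ⟨k₀, hk₀, h2⟩
  obtain ⟨hsk, hk1, hk2⟩ := RedGrp.star_K hk₀
  have hkG : ∀ᶠ p in (U : Filter (unitInterval × X)), k p ∈ G.carrier :=
    hU2.mono fun p hp => (hkm p hp).1.1
  have hmt : Filter.Tendsto (fun p => ((m p : SS G act 𝔩) : X)) U
      (𝓝 (act (star k₀) (act (NormedSpace.exp (-w p₀.2)) p₀.2))) := by
    have h1 : Filter.Tendsto (fun p => act (star (k p)) (act (NormedSpace.exp (-w p.2)) p.2)) U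
        (𝓝 (act (star k₀) (act (NormedSpace.exp (-w p₀.2)) p₀.2))) :=
      hA.tendsto (hkG.mono fun p hp => RedGrp.star_mem hp) hsk.1
        (((ExtMap_star_cont (A := Op n)).tendsto k₀).comp hk₀t) hm'
    refine h1.congr' (hU2.mono fun p hp => ?_)
    obtain ⟨h2, -, h3⟩ := hkm p hp
    change act (star (k p)) (act (NormedSpace.exp (-w p.2)) p.2) = m p
    rw [← h3]
    exact (hA.inv_act h2.1 (RedGrp.star_K h2).2.1 _).2
  set m₀ : X := act (star k₀) (act (NormedSpace.exp (-w p₀.2)) p₀.2) with hm₀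
  have hm₀S : m₀ ∈ SS G act 𝔩 :=
    (isClosed_SS hA hρ hc 𝔩).mem_of_tendsto hmt (Filter.Eventually.of_forall fun p => (m p).2)
  have hm₀mn : IsMn G act ρ m₀ :=
    (mn_closed hA hρ).mem_of_tendsto hmt (hU2.mono fun p hp => (hkm p hp).2.1)
  have hmt' : Filter.Tendsto m U (𝓝 (⟨m₀, hm₀S⟩ : SS G act 𝔩)) := tendsto_subtype_rng.2 hmt
  have hht : Filter.Tendsto (fun p : unitInterval × X => h (p.1, m p)) U
      (𝓝 (h (p₀.1, ⟨m₀, hm₀S⟩))) :=
    (hcont.tendsto _).comp (ht.prodMk_nhds hmt')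
  have hlim : Filter.Tendsto
      (fun p : unitInterval × X => actY (NormedSpace.exp (w p.2) * k p) (h (p.1, m p))) U
      (𝓝 (actY (NormedSpace.exp (w p₀.2) * k₀) (h (p₀.1, ⟨m₀, hm₀S⟩)))) :=
    hB.tendsto (hkG.mono fun p hp => G.mul_mem _ (RedGrp.exp_mem (hw.mem p.2)) _ hp)
      (G.mul_mem _ (RedGrp.exp_mem (hw.mem p₀.2)) _ hk₀.1) (hexp1.mul hk₀t) hht
  have hcancel : ∀ x : X, act (NormedSpace.exp (w x)) (act (NormedSpace.exp (-w x)) x) = x :=
    fun x => (hA.inv_act (RedGrp.exp_mem (hw.mem x)) (exp_neg_mul_self (w x)).2 x).1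
  have hval : F p₀ = actY (NormedSpace.exp (w p₀.2) * k₀) (h (p₀.1, ⟨m₀, hm₀S⟩)) := by
    rw [← hF p₀.1 _ (G.mul_mem _ (RedGrp.exp_mem (hw.mem p₀.2)) _ hk₀.1) ⟨m₀, hm₀S⟩ hm₀mn,
      hA.mul _ (RedGrp.exp_mem (hw.mem p₀.2)) _ hk₀.1]
    have h1 : act k₀ m₀ = act (NormedSpace.exp (-w p₀.2)) p₀.2 := (hA.inv_act hk₀.1 hk1 _).1
    change F p₀ = F (p₀.1, act (NormedSpace.exp (w p₀.2)) (act k₀ m₀))
    rw [h1, hcancel]
  rw [hval]
  refine hlim.congr' (hU2.mono fun p hp => ?_)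
  obtain ⟨h2, h3, h4⟩ := hkm p hp
  change actY (NormedSpace.exp (w p.2) * k p) (h (p.1, m p)) = F p
  rw [← hF p.1 _ (G.mul_mem _ (RedGrp.exp_mem (hw.mem p.2)) _ h2.1) (m p) h3,
      hA.mul _ (RedGrp.exp_mem (hw.mem p.2)) _ h2.1, h4, hcancel]

theorem exists_ext (hA : HolAct d G act) (hB : HolAct e G actY) (hρ : Exh d G act ρ)
    (hc : ClosedOrbits G act) {w : X → Op n} (hw : Retr G act ρ w) (hs : StarCl 𝔩)
    {N : RedGrp n} (hN : IsNorm G N 𝔩) (h : unitInterval × SS G act 𝔩 → Y) (hcont : Continuous h)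
    (hv : ∀ t, ∀ k ∈ N.K, ∀ s, h (t, subAct (SS G act 𝔩) act k s) = actY k (h (t, s)))
    (f₀ : X → Y) :
    ∃ F : unitInterval × X → Y, ContinuousOn F (univ ×ˢ Cls G act 𝔩) ∧
      ∀ t, ∀ g ∈ G.carrier, ∀ m : SS G act 𝔩, IsMn G act ρ (m : X) →
        F (t, act g m) = actY g (h (t, m)) := by
  classical
  have hex : ∀ p : unitInterval × X, ∃ y : Y, ∀ g ∈ G.carrier, ∀ m : SS G act 𝔩,
      IsMn G act ρ (m : X) → act g (m : X) = p.2 → y = actY g (h (p.1, m)) := by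
    intro p
    by_cases hp : ∃ g ∈ G.carrier, ∃ m : SS G act 𝔩, IsMn G act ρ (m : X) ∧ act g (m : X) = p.2
    · obtain ⟨g, hg, m, hm, he⟩ := hp
      refine ⟨actY g (h (p.1, m)), fun g' hg' m' hm' he' => ?_⟩
      exact ext_wd hA hB hρ hN (fun s => h (p.1, s)) (fun k hk s => hv p.1 k hk s) m m' hm hm'
        hg hg' (he.trans he'.symm)
    · exact ⟨f₀ p.2, fun g hg m hm he => absurd ⟨g, hg, m, hm, he⟩ hp⟩
  choose F hF using hex
  have hF' : ∀ t, ∀ g ∈ G.carrier, ∀ m : SS G act 𝔩, IsMn G act ρ (m : X) →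
      F (t, act g m) = actY g (h (t, m)) := fun t g hg m hm => hF (t, act g m) g hg m hm rfl
  exact ⟨F, ExtMap_cont hA hB hρ hc hw hs h hcont F hF', hF'⟩

end EqOka
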