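import Pool.Agent.Lib.MP_fe51c6_an_EO.Flat
import Pool.Agent.Lib.MP_fe51c6_an_EO.LGrp
import Pool.Agent.Lib.MP_fe51c6_an_EO.SubAct

/-! The equivariant Oka principle for `(N, SS 𝔩)` from the case of finite stabilisers. -/

open scoped Manifold Topology
open Set

noncomputable section

namespace EqOka

/-- Part `p` of the equivariant Oka principle for reductive subgroups `N` of `G`, Stein `N`-manifolds `S` with
closed orbits and finite stabilisers modulo a normal subgroup acting trivially, and the target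
`Y`. -/
def RedEOP (p : Part) {n : ℕ} (e : ℕ) (G : RedGrp n) {Y : Type} [TopologicalSpace Y] [ChartedSpace (Cd e) Y]
    (actY : Op n → Y → Y) : Prop :=
  ∀ (d' : ℕ) (N L : RedGrp n) (S : Type) [TopologicalSpace S] [ChartedSpace (Cd d') S]
    [IsManifold 𝓘(ℂ, Cd d') 1 S] [T2Space S] [SecondCountableTopology S] (actS : Op n → S → S),
    N.carrier ⊆ G.carrier → IsStein d' S → HolAct d' N actS → ClosedOrbits N actS →
      FiniteStab N L actS → EOP p d' e N actS actY

variable {p : Part} {n d e : ℕ} {G : RedGrp n} {X Y : Type} [TopologicalSpace X] [ChartedSpace (Cd d) X]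
  [IsManifold 𝓘(ℂ, Cd d) 1 X] [T2Space X] [SecondCountableTopology X] {act : Op n → X → X}
  {ρ : X → ℝ} [TopologicalSpace Y] [ChartedSpace (Cd e) Y] {actY : Op n → Y → Y}

theorem exists_setup (hX : IsStein d X) (hA : HolAct d G act) (hρ : Exh d G act ρ)
    (hc : ClosedOrbits G act) {𝔩 : Submodule ℂ (Op n)} {m : X} (hm : IsMn G act ρ m)
    (hm2 : stab G act m = 𝔩) (hR : RedEOP p e G actY) :
    ∃ (d' : ℕ) (_ : ChartedSpace (Cd d') (SS G act 𝔩 : Set X)) (N : RedGrp n),
      GoodSub d d' (SS G act 𝔩 : Set X) ∧ IsNorm G N 𝔩 ∧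
        HolAct d' N (subAct (SS G act 𝔩) act) ∧ EOP p d' e N (subAct (SS G act 𝔩) act) actY := by
  have hs : StarCl 𝔩 := hm2 ▸ mn_stab_starCl hA hρ hm
  obtain ⟨N, hN⟩ := exists_N G 𝔩 hs
  have hmS : m ∈ SS G act 𝔩 := hm2
  obtain ⟨L, hL⟩ := exists_L hA hρ hc hm hmS
  obtain ⟨cs, hg⟩ := exists_subManifold (d := d)
    (d' := d + Module.finrank ℂ N.lie - Module.finrank ℂ G.lie) (SS G act 𝔩 : Set X)
    (fun s hx => exists_flat hA hρ hc hs hN s hx)
  have hNG : N.carrier ⊆ G.carrier := fun g hg' => ((hN.car g).1 hg').1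
  have hInv : Invt N.carrier act (SS G act 𝔩) := by
    intro g hg' x hx
    obtain ⟨hgG, hgc⟩ := (hN.car g).1 hg'
    obtain ⟨h, hh, hgh, hhg⟩ := G.inv_mem g hgG
    change stab G act (act g x) = 𝔩
    rw [stab_act hA hgG hgh x]
    have h3 : stab G act x = 𝔩 := hx
    rw [h3]
    exact hgc h hgh
  have hNmem : ∀ g ∈ G.carrier, ∀ y ∈ SS G act 𝔩, act g y ∈ SS G act 𝔩 → g ∈ N.carrier := by
    intro g hg' y hy hgy
    exact (hN.car g).2 ⟨hg', fun h hgh' => conj_of_SS hA hy hg' hgh' hgy⟩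
  have hAct : HolAct (d + Module.finrank ℂ N.lie - Module.finrank ℂ G.lie) N
      (subAct (SS G act 𝔩) act) := sub_holAct hA hNG hInv hg
  refine ⟨_, cs, N, hg, hN, hAct, ?_⟩
  have := hg.mfd
  refine hR _ N L (SS G act 𝔩 : Set X) (subAct (SS G act 𝔩) act) hNG
    (sub_stein hX (isClosed_SS hA hρ hc 𝔩) hg) hAct ?_ ?_
  · intro x
    have h1 : {y : (SS G act 𝔩 : Set X) | ∃ g ∈ N.carrier, subAct (SS G act 𝔩) act g x = y} =
        Subtype.val ⁻¹' {y : X | ∃ g ∈ G.carrier, act g (x : X) = y} := by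
      ext y
      constructor
      · rintro ⟨g, hg', hy⟩
        refine ⟨g, hNG hg', ?_⟩
        rw [← subAct_val act (hInv g hg' _ x.2), hy]
      · rintro ⟨g, hg', hy⟩
        have hgy : act g (x : X) ∈ SS G act 𝔩 := by
          rw [hy]
          exact y.2
        refine ⟨g, hNmem g hg' _ x.2 hgy, Subtype.ext ?_⟩
        rw [subAct_val act hgy, hy]
    rw [h1]
    exact (hc x).preimage continuous_subtype_val
  · have hLN : L.carrier ⊆ N.carrier := by
      intro l hl
      obtain ⟨hlG, hlf⟩ := (hL.car l).1 hl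
      exact hNmem l hlG m hmS (by rw [hlf m hmS]; exact hmS)
    refine ⟨hLN, ?_, ?_, ?_⟩
    · intro g hg' h hgh l hl
      obtain ⟨hhN, hhg⟩ := RedGrp.inv_mem' hg' hgh
      rw [hL.car] at hl ⊢
      refine ⟨G.mul_mem _ (G.mul_mem _ (hNG hg') _ hl.1) _ (hNG hhN), fun s hs' => ?_⟩
      rw [hA.mul _ (G.mul_mem _ (hNG hg') _ hl.1) _ (hNG hhN), hA.mul _ (hNG hg') _ hl.1,
        hl.2 _ (hInv h hhN s hs')]
      exact (hA.inv_act (hNG hg') hgh s).1
    · intro l hl x
      have h1 : act l (x : X) ∈ SS G act 𝔩 := hInv l (hLN hl) _ x.2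
      refine Subtype.ext ?_
      rw [subAct_val act h1]
      exact ((hL.car l).1 hl).2 _ x.2
    · intro x
      obtain ⟨T, hT, hTN, hTg⟩ := finite_cosets hA hρ hc hs hN hL (x : X) x.2
      refine ⟨T, hT, hTN, fun g hg' hgx => hTg g hg' ?_⟩
      rw [← subAct_val act (hInv g hg' _ x.2), hgx]

end EqOka
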