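import Pool.Agent.Lib.MP_fe51c6_an_EO.Stab

/-! Minimal points of the exhaustion function on orbits. -/

open scoped Manifold Topology
open Set

noncomputable section

namespace EqOka

variable {n d e : ℕ} {G : RedGrp n} {X Y : Type} [TopologicalSpace X] [ChartedSpace (Cd d) X]
  [IsManifold 𝓘(ℂ, Cd d) 1 X] [T2Space X] {act : Op n → X → X} {ρ : X → ℝ}

/-- On a closed orbit the minimum is attained. -/
theorem exists_mn (hA : HolAct d G act) (hρ : Exh d G act ρ) (hc : ClosedOrbits G act) (x : X) :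
    ∃ g ∈ G.carrier, IsMn G act ρ (act g x) := by
  have hcomp : IsCompact ({y | ρ y ≤ ρ x} ∩ {y | ∃ g ∈ G.carrier, act g x = y}) :=
    (hρ.proper (ρ x)).inter_right (hc x)
  have hne : ({y | ρ y ≤ ρ x} ∩ {y | ∃ g ∈ G.carrier, act g x = y}).Nonempty :=
    ⟨x, le_refl (ρ x), 1, G.one_mem, hA.one x⟩
  obtain ⟨y, ⟨hy1, g, hg, hgy⟩, hmin⟩ := hcomp.exists_isMinOn hne hρ.cont.continuousOn
  refine ⟨g, hg, fun g' hg' => ?_⟩
  rw [hgy]
  by_cases h : ρ (act g' y) ≤ ρ x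
  · refine hmin ⟨h, g' * g, G.mul_mem _ hg' _ hg, ?_⟩
    rw [hA.mul g' hg' g hg, hgy]
  · exact le_trans hy1 (not_le.1 h).le

theorem mn_fix (hA : HolAct d G act) (hρ : Exh d G act ρ) {m : X} (hm : IsMn G act ρ m) {η : Op n}
    (hη : η ∈ G.lie) (hs : IsSelfAdjoint η) (h : ρ (act (NormedSpace.exp η) m) ≤ ρ m) :
    η ∈ stab G act m := by
  refine (mem_stab_real hA m η).2 ⟨hη, hρ.strict η hη hs m fun t ht => le_antisymm ?_ ?_⟩
  · refine (hρ.convex η hη hs m t ht).trans ?_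
    have h1 : t * ρ (act (NormedSpace.exp η) m) ≤ t * ρ m := mul_le_mul_of_nonneg_left h ht.1
    linarith
  · exact hm _ (RedGrp.exp_smul_mem hη _)

theorem mn_closed (hA : HolAct d G act) (hρ : Exh d G act ρ) : IsClosed {m | IsMn G act ρ m} := by
  have h1 : {m | IsMn G act ρ m} = ⋂ g ∈ G.carrier, {m | ρ m ≤ ρ (act g m)} := by
    ext m
    simp only [Set.mem_iInter]
    exact Iff.rfl
  rw [h1]
  exact isClosed_biInter fun g hg =>
    isClosed_le hρ.cont (hρ.cont.comp (HolAct.continuous_act hA hg))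

theorem mn_K (hA : HolAct d G act) (hρ : Exh d G act ρ) {m : X} (hm : IsMn G act ρ m) {k : Op n}
    (hk : k ∈ G.K) : IsMn G act ρ (act k m) := by
  intro g hg
  rw [hρ.inv k hk m, ← hA.mul g hg k hk.1]
  exact hm _ (G.mul_mem _ hg _ hk.1)

/-- The elements of the stabiliser algebra fix the point. -/
private theorem Min_exp_fix (hA : HolAct d G act) {m : X} {η : Op n} (h : η ∈ stab G act m) :
    act (NormedSpace.exp η) m = m := by
  have h1 := ((mem_stab_real hA m η).1 h).2 1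
  rwa [Complex.ofReal_one, one_smul] at h1

/-- Two minimal points of an orbit differ by an element of `K`. -/
theorem mn_orbit (hA : HolAct d G act) (hρ : Exh d G act ρ) {m : X} (hm : IsMn G act ρ m)
    {g : Op n} (hg : g ∈ G.carrier) (h : IsMn G act ρ (act g m)) :
    ∃ k ∈ G.K, ∃ η ∈ stab G act m, IsSelfAdjoint η ∧ g = k * NormedSpace.exp η ∧
      act g m = act k m := by
  obtain ⟨k, hk, η, hη, hs, hgk⟩ := RedGrp.polar_left hg
  have he : NormedSpace.exp η ∈ G.carrier := RedGrp.exp_mem hη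
  have h1 : act g m = act k (act (NormedSpace.exp η) m) := by
    rw [hgk, hA.mul k hk.1 _ he]
  obtain ⟨g', hg', hgg', hg'g⟩ := G.inv_mem g hg
  have h2 : ρ (act (NormedSpace.exp η) m) ≤ ρ m := by
    have h3 := h g' hg'
    rw [(hA.inv_act hg hgg' m).2] at h3
    rwa [h1, hρ.inv k hk] at h3
  have h4 := mn_fix hA hρ hm hη hs h2
  refine ⟨k, hk, η, h4, hs, hgk, ?_⟩
  rw [h1, Min_exp_fix hA h4]

theorem mn_stab_polar (hA : HolAct d G act) (hρ : Exh d G act ρ) {m : X} (hm : IsMn G act ρ m)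
    {g : Op n} (hg : g ∈ G.carrier) (h : act g m = m) :
    ∃ k ∈ G.K, ∃ η ∈ stab G act m, IsSelfAdjoint η ∧ g = k * NormedSpace.exp η ∧ act k m = m := by
  obtain ⟨k, hk, η, hη, hs, hgk, h1⟩ := mn_orbit hA hρ hm hg (by rw [h]; exact hm)
  exact ⟨k, hk, η, hη, hs, hgk, by rw [← h1, h]⟩

theorem mn_stab_starCl (hA : HolAct d G act) (hρ : Exh d G act ρ) {m : X}
    (hm : IsMn G act ρ m) : StarCl (stab G act m) := by
  intro ξ hξ
  have hl : ξ ∈ G.lie := stab_le m hξ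
  refine (mem_stab_real hA m (star ξ)).2 ⟨RedGrp.star_lie hl, fun t => ?_⟩
  have hg : NormedSpace.exp ((t : ℂ) • ξ) ∈ G.carrier := RedGrp.exp_smul_mem hl _
  obtain ⟨k, hk, η, hη, hs, hgk, hkm⟩ := mn_stab_polar hA hρ hm hg
    (((mem_stab_real hA m ξ).1 hξ).2 t)
  obtain ⟨hk', hkk', hk'k⟩ := RedGrp.star_K hk
  have h1 : ((t : ℂ) • star ξ : Op n) = star ((t : ℂ) • ξ) := by
    rw [star_smul]
    congr 1
    exact (Complex.conj_ofReal t).symm
  have h2 : act (star k) m = m := by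
    have h3 := (hA.inv_act hk.1 hkk' m).2
    rwa [hkm] at h3
  rw [h1, ← star_exp_op, hgk, star_mul, star_exp_op, hs.star_eq,
    hA.mul _ (RedGrp.exp_mem (stab_le m hη)) _ hk'.1, h2, Min_exp_fix hA hη]

private theorem Min_neg_sa {A : Type} [CStarAlgebra A] {w : A} (h : IsSelfAdjoint w) :
    IsSelfAdjoint (-w) := h.neg

private theorem Min_neg_smul {A : Type} [CStarAlgebra A] (c : ℂ) (w : A) :
    (-c) • w = c • (-w) := by
  rw [neg_smul, smul_neg]

/-- `ρ` does not increase along the path to a minimal point. -/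
theorem rho_le_of_mn (hA : HolAct d G act) (hρ : Exh d G act ρ) {w : Op n} (hw : w ∈ G.lie)
    (hs : IsSelfAdjoint w) (x : X) (h : IsMn G act ρ (act (NormedSpace.exp (-w)) x)) (τ : ℝ)
    (hτ : τ ∈ Icc (0 : ℝ) 1) : ρ (act (NormedSpace.exp ((-(τ : ℂ)) • w)) x) ≤ ρ x := by
  have hsn : IsSelfAdjoint (-w : Op n) := Min_neg_sa (A := Op n) hs
  have h1 := hρ.convex (-w) (G.lie.neg_mem hw) hsn x τ hτ
  have h2 : ρ (act (NormedSpace.exp (-w)) x) ≤ ρ x := by
    have h3 := h (NormedSpace.exp w) (RedGrp.exp_mem hw)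
    rwa [(hA.inv_act (RedGrp.exp_mem hw) (exp_neg_mul_self w).2 x).1] at h3
  have h4 : ((-(τ : ℂ)) • w : Op n) = (τ : ℂ) • (-w) := Min_neg_smul (A := Op n) _ w
  rw [h4]
  refine h1.trans ?_
  have h5 : τ * ρ (act (NormedSpace.exp (-w)) x) ≤ τ * ρ x := mul_le_mul_of_nonneg_left h2 hτ.1
  linarith

variable [TopologicalSpace Y] [ChartedSpace (Cd e) Y] [IsManifold 𝓘(ℂ, Cd e) 1 Y] [T2Space Y]
  {actY : Op n → Y → Y}

/-- A point of `Y` fixed by `K_m` is fixed by `G_m`. -/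
theorem mn_fixed_Y (hA : HolAct d G act) (hρ : Exh d G act ρ) (hB : HolAct e G actY) {m : X}
    (hm : IsMn G act ρ m) (y : Y) (h : ∀ k ∈ G.K, act k m = m → actY k y = y) (g : Op n)
    (hg : g ∈ G.carrier) (hgm : act g m = m) : actY g y = y := by
  obtain ⟨k, hk, η, hη, hs, hgk, hkm⟩ := mn_stab_polar hA hρ hm hg hgm
  have hl : η ∈ G.lie := stab_le m hη
  have h1 : ∀ s : ℝ, actY (NormedSpace.exp (((s : ℂ) * Complex.I) • η)) y = y := fun s =>
    h _ (RedGrp.exp_I_K hl hs s) (((mem_stab hA m η).1 hη).2 _)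
  have h2 := fixed_of_I hB hl y h1 1
  rw [one_smul] at h2
  rw [hgk, hB.mul k hk.1 _ (RedGrp.exp_mem hl), h2]
  exact h k hk hkm

end EqOka
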