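import Pool.Agent.Lib.MP_fe51c6_an_EO.Slice
import Pool.Agent.Lib.MP_fe51c6_an_EO.Min
import Pool.Agent.Lib.MP_fe51c6_an_EO.AdSq

/-! Local constancy of the conjugacy class of the stabiliser algebra. -/

open scoped Manifold Topology
open Set

noncomputable section

namespace EqOka

variable {n d : ℕ} {G : RedGrp n} {X : Type} [TopologicalSpace X] [ChartedSpace (Cd d) X]
  [IsManifold 𝓘(ℂ, Cd d) 1 X] [T2Space X] {act : Op n → X → X} {ρ : X → ℝ}

private theorem Cls_compl {W : Type} [AddCommGroup W] [Module ℂ W] (𝔩 𝔤 : Submodule ℂ W)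
    (h : 𝔩 ≤ 𝔤) : ∃ Q : Submodule ℂ W, Q ⊓ 𝔩 = ⊥ ∧ Q ⊔ 𝔩 = 𝔤 := by
  obtain ⟨C, hC⟩ := Submodule.exists_isCompl 𝔩
  refine ⟨C ⊓ 𝔤, ?_, ?_⟩
  · rw [inf_right_comm, inf_comm C, hC.inf_eq_bot, bot_inf_eq]
  · rw [sup_comm, ← sup_inf_assoc_of_le C h, hC.sup_eq_top, top_inf_eq]

/-- A complement of the stabiliser algebra in the Lie algebra. -/
theorem exists_complement (𝔩 𝔤 : Submodule ℂ (Op n)) (h : 𝔩 ≤ 𝔤) :
    ∃ Q : Submodule ℂ (Op n), Q ⊓ 𝔩 = ⊥ ∧ Q ⊔ 𝔩 = 𝔤 :=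
  Cls_compl 𝔩 𝔤 h

private theorem Cls_self_aux (x : X) : x ∈ Cls G act (stab G act x) :=
  ⟨1, G.one_mem, 1, G.one_mem, one_mul 1, one_mul 1, (conjS_one _).symm⟩

private theorem Cls_act_aux (hA : HolAct d G act) {𝔩 : Submodule ℂ (Op n)} {x : X}
    (hx : x ∈ Cls G act 𝔩) {g : Op n} (hg : g ∈ G.carrier) : act g x ∈ Cls G act 𝔩 := by
  obtain ⟨a, ha, b, hb, hab, hba, he⟩ := hx
  obtain ⟨h, hh, hgh, hhg⟩ := G.inv_mem g hg
  refine ⟨g * a, G.mul_mem _ hg _ ha, b * h, G.mul_mem _ hb _ hh, ?_, ?_, ?_⟩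
  · rw [mul_assoc, ← mul_assoc a, hab, one_mul, hgh]
  · rw [mul_assoc, ← mul_assoc h, hhg, one_mul, hba]
  · rw [stab_act hA hg hgh, he, conjS_conjS]

private theorem Cls_trans_aux {𝔩 : Submodule ℂ (Op n)} {x y : X}
    (hx : x ∈ Cls G act 𝔩) (hy : y ∈ Cls G act (stab G act x)) : y ∈ Cls G act 𝔩 := by
  obtain ⟨a, ha, b, hb, hab, hba, he⟩ := hx
  obtain ⟨g, hg, h, hh, hgh, hhg, he'⟩ := hy
  refine ⟨g * a, G.mul_mem _ hg _ ha, b * h, G.mul_mem _ hb _ hh, ?_, ?_, ?_⟩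
  · rw [mul_assoc, ← mul_assoc a, hab, one_mul, hgh]
  · rw [mul_assoc, ← mul_assoc h, hhg, one_mul, hba]
  · rw [he', he, conjS_conjS]

private theorem Cls_symm_aux {𝔩 : Submodule ℂ (Op n)} {g h : Op n} (hhg : h * g = 1)
    {𝔪 : Submodule ℂ (Op n)} (he : 𝔪 = conjS g h 𝔩) : 𝔩 = conjS h g 𝔪 := by
  rw [he, conjS_conjS, hhg, conjS_one]

theorem class_nhds (hA : HolAct d G act) (hρ : Exh d G act ρ) (hc : ClosedOrbits G act) (x : X) :
    ∀ᶠ y in 𝓝 x, y ∈ Cls G act (stab G act x) := by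
  obtain ⟨g, hg, hm⟩ := exists_mn hA hρ hc x
  obtain ⟨h, hh, hgh, hhg⟩ := G.inv_mem g hg
  have hst := mn_stab_starCl hA hρ hm
  obtain ⟨Q, hQ1, hQ2⟩ := exists_complement (stab G act (act g x)) G.lie (stab_le _)
  obtain ⟨Θ, P, π, hS⟩ := exists_slice hA hc (act g x) hst Q hQ1 hQ2
  have hQle : Q ≤ G.lie := hQ2 ▸ le_sup_left
  have key : ∀ z ∈ Θ.source, z ∈ Cls G act (stab G act (act g x)) := by
    intro z hz
    have hP : P (Θ z) ∈ G.lie := hQle (hS.maps _)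
    have e := exp_neg_mul_self (P (Θ z))
    have h1 : stab G act z = conjS (NormedSpace.exp (P (Θ z))) (NormedSpace.exp (-(P (Θ z))))
        (stab G act (act g x)) := by
      have h2 := hS.eq z hz
      have h3 := hS.stab_eq (Θ z) (Θ.map_source hz)
      have h4 := stab_act hA (RedGrp.exp_mem hP) e.2 (Θ.symm (π (Θ z)))
      rw [← h2, h3] at h4
      exact h4
    exact ⟨_, RedGrp.exp_mem hP, _, (RedGrp.inv_mem' (RedGrp.exp_mem hP) e.2).1, e.2, e.1, h1⟩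
  have hev : ∀ᶠ y in 𝓝 x, act g y ∈ Θ.source :=
    (hA.continuous_act hg).continuousAt.eventually (Θ.open_source.mem_nhds hS.mem)
  filter_upwards [hev] with y hy
  have h1 : y ∈ Cls G act (stab G act (act g x)) := by
    have h2 := Cls_act_aux hA (key _ hy) hh
    rwa [(hA.inv_act hg hgh y).2] at h2
  exact Cls_trans_aux (Cls_act_aux hA (Cls_self_aux x) hg) h1

theorem mem_Cls_self (hA : HolAct d G act) (x : X) : x ∈ Cls G act (stab G act x) :=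
  Cls_self_aux x

theorem Cls_act (hA : HolAct d G act) {𝔩 : Submodule ℂ (Op n)} {x : X} (hx : x ∈ Cls G act 𝔩)
    {g : Op n} (hg : g ∈ G.carrier) : act g x ∈ Cls G act 𝔩 :=
  Cls_act_aux hA hx hg

/-- Points in the same class have the same classes. -/
theorem Cls_congr (hA : HolAct d G act) {𝔩 : Submodule ℂ (Op n)} {x y : X}
    (hx : x ∈ Cls G act 𝔩) (hy : y ∈ Cls G act 𝔩) : y ∈ Cls G act (stab G act x) := by
  obtain ⟨a, ha, b, hb, hab, hba, he⟩ := hx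
  obtain ⟨g, hg, h, hh, hgh, hhg, he'⟩ := hy
  refine ⟨g * b, G.mul_mem _ hg _ hb, a * h, G.mul_mem _ ha _ hh, ?_, ?_, ?_⟩
  · rw [mul_assoc, ← mul_assoc b, hba, one_mul, hgh]
  · rw [mul_assoc, ← mul_assoc h, hhg, one_mul, hab]
  · rw [he', Cls_symm_aux hba he, conjS_conjS]

theorem Cls_trans (hA : HolAct d G act) {𝔩 : Submodule ℂ (Op n)} {x y : X}
    (hx : x ∈ Cls G act 𝔩) (hy : y ∈ Cls G act (stab G act x)) : y ∈ Cls G act 𝔩 :=
  Cls_trans_aux hx hy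

theorem finrank_Cls (hA : HolAct d G act) {𝔩 : Submodule ℂ (Op n)} {x : X}
    (hx : x ∈ Cls G act 𝔩) : Module.finrank ℂ (stab G act x) = Module.finrank ℂ 𝔩 := by
  obtain ⟨g, -, h, -, hgh, hhg, he⟩ := hx
  rw [he, finrank_conjS hgh hhg]

theorem isOpen_Cls (hA : HolAct d G act) (hρ : Exh d G act ρ) (hc : ClosedOrbits G act)
    (𝔩 : Submodule ℂ (Op n)) : IsOpen (Cls G act 𝔩 : Set X) := by
  rw [isOpen_iff_mem_nhds]
  intro y hy
  filter_upwards [class_nhds hA hρ hc y] with z hz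
  exact Cls_trans_aux hy hz

theorem isClosed_Cls (hA : HolAct d G act) (hρ : Exh d G act ρ) (hc : ClosedOrbits G act)
    (𝔩 : Submodule ℂ (Op n)) : IsClosed (Cls G act 𝔩 : Set X) := by
  rw [← isOpen_compl_iff, isOpen_iff_mem_nhds]
  intro x hx
  filter_upwards [class_nhds hA hρ hc x] with z hz hz'
  exact hx (Cls_trans_aux hz' (Cls_congr hA hz (Cls_self_aux x)))

private theorem Cls_eq_of_le {W : Type} [AddCommGroup W] [Module ℂ W] [FiniteDimensional ℂ W]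
    {𝔩 𝔪 : Submodule ℂ W} (h : 𝔩 ≤ 𝔪) (h' : Module.finrank ℂ 𝔪 = Module.finrank ℂ 𝔩) : 𝔪 = 𝔩 :=
  (Submodule.eq_of_le_of_finrank_eq h h'.symm).symm

private theorem Cls_SS_aux (𝔩 : Submodule ℂ (Op n)) :
    (SS G act 𝔩 : Set X) ⊆ Cls G act 𝔩 := by
  intro x hx
  exact ⟨1, G.one_mem, 1, G.one_mem, one_mul 1, one_mul 1, (show stab G act x = 𝔩 from hx).trans
    (conjS_one _).symm⟩

theorem isClosed_SS (hA : HolAct d G act) (hρ : Exh d G act ρ) (hc : ClosedOrbits G act)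
    (𝔩 : Submodule ℂ (Op n)) : IsClosed (SS G act 𝔩 : Set X) := by
  have h1 : (SS G act 𝔩 : Set X) = Cls G act 𝔩 ∩ {x | 𝔩 ≤ stab G act x} := by
    ext x
    constructor
    · intro hx
      exact ⟨Cls_SS_aux 𝔩 hx, (show stab G act x = 𝔩 from hx).ge⟩
    · rintro ⟨hx, hle⟩
      exact Cls_eq_of_le hle (finrank_Cls hA hx)
  rw [h1]
  exact (isClosed_Cls hA hρ hc 𝔩).inter (isClosed_le_stab hA 𝔩)

theorem SS_subset_Cls (hA : HolAct d G act) (𝔩 : Submodule ℂ (Op n)) :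
    (SS G act 𝔩 : Set X) ⊆ Cls G act 𝔩 :=
  Cls_SS_aux 𝔩

theorem conj_of_SS (hA : HolAct d G act) {𝔩 : Submodule ℂ (Op n)} {x : X}
    (hx : x ∈ SS G act 𝔩) {g h : Op n} (hg : g ∈ G.carrier) (hgh : g * h = 1)
    (hgx : act g x ∈ SS G act 𝔩) : conjS g h 𝔩 = 𝔩 := by
  have h1 : stab G act x = 𝔩 := hx
  have h2 : stab G act (act g x) = 𝔩 := hgx
  rw [stab_act hA hg hgh, h1] at h2
  exact h2

private theorem Cls_min_aux (hA : HolAct d G act) (hρ : Exh d G act ρ)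
    {𝔩 : Submodule ℂ (Op n)} (hs : StarCl 𝔩) {x : X} (hx : x ∈ Cls G act 𝔩)
    (hm : IsMn G act ρ x) : ∃ k ∈ G.K, ∃ m ∈ SS G act 𝔩, IsMn G act ρ m ∧ act k m = x := by
  obtain ⟨g, hg, h, hh, hgh, hhg, he⟩ := hx
  obtain ⟨k, hk, η, hη, hsa, rfl⟩ := RedGrp.polar_left hg
  obtain ⟨hk', hk1, hk2⟩ := RedGrp.star_K hk
  have e := exp_neg_mul_self η
  have hinv : h = NormedSpace.exp (-η) * star k := by
    calc h = (NormedSpace.exp (-η) * NormedSpace.exp η) * h := by rw [e.1, one_mul]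
      _ = NormedSpace.exp (-η) * ((star k * k) * (NormedSpace.exp η * h)) := by
          rw [hk2, one_mul, mul_assoc]
      _ = NormedSpace.exp (-η) * star k * (k * NormedSpace.exp η * h) := by
          simp only [mul_assoc]
      _ = NormedSpace.exp (-η) * star k := by rw [hgh, mul_one]
  have h1 : stab G act x = conjS k (star k)
      (conjS (NormedSpace.exp η) (NormedSpace.exp (-η)) 𝔩) := by
    rw [he, hinv, conjS_conjS]
  have h2 : conjS (NormedSpace.exp η) (NormedSpace.exp (-η)) 𝔩 =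
      conjS (star k) k (stab G act x) := Cls_symm_aux hk2 h1
  have h3 : StarCl (conjS (NormedSpace.exp η) (NormedSpace.exp (-η)) 𝔩) := by
    rw [h2]
    have h4 := starCl_conj_unitary (mn_stab_starCl hA hρ hm) hk'.2
    rwa [star_star] at h4
  have h5 : conjS (NormedSpace.exp η) (NormedSpace.exp (-η)) 𝔩 = 𝔩 :=
    conj_exp_of_bracket (bracket_of_starCl hs hsa h3)
  refine ⟨k, hk, act (star k) x, ?_, mn_K hA hρ hm hk', (hA.inv_act hk.1 hk1 x).1⟩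
  show stab G act (act (star k) x) = 𝔩
  rw [stab_act hA hk'.1 hk2, ← h2, h5]

/-- Every point of the class is a translate of a minimal point with stabiliser algebra `𝔩`. -/
theorem exists_mn_SS (hA : HolAct d G act) (hρ : Exh d G act ρ) (hc : ClosedOrbits G act)
    {𝔩 : Submodule ℂ (Op n)} (hs : StarCl 𝔩) {x : X} (hx : x ∈ Cls G act 𝔩) :
    ∃ g ∈ G.carrier, ∃ m ∈ SS G act 𝔩, IsMn G act ρ m ∧ act g m = x := by
  obtain ⟨g, hg, hm⟩ := exists_mn hA hρ hc x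
  obtain ⟨h, hh, hgh, hhg⟩ := G.inv_mem g hg
  obtain ⟨k, hk, m, hmS, hmn, hkm⟩ := Cls_min_aux hA hρ hs (Cls_act_aux hA hx hg) hm
  refine ⟨h * k, G.mul_mem _ hh _ hk.1, m, hmS, hmn, ?_⟩
  rw [hA.mul h hh k hk.1, hkm, (hA.inv_act hg hgh x).2]

/-- The same for a minimal point: the translation is in `K`. -/
theorem exists_K_SS (hA : HolAct d G act) (hρ : Exh d G act ρ) (hc : ClosedOrbits G act)
    {𝔩 : Submodule ℂ (Op n)} (hs : StarCl 𝔩) {x : X} (hx : x ∈ Cls G act 𝔩)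
    (hm : IsMn G act ρ x) : ∃ k ∈ G.K, ∃ m ∈ SS G act 𝔩, IsMn G act ρ m ∧ act k m = x :=
  Cls_min_aux hA hρ hs hx hm

end EqOka
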