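import Pool.Agent.Lib.MP_fe51c6_an_EO.SubAct
import Pool.Agent.Lib.MP_fe51c6_an_EO.Cls
import Pool.Agent.Lib.MP_fe51c6_an_EO.Agree

/-! Near a point `m` of `SS 𝔩`, `X` is parametrised by the group and `SS 𝔩`; consequences for
equivariant maps. -/

open scoped Manifold Topology
open Set

noncomputable section

namespace EqOka

variable {n d d' e : ℕ} {G : RedGrp n} {X Y : Type} [TopologicalSpace X] [ChartedSpace (Cd d) X]
  [IsManifold 𝓘(ℂ, Cd d) 1 X] [T2Space X] {act : Op n → X → X} {ρ : X → ℝ} [TopologicalSpace Y]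
  [ChartedSpace (Cd e) Y] [IsManifold 𝓘(ℂ, Cd e) 1 Y] {actY : Op n → Y → Y}
  {𝔩 : Submodule ℂ (Op n)} [ChartedSpace (Cd d') (SS G act 𝔩)]

/-- `x = exp(ξ(x)) s(x)` with `s(x) ∈ SS 𝔩` and holomorphic `ξ`, `s`. -/
theorem exists_sliceS (hA : HolAct d G act) (hc : ClosedOrbits G act) (hs : StarCl 𝔩)
    (hg : GoodSub d d' (SS G act 𝔩)) (m : SS G act 𝔩) :
    ∃ (s : X → SS G act 𝔩) (ξ : X → Op n), (∀ x, ξ x ∈ G.lie) ∧ s m = m ∧ ξ m = 0 ∧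
      ∀ᶠ x in 𝓝 (m : X), act (NormedSpace.exp (ξ x)) (s x) = x ∧
        MDifferentiableAt 𝓘(ℂ, Cd d) 𝓘(ℂ, Op n) ξ x ∧
        MDifferentiableAt 𝓘(ℂ, Cd d) 𝓘(ℂ, Cd d') s x := by
  classical
  have hst : stab G act (m : X) = 𝔩 := m.2
  obtain ⟨Q, hQ1, hQ2⟩ := exists_complement (stab G act (m : X)) G.lie (stab_le (m : X))
  obtain ⟨Θ, P, π, h⟩ := exists_slice hA hc (m : X) (by rw [hst]; exact hs) Q hQ1 hQ2
  have hQ : Q ≤ G.lie := by rw [← hQ2]; exact le_sup_left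
  have hmem : ∀ x : X, x ∈ Θ.source → Θ.symm (π (Θ x)) ∈ SS G act 𝔩 := by
    intro x hx
    change stab G act _ = 𝔩
    rw [h.stab_eq _ (Θ.map_source hx), hst]
  have hval : ∀ x (hx : x ∈ Θ.source),
      (if hx : x ∈ Θ.source then (⟨Θ.symm (π (Θ x)), hmem x hx⟩ : SS G act 𝔩) else m)
        = ⟨Θ.symm (π (Θ x)), hmem x hx⟩ := fun x hx => dif_pos hx
  refine ⟨fun x => if hx : x ∈ Θ.source then ⟨Θ.symm (π (Θ x)), hmem x hx⟩ else m,
    fun x => if x ∈ Θ.source then P (Θ x) else 0, ?_, ?_, ?_, ?_⟩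
  · intro x
    dsimp only
    split_ifs
    · exact hQ (h.maps _)
    · exact G.lie.zero_mem
  · dsimp only
    rw [hval (m : X) h.mem]
    apply Subtype.ext
    change Θ.symm (π (Θ m)) = m
    rw [h.zero, map_zero, ← h.zero]
    exact Θ.left_inv h.mem
  · dsimp only
    rw [if_pos h.mem, h.zero, map_zero]
  · filter_upwards [Θ.open_source.mem_nhds h.mem] with x hx
    have hxn : Θ.source ∈ 𝓝 x := Θ.open_source.mem_nhds hx
    refine ⟨?_, ?_, ?_⟩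
    · rw [hval x hx, if_pos hx]
      exact (h.eq x hx).symm
    · have h1 : MDifferentiableAt 𝓘(ℂ, Cd d) 𝓘(ℂ, Op n) (P ∘ Θ) x :=
        (P.mdifferentiableAt (x := Θ x)).comp x (h.hol.fwd x hx)
      refine h1.congr_of_eventuallyEq ?_
      filter_upwards [hxn] with y hy
      rw [if_pos hy]
      rfl
    · refine hg.lift (Cd d) (Cd d) X 𝓘(ℂ, Cd d) _ x ?_
      have h1 : MDifferentiableAt 𝓘(ℂ, Cd d) 𝓘(ℂ, Cd d) (π ∘ Θ) x :=
        (π.mdifferentiableAt (x := Θ x)).comp x (h.hol.fwd x hx)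
      have h2 : MDifferentiableAt 𝓘(ℂ, Cd d) 𝓘(ℂ, Cd d) (Θ.symm ∘ (π ∘ Θ)) x :=
        (h.hol.bwd _ (h.tgt _ (Θ.map_source hx))).comp x h1
      refine h2.congr_of_eventuallyEq ?_
      filter_upwards [hxn] with y hy
      rw [hval y hy]
      rfl

/-- An equivariant map is holomorphic near `m` if its restriction to `SS 𝔩` is. -/
theorem ext_hol (hA : HolAct d G act) (hB : HolAct e G actY) (hc : ClosedOrbits G act)
    (hs : StarCl 𝔩) (hg : GoodSub d d' (SS G act 𝔩)) (m : SS G act 𝔩) (u : X → Y)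
    (v : SS G act 𝔩 → Y) (hu : ∀ g ∈ G.carrier, ∀ x ∈ Cls G act 𝔩, u (act g x) = actY g (u x))
    (huv : ∀ᶠ s : SS G act 𝔩 in 𝓝 m, u s = v s) (hv : HolAt d' e v m) : HolAt d e u (m : X) := by
  obtain ⟨s, ξ, hξm, hsm, -, hE⟩ := exists_sliceS hA hc hs hg m
  have hsc : Filter.Tendsto s (𝓝 (m : X)) (𝓝 m) := by
    have h1 := hE.self_of_nhds.2.2.continuousAt.tendsto
    rwa [hsm] at h1
  have huv' := huv.eventually_nhds
  filter_upwards [hE.eventually_nhds, hsc.eventually huv', hsc.eventually hv] with x hx1 hx2 hx3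
  have hx0 := hx1.self_of_nhds
  have h1 : MDifferentiableAt 𝓘(ℂ, Cd d) 𝓘(ℂ, Cd e) (fun y => v (s y)) x :=
    MDifferentiableAt.comp x hx3 hx0.2.2
  have h2 := hB.mdiff 𝓘(ℂ, Cd d) ξ (fun y => v (s y)) x hξm hx0.2.1 h1
  refine h2.congr_of_eventuallyEq ?_
  have h3 : Filter.Tendsto s (𝓝 x) (𝓝 (s x)) := hx0.2.2.continuousAt.tendsto
  filter_upwards [hx1, h3.eventually hx2] with y hy1 hy2
  have h4 := hu (NormedSpace.exp (ξ y)) (G.exp_mem (hξm y)) (s y) (SS_subset_Cls hA 𝔩 (s y).2)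
  rw [hy1.1, hy2] at h4
  exact h4

/-- Equivariant maps whose restrictions to `SS 𝔩` agree to order `ℓ` at `m` agree to order `ℓ`
at `m`. -/
theorem ext_agree (hA : HolAct d G act) (hB : HolAct e G actY) (hc : ClosedOrbits G act)
    (hs : StarCl 𝔩) (hg : GoodSub d d' (SS G act 𝔩)) (m : SS G act 𝔩) (ℓ : ℕ) (u₁ u₂ : X → Y)
    (v₁ v₂ : SS G act 𝔩 → Y)
    (hu₁ : ∀ g ∈ G.carrier, ∀ x ∈ Cls G act 𝔩, u₁ (act g x) = actY g (u₁ x))
    (hu₂ : ∀ g ∈ G.carrier, ∀ x ∈ Cls G act 𝔩, u₂ (act g x) = actY g (u₂ x))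
    (huv₁ : ∀ᶠ s : SS G act 𝔩 in 𝓝 m, u₁ s = v₁ s)
    (huv₂ : ∀ᶠ s : SS G act 𝔩 in 𝓝 m, u₂ s = v₂ s)
    (hc₁ : ContinuousAt v₁ m) (hc₂ : ContinuousAt v₂ m) (h : AgreeTo d' e ℓ v₁ v₂ m) :
    AgreeTo d e ℓ u₁ u₂ (m : X) := by
  obtain ⟨s, ξ, hξm, hsm, -, hE⟩ := exists_sliceS hA hc hs hg m
  have hE0 := hE.self_of_nhds
  have hsc : Filter.Tendsto s (𝓝 (m : X)) (𝓝 m) := by
    have h1 := hE0.2.2.continuousAt.tendsto
    rwa [hsm] at h1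
  have := hg.mfd
  have h1 : AgreeTo d e ℓ (fun x => actY (NormedSpace.exp (ξ x)) (v₁ (s x)))
      (fun x => actY (NormedSpace.exp (ξ x)) (v₂ (s x))) (m : X) :=
    AgreeTo.comp_act hB hE0.2.2 hE0.2.1.continuousAt hξm (by rw [hsm]; exact hc₁)
      (by rw [hsm]; exact hc₂) (by rw [hsm]; exact h)
  have h2 : ∀ (u : X → Y) (v : SS G act 𝔩 → Y),
      (∀ g ∈ G.carrier, ∀ x ∈ Cls G act 𝔩, u (act g x) = actY g (u x)) →
      (∀ᶠ s : SS G act 𝔩 in 𝓝 m, u s = v s) →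
      ∀ᶠ x in 𝓝 (m : X), u x = actY (NormedSpace.exp (ξ x)) (v (s x)) := by
    intro u v hu huv
    filter_upwards [hE, hsc.eventually huv] with y hy1 hy2
    have h4 := hu (NormedSpace.exp (ξ y)) (G.exp_mem (hξm y)) (s y) (SS_subset_Cls hA 𝔩 (s y).2)
    rw [hy1.1, hy2] at h4
    exact h4
  exact h1.congr (h2 u₁ v₁ hu₁ huv₁) (h2 u₂ v₂ hu₂ huv₂)

end EqOka
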