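import Pool.Agent.Lib.MP_fe51c6_an_EO.C0Def
import Pool.Agent.Lib.MP_fe51c6_an_EO.OneClass

/-! The retraction on `SS 𝔩` is Hölder continuous with exponent `1/2` at minimal points. -/

open scoped Manifold Topology
open Set

noncomputable section

namespace EqOka

variable {n d d' e : ℕ} {G N : RedGrp n} {X Y : Type} [TopologicalSpace X] [ChartedSpace (Cd d) X]
  [IsManifold 𝓘(ℂ, Cd d) 1 X] [T2Space X] [SecondCountableTopology X] {act : Op n → X → X}
  {ρ : X → ℝ} {𝔩 : Submodule ℂ (Op n)} [ChartedSpace (Cd d') (SS G act 𝔩)] {w : X → Op n}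

private theorem C0Retr_exp_cont : Continuous (NormedSpace.exp : Op n → Op n) := by
  let _ : NormedAlgebra ℚ (Op n) := NormedAlgebra.restrictScalars ℚ ℂ (Op n)
  exact NormedSpace.exp_continuous

private theorem C0Retr_neg_aux {A : Type} [CStarAlgebra A] {w : A} (h : IsSelfAdjoint w) :
    IsSelfAdjoint (-w) := h.neg

private theorem C0Retr_one_aux {A : Type} [CStarAlgebra A] (w : A) : (-1 : ℂ) • w = -w := by
  rw [neg_smul, one_smul]

omit [SecondCountableTopology X] in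
private theorem C0Retr_fix (hA : HolAct d G act) {m : X} {η : Op n} (h : η ∈ stab G act m) :
    act (NormedSpace.exp η) m = m := by
  have h1 := ((mem_stab_real hA m η).1 h).2 1
  rwa [Complex.ofReal_one, one_smul] at h1

omit [SecondCountableTopology X] in
private theorem C0Retr_stab (hA : HolAct d G act) (hρ : Exh d G act ρ) (hw : Retr G act ρ w)
    {m : X} (hm : IsMn G act ρ m) : -w m ∈ stab G act m := by
  refine mn_fix hA hρ hm (G.lie.neg_mem (hw.mem m)) (C0Retr_neg_aux (A := Op n) (hw.sa m)) ?_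
  have h3 := hw.mn m (NormedSpace.exp (w m)) (RedGrp.exp_mem (hw.mem m))
  rwa [(hA.inv_act (RedGrp.exp_mem (hw.mem m)) (exp_neg_mul_self (w m)).2 m).1] at h3

/-- a quantitative form of the estimate for the action of `N` -/
private theorem C0Retr_est {S : Type} [TopologicalSpace S] [ChartedSpace (Cd d') S]
    [IsManifold 𝓘(ℂ, Cd d') 1 S] {sA : Op n → S → S} (hAS : HolAct d' N sA) (m : S)
    (W a b : S → Op n) (hW : ∀ s, W s ∈ N.lie) (ha : ∀ s, a s ∈ N.lie) (hab : ∀ s, W s = a s + b s)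
    (hWc : ContinuousAt W m) (hb : Filter.Tendsto b (𝓝 m) (𝓝 0))
    (hWm : sA (NormedSpace.exp (-W m)) m = m) (ham : ∀ s, sA (NormedSpace.exp (-a s)) m = m)
    (C : ℝ) (hbC : ∀ᶠ s in 𝓝 m, ‖b s‖ ^ 2 ≤ C * ‖chartAt (Cd d') m s - chartAt (Cd d') m m‖) :
    ∃ C' : ℝ, ∀ᶠ s in 𝓝 m,
      ‖chartAt (Cd d') m (sA (NormedSpace.exp (-W s)) s) - chartAt (Cd d') m m‖ ^ 2 ≤
        C' * ‖chartAt (Cd d') m s - chartAt (Cd d') m m‖ := by
  obtain ⟨c, _, hc⟩ := N.exists_coord
  set χ := chartAt (Cd d') m with hχ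
  have hWn : ∀ s, -W s ∈ N.lie := fun s => N.lie.neg_mem (hW s)
  have han : ∀ s, -a s ∈ N.lie := fun s => N.lie.neg_mem (ha s)
  have hac : Filter.Tendsto a (𝓝 m) (𝓝 (W m)) := by
    have h1 : Filter.Tendsto (fun s => W s - b s) (𝓝 m) (𝓝 (W m - 0)) := hWc.tendsto.sub hb
    rw [sub_zero] at h1
    refine h1.congr fun s => ?_
    rw [hab s, add_sub_cancel_right]
  -- first bracket
  have hΘ : ∀ᶠ q in 𝓝 (c (-W m), chartAt (Cd d') m m),
      MDifferentiableAt 𝓘(ℂ, Cd N.dim × Cd d') 𝓘(ℂ, Cd d')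
      (fun q : Cd N.dim × Cd d' => sA (NormedSpace.exp (N.bas q.1))
        ((chartAt (Cd d') m).symm q.2)) q := by
    have ht : ∀ᶠ q in 𝓝 (c (-W m), chartAt (Cd d') m m), q.2 ∈ (chartAt (Cd d') m).target := by
      refine (continuous_snd.tendsto _).eventually_mem ?_
      exact (chartAt (Cd d') m).open_target.mem_nhds
        ((chartAt (Cd d') m).map_source (mem_chart_source _ _))
    filter_upwards [ht] with q hq
    refine hAS.mdiff 𝓘(ℂ, Cd N.dim × Cd d') (fun q : Cd N.dim × Cd d' => N.bas q.1)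
      (fun q : Cd N.dim × Cd d' => (chartAt (Cd d') m).symm q.2) q
      (fun q => N.bas_mem q.1) ?_ ?_
    · rw [mdifferentiableAt_iff_differentiableAt]
      exact N.bas.differentiableAt.comp q differentiableAt_fst
    · refine MDifferentiableAt.comp q (mdifferentiableAt_atlas_symm (chart_mem_atlas _ _) hq) ?_
      rw [mdifferentiableAt_iff_differentiableAt]
      exact differentiableAt_snd
  have hπ : Filter.Tendsto (fun s => c (-W s)) (𝓝 m) (𝓝 (c (-W m))) :=
    (c.continuous.tendsto _).comp hWc.tendsto.neg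
  have h1 := Agree.isBigO_family (Θ := fun v y => sA (NormedSpace.exp (N.bas v)) y) hΘ hπ
    (Filter.tendsto_id (α := S) (x := 𝓝 m)) (tendsto_const_nhds (x := m))
  simp only [hc _ (hWn _), hWm, id_eq] at h1
  -- second bracket
  have hd : ∀ᶠ v in 𝓝 (c (-W m)), DifferentiableAt ℂ
      (fun v => χ (sA (NormedSpace.exp (N.bas v)) m)) v := by
    have hmd : ∀ v, MDifferentiableAt 𝓘(ℂ, Cd N.dim) 𝓘(ℂ, Cd d')
        (fun v : Cd N.dim => sA (NormedSpace.exp (N.bas v)) m) v := fun v =>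
      hAS.mdiff 𝓘(ℂ, Cd N.dim) (fun v : Cd N.dim => N.bas v) (fun _ => m) v
        (fun v => N.bas_mem v)
        (by
          rw [mdifferentiableAt_iff_differentiableAt]
          exact N.bas.differentiableAt) mdifferentiableAt_const
    have hsrc : ∀ᶠ v in 𝓝 (c (-W m)), sA (NormedSpace.exp (N.bas v)) m ∈ χ.source := by
      refine (hmd (c (-W m))).continuousAt.eventually_mem ?_
      rw [hc _ (hWn m), hWm]
      exact χ.open_source.mem_nhds (mem_chart_source _ _)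
    filter_upwards [hsrc] with v hv
    rw [← mdifferentiableAt_iff_differentiableAt]
    exact MDifferentiableAt.comp v (mdifferentiableAt_atlas (chart_mem_atlas _ _) hv) (hmd v)
  have h2 := (hasStrictFDerivAt_of_eventually _ _ hd).isBigO_sub
  have hπa : Filter.Tendsto (fun s => c (-a s)) (𝓝 m) (𝓝 (c (-W m))) :=
    (c.continuous.tendsto _).comp hac.neg
  have h3 := h2.comp_tendsto (hπ.prodMk_nhds hπa)
  have h4 : (fun s => χ (sA (NormedSpace.exp (-W s)) m) - χ m) =O[𝓝 m] fun s => b s := by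
    have e1 : ((fun x : Cd N.dim × Cd N.dim => χ (sA (NormedSpace.exp (N.bas x.1)) m) -
        χ (sA (NormedSpace.exp (N.bas x.2)) m)) ∘ fun s => (c (-W s), c (-a s))) =
        fun s => χ (sA (NormedSpace.exp (-W s)) m) - χ m := by
      funext s
      simp only [Function.comp_apply, hc _ (hWn _), hc _ (han _), ham]
    have e2 : ((fun x : Cd N.dim × Cd N.dim => x.1 - x.2) ∘ fun s => (c (-W s), c (-a s))) =
        fun s => c (-(b s)) := by
      funext s
      simp only [Function.comp_apply]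
      rw [← map_sub, hab s]
      congr 1
      abel
    rw [e1, e2] at h3
    refine h3.trans ?_
    refine Asymptotics.isBigO_of_le' (c := ‖c‖) _ fun s => ?_
    have h5 := c.le_opNorm (-(b s))
    rwa [norm_neg] at h5
  obtain ⟨C₃, hC₃⟩ := h1.bound
  obtain ⟨C₄, hC₄⟩ := h4.bound
  have hχc : Filter.Tendsto (fun s => ‖χ s - χ m‖) (𝓝 m) (𝓝 0) := by
    have h5 : Filter.Tendsto χ (𝓝 m) (𝓝 (χ m)) := χ.continuousAt (mem_chart_source _ _)
    have h6 : Filter.Tendsto (fun s => ‖χ s - χ m‖) (𝓝 m) (𝓝 ‖χ m - χ m‖) :=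
      (h5.sub tendsto_const_nhds).norm
    rwa [sub_self, norm_zero] at h6
  have hle1 : ∀ᶠ s in 𝓝 m, ‖χ s - χ m‖ < 1 := hχc.eventually_lt_const one_pos
  refine ⟨2 * C₃ ^ 2 + 2 * C₄ ^ 2 * C, ?_⟩
  filter_upwards [hC₃, hC₄, hle1, hbC] with s g3 g4 g1 gb
  have t0 : 0 ≤ ‖χ s - χ m‖ := norm_nonneg _
  have t1 : ‖χ (sA (NormedSpace.exp (-W s)) s) - χ m‖ ≤
      ‖χ (sA (NormedSpace.exp (-W s)) s) - χ (sA (NormedSpace.exp (-W s)) m)‖ +
        ‖χ (sA (NormedSpace.exp (-W s)) m) - χ m‖ := norm_sub_le_norm_sub_add_norm_sub _ _ _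
  set P := ‖χ (sA (NormedSpace.exp (-W s)) s) - χ (sA (NormedSpace.exp (-W s)) m)‖ with hP
  set Q := ‖χ (sA (NormedSpace.exp (-W s)) m) - χ m‖ with hQ
  have p0 : 0 ≤ P := norm_nonneg _
  have q0 : 0 ≤ Q := norm_nonneg _
  have u1 : P ^ 2 ≤ C₃ ^ 2 * ‖χ s - χ m‖ := by
    have v1 : P ^ 2 ≤ (C₃ * ‖χ s - χ m‖) ^ 2 := pow_le_pow_left₀ p0 g3 2
    have v2 : (C₃ * ‖χ s - χ m‖) ^ 2 = C₃ ^ 2 * (‖χ s - χ m‖ * ‖χ s - χ m‖) := by ring
    rw [v2] at v1
    refine v1.trans (mul_le_mul_of_nonneg_left ?_ (sq_nonneg _))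
    nlinarith
  have u2 : Q ^ 2 ≤ C₄ ^ 2 * C * ‖χ s - χ m‖ := by
    have v1 : Q ^ 2 ≤ (C₄ * ‖b s‖) ^ 2 := pow_le_pow_left₀ q0 g4 2
    have v2 : (C₄ * ‖b s‖) ^ 2 = C₄ ^ 2 * ‖b s‖ ^ 2 := by ring
    rw [v2] at v1
    refine v1.trans ?_
    rw [mul_assoc]
    exact mul_le_mul_of_nonneg_left gb (sq_nonneg _)
  have u3 : ‖χ (sA (NormedSpace.exp (-W s)) s) - χ m‖ ^ 2 ≤ (P + Q) ^ 2 :=
    pow_le_pow_left₀ (norm_nonneg _) t1 2
  nlinarith [sq_nonneg (P - Q)]

theorem retr_holder_SS (hA : HolAct d G act) (hρ : Exh d G act ρ) (hh : Hold d G act ρ)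
    (hw : Retr G act ρ w) (hs : StarCl 𝔩) (hg : GoodSub d d' (SS G act 𝔩)) (hN : IsNorm G N 𝔩)
    (hAS : HolAct d' N (subAct (SS G act 𝔩) act)) (m : SS G act 𝔩) (hm : IsMn G act ρ (m : X)) :
    ContinuousAt (fun s : SS G act 𝔩 =>
      subAct (SS G act 𝔩) act (NormedSpace.exp (-w s)) s) m ∧
    subAct (SS G act 𝔩) act (NormedSpace.exp (-w m)) m = m ∧
    ∃ C : ℝ, ∀ᶠ s : SS G act 𝔩 in 𝓝 m,
      ‖chartAt (Cd d') m (subAct (SS G act 𝔩) act (NormedSpace.exp (-w s)) s) -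
        chartAt (Cd d') m m‖ ^ 2 ≤ C * ‖chartAt (Cd d') m s - chartAt (Cd d') m m‖ := by
  have hmfd := hg.mfd
  have hst : stab G act (m : X) = 𝔩 := m.2
  have hwN : ∀ s : SS G act 𝔩, w s ∈ N.lie := fun s => (retr_SS hA hρ hw hs hN s).1
  have hval : ∀ s : SS G act 𝔩, ((subAct (SS G act 𝔩) act (NormedSpace.exp (-w s)) s :
      SS G act 𝔩) : X) = act (NormedSpace.exp (-w s)) s := by
    intro s
    have h2 := (retr_SS hA hρ hw hs hN s).2 (-1)
    rw [C0Retr_one_aux (A := Op n)] at h2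
    exact subAct_val act h2
  have hwm : -w m ∈ stab G act (m : X) := C0Retr_stab hA hρ hw hm
  have hfix : subAct (SS G act 𝔩) act (NormedSpace.exp (-w m)) m = m := by
    apply Subtype.ext
    rw [hval]
    exact C0Retr_fix hA hwm
  have hwc : Continuous fun s : SS G act 𝔩 => w s := hw.cont.comp continuous_subtype_val
  refine ⟨?_, hfix, ?_⟩
  · have h1 : ContinuousOn (fun s : SS G act 𝔩 =>
        subAct (SS G act 𝔩) act (NormedSpace.exp (-w s)) s) univ :=
      hAS.continuous_comp (g := fun s : SS G act 𝔩 => NormedSpace.exp (-w s)) (u := fun s => s)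
        ((C0Retr_exp_cont (n := n)).comp hwc.neg).continuousOn
        (fun s _ => RedGrp.exp_mem (N.lie.neg_mem (hwN s))) continuousOn_id
    exact (continuousOn_univ.1 h1).continuousAt
  · have hlN : 𝔩 ≤ N.lie := by
      intro ξ hξ
      refine (hN.lie ξ).2 ⟨?_, fun ζ hζ => ?_⟩
      · rw [← hst] at hξ
        exact stab_le _ hξ
      · have h1 := stab_brCl hA (m : X)
        rw [hst] at h1
        exact h1 ξ hξ ζ hζ
    choose a ha b hb hab using fun s : SS G act 𝔩 => exists_orth_decomp 𝔩 (w s)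
    obtain ⟨C₁, hC₁⟩ := hh w hw m hm
    have hv : Filter.Tendsto (Subtype.val : SS G act 𝔩 → X) (𝓝 m) (𝓝 (m : X)) :=
      continuous_subtype_val.continuousAt
    obtain ⟨C₂, hC₂⟩ := (Agree.isBigO_chart (d := d') (d' := d) (s := (Subtype.val : SS G act 𝔩 → X))
      (x₀ := m) rfl (hg.incl m)).bound
    have hbC : ∀ᶠ s in 𝓝 m, ‖b s‖ ^ 2 ≤
        (|C₁| * |C₂|) * ‖chartAt (Cd d') m s - chartAt (Cd d') m m‖ := by
      filter_upwards [hv.eventually hC₁, hC₂] with s h1 h2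
      have h3 := h1 (a s) (by rw [hst]; exact ha s) (b s) (by rw [hst]; exact hb s) (hab s)
      have t1 := norm_nonneg (chartAt (Cd d) (m : X) (s : X) - chartAt (Cd d) (m : X) (m : X))
      have t2 := norm_nonneg (chartAt (Cd d') m s - chartAt (Cd d') m m)
      calc ‖b s‖ ^ 2 ≤ C₁ * ‖chartAt (Cd d) (m : X) (s : X) - chartAt (Cd d) (m : X) (m : X)‖ := h3
        _ ≤ |C₁| * ‖chartAt (Cd d) (m : X) (s : X) - chartAt (Cd d) (m : X) (m : X)‖ :=
          mul_le_mul_of_nonneg_right (le_abs_self _) t1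
        _ ≤ |C₁| * (C₂ * ‖chartAt (Cd d') m s - chartAt (Cd d') m m‖) :=
          mul_le_mul_of_nonneg_left h2 (abs_nonneg _)
        _ ≤ |C₁| * (|C₂| * ‖chartAt (Cd d') m s - chartAt (Cd d') m m‖) :=
          mul_le_mul_of_nonneg_left (mul_le_mul_of_nonneg_right (le_abs_self _) t2) (abs_nonneg _)
        _ = _ := by ring
    have hb0 : Filter.Tendsto b (𝓝 m) (𝓝 0) := by
      have h5 : Filter.Tendsto (chartAt (Cd d') m) (𝓝 m) (𝓝 (chartAt (Cd d') m m)) :=
        (chartAt (Cd d') m).continuousAt (mem_chart_source _ _)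
      have h6 : Filter.Tendsto (fun s => (|C₁| * |C₂|) *
          ‖chartAt (Cd d') m s - chartAt (Cd d') m m‖) (𝓝 m) (𝓝 ((|C₁| * |C₂|) *
          ‖chartAt (Cd d') m m - chartAt (Cd d') m m‖)) :=
        (h5.sub tendsto_const_nhds).norm.const_mul _
      rw [sub_self, norm_zero, mul_zero] at h6
      have h7 : Filter.Tendsto (fun s => ‖b s‖ ^ 2) (𝓝 m) (𝓝 0) :=
        squeeze_zero' (Filter.Eventually.of_forall fun s => sq_nonneg _) hbC h6
      rw [tendsto_zero_iff_norm_tendsto_zero]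
      have h8 := h7.sqrt
      rw [Real.sqrt_zero] at h8
      refine h8.congr fun s => ?_
      exact Real.sqrt_sq (norm_nonneg _)
    refine C0Retr_est (N := N) hAS m (fun s => w s) a b hwN (fun s => hlN (ha s)) hab
      hwc.continuousAt hb0 hfix (fun s => ?_) _ hbC
    have h1 : -a s ∈ stab G act (m : X) := by
      rw [hst]
      exact 𝔩.neg_mem (ha s)
    have h2 : act (NormedSpace.exp (-a s)) m = m := C0Retr_fix hA h1
    apply Subtype.ext
    rw [subAct_val act (by rw [h2]; exact m.2)]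
    exact h2

end EqOka
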