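import Pool.Agent.Lib.MP_fe51c6_an_EO.C0Agr
import Pool.Agent.Lib.MP_fe51c6_an_EO.C0Retr

/-! The literal form of part (c) on one class. -/

open scoped Manifold Topology
open Set

set_option linter.unusedSectionVars false

noncomputable section

namespace EqOka

variable {n d d' e : ℕ} {G N : RedGrp n} {X Y : Type} [TopologicalSpace X] [ChartedSpace (Cd d) X]
  [IsManifold 𝓘(ℂ, Cd d) 1 X] [T2Space X] [SecondCountableTopology X] {act : Op n → X → X}
  {ρ : X → ℝ} [TopologicalSpace Y] [ChartedSpace (Cd e) Y] [IsManifold 𝓘(ℂ, Cd e) 1 Y] [T2Space Y]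
  {actY : Op n → Y → Y} {𝔩 : Submodule ℂ (Op n)} [ChartedSpace (Cd d') (SS G act 𝔩)]
  {w : X → Op n}

private theorem C0Class_neg_one {A : Type} [CStarAlgebra A] (w : A) :
    (-((1 : ℝ) : ℂ)) • w = -w := by
  rw [Complex.ofReal_one, neg_smul, one_smul]

private theorem C0Class_inv (hA : HolAct d G act) (hN : IsNorm G N 𝔩) :
    Invt N.carrier act (SS G act 𝔩) := by
  intro g hg' x hx
  obtain ⟨hgG, hgc⟩ := (hN.car g).1 hg'
  obtain ⟨h, hh, hgh, hhg⟩ := G.inv_mem g hgG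
  change stab G act (act g x) = 𝔩
  rw [stab_act hA hgG hgh x]
  have h3 : stab G act x = 𝔩 := hx
  rw [h3]
  exact hgc h hgh

private theorem C0Class_le (hN : IsNorm G N 𝔩) : N.carrier ⊆ G.carrier :=
  fun g hg => ((hN.car g).1 hg).1

/-- The restriction of an equivariant map is equivariant. -/
private theorem C0Class_eqvt (hA : HolAct d G act) (hN : IsNorm G N 𝔩) {f : X → Y}
    (hf : Eqvt G.carrier act actY f) :
    Eqvt N.K (subAct (SS G act 𝔩) act) actY (fun s : SS G act 𝔩 => f s) := by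
  intro k hk s
  change f ((subAct (SS G act 𝔩) act k s : SS G act 𝔩) : X) = actY k (f s)
  rw [subAct_val act (C0Class_inv hA hN k hk.1 _ s.2)]
  exact hf k (C0Class_le hN hk.1) s

private theorem C0Class_invt (hA : HolAct d G act) (hN : IsNorm G N 𝔩) {Z : Set X}
    (hZ : Invt G.carrier act Z) :
    Invt N.carrier (subAct (SS G act 𝔩) act) (Subtype.val ⁻¹' Z : Set (SS G act 𝔩)) := by
  intro g hg s hs
  change ((subAct (SS G act 𝔩) act g s : SS G act 𝔩) : X) ∈ Z
  rw [subAct_val act (C0Class_inv hA hN g hg _ s.2)]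
  exact hZ g (C0Class_le hN hg) _ hs

/-- Equivariance near a point of the class. -/
private theorem C0Class_near (hA : HolAct d G act) (hρ : Exh d G act ρ)
    (hc : ClosedOrbits G act) {u : X → Y}
    (hu : ∀ g ∈ G.carrier, ∀ x ∈ Cls G act 𝔩, u (act g x) = actY g (u x)) {g : Op n}
    (hg : g ∈ G.carrier) {x : X} (hx : x ∈ Cls G act 𝔩) :
    ∀ᶠ y in 𝓝 x, u (act g y) = actY g (u y) := by
  filter_upwards [(isOpen_Cls hA hρ hc 𝔩).mem_nhds hx] with y hy
  exact hu g hg y hy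

/-- The extension of an equivariant holomorphic map is holomorphic. -/
private theorem C0Class_hol (hA : HolAct d G act) (hB : HolAct e G actY) (hρ : Exh d G act ρ)
    (hc : ClosedOrbits G act) (hw : Retr G act ρ w) (hs : StarCl 𝔩)
    (hg : GoodSub d d' (SS G act 𝔩)) (hN : IsNorm G N 𝔩) (v : SS G act 𝔩 → Y) (u : X → Y)
    (hu : ∀ g ∈ G.carrier, ∀ m : SS G act 𝔩, IsMn G act ρ (m : X) → u (act g m) = actY g (v m))
    (hvh : Hol d' e v) (hve : Eqvt N.carrier (subAct (SS G act 𝔩) act) actY v) :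
    ∀ x ∈ Cls G act 𝔩, HolAt d e u x := by
  intro x hx
  have hEq := ext_equivariant hA hB hρ hc hs v u hu
  have huv : ∀ s : SS G act 𝔩, u s = v s := fun s =>
    ext_eq_of_pathEq hA hB hρ hw hs hN v u hu s fun τ _ =>
      hve _ (RedGrp.exp_smul_mem (retr_SS hA hρ hw hs hN s).1 _) s
  obtain ⟨g, hgG, m, hm, hmn, rfl⟩ := exists_mn_SS hA hρ hc hs hx
  have h1 : HolAt d e u m := ext_hol hA hB hc hs hg ⟨m, hm⟩ u v hEq
    (Filter.Eventually.of_forall huv) (Filter.Eventually.of_forall fun s => hvh s)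
  exact hA.holAt_translate hB hgG
    (C0Class_near hA hρ hc hEq hgG (SS_subset_Cls hA 𝔩 hm)) h1

/-- The set of all `(x, y)` such that `(g x, g y) ∈ W` for all `g ∈ C` with `g x ∈ A` is open. -/
private theorem C0Class_open (hA : HolAct d G act) (hB : HolAct e G actY) {A : Set X}
    (hAc : IsClosed A) {C : Set (Op n)} (hC : IsCompact C) (hCG : C ⊆ G.carrier)
    {W : Set (X × Y)} (hW : IsOpen W) :
    IsOpen {p : X × Y | ∀ g ∈ C, act g p.1 ∈ A → (act g p.1, actY g p.2) ∈ W} := by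
  have : CompactSpace C := isCompact_iff_compactSpace.1 hC
  have h1 : Continuous fun q : (X × Y) × C => act (q.2 : Op n) q.1.1 := by
    rw [← continuousOn_univ]
    exact HolAct.continuous_comp hA (g := fun q : (X × Y) × C => (q.2 : Op n))
      (u := fun q => q.1.1) (continuous_subtype_val.comp continuous_snd).continuousOn
      (fun q _ => hCG q.2.2) (continuous_fst.comp continuous_fst).continuousOn
  have h2 : Continuous fun q : (X × Y) × C => actY (q.2 : Op n) q.1.2 := by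
    rw [← continuousOn_univ]
    exact HolAct.continuous_comp hB (g := fun q : (X × Y) × C => (q.2 : Op n))
      (u := fun q => q.1.2) (continuous_subtype_val.comp continuous_snd).continuousOn
      (fun q _ => hCG q.2.2) (continuous_snd.comp continuous_fst).continuousOn
  have h3 : IsOpen {q : (X × Y) × C | act (q.2 : Op n) q.1.1 ∈ A →
      (act (q.2 : Op n) q.1.1, actY (q.2 : Op n) q.1.2) ∈ W} := by
    have h4 : {q : (X × Y) × C | act (q.2 : Op n) q.1.1 ∈ A →
        (act (q.2 : Op n) q.1.1, actY (q.2 : Op n) q.1.2) ∈ W} =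
        (fun q : (X × Y) × C => act (q.2 : Op n) q.1.1) ⁻¹' Aᶜ ∪
        (fun q : (X × Y) × C => (act (q.2 : Op n) q.1.1, actY (q.2 : Op n) q.1.2)) ⁻¹' W := by
      ext q
      exact imp_iff_not_or
    rw [h4]
    exact (hAc.isOpen_compl.preimage h1).union (hW.preimage (h1.prodMk h2))
  rw [isOpen_iff_mem_nhds]
  intro p hp
  have h4 : ∀ᶠ q in 𝓝 p, ∀ g ∈ (univ : Set C), act (g : Op n) q.1 ∈ A →
      (act (g : Op n) q.1, actY (g : Op n) q.2) ∈ W :=
    isCompact_univ.eventually_forall_of_forall_eventually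
      (P := fun (q : X × Y) (g : C) => act (g : Op n) q.1 ∈ A →
        (act (g : Op n) q.1, actY (g : Op n) q.2) ∈ W) fun g _ =>
        h3.mem_nhds (hp g g.2)
  filter_upwards [h4] with q hq g hg
  exact hq ⟨g, hg⟩ trivial

private theorem C0Class_exp_cont : Continuous (NormedSpace.exp : Op n → Op n) := by
  let _ : NormedAlgebra ℚ (Op n) := NormedAlgebra.restrictScalars ℚ ℂ (Op n)
  exact NormedSpace.exp_continuous

/-- The sublevel sets of `ρ` on `SS 𝔩`. -/
private theorem C0Class_sub (hA : HolAct d G act) (hρ : Exh d G act ρ)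
    (hc : ClosedOrbits G act) (hg : GoodSub d d' (SS G act 𝔩)) (hN : IsNorm G N 𝔩) (c : ℝ) :
    IsCompact {s : SS G act 𝔩 | ρ s ≤ c} ∧
      Invt N.K (subAct (SS G act 𝔩) act) {s : SS G act 𝔩 | ρ s ≤ c} ∧
      hull d' {s : SS G act 𝔩 | ρ s ≤ c} ⊆ {s : SS G act 𝔩 | ρ s ≤ c} := by
  refine ⟨?_, ?_, ?_⟩
  · exact (isClosed_SS hA hρ hc 𝔩).isClosedEmbedding_subtypeVal.isCompact_preimage
      (hρ.proper c)
  · intro k hk s hs'
    change ρ ((subAct (SS G act 𝔩) act k s : SS G act 𝔩) : X) ≤ c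
    rw [subAct_val act (C0Class_inv hA hN k hk.1 _ s.2),
      hρ.inv k (RedGrp.K_le (C0Class_le hN) hk)]
    exact hs'
  · intro s hs'
    by_contra hn
    have hn' : c < ρ s := not_le.1 hn
    obtain ⟨h, hh, h1, h2⟩ := hρ.hconv c s hn'
    exact absurd (hs' (fun x : SS G act 𝔩 => h x) (sub_holFun hg hh) 1 fun a ha => h1 a ha)
      (not_le.2 h2)

/-- Agreement of the extension with `f` at a translate of a minimal point `m`. -/
private theorem C0Class_pt (hA : HolAct d G act) (hB : HolAct e G actY) (hρ : Exh d G act ρ)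
    (hh : Hold d G act ρ) (hc : ClosedOrbits G act) (hw : Retr G act ρ w) (hs : StarCl 𝔩)
    (hg : GoodSub d d' (SS G act 𝔩)) (hN : IsNorm G N 𝔩)
    (hAS : HolAct d' N (subAct (SS G act 𝔩) act)) (v : SS G act 𝔩 → Y) (u : X → Y)
    (hu : ∀ g ∈ G.carrier, ∀ m : SS G act 𝔩, IsMn G act ρ (m : X) → u (act g m) = actY g (v m))
    (m : SS G act 𝔩) (hmn : IsMn G act ρ (m : X)) (hv : ContinuousAt v m)
    (huc : ContinuousAt u (m : X)) {g : Op n} (hgG : g ∈ G.carrier) (ℓ : ℕ) (f : X → Y)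
    (hfc : Continuous f) (hf : Eqvt G.carrier act actY f)
    (hag : AgreeTo d' e (2 * ℓ + 1) v (fun s : SS G act 𝔩 => f s) m) :
    AgreeTo d e ℓ u f (act g m) := by
  have hmfd := hg.mfd
  have hEq := ext_equivariant hA hB hρ hc hs v u hu
  have hmC : (m : X) ∈ Cls G act 𝔩 := SS_subset_Cls hA 𝔩 m.2
  have hne := C0Class_near hA hρ hc hEq hgG hmC
  have hfE : ∀ g ∈ G.carrier, ∀ x ∈ Cls G act 𝔩, f (act g x) = actY g (f x) :=
    fun g hg x _ => hf g hg x
  obtain ⟨hr, hrm, C, hC⟩ := retr_holder_SS hA hρ hh hw hs hg hN hAS m hmn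
  have h1 := AgreeTo.comp_act_half hB (ξ := fun s : SS G act 𝔩 => w s) hr hrm
    (hw.cont.comp continuous_subtype_val).continuousAt (fun s => hw.mem s) C hC hv
    (hfc.comp continuous_subtype_val).continuousAt hag
  have hval : ∀ s : SS G act 𝔩,
      ((subAct (SS G act 𝔩) act (NormedSpace.exp (-w (s : X))) s : SS G act 𝔩) : X)
        = act (NormedSpace.exp (-w (s : X))) s := by
    intro s
    have h2 := (retr_SS hA hρ hw hs hN s).2 (-((1 : ℝ) : ℂ))
    rw [C0Class_neg_one (A := Op n) (w (s : X))] at h2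
    exact subAct_val act h2
  have hG : ∀ s : SS G act 𝔩, NormedSpace.exp (w (s : X)) ∈ G.carrier :=
    fun s => RedGrp.exp_mem (hw.mem s)
  have hback : ∀ s : SS G act 𝔩,
      act (NormedSpace.exp (w (s : X))) (act (NormedSpace.exp (-w (s : X))) (s : X)) = s :=
    fun s => (hA.inv_act (hG s) (exp_neg_mul_self (w (s : X))).2 (s : X)).1
  have h2 : AgreeTo d' e ℓ (fun s : SS G act 𝔩 => u s) (fun s : SS G act 𝔩 => f s) m := by
    refine h1.congr (Filter.Eventually.of_forall fun s => ?_)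
      (Filter.Eventually.of_forall fun s => ?_)
    · have h3 := hu _ (hG s) (subAct (SS G act 𝔩) act (NormedSpace.exp (-w (s : X))) s)
        (by rw [hval s]; exact hw.mn s)
      rw [hval s, hback s] at h3
      exact h3
    · have h3 := hf _ (hG s) (act (NormedSpace.exp (-w (s : X))) (s : X))
      rw [hback s] at h3
      change f s = actY (NormedSpace.exp (w (s : X)))
        (f ((subAct (SS G act 𝔩) act (NormedSpace.exp (-w (s : X))) s : SS G act 𝔩) : X))
      rw [hval s]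
      exact h3
  have h3 : AgreeTo d e ℓ u f (m : X) :=
    ext_agree hA hB hc hs hg m ℓ u f (fun s : SS G act 𝔩 => u s) (fun s : SS G act 𝔩 => f s)
      hEq hfE (Filter.Eventually.of_forall fun _ => rfl)
      (Filter.Eventually.of_forall fun _ => rfl)
      (ContinuousAt.comp (f := fun s : SS G act 𝔩 => (s : X)) huc
        continuous_subtype_val.continuousAt)
      (hfc.comp continuous_subtype_val).continuousAt h2
  exact hA.agree_translate hB hgG hne (Filter.Eventually.of_forall fun y => hf g hgG y)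
    huc hfc.continuousAt h3

theorem classC0 (hA : HolAct d G act) (hB : HolAct e G actY) (hρ : Exh d G act ρ)
    (hh : Hold d G act ρ) (hc : ClosedOrbits G act) (hw : Retr G act ρ w) (hs : StarCl 𝔩)
    (hg : GoodSub d d' (SS G act 𝔩)) (hN : IsNorm G N 𝔩)
    (hAS : HolAct d' N (subAct (SS G act 𝔩) act))
    (hE : PartC0 d' e N (subAct (SS G act 𝔩) act) actY)
    (Z : Set X) (hZ : IsSubvariety d Z) (hZi : Invt G.carrier act Z) (A : Set X)
    (hAc : IsCompact A) (c : ℝ) (hAρ : ∀ x ∈ A, ρ x < c) (f : X → Y)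
    (hfc : Continuous f) (hf : Eqvt G.carrier act actY f) (hfZ : ∀ z ∈ Z, HolAt d e f z)
    (hfρ : ∀ x, ρ x ≤ c → HolAt d e f x) (ℓ : ℕ) (W : Set (X × Y)) (hW : IsOpen W)
    (hfW : ∀ x ∈ A, (x, f x) ∈ W) :
    ∃ F : unitInterval × X → Y, ContinuousOn F (univ ×ˢ Cls G act 𝔩) ∧
      (∀ x ∈ Cls G act 𝔩, F (0, x) = f x) ∧
      (∀ t, ∀ g ∈ G.carrier, ∀ x ∈ Cls G act 𝔩, F (t, act g x) = actY g (F (t, x))) ∧
      (∀ x ∈ Cls G act 𝔩, HolAt d e (fun y => F (1, y)) x) ∧
      (∀ t, ∀ z ∈ Z ∩ Cls G act 𝔩, AgreeTo d e ℓ (fun y => F (t, y)) f z) ∧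
      ∀ t, ∀ x ∈ A ∩ Cls G act 𝔩, (x, F (t, x)) ∈ W := by
  have hmfd := hg.mfd
  have hNG := C0Class_le hN
  let C : Set (Op n) := (fun q : X × Op n => NormedSpace.exp (w q.1) * q.2) '' (A ×ˢ G.K)
  have hC : IsCompact C := (hAc.prod (RedGrp.K_compact G)).image
    (((C0Class_exp_cont (n := n)).comp (hw.cont.comp continuous_fst)).mul continuous_snd)
  have hCG : C ⊆ G.carrier := by
    rintro _ ⟨⟨x, k⟩, ⟨hx, hk⟩, rfl⟩
    exact G.mul_mem _ (RedGrp.exp_mem (hw.mem x)) _ hk.1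
  have hW₀ := C0Class_open hA hB hAc.isClosed hC hCG hW
  have hfW₀ : ∀ x, (x, f x) ∈ {p : X × Y | ∀ g ∈ C, act g p.1 ∈ A →
      (act g p.1, actY g p.2) ∈ W} := by
    intro x g hgC hgA
    change (act g x, actY g (f x)) ∈ W
    rw [← hf g (hCG hgC) x]
    exact hfW _ hgA
  obtain ⟨hA1, hA2, hA3⟩ := C0Class_sub hA hρ hc hg hN c
  obtain ⟨g₁, hg₁h, hg₁e, H, hHc, hH0, hH1, hHP⟩ := hE (Subtype.val ⁻¹' Z)
    (sub_subvariety hg hZ) (C0Class_invt hA hN hZi) {s : SS G act 𝔩 | ρ s ≤ c} hA1 hA2 hA3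
    (fun s : SS G act 𝔩 => f s) (hfc.comp continuous_subtype_val) (C0Class_eqvt hA hN hf)
    (by
      rintro s (h | h)
      · exact sub_holAt hg (hfZ _ h)
      · exact sub_holAt hg (hfρ _ h)) (2 * ℓ + 1)
    ((fun p : SS G act 𝔩 × Y => ((p.1 : X), p.2)) ⁻¹' {p : X × Y | ∀ g ∈ C, act g p.1 ∈ A →
      (act g p.1, actY g p.2) ∈ W})
    (hW₀.preimage ((continuous_subtype_val.comp continuous_fst).prodMk continuous_snd))
    (fun s _ => hfW₀ s)
  obtain ⟨F, hFc, hF⟩ := exists_ext hA hB hρ hc hw hs hN H hHc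
    (fun t k hk s => (hHP t).1 k hk s) f
  have hEq : ∀ t, ∀ g ∈ G.carrier, ∀ x ∈ Cls G act 𝔩, F (t, act g x) = actY g (F (t, x)) :=
    fun t => ext_equivariant hA hB hρ hc hs (fun s => H (t, s)) (fun x => F (t, x)) (hF t)
  -- the decomposition of the points of the class
  have hdec : ∀ x ∈ Cls G act 𝔩, ∃ k ∈ G.K, ∃ m : SS G act 𝔩, IsMn G act ρ (m : X) ∧
      act (NormedSpace.exp (w x) * k) (m : X) = x ∧ ρ m ≤ ρ x := by
    intro x hx
    obtain ⟨k, hk, m, hm, hmn, hkm⟩ := exists_K_SS hA hρ hc hs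
      (Cls_act hA hx (RedGrp.exp_mem (G.lie.neg_mem (hw.mem x)))) (hw.mn x)
    have hG : NormedSpace.exp (w x) ∈ G.carrier := RedGrp.exp_mem (hw.mem x)
    refine ⟨k, hk, ⟨m, hm⟩, hmn, ?_, ?_⟩
    · rw [hA.mul _ hG _ hk.1]
      change act (NormedSpace.exp (w x)) (act k m) = x
      rw [hkm]
      exact (hA.inv_act hG (exp_neg_mul_self (w x)).2 x).1
    · change ρ m ≤ ρ x
      rw [← hρ.inv k hk m, hkm]
      have h1 := rho_le_of_mn hA hρ (hw.mem x) (hw.sa x) x (hw.mn x) 1 ⟨zero_le_one, le_refl _⟩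
      rwa [C0Class_neg_one (A := Op n) (w x)] at h1
  have hmZ : ∀ g ∈ G.carrier, ∀ m, act g m ∈ Z → m ∈ Z := by
    intro g hgG m hx
    obtain ⟨h, hh', hgh, hhg⟩ := G.inv_mem g hgG
    have h1 := hZi h hh' _ hx
    rwa [(hA.inv_act hgG hgh m).2] at h1
  refine ⟨F, hFc, ?_, hEq, ?_, ?_, ?_⟩
  · intro x hx
    obtain ⟨g, hgG, m, hm, hmn, rfl⟩ := exists_mn_SS hA hρ hc hs hx
    rw [hF 0 g hgG ⟨m, hm⟩ hmn, hH0, hf g hgG m]
  · refine C0Class_hol hA hB hρ hc hw hs hg hN g₁ (fun y => F (1, y)) ?_ hg₁h hg₁e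
    intro g hgG m hmn
    rw [← hH1]
    exact hF 1 g hgG m hmn
  · rintro t x ⟨hxZ, hx⟩
    obtain ⟨g, hgG, m, hm, hmn, rfl⟩ := exists_mn_SS hA hρ hc hs hx
    have hmZ' : m ∈ Z := hmZ g hgG m hxZ
    have hmC : m ∈ Cls G act 𝔩 := SS_subset_Cls hA 𝔩 hm
    have hO : IsOpen ((univ : Set unitInterval) ×ˢ (Cls G act 𝔩 : Set X)) :=
      isOpen_univ.prod (isOpen_Cls hA hρ hc 𝔩)
    have hFm : ContinuousAt F (t, m) := hFc.continuousAt (hO.mem_nhds ⟨mem_univ _, hmC⟩)
    have hFm' : ContinuousAt (fun y => F (t, y)) m :=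
      ContinuousAt.comp (f := fun y : X => (t, y)) hFm
        (continuousAt_const.prodMk continuousAt_id)
    exact C0Class_pt hA hB hρ hh hc hw hs hg hN hAS (fun s => H (t, s)) (fun x => F (t, x))
      (hF t) ⟨m, hm⟩ hmn (hHc.comp (continuous_const.prodMk continuous_id)).continuousAt hFm'
      hgG ℓ f hfc hf ((hHP t).2.1 ⟨m, hm⟩ hmZ')
  · rintro t x ⟨hxA, hx⟩
    obtain ⟨k, hk, m, hmn, hxm, hρm⟩ := hdec x hx
    have hgG : NormedSpace.exp (w x) * k ∈ G.carrier :=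
      G.mul_mem _ (RedGrp.exp_mem (hw.mem x)) _ hk.1
    have hgC : NormedSpace.exp (w x) * k ∈ C := ⟨(x, k), ⟨hxA, hk⟩, rfl⟩
    have h1 := (hHP t).2.2 m (hρm.trans (hAρ x hxA).le)
    have h2 : act (NormedSpace.exp (w x) * k) (m : X) ∈ A := by
      rw [hxm]
      exact hxA
    have h3 : (act (NormedSpace.exp (w x) * k) (m : X),
        actY (NormedSpace.exp (w x) * k) (H (t, m))) ∈ W := h1 _ hgC h2
    rw [← hF t _ hgG m hmn, hxm] at h3
    exact h3

end EqOka
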