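import Pool.Agent.Lib.MP_fe51c6_an_EO.FamDef
import Pool.Agent.Lib.MP_fe51c6_an_EO.Retr

/-! Definitions for the literal form of part (c). -/

open scoped Manifold Topology
open Set

noncomputable section

namespace EqOka

/-- The derivatives of the functions `f j` along the orbits detect the stabiliser algebras. -/
def Dir {n : ℕ} (G : RedGrp n) {X : Type} (act : Op n → X → X) (f : ℕ → X → ℂ) : Prop :=
  ∀ x, ∀ ξ ∈ G.lie, (∀ j, deriv (fun z : ℂ => f j (act (NormedSpace.exp (z • ξ)) x)) 0 = 0) →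
    ξ ∈ stab G act x

/-- At a minimal point `m`, the component of `w s` orthogonal to the stabiliser algebra of `m` is
`O(|s - m|^{1/2})`. -/
def Hold (d : ℕ) {n : ℕ} (G : RedGrp n) {X : Type} [TopologicalSpace X] [ChartedSpace (Cd d) X]
    (act : Op n → X → X) (ρ : X → ℝ) : Prop :=
  ∀ w : X → Op n, Retr G act ρ w → ∀ m, IsMn G act ρ m → ∃ C : ℝ, ∀ᶠ s in 𝓝 m,
    ∀ a ∈ stab G act m, ∀ b ∈ perp (stab G act m), w s = a + b →
      ‖b‖ ^ 2 ≤ C * ‖chartAt (Cd d) m s - chartAt (Cd d) m m‖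

end EqOka
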