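import Pool.Agent.Lib.MP_fe51c6_an_EO.C0Def
import Pool.Agent.Lib.MP_fe51c6_an_EO.Stab

/-! Holomorphic functions detect the stabiliser algebra. -/

open scoped Manifold Topology
open Set

noncomputable section

namespace EqOka

variable {n d : ℕ} {G : RedGrp n} {X : Type} [TopologicalSpace X] [ChartedSpace (Cd d) X]
  [IsManifold 𝓘(ℂ, Cd d) 1 X] [T2Space X] [SecondCountableTopology X] {act : Op n → X → X}

/-- If `ξ` is not in the stabiliser algebra of `x`, some holomorphic function has nonzero derivative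
along `exp(zξ) x` at `z = 0`. -/
theorem exists_dir (hX : IsStein d X) (hA : HolAct d G act) (x : X) {ξ : Op n} (hξ : ξ ∈ G.lie)
    (h : ξ ∉ stab G act x) : ∃ f : X → ℂ, HolFun d f ∧
      deriv (fun z : ℂ => f (act (NormedSpace.exp (z • ξ)) x)) 0 ≠ 0 := by
  by_contra hcon
  push Not at hcon
  refine h ((mem_stab hA x ξ).mpr ⟨hξ, fun z => ?_⟩)
  by_contra hne
  obtain ⟨f, hf, hfne⟩ := hX.separates _ _ hne
  apply hfne
  have hhol : Differentiable ℂ (fun z : ℂ => f (act (NormedSpace.exp (z • ξ)) x)) := by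
    rw [← mdifferentiable_iff_differentiable]
    exact hf.comp (hA.mdiff_orbit hξ x)
  have hder : ∀ z₀ : ℂ, deriv (fun z : ℂ => f (act (NormedSpace.exp (z • ξ)) x)) z₀ = 0 := by
    intro z₀
    have h1 : HolFun d (fun y => f (act (NormedSpace.exp (z₀ • ξ)) y)) :=
      hf.comp (hA.hol _ (RedGrp.exp_smul_mem hξ z₀))
    have h2 := hcon _ h1
    have h3 : (fun z : ℂ => f (act (NormedSpace.exp (z₀ • ξ)) (act (NormedSpace.exp (z • ξ)) x))) =
        fun z : ℂ => f (act (NormedSpace.exp ((z₀ + z) • ξ)) x) := by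
      funext z
      rw [hA.exp_add hξ]
    rw [h3] at h2
    have h4 := deriv_comp_const_add (f := fun z : ℂ => f (act (NormedSpace.exp (z • ξ)) x)) z₀ 0
    rw [add_zero] at h4
    rw [← h4]
    exact h2
  have hconst := is_const_of_deriv_eq_zero hhol hder z 0
  have h0 : act (NormedSpace.exp ((0 : ℂ) • ξ)) x = x := by
    rw [show (0 : ℂ) • ξ = 0 from zero_smul ℂ ξ, NormedSpace.exp_zero, hA.one]
  have hconst' : f (act (NormedSpace.exp (z • ξ)) x) =
      f (act (NormedSpace.exp ((0 : ℂ) • ξ)) x) := hconst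
  rw [hconst', h0]

end EqOka
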