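import Pool.Agent.Lib.MP_fe51c6_an_EO.C0Dir1
import Pool.Agent.Lib.MP_fe51c6_an_EO.Cauchy

/-! Countably many holomorphic functions detect all stabiliser algebras. -/

open scoped Manifold Topology
open Set

noncomputable section

namespace EqOka

variable {n d : ℕ} {G : RedGrp n} {X : Type} [TopologicalSpace X] [ChartedSpace (Cd d) X]
  [IsManifold 𝓘(ℂ, Cd d) 1 X] [T2Space X] [SecondCountableTopology X] {act : Op n → X → X}

private theorem C0Dir2_exp_cont : Continuous (NormedSpace.exp : Op n → Op n) := by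
  let _ : NormedAlgebra ℚ (Op n) := NormedAlgebra.restrictScalars ℚ ℂ (Op n)
  exact NormedSpace.exp_continuous

/-- The set of all `(x, v)` where the derivative of `h` along `exp(z bas(v)) x` is not zero is
open. -/
theorem isOpen_dir (hA : HolAct d G act) {h : X → ℂ} (hh : HolFun d h) :
    IsOpen {q : X × Cd G.dim |
      deriv (fun z : ℂ => h (act (NormedSpace.exp (z • G.bas q.2)) q.1)) 0 ≠ 0} := by
  have hc : Continuous (fun q : X × Cd G.dim =>
      deriv (fun z : ℂ => h (act (NormedSpace.exp (z • G.bas q.2)) q.1)) 0) := by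
    rw [continuous_iff_continuousAt]
    intro q₀
    have hm : Continuous (fun p : (X × Cd G.dim) × ℂ =>
        act (NormedSpace.exp (p.2 • G.bas p.1.2)) p.1.1) := by
      rw [← continuousOn_univ]
      refine HolAct.continuous_comp hA
        (g := fun p : (X × Cd G.dim) × ℂ => NormedSpace.exp (p.2 • G.bas p.1.2))
        (u := fun p => p.1.1) ?_ ?_ ?_
      · refine (C0Dir2_exp_cont.comp ?_).continuousOn
        exact continuous_snd.smul (G.bas.continuous.comp (continuous_snd.comp continuous_fst))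
      · exact fun p _ => RedGrp.exp_smul_mem (G.bas_mem _) _
      · exact (continuous_fst.comp continuous_fst).continuousOn
    have h1 := continuousAt_fderiv_param (P := X × Cd G.dim) (E := ℂ) (F := ℂ)
      (fun q z => h (act (NormedSpace.exp (z • G.bas q.2)) q.1)) q₀ 0 univ Filter.univ_mem
      (hh.continuous.comp hm).continuousOn (fun q _ => by
        have h2 : MDifferentiable 𝓘(ℂ, ℂ) 𝓘(ℂ, ℂ)
            (fun z : ℂ => h (act (NormedSpace.exp (z • G.bas q.1.2)) q.1.1)) :=
          hh.comp (hA.mdiff_orbit (G.bas_mem _) _)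
        exact (mdifferentiable_iff_differentiable.mp h2) q.2)
    have h3 : ContinuousAt (fun q : X × Cd G.dim => (q, (0 : ℂ))) q₀ := by fun_prop
    have h4 : ContinuousAt (fun q : X × Cd G.dim => fderiv ℂ
        (fun z : ℂ => h (act (NormedSpace.exp (z • G.bas q.2)) q.1)) 0) q₀ :=
      ContinuousAt.comp (f := fun q : X × Cd G.dim => (q, (0 : ℂ))) h1 h3
    have h5 : ContinuousAt (fun q : X × Cd G.dim => fderiv ℂ
        (fun z : ℂ => h (act (NormedSpace.exp (z • G.bas q.2)) q.1)) 0 (1 : ℂ)) q₀ :=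
      h4.clm_apply continuousAt_const
    exact h5
  exact isOpen_ne_fun hc continuous_const

theorem exists_dir_seq (hX : IsStein d X) (hA : HolAct d G act) :
    ∃ h : ℕ → X → ℂ, (∀ i, HolFun d (h i)) ∧ Dir G act h := by
  let O : {h : X → ℂ // HolFun d h} → Set (X × Cd G.dim) := fun h => {q |
    deriv (fun z : ℂ => h.1 (act (NormedSpace.exp (z • G.bas q.2)) q.1)) 0 ≠ 0}
  obtain ⟨T, hT, hTU⟩ := TopologicalSpace.isOpen_iUnion_countable O fun h => isOpen_dir hA h.2
  have key : ∀ x, ∀ ξ ∈ G.lie, ξ ∉ stab G act x → ∃ h ∈ T,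
      deriv (fun z : ℂ => h.1 (act (NormedSpace.exp (z • ξ)) x)) 0 ≠ 0 := by
    intro x ξ hξ hne
    obtain ⟨v, rfl⟩ := RedGrp.exists_bas hξ
    obtain ⟨f, hf, hfne⟩ := exists_dir hX hA x hξ hne
    have h1 : (x, v) ∈ ⋃ h, O h := mem_iUnion.mpr ⟨⟨f, hf⟩, hfne⟩
    rw [← hTU] at h1
    obtain ⟨h, hh, h2⟩ := mem_iUnion₂.mp h1
    exact ⟨h, hh, h2⟩
  rcases T.eq_empty_or_nonempty with he | hne
  · refine ⟨fun _ _ => 0, fun _ => mdifferentiable_const, ?_⟩
    intro x ξ hξ _
    by_contra hcon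
    obtain ⟨h, hh, _⟩ := key x ξ hξ hcon
    rw [he] at hh
    exact hh
  · obtain ⟨f, hf⟩ := hT.exists_eq_range hne
    refine ⟨fun i => (f i).1, fun i => (f i).2, ?_⟩
    intro x ξ hξ h0
    by_contra hcon
    obtain ⟨h, hh, h1⟩ := key x ξ hξ hcon
    rw [hf] at hh
    obtain ⟨i, rfl⟩ := hh
    exact h1 (h0 i)

end EqOka
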