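import Pool.Agent.Lib.MP_fe51c6_an_EO.FamDef
import Pool.Agent.Lib.MP_fe51c6_an_EO.Cauchy
import Pool.Agent.Lib.MP_fe51c6_an_EO.Act

/-! The map to `ℓ²` defined by a sequence of functions. -/

open scoped Manifold Topology
open Set

noncomputable section

namespace EqOka

variable {d : ℕ} {X : Type} [TopologicalSpace X] [ChartedSpace (Cd d) X]
  [IsManifold 𝓘(ℂ, Cd d) 1 X] [T2Space X] [SecondCountableTopology X]

theorem sumSq_continuous {f : ℕ → X → ℂ} (hf : Fam d f) : Continuous (sumSq f) := by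
  have : LocallyCompactSpace X := ChartedSpace.locallyCompactSpace (Cd d) X
  rw [continuous_iff_continuousAt]
  intro x
  obtain ⟨C, hC, hx⟩ := exists_compact_mem_nhds x
  obtain ⟨M, hM, hfM⟩ := hf.summ C hC
  have h1 : ContinuousOn (fun y => ∑' j, ‖f j y‖ ^ 2) C := by
    apply continuousOn_tsum (u := M) _ hM
    · intro j y hy
      rw [Real.norm_of_nonneg (by positivity)]
      exact hfM j y hy
    · intro j
      exact (((hf.hol j).continuous.norm).pow 2).continuousOn
  exact h1.continuousAt hx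

theorem Ell2.two_toReal : ((2 : ENNReal)).toReal = 2 := by simp

theorem Ell2.norm_sub_sq (v : lp (fun _ : ℕ => ℂ) 2) (J : ℕ) :
    ‖v - ∑ i ∈ Finset.range J, lp.single 2 i (v i)‖ ^ 2 =
      ‖v‖ ^ 2 - ∑ i ∈ Finset.range J, ‖v i‖ ^ 2 := by
  have h := lp.norm_compl_sum_single (p := 2) (E := fun _ : ℕ => ℂ)
    (by rw [Ell2.two_toReal]; norm_num) v (Finset.range J)
  simp only [Ell2.two_toReal, Real.rpow_ofNat] at h
  exact h

theorem Ell2.norm_sq (v : lp (fun _ : ℕ => ℂ) 2) : ‖v‖ ^ 2 = ∑' i, ‖v i‖ ^ 2 := by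
  have h := lp.norm_rpow_eq_tsum (p := 2) (E := fun _ : ℕ => ℂ)
    (by rw [Ell2.two_toReal]; norm_num) v
  simp only [Ell2.two_toReal, Real.rpow_ofNat] at h
  exact h

/-- The map to `ℓ²`; it is holomorphic along holomorphic curves. -/
theorem exists_ell2 {f : ℕ → X → ℂ} (hf : Fam d f) :
    ∃ F : X → lp (fun _ : ℕ => ℂ) 2, (∀ x j, F x j = f j x) ∧ (∀ x, ‖F x‖ ^ 2 = sumSq f x) ∧
      Continuous F ∧ ∀ (u : ℂ → X) (z : ℂ),
        (∀ᶠ w in 𝓝 z, MDifferentiableAt 𝓘(ℂ, ℂ) 𝓘(ℂ, Cd d) u w) →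
          DifferentiableAt ℂ (fun w => F (u w)) z := by
  have : LocallyCompactSpace X := ChartedSpace.locallyCompactSpace (Cd d) X
  have hsum : ∀ x, Summable (fun j => ‖f j x‖ ^ 2) := by
    intro x
    obtain ⟨M, hM, hfM⟩ := hf.summ {x} isCompact_singleton
    exact Summable.of_nonneg_of_le (fun j => by positivity) (fun j => hfM j x rfl) hM
  have hmem : ∀ x, Memℓp (fun j => f j x) 2 := by
    intro x
    apply memℓp_gen
    simp only [Ell2.two_toReal, Real.rpow_ofNat]
    exact hsum x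
  set F : X → lp (fun _ : ℕ => ℂ) 2 := fun x => ⟨fun j => f j x, hmem x⟩ with hF
  have hFj : ∀ x j, F x j = f j x := fun x j => rfl
  have hFn : ∀ x, ‖F x‖ ^ 2 = sumSq f x := by
    intro x
    rw [Ell2.norm_sq]
    rfl
  set Gs : ℕ → X → lp (fun _ : ℕ => ℂ) 2 :=
    fun J x => ∑ i ∈ Finset.range J, lp.single 2 i (f i x) with hGs
  have hunif : ∀ C : Set X, IsCompact C → TendstoUniformlyOn Gs F Filter.atTop C := by
    intro C hC
    obtain ⟨M, hM, hfM⟩ := hf.summ C hC
    rw [Metric.tendstoUniformlyOn_iff]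
    intro ε hε
    have ht := tendsto_sum_nat_add M
    have hev : ∀ᶠ J in Filter.atTop, ∑' k, M (k + J) < ε ^ 2 :=
      ht.eventually (gt_mem_nhds (by positivity))
    filter_upwards [hev] with J hJ x hx
    rw [dist_eq_norm]
    have h1 : ‖F x - Gs J x‖ ^ 2 = sumSq f x - ∑ i ∈ Finset.range J, ‖f i x‖ ^ 2 := by
      rw [← hFn x]
      exact Ell2.norm_sub_sq (F x) J
    have h2 : ∑ i ∈ Finset.range J, ‖f i x‖ ^ 2 + ∑' i, ‖f (i + J) x‖ ^ 2 = sumSq f x :=
      (hsum x).sum_add_tsum_nat_add J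
    have h3 : ∑' i, ‖f (i + J) x‖ ^ 2 ≤ ∑' k, M (k + J) := by
      apply Summable.tsum_le_tsum
      · intro i
        exact hfM (i + J) x hx
      · exact (summable_nat_add_iff J).mpr (hsum x)
      · exact (summable_nat_add_iff J).mpr hM
    have h4 : ‖F x - Gs J x‖ ^ 2 < ε ^ 2 := by rw [h1]; linarith
    exact lt_of_pow_lt_pow_left₀ 2 hε.le h4
  have hloc : TendstoLocallyUniformly Gs F Filter.atTop := by
    rw [tendstoLocallyUniformly_iff_forall_isCompact]
    exact hunif
  have hGc : ∀ J, Continuous (Gs J) := by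
    intro J
    apply continuous_finsetSum
    intro i _
    exact (lp.isometry_single (E := fun _ : ℕ => ℂ) (p := 2) i).continuous.comp
      (hf.hol i).continuous
  refine ⟨F, hFj, hFn, hloc.continuous (Filter.Frequently.of_forall hGc), ?_⟩
  intro u z hu
  obtain ⟨V, hVs, hVo, hzV⟩ := eventually_nhds_iff.mp hu |>.imp fun V h => h
  have huc : ContinuousOn u V := fun w hw => (hVs w hw).continuousAt.continuousWithinAt
  have h1 : TendstoLocallyUniformlyOn (fun J => Gs J ∘ u) (F ∘ u) Filter.atTop V :=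
    (tendstoLocallyUniformlyOn_univ.mpr hloc).comp u (mapsTo_univ _ _) huc
  have h2 : ∀ J, DifferentiableOn ℂ (Gs J ∘ u) V := by
    intro J w hw
    apply DifferentiableAt.differentiableWithinAt
    have h3 : (Gs J ∘ u) = fun w => ∑ i ∈ Finset.range J,
        lp.singleContinuousLinearMap ℂ (fun _ : ℕ => ℂ) 2 i (f i (u w)) := by
      funext w
      rfl
    rw [h3]
    apply DifferentiableAt.fun_sum
    intro i _
    have h4 : MDifferentiableAt 𝓘(ℂ, ℂ) 𝓘(ℂ, ℂ) (fun w => f i (u w)) w :=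
      MDifferentiableAt.comp w ((hf.hol i) (u w)) (hVs w hw)
    exact (lp.singleContinuousLinearMap ℂ (fun _ : ℕ => ℂ) 2 i).differentiableAt.comp w
      (mdifferentiableAt_iff_differentiableAt.mp h4)
  have h5 := h1.differentiableOn (Filter.Eventually.of_forall h2) hVo
  exact h5.differentiableAt (hVo.mem_nhds hzV)

/-- Locally uniformly convergent series of holomorphic functions. -/
theorem holFun_tsum (g : ℕ → X → ℂ) (hg : ∀ j, HolFun d (g j))
    (h : ∀ C : Set X, IsCompact C → ∃ M : ℕ → ℝ, Summable M ∧ ∀ j, ∀ x ∈ C, ‖g j x‖ ≤ M j) :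
    HolFun d (fun x => ∑' j, g j x) := by
  have : LocallyCompactSpace X := ChartedSpace.locallyCompactSpace (Cd d) X
  have hloc : TendstoLocallyUniformly (fun N x => ∑ n ∈ Finset.range N, g n x)
      (fun x => ∑' j, g j x) Filter.atTop := by
    rw [tendstoLocallyUniformly_iff_forall_isCompact]
    intro C hC
    obtain ⟨M, hM, hgM⟩ := h C hC
    exact tendstoUniformlyOn_tsum_nat hM hgM
  intro x
  set φ := chartAt (Cd d) x with hφ
  have hφa : φ ∈ atlas (Cd d) X := chart_mem_atlas (Cd d) x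
  have hxs : x ∈ φ.source := mem_chart_source (Cd d) x
  have h1 : TendstoLocallyUniformlyOn (fun N => (fun x => ∑ n ∈ Finset.range N, g n x) ∘ φ.symm)
      ((fun x => ∑' j, g j x) ∘ φ.symm) Filter.atTop φ.target :=
    (tendstoLocallyUniformlyOn_univ.mpr hloc).comp φ.symm (mapsTo_univ _ _) φ.continuousOn_symm
  have h2 : ∀ N, DifferentiableOn ℂ ((fun x => ∑ n ∈ Finset.range N, g n x) ∘ φ.symm)
      φ.target := by
    intro N w hw
    apply DifferentiableAt.differentiableWithinAt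
    have h3 : ((fun x => ∑ n ∈ Finset.range N, g n x) ∘ φ.symm) =
        fun w => ∑ n ∈ Finset.range N, g n (φ.symm w) := rfl
    rw [h3]
    apply DifferentiableAt.fun_sum
    intro i _
    have h4 : MDifferentiableAt 𝓘(ℂ, Cd d) 𝓘(ℂ, ℂ) (fun w => g i (φ.symm w)) w :=
      MDifferentiableAt.comp w ((hg i) (φ.symm w)) (mdifferentiableAt_atlas_symm hφa hw)
    exact mdifferentiableAt_iff_differentiableAt.mp h4
  have h5 := differentiableOn_of_locallyUniform _ _ φ.target φ.open_target h2 h1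
  have h6 : DifferentiableAt ℂ ((fun x => ∑' j, g j x) ∘ φ.symm) (φ x) :=
    h5.differentiableAt (φ.open_target.mem_nhds (φ.map_source hxs))
  have h7 : MDifferentiableAt 𝓘(ℂ, Cd d) 𝓘(ℂ, ℂ)
      (((fun x => ∑' j, g j x) ∘ φ.symm) ∘ φ) x :=
    MDifferentiableAt.comp x h6.mdifferentiableAt (mdifferentiableAt_atlas hφa hxs)
  apply h7.congr_of_eventuallyEq
  filter_upwards [φ.open_source.mem_nhds hxs] with y hy
  simp only [Function.comp_apply]
  rw [φ.left_inv hy]

end EqOka
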