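import Pool.Agent.Lib.MP_fe51c6_an_EO.Core

/-! Stein manifolds: separating families, exhaustions, blocks. -/

open scoped Manifold Topology
open Set

noncomputable section

namespace EqOka

variable {d : ℕ} {X : Type} [TopologicalSpace X] [ChartedSpace (Cd d) X]
  [IsManifold 𝓘(ℂ, Cd d) 1 X] [T2Space X] [SecondCountableTopology X]

omit [IsManifold 𝓘(ℂ, Cd d) 1 X] [T2Space X] [SecondCountableTopology X] in
theorem subset_hull (A : Set X) : A ⊆ hull d A := fun x hx _ _ _ h => h x hx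

omit [IsManifold 𝓘(ℂ, Cd d) 1 X] [T2Space X] [SecondCountableTopology X] in
theorem hull_mono {A B : Set X} (h : A ⊆ B) : hull d A ⊆ hull d B :=
  fun _ hx f hf C hC => hx f hf C fun a ha => hC a (h ha)

omit [IsManifold 𝓘(ℂ, Cd d) 1 X] [T2Space X] [SecondCountableTopology X] in
theorem hull_hull (A : Set X) : hull d (hull d A) ⊆ hull d A :=
  fun _ hx f hf C hC => hx f hf C fun _ ha => ha f hf C hC

omit [IsManifold 𝓘(ℂ, Cd d) 1 X] [T2Space X] in
/-- A countable separating family of holomorphic functions. -/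
theorem exists_separating (hX : IsStein d X) :
    ∃ f : ℕ → X → ℂ, (∀ j, HolFun d (f j)) ∧ ∀ x y : X, x ≠ y → ∃ j, f j x ≠ f j y := by
  obtain ⟨T, hTc, hT⟩ := TopologicalSpace.isOpen_iUnion_countable
    (fun f : {f : X → ℂ // HolFun d f} => {p : X × X | f.1 p.1 ≠ f.1 p.2})
    (fun f => isOpen_ne_fun (f.2.continuous.comp continuous_fst)
      (f.2.continuous.comp continuous_snd))
  have h0 : HolFun d (fun _ : X => (0 : ℂ)) := mdifferentiable_const
  obtain ⟨g, hg⟩ := (hTc.insert ⟨_, h0⟩).exists_eq_range (insert_nonempty _ _)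
  refine ⟨fun j => (g j).1, fun j => (g j).2, fun x y hxy => ?_⟩
  obtain ⟨f, hf, hfxy⟩ := hX.separates x y hxy
  have hmem : (x, y) ∈ ⋃ f : {f : X → ℂ // HolFun d f}, {p : X × X | f.1 p.1 ≠ f.1 p.2} :=
    mem_iUnion.2 ⟨⟨f, hf⟩, hfxy⟩
  rw [← hT] at hmem
  obtain ⟨F, hF, hFxy⟩ := mem_iUnion₂.1 hmem
  have : F ∈ range g := by rw [← hg]; exact mem_insert_of_mem _ hF
  obtain ⟨j, hj⟩ := this
  refine ⟨j, ?_⟩
  change (g j).1 x ≠ (g j).1 y
  rw [hj]
  exact hFxy

omit [IsManifold 𝓘(ℂ, Cd d) 1 X] [T2Space X] in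
/-- An exhaustion by holomorphically convex compact sets, starting with a given one. -/
theorem exists_exhaustion (hX : IsStein d X) (A : Set X) (hA : IsCompact A) (hh : hull d A ⊆ A) :
    ∃ B : ℕ → Set X, B 0 = A ∧ (∀ j, IsCompact (B j)) ∧ (∀ j, hull d (B j) ⊆ B j) ∧
      (∀ j, B j ⊆ interior (B (j + 1))) ∧ ⋃ j, B j = univ := by
  have : LocallyCompactSpace X := ChartedSpace.locallyCompactSpace (Cd d) X
  let E : CompactExhaustion X := CompactExhaustion.choice X
  have step : ∀ (j : ℕ) (K : {K : Set X // IsCompact K ∧ hull d K ⊆ K}),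
      ∃ K' : {K : Set X // IsCompact K ∧ hull d K ⊆ K},
        K.1 ⊆ interior K'.1 ∧ E j ⊆ K'.1 := by
    intro j K
    obtain ⟨m, hm⟩ := E.exists_superset_of_isCompact (K.2.1.union (E.isCompact j))
    refine ⟨⟨hull d (E (m + 1)), hX.convex _ (E.isCompact _), hull_hull _⟩, ?_, ?_⟩
    · exact (subset_union_left.trans hm).trans
        ((E.subset_interior_succ m).trans (interior_mono (subset_hull _)))
    · exact (subset_union_right.trans hm).trans
        ((E.subset_succ m).trans (subset_hull _))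
  choose S hS1 hS2 using step
  let B : ℕ → {K : Set X // IsCompact K ∧ hull d K ⊆ K} :=
    fun j => Nat.rec ⟨A, hA, hh⟩ (fun j K => S j K) j
  refine ⟨fun j => (B j).1, rfl, fun j => (B j).2.1, fun j => (B j).2.2,
    fun j => hS1 j (B j), ?_⟩
  rw [eq_univ_iff_forall]
  intro x
  have hx : x ∈ ⋃ j, E j := by rw [E.iUnion_eq]; trivial
  obtain ⟨j, hj⟩ := mem_iUnion.1 hx
  exact mem_iUnion.2 ⟨j + 1, hS2 j (B j) hj⟩

omit [IsManifold 𝓘(ℂ, Cd d) 1 X] [T2Space X] [SecondCountableTopology X] in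
/-- Functions which are small on `B` and large on a compact set disjoint from `B`. The number `N`
of functions enters the bound. -/
theorem exists_block (B P : Set X) (hB : IsCompact B) (hh : hull d B ⊆ B) (hP : IsCompact P)
    (hd : Disjoint P B) (ε M : ℝ) (hε : 0 < ε) :
    ∃ (N : ℕ) (f : Fin N → X → ℂ), (∀ i, HolFun d (f i)) ∧
      (∀ x ∈ B, ∀ i, ‖f i x‖ ^ 2 ≤ ε / (N + 1)) ∧ ∀ x ∈ P, M ≤ ∑ i, ‖f i x‖ ^ 2 := by
  rcases B.eq_empty_or_nonempty with rfl | ⟨b0, hb0⟩
  · refine ⟨1, fun _ _ => ((|M| + 1 : ℝ) : ℂ), fun _ => mdifferentiable_const,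
      fun x hx => absurd hx (notMem_empty x), fun x _ => ?_⟩
    simp only [Finset.univ_unique, Finset.sum_singleton, Complex.norm_real, Real.norm_eq_abs,
      sq_abs]
    nlinarith [le_abs_self M, abs_nonneg M]
  · have key : ∀ p : P, ∃ (g : X → ℂ) (a b : ℝ), HolFun d g ∧ 0 ≤ a ∧ a < 1 ∧ 1 < b ∧
        (∀ x ∈ B, ‖g x‖ ≤ a) ∧ b < ‖g p‖ := by
      rintro ⟨p, hp⟩
      have hpB : p ∉ hull d B := fun h => disjoint_left.1 hd hp (hh h)
      simp only [hull, mem_ofPred_eq, not_forall, not_le] at hpB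
      obtain ⟨f, hf, C, hC, hfp⟩ := hpB
      have hC0 : 0 ≤ C := (norm_nonneg _).trans (hC b0 hb0)
      obtain ⟨c, hc1, hc2⟩ := exists_between hfp
      obtain ⟨c', hc1', hc2'⟩ := exists_between hc2
      have hc : 0 < c := lt_of_le_of_lt hC0 hc1
      refine ⟨fun x => ((c : ℂ)⁻¹) * f x, C / c, c' / c, ?_, ?_, ?_, ?_, ?_, ?_⟩
      · exact (mdifferentiable_const.mul hf : _)
      · positivity
      · rw [div_lt_one hc]; exact hc1
      · rw [one_lt_div hc]; exact hc1'
      · intro x hx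
        rw [norm_mul, norm_inv, Complex.norm_real, Real.norm_eq_abs, abs_of_pos hc,
          inv_mul_eq_div]
        exact div_le_div_of_nonneg_right (hC x hx) hc.le
      · rw [norm_mul, norm_inv, Complex.norm_real, Real.norm_eq_abs, abs_of_pos hc,
          inv_mul_eq_div]
        exact div_lt_div_of_pos_right hc2' hc
    choose g a b hg ha0 ha1 hb1 hgB hgp using key
    obtain ⟨t, ht⟩ := hP.elim_finite_subcover (fun p : P => {x | b p < ‖g p x‖})
      (fun p => isOpen_lt continuous_const (hg p).continuous.norm)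
      (fun x hx => mem_iUnion.2 ⟨⟨x, hx⟩, hgp ⟨x, hx⟩⟩)
    have hev : ∃ m : ℕ, (∀ p ∈ t, (a p ^ 2) ^ m ≤ ε / (t.card + 1)) ∧
        ∀ p ∈ t, M ≤ (b p ^ 2) ^ m := by
      have h1 : ∀ p ∈ t, ∀ᶠ m : ℕ in Filter.atTop, (a p ^ 2) ^ m ≤ ε / (t.card + 1) := by
        intro p _
        have h := tendsto_pow_atTop_nhds_zero_of_lt_one (sq_nonneg (a p))
          (by nlinarith [ha0 p, ha1 p] : a p ^ 2 < 1)
        have hpos : 0 < ε / (t.card + 1 : ℝ) := by positivity
        exact (h.eventually_lt_const hpos).mono fun m hm => hm.le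
      have h2 : ∀ p ∈ t, ∀ᶠ m : ℕ in Filter.atTop, M ≤ (b p ^ 2) ^ m := by
        intro p _
        have h := tendsto_pow_atTop_atTop_of_one_lt
          (by nlinarith [hb1 p] : 1 < b p ^ 2)
        exact h.eventually_ge_atTop M
      have h3 := (Filter.eventually_all_finset t).2 h1
      have h4 := (Filter.eventually_all_finset t).2 h2
      obtain ⟨m, hm⟩ := (h3.and h4).exists
      exact ⟨m, hm.1, hm.2⟩
    obtain ⟨m, hm1, hm2⟩ := hev
    let e := t.equivFin
    refine ⟨t.card, fun i x => (g (e.symm i).1 x) ^ m, ?_, ?_, ?_⟩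
    · intro i
      exact (hg _).pow m
    · intro x hx i
      have h1 := hgB (e.symm i).1 x hx
      calc ‖g (e.symm i).1 x ^ m‖ ^ 2 = (‖g (e.symm i).1 x‖ ^ 2) ^ m := by
            rw [norm_pow, ← pow_mul, ← pow_mul, mul_comm]
        _ ≤ (a (e.symm i).1 ^ 2) ^ m := by
            gcongr
        _ ≤ ε / (t.card + 1) := hm1 _ (e.symm i).2
    · intro x hx
      obtain ⟨p, hp⟩ := mem_iUnion.1 (ht hx)
      obtain ⟨hpt, hpx⟩ := mem_iUnion.1 hp
      have hpx' : b p < ‖g p x‖ := hpx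
      have hb0 : 0 ≤ b p := by linarith [hb1 p]
      calc M ≤ (b p ^ 2) ^ m := hm2 p hpt
        _ ≤ (‖g p x‖ ^ 2) ^ m := by gcongr
        _ = ‖g (e.symm (e ⟨p, hpt⟩)).1 x ^ m‖ ^ 2 := by
            rw [Equiv.symm_apply_apply, norm_pow, ← pow_mul, ← pow_mul, mul_comm]
        _ ≤ ∑ i, ‖g (e.symm i).1 x ^ m‖ ^ 2 :=
            Finset.single_le_sum (f := fun i => ‖g (e.symm i).1 x ^ m‖ ^ 2)
              (fun i _ => by positivity) (Finset.mem_univ _)

end EqOka
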