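import Pool.Agent.Lib.MP_fe51c6_an_EO.FamDef
import Pool.Agent.Lib.MP_fe51c6_an_EO.Sep

/-! Existence of a good sequence of functions, adapted to a holomorphically convex compact set. -/

open scoped Manifold Topology
open Set

noncomputable section

namespace EqOka

private theorem fam_extend {X ι : Type} (e : ι → ℕ) (he : Function.Injective e) (F : ι → X → ℂ)
    (x : X) : (fun n => ‖Function.extend e F 0 n x‖ ^ 2) =
      Function.extend e (fun p => ‖F p x‖ ^ 2) 0 := by
  funext n
  by_cases hn : ∃ p, e p = n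
  · obtain ⟨p, rfl⟩ := hn
    rw [he.extend_apply, he.extend_apply]
  · rw [Function.extend_apply' _ _ _ hn, Function.extend_apply' _ _ _ hn]
    simp

variable {d : ℕ} {X : Type} [TopologicalSpace X] [ChartedSpace (Cd d) X]
  [IsManifold 𝓘(ℂ, Cd d) 1 X] [T2Space X] [SecondCountableTopology X]

/-- A block of functions, which contains a multiple of a given function. -/
private theorem fam_block (s : X → ℂ) (hs : HolFun d s) (B P : Set X) (hB : IsCompact B)
    (hh : hull d B ⊆ B) (hP : IsCompact P) (hd : Disjoint P B) (ε M : ℝ) (hε : 0 < ε) :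
    ∃ (N : ℕ) (g : Fin (N + 1) → X → ℂ), (∀ i, HolFun d (g i)) ∧
      (∀ x ∈ B, ∀ i, ‖g i x‖ ^ 2 ≤ ε / (N + 1)) ∧ (∀ x ∈ P, M ≤ ∑ i, ‖g i x‖ ^ 2) ∧
      ∀ x y, s x ≠ s y → ∃ i, g i x ≠ g i y := by
  obtain ⟨N, f, hf, hsm, hla⟩ := exists_block B P hB hh hP hd ε M hε
  have hδ : 0 < ε / (N + 1) := by positivity
  obtain ⟨b, hb⟩ := hB.exists_bound_of_continuousOn (f := s) hs.continuous.continuousOn
  set c : ℝ := Real.sqrt (ε / (N + 1)) / (|b| + 1) with hc
  have hbp : 0 < |b| + 1 := by positivity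
  have hcp : 0 < c := div_pos (Real.sqrt_pos.2 hδ) hbp
  have hcs : HolFun d (fun x => (c : ℂ) * s x) := by
    have h1 : HolFun d (fun x => (c : ℂ) • s x) := hs.const_smul (c : ℂ)
    exact h1
  refine ⟨N, Fin.cons (fun x => (c : ℂ) * s x) f, ?_, ?_, ?_, ?_⟩
  · intro i
    refine Fin.cases ?_ (fun i => ?_) i
    · exact hcs
    · exact hf i
  · intro x hx i
    refine Fin.cases ?_ (fun i => ?_) i
    · have h1 : ‖(c : ℂ) * s x‖ ≤ Real.sqrt (ε / (N + 1)) := by
        rw [norm_mul, Complex.norm_real, Real.norm_eq_abs, abs_of_pos hcp]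
        have h2 : ‖s x‖ ≤ |b| + 1 := (hb x hx).trans (by linarith [le_abs_self b])
        calc c * ‖s x‖ ≤ c * (|b| + 1) := by gcongr
          _ = Real.sqrt (ε / (N + 1)) := by rw [hc]; field_simp
      have h3 : ‖(c : ℂ) * s x‖ ^ 2 ≤ Real.sqrt (ε / (N + 1)) ^ 2 := by gcongr
      rw [Real.sq_sqrt hδ.le] at h3
      simpa using h3
    · exact hsm x hx i
  · intro x hx
    rw [Fin.sum_univ_succ]
    have h1 := hla x hx
    have h2 : 0 ≤ ‖(Fin.cons (fun x => (c : ℂ) * s x) f : Fin (N + 1) → X → ℂ) 0 x‖ ^ 2 := by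
      positivity
    simp only [Fin.cons_succ]
    linarith
  · intro x y hxy
    refine ⟨0, ?_⟩
    simp only [Fin.cons_zero]
    intro h
    exact hxy (mul_left_cancel₀ (by exact_mod_cast hcp.ne') h)

private theorem fam_sum_block (N : ℕ) (ε : ℝ) :
    ∑' _ : Fin (N + 1), ε / ((N : ℝ) + 1) = ε := by
  rw [tsum_fintype, Finset.sum_const, Finset.card_univ, Fintype.card_fin, nsmul_eq_mul]
  push_cast
  field_simp

theorem exists_fam (hX : IsStein d X) (A : Set X) (hA : IsCompact A) (hh : hull d A ⊆ A)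
    (U : Set X) (hU : IsOpen U) (hAU : A ⊆ U) :
    ∃ f : ℕ → X → ℂ, Fam d f ∧ (∀ x ∈ A, sumSq f x < 1) ∧ ∀ x, sumSq f x ≤ 1 → x ∈ U := by
  classical
  obtain ⟨s, hs, hsep⟩ := exists_separating (d := d) hX
  obtain ⟨B, hB0, hBc, hBh, hBi, hBu⟩ := exists_exhaustion (d := d) hX A hA hh
  have hmono : Monotone B := monotone_nat_of_le_succ fun j => (hBi j).trans interior_subset
  set P : ℕ → Set X := fun j => if j = 0 then B 1 \ U else B (j + 1) \ interior (B j) with hPdef
  have hPc : ∀ j, IsCompact (P j) := by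
    intro j
    by_cases hj : j = 0
    · simp only [hPdef, hj, if_true]
      exact (hBc 1).diff hU
    · simp only [hPdef, hj, if_false]
      exact (hBc (j + 1)).diff isOpen_interior
  have hPd : ∀ j, Disjoint (P j) (B (j - 1)) := by
    intro j
    by_cases hj : j = 0
    · simp only [hPdef, hj, if_true]
      rw [hB0]
      exact Set.disjoint_left.2 fun x hx hxA => hx.2 (hAU hxA)
    · simp only [hPdef, hj, if_false]
      refine Set.disjoint_left.2 fun x hx hxB => hx.2 ?_
      have h1 := hBi (j - 1) hxB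
      rwa [Nat.sub_add_cancel (Nat.one_le_iff_ne_zero.2 hj)] at h1
  have hblk := fun j : ℕ => fam_block (s j) (hs j) (B (j - 1)) (P j) (hBc _) (hBh _) (hPc j)
    (hPd j) ((1 / 2 : ℝ) ^ (j + 3)) ((j : ℝ) + 2) (by positivity)
  choose N g hg hsm hla hgs using hblk
  set ι : Type := Σ j : ℕ, Fin (N j + 1) with hι
  set F : ι → X → ℂ := fun p => g p.1 p.2 with hF
  set e : ι → ℕ := Encodable.encode with he_def
  have he : Function.Injective e := Encodable.encode_injective
  set f : ℕ → X → ℂ := Function.extend e F 0 with hf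
  have hfe : ∀ p, f (e p) = F p := fun p => he.extend_apply F 0 p
  -- the bounds on compact sets
  have hbd : ∀ C : Set X, IsCompact C → ∃ M : ι → ℝ, Summable M ∧
      ∀ p, ∀ x ∈ C, ‖F p x‖ ^ 2 ≤ M p := by
    intro C hC
    obtain ⟨m, hm⟩ : ∃ m, C ⊆ interior (B m) := by
      refine hC.elim_directed_cover (fun j => interior (B j)) (fun _ => isOpen_interior) ?_ ?_
      · intro x _
        have h1 : x ∈ ⋃ j, B j := by rw [hBu]; trivial
        obtain ⟨j, hj⟩ := Set.mem_iUnion.1 h1
        exact Set.mem_iUnion.2 ⟨j + 1, hBi j hj⟩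
      · exact Monotone.directed_le fun i j hij => interior_mono (hmono hij)
    have hβ : ∀ p : ι, ∃ b : ℝ, ∀ x ∈ C, ‖F p x‖ ≤ b := fun p =>
      hC.exists_bound_of_continuousOn (hg p.1 p.2).continuous.continuousOn
    choose β hβ using hβ
    refine ⟨fun p => if m < p.1 then (1 / 2 : ℝ) ^ (p.1 + 3) / ((N p.1 : ℝ) + 1) else (β p) ^ 2,
      ?_, ?_⟩
    · rw [summable_sigma_of_nonneg]
      · refine ⟨fun j => Summable.of_finite, ?_⟩
        rw [← summable_nat_add_iff (m + 1)]
        have h1 : (fun j : ℕ => ∑' i : Fin (N (j + (m + 1)) + 1),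
            (if m < j + (m + 1) then
              (1 / 2 : ℝ) ^ (j + (m + 1) + 3) / ((N (j + (m + 1)) : ℝ) + 1)
              else (β ⟨j + (m + 1), i⟩) ^ 2)) = fun j : ℕ => (1 / 2 : ℝ) ^ (m + 4) * (1 / 2) ^ j := by
          funext j
          have h2 : m < j + (m + 1) := by omega
          simp only [h2, if_true]
          rw [fam_sum_block, ← pow_add]
          congr 1
          omega
        simp only
        rw [h1]
        exact (summable_geometric_of_lt_one (by norm_num) (by norm_num)).mul_left _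
      · intro p
        split_ifs <;> positivity
    · intro p x hx
      beta_reduce
      split_ifs with hp
      · refine hsm p.1 x ?_ p.2
        exact hmono (by omega : m ≤ p.1 - 1) (interior_subset (hm hx))
      · have h1 := hβ p x hx
        gcongr
  have hsumx : ∀ x, Summable fun p : ι => ‖F p x‖ ^ 2 := by
    intro x
    obtain ⟨M, hM, hMx⟩ := hbd {x} isCompact_singleton
    exact Summable.of_nonneg_of_le (fun p => by positivity) (fun p => hMx p x rfl) hM
  have hsq : ∀ x, sumSq f x = ∑' p : ι, ‖F p x‖ ^ 2 := by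
    intro x
    have h1 := fam_extend e he F x
    rw [sumSq, hf, h1, tsum_extend_zero he]
  have hlow : ∀ j, ∀ x ∈ P j, (j : ℝ) + 2 ≤ sumSq f x := by
    intro j x hx
    rw [hsq]
    refine (hla j x hx).trans ?_
    have h1 := (hsumx x).sum_le_tsum
      (Finset.univ.map ⟨Sigma.mk (β := fun j => Fin (N j + 1)) j, sigma_mk_injective⟩)
      (fun p _ => by positivity)
    rw [Finset.sum_map] at h1
    exact h1
  have hout : ∀ m, 1 ≤ m → ∀ x, x ∉ B m → (m : ℝ) + 2 ≤ sumSq f x := by
    intro m hm x hx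
    have h1 : ∃ k, x ∈ B k := by
      have h1 : x ∈ ⋃ j, B j := by rw [hBu]; trivial
      exact Set.mem_iUnion.1 h1
    have h2 := Nat.find_spec h1
    have h3 := fun k (hk : k < Nat.find h1) => Nat.find_min h1 hk
    set k := Nat.find h1 with hk
    have hmk : m < k := by
      by_contra h
      exact hx (hmono (not_lt.1 h) h2)
    obtain ⟨j, hjk⟩ : ∃ j, k = j + 1 := ⟨k - 1, by omega⟩
    rw [hjk] at h2
    have hj : j ≠ 0 := by omega
    have h4 : x ∈ P j := by
      simp only [hPdef, hj, if_false]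
      exact ⟨h2, fun h => h3 j (by omega) (interior_subset h)⟩
    have h5 := hlow j x h4
    have h6 : (m : ℝ) ≤ j := by exact_mod_cast (by omega : m ≤ j)
    linarith
  refine ⟨f, ⟨?_, ?_, ?_, ?_⟩, ?_, ?_⟩
  · intro n
    by_cases hn : ∃ p, e p = n
    · obtain ⟨p, rfl⟩ := hn
      rw [hfe]
      exact hg p.1 p.2
    · rw [hf, Function.extend_apply' _ _ _ hn]
      exact mdifferentiable_const
  · intro C hC
    obtain ⟨M, hM, hMx⟩ := hbd C hC
    refine ⟨Function.extend e M 0, (summable_extend_zero he).2 hM, ?_⟩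
    intro n x hx
    by_cases hn : ∃ p, e p = n
    · obtain ⟨p, rfl⟩ := hn
      rw [hfe, he.extend_apply]
      exact hMx p x hx
    · rw [hf, Function.extend_apply' _ _ _ hn, Function.extend_apply' _ _ _ hn]
      simp
  · intro x y hxy
    obtain ⟨j, hj⟩ := hsep x y hxy
    obtain ⟨i, hi⟩ := hgs j x y hj
    exact ⟨e ⟨j, i⟩, by rw [hfe]; exact hi⟩
  · intro c
    obtain ⟨m, hm⟩ := exists_nat_gt c
    refine ⟨B (m + 1), hBc _, ?_⟩
    intro x hx
    by_contra h
    have h1 := hout (m + 1) (by omega) x h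
    push_cast at h1
    linarith
  · intro x hx
    rw [hsq]
    have hsmall : ∀ p : ι, ‖F p x‖ ^ 2 ≤ (1 / 2 : ℝ) ^ (p.1 + 3) / ((N p.1 : ℝ) + 1) := by
      intro p
      refine hsm p.1 x ?_ p.2
      exact hmono (Nat.zero_le _) (by rw [hB0]; exact hx)
    have hS : Summable fun p : ι => (1 / 2 : ℝ) ^ (p.1 + 3) / ((N p.1 : ℝ) + 1) := by
      rw [summable_sigma_of_nonneg]
      · refine ⟨fun j => Summable.of_finite, ?_⟩
        have h1 : (fun j : ℕ => ∑' _ : Fin (N j + 1), (1 / 2 : ℝ) ^ (j + 3) / ((N j : ℝ) + 1)) =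
            fun j : ℕ => (1 / 8 : ℝ) * (1 / 2) ^ j := by
          funext j
          rw [fam_sum_block, pow_add]
          norm_num
          ring
        simp only
        rw [h1]
        exact (summable_geometric_of_lt_one (by norm_num) (by norm_num)).mul_left _
      · intro p
        positivity
    have h2 : ∑' p : ι, (1 / 2 : ℝ) ^ (p.1 + 3) / ((N p.1 : ℝ) + 1) = 1 / 4 := by
      rw [hS.tsum_sigma]
      have h1 : (fun j : ℕ => ∑' _ : Fin (N j + 1), (1 / 2 : ℝ) ^ (j + 3) / ((N j : ℝ) + 1)) =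
          fun j : ℕ => (1 / 8 : ℝ) * (1 / 2) ^ j := by
        funext j
        rw [fam_sum_block, pow_add]
        norm_num
        ring
      simp only
      rw [h1, tsum_mul_left, tsum_geometric_of_lt_one (by norm_num) (by norm_num)]
      norm_num
    have h3 := (hsumx x).tsum_le_tsum hsmall hS
    linarith
  · intro x hx
    by_contra hxU
    by_cases h1 : x ∈ B 1
    · have h2 : x ∈ P 0 := by
        simp only [hPdef, if_true]
        exact ⟨h1, hxU⟩
      have h3 := hlow 0 x h2
      push_cast at h3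
      linarith
    · have h3 := hout 1 le_rfl x h1
      push_cast at h3
      linarith

end EqOka
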