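import Pool.Agent.Lib.MP_fe51c6_an_EO.C0Dir2
import Pool.Agent.Lib.MP_fe51c6_an_EO.Fam
import Pool.Agent.Lib.MP_fe51c6_an_EO.Ell2

/-! A good family of functions which detects the stabiliser algebras. -/

open scoped Manifold Topology
open Set

noncomputable section

namespace EqOka

variable {n d : ℕ} {G : RedGrp n} {X : Type} [TopologicalSpace X] [ChartedSpace (Cd d) X]
  [IsManifold 𝓘(ℂ, Cd d) 1 X] [T2Space X] [SecondCountableTopology X] {act : Op n → X → X}

/-- interleaving of two sequences -/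
private def c0mix {α : Type*} (a b : ℕ → α) (k : ℕ) : α := if k % 2 = 0 then a (k / 2) else b (k / 2)

private theorem c0mix_even {α : Type*} (a b : ℕ → α) (k : ℕ) : c0mix a b (2 * k) = a k := by
  unfold c0mix
  rw [if_pos (by omega)]
  congr 1
  omega

private theorem c0mix_odd {α : Type*} (a b : ℕ → α) (k : ℕ) : c0mix a b (2 * k + 1) = b k := by
  unfold c0mix
  rw [if_neg (by omega)]
  congr 1
  omega

private theorem c0mix_summable {a b : ℕ → ℝ} (ha : Summable a) (hb : Summable b) :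
    Summable (c0mix a b) := by
  have h1 : HasSum (fun k => c0mix a b (2 * k)) (∑' k, a k) := by
    simp only [c0mix_even]
    exact ha.hasSum
  have h2 : HasSum (fun k => c0mix a b (2 * k + 1)) (∑' k, b k) := by
    simp only [c0mix_odd]
    exact hb.hasSum
  exact (h1.even_add_odd h2).summable

theorem exists_fam_dir (hX : IsStein d X) (hA : HolAct d G act) (A : Set X) (hAc : IsCompact A)
    (hh : hull d A ⊆ A) (U : Set X) (hU : IsOpen U) (hAU : A ⊆ U) :
    ∃ f : ℕ → X → ℂ, Fam d f ∧ Dir G act f ∧ (∀ x ∈ A, sumSq f x < 1) ∧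
      ∀ x, sumSq f x ≤ 1 → x ∈ U := by
  classical
  obtain ⟨f0, hf0, hlt, hin⟩ := exists_fam (d := d) hX A hAc hh U hU hAU
  obtain ⟨h, hh1, hdir⟩ := exists_dir_seq (G := G) (act := act) hX hA
  obtain ⟨B, hB0, hBc, hBh, hBi, hBu⟩ := exists_exhaustion (d := d) hX A hAc hh
  have hmono : Monotone B := monotone_nat_of_le_succ fun j => (hBi j).trans interior_subset
  obtain ⟨δ, hδ, hδA⟩ : ∃ δ > 0, ∀ x ∈ A, sumSq f0 x ≤ 1 - δ := by
    rcases A.eq_empty_or_nonempty with hE | hE
    · refine ⟨1, one_pos, fun x hx => ?_⟩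
      rw [hE] at hx
      exact hx.elim
    · obtain ⟨a, haA, ha⟩ := hAc.exists_isMaxOn hE (sumSq_continuous hf0).continuousOn
      refine ⟨1 - sumSq f0 a, by linarith [hlt a haA], fun x hx => ?_⟩
      have := ha hx
      simp only [mem_ofPred_eq] at this
      linarith
  have hb : ∀ i, ∃ b : ℝ, ∀ x ∈ B i, ‖h i x‖ ≤ b := fun i =>
    (hBc i).exists_bound_of_continuousOn (hh1 i).continuous.continuousOn
  choose b hb using hb
  set η : ℕ → ℝ := fun i => δ / 2 * (1 / 2) ^ (i + 1) with hη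
  have hηp : ∀ i, 0 < η i := fun i => by
    simp only [hη]
    positivity
  have hbp : ∀ i, 0 < |b i| + 1 := fun i => by positivity
  set c : ℕ → ℝ := fun i => Real.sqrt (η i) / (|b i| + 1) with hc
  have hcp : ∀ i, 0 < c i := fun i => div_pos (Real.sqrt_pos.2 (hηp i)) (hbp i)
  set g : ℕ → X → ℂ := fun i x => (c i : ℂ) * h i x with hg
  have hghol : ∀ i, HolFun d (g i) := fun i => by
    have h1 : HolFun d (fun x => (c i : ℂ) • h i x) := (hh1 i).const_smul (c i : ℂ)
    exact h1
  have hgB : ∀ i, ∀ x ∈ B i, ‖g i x‖ ^ 2 ≤ η i := by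
    intro i x hx
    have h1 : ‖g i x‖ ≤ Real.sqrt (η i) := by
      simp only [hg]
      rw [norm_mul, Complex.norm_real, Real.norm_eq_abs, abs_of_pos (hcp i)]
      have h2 : ‖h i x‖ ≤ |b i| + 1 := (hb i x hx).trans (by linarith [le_abs_self (b i)])
      calc c i * ‖h i x‖ ≤ c i * (|b i| + 1) := mul_le_mul_of_nonneg_left h2 (hcp i).le
        _ = Real.sqrt (η i) := by
          simp only [hc]
          have := (hbp i).ne'
          field_simp
    have h3 : ‖g i x‖ ^ 2 ≤ Real.sqrt (η i) ^ 2 := pow_le_pow_left₀ (norm_nonneg _) h1 2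
    rwa [Real.sq_sqrt (hηp i).le] at h3
  have hηs : HasSum η (δ / 2) := by
    have h1 : HasSum (fun i : ℕ => δ / 2 * (1 / 2) * (1 / 2 : ℝ) ^ i) (δ / 2 * (1 / 2) * 2) := by
      have h2 := hasSum_geometric_two
      exact h2.mul_left _
    have h2 : δ / 2 * (1 / 2) * 2 = δ / 2 := by ring
    rw [h2] at h1
    refine h1.congr_fun ?_ |> fun h => h
    intro i
    simp only [hη]
    rw [pow_succ]
    ring
  -- bounds on compact sets
  have hgC : ∀ C : Set X, IsCompact C → ∃ M : ℕ → ℝ, Summable M ∧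
      ∀ j, ∀ x ∈ C, ‖g j x‖ ^ 2 ≤ M j := by
    intro C hC
    obtain ⟨m, hm⟩ : ∃ m, C ⊆ interior (B m) := by
      refine hC.elim_directed_cover (fun j => interior (B j)) (fun _ => isOpen_interior) ?_ ?_
      · intro x _
        have h1 : x ∈ ⋃ j, B j := by rw [hBu]; trivial
        obtain ⟨j, hj⟩ := Set.mem_iUnion.1 h1
        exact Set.mem_iUnion.2 ⟨j + 1, hBi j hj⟩
      · exact Monotone.directed_le fun i j hij => interior_mono (hmono hij)
    have hβ : ∀ j, ∃ β : ℝ, ∀ x ∈ C, ‖g j x‖ ≤ β := fun j =>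
      hC.exists_bound_of_continuousOn (hghol j).continuous.continuousOn
    choose β hβ using hβ
    refine ⟨fun j => if m ≤ j then η j else (β j) ^ 2, ?_, ?_⟩
    · rw [← summable_nat_add_iff m]
      have h1 : (fun j : ℕ => if m ≤ j + m then η (j + m) else (β (j + m)) ^ 2) =
          fun j => η (j + m) := by
        funext j
        rw [if_pos (by omega)]
      rw [h1]
      exact (summable_nat_add_iff m).2 hηs.summable
    · intro j x hx
      beta_reduce
      split_ifs with hj
      · exact hgB j x (hmono hj (interior_subset (hm hx)))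
      · exact pow_le_pow_left₀ (norm_nonneg _) (hβ j x hx) 2
  have hs0 : ∀ x, Summable fun k => ‖f0 k x‖ ^ 2 := by
    intro x
    obtain ⟨M, hM, hMx⟩ := hf0.summ {x} isCompact_singleton
    exact Summable.of_nonneg_of_le (fun k => by positivity) (fun k => hMx k x rfl) hM
  have hs1 : ∀ x, Summable fun k => ‖g k x‖ ^ 2 := by
    intro x
    obtain ⟨M, hM, hMx⟩ := hgC {x} isCompact_singleton
    exact Summable.of_nonneg_of_le (fun k => by positivity) (fun k => hMx k x rfl) hM
  have hsum : ∀ x, sumSq (c0mix f0 g) x = sumSq f0 x + ∑' k, ‖g k x‖ ^ 2 := by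
    intro x
    have h1 := tsum_even_add_odd (f := fun k => ‖c0mix f0 g k x‖ ^ 2)
      (by simp only [c0mix_even]; exact hs0 x) (by simp only [c0mix_odd]; exact hs1 x)
    simp only [c0mix_even, c0mix_odd] at h1
    exact h1.symm
  have hge : ∀ x, sumSq f0 x ≤ sumSq (c0mix f0 g) x := by
    intro x
    rw [hsum]
    have : 0 ≤ ∑' k, ‖g k x‖ ^ 2 := tsum_nonneg fun k => by positivity
    linarith
  refine ⟨c0mix f0 g, ⟨?_, ?_, ?_, ?_⟩, ?_, ?_, ?_⟩
  · intro j
    unfold c0mix
    split_ifs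
    · exact hf0.hol _
    · exact hghol _
  · intro C hC
    obtain ⟨M0, hM0, hM0x⟩ := hf0.summ C hC
    obtain ⟨M1, hM1, hM1x⟩ := hgC C hC
    refine ⟨c0mix M0 M1, c0mix_summable hM0 hM1, ?_⟩
    intro j x hx
    unfold c0mix
    split_ifs
    · exact hM0x _ x hx
    · exact hM1x _ x hx
  · intro x y hxy
    obtain ⟨j, hj⟩ := hf0.sep x y hxy
    exact ⟨2 * j, by rw [c0mix_even]; exact hj⟩
  · intro r
    obtain ⟨C, hC, hCx⟩ := hf0.proper r
    exact ⟨C, hC, fun x hx => hCx x ((hge x).trans hx)⟩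
  · intro x ξ hξ hd
    refine hdir x ξ hξ fun j => ?_
    have h1 := hd (2 * j + 1)
    rw [c0mix_odd] at h1
    simp only [hg] at h1
    rw [deriv_const_mul_field] at h1
    rcases mul_eq_zero.1 h1 with h2 | h2
    · exact absurd (Complex.ofReal_eq_zero.1 h2) (hcp j).ne'
    · exact h2
  · intro x hx
    rw [hsum]
    have h1 : ∑' k, ‖g k x‖ ^ 2 ≤ δ / 2 := by
      rw [← hηs.tsum_eq]
      refine (hs1 x).tsum_le_tsum (fun k => hgB k x ?_) hηs.summable
      exact hmono (Nat.zero_le k) (by rw [hB0]; exact hx)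
    linarith [hδA x hx]
  · intro x hx
    exact hin x ((hge x).trans hx)

end EqOka
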