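import Pool.Agent.Lib.MP_fe51c6_an_EO.C0Def
import Pool.Agent.Lib.MP_fe51c6_an_EO.Cauchy
import Pool.Agent.Lib.MP_fe51c6_an_EO.Orth
import Pool.Agent.Lib.MP_fe51c6_an_EO.Stab

/-! A lower bound for the derivatives along the orbits, uniform on compact sets. -/

open scoped Manifold Topology
open Set

noncomputable section

namespace EqOka

variable {n d : ℕ} {G : RedGrp n} {X : Type} [TopologicalSpace X] [ChartedSpace (Cd d) X]
  [IsManifold 𝓘(ℂ, Cd d) 1 X] [T2Space X] [SecondCountableTopology X] {act : Op n → X → X}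

private theorem Low_exp_cont : Continuous (NormedSpace.exp : Op n → Op n) := by
  let _ : NormedAlgebra ℚ (Op n) := NormedAlgebra.restrictScalars ℚ ℂ (Op n)
  exact NormedSpace.exp_continuous

omit [T2Space X] [SecondCountableTopology X] in
private theorem Low_diff (hA : HolAct d G act) {f : X → ℂ} (hf : HolFun d f) {g : Op n}
    (hg : g ∈ G.carrier) (m : X) (w : Cd G.dim) :
    DifferentiableAt ℂ (fun v : Cd G.dim => f (act g (act (NormedSpace.exp (G.bas v)) m))) w := by
  rw [← mdifferentiableAt_iff_differentiableAt]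
  have h1 : MDifferentiableAt 𝓘(ℂ, Cd G.dim) 𝓘(ℂ, Cd d)
      (fun v : Cd G.dim => act (NormedSpace.exp (G.bas v)) m) w :=
    HolAct.mdiff hA 𝓘(ℂ, Cd G.dim) (fun v => G.bas v) (fun _ => m) w (fun v => G.bas_mem v)
      (mdifferentiableAt_iff_differentiableAt.mpr G.bas.differentiableAt) mdifferentiableAt_const
  exact (hf _).comp w ((hA.hol g hg _).comp w h1)

/-- The derivative of `v ↦ f (g exp(bas v) m)` at `0`. -/
private def LowD (G : RedGrp n) (act : Op n → X → X) (f : X → ℂ) (m : X) (g : Op n) :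
    Cd G.dim →L[ℂ] ℂ :=
  fderiv ℂ (fun v : Cd G.dim => f (act g (act (NormedSpace.exp (G.bas v)) m))) 0

omit [T2Space X] [SecondCountableTopology X] in
private theorem Low_deriv (hA : HolAct d G act) {f : X → ℂ} (hf : HolFun d f) {g : Op n}
    (hg : g ∈ G.carrier) (m : X) (v : Cd G.dim) :
    HasDerivAt (fun z : ℂ => f (act g (act (NormedSpace.exp (z • G.bas v)) m)))
      (LowD G act f m g v) 0 := by
  have h1 : HasFDerivAt (fun v : Cd G.dim => f (act g (act (NormedSpace.exp (G.bas v)) m)))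
      (LowD G act f m g) ((0 : ℂ) • v) := by
    rw [zero_smul]
    exact (Low_diff hA hf hg m 0).hasFDerivAt
  have h2 : HasDerivAt (fun z : ℂ => z • v) ((1 : ℂ) • v) 0 := (hasDerivAt_id (0 : ℂ)).smul_const v
  rw [one_smul] at h2
  have h3 := h1.comp_hasDerivAt (0 : ℂ) h2
  simpa only [Function.comp_def, map_smul] using h3

omit [SecondCountableTopology X] in
private theorem Low_stab (hA : HolAct d G act) {f : X → ℂ} (hf : HolFun d f) {g : Op n}
    (hg : g ∈ G.carrier) (m : X) (v : Cd G.dim) (hv : G.bas v ∈ stab G act m) :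
    LowD G act f m g v = 0 := by
  have h1 := Low_deriv hA hf hg m v
  have h2 : (fun z : ℂ => f (act g (act (NormedSpace.exp (z • G.bas v)) m))) =
      fun _ => f (act g m) := by
    funext z
    rw [((mem_stab hA m _).1 hv).2 z]
  rw [h2] at h1
  exact h1.unique (hasDerivAt_const (0 : ℂ) _)

omit [SecondCountableTopology X] in
private theorem Low_inj (hA : HolAct d G act) {f : ℕ → X → ℂ} (hf : ∀ j, HolFun d (f j))
    (hdir : Dir G act f) {g : Op n} (hg : g ∈ G.carrier) (m : X) (v : Cd G.dim)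
    (h0 : ∀ j, LowD G act (f j) m g v = 0) : G.bas v ∈ stab G act m := by
  obtain ⟨h, hh, hgh, hhg⟩ := G.inv_mem g hg
  have h1 : g * G.bas v * h ∈ G.lie := RedGrp.Ad_mem hg hgh (G.bas_mem v)
  have h2 : g * G.bas v * h ∈ stab G act (act g m) := by
    refine hdir (act g m) _ h1 fun j => ?_
    have h3 : (fun z : ℂ => f j (act (NormedSpace.exp (z • (g * G.bas v * h))) (act g m))) =
        fun z : ℂ => f j (act g (act (NormedSpace.exp (z • G.bas v)) m)) := by
      funext z
      have e1 : z • (g * G.bas v * h) = g * (z • G.bas v) * h := by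
        rw [mul_smul_comm, smul_mul_assoc]
      have hE : NormedSpace.exp (z • G.bas v) ∈ G.carrier := RedGrp.exp_smul_mem (G.bas_mem v) z
      rw [e1, exp_conj hgh hhg, hA.mul _ (G.mul_mem _ hg _ hE) _ hh, (hA.inv_act hg hgh m).2,
        hA.mul _ hg _ hE]
    rw [h3, (Low_deriv hA (hf j) hg m v).deriv]
    exact h0 j
  rw [stab_act hA hg hgh m, mem_conjS hgh hhg] at h2
  have e2 : h * (g * G.bas v * h) * g = G.bas v := by
    calc h * (g * G.bas v * h) * g = (h * g) * G.bas v * (h * g) := by simp only [mul_assoc]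
      _ = G.bas v := by rw [hhg, one_mul, mul_one]
  rwa [e2] at h2

omit [T2Space X] [SecondCountableTopology X] in
private theorem Low_cont (hA : HolAct d G act) {f : X → ℂ} (hf : HolFun d f) (m : X)
    (C : Set (Op n)) (hCG : C ⊆ G.carrier) :
    Continuous (fun q : C × Cd G.dim => LowD G act f m q.1 q.2) := by
  have h1 : Continuous (fun g : C => LowD G act f m (g : Op n)) := by
    rw [continuous_iff_continuousAt]
    intro g₀
    have hm : Continuous (fun q : C × Cd G.dim =>
        act (q.1 : Op n) (act (NormedSpace.exp (G.bas q.2)) m)) := by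
      rw [← continuousOn_univ]
      refine HolAct.continuous_comp hA (g := fun q : C × Cd G.dim => (q.1 : Op n))
        (u := fun q => act (NormedSpace.exp (G.bas q.2)) m) ?_ ?_ ?_
      · exact (continuous_subtype_val.comp continuous_fst).continuousOn
      · exact fun q _ => hCG q.1.2
      · refine HolAct.continuous_comp hA
          (g := fun q : C × Cd G.dim => NormedSpace.exp (G.bas q.2)) (u := fun _ => m) ?_ ?_ ?_
        · exact (Low_exp_cont.comp (G.bas.continuous.comp continuous_snd)).continuousOn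
        · exact fun q _ => RedGrp.exp_mem (G.bas_mem _)
        · exact continuousOn_const
    have h2 := continuousAt_fderiv_param (P := C)
      (fun (g : C) (v : Cd G.dim) => f (act (g : Op n) (act (NormedSpace.exp (G.bas v)) m)))
      g₀ 0 univ Filter.univ_mem ((hf.continuous.comp hm).continuousOn)
      (fun q _ => Low_diff hA hf (hCG q.1.2) m q.2)
    have h3 : ContinuousAt (fun g : C => (g, (0 : Cd G.dim))) g₀ := by fun_prop
    exact ContinuousAt.comp (f := fun g : C => (g, (0 : Cd G.dim))) h2 h3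
  exact (h1.comp continuous_fst).clm_apply continuous_snd

theorem dir_lower (hA : HolAct d G act) {f : ℕ → X → ℂ} (hf : ∀ j, HolFun d (f j))
    (hdir : Dir G act f) (m : X) (C : Set (Op n)) (hC : IsCompact C) (hCG : C ⊆ G.carrier) :
    ∃ (J : ℕ) (c : ℝ), 0 < c ∧ ∀ g ∈ C, ∀ a ∈ stab G act m, ∀ b ∈ perp (stab G act m),
      b ∈ G.lie → c * ‖b‖ ^ 2 ≤ ∑ j ∈ Finset.range J,
        ‖deriv (fun z : ℂ => f j (act g (act (NormedSpace.exp (z • (a + b))) m))) 0‖ ^ 2 := by
  classical
  have hprop : ProperSpace (Cd G.dim) := FiniteDimensional.proper ℂ _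
  obtain ⟨co, hco, -⟩ := G.exists_coord
  set T : Set (Cd G.dim) := {v | ‖G.bas v‖ = 1 ∧ G.bas v ∈ perp (stab G act m)} with hT
  have hTc : IsCompact T := by
    refine Metric.isCompact_of_isClosed_isBounded ?_ ?_
    · refine IsClosed.inter (isClosed_eq G.bas.continuous.norm continuous_const) ?_
      exact (Submodule.closed_of_finiteDimensional (perp (stab G act m))).preimage
        G.bas.continuous
    · refine (Metric.isBounded_closedBall (x := (0 : Cd G.dim)) (r := ‖co‖)).subset fun v hv => ?_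
      rw [Metric.mem_closedBall, dist_zero_right, ← hco v]
      refine (co.le_opNorm _).trans ?_
      rw [hv.1, mul_one]
  have hCc : CompactSpace C := isCompact_iff_compactSpace.1 hC
  have hS : IsCompact ((univ : Set C) ×ˢ T) := isCompact_univ.prod hTc
  -- the functions
  set F : ℕ → C × Cd G.dim → ℝ := fun J q =>
    ∑ j ∈ Finset.range J, ‖LowD G act (f j) m q.1 q.2‖ ^ 2 with hF
  have hFc : ∀ J, Continuous (F J) := by
    intro J
    refine continuous_finset_sum _ fun j _ => ?_
    exact ((Low_cont hA (hf j) m C hCG).norm).pow 2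
  have hFm : ∀ {J J' : ℕ}, J ≤ J' → ∀ q, F J q ≤ F J' q := by
    intro J J' h q
    refine Finset.sum_le_sum_of_subset_of_nonneg (Finset.range_subset_range.2 h) ?_
    intro j _ _
    positivity
  have hcov : (univ : Set C) ×ˢ T ⊆ ⋃ J, {q | 0 < F J q} := by
    rintro ⟨g, v⟩ ⟨-, hv⟩
    by_contra hcon
    have h1 : ∀ j, LowD G act (f j) m (g : Op n) v = 0 := by
      intro j
      by_contra hj
      refine hcon (mem_iUnion.2 ⟨j + 1, ?_⟩)
      change 0 < ∑ i ∈ Finset.range (j + 1), ‖LowD G act (f i) m g v‖ ^ 2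
      refine Finset.sum_pos' (fun i _ => by positivity) ⟨j, Finset.self_mem_range_succ j, ?_⟩
      have := norm_pos_iff.2 hj
      positivity
    have h2 : G.bas v ∈ stab G act m := Low_inj hA hf hdir (hCG g.2) m v h1
    have h3 : G.bas v ∈ stab G act m ⊓ perp (stab G act m) := ⟨h2, hv.2⟩
    rw [perp_inf] at h3
    have h4 : G.bas v = 0 := h3
    have h5 := hv.1
    rw [h4, norm_zero] at h5
    exact zero_ne_one h5
  obtain ⟨J, hJ⟩ := hS.elim_directed_cover (fun J => {q | 0 < F J q})
    (fun J => isOpen_lt continuous_const (hFc J)) hcov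
    (Monotone.directed_le fun J J' h q hq => lt_of_lt_of_le hq (hFm h q))
  -- the minimum
  obtain ⟨c, hc, hcF⟩ : ∃ c : ℝ, 0 < c ∧ ∀ q ∈ (univ : Set C) ×ˢ T, c ≤ F J q := by
    by_cases hne : ((univ : Set C) ×ˢ T).Nonempty
    · obtain ⟨q, hq, hmin⟩ := hS.exists_isMinOn hne (hFc J).continuousOn
      exact ⟨F J q, hJ hq, fun q' hq' => hmin hq'⟩
    · exact ⟨1, one_pos, fun q hq => absurd ⟨q, hq⟩ hne⟩
  refine ⟨J, c, hc, fun g hg a ha b hb hbl => ?_⟩
  have hal : a ∈ G.lie := stab_le m ha
  obtain ⟨va, rfl⟩ := RedGrp.exists_bas hal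
  obtain ⟨vb, rfl⟩ := RedGrp.exists_bas hbl
  have hder : ∀ j, deriv (fun z : ℂ => f j (act g (act (NormedSpace.exp
      (z • (G.bas va + G.bas vb))) m))) 0 = LowD G act (f j) m g vb := by
    intro j
    have h1 := Low_deriv hA (hf j) (hCG hg) m (va + vb)
    rw [map_add, map_add, Low_stab hA (hf j) (hCG hg) m va ha, zero_add] at h1
    exact h1.deriv
  simp only [hder]
  by_cases hb0 : G.bas vb = 0
  · rw [hb0, norm_zero]
    have : (0 : ℝ) ≤ ∑ j ∈ Finset.range J, ‖LowD G act (f j) m g vb‖ ^ 2 :=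
      Finset.sum_nonneg fun j _ => by positivity
    simpa using this
  have ht : 0 < ‖G.bas vb‖ := norm_pos_iff.2 hb0
  set t : ℝ := ‖G.bas vb‖ with htdef
  set v1 : Cd G.dim := ((t : ℂ)⁻¹) • vb with hv1
  have htc : (t : ℂ) ≠ 0 := by exact_mod_cast ht.ne'
  have hv1T : v1 ∈ T := by
    refine ⟨?_, ?_⟩
    · rw [hv1, map_smul, norm_smul, norm_inv, Complex.norm_real, Real.norm_of_nonneg ht.le]
      exact inv_mul_cancel₀ ht.ne'
    · rw [hv1, map_smul]
      exact (perp (stab G act m)).smul_mem _ hb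
  have hvb : vb = (t : ℂ) • v1 := by
    rw [hv1, smul_smul, mul_inv_cancel₀ htc, one_smul]
  have h1 := hcF (⟨g, hg⟩, v1) ⟨mem_univ _, hv1T⟩
  have h2 : ∑ j ∈ Finset.range J, ‖LowD G act (f j) m g vb‖ ^ 2 = t ^ 2 * F J (⟨g, hg⟩, v1) := by
    rw [hF]
    simp only
    rw [Finset.mul_sum]
    refine Finset.sum_congr rfl fun j _ => ?_
    have e1 : LowD G act (f j) m g vb = (t : ℂ) • LowD G act (f j) m g v1 := by
      rw [← map_smul, ← hvb]
    rw [e1, norm_smul, mul_pow, Complex.norm_real, Real.norm_of_nonneg ht.le]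
  rw [h2, mul_comm]
  exact mul_le_mul_of_nonneg_left h1 (by positivity)

end EqOka
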