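import Pool.Agent.Lib.MP_fe51c6_an_EO.Defs

/-! Auxiliary definitions for the proof (not used in the final statement). -/

open scoped Manifold Topology

noncomputable section

namespace EqOka

section Holomorphic

variable {E E' : Type} [NormedAddCommGroup E] [NormedSpace ℂ E] [NormedAddCommGroup E']
  [NormedSpace ℂ E'] {X X' : Type} [TopologicalSpace X] [ChartedSpace E X]
  [TopologicalSpace X'] [ChartedSpace E' X']

/-- A local homeomorphism which is holomorphic in both directions. The model spaces are explicit. -/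
structure HolPH (E E' : Type) [NormedAddCommGroup E] [NormedSpace ℂ E] [NormedAddCommGroup E']
    [NormedSpace ℂ E'] {X X' : Type} [TopologicalSpace X] [ChartedSpace E X]
    [TopologicalSpace X'] [ChartedSpace E' X'] (φ : OpenPartialHomeomorph X X') : Prop where
  fwd : ∀ x ∈ φ.source, MDifferentiableAt 𝓘(ℂ, E) 𝓘(ℂ, E') φ x
  bwd : ∀ x ∈ φ.target, MDifferentiableAt 𝓘(ℂ, E') 𝓘(ℂ, E) φ.symm x

end Holomorphic

section Act

variable {n : ℕ} (G : RedGrp n) {X : Type} (act : Op n → X → X)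

/-- The stabiliser algebra of `x`: the (span of the) set of all `ξ ∈ lie` whose one-parameter group
fixes `x`. By `mem_stab` it is that set. -/
def stab (x : X) : Submodule ℂ (Op n) :=
  Submodule.span ℂ {ξ | ξ ∈ G.lie ∧ ∀ t : ℝ, act (NormedSpace.exp ((t : ℂ) • ξ)) x = x}

/-- `m` minimises `ρ` on its `G`-orbit. -/
def IsMn (ρ : X → ℝ) (m : X) : Prop := ∀ g ∈ G.carrier, ρ m ≤ ρ (act g m)

/-- The subspace `g 𝔩 h` (used with `h = g⁻¹`). -/
def conjS (g h : Op n) (𝔩 : Submodule ℂ (Op n)) : Submodule ℂ (Op n) :=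
  𝔩.map ((LinearMap.mulLeft ℂ g).comp (LinearMap.mulRight ℂ h))

/-- The class of `𝔩`: the set of all points whose stabiliser algebra is conjugate to `𝔩`. -/
def Cls (𝔩 : Submodule ℂ (Op n)) : Set X :=
  {x | ∃ g ∈ G.carrier, ∃ h ∈ G.carrier, g * h = 1 ∧ h * g = 1 ∧ stab G act x = conjS g h 𝔩}

/-- The set of all points with stabiliser algebra `𝔩`. -/
def SS (𝔩 : Submodule ℂ (Op n)) : Set X := {x | stab G act x = 𝔩}

end Act

/-- A linear parametrisation of a subspace by some `ℂ^m`. -/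
theorem exists_param {W : Type} [NormedAddCommGroup W] [NormedSpace ℂ W] [FiniteDimensional ℂ W]
    (𝔩 : Submodule ℂ W) : ∃ f : Cd (Module.finrank ℂ 𝔩) →L[ℂ] W, Function.Injective f ∧
      LinearMap.range (f : Cd (Module.finrank ℂ 𝔩) →ₗ[ℂ] W) = 𝔩 := by
  have e : Cd (Module.finrank ℂ 𝔩) ≃ₗ[ℂ] 𝔩 :=
    LinearEquiv.ofFinrankEq _ _ (by rw [finrank_euclideanSpace_fin])
  refine ⟨LinearMap.toContinuousLinearMap (𝔩.subtype.comp e.toLinearMap), ?_, ?_⟩
  · exact (Subtype.val_injective).comp e.injective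
  · change LinearMap.range (𝔩.subtype.comp e.toLinearMap) = 𝔩
    rw [LinearMap.range_comp]; simp

/-- `𝔩` is closed under taking adjoints. -/
def StarCl {n : ℕ} (𝔩 : Submodule ℂ (Op n)) : Prop := ∀ ξ ∈ 𝔩, star ξ ∈ 𝔩

/-- `𝔩` is closed under commutators. -/
def BrCl {n : ℕ} (𝔩 : Submodule ℂ (Op n)) : Prop := ∀ ξ ∈ 𝔩, ∀ ζ ∈ 𝔩, ξ * ζ - ζ * ξ ∈ 𝔩

/-- The orthogonal complement of `𝔩` with respect to `tr (ξ η*)`. -/
def perp {n : ℕ} (𝔩 : Submodule ℂ (Op n)) : Submodule ℂ (Op n) where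
  carrier := {ζ | ∀ ξ ∈ 𝔩, LinearMap.trace ℂ (Cd n) ((ζ * star ξ : Op n) : Cd n →ₗ[ℂ] Cd n) = 0}
  add_mem' := by
    intro a b ha hb ξ hξ
    have h1 := ha ξ hξ
    have h2 := hb ξ hξ
    rw [add_mul, ContinuousLinearMap.toLinearMap_add, map_add, h1, h2, add_zero]
  zero_mem' := by
    intro ξ hξ
    rw [zero_mul, ContinuousLinearMap.toLinearMap_zero, map_zero]
  smul_mem' := by
    intro c a ha ξ hξ
    rw [smul_mul_assoc, ContinuousLinearMap.toLinearMap_smul, map_smul, ha ξ hξ, smul_zero]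

/-- The square of the Hilbert-Schmidt norm. -/
def hs {n : ℕ} (g : Op n) : ℝ := ∑ i : Fin n, ‖g (EuclideanSpace.single i 1)‖ ^ 2

/-- `tr g*g + tr (g*g)⁻¹` (used for invertible `g`). -/
def FF {n : ℕ} (g : Op n) : ℝ := hs g + hs (Ring.inverse g)

section Exh

variable {n : ℕ} (d : ℕ) (G : RedGrp n) {X : Type} [TopologicalSpace X] [ChartedSpace (Cd d) X]

/-- `ρ` is a `K`-invariant exhaustion function of the Stein `G`-manifold `X`, convex along the curves
`exp(tη) x` (`η` selfadjoint), strictly unless the curve is constant, with holomorphically convex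
sublevel sets. -/
structure Exh (act : Op n → X → X) (ρ : X → ℝ) : Prop where
  cont : Continuous ρ
  proper : ∀ c : ℝ, IsCompact {x | ρ x ≤ c}
  inv : ∀ k ∈ G.K, ∀ x, ρ (act k x) = ρ x
  convex : ∀ η ∈ G.lie, IsSelfAdjoint η → ∀ x, ∀ t ∈ Set.Icc (0 : ℝ) 1,
    ρ (act (NormedSpace.exp ((t : ℂ) • η)) x) ≤ (1 - t) * ρ x + t * ρ (act (NormedSpace.exp η) x)
  strict : ∀ η ∈ G.lie, IsSelfAdjoint η → ∀ x,
    (∀ t ∈ Set.Icc (0 : ℝ) 1, ρ (act (NormedSpace.exp ((t : ℂ) • η)) x) = ρ x) →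
      ∀ t : ℝ, act (NormedSpace.exp ((t : ℂ) • η)) x = x
  hconv : ∀ (c : ℝ) (x : X), c < ρ x →
    ∃ h : X → ℂ, HolFun d h ∧ (∀ y, ρ y ≤ c → ‖h y‖ ≤ 1) ∧ 1 < ‖h x‖

/-- The dimension of the Lie algebra. -/
def RedGrp.dim : ℕ := Module.finrank ℂ G.lie

/-- A linear isomorphism from `ℂ^dim` to the Lie algebra. -/
def RedGrp.bas : Cd G.dim →L[ℂ] Op n := Classical.choose (exists_param G.lie)

/-- The derivative at `0` of `v ↦ φ (exp(bas v) x)`, for a chart `φ`. -/
def orbD (act : Op n → X → X) (φ : X → Cd d) (x : X) : Cd G.dim →L[ℂ] Cd d :=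
  fderiv ℂ (fun v : Cd G.dim => φ (act (NormedSpace.exp (G.bas v)) x)) 0

end Exh

end EqOka
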