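import Pool.Agent.Lib.MP_fe51c6_an_EO.Core

/-! Definitions for the exhaustion function: `sumSq f x = ∑ |f_j(x)|²` and its maximum over `K`. -/

open scoped Manifold Topology

noncomputable section

namespace EqOka

variable {X : Type}

/-- `∑ |f_j(x)|²`. -/
def sumSq (f : ℕ → X → ℂ) (x : X) : ℝ := ∑' j, ‖f j x‖ ^ 2

/-- `max_{k ∈ K} ∑ |f_j(kx)|²`. -/
def rho {n : ℕ} (G : RedGrp n) (act : Op n → X → X) (f : ℕ → X → ℂ) (x : X) : ℝ :=
  sSup ((fun k => sumSq f (act k x)) '' G.K)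

variable (d : ℕ) [TopologicalSpace X] [ChartedSpace (Cd d) X]

/-- A sequence of holomorphic functions defining a proper injective holomorphic map to `ℓ²`. -/
structure Fam (f : ℕ → X → ℂ) : Prop where
  hol : ∀ j, HolFun d (f j)
  summ : ∀ C : Set X, IsCompact C → ∃ M : ℕ → ℝ, Summable M ∧ ∀ j, ∀ x ∈ C, ‖f j x‖ ^ 2 ≤ M j
  sep : ∀ x y : X, x ≠ y → ∃ j, f j x ≠ f j y
  proper : ∀ c : ℝ, ∃ C : Set X, IsCompact C ∧ ∀ x, sumSq f x ≤ c → x ∈ C

end EqOka
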