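import Pool.Agent.Lib.MP_fe51c6_an_EO.Cauchy

/-! Closed submanifolds given by flattening charts. -/

open scoped Manifold Topology
open Set

noncomputable section

namespace EqOka

variable {d d' : ℕ} {X : Type} [TopologicalSpace X] [ChartedSpace (Cd d) X]
  [IsManifold 𝓘(ℂ, Cd d) 1 X] [T2Space X]

/-- The complex manifold structure on the subset `S` of `X` is the one induced from `X`: the
inclusion is holomorphic and a map into `S` is holomorphic if it is holomorphic as a map into `X`. -/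
structure GoodSub (d d' : ℕ) {X : Type} [TopologicalSpace X] [ChartedSpace (Cd d) X] (S : Set X)
    [ChartedSpace (Cd d') S] : Prop where
  mfd : IsManifold 𝓘(ℂ, Cd d') 1 S
  incl : MDifferentiable 𝓘(ℂ, Cd d') 𝓘(ℂ, Cd d) (Subtype.val : S → X)
  lift : ∀ (E' H' M : Type) [NormedAddCommGroup E'] [NormedSpace ℂ E'] [TopologicalSpace H']
    (I' : ModelWithCorners ℂ E' H') [TopologicalSpace M] [ChartedSpace H' M] (g : M → S) (p : M),
    MDifferentiableAt I' 𝓘(ℂ, Cd d) (fun q => (g q : X)) p → MDifferentiableAt I' 𝓘(ℂ, Cd d') g p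

private theorem subm_lin (D : Submodule ℂ (Cd d)) (hD : Module.finrank ℂ D = d') :
    ∃ (A : Cd d →L[ℂ] Cd d') (B : Cd d' →L[ℂ] Cd d), (∀ v, A (B v) = v) ∧ (∀ v, B v ∈ D) ∧
      ∀ y ∈ D, B (A y) = y := by
  have e : D ≃ₗ[ℂ] Cd d' := LinearEquiv.ofFinrankEq _ _ (by rw [finrank_euclideanSpace_fin, hD])
  obtain ⟨g, hg⟩ := D.subtype.exists_leftInverse_of_injective (by simp)
  refine ⟨LinearMap.toContinuousLinearMap (e.toLinearMap.comp g),
    LinearMap.toContinuousLinearMap (D.subtype.comp e.symm.toLinearMap), ?_, ?_, ?_⟩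
  · intro v
    have h := LinearMap.congr_fun hg (e.symm v)
    simp only [LinearMap.coe_comp, Function.comp_apply, LinearMap.id_coe, id_eq] at h
    change e (g (D.subtype (e.symm v))) = v
    rw [h, e.apply_symm_apply]
  · intro v
    simp
  · intro y hy
    have h := LinearMap.congr_fun hg ⟨y, hy⟩
    simp only [LinearMap.coe_comp, Function.comp_apply, LinearMap.id_coe, id_eq,
      Submodule.subtype_apply] at h
    simp [h]

open Classical in
/-- The chart of `S` obtained from a flattening chart of `X`. -/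
private def submChart (S : Set X) (s : S) (Φ : OpenPartialHomeomorph X (Cd d))
    (D : Submodule ℂ (Cd d)) (A : Cd d →L[ℂ] Cd d') (B : Cd d' →L[ℂ] Cd d)
    (hAB : ∀ v, A (B v) = v) (hB : ∀ v, B v ∈ D) (hBA : ∀ y ∈ D, B (A y) = y)
    (hiff : ∀ x ∈ Φ.source, (x ∈ S ↔ Φ x ∈ D)) : OpenPartialHomeomorph S (Cd d') where
  toFun x := A (Φ x)
  invFun v := if h : Φ.symm (B v) ∈ S then ⟨Φ.symm (B v), h⟩ else s
  source := Subtype.val ⁻¹' Φ.source
  target := B ⁻¹' Φ.target
  map_source' := by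
    intro x hx
    have h1 : Φ x ∈ D := (hiff x hx).1 x.2
    simp only [mem_preimage]
    rw [hBA _ h1]
    exact Φ.map_source hx
  map_target' := by
    intro v hv
    have h1 : Φ.symm (B v) ∈ Φ.source := Φ.map_target hv
    have h2 : Φ.symm (B v) ∈ S := by
      rw [hiff _ h1, Φ.right_inv hv]
      exact hB v
    simp only [mem_preimage]
    rw [dif_pos h2]
    exact h1
  left_inv' := by
    intro x hx
    have h1 : Φ x ∈ D := (hiff x hx).1 x.2
    have h2 : Φ.symm (B (A (Φ x))) = x := by rw [hBA _ h1, Φ.left_inv hx]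
    have h3 : Φ.symm (B (A (Φ x))) ∈ S := by rw [h2]; exact x.2
    rw [dif_pos h3]
    exact Subtype.ext h2
  right_inv' := by
    intro v hv
    have h1 : Φ.symm (B v) ∈ Φ.source := Φ.map_target hv
    have h2 : Φ.symm (B v) ∈ S := by
      rw [hiff _ h1, Φ.right_inv hv]
      exact hB v
    rw [dif_pos h2]
    change A (Φ (Φ.symm (B v))) = v
    rw [Φ.right_inv hv, hAB]
  open_source := Φ.open_source.preimage continuous_subtype_val
  open_target := Φ.open_target.preimage B.continuous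
  continuousOn_toFun :=
    A.continuous.comp_continuousOn (Φ.continuousOn.comp continuous_subtype_val.continuousOn
      (fun x hx => hx))
  continuousOn_invFun := by
    rw [Topology.IsInducing.subtypeVal.continuousOn_iff]
    refine (Φ.continuousOn_symm.comp B.continuous.continuousOn (fun x hx => hx)).congr ?_
    intro v hv
    have h1 : Φ.symm (B v) ∈ Φ.source := Φ.map_target hv
    have h2 : Φ.symm (B v) ∈ S := by
      rw [hiff _ h1, Φ.right_inv hv]
      exact hB v
    simp only [Function.comp_apply]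
    rw [dif_pos h2]

omit [ChartedSpace (Cd d) X] [IsManifold 𝓘(ℂ, Cd d) 1 X] [T2Space X] in
private theorem submChart_symm (S : Set X) (s : S) (Φ : OpenPartialHomeomorph X (Cd d))
    (D : Submodule ℂ (Cd d)) (A : Cd d →L[ℂ] Cd d') (B : Cd d' →L[ℂ] Cd d)
    (hAB : ∀ v, A (B v) = v) (hB : ∀ v, B v ∈ D) (hBA : ∀ y ∈ D, B (A y) = y)
    (hiff : ∀ x ∈ Φ.source, (x ∈ S ↔ Φ x ∈ D)) (v : Cd d') (hv : B v ∈ Φ.target) :
    ((submChart S s Φ D A B hAB hB hBA hiff).symm v : X) = Φ.symm (B v) := by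
  classical
  have h1 : Φ.symm (B v) ∈ Φ.source := Φ.map_target hv
  have h2 : Φ.symm (B v) ∈ S := by
    rw [hiff _ h1, Φ.right_inv hv]
    exact hB v
  have h3 : (submChart S s Φ D A B hAB hB hBA hiff).symm v = ⟨Φ.symm (B v), h2⟩ := dif_pos h2
  rw [h3]

theorem exists_subManifold (S : Set X)
    (h : ∀ s ∈ S, ∃ (Φ : OpenPartialHomeomorph X (Cd d)) (D : Submodule ℂ (Cd d)),
      HolPH (Cd d) (Cd d) Φ ∧ s ∈ Φ.source ∧ Module.finrank ℂ D = d' ∧
        ∀ x ∈ Φ.source, (x ∈ S ↔ Φ x ∈ D)) :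
    ∃ _ : ChartedSpace (Cd d') S, GoodSub d d' S := by
  have h0 : ∀ s : S, ∃ (Φ : OpenPartialHomeomorph X (Cd d)) (A : Cd d →L[ℂ] Cd d')
      (B : Cd d' →L[ℂ] Cd d) (c : OpenPartialHomeomorph S (Cd d')), HolPH (Cd d) (Cd d) Φ ∧
      (s : X) ∈ Φ.source ∧ c.source = Subtype.val ⁻¹' Φ.source ∧ c.target = B ⁻¹' Φ.target ∧
      (∀ x : S, c x = A (Φ x)) ∧ (∀ v ∈ c.target, (c.symm v : X) = Φ.symm (B v)) := by
    intro s
    obtain ⟨Φ, D, h1, h2, h3, h4⟩ := h s s.2
    obtain ⟨A, B, h5, h6, h7⟩ := subm_lin D h3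
    refine ⟨Φ, A, B, submChart S s Φ D A B h5 h6 h7 h4, h1, h2, rfl, rfl, fun x => rfl, ?_⟩
    intro v hv
    exact submChart_symm S s Φ D A B h5 h6 h7 h4 v hv
  choose Φ A B c hol hmem hsrc htgt hc hcs using h0
  let CS : ChartedSpace (Cd d') S :=
    { atlas := range c
      chartAt := c
      mem_chart_source := fun x => by rw [hsrc]; exact hmem x
      chart_mem_atlas := fun x => mem_range_self x }
  have hm : IsManifold 𝓘(ℂ, Cd d') 1 S := by
    apply isManifold_of_contDiffOn
    rintro e e' ⟨s, rfl⟩ ⟨t, rfl⟩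
    simp only [modelWithCornersSelf_coe, modelWithCornersSelf_coe_symm, Function.comp_id,
      Function.id_comp, preimage_id_eq, id_eq, range_id, inter_univ]
    apply contDiffOn_one_of_differentiableOn _ _ ((c s).symm.trans (c t)).open_source
    intro v hv
    rw [OpenPartialHomeomorph.trans_source, OpenPartialHomeomorph.symm_source] at hv
    have hv1 : v ∈ (c s).target := hv.1
    have hv2 : (c s).symm v ∈ (c t).source := hv.2
    have hv3 : (((c s).symm v : S) : X) ∈ (Φ t).source := by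
      rw [hsrc] at hv2
      exact hv2
    rw [hcs s v hv1] at hv3
    have hv4 : B s v ∈ (Φ s).target := by
      rw [htgt] at hv1
      exact hv1
    have h1 : MDifferentiableAt 𝓘(ℂ, Cd d) 𝓘(ℂ, Cd d) ((Φ t) ∘ (Φ s).symm) (B s v) :=
      ((hol t).fwd _ hv3).comp _ ((hol s).bwd _ hv4)
    rw [mdifferentiableAt_iff_differentiableAt] at h1
    have h2 : DifferentiableAt ℂ (fun w => A t (((Φ t) ∘ (Φ s).symm) (B s w))) v :=
      (A t).differentiableAt.comp v (h1.comp v (B s).differentiableAt)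
    refine (h2.congr_of_eventuallyEq ?_).differentiableWithinAt
    filter_upwards [(c s).open_target.mem_nhds hv1] with w hw
    simp only [OpenPartialHomeomorph.coe_trans, Function.comp_apply]
    rw [hc, hcs s w hw]
  have hca : ∀ x : S, chartAt (Cd d') x = c x := fun x => rfl
  refine ⟨CS, hm, ?_, ?_⟩
  · intro p
    have h1 : MDifferentiableAt 𝓘(ℂ, Cd d') 𝓘(ℂ, Cd d') (c p) p :=
      mdifferentiableAt_atlas (mem_range_self p) (by rw [hsrc]; exact hmem p)
    have hp : p ∈ (c p).source := by rw [hsrc]; exact hmem p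
    have h2 : (c p) p ∈ (c p).target := (c p).map_source hp
    have h3 : B p ((c p) p) ∈ (Φ p).target := by
      have h4 := h2
      rw [htgt] at h4
      exact h4
    have h4 : MDifferentiableAt 𝓘(ℂ, Cd d') 𝓘(ℂ, Cd d) (B p) ((c p) p) :=
      (B p).differentiableAt.mdifferentiableAt
    have h5 : MDifferentiableAt 𝓘(ℂ, Cd d') 𝓘(ℂ, Cd d) ((Φ p).symm ∘ ((B p) ∘ (c p))) p :=
      ((hol p).bwd _ h3).comp p (h4.comp p h1)
    refine h5.congr_of_eventuallyEq ?_
    filter_upwards [(c p).open_source.mem_nhds hp] with x hx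
    simp only [Function.comp_apply]
    rw [← hcs p _ ((c p).map_source hx), (c p).left_inv hx]
  · intro E' H' M _ _ _ I' _ _ g p hg
    have hp : g p ∈ (c (g p)).source := by rw [hsrc]; exact hmem (g p)
    have h1 : MDifferentiableAt 𝓘(ℂ, Cd d') 𝓘(ℂ, Cd d') (c (g p)).symm ((c (g p)) (g p)) :=
      mdifferentiableAt_atlas_symm (mem_range_self (g p)) ((c (g p)).map_source hp)
    have h2 : MDifferentiableAt I' 𝓘(ℂ, Cd d) ((Φ (g p)) ∘ (fun q => (g q : X))) p :=
      ((hol (g p)).fwd _ (hmem (g p))).comp p hg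
    have h3 : MDifferentiableAt I' 𝓘(ℂ, Cd d')
        ((A (g p)) ∘ ((Φ (g p)) ∘ (fun q => (g q : X)))) p :=
      ((A (g p)).differentiableAt.mdifferentiableAt).comp p h2
    have h4 : ((A (g p)) ∘ ((Φ (g p)) ∘ (fun q => (g q : X)))) p = (c (g p)) (g p) := by
      simp only [Function.comp_apply]
      rw [hc]
    have h5 : MDifferentiableAt I' 𝓘(ℂ, Cd d')
        ((c (g p)).symm ∘ ((A (g p)) ∘ ((Φ (g p)) ∘ (fun q => (g q : X))))) p := by
      apply MDifferentiableAt.comp p _ h3
      rw [h4]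
      exact h1
    refine h5.congr_of_eventuallyEq ?_
    filter_upwards [hg.continuousAt.preimage_mem_nhds
      ((Φ (g p)).open_source.mem_nhds (hmem (g p)))] with x hx
    have hx' : g x ∈ (c (g p)).source := by rw [hsrc]; exact hx
    simp only [Function.comp_apply]
    rw [← hc, (c (g p)).left_inv hx']

end EqOka
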