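import Pool.Agent.Lib.MP_fe51c6_an_EO.Boch
import Pool.Agent.Lib.MP_fe51c6_an_EO.Subm
import Pool.Agent.Lib.MP_fe51c6_an_EO.Min

/-! The fixed point set of a reductive group: submanifolds of constant dimension. -/

open scoped Manifold Topology
open Set

noncomputable section

namespace EqOka

variable {n d e : ℕ} {L N : RedGrp n} {Y : Type} [TopologicalSpace Y] [ChartedSpace (Cd e) Y]
  [IsManifold 𝓘(ℂ, Cd e) 1 Y] [T2Space Y] {actY : Op n → Y → Y}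

/-- `T` is, near `y`, a submanifold of dimension `j`. -/
def FlatAt (e : ℕ) {Y : Type} [TopologicalSpace Y] [ChartedSpace (Cd e) Y] (T : Set Y) (j : ℕ)
    (y : Y) : Prop :=
  ∃ (Φ : OpenPartialHomeomorph Y (Cd e)) (D : Submodule ℂ (Cd e)),
    HolPH (Cd e) (Cd e) Φ ∧ y ∈ Φ.source ∧ Module.finrank ℂ D = j ∧ ∀ x ∈ Φ.source, (x ∈ T ↔ Φ x ∈ D)

/-- A point is fixed by `L` iff it is fixed by `L_K`. -/
theorem mem_Fix_iff (hL : HolAct e L actY) (y : Y) :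
    y ∈ Fix L.carrier actY ↔ ∀ k ∈ L.K, actY k y = y := by
  constructor
  · intro h k hk
    exact h k hk.1
  · intro h g hg
    obtain ⟨k, hk, η, hη, hs, hgk⟩ := RedGrp.polar_left hg
    have h2 := fixed_of_I hL hη y (fun s => h _ (RedGrp.exp_I_K hη hs s)) 1
    rw [one_smul] at h2
    rw [hgk, hL.mul k hk.1 _ (RedGrp.exp_mem hη), h2]
    exact h k hk

theorem isClosed_Fix (hL : HolAct e L actY) : IsClosed (Fix L.carrier actY) := by
  have h1 : Fix L.carrier actY = ⋂ g ∈ L.carrier, {y | actY g y = y} := by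
    ext y
    simp only [Set.mem_iInter]
    exact Iff.rfl
  rw [h1]
  exact isClosed_biInter fun g hg => isClosed_eq (hL.continuous_act hg) continuous_id

theorem exists_flatAt (hL : HolAct e L actY) (y : Y) (hy : y ∈ Fix L.carrier actY) :
    ∃ j, FlatAt e (Fix L.carrier actY) j y := by
  obtain ⟨Ψ, r, U, hB⟩ := exists_boch hL y
  have hk : ∀ k ∈ L.K, actY k y = y := (mem_Fix_iff hL y).1 hy
  obtain ⟨D, hD⟩ : ∃ D : Submodule ℂ (Cd e), ∀ v, v ∈ D ↔ ∀ k ∈ L.K, U k v = v := by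
    refine ⟨⨅ k ∈ L.K, LinearMap.ker ((U k - ContinuousLinearMap.id ℂ (Cd e) : Cd e →L[ℂ] Cd e) :
      Cd e →ₗ[ℂ] Cd e), fun v => ?_⟩
    simp only [Submodule.mem_iInf, LinearMap.mem_ker]
    refine forall₂_congr fun k _ => ?_
    change U k v - v = 0 ↔ _
    exact sub_eq_zero
  refine ⟨Module.finrank ℂ D, Ψ, D, hB.hol, hB.mem, rfl, fun x hx => ?_⟩
  rw [mem_Fix_iff hL x, hD]
  refine forall₂_congr fun k hkL => ?_
  obtain ⟨h1, h2⟩ := hB.eqv k hkL (hk k hkL) x hx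
  rw [← h2]
  constructor
  · intro h
    rw [h]
  · intro h
    exact Ψ.injOn h1 hx h

private theorem FixFlat_le {T : Set Y} {i j : ℕ} {y : Y} (hy : y ∈ T) (hi : FlatAt e T i y)
    (hj : FlatAt e T j y) : i ≤ j := by
  obtain ⟨Φ₁, D₁, hΦ₁, hy₁, hD₁, hT₁⟩ := hi
  obtain ⟨Φ₂, D₂, hΦ₂, hy₂, hD₂, hT₂⟩ := hj
  have hp₁ : Φ₁ y ∈ D₁ := (hT₁ y hy₁).1 hy
  have hinv₁ : Φ₁.symm (Φ₁ y) = y := Φ₁.left_inv hy₁
  have hinv₂ : Φ₂.symm (Φ₂ y) = y := Φ₂.left_inv hy₂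
  obtain ⟨τ, hτ⟩ : ∃ τ : Cd e → Cd e, τ = fun v => Φ₂ (Φ₁.symm v) := ⟨_, rfl⟩
  obtain ⟨σ, hσ⟩ : ∃ σ : Cd e → Cd e, σ = fun v => Φ₁ (Φ₂.symm v) := ⟨_, rfl⟩
  have hτd : DifferentiableAt ℂ τ (Φ₁ y) := by
    rw [← mdifferentiableAt_iff_differentiableAt, hτ]
    refine MDifferentiableAt.comp (Φ₁ y) (I' := 𝓘(ℂ, Cd e)) ?_
      (hΦ₁.bwd _ (Φ₁.map_source hy₁))
    rw [hinv₁]
    exact hΦ₂.fwd y hy₂
  have hτy : τ (Φ₁ y) = Φ₂ y := by
    rw [hτ]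
    simp only [hinv₁]
  have hσd : DifferentiableAt ℂ σ (Φ₂ y) := by
    rw [← mdifferentiableAt_iff_differentiableAt, hσ]
    refine MDifferentiableAt.comp (Φ₂ y) (I' := 𝓘(ℂ, Cd e)) ?_
      (hΦ₂.bwd _ (Φ₂.map_source hy₂))
    rw [hinv₂]
    exact hΦ₁.fwd y hy₁
  obtain ⟨A, hA⟩ : ∃ A : Cd e →L[ℂ] Cd e, A = fderiv ℂ τ (Φ₁ y) := ⟨_, rfl⟩
  have hτf : HasFDerivAt τ A (Φ₁ y) := by
    rw [hA]
    exact hτd.hasFDerivAt
  have hnear : ∀ᶠ v in 𝓝 (Φ₁ y), v ∈ Φ₁.target ∧ Φ₁.symm v ∈ Φ₂.source := by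
    have h1 : ∀ᶠ v in 𝓝 (Φ₁ y), v ∈ Φ₁.target :=
      Φ₁.open_target.mem_nhds (Φ₁.map_source hy₁)
    have h2 : ContinuousAt Φ₁.symm (Φ₁ y) := Φ₁.symm.continuousAt (Φ₁.map_source hy₁)
    have h3 : ∀ᶠ v in 𝓝 (Φ₁ y), Φ₁.symm v ∈ Φ₂.source := by
      refine h2.eventually_mem ?_
      rw [hinv₁]
      exact Φ₂.open_source.mem_nhds hy₂
    exact h1.and h3
  -- injectivity
  have hinj : Function.Injective A := by
    have h1 : HasFDerivAt (σ ∘ τ) ((fderiv ℂ σ (Φ₂ y)).comp A) (Φ₁ y) := by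
      refine HasFDerivAt.comp (Φ₁ y) ?_ hτf
      rw [hτy]
      exact hσd.hasFDerivAt
    have h2 : HasFDerivAt (fun v : Cd e => v) ((fderiv ℂ σ (Φ₂ y)).comp A) (Φ₁ y) := by
      refine h1.congr_of_eventuallyEq ?_
      filter_upwards [hnear] with v hv
      simp only [Function.comp_apply, hτ, hσ]
      rw [Φ₂.left_inv hv.2, Φ₁.right_inv hv.1]
    have h3 : (fderiv ℂ σ (Φ₂ y)).comp A = ContinuousLinearMap.id ℂ (Cd e) :=
      h2.unique (hasFDerivAt_id _)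
    intro v w hvw
    have h4 : ∀ u, (fderiv ℂ σ (Φ₂ y)) (A u) = u := fun u =>
      congrArg (fun B : Cd e →L[ℂ] Cd e => B u) h3
    rw [← h4 v, ← h4 w, hvw]
  -- the image of `D₁`
  have hmap : ∀ v ∈ D₁, A v ∈ D₂ := by
    intro v hv
    have hline : HasDerivAt (fun t : ℂ => τ (Φ₁ y + t • v)) (A v) 0 := by
      have h1 : HasDerivAt (fun t : ℂ => Φ₁ y + t • v) v 0 := by
        have h2 := ((hasDerivAt_id (0 : ℂ)).smul_const v).const_add (Φ₁ y)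
        simpa using h2
      have h3 : HasFDerivAt τ A (Φ₁ y + (0 : ℂ) • v) := by
        rw [zero_smul, add_zero]
        exact hτf
      exact h3.comp_hasDerivAt 0 h1
    have hslope := hline.tendsto_slope
    refine (Submodule.closed_of_finiteDimensional D₂).mem_of_tendsto hslope ?_
    have hcont : ContinuousAt (fun t : ℂ => Φ₁ y + t • v) 0 := by
      fun_prop
    have h4' : Filter.Tendsto (fun t : ℂ => Φ₁ y + t • v) (𝓝 0) (𝓝 (Φ₁ y)) := by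
      have h41 := hcont.tendsto
      rwa [zero_smul, add_zero] at h41
    have h4 : ∀ᶠ t in 𝓝 (0 : ℂ), (Φ₁ y + t • v) ∈ Φ₁.target ∧
        Φ₁.symm (Φ₁ y + t • v) ∈ Φ₂.source := h4'.eventually hnear
    have h5 : ∀ t : ℂ, ((Φ₁ y + t • v) ∈ Φ₁.target ∧
        Φ₁.symm (Φ₁ y + t • v) ∈ Φ₂.source) → τ (Φ₁ y + t • v) ∈ D₂ := by
      intro t ht
      have h6 : Φ₁.symm (Φ₁ y + t • v) ∈ T := by
        rw [hT₁ _ (Φ₁.map_target ht.1), Φ₁.right_inv ht.1]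
        exact D₁.add_mem hp₁ (D₁.smul_mem t hv)
      have h7 := (hT₂ _ ht.2).1 h6
      rw [hτ]
      exact h7
    have h8 : τ (Φ₁ y + (0 : ℂ) • v) ∈ D₂ := h5 0 h4.self_of_nhds
    filter_upwards [nhdsWithin_le_nhds h4] with t ht
    rw [slope_def_module]
    exact D₂.smul_mem _ (D₂.sub_mem (h5 t ht) h8)
  have hle : D₁.map (A : Cd e →ₗ[ℂ] Cd e) ≤ D₂ := by
    rintro _ ⟨v, hv, rfl⟩
    exact hmap v hv
  have hfr : Module.finrank ℂ (D₁.map (A : Cd e →ₗ[ℂ] Cd e)) = Module.finrank ℂ D₁ :=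
    (Submodule.equivMapOfInjective (A : Cd e →ₗ[ℂ] Cd e) hinj D₁).finrank_eq.symm
  rw [← hD₁, ← hD₂, ← hfr]
  exact Submodule.finrank_mono hle

theorem flatAt_unique {T : Set Y} {i j : ℕ} {y : Y} (hy : y ∈ T) (hi : FlatAt e T i y)
    (hj : FlatAt e T j y) : i = j :=
  le_antisymm (FixFlat_le hy hi hj) (FixFlat_le hy hj hi)

/-- The part of the fixed point set of dimension `j`. -/
def FixJ (e : ℕ) (L : RedGrp n) {Y : Type} [TopologicalSpace Y] [ChartedSpace (Cd e) Y]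
    (actY : Op n → Y → Y) (j : ℕ) : Set Y :=
  {y | y ∈ Fix L.carrier actY ∧ FlatAt e (Fix L.carrier actY) j y}

theorem isClosed_FixJ (hL : HolAct e L actY) (j : ℕ) : IsClosed (FixJ e L actY j) := by
  refine isClosed_of_closure_subset fun y hy => ?_
  have h1 : y ∈ Fix L.carrier actY :=
    closure_minimal (fun x hx => hx.1) (isClosed_Fix hL) hy
  obtain ⟨i, Φ, D, hΦ, hyΦ, hD, hT⟩ := exists_flatAt hL y h1
  obtain ⟨y', hy', hy'J⟩ := mem_closure_iff.1 hy Φ.source Φ.open_source hyΦ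
  have h2 : i = j := flatAt_unique hy'J.1 ⟨Φ, D, hΦ, hy', hD, hT⟩ hy'J.2
  subst h2
  exact ⟨h1, Φ, D, hΦ, hyΦ, hD, hT⟩

theorem FixJ_nhds (hL : HolAct e L actY) (j : ℕ) (y : Y) (hy : y ∈ FixJ e L actY j) :
    ∀ᶠ x in 𝓝 y, x ∈ Fix L.carrier actY → x ∈ FixJ e L actY j := by
  obtain ⟨-, Φ, D, hΦ, hyΦ, hD, hT⟩ := hy
  filter_upwards [Φ.open_source.mem_nhds hyΦ] with x hx hxF
  exact ⟨hxF, Φ, D, hΦ, hx, hD, hT⟩

theorem FixJ_flat (hL : HolAct e L actY) (j : ℕ) (y : Y) (hy : y ∈ FixJ e L actY j) :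
    ∃ (Φ : OpenPartialHomeomorph Y (Cd e)) (D : Submodule ℂ (Cd e)),
      HolPH (Cd e) (Cd e) Φ ∧ y ∈ Φ.source ∧ Module.finrank ℂ D = j ∧
        ∀ x ∈ Φ.source, (x ∈ FixJ e L actY j ↔ Φ x ∈ D) := by
  obtain ⟨-, Φ, D, hΦ, hyΦ, hD, hT⟩ := hy
  refine ⟨Φ, D, hΦ, hyΦ, hD, fun x hx => ?_⟩
  rw [← hT x hx]
  exact ⟨fun h => h.1, fun h => ⟨h, Φ, D, hΦ, hx, hD, hT⟩⟩

/-- The parts are invariant under a group normalising `L`. -/
theorem FixJ_invt (hB : HolAct e N actY) (hL : L.carrier ⊆ N.carrier)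
    (hn : ∀ g ∈ N.carrier, ∀ h : Op n, g * h = 1 → ∀ l ∈ L.carrier, g * l * h ∈ L.carrier) (j : ℕ) :
    Invt N.carrier actY (FixJ e L actY j) := by
  have hFix : ∀ g ∈ N.carrier, ∀ y ∈ Fix L.carrier actY, actY g y ∈ Fix L.carrier actY := by
    intro g hg y hy l hl
    obtain ⟨h, hh, hgh, hhg⟩ := N.inv_mem g hg
    have h1 : h * l * g ∈ L.carrier := hn h hh g hhg l hl
    have h2 : l * g = g * (h * l * g) := by
      rw [← mul_assoc, ← mul_assoc, hgh, one_mul]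
    rw [← hB.mul l (hL hl) g hg, h2, hB.mul g hg _ (hL h1), hy _ h1]
  intro g hg y hy
  obtain ⟨h, hh, hgh, hhg⟩ := N.inv_mem g hg
  obtain ⟨hyF, Φ, D, hΦ, hyΦ, hD, hT⟩ := hy
  obtain ⟨φ, hφ, hφs⟩ : ∃ φ : Y ≃ₜ Y, (∀ x, φ x = actY h x) ∧ ∀ x, φ.symm x = actY g x :=
    ⟨{ toFun := actY h
       invFun := actY g
       left_inv := fun x => (hB.inv_act hg hgh x).1
       right_inv := fun x => (hB.inv_act hg hgh x).2
       continuous_toFun := hB.continuous_act hh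
       continuous_invFun := hB.continuous_act hg }, fun x => rfl, fun x => rfl⟩
  refine ⟨hFix g hg y hyF, φ.transOpenPartialHomeomorph Φ, D, ⟨?_, ?_⟩, ?_, hD, ?_⟩
  · intro x hx
    have hx' : actY h x ∈ Φ.source := by
      rw [← hφ x]
      exact hx
    have h1 : MDifferentiableAt 𝓘(ℂ, Cd e) 𝓘(ℂ, Cd e) (actY h) x := hB.hol h hh x
    have h2 : MDifferentiableAt 𝓘(ℂ, Cd e) 𝓘(ℂ, Cd e) Φ (actY h x) := hΦ.fwd _ hx'
    have h3 := MDifferentiableAt.comp x h2 h1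
    have h4 : (φ.transOpenPartialHomeomorph Φ : Y → Cd e) = Φ ∘ actY h := by
      funext z
      change Φ (φ z) = Φ (actY h z)
      rw [hφ z]
    rw [h4]
    exact h3
  · intro v hv
    have hv' : v ∈ Φ.target := hv
    have h1 : MDifferentiableAt 𝓘(ℂ, Cd e) 𝓘(ℂ, Cd e) (actY g) (Φ.symm v) := hB.hol g hg _
    have h2 : MDifferentiableAt 𝓘(ℂ, Cd e) 𝓘(ℂ, Cd e) Φ.symm v := hΦ.bwd _ hv'
    have h3 := MDifferentiableAt.comp v h1 h2
    have h4 : ((φ.transOpenPartialHomeomorph Φ).symm : Cd e → Y) = actY g ∘ Φ.symm := by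
      funext z
      change φ.symm (Φ.symm z) = actY g (Φ.symm z)
      rw [hφs]
    rw [h4]
    exact h3
  · change φ (actY g y) ∈ Φ.source
    rw [hφ, (hB.inv_act hg hgh y).2]
    exact hyΦ
  · intro x hx
    have hx' : actY h x ∈ Φ.source := by
      rw [← hφ x]
      exact hx
    have h5 : (φ.transOpenPartialHomeomorph Φ) x = Φ (actY h x) := by
      change Φ (φ x) = Φ (actY h x)
      rw [hφ x]
    rw [h5, ← hT _ hx']
    constructor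
    · intro hxF
      exact hFix h hh x hxF
    · intro hxF
      have h6 := hFix g hg _ hxF
      rwa [(hB.inv_act hg hgh x).1] at h6

end EqOka
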