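import Pool.Agent.Lib.MP_fe51c6_an_EO.Subm
import Pool.Agent.Lib.MP_fe51c6_an_EO.Cls
import Pool.Agent.Lib.MP_fe51c6_an_EO.NGrp

/-! `SS 𝔩` is a submanifold: flattening charts from the slice theorem. -/

open scoped Manifold Topology
open Set

noncomputable section

namespace EqOka

variable {n d : ℕ} {G : RedGrp n} {X : Type} [TopologicalSpace X] [ChartedSpace (Cd d) X]
  [IsManifold 𝓘(ℂ, Cd d) 1 X] [T2Space X] {act : Op n → X → X} {ρ : X → ℝ}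

/-- Near a point `m` with StarCl stabiliser algebra `𝔩`, `SS 𝔩` is given by `P(Θ x) ∈ 𝔫`. -/
theorem SS_iff_near (hA : HolAct d G act) {𝔩 : Submodule ℂ (Op n)} {N : RedGrp n}
    (hN : IsNorm G N 𝔩) {m : X} (hm : m ∈ SS G act 𝔩) {Q : Submodule ℂ (Op n)}
    {Θ : OpenPartialHomeomorph X (Cd d)} {P : Cd d →L[ℂ] Op n} {π : Cd d →L[ℂ] Cd d}
    (hQ : Q ≤ G.lie) (h : SliceAt d G act m Q Θ P π) :
    ∃ Θ' : OpenPartialHomeomorph X (Cd d), SliceAt d G act m Q Θ' P π ∧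
      (∀ x ∈ Θ'.source, x ∈ Θ.source ∧ Θ' x = Θ x) ∧
      ∀ x ∈ Θ'.source, (x ∈ SS G act 𝔩 ↔ P (Θ' x) ∈ N.lie) := by
  obtain ⟨ε, hε, hb⟩ := bracket_of_conj_small 𝔩
  obtain ⟨Θ', hS, hsrc, hsm⟩ := h.shrink ε hε
  refine ⟨Θ', hS, hsrc, fun x hx => ?_⟩
  have hmS : stab G act m = 𝔩 := hm
  have hP : P (Θ' x) ∈ G.lie := hQ (hS.maps _)
  have e := exp_neg_mul_self (P (Θ' x))
  have h1 : stab G act x = conjS (NormedSpace.exp (P (Θ' x))) (NormedSpace.exp (-(P (Θ' x))))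
      𝔩 := by
    have h2 := hS.eq x hx
    have h3 := hS.stab_eq (Θ' x) (Θ'.map_source hx)
    have h4 := stab_act hA (RedGrp.exp_mem hP) e.2 (Θ'.symm (π (Θ' x)))
    rw [← h2, h3, hmS] at h4
    exact h4
  rw [hN.lie]
  constructor
  · intro hxS
    have hxS' : stab G act x = 𝔩 := hxS
    rw [hxS'] at h1
    exact ⟨hP, hb _ (hsm x hx) h1.symm⟩
  · rintro ⟨_, h2⟩
    show stab G act x = 𝔩
    rw [h1]
    exact conj_exp_of_bracket h2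

/-- Dimension count (linear algebra). -/
theorem finrank_comap_eq {W : Type} [NormedAddCommGroup W] [NormedSpace ℂ W]
    [FiniteDimensional ℂ W] (P : Cd d →L[ℂ] W) (Q 𝔩 𝔫 𝔤 : Submodule ℂ W) (h1 : 𝔩 ≤ 𝔫) (h2 : 𝔫 ≤ 𝔤)
    (hQ1 : Q ⊓ 𝔩 = ⊥) (hQ2 : Q ⊔ 𝔩 = 𝔤) (hP : ∀ v, P v ∈ Q) (hP' : ∀ ξ ∈ Q, ∃ v, P v = ξ) :
    Module.finrank ℂ (Submodule.comap (P : Cd d →ₗ[ℂ] W) 𝔫)
      = d + Module.finrank ℂ 𝔫 - Module.finrank ℂ 𝔤 := by
  have hr : LinearMap.range (P : Cd d →ₗ[ℂ] W) = Q := by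
    apply le_antisymm
    · rintro _ ⟨v, rfl⟩
      exact hP v
    · intro ξ hξ
      obtain ⟨v, hv⟩ := hP' ξ hξ
      exact ⟨v, hv⟩
  have hk := LinearMap.finrank_range_add_finrank_ker (P : Cd d →ₗ[ℂ] W)
  rw [hr, finrank_euclideanSpace_fin] at hk
  have hle : LinearMap.ker (P : Cd d →ₗ[ℂ] W) ≤ Submodule.comap (P : Cd d →ₗ[ℂ] W) 𝔫 := by
    intro v hv
    have h3 : (P : Cd d →ₗ[ℂ] W) v = 0 := hv
    show (P : Cd d →ₗ[ℂ] W) v ∈ 𝔫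
    rw [h3]
    exact 𝔫.zero_mem
  have hc := LinearMap.finrank_range_add_finrank_ker
    ((P : Cd d →ₗ[ℂ] W).domRestrict (Submodule.comap (P : Cd d →ₗ[ℂ] W) 𝔫))
  rw [LinearMap.range_domRestrict, Submodule.map_comap_eq, hr, LinearMap.ker_domRestrict,
    (Submodule.comapSubtypeEquivOfLe hle).finrank_eq] at hc
  have e1 := Submodule.finrank_sup_add_finrank_inf_eq (Q ⊓ 𝔫) 𝔩
  have e2 : (Q ⊓ 𝔫) ⊔ 𝔩 = 𝔫 := by
    rw [sup_comm, ← sup_inf_assoc_of_le Q h1, sup_comm 𝔩 Q, hQ2, inf_eq_right.mpr h2]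
  have e3 : (Q ⊓ 𝔫) ⊓ 𝔩 = ⊥ := by
    rw [inf_right_comm, hQ1, bot_inf_eq]
  rw [e2, e3, finrank_bot] at e1
  have e4 := Submodule.finrank_sup_add_finrank_inf_eq Q 𝔩
  rw [hQ2, hQ1, finrank_bot] at e4
  omega

theorem exists_flat (hA : HolAct d G act) (hρ : Exh d G act ρ) (hc : ClosedOrbits G act)
    {𝔩 : Submodule ℂ (Op n)} (hs : StarCl 𝔩) {N : RedGrp n} (hN : IsNorm G N 𝔩) (s : X)
    (hx : s ∈ SS G act 𝔩) :
    ∃ (Φ : OpenPartialHomeomorph X (Cd d)) (D : Submodule ℂ (Cd d)),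
      HolPH (Cd d) (Cd d) Φ ∧ s ∈ Φ.source ∧
        Module.finrank ℂ D = d + Module.finrank ℂ N.lie - Module.finrank ℂ G.lie ∧
        ∀ x ∈ Φ.source, (x ∈ SS G act 𝔩 ↔ Φ x ∈ D) := by
  obtain ⟨g₀, hg₀, m, hmS, hmn, hms⟩ := exists_mn_SS hA hρ hc hs (SS_subset_Cls hA 𝔩 hx)
  obtain ⟨h₀, hh₀, hgh, hhg⟩ := G.inv_mem g₀ hg₀
  have hst : stab G act m = 𝔩 := hmS
  have hsm : act h₀ s = m := by
    rw [← hms]
    exact (hA.inv_act hg₀ hgh m).2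
  have hc1 : conjS g₀ h₀ 𝔩 = 𝔩 := conj_of_SS hA hmS hg₀ hgh (by rw [hms]; exact hx)
  have hc2 : conjS h₀ g₀ 𝔩 = 𝔩 := conj_of_SS hA hx hh₀ hhg (by rw [hsm]; exact hmS)
  have hiff : ∀ x : X, x ∈ SS G act 𝔩 ↔ act h₀ x ∈ SS G act 𝔩 := by
    intro x
    constructor
    · intro h
      have h' : stab G act x = 𝔩 := h
      show stab G act (act h₀ x) = 𝔩
      rw [stab_act hA hh₀ hhg, h', hc2]
    · intro h
      have h' : stab G act (act h₀ x) = 𝔩 := h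
      show stab G act x = 𝔩
      have h3 := stab_act hA hg₀ hgh (act h₀ x)
      rw [(hA.inv_act hg₀ hgh x).1, h', hc1] at h3
      exact h3
  have hlG : 𝔩 ≤ G.lie := hst ▸ stab_le m
  obtain ⟨Q, hQ1, hQ2⟩ := exists_complement 𝔩 G.lie hlG
  obtain ⟨Θ, P, π, hS⟩ := exists_slice hA hc m (by rw [hst]; exact hs) Q
    (by rw [hst]; exact hQ1) (by rw [hst]; exact hQ2)
  have hQle : Q ≤ G.lie := hQ2 ▸ le_sup_left
  obtain ⟨Θ', hS', _, hflat⟩ := SS_iff_near hA hN hmS hQle hS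
  have hbr : BrCl 𝔩 := hst ▸ stab_brCl hA m
  have hlN : 𝔩 ≤ N.lie := fun ξ hξ => (hN.lie ξ).mpr ⟨hlG hξ, hbr ξ hξ⟩
  have hNG : N.lie ≤ G.lie := fun ξ hξ => ((hN.lie ξ).mp hξ).1
  let φ : X ≃ₜ X :=
    { toFun := act h₀
      invFun := act g₀
      left_inv := fun y => (hA.inv_act hg₀ hgh y).1
      right_inv := fun y => (hA.inv_act hg₀ hgh y).2
      continuous_toFun := hA.continuous_act hh₀
      continuous_invFun := hA.continuous_act hg₀ }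
  refine ⟨φ.transOpenPartialHomeomorph Θ', Submodule.comap (P : Cd d →ₗ[ℂ] Op n) N.lie,
    ⟨?_, ?_⟩, ?_, ?_, ?_⟩
  · intro x hx
    have hx' : act h₀ x ∈ Θ'.source := hx
    exact (hS'.hol.fwd _ hx').comp x (hA.hol h₀ hh₀ x)
  · intro v hv
    have hv' : v ∈ Θ'.target := hv
    exact (hA.hol g₀ hg₀ (Θ'.symm v)).comp v (hS'.hol.bwd v hv')
  · show act h₀ s ∈ Θ'.source
    rw [hsm]
    exact hS'.mem
  · exact finrank_comap_eq P Q 𝔩 N.lie G.lie hlN hNG hQ1 hQ2 hS'.maps hS'.onto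
  · intro x hx
    have hx' : act h₀ x ∈ Θ'.source := hx
    rw [hiff x, hflat _ hx']
    exact Iff.rfl

end EqOka
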