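import Pool.Agent.Lib.MP_fe51c6_an_EO.Core

/-! Elementary facts on exponentials and on the groups `RedGrp`. -/

noncomputable section

namespace EqOka

/-! ### The abstract statements -/

namespace GrpAux

section Banach

variable {A : Type*} [NormedRing A] [NormedAlgebra ℂ A] [CompleteSpace A]

theorem exp_add_smul (s t : ℂ) (ξ : A) :
    NormedSpace.exp ((s + t) • ξ) = NormedSpace.exp (s • ξ) * NormedSpace.exp (t • ξ) := by
  let _ : NormedAlgebra ℚ A := NormedAlgebra.restrictScalars ℚ ℂ A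
  rw [add_smul]
  exact NormedSpace.exp_add_of_commute (((Commute.refl ξ).smul_left s).smul_right t)

theorem exp_neg_mul_self (ξ : A) :
    NormedSpace.exp (-ξ) * NormedSpace.exp ξ = 1 ∧
      NormedSpace.exp ξ * NormedSpace.exp (-ξ) = 1 := by
  let _ : NormedAlgebra ℚ A := NormedAlgebra.restrictScalars ℚ ℂ A
  constructor
  · rw [← NormedSpace.exp_add_of_commute (Commute.refl ξ).neg_left, neg_add_cancel,
      NormedSpace.exp_zero]
  · rw [← NormedSpace.exp_add_of_commute (Commute.refl ξ).neg_right, add_neg_cancel,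
      NormedSpace.exp_zero]

theorem exp_conj {g h : A} (hgh : g * h = 1) (hhg : h * g = 1) (ξ : A) :
    NormedSpace.exp (g * ξ * h) = g * NormedSpace.exp ξ * h := by
  let _ : NormedAlgebra ℚ A := NormedAlgebra.restrictScalars ℚ ℂ A
  exact NormedSpace.exp_units_conj (⟨g, h, hgh, hhg⟩ : Aˣ) ξ

theorem hasDerivAt_conj (ξ ζ : A) :
    HasDerivAt (fun z : ℂ => NormedSpace.exp (z • ξ) * ζ * NormedSpace.exp (z • (-ξ)))
      (ξ * ζ - ζ * ξ) 0 := by
  have h1 := hasDerivAt_exp_smul_const (𝕂 := ℂ) ξ (0 : ℂ)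
  have h2 := hasDerivAt_exp_smul_const (𝕂 := ℂ) (-ξ) (0 : ℂ)
  have h3 := (h1.mul_const ζ).mul h2
  refine h3.congr_deriv ?_
  simp only [zero_smul, NormedSpace.exp_zero, one_mul, mul_one, mul_neg]
  rw [sub_eq_add_neg]

end Banach

section CStar

variable {A : Type*} [CStarAlgebra A]

theorem exp_isSelfAdjoint {η : A} (h : IsSelfAdjoint η) (t : ℝ) :
    IsSelfAdjoint (NormedSpace.exp ((t : ℂ) • η)) :=
  (IsSelfAdjoint.smul (show IsSelfAdjoint (t : ℂ) from Complex.conj_ofReal t) h).exp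

theorem exp_I_unitary {η : A} (h : IsSelfAdjoint η) (s : ℝ) :
    NormedSpace.exp (((s : ℂ) * Complex.I) • η) ∈ unitary A := by
  let _ : NormedAlgebra ℚ A := NormedAlgebra.restrictScalars ℚ ℂ A
  refine NormedSpace.exp_mem_unitary_of_mem_skewAdjoint ?_
  rw [skewAdjoint.mem_iff, star_smul, h.star_eq, ← neg_smul]
  congr 1
  simp

theorem exp_inj {η η' : A} (h : IsSelfAdjoint η) (h' : IsSelfAdjoint η')
    (he : NormedSpace.exp η = NormedSpace.exp η') : η = η' := by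
  rw [← CFC.log_exp η h, he, CFC.log_exp η' h']

theorem exp_two {η : A} : NormedSpace.exp η * NormedSpace.exp η = NormedSpace.exp ((2 : ℂ) • η) := by
  have h := exp_add_smul (A := A) 1 1 η
  rw [one_smul] at h
  rw [← h]
  norm_num

theorem two_inj {η η' : A} (h : IsSelfAdjoint η) (h' : IsSelfAdjoint η')
    (he : NormedSpace.exp η * NormedSpace.exp η = NormedSpace.exp η' * NormedSpace.exp η') :
    η = η' := by
  rw [exp_two, exp_two] at he
  have h2 : IsSelfAdjoint (2 : ℂ) := by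
    rw [IsSelfAdjoint]
    simp
  have := exp_inj (h2.smul h) (h2.smul h') he
  exact smul_right_injective A (two_ne_zero (α := ℂ)) this

theorem polar_unique {k k' η η' : A} (hk : k ∈ unitary A) (hk' : k' ∈ unitary A)
    (h : IsSelfAdjoint η) (h' : IsSelfAdjoint η')
    (he : k * NormedSpace.exp η = k' * NormedSpace.exp η') : k = k' ∧ η = η' := by
  have key : ∀ {k η : A}, k ∈ unitary A → IsSelfAdjoint η →
      star (k * NormedSpace.exp η) * (k * NormedSpace.exp η) =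
        NormedSpace.exp η * NormedSpace.exp η := by
    intro k η hk h
    rw [star_mul, h.exp.star_eq, mul_assoc, ← mul_assoc (star k), Unitary.star_mul_self_of_mem hk,
      one_mul]
  have h1 : NormedSpace.exp η * NormedSpace.exp η = NormedSpace.exp η' * NormedSpace.exp η' := by
    rw [← key hk h, ← key hk' h', he]
  have h2 := two_inj h h' h1
  subst h2
  refine ⟨?_, rfl⟩
  have h3 := congrArg (fun y => y * NormedSpace.exp (-η)) he
  simpa only [mul_assoc, (exp_neg_mul_self η).2, mul_one] using h3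

theorem polar_unique' {k k' η η' : A} (hk : k ∈ unitary A) (hk' : k' ∈ unitary A)
    (h : IsSelfAdjoint η) (h' : IsSelfAdjoint η')
    (he : NormedSpace.exp η * k = NormedSpace.exp η' * k') : k = k' ∧ η = η' := by
  have key : ∀ {k η : A}, k ∈ unitary A → IsSelfAdjoint η →
      (NormedSpace.exp η * k) * star (NormedSpace.exp η * k) =
        NormedSpace.exp η * NormedSpace.exp η := by
    intro k η hk h
    rw [star_mul, h.exp.star_eq, mul_assoc, ← mul_assoc k, Unitary.mul_star_self_of_mem hk,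
      one_mul]
  have h1 : NormedSpace.exp η * NormedSpace.exp η = NormedSpace.exp η' * NormedSpace.exp η' := by
    rw [← key hk h, ← key hk' h', he]
  have h2 := two_inj h h' h1
  subst h2
  refine ⟨?_, rfl⟩
  have h3 := congrArg (fun y => NormedSpace.exp (-η) * y) he
  simpa only [← mul_assoc, (exp_neg_mul_self η).1, one_mul] using h3

theorem isClosed_unitary : IsClosed (unitary A : Set A) := by
  have h : (unitary A : Set A) = {u | star u * u = 1} ∩ {u | u * star u = 1} := by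
    ext u
    exact Unitary.mem_iff
  rw [h]
  exact (isClosed_eq (continuous_star.mul continuous_id) continuous_const).inter
    (isClosed_eq (continuous_id.mul continuous_star) continuous_const)

theorem isBounded_unitary : Bornology.IsBounded (unitary A : Set A) := by
  refine (Metric.isBounded_closedBall (x := (0 : A)) (r := 1)).subset fun u hu => ?_
  rw [Metric.mem_closedBall, dist_zero_right]
  have h1 : ‖u‖ * ‖u‖ = ‖star u * u‖ := CStarRing.norm_star_mul_self.symm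
  rw [Unitary.star_mul_self_of_mem hu] at h1
  have h2 : ‖(1 : A)‖ ≤ 1 := by
    have h3 : ‖(1 : A)‖ * ‖(1 : A)‖ = ‖star (1 : A) * 1‖ := CStarRing.norm_star_mul_self.symm
    rw [star_one, mul_one] at h3
    nlinarith [norm_nonneg (1 : A)]
  nlinarith [norm_nonneg u]

theorem decomp {𝔩 : Submodule ℂ A} (h : ∀ ξ ∈ 𝔩, star ξ ∈ 𝔩) {ξ : A} (hξ : ξ ∈ 𝔩) :
    ∃ a ∈ 𝔩, ∃ b ∈ 𝔩, IsSelfAdjoint a ∧ IsSelfAdjoint b ∧ ξ = a + Complex.I • b := by
  refine ⟨(1 / 2 : ℂ) • (ξ + star ξ), 𝔩.smul_mem _ (𝔩.add_mem hξ (h ξ hξ)),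
    (-(Complex.I / 2)) • (ξ - star ξ), 𝔩.smul_mem _ (𝔩.sub_mem hξ (h ξ hξ)), ?_, ?_, ?_⟩
  · rw [IsSelfAdjoint, star_smul, star_add, star_star, add_comm (star ξ)]
    congr 1
    simp
  · rw [IsSelfAdjoint, star_smul, star_sub, star_star, ← neg_sub ξ (star ξ), smul_neg, ← neg_smul]
    congr 1
    simp
    ring
  · rw [smul_smul, smul_add, smul_sub]
    have : Complex.I * (-(Complex.I / 2)) = 1 / 2 := by
      rw [mul_neg, ← mul_div_assoc, Complex.I_mul_I]
      norm_num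
    rw [this]
    have h2 : ((1 / 2 : ℂ) • ξ + (1 / 2 : ℂ) • ξ) = ξ := by
      rw [← add_smul]
      norm_num
    calc ξ = ((1 / 2 : ℂ) • ξ + (1 / 2 : ℂ) • ξ) := h2.symm
      _ = _ := by abel

end CStar

end GrpAux

variable {n : ℕ}

theorem exp_add_smul (s t : ℂ) (ξ : Op n) :
    NormedSpace.exp ((s + t) • ξ) = NormedSpace.exp (s • ξ) * NormedSpace.exp (t • ξ) :=
  GrpAux.exp_add_smul s t ξ

theorem exp_neg_mul_self (ξ : Op n) :
    NormedSpace.exp (-ξ) * NormedSpace.exp ξ = 1 ∧ NormedSpace.exp ξ * NormedSpace.exp (-ξ) = 1 :=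
  GrpAux.exp_neg_mul_self ξ

theorem exp_conj {g h : Op n} (hgh : g * h = 1) (hhg : h * g = 1) (ξ : Op n) :
    NormedSpace.exp (g * ξ * h) = g * NormedSpace.exp ξ * h :=
  GrpAux.exp_conj hgh hhg ξ

theorem star_exp_op (ξ : Op n) : star (NormedSpace.exp ξ) = NormedSpace.exp (star ξ) :=
  NormedSpace.star_exp ξ

theorem exp_isSelfAdjoint {η : Op n} (h : IsSelfAdjoint η) (t : ℝ) :
    IsSelfAdjoint (NormedSpace.exp ((t : ℂ) • η)) :=
  GrpAux.exp_isSelfAdjoint h t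

theorem exp_I_unitary {η : Op n} (h : IsSelfAdjoint η) (s : ℝ) :
    NormedSpace.exp (((s : ℂ) * Complex.I) • η) ∈ unitary (Op n) :=
  GrpAux.exp_I_unitary h s

theorem exp_inj {η η' : Op n} (h : IsSelfAdjoint η) (h' : IsSelfAdjoint η')
    (he : NormedSpace.exp η = NormedSpace.exp η') : η = η' :=
  GrpAux.exp_inj h h' he

theorem polar_unique {k k' η η' : Op n} (hk : k ∈ unitary (Op n)) (hk' : k' ∈ unitary (Op n))
    (h : IsSelfAdjoint η) (h' : IsSelfAdjoint η')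
    (he : k * NormedSpace.exp η = k' * NormedSpace.exp η') : k = k' ∧ η = η' :=
  GrpAux.polar_unique hk hk' h h' he

theorem polar_unique' {k k' η η' : Op n} (hk : k ∈ unitary (Op n)) (hk' : k' ∈ unitary (Op n))
    (h : IsSelfAdjoint η) (h' : IsSelfAdjoint η')
    (he : NormedSpace.exp η * k = NormedSpace.exp η' * k') : k = k' ∧ η = η' :=
  GrpAux.polar_unique' hk hk' h h' he

variable {G : RedGrp n}

theorem RedGrp.isUnit {g : Op n} (hg : g ∈ G.carrier) : IsUnit g := by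
  obtain ⟨h, _, h1, h2⟩ := G.inv_mem g hg
  exact ⟨⟨g, h, h1, h2⟩, rfl⟩

theorem RedGrp.inv_mem' {g h : Op n} (hg : g ∈ G.carrier) (hgh : g * h = 1) :
    h ∈ G.carrier ∧ h * g = 1 := by
  obtain ⟨h', hm, h1, h2⟩ := G.inv_mem g hg
  have h3 : h = h' := by
    calc h = (h' * g) * h := by rw [h2, one_mul]
      _ = h' := by rw [mul_assoc, hgh, mul_one]
  rw [h3]
  exact ⟨hm, h2⟩

theorem RedGrp.exp_mem {ξ : Op n} (hξ : ξ ∈ G.lie) : NormedSpace.exp ξ ∈ G.carrier := by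
  have h := (G.lie_iff ξ).1 hξ 1
  rwa [Complex.ofReal_one, one_smul] at h

theorem RedGrp.exp_smul_mem {ξ : Op n} (hξ : ξ ∈ G.lie) (z : ℂ) :
    NormedSpace.exp (z • ξ) ∈ G.carrier :=
  RedGrp.exp_mem (G.lie.smul_mem z hξ)

theorem RedGrp.star_mem {g : Op n} (hg : g ∈ G.carrier) : star g ∈ G.carrier := by
  obtain ⟨k, hk, η, hη, hu, hs, rfl⟩ := G.polar g hg
  rw [star_mul, star_exp_op, hs.star_eq]
  exact G.mul_mem _ (RedGrp.exp_mem hη) _
    (RedGrp.inv_mem' hk (Unitary.mul_star_self_of_mem hu)).1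

theorem RedGrp.star_lie {ξ : Op n} (hξ : ξ ∈ G.lie) : star ξ ∈ G.lie := by
  rw [G.lie_iff]
  intro t
  have h1 : ((t : ℂ) • star ξ : Op n) = star ((t : ℂ) • ξ) := by
    rw [star_smul]
    congr 1
    exact (Complex.conj_ofReal t).symm
  rw [h1, ← star_exp_op]
  exact RedGrp.star_mem ((G.lie_iff ξ).1 hξ t)

theorem RedGrp.one_K : (1 : Op n) ∈ G.K := ⟨G.one_mem, Submonoid.one_mem _⟩

theorem RedGrp.mul_K {k k' : Op n} (hk : k ∈ G.K) (hk' : k' ∈ G.K) : k * k' ∈ G.K :=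
  ⟨G.mul_mem k hk.1 k' hk'.1, Submonoid.mul_mem _ hk.2 hk'.2⟩

theorem RedGrp.star_K {k : Op n} (hk : k ∈ G.K) :
    star k ∈ G.K ∧ k * star k = 1 ∧ star k * k = 1 :=
  ⟨⟨RedGrp.star_mem hk.1, Unitary.star_mem hk.2⟩, Unitary.mul_star_self_of_mem hk.2,
    Unitary.star_mul_self_of_mem hk.2⟩

theorem RedGrp.exp_I_K {η : Op n} (hη : η ∈ G.lie) (h : IsSelfAdjoint η) (s : ℝ) :
    NormedSpace.exp (((s : ℂ) * Complex.I) • η) ∈ G.K :=
  ⟨RedGrp.exp_smul_mem hη _, exp_I_unitary h s⟩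

theorem RedGrp.K_compact (G : RedGrp n) : IsCompact G.K := by
  have : ProperSpace (Op n) := FiniteDimensional.proper ℂ (Op n)
  refine Metric.isCompact_of_isClosed_isBounded ?_
    ((GrpAux.isBounded_unitary (A := Op n)).subset fun k hk => hk.2)
  rw [← closure_subset_iff_isClosed]
  intro k hk
  have hu : k ∈ unitary (Op n) :=
    closure_minimal (fun k hk => hk.2) (GrpAux.isClosed_unitary (A := Op n)) hk
  refine ⟨G.closed k ?_ (closure_mono (fun k hk => hk.1) hk), hu⟩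
  exact ⟨⟨k, star k, Unitary.mul_star_self_of_mem hu, Unitary.star_mul_self_of_mem hu⟩, rfl⟩

theorem RedGrp.Ad_mem {g h ξ : Op n} (hg : g ∈ G.carrier) (hgh : g * h = 1) (hξ : ξ ∈ G.lie) :
    g * ξ * h ∈ G.lie := by
  obtain ⟨hm, hhg⟩ := RedGrp.inv_mem' hg hgh
  rw [G.lie_iff]
  intro t
  have h1 : ((t : ℂ) • (g * ξ * h) : Op n) = g * ((t : ℂ) • ξ) * h := by
    rw [mul_smul_comm, smul_mul_assoc]
  rw [h1, exp_conj hgh hhg]
  exact G.mul_mem _ (G.mul_mem _ hg _ ((G.lie_iff ξ).1 hξ t)) _ hm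

theorem RedGrp.bracket_mem {ξ ζ : Op n} (hξ : ξ ∈ G.lie) (hζ : ζ ∈ G.lie) :
    ξ * ζ - ζ * ξ ∈ G.lie := by
  have hd := GrpAux.hasDerivAt_conj ξ ζ
  have hc : ∀ z : ℂ, NormedSpace.exp (z • ξ) * ζ * NormedSpace.exp (z • (-ξ)) ∈ G.lie := by
    intro z
    refine RedGrp.Ad_mem (RedGrp.exp_smul_mem hξ z) ?_ hζ
    rw [smul_neg]
    exact (exp_neg_mul_self (z • ξ)).2
  have hcl : IsClosed (G.lie : Set (Op n)) := Submodule.closed_of_finiteDimensional G.lie
  rw [hasDerivAt_iff_tendsto_slope] at hd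
  refine hcl.mem_of_tendsto hd (Filter.Eventually.of_forall fun z => ?_)
  rw [slope_def_module]
  exact G.lie.smul_mem _ (G.lie.sub_mem (hc z) (hc 0))

theorem RedGrp.polar_left {g : Op n} (hg : g ∈ G.carrier) :
    ∃ k ∈ G.K, ∃ η ∈ G.lie, IsSelfAdjoint η ∧ g = k * NormedSpace.exp η := by
  obtain ⟨k, hk, η, hη, hu, hs, he⟩ := G.polar g hg
  exact ⟨k, ⟨hk, hu⟩, η, hη, hs, he⟩

theorem RedGrp.polar_right {g : Op n} (hg : g ∈ G.carrier) :
    ∃ η ∈ G.lie, ∃ k ∈ G.K, IsSelfAdjoint η ∧ g = NormedSpace.exp η * k := by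
  obtain ⟨k, hk, η, hη, hs, rfl⟩ := RedGrp.polar_left hg
  obtain ⟨_, h1, h2⟩ := RedGrp.star_K hk
  refine ⟨k * η * star k, RedGrp.Ad_mem hk.1 h1 hη, k, hk, ?_, ?_⟩
  · rw [IsSelfAdjoint, star_mul, star_mul, star_star, hs.star_eq, mul_assoc]
  · rw [exp_conj h1 h2, mul_assoc (k * NormedSpace.exp η), h2, mul_one]

/-- The same decomposition for any subspace closed under adjoints. -/
theorem decomp_starCl {𝔩 : Submodule ℂ (Op n)} (h : StarCl 𝔩) {ξ : Op n} (hξ : ξ ∈ 𝔩) :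
    ∃ a ∈ 𝔩, ∃ b ∈ 𝔩, IsSelfAdjoint a ∧ IsSelfAdjoint b ∧ ξ = a + Complex.I • b :=
  GrpAux.decomp h hξ

theorem RedGrp.decomp {ξ : Op n} (hξ : ξ ∈ G.lie) :
    ∃ a ∈ G.lie, ∃ b ∈ G.lie, IsSelfAdjoint a ∧ IsSelfAdjoint b ∧ ξ = a + Complex.I • b :=
  GrpAux.decomp (fun _ hζ => RedGrp.star_lie hζ) hξ

theorem RedGrp.lie_le {G N : RedGrp n} (h : N.carrier ⊆ G.carrier) : N.lie ≤ G.lie := by
  intro ξ hξ
  rw [G.lie_iff]
  exact fun t => h ((N.lie_iff ξ).1 hξ t)

theorem RedGrp.K_le {G N : RedGrp n} (h : N.carrier ⊆ G.carrier) : N.K ⊆ G.K :=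
  fun _ hk => ⟨h hk.1, hk.2⟩

end EqOka
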