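import Pool.Agent.Lib.MP_fe51c6_an_EO.Core

/-! Haar measure on a compact group of matrices. -/

open scoped Topology
open Set

noncomputable section

namespace EqOka

variable {n : ℕ}

theorem exists_haar (K : Set (Op n)) (hK : IsCompact K) (h1 : (1 : Op n) ∈ K)
    (hmul : ∀ a ∈ K, ∀ b ∈ K, a * b ∈ K) (hinv : ∀ a ∈ K, ∃ b ∈ K, a * b = 1 ∧ b * a = 1) :
    ∃ μ : MeasureTheory.Measure (Op n), MeasureTheory.IsProbabilityMeasure μ ∧ μ Kᶜ = 0 ∧
      ∀ a ∈ K, MeasureTheory.Measure.map (fun x => a * x) μ = μ := by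
  let H : Subgroup (Op n)ˣ :=
    { carrier := {u | (u : Op n) ∈ K}
      one_mem' := h1
      mul_mem' := fun {a b} ha hb => hmul _ ha _ hb
      inv_mem' := by
        intro a ha
        obtain ⟨b, hb, hab, hba⟩ := hinv _ ha
        have h2 : ((a⁻¹ : (Op n)ˣ) : Op n) = b := by
          rw [Units.inv_eq_of_mul_eq_one_right hab]
        change ((a⁻¹ : (Op n)ˣ) : Op n) ∈ K
        rw [h2]
        exact hb }
  have hcomp : CompactSpace H := by
    have h3 : IsCompact ((fun u : (Op n)ˣ => (u : Op n)) ⁻¹' K) := by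
      refine Units.isOpenEmbedding_val.isEmbedding.isInducing.isCompact_preimage_iff ?_ |>.2 hK
      intro a ha
      obtain ⟨b, hb, hab, hba⟩ := hinv _ ha
      exact ⟨⟨a, b, hab, hba⟩, rfl⟩
    exact isCompact_iff_compactSpace.1 h3
  let _ : MeasurableSpace H := borel H
  have _ : BorelSpace H := ⟨rfl⟩
  let ν : MeasureTheory.Measure H := MeasureTheory.Measure.haarMeasure ⊤
  have hν : MeasureTheory.IsProbabilityMeasure ν :=
    ⟨MeasureTheory.Measure.haarMeasure_self (K₀ := (⊤ : TopologicalSpace.PositiveCompacts H))⟩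
  let v : H → Op n := fun u => ((u : (Op n)ˣ) : Op n)
  have hv : Continuous v := Units.continuous_val.comp continuous_subtype_val
  have hvm : Measurable v := hv.measurable
  refine ⟨ν.map v, MeasureTheory.Measure.isProbabilityMeasure_map hvm.aemeasurable, ?_, ?_⟩
  · rw [MeasureTheory.Measure.map_apply hvm hK.isClosed.measurableSet.compl]
    have h4 : v ⁻¹' Kᶜ = ∅ := by
      ext u
      simp only [mem_preimage, mem_compl_iff, mem_empty_iff_false, iff_false, not_not]
      exact u.2
    rw [h4, MeasureTheory.measure_empty]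
  · intro a ha
    obtain ⟨b, hb, hab, hba⟩ := hinv _ ha
    let a' : H := ⟨⟨a, b, hab, hba⟩, ha⟩
    have h5 : Measurable (fun x : Op n => a * x) := (continuous_const_mul a).measurable
    have h6 : Measurable (fun x : H => a' * x) := (continuous_const_mul a').measurable
    rw [MeasureTheory.Measure.map_map h5 hvm]
    have h7 : (fun x : Op n => a * x) ∘ v = v ∘ (fun x : H => a' * x) := by
      funext x
      rfl
    rw [h7, ← MeasureTheory.Measure.map_map hvm h6, MeasureTheory.map_mul_left_eq_self]

end EqOka
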