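import Pool.Agent.Lib.MP_fe51c6_an_EO.SW
import Pool.Agent.Lib.MP_fe51c6_an_EO.Haar
import Pool.Agent.Lib.MP_fe51c6_an_EO.ClosedSub

/-! A single tensor power detects the subgroup. -/

open scoped Topology
open Set

noncomputable section

namespace EqOka

variable {n : ℕ} {N L : RedGrp n}

private theorem kerone_apply (k : ℕ) (g : Op n) (v : Tk n k) (i : Fin k → Ix n) :
    (ptO k g v) i = ∑ m, pt k g i m * v m := rfl

private theorem kerone_pt_mul (k : ℕ) {g h : Op n} (hg : IsUnit g) (hh : IsUnit h)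
    (i j : Fin k → Ix n) : pt k (g * h) i j = ∑ m, pt k g i m * pt k h m j := by
  have h1 := ptO_mul k hg hh
  rw [ptO, ptO, ptO, ← map_mul] at h1
  have h2 := (Matrix.toEuclideanCLM (n := Fin k → Ix n) (𝕜 := ℂ)).injective h1
  rw [h2, Matrix.mul_apply]

private theorem kerone_pt_cont (k : ℕ) (i j : Fin k → Ix n) :
    ContinuousOn (fun g : Op n => pt k g i j) {g | IsUnit g} := by
  classical
  have h1 : ∀ g : Op n, pt k g i j = (ptO k g (EuclideanSpace.single j 1)) i := by
    intro g
    rw [kerone_apply, Finset.sum_eq_single j]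
    · rw [PiLp.single_apply, if_pos rfl, mul_one]
    · intro m _ hm
      rw [PiLp.single_apply, if_neg hm, mul_zero]
    · intro h
      exact absurd (Finset.mem_univ _) h
  have h2 : ContinuousOn (fun g : Op n => (ptO k g (EuclideanSpace.single j 1)) i)
      {g | IsUnit g} := by
    have h3 : Continuous fun A : Tk n k →L[ℂ] Tk n k => (A (EuclideanSpace.single j 1)) i := by
      fun_prop
    exact h3.comp_continuousOn (ptO_continuousOn k)
  exact h2.congr fun g _ => h1 g

private theorem kerone_integrable {C : Set (Op n)} (hC : IsCompact C)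
    (μ : MeasureTheory.Measure (Op n)) [MeasureTheory.IsFiniteMeasure μ] (hμ : μ Cᶜ = 0)
    {E : Type} [NormedAddCommGroup E] {f : Op n → E} (hf : ContinuousOn f C) :
    MeasureTheory.Integrable f μ := by
  have h1 : MeasureTheory.IntegrableOn f C μ := hf.integrableOn_compact hC
  have h2 : μ.restrict C = μ := by
    refine MeasureTheory.Measure.restrict_eq_self_of_ae_mem ?_
    exact MeasureTheory.mem_ae_iff.2 hμ
  rw [MeasureTheory.IntegrableOn, h2] at h1
  exact h1

/-- An element of `K_N` which fixes all `L_K`-invariant vectors in all tensor powers is in `L`. -/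
theorem mem_of_fix_all (hL : L.carrier ⊆ N.carrier) (g : Op n) (hg : g ∈ N.K)
    (h : ∀ k, ∀ v ∈ fixV k L.K, ptO k g v = v) : g ∈ L.K := by
  classical
  have _ := hL
  obtain ⟨lam, hprob, hlam, hinv⟩ := exists_haar L.K L.K_compact RedGrp.one_K
    (fun a ha b hb => RedGrp.mul_K ha hb) (fun a ha => ⟨star a, RedGrp.star_K ha⟩)
  have hgc : Continuous fun x : Op n => g * x := continuous_const_mul g
  have hcpt : IsCompact ((fun x : Op n => g * x) '' L.K) := L.K_compact.image hgc
  have hmapc : (lam.map fun x => g * x) ((fun x : Op n => g * x) '' L.K)ᶜ = 0 := by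
    rw [MeasureTheory.Measure.map_apply hgc.measurable hcpt.isClosed.measurableSet.compl]
    refine MeasureTheory.measure_mono_null ?_ hlam
    intro x hx hxL
    exact hx ⟨x, hxL, rfl⟩
  have hprob' : MeasureTheory.IsProbabilityMeasure (lam.map fun x => g * x) :=
    MeasureTheory.Measure.isProbabilityMeasure_map hgc.measurable.aemeasurable
  have hunitL : ∀ l ∈ L.K, IsUnit l := fun l hl => RedGrp.isUnit hl.1
  have hug : IsUnit g := RedGrp.isUnit hg.1
  -- the average of the tensor powers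
  have hpair : ∀ (a : Op n) (k : ℕ) (i j : Fin k → Ix n), IsUnit a →
      ∫ x, pt k x i j ∂(lam.map fun x => a * x) =
        ∑ m, pt k a i m * ∫ l, pt k l m j ∂lam := by
    intro a k i j ha
    have hac : Continuous fun x : Op n => a * x := continuous_const_mul a
    have hcpt' : IsCompact ((fun x : Op n => a * x) '' L.K) := L.K_compact.image hac
    have hmapc' : (lam.map fun x => a * x) ((fun x : Op n => a * x) '' L.K)ᶜ = 0 := by
      rw [MeasureTheory.Measure.map_apply hac.measurable hcpt'.isClosed.measurableSet.compl]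
      refine MeasureTheory.measure_mono_null ?_ hlam
      intro x hx hxL
      exact hx ⟨x, hxL, rfl⟩
    have hprob'' : MeasureTheory.IsProbabilityMeasure (lam.map fun x => a * x) :=
      MeasureTheory.Measure.isProbabilityMeasure_map hac.measurable.aemeasurable
    have h1 : MeasureTheory.Integrable (fun x : Op n => pt k x i j) (lam.map fun x => a * x) := by
      refine kerone_integrable hcpt' _ hmapc' ((kerone_pt_cont k i j).mono ?_)
      rintro _ ⟨l, hl, rfl⟩
      exact ha.mul (hunitL l hl)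
    rw [MeasureTheory.integral_map hac.measurable.aemeasurable h1.aestronglyMeasurable]
    have h2 : ∫ l, pt k (a * l) i j ∂lam = ∫ l, ∑ m, pt k a i m * pt k l m j ∂lam := by
      refine MeasureTheory.integral_congr_ae ?_
      have h3 : ∀ᵐ l ∂lam, l ∈ L.K := MeasureTheory.mem_ae_iff.2 hlam
      filter_upwards [h3] with l hl
      exact kerone_pt_mul k ha (hunitL l hl) i j
    rw [h2, MeasureTheory.integral_finsetSum]
    · exact Finset.sum_congr rfl fun m _ => MeasureTheory.integral_const_mul _ _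
    · intro m _
      exact (kerone_integrable L.K_compact lam hlam
        ((kerone_pt_cont k m j).mono fun l hl => hunitL l hl)).const_mul _
  have hfix : ∀ (k : ℕ) (j : Fin k → Ix n),
      (WithLp.toLp 2 fun m => ∫ l, pt k l m j ∂lam : Tk n k) ∈ fixV k L.K := by
    intro k j a ha
    ext i
    rw [kerone_apply]
    have h1 := hpair a k i j (hunitL a ha)
    rw [hinv a ha] at h1
    exact h1.symm
  have hcoeff : ∀ (k : ℕ) (i j : Fin k → Ix n),
      ∫ x, pt k x i j ∂(lam.map fun x => g * x) = ∫ x, pt k x i j ∂lam := by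
    intro k i j
    rw [hpair g k i j hug]
    have h1 := h k _ (hfix k j)
    have h2 := congrArg (fun v : Tk n k => v i) h1
    exact h2
  -- the distance from `L_K`
  have hC : IsCompact (L.K ∪ (fun x : Op n => g * x) '' L.K) := L.K_compact.union hcpt
  have hCU : L.K ∪ (fun x : Op n => g * x) '' L.K ⊆ unitary (Op n) := by
    rintro x (hx | ⟨l, hl, rfl⟩)
    · exact hx.2
    · exact Submonoid.mul_mem _ hg.2 hl.2
  have hcont : Continuous fun x : Op n => Metric.infDist x L.K := Metric.continuous_infDist_pt _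
  have hkey := integral_eq_of_coeff (L.K ∪ (fun x : Op n => g * x) '' L.K) hC hCU
    (lam.map fun x => g * x) lam
    (MeasureTheory.measure_mono_null (compl_subset_compl.2 subset_union_right) hmapc)
    (MeasureTheory.measure_mono_null (compl_subset_compl.2 subset_union_left) hlam)
    hcoeff (fun x => Metric.infDist x L.K) hcont
  have haeL : ∀ᵐ l ∂lam, l ∈ L.K := MeasureTheory.mem_ae_iff.2 hlam
  have hzero : ∫ x, Metric.infDist x L.K ∂lam = 0 := by
    rw [MeasureTheory.integral_congr_ae (g := fun _ => (0 : ℝ)) ?_]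
    · simp
    · filter_upwards [haeL] with l hl
      exact Metric.infDist_zero_of_mem hl
  rw [hzero, MeasureTheory.integral_map hgc.measurable.aemeasurable
    hcont.measurable.aestronglyMeasurable] at hkey
  have hint : MeasureTheory.Integrable (fun l : Op n => Metric.infDist (g * l) L.K) lam :=
    kerone_integrable L.K_compact lam hlam (hcont.comp hgc).continuousOn
  have hae := (MeasureTheory.integral_eq_zero_iff_of_nonneg
    (fun l => Metric.infDist_nonneg) hint).1 hkey
  obtain ⟨l, hl1, hl2⟩ := (hae.and haeL).exists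
  have hgl : g * l ∈ L.K := by
    rw [L.K_compact.isClosed.mem_iff_infDist_zero ⟨1, RedGrp.one_K⟩]
    exact hl1
  have hfin : g = g * l * star l := by
    rw [mul_assoc, (RedGrp.star_K hl2).2.1, mul_one]
  rw [hfin]
  exact RedGrp.mul_K hgl (RedGrp.star_K hl2).1

/-- The elements of `K_N` which fix the `L_K`-invariant vectors of the `k`-th tensor power. -/
private def keroneH (N L : RedGrp n) (k : ℕ) : Set (Op n) :=
  {g | g ∈ N.K ∧ ∀ v ∈ fixV k L.K, ptO k g v = v}

private theorem kerone_compact (k : ℕ) : IsCompact (keroneH N L k) := by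
  have h1 : keroneH N L k = N.K ∩ ptO k ⁻¹' {A | ∀ v ∈ fixV k L.K, A v = v} := by
    ext g
    rfl
  rw [h1]
  refine N.K_compact.of_isClosed_subset ?_ inter_subset_left
  refine ContinuousOn.preimage_isClosed_of_isClosed
    ((ptO_continuousOn k).mono fun g hg => RedGrp.isUnit hg.1) N.K_compact.isClosed ?_
  have h2 : {A : Tk n k →L[ℂ] Tk n k | ∀ v ∈ fixV k L.K, A v = v} =
      ⋂ v ∈ fixV k L.K, {A | A v = v} := by
    ext A
    simp
  rw [h2]
  refine isClosed_biInter fun v _ => ?_
  have h3 : Continuous fun A : Tk n k →L[ℂ] Tk n k => A v := by fun_prop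
  exact isClosed_eq h3 continuous_const

private theorem kerone_mul {k : ℕ} {a b : Op n} (ha : a ∈ keroneH N L k) (hb : b ∈ keroneH N L k) :
    a * b ∈ keroneH N L k := by
  refine ⟨RedGrp.mul_K ha.1 hb.1, fun v hv => ?_⟩
  rw [ptO_mul k (RedGrp.isUnit ha.1.1) (RedGrp.isUnit hb.1.1)]
  change ptO k a (ptO k b v) = v
  rw [hb.2 v hv, ha.2 v hv]

private theorem kerone_star {k : ℕ} {a : Op n} (ha : a ∈ keroneH N L k) :
    star a ∈ keroneH N L k := by
  refine ⟨(RedGrp.star_K ha.1).1, fun v hv => ?_⟩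
  have h1 : ptO k (star a) (ptO k a v) = v := by
    have h2 := ptO_mul k (RedGrp.isUnit (RedGrp.star_K ha.1).1.1) (RedGrp.isUnit ha.1.1)
    rw [(RedGrp.star_K ha.1).2.2, ptO_one] at h2
    exact (congrArg (fun A : Tk n k →L[ℂ] Tk n k => A v) h2).symm
  rwa [ha.2 v hv] at h1

private theorem kerone_one {k : ℕ} : (1 : Op n) ∈ keroneH N L k := by
  refine ⟨RedGrp.one_K, fun v _ => ?_⟩
  rw [ptO_one]
  rfl

private theorem kerone_succ (k : ℕ) : keroneH N L (k + 1) ⊆ keroneH N L k :=
  fun g hg => ⟨hg.1, fixV_succ k L.K g hg.2⟩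

private theorem kerone_anti : Antitone (keroneH N L) := antitone_nat_of_succ_le kerone_succ

private theorem kerone_ofReal (t : ℝ) (ξ : Op n) : ((t : ℂ) • ξ : Op n) = t • ξ :=
  Complex.coe_smul t ξ

private theorem kerone_fix {E : Type} [NormedAddCommGroup E] [NormedSpace ℂ E] [CompleteSpace E]
    {A : E →L[ℂ] E} {v : E} (h5 : A v = 0) : NormedSpace.exp A v = v := by
  have h6 : ∀ z : ℂ, HasDerivAt (fun z : ℂ => NormedSpace.exp (z • A) v) 0 z := by
    intro z
    have h7 := (hasDerivAt_exp_smul_const (𝕂 := ℂ) A z).clm_apply (hasDerivAt_const z v)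
    refine h7.congr_deriv ?_
    rw [map_zero, add_zero]
    change NormedSpace.exp (z • A) (A v) = 0
    rw [h5, map_zero]
  have h8 := is_const_of_deriv_eq_zero (fun z => (h6 z).differentiableAt)
    (fun z => (h6 z).deriv) 1 0
  have h9 : NormedSpace.exp ((0 : ℂ) • A) = 1 := by
    have h10 : (0 : ℂ) • A = 0 := zero_smul ℂ A
    rw [h10, NormedSpace.exp_zero]
  have h11 : NormedSpace.exp ((1 : ℂ) • A) = NormedSpace.exp A := by
    rw [one_smul]
  calc NormedSpace.exp A v = NormedSpace.exp ((1 : ℂ) • A) v := by rw [h11]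
    _ = NormedSpace.exp ((0 : ℂ) • A) v := h8
    _ = v := by rw [h9]; rfl

private theorem kerone_zero {E : Type} [NormedAddCommGroup E] [NormedSpace ℂ E] {f : ℂ → E} {f' c : E}
    (h : HasDerivAt f f' 0) (hc : ∀ t : ℝ, f t = c) : f' = 0 := by
  have h1 : Filter.Tendsto (fun t : ℝ => ((t : ℂ))) (𝓝[≠] 0) (𝓝[≠] 0) := by
    refine tendsto_nhdsWithin_iff.2 ⟨?_, ?_⟩
    · have h2 : Filter.Tendsto (fun t : ℝ => ((t : ℂ))) (𝓝 0) (𝓝 ((0 : ℝ) : ℂ)) :=
        Complex.continuous_ofReal.tendsto 0
      rw [Complex.ofReal_zero] at h2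
      exact h2.mono_left nhdsWithin_le_nhds
    · filter_upwards [self_mem_nhdsWithin] with t ht
      exact Complex.ofReal_ne_zero.2 ht
  have h3 := (hasDerivAt_iff_tendsto_slope.1 h).comp h1
  refine tendsto_nhds_unique h3 ?_
  refine tendsto_const_nhds.congr fun t => ?_
  have h4 : f 0 = c := by
    have := hc 0
    rwa [Complex.ofReal_zero] at this
  rw [Function.comp_apply, slope_def_module, hc, h4, sub_self, smul_zero]

private theorem kerone_skew {ξ : Op n}
    (h : ∀ t : ℝ, NormedSpace.exp ((t : ℂ) • ξ) ∈ unitary (Op n)) : star ξ = -ξ := by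
  have h1 : ∀ t : ℝ, NormedSpace.exp ((t : ℂ) • star ξ) = NormedSpace.exp ((t : ℂ) • (-ξ)) := by
    intro t
    have h2 : ((t : ℂ) • star ξ : Op n) = star ((t : ℂ) • ξ) := by
      rw [star_smul]
      congr 1
      exact (Complex.conj_ofReal t).symm
    rw [h2, ← star_exp_op, smul_neg]
    have h3 := Unitary.star_mul_self_of_mem (h t)
    have h4 := (exp_neg_mul_self ((t : ℂ) • ξ)).2
    calc star (NormedSpace.exp ((t : ℂ) • ξ))
        = star (NormedSpace.exp ((t : ℂ) • ξ)) * (NormedSpace.exp ((t : ℂ) • ξ) *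
          NormedSpace.exp (-((t : ℂ) • ξ))) := by rw [h4, mul_one]
      _ = _ := by rw [← mul_assoc, h3, one_mul]
  have h5 : HasDerivAt (fun z : ℂ => NormedSpace.exp (z • star ξ) - NormedSpace.exp (z • (-ξ)))
      (star ξ - (-ξ)) 0 := by
    have h6 := hasDerivAt_exp_smul_const (𝕂 := ℂ) (star ξ) (0 : ℂ)
    have h7 := hasDerivAt_exp_smul_const (𝕂 := ℂ) (-ξ) (0 : ℂ)
    refine (h6.sub h7).congr_deriv ?_
    have h9 : (0 : ℂ) • star ξ = 0 := zero_smul ℂ (star ξ)
    have h10 : (0 : ℂ) • (-ξ) = 0 := zero_smul ℂ (-ξ)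
    rw [h9, h10, NormedSpace.exp_zero, one_mul, one_mul]
  have h8 := kerone_zero (c := 0) h5 fun t => by rw [h1 t, sub_self]
  exact sub_eq_zero.1 h8

/-- The real Lie algebra of the group `keroneH`. -/
private theorem kerone_lie (k : ℕ) : ∃ 𝔥 : Submodule ℝ (Op n), ∀ ξ,
    ξ ∈ 𝔥 ↔ ∀ t : ℝ, NormedSpace.exp (t • ξ) ∈ keroneH N L k := by
  obtain ⟨D, hD⟩ := exists_dpt (n := n) k
  let 𝔥 : Submodule ℝ (Op n) :=
    { carrier := {ξ | ξ ∈ N.lie ∧ star ξ = -ξ ∧ ∀ v ∈ fixV k L.K, D ξ v = 0}
      add_mem' := by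
        rintro a b ⟨ha1, ha2, ha3⟩ ⟨hb1, hb2, hb3⟩
        refine ⟨N.lie.add_mem ha1 hb1, ?_, fun v hv => ?_⟩
        · exact (star_add a b).trans (by rw [ha2, hb2, neg_add])
        · rw [map_add]
          change D a v + D b v = 0
          rw [ha3 v hv, hb3 v hv, add_zero]
      zero_mem' := by
        refine ⟨N.lie.zero_mem, ?_, fun v _ => ?_⟩
        · have h1 : star (0 : Op n) = 0 := star_zero (Op n)
          have h2 : -(0 : Op n) = 0 := neg_zero
          exact h1.trans h2.symm
        · rw [map_zero]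
          rfl
      smul_mem' := by
        rintro t a ⟨ha1, ha2, ha3⟩
        refine ⟨?_, ?_, fun v hv => ?_⟩
        · rw [← kerone_ofReal]
          exact N.lie.smul_mem _ ha1
        · rw [← kerone_ofReal, star_smul, ha2, smul_neg]
          congr 2
          exact Complex.conj_ofReal t
        · rw [← kerone_ofReal, map_smul]
          change (t : ℂ) • D a v = 0
          rw [ha3 v hv, smul_zero] }
  refine ⟨𝔥, fun ξ => ⟨?_, fun h => ⟨?_, ?_, ?_⟩⟩⟩
  · rintro ⟨h1, h2, h3⟩ t
    rw [← kerone_ofReal]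
    refine ⟨⟨RedGrp.exp_smul_mem h1 _, ?_⟩, fun v hv => ?_⟩
    · have h4 : ((t : ℂ) • ξ : Op n) ∈ skewAdjoint (Op n) := by
        rw [skewAdjoint.mem_iff, star_smul, h2, smul_neg]
        congr 2
        exact Complex.conj_ofReal t
      let _ : NormedAlgebra ℚ (Op n) := NormedAlgebra.restrictScalars ℚ ℂ (Op n)
      exact NormedSpace.exp_mem_unitary_of_mem_skewAdjoint h4
    · rw [hD]
      -- the exponential of an operator which kills `v` fixes `v`
      have h5 : ((t : ℂ) • D ξ) v = 0 := by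
        change (t : ℂ) • D ξ v = 0
        rw [h3 v hv, smul_zero]
      exact kerone_fix h5
  · rw [N.lie_iff]
    intro t
    rw [kerone_ofReal]
    exact (h t).1.1
  · refine kerone_skew fun t => ?_
    rw [kerone_ofReal]
    exact (h t).1.2
  · intro v hv
    have h1 : ∀ t : ℝ, NormedSpace.exp ((t : ℂ) • D ξ) v = v := by
      intro t
      rw [← hD, kerone_ofReal]
      exact (h t).2 v hv
    have h2 : HasDerivAt (fun z : ℂ => NormedSpace.exp (z • D ξ) v) (D ξ v) 0 := by
      have h3 := (hasDerivAt_exp_smul_const (𝕂 := ℂ) (D ξ) (0 : ℂ)).clm_apply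
        (hasDerivAt_const (0 : ℂ) v)
      refine h3.congr_deriv ?_
      have h4 : (0 : ℂ) • D ξ = 0 := zero_smul ℂ (D ξ)
      rw [map_zero, add_zero, h4, NormedSpace.exp_zero, one_mul]
    exact kerone_zero h2 h1

theorem exists_single (hL : L.carrier ⊆ N.carrier) :
    ∃ k, ∀ g ∈ N.K, (∀ v ∈ fixV k L.K, ptO k g v = v) → g ∈ L.K := by
  choose 𝔥 h𝔥 using fun k => kerone_lie (N := N) (L := L) k
  have hfd : FiniteDimensional ℝ (Op n) := FiniteDimensional.trans ℝ ℂ (Op n)
  have hanti : Antitone 𝔥 := by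
    intro a b hab ξ hξ
    rw [h𝔥] at hξ ⊢
    exact fun t => kerone_anti hab (hξ t)
  have hart : IsArtinian ℝ (Op n) := inferInstance
  obtain ⟨k₀, hk₀⟩ := IsArtinian.monotone_stabilizes
    (⟨fun k => OrderDual.toDual (𝔥 k), fun a b hab => hanti hab⟩ : ℕ →o (Submodule ℝ (Op n))ᵒᵈ)
  have hst : ∀ m, k₀ ≤ m → 𝔥 k₀ = 𝔥 m := fun m hm => hk₀ m hm
  have hall : ∀ g : Op n, (∀ k, g ∈ keroneH N L k) → g ∈ L.K := fun g hg =>
    mem_of_fix_all hL g (hg 0).1 fun k => (hg k).2
  have hlie : ∀ ξ ∈ 𝔥 k₀, NormedSpace.exp ξ ∈ L.K := by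
    intro ξ hξ
    refine hall _ fun k => ?_
    have h1 : ξ ∈ 𝔥 (max k₀ k) := by
      rw [← hst _ (le_max_left _ _)]
      exact hξ
    have h2 := (h𝔥 k ξ).1 (hanti (le_max_right k₀ k) h1) 1
    rwa [one_smul] at h2
  obtain ⟨ε, hε, hlog⟩ := exists_log_near (keroneH N L k₀) (kerone_compact k₀) kerone_one
    (fun a ha b hb => kerone_mul ha hb)
    (fun a ha => ⟨star a, kerone_star ha, (RedGrp.star_K ha.1).2⟩) (𝔥 k₀) (h𝔥 k₀)
  have hLH : ∀ l ∈ L.K, ∀ k, l ∈ keroneH N L k := fun l hl k =>
    ⟨⟨hL hl.1, hl.2⟩, fun v hv => hv l hl⟩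
  -- elements near `L_K` are in `L_K`
  have hnear : ∀ h ∈ keroneH N L k₀, Metric.infDist h L.K < ε → h ∈ L.K := by
    intro h hh hd
    obtain ⟨l, hl, hdl⟩ := (Metric.infDist_lt_iff ⟨1, RedGrp.one_K⟩).1 hd
    have h1 : h * star l ∈ keroneH N L k₀ := kerone_mul hh (kerone_star (hLH l hl k₀))
    have h2 : ‖h * star l - 1‖ < ε := by
      have h3 : h * star l - 1 = (h - l) * star l := by
        rw [sub_mul, (RedGrp.star_K hl).2.1]
      rw [h3, CStarRing.norm_mul_mem_unitary _ (RedGrp.star_K hl).1.2, ← dist_eq_norm]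
      exact hdl
    obtain ⟨ξ, hξ, he⟩ := hlog _ h1 h2
    have h4 : h * star l ∈ L.K := by
      rw [he]
      exact hlie ξ hξ
    have h5 : h = h * star l * l := by
      rw [mul_assoc, (RedGrp.star_K hl).2.2, mul_one]
    rw [h5]
    exact RedGrp.mul_K h4 hl
  -- compactness
  have hex : ∃ k, ¬ (keroneH N L (k₀ + k) ∩ {h | ε ≤ Metric.infDist h L.K}).Nonempty := by
    by_contra hcon
    push Not at hcon
    have hcl : IsClosed {h : Op n | ε ≤ Metric.infDist h L.K} :=
      isClosed_le continuous_const (Metric.continuous_infDist_pt _)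
    obtain ⟨g, hg⟩ := IsCompact.nonempty_iInter_of_sequence_nonempty_isCompact_isClosed
      (fun k => keroneH N L (k₀ + k) ∩ {h | ε ≤ Metric.infDist h L.K})
      (fun k => inter_subset_inter_left _ (kerone_anti (by omega))) hcon
      ((kerone_compact _).inter_right hcl) (fun k => (kerone_compact _).isClosed.inter hcl)
    rw [mem_iInter] at hg
    have h1 : g ∈ L.K := by
      refine hall g fun k => ?_
      exact kerone_anti (Nat.le_add_left k k₀) (hg k).1
    have h2 : ε ≤ Metric.infDist g L.K := (hg 0).2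
    rw [Metric.infDist_zero_of_mem h1] at h2
    exact absurd hε (not_lt.2 h2)
  obtain ⟨k, hk⟩ := hex
  refine ⟨k₀ + k, fun g hg hfix => ?_⟩
  have hgk : g ∈ keroneH N L (k₀ + k) := ⟨hg, hfix⟩
  refine hnear g (kerone_anti (Nat.le_add_right k₀ k) hgk) ?_
  by_contra hcon
  exact hk ⟨g, hgk, not_lt.1 hcon⟩

end EqOka
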