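import Pool.Agent.Lib.MP_fe51c6_an_EO.Core

/-! One-parameter groups of unitary maps: eigenvectors. -/

open scoped Topology
open Set

noncomputable section

namespace EqOka

variable {d : ℕ}

private theorem linW_hasDerivAt (T : ℝ → Cd d →L[ℂ] Cd d)
    (hadd : ∀ s t, T (s + t) = T s * T t)
    (v w : Cd d) (hv : HasDerivAt (fun s => T s v) w 0) (s : ℝ) :
    HasDerivAt (fun u => T u v) (T s w) s := by
  have h1 : HasDerivAt (fun u : ℝ => T (u - s) v) w s := by
    have h2 : HasDerivAt (fun s => T s v) w (s - s) := by simpa using hv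
    exact h2.comp_sub_const s s
  have h3 := ((T s).restrictScalars ℝ).hasFDerivAt.comp_hasDerivAt s h1
  have h4 : (⇑((T s).restrictScalars ℝ) ∘ fun u => (T (u - s)) v) = fun u => T u v := by
    funext u
    have := hadd s (u - s)
    rw [add_sub_cancel] at this
    simp [this]
  rw [h4] at h3
  exact h3

private theorem linW_inner (T : ℝ → Cd d →L[ℂ] Cd d) (hiso : ∀ s v, ‖T s v‖ = ‖v‖) (s : ℝ)
    (v w : Cd d) : inner ℂ (T s v) (T s w) = inner ℂ v w := by
  let L : Cd d →ₗᵢ[ℂ] Cd d := ⟨(T s).toLinearMap, fun v => hiso s v⟩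
  exact L.inner_map_map v w

/-- If a differentiable one-parameter group of isometries is not trivial on an invariant subspace,
this subspace contains an eigenvector with a nonzero real weight. -/
theorem exists_weight (T : ℝ → Cd d →L[ℂ] Cd d) (h0 : T 0 = 1) (hadd : ∀ s t, T (s + t) = T s * T t)
    (hiso : ∀ s v, ‖T s v‖ = ‖v‖) (hdiff : ∀ v, DifferentiableAt ℝ (fun s => T s v) 0)
    (C : Submodule ℂ (Cd d)) (hC : ∀ s, ∀ v ∈ C, T s v ∈ C) (c : Cd d) (hc : c ∈ C) (s₀ : ℝ)
    (hne : T s₀ c ≠ c) :
    ∃ w ∈ C, w ≠ 0 ∧ ∃ lam : ℝ, lam ≠ 0 ∧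
      ∀ s : ℝ, T s w = Complex.exp (((s * lam : ℝ) : ℂ) * Complex.I) • w := by
  classical
  let D : Cd d →ₗ[ℂ] Cd d :=
    { toFun := fun v => deriv (fun s => T s v) 0
      map_add' := fun v w => by
        have := ((hdiff v).hasDerivAt.add (hdiff w).hasDerivAt).deriv
        rw [← this]
        congr 1
        funext s
        simp
      map_smul' := fun a v => by
        have := ((hdiff v).hasDerivAt.const_smul a).deriv
        simp only [RingHom.id_apply]
        rw [← this]
        congr 1
        funext s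
        simp }
  have hD0 : ∀ v, HasDerivAt (fun s => T s v) (D v) 0 := fun v => (hdiff v).hasDerivAt
  have hD : ∀ v s, HasDerivAt (fun u => T u v) (T s (D v)) s := fun v s =>
    linW_hasDerivAt T hadd v (D v) (hD0 v) s
  have hskew : ∀ v w, inner ℂ v (D w) + inner ℂ (D v) w = 0 := by
    intro v w
    have h1 := (hD0 v).inner ℂ (hD0 w)
    have h2 : (fun t => inner ℂ (T t v) (T t w)) = fun _ => inner ℂ v w := by
      funext t
      exact linW_inner T hiso t v w
    rw [h2] at h1
    have h3 := h1.unique (hasDerivAt_const (0 : ℝ) (inner ℂ v w))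
    simpa [h0] using h3
  have hDC : ∀ v ∈ C, D v ∈ C := by
    intro v hv
    have : D v ∈ Cᗮᗮ := by
      rw [Submodule.mem_orthogonal]
      intro u hu
      have h1 := (hasDerivAt_const (0 : ℝ) u).inner ℂ (hD0 v)
      have h2 : (fun t : ℝ => inner ℂ u (T t v)) = fun _ => (0 : ℂ) := by
        funext t
        exact (Submodule.mem_orthogonal' C u).1 hu _ (hC t v hv)
      rw [h2] at h1
      have h3 := h1.unique (hasDerivAt_const (0 : ℝ) (0 : ℂ))
      simpa using h3
    rwa [Submodule.orthogonal_orthogonal] at this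
  let A : Cd d →ₗ[ℂ] Cd d := (-Complex.I) • D
  have hA : ∀ v, A v = (-Complex.I) • D v := fun v => rfl
  have hsym : A.IsSymmetric := by
    intro v w
    have h1 := hskew v w
    rw [hA, hA, inner_smul_left, inner_smul_right]
    simp only [map_neg, Complex.conj_I, neg_neg]
    linear_combination Complex.I * h1
  have hAC : ∀ v ∈ C, A v ∈ C := fun v hv => C.smul_mem _ (hDC v hv)
  have hsymC := hsym.restrict_invariant hAC
  obtain ⟨i, hi⟩ : ∃ i, hsymC.eigenvalues rfl i ≠ 0 := by
    by_contra hcon
    push Not at hcon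
    have hz : A.restrict hAC = 0 := by
      apply (hsymC.eigenvectorBasis rfl).toBasis.ext
      intro i
      rw [OrthonormalBasis.coe_toBasis, hsymC.apply_eigenvectorBasis, hcon i]
      simp
    have hAc : A c = 0 := by
      have := congrArg (fun f => ((f ⟨c, hc⟩ : C) : Cd d)) hz
      simpa using this
    have hDc : D c = 0 := by
      rw [hA] at hAc
      simpa using hAc
    apply hne
    have hder : ∀ s, deriv (fun u => T u c) s = 0 := by
      intro s
      rw [(hD c s).deriv, hDc, map_zero]
    have := is_const_of_deriv_eq_zero (fun s => (hD c s).differentiableAt) hder s₀ 0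
    simpa [h0] using this
  set w : C := hsymC.eigenvectorBasis rfl i with hw
  set lam : ℝ := hsymC.eigenvalues rfl i with hlam
  have hAw : A (w : Cd d) = (lam : ℂ) • (w : Cd d) := by
    have h1 := hsymC.apply_eigenvectorBasis rfl i
    have h2 := congrArg (fun x : C => (x : Cd d)) h1
    simpa using h2
  have hDw : D (w : Cd d) = ((lam : ℂ) * Complex.I) • (w : Cd d) := by
    have h1 : D (w : Cd d) = Complex.I • A (w : Cd d) := by
      rw [hA, smul_smul]
      simp
    rw [h1, hAw, smul_smul, mul_comm]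
  refine ⟨w, w.2, ?_, lam, hi, ?_⟩
  · intro h
    have h1 : ‖(w : C)‖ = 1 := (hsymC.eigenvectorBasis rfl).orthonormal.1 i
    have h2 : (w : C) = 0 := Subtype.ext h
    rw [h2, norm_zero] at h1
    exact zero_ne_one h1
  · intro s
    have hexp : ∀ s : ℝ, HasDerivAt (fun u : ℝ => Complex.exp (-(((u * lam : ℝ) : ℂ) * Complex.I)))
        (Complex.exp (-(((s * lam : ℝ) : ℂ) * Complex.I)) * (-((lam : ℂ) * Complex.I))) s := by
      intro s
      have h1 : HasDerivAt (fun u : ℝ => -(((u * lam : ℝ) : ℂ) * Complex.I))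
          (-((lam : ℂ) * Complex.I)) s := by
        have h2 : HasDerivAt (fun u : ℝ => ((u * lam : ℝ) : ℂ)) (lam : ℂ) s := by
          have h3 : HasDerivAt (fun u : ℝ => u * lam) lam s := by
            simpa using (hasDerivAt_id s).mul_const lam
          exact h3.ofReal_comp
        exact (h2.mul_const Complex.I).neg
      exact h1.cexp
    have hprod : ∀ s : ℝ, HasDerivAt
        (fun u : ℝ => Complex.exp (-(((u * lam : ℝ) : ℂ) * Complex.I)) • T u (w : Cd d)) 0 s := by
      intro s
      have h1 := (hexp s).smul (hD (w : Cd d) s)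
      have h2 : Complex.exp (-(((s * lam : ℝ) : ℂ) * Complex.I)) • (T s (D (w : Cd d))) +
          (Complex.exp (-(((s * lam : ℝ) : ℂ) * Complex.I)) * (-((lam : ℂ) * Complex.I))) •
            T s (w : Cd d) = 0 := by
        rw [hDw, map_smul, smul_smul, ← add_smul]
        have : Complex.exp (-(((s * lam : ℝ) : ℂ) * Complex.I)) * ((lam : ℂ) * Complex.I) +
          Complex.exp (-(((s * lam : ℝ) : ℂ) * Complex.I)) * (-((lam : ℂ) * Complex.I)) = 0 := by
          ring
        rw [this, zero_smul]
      rw [h2] at h1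
      exact h1
    have hconst := is_const_of_deriv_eq_zero (fun s => (hprod s).differentiableAt)
      (fun s => (hprod s).deriv) s 0
    simp only [zero_mul, Complex.ofReal_zero, neg_zero, Complex.exp_zero, one_smul, h0,
      one_apply_eq_self] at hconst
    calc T s (w : Cd d) = (Complex.exp (((s * lam : ℝ) : ℂ) * Complex.I) *
          Complex.exp (-(((s * lam : ℝ) : ℂ) * Complex.I))) • T s (w : Cd d) := by
          rw [← Complex.exp_add, add_neg_cancel, Complex.exp_zero, one_smul]
      _ = Complex.exp (((s * lam : ℝ) : ℂ) * Complex.I) • (w : Cd d) := by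
          rw [mul_smul, hconst]

/-- Isometries preserve orthogonal complements of invariant subspaces. -/
theorem orth_invariant (T : ℝ → Cd d →L[ℂ] Cd d) (h0 : T 0 = 1)
    (hadd : ∀ s t, T (s + t) = T s * T t) (hiso : ∀ s v, ‖T s v‖ = ‖v‖)
    (R : Submodule ℂ (Cd d)) (hR : ∀ s, ∀ v ∈ R, T s v ∈ R) (s : ℝ) (v : Cd d) (hv : v ∈ Rᗮ) :
    T s v ∈ Rᗮ := by
  rw [Submodule.mem_orthogonal] at hv ⊢
  intro u hu
  have h1 : T s (T (-s) u) = u := by
    have := hadd s (-s)
    rw [add_neg_cancel, h0] at this
    have h2 := congrArg (fun f : Cd d →L[ℂ] Cd d => f u) this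
    simpa using h2.symm
  rw [← h1, linW_inner T hiso s]
  exact hv _ (hR (-s) u hu)

end EqOka
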