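import Pool.Agent.Lib.MP_fe51c6_an_EO.FixFlat
import Pool.Agent.Lib.MP_fe51c6_an_EO.SubAct
import Pool.Agent.Lib.MP_fe51c6_an_EO.Agree
import Pool.Agent.Lib.MP_fe51c6_an_EO.Deform

/-! The target `Y^L` decomposed into the parts `Y_j^L`, the source decomposed accordingly. -/

open scoped Manifold Topology
open Set

noncomputable section

namespace EqOka

variable {n d d' e e' : ℕ} {N L : RedGrp n} {X Y : Type} [TopologicalSpace X]
  [ChartedSpace (Cd d) X] [IsManifold 𝓘(ℂ, Cd d) 1 X] [T2Space X] [SecondCountableTopology X]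
  {act : Op n → X → X} [TopologicalSpace Y] [ChartedSpace (Cd e) Y] [IsManifold 𝓘(ℂ, Cd e) 1 Y]
  [T2Space Y] {actY : Op n → Y → Y}

/-! ### Auxiliary facts -/

/-- The local inverse of the inclusion of a subset. -/
private def Piece_lift {X : Type} {O : Set X} (z : O) (x : X) : O :=
  open Classical in if h : x ∈ O then ⟨x, h⟩ else z

private theorem Piece_lift_val {X : Type} {O : Set X} (z : O) {x : X} (hx : x ∈ O) :
    (Piece_lift z x : X) = x := by
  classical
  unfold Piece_lift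
  rw [dif_pos hx]

private theorem Piece_lift_coe {X : Type} {O : Set X} (z x : O) : Piece_lift z (x : X) = x :=
  Subtype.ext (Piece_lift_val z x.2)

omit [IsManifold 𝓘(ℂ, Cd d) 1 X] [T2Space X] [SecondCountableTopology X] in
private theorem Piece_lift_mdiff {O : Set X} (hO : IsOpen O) [ChartedSpace (Cd d) O]
    (hg : GoodSub d d O) (z : O) {x : X} (hx : x ∈ O) :
    MDifferentiableAt 𝓘(ℂ, Cd d) 𝓘(ℂ, Cd d) (Piece_lift z) x := by
  refine hg.lift _ _ _ _ _ _ ?_
  have h1 : (fun q : X => (Piece_lift z q : X)) =ᶠ[𝓝 x] id := by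
    filter_upwards [hO.mem_nhds hx] with y hy
    exact Piece_lift_val z hy
  exact mdifferentiableAt_id.congr_of_eventuallyEq h1

private theorem Piece_map_nhds {X : Type} [TopologicalSpace X] {O : Set X} (hO : IsOpen O) (z : O) :
    Filter.map (Subtype.val : O → X) (𝓝 z) = 𝓝 (z : X) :=
  hO.isOpenEmbedding_subtypeVal.map_nhds_eq z

/-- A Lipschitz estimate in charts. -/
private theorem Piece_isBigO {T Y : Type} [TopologicalSpace T] [ChartedSpace (Cd e') T]
    [IsManifold 𝓘(ℂ, Cd e') 1 T] [TopologicalSpace Y] [ChartedSpace (Cd e) Y]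
    [IsManifold 𝓘(ℂ, Cd e) 1 Y] {F : T → Y} (hF : MDifferentiable 𝓘(ℂ, Cd e') 𝓘(ℂ, Cd e) F)
    {ι : Type} {l : Filter ι} {α β : ι → T} {t₀ : T} (hα : Filter.Tendsto α l (𝓝 t₀))
    (hβ : Filter.Tendsto β l (𝓝 t₀)) :
    (fun i => chartAt (Cd e) (F t₀) (F (α i)) - chartAt (Cd e) (F t₀) (F (β i))) =O[l]
      (fun i => chartAt (Cd e') t₀ (α i) - chartAt (Cd e') t₀ (β i)) := by
  set χ₁ := chartAt (Cd e') t₀ with hχ₁
  set χ := chartAt (Cd e) (F t₀) with hχ
  set f : Cd e' → Y := fun q => F (χ₁.symm q) with hf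
  have hy : χ₁.symm (χ₁ t₀) = t₀ := χ₁.left_inv (mem_chart_source _ _)
  have hf0 : f (χ₁ t₀) = F t₀ := by rw [hf]; simp only [hy]
  have htgt : ∀ᶠ q in 𝓝 (χ₁ t₀), q ∈ χ₁.target :=
    χ₁.open_target.mem_nhds (χ₁.map_source (mem_chart_source _ _))
  have hfd : ∀ q ∈ χ₁.target, MDifferentiableAt 𝓘(ℂ, Cd e') 𝓘(ℂ, Cd e) f q := by
    intro q hq
    exact (hF _).comp q (mdifferentiableAt_atlas_symm (chart_mem_atlas _ _) hq)
  have hcont : ContinuousAt f (χ₁ t₀) := (hfd _ htgt.self_of_nhds).continuousAt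
  have hsrc : ∀ᶠ q in 𝓝 (χ₁ t₀), f q ∈ χ.source := by
    refine hcont.eventually_mem ?_
    rw [hf0]
    exact χ.open_source.mem_nhds (mem_chart_source _ _)
  have hd : ∀ᶠ q in 𝓝 (χ₁ t₀), DifferentiableAt ℂ (χ ∘ f) q := by
    filter_upwards [htgt, hsrc] with q hq hqs
    rw [← mdifferentiableAt_iff_differentiableAt]
    exact MDifferentiableAt.comp q (mdifferentiableAt_atlas (chart_mem_atlas _ _) hqs) (hfd q hq)
  have h1 := (hasStrictFDerivAt_of_eventually (χ ∘ f) (χ₁ t₀) hd).isBigO_sub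
  have hχα : Filter.Tendsto (fun i => χ₁ (α i)) l (𝓝 (χ₁ t₀)) :=
    (χ₁.continuousAt (mem_chart_source _ _)).tendsto.comp hα
  have hχβ : Filter.Tendsto (fun i => χ₁ (β i)) l (𝓝 (χ₁ t₀)) :=
    (χ₁.continuousAt (mem_chart_source _ _)).tendsto.comp hβ
  have h2 : Filter.Tendsto (fun i => (χ₁ (α i), χ₁ (β i))) l (𝓝 (χ₁ t₀, χ₁ t₀)) :=
    hχα.prodMk_nhds hχβ
  have h3 := h1.comp_tendsto h2
  have hαs : ∀ᶠ i in l, α i ∈ χ₁.source :=
    hα.eventually_mem (χ₁.open_source.mem_nhds (mem_chart_source _ _))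
  have hβs : ∀ᶠ i in l, β i ∈ χ₁.source :=
    hβ.eventually_mem (χ₁.open_source.mem_nhds (mem_chart_source _ _))
  refine h3.congr' ?_ Filter.EventuallyEq.rfl
  filter_upwards [hαs, hβs] with i hi hi'
  simp only [Function.comp_apply, hf]
  rw [χ₁.left_inv hi, χ₁.left_inv hi']

/-- Open subsets are manifolds. -/
theorem exists_open_goodSub (O : Set X) (hO : IsOpen O) :
    ∃ _ : ChartedSpace (Cd d) O, GoodSub d d O := by
  refine exists_subManifold O fun s hs => ?_
  refine ⟨(chartAt (Cd d) s).restrOpen O hO, ⊤, ⟨?_, ?_⟩, ?_, ?_, ?_⟩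
  · intro x hx
    rw [OpenPartialHomeomorph.restrOpen_source] at hx
    exact mdifferentiableAt_atlas (chart_mem_atlas _ _) hx.1
  · intro x hx
    exact mdifferentiableAt_atlas_symm (chart_mem_atlas _ _) hx.1
  · rw [OpenPartialHomeomorph.restrOpen_source]
    exact ⟨mem_chart_source _ _, hs⟩
  · rw [finrank_top, finrank_euclideanSpace_fin]
  · intro x hx
    rw [OpenPartialHomeomorph.restrOpen_source] at hx
    exact ⟨fun _ => Submodule.mem_top, fun _ => hx.2⟩

/-- If `L` acts trivially on `X`, a `K`-equivariant map takes values in `Y^L`. -/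
theorem values_in_Fix (hB : HolAct e N actY) (hL : L.carrier ⊆ N.carrier)
    (ht : ∀ l ∈ L.carrier, ∀ x, act l x = x) {f : X → Y} (hf : Eqvt N.K act actY f) (x : X) :
    f x ∈ Fix L.carrier actY := by
  rw [mem_Fix_iff (hB.restrict hL)]
  intro k hk
  rw [← hf k (RedGrp.K_le hL hk) x, ht k hk.1 x]

/-- The preimages of the parts are open and closed. -/
theorem isOpen_pre (hB : HolAct e N actY) (hL : L.carrier ⊆ N.carrier) {f : X → Y}
    (hfc : Continuous f) (hf : ∀ x, f x ∈ Fix L.carrier actY) (j : ℕ) :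
    IsOpen (f ⁻¹' FixJ e L actY j) ∧ IsClosed (f ⁻¹' FixJ e L actY j) := by
  refine ⟨?_, (isClosed_FixJ (hB.restrict hL) j).preimage hfc⟩
  rw [isOpen_iff_mem_nhds]
  intro x hx
  have h1 := hfc.continuousAt.eventually (FixJ_nhds (hB.restrict hL) j (f x) hx)
  filter_upwards [h1] with y hy
  exact hy (hf y)

/-- An open and closed `K`-invariant set is `N`-invariant. -/
theorem invt_of_clopen (hA : HolAct d N act) (S : Set X) (ho : IsOpen S) (hc : IsClosed S)
    (hK : Invt N.K act S) : Invt N.carrier act S := by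
  intro g hg x hx
  obtain ⟨k, hk, η, hη, -, rfl⟩ := RedGrp.polar_left hg
  rw [hA.mul _ hk.1 _ (RedGrp.exp_mem hη)]
  refine hK k hk _ ?_
  have hcont : Continuous (fun t : ℂ => act (NormedSpace.exp (t • η)) x) :=
    (HolAct.mdiff_orbit hA hη x).continuous
  have hcl : IsClopen ((fun t : ℂ => act (NormedSpace.exp (t • η)) x) ⁻¹' S) :=
    (IsClopen.preimage ⟨hc, ho⟩ hcont)
  have h0 : (0 : ℂ) ∈ (fun t : ℂ => act (NormedSpace.exp (t • η)) x) ⁻¹' S := by
    have e : ((0 : ℂ) • η : Op n) = 0 := zero_smul ℂ η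
    rw [mem_preimage, e, NormedSpace.exp_zero, hA.one]
    exact hx
  have h1 : (1 : ℂ) ∈ (fun t : ℂ => act (NormedSpace.exp (t • η)) x) ⁻¹' S := by
    rw [hcl.eq_univ ⟨0, h0⟩]
    exact mem_univ _
  rw [mem_preimage] at h1
  have e : ((1 : ℂ) • η : Op n) = η := one_smul ℂ η
  rwa [e] at h1

/-- Agreement to order `ℓ` for maps between submanifolds and for the corresponding maps between the
ambient manifolds. -/
theorem agree_incl {O : Set X} {T : Set Y} (hO : IsOpen O) [ChartedSpace (Cd d) O]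
    [ChartedSpace (Cd e') T] (hg : GoodSub d d O) (hgT : GoodSub e e' T) (ℓ : ℕ) (u v : O → T)
    (u' v' : X → Y) (hu : ∀ x : O, u' x = u x) (hv : ∀ x : O, v' x = v x) (z : O)
    (hcu : ContinuousAt u z) (hcv : ContinuousAt v z) (h : AgreeTo d e' ℓ u v z) :
    AgreeTo d e ℓ u' v' (z : X) := by
  have := hg.mfd
  have := hgT.mfd
  refine ⟨by rw [hu z, hv z, h.1], ?_⟩
  rw [← Piece_map_nhds hO z, Asymptotics.isBigO_map, hv z]
  have hα : Filter.Tendsto u (𝓝 z) (𝓝 (v z)) := by
    rw [← h.1]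
    exact hcu
  have h1 := Piece_isBigO (F := (Subtype.val : T → Y)) hgT.incl hα hcv
  have h2 : ((fun x : X => chartAt (Cd e) (v z : Y) (u' x) - chartAt (Cd e) (v z : Y) (v' x)) ∘
      (Subtype.val : O → X)) =
      fun x : O => chartAt (Cd e) ((v z : T) : Y) ((u x : T) : Y)
        - chartAt (Cd e) ((v z : T) : Y) ((v x : T) : Y) := by
    funext x
    simp only [Function.comp_apply]
    rw [hu x, hv x]
  rw [h2]
  refine h1.trans (h.2.trans ?_)
  have h3 : (fun x => chartAt (Cd d) z (Piece_lift z x) - chartAt (Cd d) z z) =O[𝓝 (z : X)]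
      (fun x => chartAt (Cd d) (z : X) x - chartAt (Cd d) (z : X) (z : X)) :=
    Agree.isBigO_chart (Piece_lift_coe z z) (Piece_lift_mdiff hO hg z z.2)
  have h4 := h3.comp_tendsto (continuous_subtype_val.tendsto z)
  have h5 : (fun x : O => chartAt (Cd d) z x - chartAt (Cd d) z z) =O[𝓝 z]
      (fun x : O => chartAt (Cd d) (z : X) (x : X) - chartAt (Cd d) (z : X) (z : X)) := by
    refine h4.congr_left fun x => ?_
    simp only [Function.comp_apply]
    rw [Piece_lift_coe]
  exact h5.norm_norm.pow (ℓ + 1)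

theorem holAt_incl {O : Set X} {T : Set Y} (hO : IsOpen O) [ChartedSpace (Cd d) O]
    [ChartedSpace (Cd e') T] (hg : GoodSub d d O) (hgT : GoodSub e e' T) (u : O → T) (u' : X → Y)
    (hu : ∀ x : O, u' x = u x) (z : O) : HolAt d e' u z ↔ HolAt d e u' (z : X) := by
  unfold HolAt
  rw [← Piece_map_nhds hO z, Filter.eventually_map]
  have hkey : ∀ y : O, MDifferentiableAt 𝓘(ℂ, Cd d) 𝓘(ℂ, Cd e') u y ↔
      MDifferentiableAt 𝓘(ℂ, Cd d) 𝓘(ℂ, Cd e) u' (y : X) := by
    intro y
    constructor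
    · intro h
      have h1 : u' =ᶠ[𝓝 (y : X)] fun x => ((u (Piece_lift z x) : T) : Y) := by
        filter_upwards [hO.mem_nhds y.2] with x hx
        rw [← hu (Piece_lift z x), Piece_lift_val z hx]
      refine MDifferentiableAt.congr_of_eventuallyEq ?_ h1
      have h2 : MDifferentiableAt 𝓘(ℂ, Cd d) 𝓘(ℂ, Cd e') u (Piece_lift z (y : X)) := by
        rw [Piece_lift_coe]
        exact h
      have h3 := h2.comp (y : X) (Piece_lift_mdiff hO hg z y.2)
      exact (hgT.incl _).comp (y : X) h3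
    · intro h
      refine hgT.lift _ _ _ _ _ _ ?_
      have h1 : (fun q : O => (u q : Y)) = u' ∘ (Subtype.val : O → X) :=
        funext fun q => (hu q).symm
      rw [h1]
      exact h.comp y (hg.incl y)
  exact Filter.eventually_congr (Filter.Eventually.of_forall hkey)

/-- Part `p` of the equivariant Oka principle for all pairs (open and closed `N`-invariant subset of `X`,
part `Y_j^L`) implies the one for `(X, Y)`, when `L` acts trivially on `X`. -/
def PieceEOP (p : Part) {n : ℕ} (d e : ℕ) (N L : RedGrp n) {X Y : Type} [TopologicalSpace X]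
    [ChartedSpace (Cd d) X] [TopologicalSpace Y] [ChartedSpace (Cd e) Y] (act : Op n → X → X)
    (actY : Op n → Y → Y) : Prop :=
  ∀ (S : Set X) (j : ℕ) (_ : ChartedSpace (Cd d) S) (_ : ChartedSpace (Cd j) (FixJ e L actY j)),
    IsOpen S → IsClosed S → Invt N.carrier act S → GoodSub d d S →
      GoodSub e j (FixJ e L actY j) → EOP p d j N (subAct S act) (subAct (FixJ e L actY j) actY)

end EqOka
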