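import Mathlib

/-! Definitions for the equivariant Oka principle (problem MP_fe51c6_an).

Complex manifolds are Hausdorff, second countable charted spaces over `ℂ^d` with complex `C^1`
(equivalently, holomorphic) transition maps, and holomorphic maps are complex differentiable maps. -/

open scoped Manifold Topology

noncomputable section

attribute [-instance] TopCat.of.chartedSpace

namespace EquivOka

/-- `ℂ^d` with its standard inner product. -/
abbrev Cd (d : ℕ) := EuclideanSpace ℂ (Fin d)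

/-- The algebra of complex `n × n` matrices, as operators on `ℂ^n`; `star` is the adjoint. -/
def Mat (n : ℕ) : Type := Cd n →L[ℂ] Cd n

/-- The ring structure (and the operator norm) of `Mat n`. -/
@[reducible] def matRing (n : ℕ) : NormedRing (Mat n) :=
  (inferInstance : NormedRing (Cd n →L[ℂ] Cd n))

attribute [instance] matRing

/-- `Mat n` as a complex algebra. -/
@[reducible] def matAlgebra (n : ℕ) : NormedAlgebra ℂ (Mat n) :=
  (inferInstance : NormedAlgebra ℂ (Cd n →L[ℂ] Cd n))

attribute [instance] matAlgebra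

/-- The adjoint on `Mat n`. -/
@[reducible] def matStar (n : ℕ) : StarRing (Mat n) :=
  (inferInstance : StarRing (Cd n →L[ℂ] Cd n))

attribute [instance] matStar

/-- A reductive complex Lie group, given as a closed selfadjoint subgroup of `GL_n(ℂ)`:
`carrier` is the group `G`, `lie` its Lie algebra, which is a complex subspace, and
`G = K exp(p)`, where `K = G ∩ U(n)` and `p` is the set of selfadjoint elements of the Lie algebra.
Then `G` is the complexification of `K`, and every reductive complex Lie group is of this form. -/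
structure RedGrp (n : ℕ) where
  carrier : Set (Mat n)
  lie : Submodule ℂ (Mat n)
  one_mem : (1 : Mat n) ∈ carrier
  mul_mem : ∀ g ∈ carrier, ∀ h ∈ carrier, g * h ∈ carrier
  inv_mem : ∀ g ∈ carrier, ∃ h ∈ carrier, g * h = 1 ∧ h * g = 1
  closed : ∀ g : Mat n, IsUnit g → g ∈ closure carrier → g ∈ carrier
  lie_iff : ∀ ξ : Mat n, ξ ∈ lie ↔ ∀ t : ℝ, NormedSpace.exp ((t : ℂ) • ξ) ∈ carrier
  polar : ∀ g ∈ carrier, ∃ k ∈ carrier, ∃ η ∈ lie,
    k ∈ unitary (Mat n) ∧ IsSelfAdjoint η ∧ g = k * NormedSpace.exp η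

/-- The maximal compact subgroup `K = G ∩ U(n)` of `G`. -/
def RedGrp.K {n : ℕ} (G : RedGrp n) : Set (Mat n) := {k | k ∈ G.carrier ∧ k ∈ unitary (Mat n)}

section Maps

variable (d e : ℕ) {X Y : Type} [TopologicalSpace X] [ChartedSpace (Cd d) X]
  [TopologicalSpace Y] [ChartedSpace (Cd e) Y]

/-- `f` is holomorphic near the point `x`. -/
def HolAt (f : X → Y) (x : X) : Prop :=
  ∀ᶠ y in 𝓝 x, MDifferentiableAt 𝓘(ℂ, Cd d) 𝓘(ℂ, Cd e) f y

/-- `f` is a holomorphic map. -/
def Hol (f : X → Y) : Prop := MDifferentiable 𝓘(ℂ, Cd d) 𝓘(ℂ, Cd e) f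

/-- `f` is a holomorphic function. -/
def HolFun (f : X → ℂ) : Prop := MDifferentiable 𝓘(ℂ, Cd d) 𝓘(ℂ, ℂ) f

/-- `F` is a holomorphic map from `ℂ^m × X` to `X`. -/
def HolProd (m d : ℕ) {X : Type} [TopologicalSpace X] [ChartedSpace (Cd d) X]
    (F : Cd m × X → X) : Prop :=
  MDifferentiable (𝓘(ℂ, Cd m).prod 𝓘(ℂ, Cd d)) 𝓘(ℂ, Cd d) F

/-- The `𝒪(X)`-convex hull of `A`. -/
def hull (A : Set X) : Set X :=
  {x | ∀ f : X → ℂ, HolFun d f → ∀ C : ℝ, (∀ a ∈ A, ‖f a‖ ≤ C) → ‖f x‖ ≤ C}

/-- Stein manifolds: holomorphically convex and holomorphically separable. -/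
structure IsStein (X : Type) [TopologicalSpace X] [ChartedSpace (Cd d) X] : Prop where
  convex : ∀ A : Set X, IsCompact A → IsCompact (hull d A)
  separates : ∀ x y : X, x ≠ y → ∃ f : X → ℂ, HolFun d f ∧ f x ≠ f y

/-- (Closed) subvarieties: locally the common zero set of finitely many holomorphic functions. -/
def IsSubvariety (Z : Set X) : Prop :=
  IsClosed Z ∧ ∀ z ∈ Z, ∃ U : Set X, IsOpen U ∧ z ∈ U ∧ ∃ (N : ℕ) (g : Fin N → X → ℂ),
    (∀ i, MDifferentiableOn 𝓘(ℂ, Cd d) 𝓘(ℂ, ℂ) (g i) U) ∧ ∀ x ∈ U, x ∈ Z ↔ ∀ i, g i x = 0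

/-- `f` is holomorphic on the subvariety `Z`: it agrees on `Z`, locally, with a holomorphic map
defined near the point. -/
def HolOnSub (f : X → Y) (Z : Set X) : Prop :=
  ∀ z ∈ Z, ∃ F : X → Y, HolAt d e F z ∧ ∀ᶠ x in 𝓝 z, x ∈ Z → F x = f x

/-- `u` and `v` agree to order `ℓ` at `z`: `u(z) = v(z)` and, in local coordinates,
`u(x) - v(x) = O(|x - z|^{ℓ + 1})`. -/
def AgreeTo (ℓ : ℕ) (u v : X → Y) (z : X) : Prop :=
  u z = v z ∧
    (fun x => chartAt (Cd e) (v z) (u x) - chartAt (Cd e) (v z) (v x)) =O[𝓝 z]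
      (fun x => ‖chartAt (Cd d) z x - chartAt (Cd d) z z‖ ^ (ℓ + 1))

/-- A subset `T` of `Y` (a closed submanifold in the applications) has the Oka property: for every
nonempty compact convex `A` in `ℂ^m`, every holomorphic map from a neighbourhood of `A` to `T` is a
uniform limit on `A` of holomorphic maps from `ℂ^m` to `T`. -/
def IsOka (T : Set Y) : Prop :=
  ∀ (m : ℕ) (A : Set (Cd m)), IsCompact A → A.Nonempty → Convex ℝ A →
    ∀ f : Cd m → Y, (∀ a ∈ A, HolAt m e f a) → (∀ a ∈ A, ∀ᶠ z in 𝓝 a, f z ∈ T) →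
      ∀ W : Set (Cd m × Y), IsOpen W → (∀ a ∈ A, (a, f a) ∈ W) →
        ∃ F : Cd m → Y, Hol m e F ∧ (∀ z, F z ∈ T) ∧ ∀ a ∈ A, (a, F a) ∈ W

/-- `f` can be deformed to `g` through maps with the property `P`. -/
def Deforms (P : (X → Y) → Prop) (f g : X → Y) : Prop :=
  ∃ H : unitInterval × X → Y, Continuous H ∧ (∀ x, H (0, x) = f x) ∧ (∀ x, H (1, x) = g x) ∧
    ∀ t : unitInterval, P (fun x => H (t, x))

end Maps

/-- The parts (a), (b), (c) of the equivariant Oka principle, and the variant (c') of (c) where the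
intermediate maps are also holomorphic near `Z` and `A`. -/
inductive Part
  | a
  | b
  | c
  | c'

section Actions

variable {n : ℕ} (d e : ℕ) (G : RedGrp n) {X Y : Type} [TopologicalSpace X] [ChartedSpace (Cd d) X]
  [TopologicalSpace Y] [ChartedSpace (Cd e) Y]

/-- The action is holomorphic in the group variable, jointly with `x`: `(v, x) ↦ exp(L v) • x` is
holomorphic on `ℂ^m × X` for every linear map `L : ℂ^m → lie`. -/
def HolExp (act : Mat n → X → X) : Prop :=
  ∀ (m : ℕ) (L : Cd m →L[ℂ] Mat n), (∀ v, L v ∈ G.lie) →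
    HolProd m d (fun p : Cd m × X => act (NormedSpace.exp (L p.1)) p.2)

/-- A holomorphic action of `G` on the complex manifold `X`; `act g x` is `g • x` for `g ∈ G`.
The action is holomorphic on `G × X`: near `g₀` the group is parametrised by `exp(ξ) g₀`, `ξ ∈ lie`. -/
structure HolAct (act : Mat n → X → X) : Prop where
  one : ∀ x, act 1 x = x
  mul : ∀ g ∈ G.carrier, ∀ h ∈ G.carrier, ∀ x, act (g * h) x = act g (act h x)
  cont : ContinuousOn (fun p : Mat n × X => act p.1 p.2) (G.carrier ×ˢ Set.univ)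
  hol : ∀ g ∈ G.carrier, Hol d d (act g)
  hol_exp : HolExp d G act

/-- `Z` is invariant under the set `S` of group elements. -/
def Invt (S : Set (Mat n)) (act : Mat n → X → X) (Z : Set X) : Prop := ∀ g ∈ S, ∀ x ∈ Z, act g x ∈ Z

/-- Equivariance of `f : X → Y` with respect to a set `S` of group elements. -/
def Eqvt (S : Set (Mat n)) (actX : Mat n → X → X) (actY : Mat n → Y → Y) (f : X → Y) : Prop :=
  ∀ g ∈ S, ∀ x, f (actX g x) = actY g (f x)

/-- The fixed point set of `S`. -/
def Fix (S : Set (Mat n)) (actY : Mat n → Y → Y) : Set Y := {y | ∀ g ∈ S, actY g y = y}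

/-- `Y` is `G`-Oka: `Y^H` is Oka for every reductive subgroup `H` of `G` (every such subgroup is
conjugate in `G` to a selfadjoint one). -/
def GOka (actY : Mat n → Y → Y) : Prop :=
  ∀ H : RedGrp n, H.carrier ⊆ G.carrier → IsOka e (Fix H.carrier actY)

/-- Part (a) of the equivariant Oka principle. -/
def PartA (actX : Mat n → X → X) (actY : Mat n → Y → Y) : Prop :=
  ∀ f : X → Y, Continuous f → Eqvt G.K actX actY f →
    ∃ g : X → Y, Hol d e g ∧ Eqvt G.carrier actX actY g ∧ Deforms (Eqvt G.K actX actY) f g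

/-- Part (b) of the equivariant Oka principle. -/
def PartB (actX : Mat n → X → X) (actY : Mat n → Y → Y) : Prop :=
  ∀ Z : Set X, IsSubvariety d Z → Invt G.carrier actX Z →
  ∀ f : X → Y, Continuous f → Eqvt G.K actX actY f → HolOnSub d e f Z →
    ∃ g : X → Y, Hol d e g ∧ Eqvt G.carrier actX actY g ∧
      Deforms (fun u => Eqvt G.K actX actY u ∧ ∀ z ∈ Z, u z = f z) f g

/-- Part (c) of the equivariant Oka principle. The intermediate maps agree with `f` to order `ℓ`
along `Z`, and are as close to `f` on `A` as desired (`W` is an arbitrary neighbourhood of the graph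
of `f` over `A`). -/
def PartC (actX : Mat n → X → X) (actY : Mat n → Y → Y) : Prop :=
  ∀ Z : Set X, IsSubvariety d Z → Invt G.carrier actX Z →
  ∀ A : Set X, IsCompact A → Invt G.K actX A → hull d A ⊆ A →
  ∀ f : X → Y, Continuous f → Eqvt G.K actX actY f → (∀ x ∈ Z ∪ A, HolAt d e f x) →
  ∀ (ℓ : ℕ) (W : Set (X × Y)), IsOpen W → (∀ x ∈ A, (x, f x) ∈ W) →
    ∃ g : X → Y, Hol d e g ∧ Eqvt G.carrier actX actY g ∧
      Deforms (fun u => Eqvt G.K actX actY u ∧
        (∀ z ∈ Z, AgreeTo d e ℓ u f z) ∧ ∀ x ∈ A, (x, u x) ∈ W) f g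

/-- Part (c) with the additional property that the intermediate maps are holomorphic near `Z` and
`A`. -/
def PartC' (actX : Mat n → X → X) (actY : Mat n → Y → Y) : Prop :=
  ∀ Z : Set X, IsSubvariety d Z → Invt G.carrier actX Z →
  ∀ A : Set X, IsCompact A → Invt G.K actX A → hull d A ⊆ A →
  ∀ f : X → Y, Continuous f → Eqvt G.K actX actY f → (∀ x ∈ Z ∪ A, HolAt d e f x) →
  ∀ (ℓ : ℕ) (W : Set (X × Y)), IsOpen W → (∀ x ∈ A, (x, f x) ∈ W) →
    ∃ g : X → Y, Hol d e g ∧ Eqvt G.carrier actX actY g ∧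
      Deforms (fun u => Eqvt G.K actX actY u ∧ (∀ x ∈ Z ∪ A, HolAt d e u x) ∧
        (∀ z ∈ Z, AgreeTo d e ℓ u f z) ∧ ∀ x ∈ A, (x, u x) ∈ W) f g

/-- Part `p` of the equivariant Oka principle holds for `(X, Y)`. -/
def EOP (p : Part) (actX : Mat n → X → X) (actY : Mat n → Y → Y) : Prop :=
  match p with
  | .a => PartA d e G actX actY
  | .b => PartB d e G actX actY
  | .c => PartC d e G actX actY
  | .c' => PartC' d e G actX actY

/-- All `G`-orbits are closed. -/
def ClosedOrbits (act : Mat n → X → X) : Prop :=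
  ∀ x : X, IsClosed {y | ∃ g ∈ G.carrier, act g x = y}

/-- All stabilisers are finite. -/
def FiniteStabilisers (act : Mat n → X → X) : Prop :=
  ∀ x : X, {g | g ∈ G.carrier ∧ act g x = x}.Finite

end Actions

/-- Part `p` of the equivariant Oka principle for all reductive groups `G`, all Stein `G`-manifolds
`X` on which every `G`-orbit is closed, and all `G`-Oka manifolds `Y` (question Q2). -/
def EOPClosedOrbits (p : Part) : Prop :=
  ∀ (n d e : ℕ) (G : RedGrp n)
    (X : Type) [TopologicalSpace X] [ChartedSpace (Cd d) X] [IsManifold 𝓘(ℂ, Cd d) 1 X]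
    [T2Space X] [SecondCountableTopology X]
    (Y : Type) [TopologicalSpace Y] [ChartedSpace (Cd e) Y] [IsManifold 𝓘(ℂ, Cd e) 1 Y]
    [T2Space Y] [SecondCountableTopology Y]
    (actX : Mat n → X → X) (actY : Mat n → Y → Y),
    IsStein d X → HolAct d G actX → HolAct e G actY → GOka e G actY →
      ClosedOrbits G actX → EOP d e G p actX actY

/-- Part `p` of the equivariant Oka principle for all reductive groups `G`, all Stein `G`-manifolds
`X` with finite stabilisers, and all `G`-Oka manifolds `Y`. -/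
def EOPFiniteStabilisers (p : Part) : Prop :=
  ∀ (n d e : ℕ) (G : RedGrp n)
    (X : Type) [TopologicalSpace X] [ChartedSpace (Cd d) X] [IsManifold 𝓘(ℂ, Cd d) 1 X]
    [T2Space X] [SecondCountableTopology X]
    (Y : Type) [TopologicalSpace Y] [ChartedSpace (Cd e) Y] [IsManifold 𝓘(ℂ, Cd e) 1 Y]
    [T2Space Y] [SecondCountableTopology Y]
    (actX : Mat n → X → X) (actY : Mat n → Y → Y),
    IsStein d X → HolAct d G actX → HolAct e G actY → GOka e G actY →
      FiniteStabilisers G actX → EOP d e G p actX actY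

end EquivOka
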