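import Pool.Agent.Lib.MP_fe51c6_an_EO.QRep
import Pool.Agent.Lib.MP_fe51c6_an_EO.Orth

/-! The quotient group `N / L` as a `RedGrp`. -/

open scoped Topology
open Set

noncomputable section

namespace EqOka

section QGrpAbs

variable {A : Type*} [NormedRing A] [NormedAlgebra ℂ A] [CompleteSpace A]

private theorem QGrp_eq_of_exp {a b : A}
    (h : ∀ t : ℝ, NormedSpace.exp ((t : ℂ) • a) = NormedSpace.exp ((t : ℂ) • b)) : a = b := by
  have key : ∀ c : A, HasDerivAt (fun t : ℝ => NormedSpace.exp ((t : ℂ) • c)) c 0 := by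
    intro c
    have h1 := hasDerivAt_exp_smul_const (𝕂 := ℝ) c (0 : ℝ)
    rw [zero_smul, NormedSpace.exp_zero, one_mul] at h1
    exact h1
  have h1 := key a
  have h2 : (fun t : ℝ => NormedSpace.exp ((t : ℂ) • a))
      = fun t : ℝ => NormedSpace.exp ((t : ℂ) • b) := funext h
  rw [h2] at h1
  exact h1.unique (key b)

/-- the product of exponentials of small elements -/
private theorem QGrp_exp_mul : (fun x : A × A => NormedSpace.exp x.1 * NormedSpace.exp x.2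
    - 1 - (x.1 + x.2)) =o[𝓝 0] fun x : A × A => x := by
  have e1 : HasFDerivAt (fun x : A × A => NormedSpace.exp x.1)
      ((1 : A →L[ℂ] A).comp (ContinuousLinearMap.fst ℂ A A)) 0 :=
    HasFDerivAt.comp (0 : A × A) (g := (NormedSpace.exp : A → A)) (f := Prod.fst)
      (hasFDerivAt_exp_zero (𝕂 := ℂ)) (ContinuousLinearMap.fst ℂ A A).hasFDerivAt
  have e2 : HasFDerivAt (fun x : A × A => NormedSpace.exp x.2)
      ((1 : A →L[ℂ] A).comp (ContinuousLinearMap.snd ℂ A A)) 0 :=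
    HasFDerivAt.comp (0 : A × A) (g := (NormedSpace.exp : A → A)) (f := Prod.snd)
      (hasFDerivAt_exp_zero (𝕂 := ℂ)) (ContinuousLinearMap.snd ℂ A A).hasFDerivAt
  have e3 := e1.mul' e2
  rw [hasFDerivAt_iff_isLittleO] at e3
  refine e3.congr' ?_ ?_
  · refine Filter.Eventually.of_forall fun x => ?_
    simp only [Prod.fst_zero, Prod.snd_zero, NormedSpace.exp_zero, sub_zero]
    change NormedSpace.exp x.1 * NormedSpace.exp x.2
      - NormedSpace.exp (0 : A) * NormedSpace.exp (0 : A)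
      - ((1 : A) • x.2 + MulOpposite.op (1 : A) • x.1) = _
    rw [one_smul, MulOpposite.op_one, one_smul, add_comm x.2, NormedSpace.exp_zero, mul_one]
  · refine Filter.Eventually.of_forall fun x => ?_
    simp

end QGrpAbs

section QGrpStar

variable {A : Type*} [CStarAlgebra A]

private theorem QGrp_norm_le {w : A} (hw : IsSelfAdjoint w) {c : ℝ} (h1 : 1 ≤ c)
    (h2 : ‖NormedSpace.exp w‖ ≤ c) (h3 : ‖NormedSpace.exp (-w)‖ ≤ c) : Real.exp ‖w‖ ≤ c := by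
  rcases subsingleton_or_nontrivial A with hA | hA
  · have h4 : w = 0 := Subsingleton.elim _ _
    rw [h4, norm_zero, Real.exp_zero]
    exact h1
  · have key : ∀ v : A, ‖v‖ ∈ spectrum ℝ v → Real.exp ‖v‖ ≤ ‖NormedSpace.exp v‖ := by
      intro v hv
      have h4 := spectrum.exp_mem_exp (𝕜 := ℝ) v hv
      have h5 := spectrum.norm_le_norm_of_mem h4
      rw [← Real.exp_eq_exp_ℝ] at h5
      exact (le_abs_self _).trans h5
    rcases CStarAlgebra.norm_or_neg_norm_mem_spectrum hw with h | h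
    · exact (key w h).trans h2
    · have h4 : ‖-w‖ ∈ spectrum ℝ (-w) := by
        rw [norm_neg, ← spectrum.neg_eq]
        exact h
      have h5 := key (-w) h4
      rw [norm_neg] at h5
      exact h5.trans h3

private theorem QGrp_parts {p q : A} (hp : star p = -p) (hq : star q = q) :
    ‖p‖ ≤ ‖p + q‖ ∧ ‖q‖ ≤ ‖p + q‖ := by
  have hstar : star (p + q) = -p + q := by rw [star_add, hp, hq]
  have hsn : ‖star (p + q)‖ = ‖p + q‖ := norm_star _
  have h2 : ‖(2⁻¹ : ℂ)‖ = 1 / 2 := by norm_num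
  constructor
  · have h1 : p = (2⁻¹ : ℂ) • ((p + q) - star (p + q)) := by
      have h3 : (p + q) - star (p + q) = p + p := by
        rw [hstar]
        abel
      rw [h3, smul_add, ← add_smul]
      norm_num
    have h3 := norm_sub_le (p + q) (star (p + q))
    rw [hsn] at h3
    calc ‖p‖ = ‖(2⁻¹ : ℂ) • ((p + q) - star (p + q))‖ := congrArg norm h1
      _ = 1 / 2 * ‖(p + q) - star (p + q)‖ := by rw [norm_smul, h2]
      _ ≤ ‖p + q‖ := by linarith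
  · have h1 : q = (2⁻¹ : ℂ) • ((p + q) + star (p + q)) := by
      have h3 : (p + q) + star (p + q) = q + q := by
        rw [hstar]
        abel
      rw [h3, smul_add, ← add_smul]
      norm_num
    have h3 := norm_add_le (p + q) (star (p + q))
    rw [hsn] at h3
    calc ‖q‖ = ‖(2⁻¹ : ℂ) • ((p + q) + star (p + q))‖ := congrArg norm h1
      _ = 1 / 2 * ‖(p + q) + star (p + q)‖ := by rw [norm_smul, h2]
      _ ≤ ‖p + q‖ := by linarith

private theorem QGrp_star_zero : star (0 : A) = 0 := star_zero A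

private theorem QGrp_norm_unitary {u : A} (hu : u ∈ unitary A) : ‖u‖ ≤ 1 := by
  rcases subsingleton_or_nontrivial A with hA | hA
  · have h4 : u = 0 := Subsingleton.elim _ _
    rw [h4, norm_zero]
    exact zero_le_one
  · exact (CStarRing.norm_of_mem_unitary hu).le

end QGrpStar

section QGrpLog

variable {A : Type*} [NormedRing A] [NormedAlgebra ℝ A] [FiniteDimensional ℝ A]

private theorem QGrp_small_log (H : Set A) (hH : IsClosed H) (h1 : (1 : A) ∈ H)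
    (hmul : ∀ a ∈ H, ∀ b ∈ H, a * b ∈ H) (hinv : ∀ a ∈ H, ∃ b ∈ H, a * b = 1 ∧ b * a = 1)
    (𝔥 : Submodule ℝ A) (h𝔥 : ∀ ξ, ξ ∈ 𝔥 ↔ ∀ t : ℝ, NormedSpace.exp (t • ξ) ∈ H)
    {δ : ℝ} (hδ : 0 < δ) :
    ∃ ε > 0, ∀ h ∈ H, ‖h - 1‖ < ε → ∃ ξ ∈ 𝔥, ‖ξ‖ < δ ∧ h = NormedSpace.exp ξ := by
  have : CompleteSpace A := FiniteDimensional.complete ℝ A
  have : ProperSpace A := FiniteDimensional.proper ℝ A
  let _ : NormedAlgebra ℚ A := NormedAlgebra.restrictScalars ℚ ℝ A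
  -- the projection
  obtain ⟨f, hf⟩ := 𝔥.subtype.exists_leftInverse_of_injective (by
    rw [Submodule.ker_subtype])
  let P : A →L[ℝ] A := LinearMap.toContinuousLinearMap (𝔥.subtype.comp f)
  have hPmem : ∀ x, P x ∈ 𝔥 := fun x => (f x).2
  have hPid : ∀ x ∈ 𝔥, P x = x := by
    intro x hx
    have := congrArg (fun g => ((g ⟨x, hx⟩ : 𝔥) : A)) hf
    exact this
  let Q : A →L[ℝ] A := ContinuousLinearMap.id ℝ A - P
  have hQ : ∀ x, Q x = x - P x := fun x => rfl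
  let Φ : A → A := fun x => NormedSpace.exp (P x) * NormedSpace.exp (Q x)
  have hΦ0 : Φ 0 = 1 := by
    simp only [Φ, map_zero, NormedSpace.exp_zero, mul_one]
  have hder : HasStrictFDerivAt Φ (ContinuousLinearEquiv.refl ℝ A : A →L[ℝ] A) 0 := by
    have e1 : HasStrictFDerivAt (fun x => NormedSpace.exp (P x))
        ((1 : A →L[ℝ] A).comp P) 0 := by
      have h2 : HasStrictFDerivAt (NormedSpace.exp : A → A) (1 : A →L[ℝ] A) (P 0) := by
        rw [map_zero]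
        exact hasStrictFDerivAt_exp_zero
      exact h2.comp 0 P.hasStrictFDerivAt
    have e2 : HasStrictFDerivAt (fun x => NormedSpace.exp (Q x))
        ((1 : A →L[ℝ] A).comp Q) 0 := by
      have h2 : HasStrictFDerivAt (NormedSpace.exp : A → A) (1 : A →L[ℝ] A) (Q 0) := by
        rw [map_zero]
        exact hasStrictFDerivAt_exp_zero
      exact h2.comp 0 Q.hasStrictFDerivAt
    have e3 := e1.mul' e2
    refine e3.congr_fderiv ?_
    ext x
    have h5 : NormedSpace.exp (P 0) = 1 := by rw [map_zero, NormedSpace.exp_zero]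
    have h6 : NormedSpace.exp (Q 0) = 1 := by rw [map_zero, NormedSpace.exp_zero]
    change NormedSpace.exp (P 0) • (Q x) + MulOpposite.op (NormedSpace.exp (Q 0)) • (P x) = x
    rw [h5, h6, one_smul, MulOpposite.op_one, one_smul, hQ]
    abel
  have hmap : Filter.map Φ (𝓝 0) = 𝓝 1 := by
    rw [hder.map_nhds_eq_of_equiv, hΦ0]
  by_contra hcon
  push Not at hcon
  obtain ⟨r, hr, hrP⟩ : ∃ r > 0, ∀ x : A, ‖x‖ < r → ‖P x‖ < δ := by
    have h2 : Filter.Tendsto (fun x => ‖P x‖) (𝓝 0) (𝓝 0) := by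
      have := P.continuous.norm.tendsto 0
      simpa using this
    obtain ⟨r, hr, h3⟩ := Metric.eventually_nhds_iff_ball.1 (h2.eventually (gt_mem_nhds hδ))
    exact ⟨r, hr, fun x hx => h3 x (by simpa using hx)⟩
  -- the sequence
  have hseq : ∀ j : ℕ, ∃ x : A, ‖x‖ < 1 / ((j : ℝ) + 1) ∧ Φ x ∈ H ∧ Q x ≠ 0 := by
    intro j
    have hpos : (0 : ℝ) < min r (1 / ((j : ℝ) + 1)) := lt_min hr (by positivity)
    have h2 : Φ '' Metric.ball 0 (min r (1 / ((j : ℝ) + 1))) ∈ 𝓝 (1 : A) := by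
      rw [← hmap]
      exact Filter.image_mem_map (Metric.ball_mem_nhds 0 hpos)
    obtain ⟨ε, hε, hb⟩ := Metric.mem_nhds_iff.1 h2
    obtain ⟨h, hh, hh1, hh2⟩ := hcon ε hε
    have h3 : h ∈ Metric.ball (1 : A) ε := by
      rw [Metric.mem_ball, dist_eq_norm]
      exact hh1
    obtain ⟨x, hx, rfl⟩ := hb h3
    rw [Metric.mem_ball, dist_zero_right] at hx
    refine ⟨x, hx.trans_le (min_le_right _ _), hh, fun h0 => ?_⟩
    apply hh2 (P x) (hPmem x) (hrP x (hx.trans_le (min_le_left _ _)))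
    simp only [Φ, h0, NormedSpace.exp_zero, mul_one]
  choose x hx1 hx2 hx3 using hseq
  have hx0 : Filter.Tendsto x Filter.atTop (𝓝 0) := by
    rw [tendsto_zero_iff_norm_tendsto_zero]
    exact squeeze_zero (fun _ => norm_nonneg _) (fun j => (hx1 j).le)
      tendsto_one_div_add_atTop_nhds_zero_nat
  let z : ℕ → A := fun j => Q (x j)
  have hz : Filter.Tendsto z Filter.atTop (𝓝 0) := by
    have := Q.continuous.continuousAt.tendsto.comp hx0
    rwa [map_zero] at this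
  have hzH : ∀ j, NormedSpace.exp (z j) ∈ H := by
    intro j
    have h2 : NormedSpace.exp (-(P (x j))) ∈ H := by
      have h3 := (h𝔥 _).1 (𝔥.neg_mem (hPmem (x j))) 1
      rwa [one_smul] at h3
    have h3 : NormedSpace.exp (z j) = NormedSpace.exp (-(P (x j))) * Φ (x j) := by
      simp only [Φ, z]
      rw [← mul_assoc, (ClosedSubAux.exp_neg_mul (P (x j))).1, one_mul]
    rw [h3]
    exact hmul _ h2 _ (hx2 j)
  have hQQ : ∀ y, Q (Q y) = Q y := by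
    intro y
    rw [hQ (Q y), hQ y, map_sub, hPid _ (hPmem y)]
    abel
  -- a convergent subsequence
  have hsph : ∀ j, ‖z j‖⁻¹ • z j ∈ Metric.sphere (0 : A) 1 := by
    intro j
    rw [mem_sphere_zero_iff_norm, norm_smul, norm_inv, norm_norm]
    exact inv_mul_cancel₀ (norm_ne_zero_iff.2 (hx3 j))
  obtain ⟨ζ, hζ1, φ, hφ, hζ⟩ := (isCompact_sphere (0 : A) 1).tendsto_subseq hsph
  have hζh : ζ ∈ 𝔥 := by
    rw [h𝔥]
    intro t
    exact ClosedSubAux.limit_mem H hH h1 hmul hinv (fun j => z (φ j)) (fun j => hx3 (φ j))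
      (hz.comp hφ.tendsto_atTop) (fun j => hzH (φ j)) ζ hζ t
  have hQζ : Q ζ = ζ := by
    have h2 := Q.continuous.continuousAt.tendsto.comp hζ
    have h3 : (⇑Q ∘ (fun j => ‖z j‖⁻¹ • z j) ∘ φ) = (fun j => ‖z j‖⁻¹ • z j) ∘ φ := by
      funext j
      simp only [Function.comp_apply, map_smul, z, hQQ]
    rw [h3] at h2
    exact tendsto_nhds_unique h2 hζ
  have h0 : ζ = 0 := by
    rw [← hQζ, hQ, hPid ζ hζh, sub_self]
  rw [h0, mem_sphere_zero_iff_norm, norm_zero] at hζ1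
  exact zero_ne_one hζ1

end QGrpLog

variable {n n' : ℕ} {N L : RedGrp n} {M : RedGrp n'} {π : Op n → Op n'} {dπ : Op n →L[ℂ] Op n'}

/-- `M` is the image of `N`. -/
structure IsQ {n n' : ℕ} (N : RedGrp n) (M : RedGrp n') (π : Op n → Op n')
    (dπ : Op n →L[ℂ] Op n') : Prop where
  car : ∀ g', g' ∈ M.carrier ↔ ∃ g ∈ N.carrier, π g = g'
  lie : ∀ ξ', ξ' ∈ M.lie ↔ ∃ ξ ∈ N.lie, dπ ξ = ξ'

private theorem QGrp_smul_zero {m : ℕ} (t : ℂ) : t • (0 : Op m) = 0 := by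
  ext1 v
  exact smul_zero t

theorem QRep.dker (hQ : QRep N L n' π dπ) (hL : L.carrier ⊆ N.carrier) {ξ : Op n}
    (hξ : ξ ∈ N.lie) : dπ ξ = 0 ↔ ξ ∈ L.lie := by
  constructor
  · intro h
    rw [L.lie_iff]
    intro t
    have h1 := hQ.exp ξ hξ t
    have hz : (t : ℂ) • (0 : Op n') = 0 := QGrp_smul_zero _
    rw [h, hz, NormedSpace.exp_zero] at h1
    exact (hQ.ker _ (RedGrp.exp_smul_mem hξ t)).1 h1
  · intro h
    apply QGrp_eq_of_exp
    intro t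
    have hz : (t : ℂ) • (0 : Op n') = 0 := QGrp_smul_zero _
    rw [hz, NormedSpace.exp_zero, ← hQ.exp ξ hξ t]
    exact (hQ.ker _ (RedGrp.exp_smul_mem hξ t)).2 (RedGrp.exp_smul_mem h t)

private theorem QGrp_smul_star (t : ℝ) (ξ : Op n) : (t : ℂ) • star ξ = star ((t : ℂ) • ξ) := by
  rw [star_smul]
  congr 1
  exact (Complex.conj_ofReal t).symm

theorem QRep.dstar (hQ : QRep N L n' π dπ) {ξ : Op n} (hξ : ξ ∈ N.lie) :
    dπ (star ξ) = star (dπ ξ) := by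
  apply QGrp_eq_of_exp
  intro t
  rw [← hQ.exp (star ξ) (RedGrp.star_lie hξ) t, QGrp_smul_star, ← star_exp_op,
    hQ.adj _ (RedGrp.exp_smul_mem hξ t), hQ.exp ξ hξ t, star_exp_op, ← QGrp_smul_star]

theorem QRep.unitary (hQ : QRep N L n' π dπ) {k : Op n} (hk : k ∈ N.K) :
    π k ∈ unitary (Op n') := by
  obtain ⟨h1, h2, h3⟩ := RedGrp.star_K hk
  rw [Unitary.mem_iff, ← hQ.adj k hk.1, ← hQ.mul _ h1.1 _ hk.1, ← hQ.mul _ hk.1 _ h1.1, h2, h3,
    hQ.one]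
  exact ⟨rfl, rfl⟩

/-- `L.lie` is an ideal. -/
private theorem QGrp_ideal
    (hn : ∀ g ∈ N.carrier, ∀ h : Op n, g * h = 1 → ∀ l ∈ L.carrier, g * l * h ∈ L.carrier)
    {η ζ : Op n} (hη : η ∈ N.lie) (hζ : ζ ∈ L.lie) : η * ζ - ζ * η ∈ L.lie := by
  have hd := GrpAux.hasDerivAt_conj η ζ
  have hc : ∀ z : ℂ, NormedSpace.exp (z • η) * ζ * NormedSpace.exp (z • (-η)) ∈ L.lie := by
    intro z
    have hgh : NormedSpace.exp (z • η) * NormedSpace.exp (z • (-η)) = 1 := by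
      rw [smul_neg]
      exact (exp_neg_mul_self (z • η)).2
    have hg := RedGrp.exp_smul_mem hη z
    have hhg := (RedGrp.inv_mem' hg hgh).2
    rw [L.lie_iff]
    intro t
    have h1 : ((t : ℂ) • (NormedSpace.exp (z • η) * ζ * NormedSpace.exp (z • (-η))) : Op n)
        = NormedSpace.exp (z • η) * ((t : ℂ) • ζ) * NormedSpace.exp (z • (-η)) := by
      rw [mul_smul_comm, smul_mul_assoc]
    rw [h1, exp_conj hgh hhg]
    exact hn _ hg _ hgh _ (RedGrp.exp_smul_mem hζ t)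
  have hcl : IsClosed (L.lie : Set (Op n)) := Submodule.closed_of_finiteDimensional L.lie
  rw [hasDerivAt_iff_tendsto_slope] at hd
  refine hcl.mem_of_tendsto hd (Filter.Eventually.of_forall fun z => ?_)
  rw [slope_def_module]
  exact L.lie.smul_mem _ (L.lie.sub_mem (hc z) (hc 0))

/-- `L.lie` is an ideal: a selfadjoint element of `N.lie` is the sum of an element of `L.lie` and of
an element of `perp L.lie`, selfadjoint and commuting. -/
theorem lie_split (hL : L.carrier ⊆ N.carrier)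
    (hn : ∀ g ∈ N.carrier, ∀ h : Op n, g * h = 1 → ∀ l ∈ L.carrier, g * l * h ∈ L.carrier)
    {η : Op n} (hη : η ∈ N.lie) (hs : IsSelfAdjoint η) :
    ∃ a ∈ L.lie, ∃ b ∈ N.lie, b ∈ perp L.lie ∧ IsSelfAdjoint a ∧ IsSelfAdjoint b ∧ η = a + b ∧
      a * b = b * a := by
  obtain ⟨a, ha, b, hb, hsa, hsb, hab, hcomm⟩ := orth_split (𝔩 := L.lie)
    (fun ξ hξ => RedGrp.star_lie hξ) (fun ξ hξ ζ hζ => RedGrp.bracket_mem hξ hζ) hs
    (fun ζ hζ => QGrp_ideal hn hη hζ)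
  refine ⟨a, ha, b, ?_, hb, hsa, hsb, hab, (hcomm a ha).symm⟩
  have h1 : b = η - a := by
    rw [hab]
    abel
  rw [h1]
  exact N.lie.sub_mem hη (RedGrp.lie_le hL ha)

/-- The polar decomposition in the image. -/
private theorem QGrp_polar (hQ : QRep N L n' π dπ) (hL : L.carrier ⊆ N.carrier)
    (hn : ∀ g ∈ N.carrier, ∀ h : Op n, g * h = 1 → ∀ l ∈ L.carrier, g * l * h ∈ L.carrier)
    {g : Op n} (hg : g ∈ N.carrier) :
    ∃ k ∈ N.K, ∃ b ∈ N.lie, b ∈ perp L.lie ∧ IsSelfAdjoint b ∧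
      π g = π k * NormedSpace.exp (dπ b) := by
  obtain ⟨k, hk, η, hη, hs, rfl⟩ := RedGrp.polar_left hg
  obtain ⟨a, ha, b, hb, hbp, hsa, hsb, hab, hcomm⟩ := lie_split hL hn hη hs
  refine ⟨k, hk, b, hb, hbp, hsb, ?_⟩
  have h1 : NormedSpace.exp η = NormedSpace.exp b * NormedSpace.exp a := by
    rw [hab, add_comm]
    let _ : NormedAlgebra ℚ (Op n) := NormedAlgebra.restrictScalars ℚ ℂ (Op n)
    exact NormedSpace.exp_add_of_commute (show Commute b a from hcomm.symm)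
  have hae : NormedSpace.exp a ∈ L.carrier := RedGrp.exp_mem ha
  have h2 : π (NormedSpace.exp a) = 1 := (hQ.ker _ (hL hae)).2 hae
  have h3 := hQ.exp b hb 1
  rw [one_smul, one_smul] at h3
  rw [h1, hQ.mul _ hk.1 _ (N.mul_mem _ (RedGrp.exp_mem hb) _ (hL hae)),
    hQ.mul _ (RedGrp.exp_mem hb) _ (hL hae), h2, mul_one, h3]

/-- `dπ` is bounded below on the complement of `L.lie`. -/
private theorem QGrp_below (hQ : QRep N L n' π dπ) (hL : L.carrier ⊆ N.carrier) :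
    ∃ C : ℝ, 0 < C ∧ ∀ b ∈ N.lie, b ∈ perp L.lie → ‖b‖ ≤ C * ‖dπ b‖ := by
  obtain ⟨f, hf, hr⟩ := exists_param (N.lie ⊓ perp L.lie)
  have hinj : LinearMap.ker (dπ.comp f).toLinearMap = ⊥ := by
    rw [LinearMap.ker_eq_bot']
    intro v hv
    have h1 : f v ∈ N.lie ⊓ perp L.lie := hr.le ⟨v, rfl⟩
    have h2 : f v ∈ L.lie := (hQ.dker hL h1.1).1 hv
    have h3 : f v ∈ L.lie ⊓ perp L.lie := ⟨h2, h1.2⟩
    rw [perp_inf] at h3
    have h4 : f v = f 0 := by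
      rw [map_zero]
      exact h3
    exact hf h4
  obtain ⟨K, hK, hanti⟩ := LinearMap.exists_antilipschitzWith _ hinj
  refine ⟨(‖f‖ + 1) * K, by positivity, fun b hb hbp => ?_⟩
  obtain ⟨v, rfl⟩ := hr.ge (show b ∈ N.lie ⊓ perp L.lie from ⟨hb, hbp⟩)
  have h1 := hanti.le_mul_dist v 0
  rw [dist_zero_right, map_zero, dist_zero_right] at h1
  have h2 : ‖f v‖ ≤ ‖f‖ * ‖v‖ := f.le_opNorm v
  have h3 : ‖v‖ ≤ K * ‖dπ (f v)‖ := h1
  have h4 : 0 ≤ ‖v‖ := norm_nonneg _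
  have h5 : 0 ≤ ‖f‖ := f.opNorm_nonneg
  calc ‖f v‖ ≤ ‖f‖ * ‖v‖ := h2
    _ ≤ (‖f‖ + 1) * ‖v‖ := by nlinarith
    _ ≤ (‖f‖ + 1) * (K * ‖dπ (f v)‖) := by
        apply mul_le_mul_of_nonneg_left h3
        positivity
    _ = (‖f‖ + 1) * K * ‖dπ (f v)‖ := by ring

/-- The selfadjoint factor is bounded. -/
private theorem QGrp_factor (hQ : QRep N L n' π dπ) {k b : Op n} (hk : k ∈ N.K) (hb : b ∈ N.lie)
    (hsb : IsSelfAdjoint b) {B B' : Op n'} (hB : π k * NormedSpace.exp (dπ b) = B)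
    (hB' : B' * B = 1) {c : ℝ} (h1 : 1 ≤ c) (h2 : ‖B‖ ≤ c) (h3 : ‖B'‖ ≤ c) :
    Real.exp ‖dπ b‖ ≤ c := by
  have hu := hQ.unitary hk
  have hs : IsSelfAdjoint (dπ b) := by
    have h4 := hQ.dstar hb
    rw [hsb.star_eq] at h4
    exact h4.symm
  have hu1 : ‖star (π k)‖ ≤ 1 := QGrp_norm_unitary (Unitary.star_mem hu)
  have hu2 : ‖π k‖ ≤ 1 := QGrp_norm_unitary hu
  refine QGrp_norm_le hs h1 ?_ ?_
  · have h4 : NormedSpace.exp (dπ b) = star (π k) * B := by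
      rw [← hB, ← mul_assoc, Unitary.star_mul_self_of_mem hu, one_mul]
    rw [h4]
    calc ‖star (π k) * B‖ ≤ ‖star (π k)‖ * ‖B‖ := norm_mul_le _ _
      _ ≤ 1 * c := mul_le_mul hu1 h2 (norm_nonneg _) zero_le_one
      _ = c := one_mul c
  · have h4 : NormedSpace.exp (-(dπ b)) = B' * π k := by
      have h5 : B' * (π k * NormedSpace.exp (dπ b)) = 1 := by rw [hB, hB']
      have h6 := (exp_neg_mul_self (dπ b)).2
      calc NormedSpace.exp (-(dπ b))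
          = (B' * (π k * NormedSpace.exp (dπ b))) * NormedSpace.exp (-(dπ b)) := by
            rw [h5, one_mul]
        _ = B' * π k * (NormedSpace.exp (dπ b) * NormedSpace.exp (-(dπ b))) := by
            simp only [mul_assoc]
        _ = B' * π k := by rw [h6, mul_one]
    rw [h4]
    calc ‖B' * π k‖ ≤ ‖B'‖ * ‖π k‖ := norm_mul_le _ _
      _ ≤ c * 1 := mul_le_mul h3 hu2 (norm_nonneg _) (zero_le_one.trans h1)
      _ = c := mul_one c

/-- The image of `N` is closed in `GL`. -/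
theorem QRep.closed (hQ : QRep N L n' π dπ) (hL : L.carrier ⊆ N.carrier)
    (hn : ∀ g ∈ N.carrier, ∀ h : Op n, g * h = 1 → ∀ l ∈ L.carrier, g * l * h ∈ L.carrier)
    (A : Op n') (hA : IsUnit A) (hc : A ∈ closure {g' | ∃ g ∈ N.carrier, π g = g'}) :
    ∃ g ∈ N.carrier, π g = A := by
  have hprop : ProperSpace (Op n) := FiniteDimensional.proper ℂ (Op n)
  obtain ⟨C, hC, hbelow⟩ := QGrp_below hQ hL
  set c : ℝ := max 1 (max (‖A‖ + 1) (‖Ring.inverse A‖ + 1)) with hcdef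
  have hc1 : 1 ≤ c := le_max_left _ _
  -- the compact set
  set S : Set (Op n × Op n) := N.K ×ˢ ({b | b ∈ N.lie} ∩ Metric.closedBall 0 (C * Real.log c))
    with hS
  have hScomp : IsCompact S := by
    refine (RedGrp.K_compact N).prod ?_
    exact (isCompact_closedBall (0 : Op n) _).inter_left
      (Submodule.closed_of_finiteDimensional N.lie)
  set Φ : Op n × Op n → Op n' := fun p => π (p.1 * NormedSpace.exp p.2) with hΦ
  have hexpc : Continuous (NormedSpace.exp : Op n → Op n) := by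
    let _ : NormedAlgebra ℚ (Op n) := NormedAlgebra.restrictScalars ℚ ℂ (Op n)
    exact NormedSpace.exp_continuous
  have hΦc : ContinuousOn Φ S := by
    refine hQ.cont.comp ?_ ?_
    · exact (continuous_fst.mul (hexpc.comp continuous_snd)).continuousOn
    · rintro ⟨k, b⟩ ⟨hk, hb, -⟩
      exact N.mul_mem _ hk.1 _ (RedGrp.exp_mem hb)
  have himg : IsClosed (Φ '' S) := (hScomp.image_of_continuousOn hΦc).isClosed
  -- near `A` the image of `N` is in the compact set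
  have hnear : ∀ᶠ B in 𝓝 A, (∃ g ∈ N.carrier, π g = B) → B ∈ Φ '' S := by
    have e1 : ∀ᶠ B in 𝓝 A, ‖B‖ < ‖A‖ + 1 :=
      (continuous_norm.tendsto A).eventually (gt_mem_nhds (lt_add_one _))
    have e2 : ∀ᶠ B in 𝓝 A, ‖Ring.inverse B‖ < ‖Ring.inverse A‖ + 1 := by
      obtain ⟨u, rfl⟩ := hA
      exact ((NormedRing.inverse_continuousAt u).norm.tendsto).eventually
        (gt_mem_nhds (lt_add_one _))
    filter_upwards [e1, e2] with B hB1 hB2
    rintro ⟨g, hg, hgB⟩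
    obtain ⟨k, hk, b, hb, hbp, hsb, hpol⟩ := QGrp_polar hQ hL hn hg
    obtain ⟨g', hg', h1, h2⟩ := N.inv_mem g hg
    have hinv : π g' * B = 1 := by
      rw [← hgB, ← hQ.mul _ hg' _ hg, h2, hQ.one]
    have hinv' : B * π g' = 1 := by
      rw [← hgB, ← hQ.mul _ hg _ hg', h1, hQ.one]
    have hri : π g' = Ring.inverse B := by
      have hBu : B = ((⟨B, π g', hinv', hinv⟩ : (Op n')ˣ) : Op n') := rfl
      rw [hBu, Ring.inverse_unit]
      rfl
    have h5 : Real.exp ‖dπ b‖ ≤ c := by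
      refine QGrp_factor hQ hk hb hsb (hpol.symm.trans hgB) hinv hc1 ?_ ?_
      · exact hB1.le.trans ((le_max_left _ _).trans (le_max_right _ _))
      · rw [hri]
        exact hB2.le.trans ((le_max_right _ _).trans (le_max_right _ _))
    have h6 : ‖dπ b‖ ≤ Real.log c := by
      rw [Real.le_log_iff_exp_le (lt_of_lt_of_le zero_lt_one hc1)]
      exact h5
    refine ⟨(k, b), ⟨hk, hb, ?_⟩, ?_⟩
    · rw [mem_closedBall_zero_iff]
      exact (hbelow b hb hbp).trans (mul_le_mul_of_nonneg_left h6 hC.le)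
    · have h7 := hQ.exp b hb 1
      rw [one_smul, one_smul] at h7
      change π (k * NormedSpace.exp b) = B
      rw [hQ.mul _ hk.1 _ (RedGrp.exp_mem hb), h7, ← hpol, hgB]
  have hmem : A ∈ Φ '' S := by
    rw [← himg.closure_eq]
    rw [mem_closure_iff_frequently] at hc ⊢
    exact (hc.and_eventually hnear).mono fun B hB => hB.2 hB.1
  obtain ⟨⟨k, b⟩, ⟨hk, hb, -⟩, hkb⟩ := hmem
  exact ⟨k * NormedSpace.exp b, N.mul_mem _ hk.1 _ (RedGrp.exp_mem hb), hkb⟩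

/-- Elements of `N.K` with small image can be replaced by small elements. -/
private theorem QGrp_near_one (hQ : QRep N L n' π dπ) (hL : L.carrier ⊆ N.carrier) {δ : ℝ}
    (hδ : 0 < δ) : ∃ ε > 0, ∀ k ∈ N.K, ‖π k - 1‖ < ε →
      ∃ h ∈ N.K, π h = π k ∧ ‖h - 1‖ < δ := by
  set F : Set (Op n) := N.K ∩ ⋂ l ∈ L.K, {k | δ ≤ ‖k * l - 1‖} with hF
  have hFc : IsCompact F := by
    refine (RedGrp.K_compact N).inter_right ?_
    refine isClosed_biInter fun l _ => ?_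
    exact isClosed_le continuous_const ((continuous_id.mul continuous_const).sub
      continuous_const).norm
  have hcont : ContinuousOn (fun k => ‖π k - 1‖) F :=
    ((hQ.cont.mono fun k hk => hk.1.1).sub continuousOn_const).norm
  have hpos : ∃ ε > 0, ∀ k ∈ F, ε ≤ ‖π k - 1‖ := by
    rcases F.eq_empty_or_nonempty with h0 | h0
    · exact ⟨1, one_pos, fun k hk => by rw [h0] at hk; exact hk.elim⟩
    · obtain ⟨k₀, hk₀, hmin⟩ := hFc.exists_isMinOn h0 hcont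
      refine ⟨‖π k₀ - 1‖, ?_, fun k hk => hmin hk⟩
      rw [gt_iff_lt, norm_pos_iff, sub_ne_zero]
      intro h1
      have h2 : k₀ ∈ L.carrier := (hQ.ker _ hk₀.1.1).1 h1
      have h3 : k₀ ∈ L.K := ⟨h2, hk₀.1.2⟩
      obtain ⟨h4, h5, -⟩ := RedGrp.star_K h3
      have h6 := hk₀.2
      rw [mem_iInter₂] at h6
      have h7 : δ ≤ ‖k₀ * star k₀ - 1‖ := h6 _ h4
      rw [h5, sub_self, norm_zero] at h7
      linarith
  obtain ⟨ε, hε, hεF⟩ := hpos
  refine ⟨ε, hε, fun k hk hk1 => ?_⟩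
  have h1 : k ∉ F := fun h => absurd (hεF k h) (not_le.2 hk1)
  have h2 : ∃ l ∈ L.K, ‖k * l - 1‖ < δ := by
    by_contra hcon
    push Not at hcon
    exact h1 ⟨hk, mem_iInter₂.2 hcon⟩
  obtain ⟨l, hl, hl1⟩ := h2
  refine ⟨k * l, RedGrp.mul_K hk (RedGrp.K_le hL hl), ?_, hl1⟩
  rw [hQ.mul _ hk.1 _ (hL hl.1), (hQ.ker _ (hL hl.1)).2 hl.1, mul_one]

/-- The skew elements of the Lie algebra, as a real subspace. -/
private def QGrp_skew (N : RedGrp n) : Submodule ℝ (Op n) where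
  carrier := {ξ | ξ ∈ N.lie ∧ star ξ = -ξ}
  add_mem' := by
    rintro a b ⟨ha, ha'⟩ ⟨hb, hb'⟩
    refine ⟨N.lie.add_mem ha hb, ?_⟩
    have h1 := star_add a b
    rw [ha', hb'] at h1
    rw [h1]
    abel
  zero_mem' := ⟨N.lie.zero_mem, by
    have h : star (0 : Op n) = 0 := QGrp_star_zero
    rw [h, neg_zero]⟩
  smul_mem' := by
    rintro c a ⟨ha, ha'⟩
    refine ⟨N.lie.smul_mem (c : ℂ) ha, ?_⟩
    change star ((c : ℂ) • a) = -((c : ℂ) • a)
    rw [← QGrp_smul_star, ha', smul_neg]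

private theorem QGrp_skew_iff (ξ : Op n) :
    ξ ∈ QGrp_skew N ↔ ∀ t : ℝ, NormedSpace.exp (t • ξ) ∈ N.K := by
  constructor
  · rintro ⟨h1, h2⟩ t
    refine ⟨(N.lie_iff ξ).1 h1 t, ?_⟩
    have h3 : star (NormedSpace.exp (t • ξ)) = NormedSpace.exp (-(t • ξ)) := by
      rw [star_exp_op]
      congr 1
      change star ((t : ℂ) • ξ) = -((t : ℂ) • ξ)
      rw [← QGrp_smul_star, h2, smul_neg]
    obtain ⟨h4, h5⟩ := exp_neg_mul_self (t • ξ)
    rw [Unitary.mem_iff, h3]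
    exact ⟨h4, h5⟩
  · intro h
    have h1 : ξ ∈ N.lie := (N.lie_iff ξ).2 fun t => (h t).1
    refine ⟨h1, ?_⟩
    apply QGrp_eq_of_exp
    intro t
    have h2 : (t : ℂ) • star ξ = star ((t : ℂ) • ξ) := QGrp_smul_star t ξ
    have h3 : (t : ℂ) • (-ξ) = -((t : ℂ) • ξ) := smul_neg _ _
    rw [h2, h3, ← star_exp_op]
    have h4 : NormedSpace.exp ((t : ℂ) • ξ) ∈ unitary (Op n) := (h t).2
    have h5 := Unitary.star_mul_self_of_mem h4
    have h6 := (exp_neg_mul_self ((t : ℂ) • ξ)).2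
    exact left_inv_eq_right_inv h5 h6

/-- Elements of `N.K` near `1` are exponentials of small skew elements. -/
private theorem QGrp_log_K (N : RedGrp n) {δ : ℝ} (hδ : 0 < δ) :
    ∃ ε > 0, ∀ h ∈ N.K, ‖h - 1‖ < ε →
      ∃ ξ ∈ N.lie, star ξ = -ξ ∧ ‖ξ‖ < δ ∧ h = NormedSpace.exp ξ := by
  have : FiniteDimensional ℝ (Op n) := FiniteDimensional.trans ℝ ℂ (Op n)
  obtain ⟨ε, hε, h⟩ := QGrp_small_log N.K (RedGrp.K_compact N).isClosed RedGrp.one_K
    (fun a ha b hb => RedGrp.mul_K ha hb)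
    (fun a ha => ⟨star a, (RedGrp.star_K ha).1, (RedGrp.star_K ha).2.1, (RedGrp.star_K ha).2.2⟩)
    (QGrp_skew N) QGrp_skew_iff hδ
  refine ⟨ε, hε, fun k hk hk1 => ?_⟩
  obtain ⟨ξ, hξ, hξ1, hξ2⟩ := h k hk hk1
  exact ⟨ξ, hξ.1, hξ.2, hξ1, hξ2⟩

/-- The Lie algebra of the image. -/
theorem QRep.lie_of_exp (hQ : QRep N L n' π dπ) (hL : L.carrier ⊆ N.carrier)
    (hn : ∀ g ∈ N.carrier, ∀ h : Op n, g * h = 1 → ∀ l ∈ L.carrier, g * l * h ∈ L.carrier)
    (ξ' : Op n') (h : ∀ t : ℝ, ∃ g ∈ N.carrier, π g = NormedSpace.exp ((t : ℂ) • ξ')) :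
    ∃ ξ ∈ N.lie, dπ ξ = ξ' := by
  set 𝔪 : Submodule ℂ (Op n') := N.lie.map dπ.toLinearMap with h𝔪
  have hcl : IsClosed (𝔪 : Set (Op n')) := Submodule.closed_of_finiteDimensional 𝔪
  suffices hmem : ξ' ∈ (𝔪 : Set (Op n')) by
    obtain ⟨ξ, hξ, he⟩ := hmem
    exact ⟨ξ, hξ, he⟩
  rw [← hcl.closure_eq, Metric.mem_closure_iff]
  intro ε hε
  have hexpc : Continuous (NormedSpace.exp : Op n' → Op n') := by
    let _ : NormedAlgebra ℚ (Op n') := NormedAlgebra.restrictScalars ℚ ℂ (Op n')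
    exact NormedSpace.exp_continuous
  have hN0 : 0 ≤ ‖ξ'‖ := norm_nonneg _
  -- the constants
  set η : ℝ := min (1 / 2) (ε / (4 * (‖ξ'‖ + 1))) with hη
  have hη0 : 0 < η := lt_min (by norm_num) (by positivity)
  have hη1 : η ≤ 1 / 2 := min_le_left _ _
  have hη2 : 4 * η * ‖ξ'‖ < ε := by
    have h1 : η ≤ ε / (4 * (‖ξ'‖ + 1)) := min_le_right _ _
    rw [le_div_iff₀ (by positivity)] at h1
    nlinarith
  obtain ⟨ρ, hρ, hρ'⟩ : ∃ ρ > 0, ∀ p q : Op n', ‖p‖ < ρ → ‖q‖ < ρ →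
      ‖NormedSpace.exp p * NormedSpace.exp q - 1 - (p + q)‖ ≤ η * max ‖p‖ ‖q‖ := by
    have h1 := (QGrp_exp_mul (A := Op n')).def hη0
    obtain ⟨ρ, hρ, h2⟩ := Metric.eventually_nhds_iff_ball.1 h1
    refine ⟨ρ, hρ, fun p q hp hq => ?_⟩
    have h3 := h2 (p, q) (by
      rw [mem_ball_zero_iff, Prod.norm_def]
      exact max_lt hp hq)
    rwa [Prod.norm_def] at h3
  obtain ⟨δ, hδ, hδ'⟩ : ∃ δ > 0, ∀ ζ : Op n, ‖ζ‖ < δ → ‖dπ ζ‖ < ρ := by
    have h1 : Filter.Tendsto (fun ζ => ‖dπ ζ‖) (𝓝 0) (𝓝 0) := by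
      have := dπ.continuous.norm.tendsto 0
      simpa using this
    obtain ⟨δ, hδ, h2⟩ := Metric.eventually_nhds_iff_ball.1 (h1.eventually (gt_mem_nhds hρ))
    exact ⟨δ, hδ, fun ζ hζ => h2 ζ (by simpa using hζ)⟩
  obtain ⟨ε₂, hε₂, hlog⟩ := QGrp_log_K N hδ
  obtain ⟨ε₁, hε₁, hone⟩ := QGrp_near_one hQ hL hε₂
  obtain ⟨ρ₁, hρ₁, hρ₁'⟩ : ∃ ρ₁ > 0, ∀ x w : Op n', ‖x‖ < ρ₁ → ‖w‖ < ρ₁ →
      ‖NormedSpace.exp x * NormedSpace.exp (-w) - 1‖ < ε₁ := by
    have h1 : Continuous fun x : Op n' × Op n' =>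
        ‖NormedSpace.exp x.1 * NormedSpace.exp (-x.2) - 1‖ :=
      (((hexpc.comp continuous_fst).mul (hexpc.comp continuous_snd.neg)).sub
        continuous_const).norm
    have h2 := h1.tendsto (0 : Op n' × Op n')
    have h3 : ‖NormedSpace.exp ((0 : Op n' × Op n').1)
        * NormedSpace.exp (-(0 : Op n' × Op n').2) - 1‖ = 0 := by
      rw [Prod.fst_zero, Prod.snd_zero, neg_zero, NormedSpace.exp_zero, mul_one, sub_self,
        norm_zero]
    rw [h3] at h2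
    obtain ⟨ρ₁, hρ₁, h4⟩ := Metric.eventually_nhds_iff_ball.1 (h2.eventually (gt_mem_nhds hε₁))
    refine ⟨ρ₁, hρ₁, fun x w hx hw => h4 (x, w) ?_⟩
    rw [mem_ball_zero_iff, Prod.norm_def]
    exact max_lt hx hw
  -- the time
  have hmin : 0 < min ρ ρ₁ := lt_min hρ hρ₁
  have hcurve : Continuous fun t : ℝ => (t : ℂ) • ξ' :=
    Complex.continuous_ofReal.smul continuous_const
  have hz : ((0 : ℝ) : ℂ) • ξ' = 0 := by
    rw [Complex.ofReal_zero]
    exact zero_smul ℂ ξ'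
  have h11 : ‖(1 : Op n')‖ ≤ 1 := QGrp_norm_unitary (Submonoid.one_mem _)
  have E1 : ∀ᶠ t : ℝ in 𝓝 (0 : ℝ), ‖(t : ℂ) • ξ'‖ < min ρ ρ₁ := by
    have h1 := hcurve.norm.tendsto 0
    rw [hz, norm_zero] at h1
    exact h1.eventually (gt_mem_nhds hmin)
  have E2 : ∀ᶠ t : ℝ in 𝓝 (0 : ℝ), max 1 (max ‖NormedSpace.exp ((t : ℂ) • ξ')‖
      ‖NormedSpace.exp (-((t : ℂ) • ξ'))‖) < Real.exp (min ρ ρ₁) := by
    have h1 : Continuous fun t : ℝ => max (1 : ℝ) (max ‖NormedSpace.exp ((t : ℂ) • ξ')‖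
      ‖NormedSpace.exp (-((t : ℂ) • ξ'))‖) :=
      continuous_const.max ((hexpc.comp hcurve).norm.max (hexpc.comp hcurve.neg).norm)
    have h2 := h1.tendsto 0
    refine h2.eventually (gt_mem_nhds ?_)
    rw [hz, neg_zero, NormedSpace.exp_zero, max_self, max_eq_left h11]
    exact Real.one_lt_exp_iff.2 hmin
  have E3 : ∀ᶠ t : ℝ in 𝓝[>] (0 : ℝ), 0 < t := eventually_mem_nhdsWithin
  obtain ⟨t, ht0, ht1, ht2⟩ :=
    (E3.and ((E1.filter_mono nhdsWithin_le_nhds).and (E2.filter_mono nhdsWithin_le_nhds))).exists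
  obtain ⟨g, hg, hgt⟩ := h t
  obtain ⟨k, hk, b, hb, hbp, hsb, hpol⟩ := QGrp_polar hQ hL hn hg
  set B := NormedSpace.exp ((t : ℂ) • ξ') with hB
  set B' := NormedSpace.exp (-((t : ℂ) • ξ')) with hB'
  have hBB : B' * B = 1 := (exp_neg_mul_self _).1
  have hkB : π k * NormedSpace.exp (dπ b) = B := by rw [← hpol, hgt]
  set p₂ := dπ b with hp₂
  have hq1 : ‖p₂‖ < min ρ ρ₁ := by
    have h1 : Real.exp ‖p₂‖ ≤ max 1 (max ‖B‖ ‖B'‖) :=
      QGrp_factor hQ hk hb hsb hkB hBB (le_max_left _ _)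
        ((le_max_left _ _).trans (le_max_right _ _)) ((le_max_right _ _).trans (le_max_right _ _))
    exact Real.exp_lt_exp.1 (h1.trans_lt ht2)
  have hk1 : ‖π k - 1‖ < ε₁ := by
    have h1 : π k = B * NormedSpace.exp (-p₂) := by
      rw [← hkB, mul_assoc, (exp_neg_mul_self p₂).2, mul_one]
    rw [h1, hB]
    exact hρ₁' _ _ (ht1.trans_le (min_le_right _ _)) (hq1.trans_le (min_le_right _ _))
  obtain ⟨k₁, hk₁, hk₁π, hk₁1⟩ := hone k hk hk1
  obtain ⟨ζ, hζ, hζs, hζδ, hζe⟩ := hlog k₁ hk₁ hk₁1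
  set p₁ := dπ ζ with hp₁
  have hp1 : ‖p₁‖ < ρ := hδ' ζ hζδ
  have heq : NormedSpace.exp p₁ * NormedSpace.exp p₂ = B := by
    have h1 := hQ.exp ζ hζ 1
    rw [one_smul, one_smul, ← hζe, hk₁π] at h1
    rw [← h1, hkB]
  -- adjoints
  have hs1 : star p₁ = -p₁ := by
    rw [hp₁, ← hQ.dstar hζ, hζs, map_neg]
  have hs2 : star p₂ = p₂ := by
    rw [hp₂, ← hQ.dstar hb, hsb.star_eq]
  set s := p₁ + p₂ with hs
  obtain ⟨hn1, hn2⟩ := QGrp_parts hs1 hs2
  -- the estimates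
  have e1 : ‖B - 1 - s‖ ≤ η * ‖s‖ := by
    have h1 := hρ' p₁ p₂ hp1 (hq1.trans_le (min_le_left _ _))
    rw [heq] at h1
    exact h1.trans (mul_le_mul_of_nonneg_left (max_le hn1 hn2) hη0.le)
  have htn : ‖(t : ℂ) • ξ'‖ = t * ‖ξ'‖ := by
    rw [norm_smul, Complex.norm_real, Real.norm_of_nonneg ht0.le]
  have e2 : ‖B - 1 - (t : ℂ) • ξ'‖ ≤ η * (t * ‖ξ'‖) := by
    have h1 := hρ' ((t : ℂ) • ξ') 0 (ht1.trans_le (min_le_left _ _)) (by rwa [norm_zero])
    rw [NormedSpace.exp_zero, mul_one, add_zero, norm_zero, htn,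
      max_eq_left (by positivity)] at h1
    exact h1
  have e3 : ‖(t : ℂ) • ξ' - s‖ ≤ η * (t * ‖ξ'‖) + η * ‖s‖ := by
    have h1 : (t : ℂ) • ξ' - s = (B - 1 - s) - (B - 1 - (t : ℂ) • ξ') := by abel
    rw [h1]
    refine (norm_sub_le _ _).trans ?_
    linarith
  have e4 : ‖s‖ ≤ 3 * (t * ‖ξ'‖) := by
    have h1 : ‖s‖ ≤ ‖(t : ℂ) • ξ'‖ + ‖(t : ℂ) • ξ' - s‖ := by
      have := norm_sub_le ((t : ℂ) • ξ') ((t : ℂ) • ξ' - s)
      rwa [sub_sub_cancel] at this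
    rw [htn] at h1
    have h2 : 0 ≤ ‖s‖ := norm_nonneg _
    have h3 : 0 ≤ t * ‖ξ'‖ := by positivity
    nlinarith
  have e5 : ‖(t : ℂ) • ξ' - s‖ ≤ t * (4 * η * ‖ξ'‖) := by
    refine e3.trans ?_
    have h1 := mul_le_mul_of_nonneg_left e4 hη0.le
    linarith
  refine ⟨((t : ℂ)⁻¹) • s, ?_, ?_⟩
  · refine ⟨((t : ℂ)⁻¹) • (ζ + b), N.lie.smul_mem _ (N.lie.add_mem hζ hb), ?_⟩
    change dπ (((t : ℂ)⁻¹) • (ζ + b)) = _
    rw [map_smul, map_add]
  · rw [dist_eq_norm]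
    have ht0' : (t : ℂ) ≠ 0 := by exact_mod_cast ht0.ne'
    have h1 : ξ' - ((t : ℂ)⁻¹) • s = ((t : ℂ)⁻¹) • ((t : ℂ) • ξ' - s) := by
      rw [smul_sub, smul_smul, inv_mul_cancel₀ ht0', one_smul]
    have h2 : ‖((t : ℂ)⁻¹)‖ = t⁻¹ := by
      rw [norm_inv, Complex.norm_real, Real.norm_of_nonneg ht0.le]
    rw [h1, norm_smul, h2]
    calc t⁻¹ * ‖(t : ℂ) • ξ' - s‖ ≤ t⁻¹ * (t * (4 * η * ‖ξ'‖)) :=
          mul_le_mul_of_nonneg_left e5 (by positivity)
      _ = 4 * η * ‖ξ'‖ := by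
          rw [← mul_assoc, inv_mul_cancel₀ ht0.ne', one_mul]
      _ < ε := hη2

theorem exists_QGrp (hQ : QRep N L n' π dπ) (hL : L.carrier ⊆ N.carrier)
    (hn : ∀ g ∈ N.carrier, ∀ h : Op n, g * h = 1 → ∀ l ∈ L.carrier, g * l * h ∈ L.carrier) :
    ∃ M : RedGrp n', IsQ N M π dπ := by
  have hcexp : ∀ ξ ∈ N.lie, ∀ t : ℝ,
      π (NormedSpace.exp ((t : ℂ) • ξ)) = NormedSpace.exp ((t : ℂ) • dπ ξ) :=
    fun ξ hξ t => hQ.exp ξ hξ t
  refine ⟨{
    carrier := {g' | ∃ g ∈ N.carrier, π g = g'}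
    lie := N.lie.map dπ.toLinearMap
    one_mem := ⟨1, N.one_mem, hQ.one⟩
    mul_mem := ?_
    inv_mem := ?_
    closed := fun A hA hc => hQ.closed hL hn A hA hc
    lie_iff := ?_
    polar := ?_ }, ⟨fun g' => Iff.rfl, ?_⟩⟩
  · rintro _ ⟨g, hg, rfl⟩ _ ⟨h, hh, rfl⟩
    exact ⟨g * h, N.mul_mem _ hg _ hh, hQ.mul _ hg _ hh⟩
  · rintro _ ⟨g, hg, rfl⟩
    obtain ⟨h, hh, h1, h2⟩ := N.inv_mem g hg
    refine ⟨π h, ⟨h, hh, rfl⟩, ?_, ?_⟩
    · rw [← hQ.mul _ hg _ hh, h1, hQ.one]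
    · rw [← hQ.mul _ hh _ hg, h2, hQ.one]
  · intro ξ'
    constructor
    · rintro ⟨ξ, hξ, rfl⟩ t
      exact ⟨_, RedGrp.exp_smul_mem hξ t, hcexp ξ hξ t⟩
    · intro h
      obtain ⟨ξ, hξ, he⟩ := hQ.lie_of_exp hL hn ξ' h
      exact ⟨ξ, hξ, he⟩
  · rintro _ ⟨g, hg, rfl⟩
    obtain ⟨k, hk, η, hη, hs, rfl⟩ := RedGrp.polar_left hg
    refine ⟨π k, ⟨k, hk.1, rfl⟩, dπ η, ⟨η, hη, rfl⟩, hQ.unitary hk, ?_, ?_⟩
    · have h1 := hQ.dstar hη
      rw [hs.star_eq] at h1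
      exact h1.symm
    · have h1 := hQ.exp η hη 1
      rw [one_smul, one_smul] at h1
      rw [hQ.mul _ hk.1 _ (RedGrp.exp_mem hη), h1]
  · intro ξ'
    exact Iff.rfl

theorem IsQ.K_iff (hM : IsQ N M π dπ) (hQ : QRep N L n' π dπ) (hL : L.carrier ⊆ N.carrier)
    (k' : Op n') : k' ∈ M.K ↔ ∃ k ∈ N.K, π k = k' := by
  constructor
  · rintro ⟨h1, h2⟩
    obtain ⟨g, hg, rfl⟩ := (hM.car k').1 h1
    obtain ⟨k, hk, η, hη, hs, rfl⟩ := RedGrp.polar_left hg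
    refine ⟨k, hk, ?_⟩
    have h3 := hQ.exp η hη 1
    rw [one_smul, one_smul] at h3
    rw [hQ.mul _ hk.1 _ (RedGrp.exp_mem hη), h3] at h2 ⊢
    have hsη : IsSelfAdjoint (dπ η) := by
      have h4 := hQ.dstar hη
      rw [hs.star_eq] at h4
      exact h4.symm
    have h0 : IsSelfAdjoint (0 : Op n') := by
      have h : star (0 : Op n') = 0 := QGrp_star_zero
      exact h
    have h5 := polar_unique (hQ.unitary hk) h2 hsη h0 (by
      rw [NormedSpace.exp_zero, mul_one])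
    exact h5.1
  · rintro ⟨k, hk, rfl⟩
    exact ⟨(hM.car _).2 ⟨k, hk.1, rfl⟩, hQ.unitary hk⟩

/-- The preimage in `N` of a reductive subgroup of `M`. -/
theorem exists_preimage (hM : IsQ N M π dπ) (hQ : QRep N L n' π dπ) (hL : L.carrier ⊆ N.carrier)
    (H' : RedGrp n') (hH : H'.carrier ⊆ M.carrier) :
    ∃ H : RedGrp n, H.carrier ⊆ N.carrier ∧ L.carrier ⊆ H.carrier ∧
      ∀ g, g ∈ H.carrier ↔ g ∈ N.carrier ∧ π g ∈ H'.carrier := by
  refine ⟨{
    carrier := {g | g ∈ N.carrier ∧ π g ∈ H'.carrier}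
    lie := N.lie ⊓ H'.lie.comap dπ.toLinearMap
    one_mem := ⟨N.one_mem, by rw [hQ.one]; exact H'.one_mem⟩
    mul_mem := ?_
    inv_mem := ?_
    closed := ?_
    lie_iff := ?_
    polar := ?_ }, fun g hg => hg.1, ?_, fun g => Iff.rfl⟩
  · rintro g ⟨hg, hg'⟩ h ⟨hh, hh'⟩
    exact ⟨N.mul_mem _ hg _ hh, by rw [hQ.mul _ hg _ hh]; exact H'.mul_mem _ hg' _ hh'⟩
  · rintro g ⟨hg, hg'⟩
    obtain ⟨h, hh, h1, h2⟩ := N.inv_mem g hg
    refine ⟨h, ⟨hh, ?_⟩, h1, h2⟩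
    have h3 : π g * π h = 1 := by rw [← hQ.mul _ hg _ hh, h1, hQ.one]
    exact (RedGrp.inv_mem' hg' h3).1
  · intro g hu hc
    have hgN : g ∈ N.carrier := N.closed g hu (closure_mono (fun g hg => hg.1) hc)
    refine ⟨hgN, ?_⟩
    obtain ⟨h, hh, h1, h2⟩ := N.inv_mem g hgN
    have h3 : π g * π h = 1 := by rw [← hQ.mul _ hgN _ hh, h1, hQ.one]
    have h4 : π h * π g = 1 := by rw [← hQ.mul _ hh _ hgN, h2, hQ.one]
    refine H'.closed (π g) ⟨⟨π g, π h, h3, h4⟩, rfl⟩ ?_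
    have h5 : ContinuousWithinAt π {g | g ∈ N.carrier ∧ π g ∈ H'.carrier} g :=
      (hQ.cont g hgN).mono fun g hg => hg.1
    exact closure_mono (by rintro _ ⟨x, hx, rfl⟩; exact hx.2) (h5.mem_closure_image hc)
  · intro ξ
    constructor
    · rintro ⟨h1, h2⟩ t
      refine ⟨RedGrp.exp_smul_mem h1 t, ?_⟩
      rw [hQ.exp ξ h1 t]
      exact RedGrp.exp_smul_mem h2 t
    · intro h
      have h1 : ξ ∈ N.lie := (N.lie_iff ξ).2 fun t => (h t).1
      refine ⟨h1, ?_⟩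
      change dπ ξ ∈ H'.lie
      rw [H'.lie_iff]
      intro t
      rw [← hQ.exp ξ h1 t]
      exact (h t).2
  · rintro g ⟨hg, hg'⟩
    obtain ⟨k, hk, η, hη, hs, rfl⟩ := RedGrp.polar_left hg
    have h3 := hQ.exp η hη 1
    rw [one_smul, one_smul] at h3
    rw [hQ.mul _ hk.1 _ (RedGrp.exp_mem hη), h3] at hg'
    obtain ⟨k', hk', η', hη', hs', he⟩ := RedGrp.polar_left hg'
    have hsη : IsSelfAdjoint (dπ η) := by
      have h4 := hQ.dstar hη
      rw [hs.star_eq] at h4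
      exact h4.symm
    obtain ⟨h5, h6⟩ := polar_unique (hQ.unitary hk) hk'.2 hsη hs' he
    refine ⟨k, ⟨hk.1, ?_⟩, η, ⟨hη, ?_⟩, hk.2, hs, rfl⟩
    · rw [h5]
      exact hk'.1
    · change dπ η ∈ H'.lie
      rw [h6]
      exact hη'
  · intro l hl
    refine ⟨hL hl, ?_⟩
    rw [(hQ.ker _ (hL hl)).2 hl]
    exact H'.one_mem

end EqOka
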