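import Pool.Agent.Lib.MP_fe51c6_an_EO.KerOne

/-! A representation of `N` with kernel `L`. -/

open scoped Topology
open Set

noncomputable section

namespace EqOka

variable {n : ℕ} {N L : RedGrp n}

/-- `π` is a holomorphic representation of `N` on `ℂ^n'` compatible with adjoints, with kernel `L`;
`dπ` is its derivative. -/
structure QRep {n : ℕ} (N L : RedGrp n) (n' : ℕ) (π : Op n → Op n') (dπ : Op n →L[ℂ] Op n') :
    Prop where
  one : π 1 = 1
  mul : ∀ g ∈ N.carrier, ∀ h ∈ N.carrier, π (g * h) = π g * π h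
  ker : ∀ g ∈ N.carrier, π g = 1 ↔ g ∈ L.carrier
  adj : ∀ g ∈ N.carrier, π (star g) = star (π g)
  exp : ∀ ξ ∈ N.lie, ∀ z : ℂ, π (NormedSpace.exp (z • ξ)) = NormedSpace.exp (z • dπ ξ)
  cont : ContinuousOn π N.carrier

section QRepAux

variable {E : Type} [NormedAddCommGroup E] [NormedSpace ℂ E] [CompleteSpace E]

private theorem QRep_deriv (T : E →L[ℂ] E) (v : E) (z : ℂ) :
    HasDerivAt (fun z : ℂ => NormedSpace.exp (z • T) v) (NormedSpace.exp (z • T) (T v)) z := by
  have h1 : HasDerivAt (fun z : ℂ => NormedSpace.exp (z • T)) (NormedSpace.exp (z • T) * T) z :=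
    hasDerivAt_exp_smul_const (𝕂 := ℂ) T z
  have h2 := (ContinuousLinearMap.apply ℂ E v).hasFDerivAt.comp_hasDerivAt z h1
  exact h2

private theorem QRep_fix (T : E →L[ℂ] E) (v : E) (hT : T v = 0) (z : ℂ) :
    NormedSpace.exp (z • T) v = v := by
  have hd : ∀ z : ℂ, HasDerivAt (fun z : ℂ => NormedSpace.exp (z • T) v) 0 z := by
    intro z
    have h := QRep_deriv T v z
    rwa [hT, map_zero] at h
  have h1 := is_const_of_deriv_eq_zero (fun z => (hd z).differentiableAt)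
    (fun z => (hd z).deriv) z 0
  rw [h1, zero_smul, NormedSpace.exp_zero]
  rfl

private theorem QRep_ker (T : E →L[ℂ] E) (v : E)
    (h : ∀ s : ℝ, NormedSpace.exp (((s : ℂ) * Complex.I) • T) v = v) : T v = 0 := by
  have h1 : HasDerivAt (fun z : ℂ => NormedSpace.exp (z • T) v) (T v) ((0 : ℝ) * Complex.I : ℂ) := by
    have h2 := QRep_deriv T v ((0 : ℝ) * Complex.I : ℂ)
    rw [Complex.ofReal_zero, zero_mul, zero_smul, NormedSpace.exp_zero] at h2
    rw [Complex.ofReal_zero, zero_mul]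
    exact h2
  have h3 : HasDerivAt (fun s : ℝ => (s : ℂ) * Complex.I) Complex.I (0 : ℝ) := by
    have h4 := (Complex.ofRealCLM.hasDerivAt (x := (0 : ℝ))).mul_const Complex.I
    simpa using h4
  have h5 := HasDerivAt.scomp (0 : ℝ) h1 h3
  have h6 : (fun z : ℂ => NormedSpace.exp (z • T) v) ∘ (fun s : ℝ => (s : ℂ) * Complex.I) =
      fun _ => v := funext h
  rw [h6] at h5
  have h7 : Complex.I • T v = 0 := h5.unique (hasDerivAt_const _ _)
  exact (smul_eq_zero.1 h7).resolve_left Complex.I_ne_zero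

end QRepAux

section QRepAux2

variable {A : Type*} [NormedRing A] [NormedAlgebra ℂ A] [CompleteSpace A]

private theorem QRep_deriv0 (X : A) :
    HasDerivAt (fun z : ℂ => NormedSpace.exp (z • X)) X 0 := by
  have h2 := hasDerivAt_exp_smul_const (𝕂 := ℂ) X (0 : ℂ)
  rw [zero_smul, NormedSpace.exp_zero, one_mul] at h2
  exact h2

private theorem QRep_expz (z : ℂ) : NormedSpace.exp (z • (0 : A)) = 1 := by
  rw [smul_zero, NormedSpace.exp_zero]

private theorem QRep_zero {A : Type*} [CStarAlgebra A] : IsSelfAdjoint (0 : A) :=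
  IsSelfAdjoint.zero A

private theorem QRep_inj (X Y : A)
    (h : ∀ t : ℝ, NormedSpace.exp ((t : ℂ) • X) = NormedSpace.exp ((t : ℂ) • Y)) : X = Y := by
  have key : ∀ X : A, HasDerivAt (fun t : ℝ => NormedSpace.exp ((t : ℂ) • X)) X (0 : ℝ) := by
    intro X
    have h1 : HasDerivAt (fun z : ℂ => NormedSpace.exp (z • X)) X ((0 : ℝ) : ℂ) := by
      have h2 := hasDerivAt_exp_smul_const (𝕂 := ℂ) X ((0 : ℝ) : ℂ)
      rw [Complex.ofReal_zero, zero_smul, NormedSpace.exp_zero, one_mul] at h2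
      rw [Complex.ofReal_zero]
      exact h2
    have h3 := HasDerivAt.scomp (0 : ℝ) h1 (Complex.ofRealCLM.hasDerivAt (x := (0 : ℝ)))
    simpa [Function.comp_def] using h3
  have h4 := key X
  have h5 : (fun t : ℝ => NormedSpace.exp ((t : ℂ) • X)) =
      fun t : ℝ => NormedSpace.exp ((t : ℂ) • Y) := funext h
  rw [h5] at h4
  exact h4.unique (key Y)

end QRepAux2

/-- The fixed vectors of `L_K` are fixed by `L`, and form an `N`-invariant subspace. -/
theorem fixV_invariant (hL : L.carrier ⊆ N.carrier)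
    (hn : ∀ g ∈ N.carrier, ∀ h : Op n, g * h = 1 → ∀ l ∈ L.carrier, g * l * h ∈ L.carrier) (k : ℕ) :
    (∀ l ∈ L.carrier, ∀ v ∈ fixV k L.K, ptO k l v = v) ∧
      ∀ g ∈ N.carrier, ∀ v ∈ fixV k L.K, ptO k g v ∈ fixV k L.K := by
  have h1 : ∀ l ∈ L.carrier, ∀ v ∈ fixV k L.K, ptO k l v = v := by
    intro l hl v hv
    obtain ⟨k₀, hk₀, η, hη, hs, rfl⟩ := RedGrp.polar_left hl
    obtain ⟨D, hD⟩ := exists_dpt (n := n) k
    have h2 : D η v = 0 := by
      refine QRep_ker (D η) v fun s => ?_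
      rw [← hD]
      exact hv _ (RedGrp.exp_I_K hη hs s)
    have h3 : ptO k (NormedSpace.exp η) v = v := by
      have h4 := hD η 1
      rw [one_smul] at h4
      rw [h4]
      exact QRep_fix (D η) v h2 1
    rw [ptO_mul k (RedGrp.isUnit hk₀.1) (RedGrp.isUnit (RedGrp.exp_mem hη))]
    change ptO k k₀ (ptO k (NormedSpace.exp η) v) = v
    rw [h3]
    exact hv _ hk₀
  refine ⟨h1, fun g hg v hv l hl => ?_⟩
  obtain ⟨h, hh, hgh, hhg⟩ := N.inv_mem g hg
  have h2 : h * l * g ∈ L.carrier := hn h hh g hhg l hl.1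
  have h3 : l * g = g * (h * l * g) := by
    rw [← mul_assoc, ← mul_assoc, hgh, one_mul]
  have h4 : ptO k l (ptO k g v) = ptO k (l * g) v := by
    rw [ptO_mul k (RedGrp.isUnit hl.1) (RedGrp.isUnit hg)]
    rfl
  rw [h4, h3, ptO_mul k (RedGrp.isUnit hg) (RedGrp.isUnit h2)]
  change ptO k g (ptO k (h * l * g) v) = ptO k g v
  rw [h1 _ h2 v hv]

/-- An isometric parametrisation of a subspace of a tensor power. -/
theorem exists_isometry (k : ℕ) (W : Submodule ℂ (Tk n k)) :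
    ∃ (m : ℕ) (ι : Cd m →L[ℂ] Tk n k) (p : Tk n k →L[ℂ] Cd m), (∀ v, ‖ι v‖ = ‖v‖) ∧
      LinearMap.range (ι : Cd m →ₗ[ℂ] Tk n k) = W ∧ (∀ v, p (ι v) = v) ∧
      (∀ v ∈ W, ι (p v) = v) ∧ ∀ v u, inner ℂ (p v) u = inner ℂ v (ι u) := by
  let b := stdOrthonormalBasis ℂ W
  let j : Cd (Module.finrank ℂ W) →ₗᵢ[ℂ] Tk n k :=
    W.subtypeₗᵢ.comp b.repr.symm.toLinearIsometry
  let ι : Cd (Module.finrank ℂ W) →L[ℂ] Tk n k := j.toContinuousLinearMap
  have hιj : ∀ v, ι v = j v := fun _ => rfl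
  let p : Tk n k →L[ℂ] Cd (Module.finrank ℂ W) := ContinuousLinearMap.adjoint ι
  have hp : ∀ v u, inner ℂ (p v) u = inner ℂ v (ι u) := fun v u =>
    ContinuousLinearMap.adjoint_inner_left ι u v
  have hpι : ∀ v, p (ι v) = v := by
    intro v
    refine ext_inner_right ℂ fun u => ?_
    rw [hp, hιj, hιj, j.inner_map_map]
  have hr : LinearMap.range (ι : Cd (Module.finrank ℂ W) →ₗ[ℂ] Tk n k) = W := by
    ext w
    constructor
    · rintro ⟨v, rfl⟩
      exact (b.repr.symm v).2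
    · intro hw
      refine ⟨b.repr ⟨w, hw⟩, ?_⟩
      change ((b.repr.symm (b.repr ⟨w, hw⟩) : W) : Tk n k) = w
      rw [LinearIsometryEquiv.symm_apply_apply]
  refine ⟨Module.finrank ℂ W, ι, p, fun v => j.norm_map v, hr, hpι, fun v hv => ?_, hp⟩
  rw [← hr] at hv
  obtain ⟨u, rfl⟩ := hv
  change ι (p (ι u)) = ι u
  rw [hpι]

theorem exists_QRep (hL : L.carrier ⊆ N.carrier)
    (hn : ∀ g ∈ N.carrier, ∀ h : Op n, g * h = 1 → ∀ l ∈ L.carrier, g * l * h ∈ L.carrier) :
    ∃ (n' : ℕ) (π : Op n → Op n') (dπ : Op n →L[ℂ] Op n'), QRep N L n' π dπ := by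
  obtain ⟨k, hk⟩ := exists_single hL
  obtain ⟨hLf, hNi⟩ := fixV_invariant hL hn k
  obtain ⟨m, ι, p, -, hr, hpι, hιp, hin⟩ := exists_isometry (n := n) k (fixV k L.K)
  obtain ⟨D, hD⟩ := exists_dpt (n := n) k
  have hιm : ∀ v, ι v ∈ fixV k L.K := fun v => hr.le ⟨v, rfl⟩
  let Φ : (Tk n k →L[ℂ] Tk n k) →L[ℂ] Op m :=
    (ContinuousLinearMap.compL ℂ (Cd m) (Tk n k) (Cd m) p).comp
      ((ContinuousLinearMap.compL ℂ (Cd m) (Tk n k) (Tk n k)).flip ι)
  have hΦ : ∀ A v, Φ A v = p (A (ι v)) := fun _ _ => rfl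
  let π : Op n → Op m := fun g => Φ (ptO k g)
  let dπ : Op n →L[ℂ] Op m := Φ.comp D
  have hπ : ∀ g v, π g v = p (ptO k g (ι v)) := fun _ _ => rfl
  have hιπ : ∀ g ∈ N.carrier, ∀ v, ι (π g v) = ptO k g (ι v) := fun g hg v =>
    hιp _ (hNi g hg _ (hιm v))
  have hone : π 1 = 1 := by
    ext1 v
    rw [hπ, ptO_one]
    exact hpι v
  have hmul : ∀ g ∈ N.carrier, ∀ h ∈ N.carrier, π (g * h) = π g * π h := by
    intro g hg h hh
    ext1 v
    change π (g * h) v = π g (π h v)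
    rw [hπ g, hιπ h hh, hπ, ptO_mul k (RedGrp.isUnit hg) (RedGrp.isUnit hh)]
    rfl
  have hadj : ∀ g ∈ N.carrier, π (star g) = star (π g) := by
    intro g hg
    ext1 v
    refine ext_inner_right ℂ fun u => ?_
    have h1 : inner ℂ (star (π g) v) u = inner ℂ v (π g u) :=
      ContinuousLinearMap.adjoint_inner_left (π g) u v
    have h2 : inner ℂ (star (ptO k g) (ι v)) (ι u) = inner ℂ (ι v) (ptO k g (ι u)) :=
      ContinuousLinearMap.adjoint_inner_left (ptO k g) (ι u) (ι v)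
    have h3 : inner ℂ v (π g u) = inner ℂ (ι v) (ptO k g (ι u)) := by
      rw [← inner_conj_symm, hπ, hin, inner_conj_symm]
    rw [h1, h3, ← h2, hπ, ptO_star k (RedGrp.isUnit hg), hin]
  have hexp : ∀ ξ ∈ N.lie, ∀ z : ℂ,
      π (NormedSpace.exp (z • ξ)) = NormedSpace.exp (z • dπ ξ) := by
    intro ξ hξ z
    refine eq_exp_of_hasDerivAt (fun z => π (NormedSpace.exp (z • ξ))) (dπ ξ) ?_ ?_ ?_ z
    · have h0 : ((0 : ℂ) • ξ : Op n) = 0 := zero_smul ℂ ξ
      change π (NormedSpace.exp ((0 : ℂ) • ξ)) = 1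
      rw [h0, NormedSpace.exp_zero, hone]
    · intro z w
      change π (NormedSpace.exp ((z + w) • ξ)) = _
      rw [exp_add_smul, hmul _ (RedGrp.exp_smul_mem hξ z) _ (RedGrp.exp_smul_mem hξ w)]
    · have h1 : HasDerivAt (fun z : ℂ => NormedSpace.exp (z • D ξ)) (D ξ) 0 :=
        QRep_deriv0 (D ξ)
      have h3 := Φ.hasFDerivAt.comp_hasDerivAt (0 : ℂ) h1
      have h4 : (fun z : ℂ => π (NormedSpace.exp (z • ξ))) =
          Φ ∘ fun z : ℂ => NormedSpace.exp (z • D ξ) := by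
        funext z
        change Φ (ptO k (NormedSpace.exp (z • ξ))) = Φ (NormedSpace.exp (z • D ξ))
        rw [hD]
      rw [h4]
      exact h3
  have hfix : ∀ g ∈ N.K, π g = 1 → g ∈ L.K := by
    intro g hg h1
    refine hk g hg fun v hv => ?_
    have h2 := hιπ g hg.1 (p v)
    rw [h1, hιp v hv] at h2
    change ι (p v) = _ at h2
    rw [hιp v hv] at h2
    exact h2.symm
  refine ⟨m, π, dπ, ⟨hone, hmul, ?_, hadj, hexp, ?_⟩⟩
  · intro g hg
    constructor
    · intro h1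
      obtain ⟨k₀, hk₀, η, hη, hs, rfl⟩ := RedGrp.polar_left hg
      have he : π (NormedSpace.exp η) = NormedSpace.exp (dπ η) := by
        have h2 := hexp η hη 1
        rwa [one_smul, one_smul] at h2
      have hsa : IsSelfAdjoint (dπ η) := by
        refine QRep_inj (star (dπ η)) (dπ η) fun t => ?_
        have h2 := hadj _ (RedGrp.exp_smul_mem hη (t : ℂ))
        rw [(exp_isSelfAdjoint hs t).star_eq, hexp η hη, star_exp_op] at h2
        rw [h2]
        congr 1
        rw [star_smul]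
        congr 1
        exact (Complex.conj_ofReal t).symm
      have hu : π k₀ ∈ unitary (Op m) := by
        obtain ⟨hsk, hk1, hk2⟩ := RedGrp.star_K hk₀
        rw [Unitary.mem_iff, ← hadj _ hk₀.1, ← hmul _ hsk.1 _ hk₀.1, ← hmul _ hk₀.1 _ hsk.1,
          hk1, hk2]
        exact ⟨hone, hone⟩
      have h0 : IsSelfAdjoint (0 : Op m) := QRep_zero (A := Op m)
      have h2 := polar_unique hu (Submonoid.one_mem (unitary (Op m))) hsa h0 (by
        rw [← he, ← hmul _ hk₀.1 _ (RedGrp.exp_mem hη), h1, NormedSpace.exp_zero, one_mul])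
      have h3 : k₀ ∈ L.K := hfix _ hk₀ h2.1
      have h4 : ∀ s : ℝ, NormedSpace.exp (((s : ℂ) * Complex.I) • η) ∈ L.carrier := by
        intro s
        refine (hfix _ (RedGrp.exp_I_K hη hs s) ?_).1
        rw [hexp η hη, h2.2]
        exact QRep_expz (A := Op m) _
      have h5 : (Complex.I • η : Op n) ∈ L.lie := by
        rw [L.lie_iff]
        intro t
        rw [smul_smul]
        exact h4 t
      have h6 : η ∈ L.lie := by
        have h7 := L.lie.smul_mem (-Complex.I) h5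
        rwa [smul_smul, neg_mul, Complex.I_mul_I, neg_neg, one_smul] at h7
      exact L.mul_mem _ h3.1 _ (RedGrp.exp_mem h6)
    · intro h1
      ext1 v
      rw [hπ, hLf g h1 _ (hιm v)]
      exact hpι v
  · exact Φ.continuous.comp_continuousOn
      ((ptO_continuousOn k).mono fun g hg => RedGrp.isUnit hg)

end EqOka
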