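import Pool.Agent.Lib.MP_fe51c6_an_EO.Grp

/-! The representation of `GL_n` on tensor powers of `ℂⁿ ⊕ (ℂⁿ)* ⊕ ℂ`. -/

open scoped Topology
open Set

noncomputable section

namespace EqOka

/-- The index set of a basis of `ℂⁿ ⊕ (ℂⁿ)* ⊕ ℂ`. -/
abbrev Ix (n : ℕ) := Fin n ⊕ (Fin n ⊕ Unit)

/-- The tensor power `(ℂⁿ ⊕ (ℂⁿ)* ⊕ ℂ)^{⊗k}` in coordinates. -/
abbrev Tk (n k : ℕ) := EuclideanSpace ℂ (Fin k → Ix n)

variable {n : ℕ}

/-- The matrix of an operator. -/
def mt (g : Op n) : Matrix (Fin n) (Fin n) ℂ :=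
  (Matrix.toEuclideanCLM (n := Fin n) (𝕜 := ℂ)).symm g

/-- The block matrix of `g ⊕ (h)ᵀ ⊕ 1`. -/
def rr (g h : Op n) : Matrix (Ix n) (Ix n) ℂ :=
  Matrix.fromBlocks (mt g) 0 0 (Matrix.fromBlocks (mt h).transpose 0 0 1)

/-- The tensor power of a matrix. -/
def tp (k : ℕ) {ι : Type} (A : Matrix ι ι ℂ) : Matrix (Fin k → ι) (Fin k → ι) ℂ :=
  Matrix.of fun i j => ∏ r, A (i r) (j r)

/-- The matrix of `g` on the tensor power. -/
def pt (k : ℕ) (g : Op n) : Matrix (Fin k → Ix n) (Fin k → Ix n) ℂ := tp k (rr g (Ring.inverse g))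

/-- The operator of `g` on the tensor power. -/
def ptO (k : ℕ) (g : Op n) : Tk n k →L[ℂ] Tk n k :=
  Matrix.toEuclideanCLM (n := Fin k → Ix n) (𝕜 := ℂ) (pt k g)

private theorem Rep_mt_one : mt (1 : Op n) = 1 := map_one _

private theorem Rep_mt_mul (g h : Op n) : mt (g * h) = mt g * mt h := map_mul _ g h

private theorem Rep_mt_star (g : Op n) : mt (star g) = (mt g).conjTranspose := by
  rw [← Matrix.star_eq_conjTranspose]
  exact map_star _ g

private theorem Rep_rr_one : rr (1 : Op n) 1 = 1 := by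
  unfold rr
  rw [Rep_mt_one, Matrix.transpose_one, Matrix.fromBlocks_one, Matrix.fromBlocks_one]

private theorem Rep_rr_mul (g g' h h' : Op n) : rr (g * g') (h' * h) = rr g h * rr g' h' := by
  unfold rr
  rw [Matrix.fromBlocks_multiply, Matrix.fromBlocks_multiply, Rep_mt_mul, Rep_mt_mul,
    Matrix.transpose_mul]
  simp

private theorem Rep_rr_star (g h : Op n) : rr (star g) (star h) = (rr g h).conjTranspose := by
  unfold rr
  rw [Matrix.fromBlocks_conjTranspose, Matrix.fromBlocks_conjTranspose, Rep_mt_star, Rep_mt_star]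
  simp only [Matrix.conjTranspose_zero, Matrix.conjTranspose_one]
  rfl

private theorem Rep_tp_one (k : ℕ) {ι : Type} [DecidableEq ι] :
    tp k (1 : Matrix ι ι ℂ) = 1 := by
  ext i j
  show ∏ r, (1 : Matrix ι ι ℂ) (i r) (j r) = (1 : Matrix (Fin k → ι) (Fin k → ι) ℂ) i j
  by_cases h : i = j
  · subst h
    rw [Matrix.one_apply_eq]
    exact Finset.prod_eq_one fun r _ => Matrix.one_apply_eq _
  · rw [Matrix.one_apply_ne h]
    obtain ⟨r, hr⟩ := Function.ne_iff.mp h
    exact Finset.prod_eq_zero (Finset.mem_univ r) (Matrix.one_apply_ne hr)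

private theorem Rep_tp_mul (k : ℕ) {ι : Type} [Fintype ι] [DecidableEq ι] (A B : Matrix ι ι ℂ) :
    tp k (A * B) = tp k A * tp k B := by
  ext i j
  show ∏ r, (A * B) (i r) (j r) = ∑ f : Fin k → ι, (∏ r, A (i r) (f r)) * ∏ r, B (f r) (j r)
  simp only [Matrix.mul_apply, Finset.prod_univ_sum, Fintype.piFinset_univ,
    Finset.prod_mul_distrib]

private theorem Rep_tp_star (k : ℕ) {ι : Type} (A : Matrix ι ι ℂ) :
    tp k A.conjTranspose = (tp k A).conjTranspose := by
  ext i j
  show ∏ r, star (A (j r) (i r)) = star (∏ r, A (j r) (i r))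
  exact (map_prod (starRingEnd ℂ) (fun r => A (j r) (i r)) Finset.univ).symm

private theorem Rep_inv_mul {g h : Op n} (hg : IsUnit g) (hh : IsUnit h) :
    Ring.inverse (g * h) = Ring.inverse h * Ring.inverse g := by
  obtain ⟨u, rfl⟩ := hg
  obtain ⟨v, rfl⟩ := hh
  rw [← Units.val_mul, Ring.inverse_unit, Ring.inverse_unit, Ring.inverse_unit, mul_inv_rev,
    Units.val_mul]

private theorem Rep_inv_star {g : Op n} (hg : IsUnit g) :
    Ring.inverse (star g) = star (Ring.inverse g) := by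
  have h1 : g * Ring.inverse g = 1 := Ring.mul_inverse_cancel g hg
  have h2 : Ring.inverse g * g = 1 := Ring.inverse_mul_cancel g hg
  have h3 : star g * star (Ring.inverse g) = 1 := by rw [← star_mul, h2, star_one]
  have h4 : star (Ring.inverse g) * star g = 1 := by rw [← star_mul, h1, star_one]
  exact Ring.inverse_unit (⟨star g, star (Ring.inverse g), h3, h4⟩ : (Op n)ˣ)

/-- `mt` as a linear map -/
private def Rep_mtL (n : ℕ) : Op n →ₗ[ℂ] Matrix (Fin n) (Fin n) ℂ where
  toFun := mt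
  map_add' := fun a b => map_add _ a b
  map_smul' := fun c a => map_smul _ c a

private theorem Rep_exp {A : Type} [NormedRing A] [NormedAlgebra ℂ A] [CompleteSpace A]
    (f : ℂ → A) (D : A) (h0 : f 0 = 1) (hadd : ∀ z w, f (z + w) = f z * f w)
    (hd : HasDerivAt f D 0) (z : ℂ) : f z = NormedSpace.exp (z • D) := by
  have h1 : ∀ z, HasDerivAt f (f z * D) z := by
    intro z
    have h2 : HasDerivAt (fun w => f z * f (w - z)) (f z * D) z := by
      have h3 : HasDerivAt (fun w => w - z) (1 : ℂ) z := (hasDerivAt_id z).sub_const z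
      have h4 : HasDerivAt f D (z - z) := by rw [sub_self]; exact hd
      have h5 := HasDerivAt.scomp (h := fun w => w - z) z h4 h3
      rw [one_smul] at h5
      exact h5.const_mul (f z)
    have h6 : (fun w => f z * f (w - z)) = f := by
      funext w
      rw [← hadd]
      congr 1
      ring
    rwa [h6] at h2
  have h2 : ∀ z, HasDerivAt (fun z => f z * NormedSpace.exp (z • (-D))) 0 z := by
    intro z
    have h3 := hasDerivAt_exp_smul_const' (𝕂 := ℂ) (-D) z
    have h4 := (h1 z).mul h3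
    refine h4.congr_deriv ?_
    simp only [neg_mul, mul_neg, mul_assoc]
    exact add_neg_cancel _
  have h3 : f z * NormedSpace.exp (z • (-D)) = f 0 * NormedSpace.exp ((0 : ℂ) • (-D)) :=
    is_const_of_deriv_eq_zero (fun z => (h2 z).differentiableAt) (fun z => (h2 z).deriv) z 0
  rw [h0, zero_smul, NormedSpace.exp_zero, mul_one] at h3
  have h4 : z • (-D) = -(z • D) := smul_neg z D
  rw [h4] at h3
  have h5 := congrArg (fun y => y * NormedSpace.exp (z • D)) h3
  simpa only [mul_assoc, (GrpAux.exp_neg_mul_self (z • D)).1, mul_one, one_mul] using h5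

private theorem Rep_diff_rr (a b : Ix n) :
    Differentiable ℂ (fun p : Op n × Op n => rr p.1 p.2 a b) := by
  have hm : ∀ i j : Fin n, Differentiable ℂ (fun g : Op n => mt g i j) := by
    intro i j
    let L : Op n →ₗ[ℂ] ℂ := (Matrix.entryLinearMap ℂ ℂ i j).comp (Rep_mtL n)
    exact (LinearMap.toContinuousLinearMap L).differentiable
  rcases a with a | a | a <;> rcases b with b | b | b
  · exact (hm a b).comp differentiable_fst
  · exact differentiable_const 0
  · exact differentiable_const 0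
  · exact differentiable_const 0
  · exact (hm b a).comp differentiable_snd
  · exact differentiable_const 0
  · exact differentiable_const 0
  · exact differentiable_const 0
  · exact differentiable_const 1

private theorem Rep_diff_tp (k : ℕ) : Differentiable ℂ (fun p : Op n × Op n =>
    Matrix.toEuclideanCLM (n := Fin k → Ix n) (𝕜 := ℂ) (tp k (rr p.1 p.2))) := by
  have h1 : (fun p : Op n × Op n =>
      Matrix.toEuclideanCLM (n := Fin k → Ix n) (𝕜 := ℂ) (tp k (rr p.1 p.2))) =
      fun p : Op n × Op n => ∑ i : Fin k → Ix n, ∑ j : Fin k → Ix n,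
        (∏ r, rr p.1 p.2 (i r) (j r)) •
          Matrix.toEuclideanCLM (n := Fin k → Ix n) (𝕜 := ℂ) (Matrix.single i j 1) := by
    funext p
    conv_lhs => rw [Matrix.matrix_eq_sum_single (tp k (rr p.1 p.2))]
    rw [map_sum]
    refine Finset.sum_congr rfl fun i _ => ?_
    rw [map_sum]
    refine Finset.sum_congr rfl fun j _ => ?_
    rw [← map_smul]
    congr 1
    rw [Matrix.smul_single, smul_eq_mul, mul_one]
    rfl
  rw [h1]
  refine Differentiable.fun_sum fun i _ => Differentiable.fun_sum fun j _ => ?_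
  refine Differentiable.smul_const ?_ _
  intro p
  exact (HasFDerivAt.finsetProd (u := Finset.univ)
    (g := fun r (p : Op n × Op n) => rr p.1 p.2 (i r) (j r)) fun r _ =>
      (Rep_diff_rr (i r) (j r) p).hasFDerivAt).differentiableAt

theorem ptO_one (k : ℕ) : ptO k (1 : Op n) = 1 := by
  unfold ptO pt
  rw [Ring.inverse_one, Rep_rr_one, Rep_tp_one, map_one]

theorem ptO_mul (k : ℕ) {g h : Op n} (hg : IsUnit g) (hh : IsUnit h) :
    ptO k (g * h) = ptO k g * ptO k h := by
  unfold ptO pt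
  rw [Rep_inv_mul hg hh, Rep_rr_mul, Rep_tp_mul, map_mul]

theorem ptO_star (k : ℕ) {g : Op n} (hg : IsUnit g) : ptO k (star g) = star (ptO k g) := by
  unfold ptO pt
  rw [Rep_inv_star hg, Rep_rr_star, Rep_tp_star, ← Matrix.star_eq_conjTranspose, map_star]

theorem ptO_continuousOn (k : ℕ) : ContinuousOn (ptO k : Op n → _) {g | IsUnit g} := by
  have h1 := (Rep_diff_tp (n := n) k).continuous
  have h2 : ContinuousOn (fun g : Op n => (g, Ring.inverse g)) {g | IsUnit g} := by
    intro g hg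
    refine ContinuousAt.continuousWithinAt ?_
    obtain ⟨u, rfl⟩ := hg
    exact continuousAt_id.prodMk (NormedRing.inverse_continuousAt u)
  have h3 : (ptO k : Op n → _) = (fun p : Op n × Op n =>
      Matrix.toEuclideanCLM (n := Fin k → Ix n) (𝕜 := ℂ) (tp k (rr p.1 p.2))) ∘
      fun g => (g, Ring.inverse g) := by
    funext g
    rfl
  rw [h3]
  exact Continuous.comp_continuousOn (f := fun g : Op n => (g, Ring.inverse g)) h1 h2

/-- The infinitesimal representation. -/
theorem exists_dpt (k : ℕ) : ∃ D : Op n →L[ℂ] (Tk n k →L[ℂ] Tk n k), ∀ (ξ : Op n) (z : ℂ),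
    ptO k (NormedSpace.exp (z • ξ)) = NormedSpace.exp (z • D ξ) := by
  have hu : ∀ ξ : Op n, IsUnit (NormedSpace.exp ξ) := fun ξ =>
    ⟨⟨NormedSpace.exp ξ, NormedSpace.exp (-ξ), (exp_neg_mul_self ξ).2, (exp_neg_mul_self ξ).1⟩, rfl⟩
  have hinv : ∀ ξ : Op n, Ring.inverse (NormedSpace.exp ξ) = NormedSpace.exp (-ξ) := by
    intro ξ
    have h1 := Ring.inverse_unit (⟨NormedSpace.exp ξ, NormedSpace.exp (-ξ), (exp_neg_mul_self ξ).2,
      (exp_neg_mul_self ξ).1⟩ : (Op n)ˣ)
    exact h1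
  have hΦ : HasFDerivAt (fun ξ : Op n => ptO k (NormedSpace.exp ξ))
      (fderiv ℂ (fun ξ : Op n => ptO k (NormedSpace.exp ξ)) 0) 0 := by
    refine DifferentiableAt.hasFDerivAt ?_
    have h1 : (fun ξ : Op n => ptO k (NormedSpace.exp ξ)) = (fun p : Op n × Op n =>
        Matrix.toEuclideanCLM (n := Fin k → Ix n) (𝕜 := ℂ) (tp k (rr p.1 p.2))) ∘
        fun ξ : Op n => (NormedSpace.exp ξ, NormedSpace.exp (-ξ)) := by
      funext ξ
      show _ = Matrix.toEuclideanCLM (n := Fin k → Ix n) (𝕜 := ℂ)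
        (tp k (rr (NormedSpace.exp ξ) (NormedSpace.exp (-ξ))))
      rw [← hinv]
      rfl
    rw [h1]
    refine (Rep_diff_tp k).differentiableAt.comp _ ?_
    have h2 : DifferentiableAt ℂ (NormedSpace.exp : Op n → Op n) 0 :=
      (hasFDerivAt_exp_zero (𝕂 := ℂ)).differentiableAt
    refine h2.prodMk ?_
    have h3 : DifferentiableAt ℂ (NormedSpace.exp : Op n → Op n) (-0) := by rw [neg_zero]; exact h2
    exact DifferentiableAt.comp (0 : Op n) h3 differentiableAt_id.neg
  refine ⟨fderiv ℂ (fun ξ : Op n => ptO k (NormedSpace.exp ξ)) 0, fun ξ z =>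
    Rep_exp (fun z => ptO k (NormedSpace.exp (z • ξ))) _ ?_ ?_ ?_ z⟩
  · show ptO k (NormedSpace.exp ((0 : ℂ) • ξ)) = 1
    rw [show ((0 : ℂ) • ξ : Op n) = 0 from zero_smul ℂ ξ, NormedSpace.exp_zero, ptO_one]
  · intro z w
    show ptO k (NormedSpace.exp ((z + w) • ξ)) = _
    rw [exp_add_smul, ptO_mul k (hu _) (hu _)]
  · have h1 : HasDerivAt (fun z : ℂ => z • ξ) ((1 : ℂ) • ξ) 0 := (hasDerivAt_id (0 : ℂ)).smul_const ξ
    rw [one_smul] at h1
    have h2 : HasFDerivAt (fun ξ : Op n => ptO k (NormedSpace.exp ξ))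
      (fderiv ℂ (fun ξ : Op n => ptO k (NormedSpace.exp ξ)) 0) ((0 : ℂ) • ξ) := by
      rw [show ((0 : ℂ) • ξ : Op n) = 0 from zero_smul ℂ ξ]
      exact hΦ
    exact h2.comp_hasDerivAt (0 : ℂ) h1

/-- A one-parameter group with a derivative at `0` is an exponential. -/
theorem eq_exp_of_hasDerivAt {A : Type} [NormedRing A] [NormedAlgebra ℂ A] [CompleteSpace A]
    (f : ℂ → A) (D : A) (h0 : f 0 = 1) (hadd : ∀ z w, f (z + w) = f z * f w)
    (hd : HasDerivAt f D 0) (z : ℂ) : f z = NormedSpace.exp (z • D) :=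
  Rep_exp f D h0 hadd hd z

/-- The vectors fixed by `S`. -/
def fixV (k : ℕ) (S : Set (Op n)) : Submodule ℂ (Tk n k) where
  carrier := {v | ∀ l ∈ S, ptO k l v = v}
  add_mem' := by
    intro a b ha hb l hl
    rw [map_add, ha l hl, hb l hl]
  zero_mem' := by
    intro l hl
    rw [map_zero]
  smul_mem' := by
    intro c a ha l hl
    rw [map_smul, ha l hl]

private theorem Rep_ptO_apply (k : ℕ) (g : Op n) (v : Tk n k) (i : Fin k → Ix n) :
    (ptO k g v) i = ∑ j : Fin k → Ix n, (∏ r, rr g (Ring.inverse g) (i r) (j r)) * v j := by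
  have h := congrFun (Matrix.ofLp_toEuclideanCLM (pt k g) v) i
  exact h

/-- the vector `v ⊗ 1` -/
private def Rep_up (k : ℕ) (v : Tk n k) : Tk n (k + 1) :=
  WithLp.toLp 2 fun i => if i 0 = Sum.inr (Sum.inr ()) then v (Fin.tail i) else 0

private theorem Rep_col (g h : Op n) (a : Ix n) :
    rr g h a (Sum.inr (Sum.inr ())) = if a = Sum.inr (Sum.inr ()) then 1 else 0 := by
  rcases a with a | a | a
  · rfl
  · rfl
  · rfl

private theorem Rep_ptO_up (k : ℕ) (g : Op n) (v : Tk n k) :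
    ptO (k + 1) g (Rep_up k v) = Rep_up k (ptO k g v) := by
  ext i
  rw [Rep_ptO_apply]
  show _ = if i 0 = Sum.inr (Sum.inr ()) then (ptO k g v) (Fin.tail i) else 0
  rw [Rep_ptO_apply, ← (Fin.consEquiv fun _ => Ix n).sum_comp, Fintype.sum_prod_type]
  have h1 : ∀ (a : Ix n) (b : Fin k → Ix n),
      (∏ r, rr g (Ring.inverse g) (i r) ((Fin.consEquiv fun _ => Ix n) (a, b) r)) *
        (Rep_up k v) ((Fin.consEquiv fun _ => Ix n) (a, b)) =
      if a = Sum.inr (Sum.inr ()) then (if i 0 = Sum.inr (Sum.inr ()) then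
        (∏ r, rr g (Ring.inverse g) (Fin.tail i r) (b r)) * v b else 0) else 0 := by
    intro a b
    have h2 : (Rep_up k v) ((Fin.consEquiv fun _ => Ix n) (a, b)) =
        if a = Sum.inr (Sum.inr ()) then v b else 0 := by
      show (if (Fin.cons a b : Fin (k + 1) → Ix n) 0 = Sum.inr (Sum.inr ()) then
        v (Fin.tail (Fin.cons a b : Fin (k + 1) → Ix n)) else 0) = _
      rw [Fin.cons_zero, Fin.tail_cons]
    rw [h2]
    by_cases ha : a = Sum.inr (Sum.inr ())
    · rw [if_pos ha, if_pos ha, Fin.prod_univ_succ]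
      show rr g (Ring.inverse g) (i 0) ((Fin.cons a b : Fin (k + 1) → Ix n) 0) *
        (∏ r : Fin k, rr g (Ring.inverse g) (i r.succ) ((Fin.cons a b : Fin (k + 1) → Ix n) r.succ))
          * v b = _
      simp only [Fin.cons_zero, Fin.cons_succ]
      rw [ha, Rep_col]
      by_cases hi : i 0 = Sum.inr (Sum.inr ())
      · rw [if_pos hi, if_pos hi, one_mul]
        rfl
      · rw [if_neg hi, if_neg hi, zero_mul, zero_mul]
    · rw [if_neg ha, if_neg ha, mul_zero]
  simp only [h1]
  rw [Finset.sum_eq_single (Sum.inr (Sum.inr ()) : Ix n)]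
  · simp only [if_true]
    by_cases hi : i 0 = Sum.inr (Sum.inr ())
    · simp only [if_pos hi]
    · simp only [if_neg hi, Finset.sum_const_zero]
  · intro a _ ha
    simp only [if_neg ha, Finset.sum_const_zero]
  · intro h
    exact absurd (Finset.mem_univ _) h

/-- Tensor powers are increasing: a unitary `g` fixing `fixV (k+1) S` fixes `fixV k S`. -/
theorem fixV_succ (k : ℕ) (S : Set (Op n)) (g : Op n)
    (h : ∀ v ∈ fixV (k + 1) S, ptO (k + 1) g v = v) : ∀ v ∈ fixV k S, ptO k g v = v := by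
  intro v hv
  have h1 : Rep_up k v ∈ fixV (k + 1) S := by
    intro l hl
    rw [Rep_ptO_up, hv l hl]
  have h2 := h _ h1
  rw [Rep_ptO_up] at h2
  ext b
  have h3 := congrArg (fun w : Tk n (k + 1) => w (Fin.cons (Sum.inr (Sum.inr ())) b)) h2
  have h4 : ∀ w : Tk n k, (Rep_up k w) (Fin.cons (Sum.inr (Sum.inr ())) b) = w b := by
    intro w
    show (if (Fin.cons (Sum.inr (Sum.inr ())) b : Fin (k + 1) → Ix n) 0 = Sum.inr (Sum.inr ()) then
      w (Fin.tail (Fin.cons (Sum.inr (Sum.inr ())) b : Fin (k + 1) → Ix n)) else 0) = w b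
    rw [Fin.cons_zero, Fin.tail_cons, if_pos rfl]
  simp only [h4] at h3
  exact h3

end EqOka
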