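import Pool.Agent.Lib.MP_fe51c6_an_EO.Rep

/-! Stone-Weierstrass: measures on a compact set of unitary matrices are determined by the integrals
of the matrix coefficients. -/

open scoped Topology
open Set

noncomputable section

namespace EqOka

variable {n : ℕ}

/-- the matrix coefficients, as continuous functions on `C` -/
private def swM (C : Set (Op n)) : Submonoid C(C, ℂ) where
  carrier := {f | ∃ (k : ℕ) (i j : Fin k → Ix n), ∀ g : C, f g = pt k (g : Op n) i j}
  one_mem' := ⟨0, Fin.elim0, Fin.elim0, fun g => by simp [pt, tp]⟩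
  mul_mem' := by
    rintro f f' ⟨k, i, j, h⟩ ⟨k', i', j', h'⟩
    refine ⟨k + k', Fin.append i i', Fin.append j j', fun g => ?_⟩
    rw [ContinuousMap.mul_apply, h, h']
    simp only [pt, tp, Matrix.of_apply]
    rw [Fin.prod_univ_add]
    simp only [Fin.append_left, Fin.append_right]

/-- exchange of the first two blocks -/
private def swS : Ix n → Ix n
  | Sum.inl i => Sum.inr (Sum.inl i)
  | Sum.inr (Sum.inl i) => Sum.inl i
  | Sum.inr (Sum.inr u) => Sum.inr (Sum.inr u)

private theorem sw_inverse {g : Op n} (hg : g ∈ unitary (Op n)) : Ring.inverse g = star g := by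
  have h1 : star g * g = 1 := (Unitary.mem_iff.1 hg).1
  have h2 : g * star g = 1 := (Unitary.mem_iff.1 hg).2
  let u : (Op n)ˣ := ⟨g, star g, h2, h1⟩
  exact Ring.inverse_unit u

private theorem sw_mt_star (g : Op n) : mt (star g) = (mt g).conjTranspose := by
  exact (Matrix.toEuclideanCLM (n := Fin n) (𝕜 := ℂ)).symm.map_star' g

private theorem sw_conj {g : Op n} (hg : g ∈ unitary (Op n)) (a b : Ix n) :
    star (rr g (Ring.inverse g) a b) = rr g (Ring.inverse g) (swS a) (swS b) := by
  rw [sw_inverse hg]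
  rcases a with i | i | i <;> rcases b with j | j | j <;>
    simp [rr, swS, sw_mt_star, Matrix.fromBlocks]

private theorem sw_star_mem {C : Set (Op n)} (hU : C ⊆ unitary (Op n)) {f : C(C, ℂ)}
    (hf : f ∈ swM C) : star f ∈ swM C := by
  obtain ⟨k, i, j, h⟩ := hf
  refine ⟨k, fun r => swS (i r), fun r => swS (j r), fun g => ?_⟩
  rw [ContinuousMap.star_apply, h]
  simp only [pt, tp, Matrix.of_apply, star_prod, sw_conj (hU g.2)]

private theorem sw_mt_continuous (i j : Fin n) : Continuous fun g : Op n => mt g i j := by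
  let e : Op n →ₗ[ℂ] Matrix (Fin n) (Fin n) ℂ :=
    { toFun := mt
      map_add' := (Matrix.toEuclideanCLM (n := Fin n) (𝕜 := ℂ)).symm.map_add'
      map_smul' := (Matrix.toEuclideanCLM (n := Fin n) (𝕜 := ℂ)).symm.map_smul' }
  have h1 : Continuous (mt : Op n → Matrix (Fin n) (Fin n) ℂ) :=
    LinearMap.continuous_of_finiteDimensional e
  exact h1.matrix_elem i j

theorem integral_eq_of_coeff (C : Set (Op n)) (hC : IsCompact C) (hU : C ⊆ unitary (Op n))
    (μ ν : MeasureTheory.Measure (Op n)) [MeasureTheory.IsFiniteMeasure μ]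
    [MeasureTheory.IsFiniteMeasure ν] (hμ : μ Cᶜ = 0) (hν : ν Cᶜ = 0)
    (h : ∀ (k : ℕ) (i j : Fin k → Ix n), ∫ g, pt k g i j ∂μ = ∫ g, pt k g i j ∂ν) (c : Op n → ℝ)
    (hc : Continuous c) : ∫ g, c g ∂μ = ∫ g, c g ∂ν := by
  classical
  have : CompactSpace C := isCompact_iff_compactSpace.1 hC
  have hCm : MeasurableSet C := hC.isClosed.measurableSet
  -- the star subalgebra spanned by the matrix coefficients
  have hspan : (Algebra.adjoin ℂ (swM C : Set C(C, ℂ))).toSubmodule =
      Submodule.span ℂ (swM C : Set C(C, ℂ)) := by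
    rw [Algebra.adjoin_eq_span, Submonoid.closure_eq]
  have hstar : ∀ f ∈ Submodule.span ℂ (swM C : Set C(C, ℂ)),
      star f ∈ Submodule.span ℂ (swM C : Set C(C, ℂ)) := by
    intro f hf
    induction hf using Submodule.span_induction with
    | mem f hf => exact Submodule.subset_span (sw_star_mem hU hf)
    | zero => rw [star_zero]; exact Submodule.zero_mem _
    | add f f' _ _ h1 h2 => rw [star_add]; exact Submodule.add_mem _ h1 h2
    | smul a f _ h1 => rw [star_smul]; exact Submodule.smul_mem _ _ h1
  let A : StarSubalgebra ℂ C(C, ℂ) :=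
    { Algebra.adjoin ℂ (swM C : Set C(C, ℂ)) with
      star_mem' := by
        intro f hf
        change star f ∈ (Algebra.adjoin ℂ (swM C : Set C(C, ℂ))).toSubmodule
        rw [hspan]
        refine hstar f ?_
        rw [← hspan]
        exact hf }
  have hA : ∀ f ∈ A, f ∈ Submodule.span ℂ (swM C : Set C(C, ℂ)) := by
    intro f hf
    rw [← hspan]
    exact hf
  have hsep : A.SeparatesPoints := by
    intro x y hxy
    have hne : mt (x : Op n) ≠ mt (y : Op n) := by
      intro h1
      apply hxy
      apply Subtype.ext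
      exact (Matrix.toEuclideanCLM (n := Fin n) (𝕜 := ℂ)).symm.injective h1
    obtain ⟨i, j, hij⟩ : ∃ i j, mt (x : Op n) i j ≠ mt (y : Op n) i j := by
      by_contra hcon
      push Not at hcon
      exact hne (Matrix.ext hcon)
    let f : C(C, ℂ) := ⟨fun g => mt (g : Op n) i j, (sw_mt_continuous i j).comp
      continuous_subtype_val⟩
    have hf : f ∈ swM C := ⟨1, fun _ => Sum.inl i, fun _ => Sum.inl j, fun g => by
      simp [f, pt, tp, rr, Matrix.fromBlocks]⟩
    exact ⟨f, ⟨f, Algebra.subset_adjoin hf, rfl⟩, hij⟩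
  have hdense := ContinuousMap.starSubalgebra_topologicalClosure_eq_top_of_separatesPoints A hsep
  -- the integrals over `C`
  have key : ∀ (κ : MeasureTheory.Measure (Op n)) [MeasureTheory.IsFiniteMeasure κ],
      κ Cᶜ = 0 → ∃ Φ : C(C, ℂ) → ℂ, Continuous Φ ∧ (∀ f f', Φ (f + f') = Φ f + Φ f') ∧
        (∀ (a : ℂ) f, Φ (a • f) = a * Φ f) ∧
        ∀ (F : Op n → ℂ) (f : C(C, ℂ)), (∀ g : C, f g = F g) → Φ f = ∫ g, F g ∂κ := by
    intro κ _ hκ
    let κ' : MeasureTheory.Measure C := κ.comap Subtype.val
    have hfin : MeasureTheory.IsFiniteMeasure κ' := by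
      constructor
      have h1 : κ' univ = κ (Subtype.val '' (univ : Set C)) :=
        MeasureTheory.Measure.comap_apply _ Subtype.val_injective
          (fun s hs => (MeasurableEmbedding.subtype_coe hCm).measurableSet_image.2 hs) _
          MeasurableSet.univ
      rw [h1]
      exact MeasureTheory.measure_lt_top _ _
    have hint : ∀ f : C(C, ℂ), MeasureTheory.Integrable f κ' := fun f =>
      f.continuous.integrable_of_hasCompactSupport (HasCompactSupport.of_compactSpace _)
    refine ⟨fun f => ∫ g, f g ∂κ', ?_, ?_, ?_, ?_⟩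
    · have hL : LipschitzWith (κ'.real univ).toNNReal fun f : C(C, ℂ) => ∫ g, f g ∂κ' := by
        refine LipschitzWith.of_dist_le_mul fun f f' => ?_
        rw [dist_eq_norm, dist_eq_norm, ← MeasureTheory.integral_sub (hint f) (hint f'),
          Real.coe_toNNReal _ MeasureTheory.measureReal_nonneg, mul_comm]
        refine MeasureTheory.norm_integral_le_of_norm_le_const (Filter.Eventually.of_forall
          fun g => ?_)
        exact (f - f').norm_coe_le_norm g
      exact hL.continuous
    · intro f f'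
      exact MeasureTheory.integral_add (hint f) (hint f')
    · intro a f
      exact MeasureTheory.integral_const_mul a _
    · intro F f hF
      have h1 : ∫ g, f g ∂κ' = ∫ g : C, F g ∂κ' := by
        congr 1
        funext g
        exact hF g
      have h2 : ∫ g : C, F g ∂κ' = ∫ g in C, F g ∂κ :=
        MeasureTheory.integral_subtype_comap hCm F
      have h3 : κ.restrict C = κ :=
        MeasureTheory.Measure.restrict_eq_self_of_ae_mem (by
          rw [MeasureTheory.ae_iff]
          exact hκ)
      change ∫ g, f g ∂κ' = _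
      rw [h1, h2, h3]
  obtain ⟨Φ, hΦc, hΦa, hΦs, hΦ⟩ := key μ hμ
  obtain ⟨Ψ, hΨc, hΨa, hΨs, hΨ⟩ := key ν hν
  have hspaneq : ∀ f ∈ Submodule.span ℂ (swM C : Set C(C, ℂ)), Φ f = Ψ f := by
    intro f hf
    induction hf using Submodule.span_induction with
    | mem f hf =>
      obtain ⟨k, i, j, hf⟩ := hf
      rw [hΦ (fun g => pt k g i j) f hf, hΨ (fun g => pt k g i j) f hf, h k i j]
    | zero =>
      have h1 := hΦs 0 0
      have h2 := hΨs 0 0
      rw [zero_smul, zero_mul] at h1 h2
      rw [h1, h2]
    | add f f' _ _ h1 h2 => rw [hΦa, hΨa, h1, h2]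
    | smul a f _ h1 => rw [hΦs, hΨs, h1]
  have hall : ∀ f : C(C, ℂ), Φ f = Ψ f := by
    intro f
    have hcl : IsClosed {f : C(C, ℂ) | Φ f = Ψ f} := isClosed_eq hΦc hΨc
    have hf : f ∈ A.topologicalClosure := by rw [hdense]; trivial
    have hf' : f ∈ closure (A : Set C(C, ℂ)) := by
      rw [← StarSubalgebra.topologicalClosure_coe]
      exact hf
    exact closure_minimal (fun f hf => hspaneq f (hA f hf)) hcl hf'
  let f : C(C, ℂ) := ⟨fun g => (c g : ℂ), by fun_prop⟩
  have h1 := hall f
  rw [hΦ (fun g => (c g : ℂ)) f (fun _ => rfl), hΨ (fun g => (c g : ℂ)) f (fun _ => rfl)] at h1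
  rw [integral_complex_ofReal, integral_complex_ofReal] at h1
  exact Complex.ofReal_injective h1

end EqOka
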