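import Pool.Agent.Lib.MP_fe51c6_an_EO.Weights

/-! The slice theorem at a point whose stabiliser algebra is closed under adjoints, when all orbits
are closed. -/

open scoped Manifold Topology
open Set

noncomputable section

namespace EqOka

variable {n d : ℕ} {G : RedGrp n} {X : Type} [TopologicalSpace X] [ChartedSpace (Cd d) X]
  [IsManifold 𝓘(ℂ, Cd d) 1 X] [T2Space X] {act : Op n → X → X}

/-- The slice chart at `m`: `x = exp(P(Θ x)) · Θ⁻¹(π(Θ x))`, where `P` maps `ℂ^d` onto a complement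
`Q` of the stabiliser algebra, `π` is a projection onto the kernel of `P`, and the points of
`Θ⁻¹(range π)` have the same stabiliser algebra as `m`. -/
structure SliceAt (d : ℕ) (G : RedGrp n) {X : Type} [TopologicalSpace X] [ChartedSpace (Cd d) X]
    (act : Op n → X → X) (m : X) (Q : Submodule ℂ (Op n)) (Θ : OpenPartialHomeomorph X (Cd d))
    (P : Cd d →L[ℂ] Op n) (π : Cd d →L[ℂ] Cd d) : Prop where
  hol : HolPH (Cd d) (Cd d) Θ
  mem : m ∈ Θ.source
  zero : Θ m = 0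
  proj : ∀ v, π (π v) = π v
  ker : ∀ v, P v = 0 ↔ π v = v
  maps : ∀ v, P v ∈ Q
  onto : ∀ ξ ∈ Q, ∃ v, P v = ξ
  tgt : ∀ v ∈ Θ.target, π v ∈ Θ.target
  eq : ∀ x ∈ Θ.source, x = act (NormedSpace.exp (P (Θ x))) (Θ.symm (π (Θ x)))
  stab_eq : ∀ v ∈ Θ.target, stab G act (Θ.symm (π v)) = stab G act m

private theorem Slice_eq_of_le {W : Type} [AddCommGroup W] [Module ℂ W] [FiniteDimensional ℂ W]
    {S T : Submodule ℂ W} (h : S ≤ T) (hf : Module.finrank ℂ T ≤ Module.finrank ℂ S) : S = T :=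
  Submodule.eq_of_le_of_finrank_le h hf

/-- Linear algebra: `B` inverts `a` on the complement `Q` of the kernel, `π` is the orthogonal
projection onto the complement of the range. -/
private theorem Slice_lin {V : Type} [AddCommGroup V] [Module ℂ V] (a : V →ₗ[ℂ] Cd d)
    (Q : Submodule ℂ V) (h1 : Q ⊓ LinearMap.ker a = ⊥) (h2 : Q ⊔ LinearMap.ker a = ⊤) :
    ∃ (B : Cd d →ₗ[ℂ] V) (π : Cd d →L[ℂ] Cd d), (∀ v, π (π v) = π v) ∧ (∀ w, B w ∈ Q) ∧
      (∀ v ∈ Q, B (a v) = v) ∧ (∀ w, a (B w) + π w = w) ∧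
      (∀ w, π w ∈ (LinearMap.range a)ᗮ) ∧ ∀ w, B w = 0 ↔ π w = w := by
  have hf : LinearMap.ker (a.comp Q.subtype) = ⊥ := by
    rw [Submodule.eq_bot_iff]
    rintro ⟨v, hv⟩ hv'
    have h3 : v ∈ Q ⊓ LinearMap.ker a := ⟨hv, hv'⟩
    rw [h1, Submodule.mem_bot] at h3
    exact Subtype.ext h3
  obtain ⟨g, hg⟩ := (a.comp Q.subtype).exists_leftInverse_of_injective hf
  have hg' : ∀ (v : V) (hv : v ∈ Q), g (a v) = ⟨v, hv⟩ := by
    intro v hv
    exact congrArg (fun f : Q →ₗ[ℂ] Q => f ⟨v, hv⟩) hg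
  obtain ⟨p, hp⟩ : ∃ p : Cd d →L[ℂ] Cd d, p = (LinearMap.range a).starProjection := ⟨_, rfl⟩
  have hpm : ∀ w, p w ∈ LinearMap.range a := by
    intro w
    rw [hp]
    exact Submodule.starProjection_apply_mem _ w
  have hpa : ∀ v, p (a v) = a v := by
    intro v
    rw [hp, Submodule.starProjection_eq_self_iff]
    exact ⟨v, rfl⟩
  have hps : ∀ w, p w + (LinearMap.range a)ᗮ.starProjection w = w := by
    intro w
    rw [hp]
    exact Submodule.starProjection_add_starProjection_orthogonal w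
  obtain ⟨B, hB⟩ : ∃ B : Cd d →ₗ[ℂ] V, ∀ w, B w = ((g (p w) : Q) : V) :=
    ⟨Q.subtype.comp (g.comp (p : Cd d →ₗ[ℂ] Cd d)), fun w => rfl⟩
  have hBa : ∀ v ∈ Q, B (a v) = v := by
    intro v hv
    rw [hB, hpa, hg' v hv]
  have haB : ∀ w, a (B w) = p w := by
    intro w
    obtain ⟨v, hv⟩ := hpm w
    have h3 : v ∈ Q ⊔ LinearMap.ker a := by rw [h2]; trivial
    obtain ⟨q, hq, k, hk, rfl⟩ := Submodule.mem_sup.1 h3
    have h4 : a (q + k) = a q := by
      rw [map_add, LinearMap.mem_ker.1 hk, add_zero]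
    rw [hB, ← hv, h4, hg' q hq]
  have hsum : ∀ w, a (B w) + (LinearMap.range a)ᗮ.starProjection w = w := by
    intro w
    rw [haB, hps]
  refine ⟨B, (LinearMap.range a)ᗮ.starProjection, ?_, ?_, hBa, hsum, ?_, ?_⟩
  · intro v
    rw [Submodule.starProjection_eq_self_iff]
    exact Submodule.starProjection_apply_mem _ v
  · intro w
    rw [hB]
    exact (g (p w)).2
  · intro w
    exact Submodule.starProjection_apply_mem _ w
  · intro w
    have hBQ : B w ∈ Q := by rw [hB]; exact (g (p w)).2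
    constructor
    · intro h
      have h3 := hsum w
      rw [h, map_zero, zero_add] at h3
      exact h3
    · intro h
      have h3 := hsum w
      rw [h] at h3
      have h4 : a (B w) = 0 := by
        rwa [add_eq_right] at h3
      rw [← hBa (B w) hBQ, h4, map_zero]

theorem exists_slice (hA : HolAct d G act) (hc : ClosedOrbits G act) (m : X)
    (hst : StarCl (stab G act m)) (Q : Submodule ℂ (Op n)) (hQ1 : Q ⊓ stab G act m = ⊥)
    (hQ2 : Q ⊔ stab G act m = G.lie) :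
    ∃ (Θ : OpenPartialHomeomorph X (Cd d)) (P : Cd d →L[ℂ] Op n) (π : Cd d →L[ℂ] Cd d),
      SliceAt d G act m Q Θ P π := by
  obtain ⟨Ψ, r, U, hB⟩ := exists_boch hA m
  have hΨ : HolPH (Cd d) (Cd d) Ψ := hB.hol
  have hQl : Q ≤ G.lie := by
    rw [← hQ2]
    exact le_sup_left
  -- linear algebra
  obtain ⟨B, π, hπ, hBQ, hBa, hsum, hπR, hker⟩ := Slice_lin
    (orbD d G act Ψ m : Cd G.dim →ₗ[ℂ] Cd d) (Q.comap (G.bas : Cd G.dim →ₗ[ℂ] Op n))
    (by
      rw [Submodule.eq_bot_iff]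
      rintro v ⟨hv1, hv2⟩
      have h1 : G.bas v ∈ stab G act m := (orbD_ker hA hΨ hB.mem v).1 hv2
      have h2 : G.bas v ∈ Q ⊓ stab G act m := ⟨hv1, h1⟩
      rw [hQ1, Submodule.mem_bot] at h2
      exact G.bas_injective (by rw [h2, map_zero]))
    (by
      rw [Submodule.eq_top_iff']
      intro v
      have h1 : G.bas v ∈ Q ⊔ stab G act m := by
        rw [hQ2]
        exact G.bas_mem v
      obtain ⟨q, hq, s, hs, hqs⟩ := Submodule.mem_sup.1 h1
      obtain ⟨v1, hv1⟩ := RedGrp.exists_bas (hQl hq)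
      obtain ⟨v2, hv2⟩ := RedGrp.exists_bas (stab_le m hs)
      have h2 : v = v1 + v2 := by
        apply G.bas_injective
        rw [map_add, hv1, hv2, hqs]
      rw [h2]
      refine Submodule.add_mem_sup ?_ ?_
      · change G.bas v1 ∈ Q
        rw [hv1]
        exact hq
      · refine (orbD_ker hA hΨ hB.mem v2).2 ?_
        rw [hv2]
        exact hs)
  obtain ⟨P, hP⟩ : ∃ P : Cd d →L[ℂ] Op n, ∀ v, P v = G.bas (B v) :=
    ⟨G.bas.comp (LinearMap.toContinuousLinearMap B), fun v => rfl⟩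
  have hPQ : ∀ v, P v ∈ Q := by
    intro v
    rw [hP]
    exact hBQ v
  have hPl : ∀ v, P v ∈ G.lie := fun v => hQl (hPQ v)
  have hPker : ∀ v, P v = 0 ↔ π v = v := by
    intro v
    rw [← hker, hP]
    constructor
    · intro h
      exact G.bas_injective (by rw [h, map_zero])
    · intro h
      rw [h, map_zero]
  have hm0 : Ψ.symm 0 = m := by rw [← hB.zero, Ψ.left_inv hB.mem]
  have h0t : (0 : Cd d) ∈ Ψ.target := by
    rw [← hB.zero]
    exact Ψ.map_source hB.mem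
  -- the joint map
  obtain ⟨H₀, hH₀⟩ : ∃ H₀ : Cd d × Cd d → X, H₀ = fun q =>
    act (NormedSpace.exp (P q.1)) (Ψ.symm (π q.2)) := ⟨_, rfl⟩
  obtain ⟨H, hH⟩ : ∃ H : Cd d × Cd d → Cd d, H = fun q => Ψ (H₀ q) := ⟨_, rfl⟩
  have hH₀d : ∀ q : Cd d × Cd d, π q.2 ∈ Ψ.target →
      MDifferentiableAt 𝓘(ℂ, Cd d × Cd d) 𝓘(ℂ, Cd d) H₀ q := by
    intro q hq
    have h1 : MDifferentiableAt 𝓘(ℂ, Cd d × Cd d) 𝓘(ℂ, Op n)
        (fun q : Cd d × Cd d => P q.1) q := by
      rw [mdifferentiableAt_iff_differentiableAt]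
      exact P.differentiableAt.comp q differentiableAt_fst
    have h2 : MDifferentiableAt 𝓘(ℂ, Cd d × Cd d) 𝓘(ℂ, Cd d)
        (fun q : Cd d × Cd d => π q.2) q := by
      rw [mdifferentiableAt_iff_differentiableAt]
      exact π.differentiableAt.comp q differentiableAt_snd
    have h3 : MDifferentiableAt 𝓘(ℂ, Cd d × Cd d) 𝓘(ℂ, Cd d)
        (fun q : Cd d × Cd d => Ψ.symm (π q.2)) q :=
      MDifferentiableAt.comp q (hΨ.bwd _ hq) h2
    rw [hH₀]
    exact hA.mdiff 𝓘(ℂ, Cd d × Cd d) (fun q : Cd d × Cd d => P q.1)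
      (fun q : Cd d × Cd d => Ψ.symm (π q.2)) q (fun q => hPl q.1) h1 h3
  have hHd : ∀ q : Cd d × Cd d, π q.2 ∈ Ψ.target → H₀ q ∈ Ψ.source →
      DifferentiableAt ℂ H q := by
    intro q hq hq'
    rw [← mdifferentiableAt_iff_differentiableAt, hH]
    exact MDifferentiableAt.comp q (hΨ.fwd _ hq') (hH₀d q hq)
  have hH₀0 : H₀ (0, 0) = m := by
    rw [hH₀]
    simp only [map_zero]
    rw [NormedSpace.exp_zero, hm0, hA.one]
  have hH₀π : ∀ v, H₀ (0, v) = Ψ.symm (π v) := by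
    intro v
    rw [hH₀]
    simp only [map_zero]
    rw [NormedSpace.exp_zero, hA.one]
  -- the map `F`
  obtain ⟨F, hF⟩ : ∃ F : Cd d → Cd d, F = fun z => H (z, z) := ⟨_, rfl⟩
  have hFd : ∀ z : Cd d, π z ∈ Ψ.target → H₀ (z, z) ∈ Ψ.source → DifferentiableAt ℂ F z := by
    intro z hz hz'
    rw [hF]
    exact DifferentiableAt.comp z (hHd (z, z) hz hz')
      (differentiableAt_id.prodMk differentiableAt_id)
  have hπ0 : π (0 : Cd d) ∈ Ψ.target := by rw [map_zero]; exact h0t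
  have hH0d : DifferentiableAt ℂ H (0, 0) := hHd (0, 0) hπ0 (by rw [hH₀0]; exact hB.mem)
  have hF' : HasFDerivAt F (ContinuousLinearMap.id ℂ (Cd d)) 0 := by
    have h1 : HasFDerivAt F ((fderiv ℂ H (0, 0)).comp
        ((ContinuousLinearMap.id ℂ (Cd d)).prod (ContinuousLinearMap.id ℂ (Cd d)))) 0 := by
      rw [hF]
      exact HasFDerivAt.comp (0 : Cd d) hH0d.hasFDerivAt
        ((hasFDerivAt_id (0 : Cd d)).prodMk (hasFDerivAt_id (0 : Cd d)))
    have h2 : (fderiv ℂ H (0, 0)).comp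
        ((ContinuousLinearMap.id ℂ (Cd d)).prod (ContinuousLinearMap.id ℂ (Cd d))) =
        ContinuousLinearMap.id ℂ (Cd d) := by
      ext1 v
      have h3 : fderiv ℂ H (0, 0) (v, 0) = orbD d G act Ψ m (B v) := by
        have e1 : HasDerivAt (fun s : ℂ => ((s • v, 0) : Cd d × Cd d)) (v, 0) 0 := by
          have e2 : HasDerivAt (fun s : ℂ => s • v) v 0 := by
            simpa using (hasDerivAt_id (0 : ℂ)).smul_const v
          exact e2.prodMk (hasDerivAt_const (0 : ℂ) (0 : Cd d))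
        have e3 : HasFDerivAt H (fderiv ℂ H (0, 0)) (((0 : ℂ) • v, 0) : Cd d × Cd d) := by
          rw [zero_smul]
          exact hH0d.hasFDerivAt
        have e4 := e3.comp_hasDerivAt (0 : ℂ) e1
        have e5 := hasDerivAt_orbit hA hΨ hB.mem (B v)
        have e6 : (fun z : ℂ => Ψ (act (NormedSpace.exp (z • G.bas (B v))) m)) =
            (H ∘ fun s : ℂ => ((s • v, 0) : Cd d × Cd d)) := by
          funext s
          rw [hH, hH₀]
          simp only [Function.comp_apply, map_zero, hm0]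
          rw [map_smul, hP]
        rw [e6] at e5
        exact e4.unique e5
      have h4 : fderiv ℂ H (0, 0) (0, v) = π v := by
        have e1 : HasDerivAt (fun s : ℂ => ((0, s • v) : Cd d × Cd d)) (0, v) 0 := by
          have e2 : HasDerivAt (fun s : ℂ => s • v) v 0 := by
            simpa using (hasDerivAt_id (0 : ℂ)).smul_const v
          exact (hasDerivAt_const (0 : ℂ) (0 : Cd d)).prodMk e2
        have e3 : HasFDerivAt H (fderiv ℂ H (0, 0)) ((0, (0 : ℂ) • v) : Cd d × Cd d) := by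
          rw [zero_smul]
          exact hH0d.hasFDerivAt
        have e4 := e3.comp_hasDerivAt (0 : ℂ) e1
        have e5 : HasDerivAt (fun s : ℂ => s • π v) (π v) 0 := by
          simpa using (hasDerivAt_id (0 : ℂ)).smul_const (π v)
        have e6 : (H ∘ fun s : ℂ => ((0, s • v) : Cd d × Cd d)) =ᶠ[𝓝 0]
            (fun s : ℂ => s • π v) := by
          have e7 : ContinuousAt (fun s : ℂ => s • π v) 0 := by fun_prop
          have e8 : ∀ᶠ s : ℂ in 𝓝 0, s • π v ∈ Ψ.target := by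
            refine e7.eventually_mem ?_
            rw [zero_smul]
            exact Ψ.open_target.mem_nhds h0t
          filter_upwards [e8] with s hs
          change H (0, s • v) = s • π v
          have e9 : H (0, s • v) = Ψ (H₀ (0, s • v)) := by rw [hH]
          rw [e9, hH₀π, map_smul, Ψ.right_inv hs]
        exact e4.unique (e5.congr_of_eventuallyEq e6)
      have h5 : ((v, v) : Cd d × Cd d) = (v, 0) + (0, v) := by simp
      change fderiv ℂ H (0, 0) (v, v) = v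
      rw [h5, map_add, h3, h4]
      exact hsum v
    rw [h2] at h1
    exact h1
  -- the neighbourhood
  have hcontdiag : Continuous fun z : Cd d => ((z, z) : Cd d × Cd d) := by fun_prop
  have hn1 : ∀ᶠ z in 𝓝 (0 : Cd d), π z ∈ Ψ.target := by
    refine π.continuous.continuousAt.eventually_mem ?_
    exact Ψ.open_target.mem_nhds hπ0
  have hn2 : ∀ᶠ z in 𝓝 (0 : Cd d), H₀ (z, z) ∈ Ψ.source := by
    have h1 : ContinuousAt H₀ ((0, 0) : Cd d × Cd d) := (hH₀d (0, 0) hπ0).continuousAt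
    have h2 : ContinuousAt (fun z : Cd d => H₀ (z, z)) 0 :=
      ContinuousAt.comp (f := fun z : Cd d => ((z, z) : Cd d × Cd d)) h1
        hcontdiag.continuousAt
    refine h2.eventually_mem ?_
    rw [hH₀0]
    exact Ψ.open_source.mem_nhds hB.mem
  have hev : ∀ᶠ z in 𝓝 (0 : Cd d), DifferentiableAt ℂ F z := by
    filter_upwards [hn1, hn2] with z hz1 hz2
    exact hFd z hz1 hz2
  have hstrict : HasStrictFDerivAt F
      ((ContinuousLinearEquiv.refl ℂ (Cd d) : Cd d ≃L[ℂ] Cd d) : Cd d →L[ℂ] Cd d) 0 := by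
    have h1 := hasStrictFDerivAt_of_eventually F 0 hev
    rw [hF'.fderiv] at h1
    exact h1
  have hn3 : ∀ᶠ z in 𝓝 (0 : Cd d), IsUnit (fderiv ℂ F z) := by
    have h1 : ContinuousAt (fderiv ℂ F) 0 := continuousAt_fderiv_of_eventually F 0 hev
    have h2 : {A : Cd d →L[ℂ] Cd d | IsUnit A} ∈ 𝓝 (fderiv ℂ F 0) := by
      rw [hF'.fderiv]
      exact Units.isOpen.mem_nhds isUnit_one
    exact h1 h2
  have hn4 : ∀ᶠ z in 𝓝 (0 : Cd d), z ∈ (hstrict.toOpenPartialHomeomorph F).source :=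
    (hstrict.toOpenPartialHomeomorph F).open_source.mem_nhds
      hstrict.mem_toOpenPartialHomeomorph_source
  have hn5 : ∀ᶠ z in 𝓝 (0 : Cd d), Module.finrank ℂ (stab G act (Ψ.symm (π z))) ≤
      Module.finrank ℂ (stab G act m) := by
    have h1 : ContinuousAt (fun z : Cd d => Ψ.symm (π z)) 0 := by
      have h2 : ContinuousAt Ψ.symm (π (0 : Cd d)) := Ψ.continuousAt_symm hπ0
      exact ContinuousAt.comp h2 π.continuous.continuousAt
    have h3 : Filter.Tendsto (fun z : Cd d => Ψ.symm (π z)) (𝓝 0) (𝓝 m) := by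
      have h4 := h1.tendsto
      rwa [map_zero, hm0] at h4
    exact h3.eventually (stab_semicont hA m)
  obtain ⟨δ, hδ, hδb⟩ := Metric.eventually_nhds_iff.1
    (hn1.and (hn2.and (hn3.and (hn4.and hn5))))
  obtain ⟨T, hT⟩ : ∃ T : Set (Cd d), T = {z | ‖z‖ < δ ∧ ‖π z‖ < δ} := ⟨_, rfl⟩
  have hTo : IsOpen T := by
    rw [hT]
    exact (isOpen_lt continuous_norm continuous_const).inter
      (isOpen_lt π.continuous.norm continuous_const)
  have hTm : ∀ z, z ∈ T ↔ ‖z‖ < δ ∧ ‖π z‖ < δ := fun z => by rw [hT]; rfl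
  have hTπ : ∀ z ∈ T, π z ∈ T := by
    intro z hz
    rw [hTm] at hz ⊢
    rw [hπ]
    exact ⟨hz.2, hz.2⟩
  have hT0 : (0 : Cd d) ∈ T := by
    rw [hTm, map_zero, norm_zero]
    exact ⟨hδ, hδ⟩
  have hTb : ∀ z ∈ T, π z ∈ Ψ.target ∧ H₀ (z, z) ∈ Ψ.source ∧ IsUnit (fderiv ℂ F z) ∧
      z ∈ (hstrict.toOpenPartialHomeomorph F).source ∧
      Module.finrank ℂ (stab G act (Ψ.symm (π z))) ≤ Module.finrank ℂ (stab G act m) := by
    intro z hz
    refine hδb ?_
    rw [dist_zero_right]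
    exact ((hTm z).1 hz).1
  set e : OpenPartialHomeomorph (Cd d) (Cd d) :=
    (hstrict.toOpenPartialHomeomorph F).restrOpen T hTo with he
  have hecoe : ∀ v, e v = F v := fun v => rfl
  have hesrc : ∀ v, v ∈ e.source ↔ v ∈ T := by
    intro v
    constructor
    · exact fun hv => hv.2
    · exact fun hv => ⟨(hTb v hv).2.2.2.1, hv⟩
  obtain ⟨Ξ, hΞ⟩ : ∃ Ξ : OpenPartialHomeomorph (Cd d) X, Ξ = e.trans Ψ.symm := ⟨_, rfl⟩
  have hFH : ∀ z, F z = Ψ (H₀ (z, z)) := by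
    intro z
    rw [hF, hH]
  have hΞs : ∀ z, z ∈ Ξ.source ↔ z ∈ T := by
    intro z
    rw [hΞ, OpenPartialHomeomorph.trans_source]
    constructor
    · intro h
      exact (hesrc z).1 h.1
    · intro h
      refine ⟨(hesrc z).2 h, ?_⟩
      change F z ∈ Ψ.target
      rw [hFH]
      exact Ψ.map_source (hTb z h).2.1
  have hΞa : ∀ z ∈ T, Ξ z = H₀ (z, z) := by
    intro z hz
    have h1 : Ξ z = Ψ.symm (F z) := by rw [hΞ]; rfl
    rw [h1, hFH, Ψ.left_inv (hTb z hz).2.1]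
  have hH₀ππ : ∀ z, H₀ (π z, π z) = Ψ.symm (π z) := by
    intro z
    have h1 : P (π z) = 0 := (hPker (π z)).2 (hπ z)
    rw [hH₀]
    simp only [h1, hπ]
    rw [NormedSpace.exp_zero, hA.one]
  have hΞπ : ∀ z ∈ T, Ξ (π z) = Ψ.symm (π z) := by
    intro z hz
    rw [hΞa _ (hTπ z hz), hH₀ππ]
  have hΞ0 : Ξ 0 = m := by
    rw [hΞa 0 hT0, hH₀0]
  refine ⟨Ξ.symm, P, π, ?_⟩
  refine ⟨⟨?_, ?_⟩, ?_, ?_, hπ, hPker, hPQ, ?_, ?_, ?_, ?_⟩
  · intro x hx
    have hx1 : x ∈ Ψ.source ∧ Ψ x ∈ e.target := by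
      rw [hΞ] at hx
      exact hx
    have hys : e.symm (Ψ x) ∈ e.source := e.map_target hx1.2
    have hyT : e.symm (Ψ x) ∈ T := (hesrc _).1 hys
    obtain ⟨u, hu⟩ := (hTb _ hyT).2.2.1
    have h2 : HasFDerivAt e ((ContinuousLinearEquiv.unitsEquiv ℂ (Cd d) u : Cd d ≃L[ℂ] Cd d) :
        Cd d →L[ℂ] Cd d) (e.symm (Ψ x)) := by
      have h3 := (hFd _ (hTb _ hyT).1 (hTb _ hyT).2.1).hasFDerivAt
      rw [← hu] at h3
      exact h3
    have h4 := e.hasFDerivAt_symm hx1.2 h2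
    have h5 : MDifferentiableAt 𝓘(ℂ, Cd d) 𝓘(ℂ, Cd d) e.symm (Ψ x) :=
      mdifferentiableAt_iff_differentiableAt.2 h4.differentiableAt
    have h6 := MDifferentiableAt.comp x h5 (hΨ.fwd x hx1.1)
    have h7 : (Ξ.symm : X → Cd d) = e.symm ∘ Ψ := by
      rw [hΞ]
      rfl
    rw [h7]
    exact h6
  · intro z hz
    have hzT : z ∈ T := (hΞs z).1 hz
    have h1 : MDifferentiableAt 𝓘(ℂ, Cd d) 𝓘(ℂ, Cd d) F z :=
      mdifferentiableAt_iff_differentiableAt.2 (hFd z (hTb z hzT).1 (hTb z hzT).2.1)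
    have h2 : F z ∈ Ψ.target := by
      rw [hFH]
      exact Ψ.map_source (hTb z hzT).2.1
    have h3 := MDifferentiableAt.comp z (hΨ.bwd _ h2) h1
    have h4 : (Ξ.symm.symm : Cd d → X) = Ψ.symm ∘ F := by
      rw [OpenPartialHomeomorph.symm_symm, hΞ]
      rfl
    rw [h4]
    exact h3
  · have h1 : (0 : Cd d) ∈ Ξ.source := (hΞs 0).2 hT0
    have h2 := Ξ.map_source h1
    rwa [hΞ0] at h2
  · have h1 : (0 : Cd d) ∈ Ξ.source := (hΞs 0).2 hT0
    have h2 := Ξ.left_inv h1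
    rwa [hΞ0] at h2
  · intro ξ hξ
    obtain ⟨v, hv⟩ := RedGrp.exists_bas (hQl hξ)
    refine ⟨orbD d G act Ψ m v, ?_⟩
    rw [hP]
    have h1 : B (orbD d G act Ψ m v) = v := by
      refine hBa v ?_
      change G.bas v ∈ Q
      rw [hv]
      exact hξ
    rw [h1, hv]
  · intro v hv
    exact (hΞs _).2 (hTπ v ((hΞs v).1 hv))
  · intro x hx
    have h1 : Ξ.symm x ∈ Ξ.source := Ξ.map_target hx
    have h2 : Ξ.symm x ∈ T := (hΞs _).1 h1
    have h3 : Ξ (Ξ.symm x) = x := Ξ.right_inv hx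
    rw [OpenPartialHomeomorph.symm_symm, hΞπ _ h2]
    rw [hΞa _ h2, hH₀] at h3
    exact h3.symm
  · intro v hv
    have hvT : v ∈ T := (hΞs v).1 hv
    rw [OpenPartialHomeomorph.symm_symm, hΞπ v hvT]
    symm
    refine Slice_eq_of_le ?_ (hTb v hvT).2.2.2.2
    refine stab_le_slice hA hc hB hst (π v) ?_ (hπR v)
    have h1 := (hTb v hvT).1
    rw [hB.tgt, mem_ball_zero_iff] at h1
    exact h1

/-- The slice chart can be restricted to arbitrarily small neighbourhoods (so that `P ∘ Θ` is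
small). -/
theorem SliceAt.shrink {m : X} {Q : Submodule ℂ (Op n)} {Θ : OpenPartialHomeomorph X (Cd d)}
    {P : Cd d →L[ℂ] Op n} {π : Cd d →L[ℂ] Cd d} (h : SliceAt d G act m Q Θ P π) (ε : ℝ)
    (hε : 0 < ε) :
    ∃ Θ' : OpenPartialHomeomorph X (Cd d), SliceAt d G act m Q Θ' P π ∧
      (∀ x ∈ Θ'.source, x ∈ Θ.source ∧ Θ' x = Θ x) ∧ ∀ x ∈ Θ'.source, ‖P (Θ' x)‖ < ε := by
  have hn : ∀ᶠ z in 𝓝 (0 : Cd d), ‖P z‖ < ε := by
    have h1 : ContinuousAt (fun z : Cd d => ‖P z‖) 0 := P.continuous.norm.continuousAt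
    have h2 : ‖P (0 : Cd d)‖ < ε := by rw [map_zero, norm_zero]; exact hε
    exact h1.eventually_lt continuousAt_const h2
  obtain ⟨δ, hδ, hδb⟩ := Metric.eventually_nhds_iff.1 hn
  obtain ⟨T, hT⟩ : ∃ T : Set (Cd d), T = {z | ‖z‖ < δ ∧ ‖π z‖ < δ} := ⟨_, rfl⟩
  have hTo : IsOpen T := by
    rw [hT]
    exact (isOpen_lt continuous_norm continuous_const).inter
      (isOpen_lt π.continuous.norm continuous_const)
  have hTm : ∀ z, z ∈ T ↔ ‖z‖ < δ ∧ ‖π z‖ < δ := fun z => by rw [hT]; rfl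
  have hTπ : ∀ z ∈ T, π z ∈ T := by
    intro z hz
    rw [hTm] at hz ⊢
    rw [h.proj]
    exact ⟨hz.2, hz.2⟩
  have hT0 : (0 : Cd d) ∈ T := by
    rw [hTm, map_zero, norm_zero]
    exact ⟨hδ, hδ⟩
  set Θ' : OpenPartialHomeomorph X (Cd d) := (Θ.symm.restrOpen T hTo).symm with hΘ'
  have hs : ∀ x, x ∈ Θ'.source ↔ x ∈ Θ.source ∧ Θ x ∈ T := fun x => Iff.rfl
  have ht : ∀ v, v ∈ Θ'.target ↔ v ∈ Θ.target ∧ v ∈ T := fun v => Iff.rfl
  have ha : ∀ x, Θ' x = Θ x := fun x => rfl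
  have hi : ∀ v, Θ'.symm v = Θ.symm v := fun v => rfl
  refine ⟨Θ', ⟨⟨?_, ?_⟩, ?_, ?_, h.proj, h.ker, h.maps, h.onto, ?_, ?_, ?_⟩, ?_, ?_⟩
  · intro x hx
    exact h.hol.fwd x ((hs x).1 hx).1
  · intro v hv
    exact h.hol.bwd v ((ht v).1 hv).1
  · rw [hs, h.zero]
    exact ⟨h.mem, hT0⟩
  · rw [ha, h.zero]
  · intro v hv
    rw [ht] at hv ⊢
    exact ⟨h.tgt v hv.1, hTπ v hv.2⟩
  · intro x hx
    rw [ha, hi]
    exact h.eq x ((hs x).1 hx).1
  · intro v hv
    rw [hi]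
    exact h.stab_eq v ((ht v).1 hv).1
  · intro x hx
    exact ⟨((hs x).1 hx).1, ha x⟩
  · intro x hx
    rw [ha]
    refine hδb ?_
    rw [dist_zero_right]
    exact ((hTm _).1 ((hs x).1 hx).2).1

end EqOka
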