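import Pool.Agent.Lib.MP_fe51c6_an_EO.Defs

/-! The statements compared in the main theorem. -/

open scoped Manifold Topology

namespace EqOka

/-- Part `p` of the equivariant Oka principle for all reductive groups `G`, all Stein `G`-manifolds `X` on which
every `G`-orbit is closed, and all `G`-Oka manifolds `Y` (question Q2). -/
def EOPClosed (p : Part) : Prop :=
  ∀ (n d e : ℕ) (G : RedGrp n)
    (X : Type) [TopologicalSpace X] [ChartedSpace (Cd d) X] [IsManifold 𝓘(ℂ, Cd d) 1 X]
    [T2Space X] [SecondCountableTopology X]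
    (Y : Type) [TopologicalSpace Y] [ChartedSpace (Cd e) Y] [IsManifold 𝓘(ℂ, Cd e) 1 Y]
    [T2Space Y] [SecondCountableTopology Y]
    (actX : Op n → X → X) (actY : Op n → Y → Y),
    IsStein d X → HolAct d G actX → HolAct e G actY → GOka e G actY →
      ClosedOrbits G actX → EOP p d e G actX actY

/-- Part `p` of the equivariant Oka principle for all reductive groups `G`, all Stein `G`-manifolds `X` with
finite stabilisers, and all `G`-Oka manifolds `Y`. -/
def EOPFinite (p : Part) : Prop :=
  ∀ (n d e : ℕ) (G : RedGrp n)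
    (X : Type) [TopologicalSpace X] [ChartedSpace (Cd d) X] [IsManifold 𝓘(ℂ, Cd d) 1 X]
    [T2Space X] [SecondCountableTopology X]
    (Y : Type) [TopologicalSpace Y] [ChartedSpace (Cd e) Y] [IsManifold 𝓘(ℂ, Cd e) 1 Y]
    [T2Space Y] [SecondCountableTopology Y]
    (actX : Op n → X → X) (actY : Op n → Y → Y),
    IsStein d X → HolAct d G actX → HolAct e G actY → GOka e G actY →
      (∀ x : X, {g | g ∈ G.carrier ∧ actX g x = x}.Finite) → EOP p d e G actX actY

/-- The same with closed orbits and finite stabilisers modulo a reductive normal subgroup `L` acting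
trivially on `X`. -/
def EOPFiniteMod (p : Part) : Prop :=
  ∀ (n d e : ℕ) (G L : RedGrp n)
    (X : Type) [TopologicalSpace X] [ChartedSpace (Cd d) X] [IsManifold 𝓘(ℂ, Cd d) 1 X]
    [T2Space X] [SecondCountableTopology X]
    (Y : Type) [TopologicalSpace Y] [ChartedSpace (Cd e) Y] [IsManifold 𝓘(ℂ, Cd e) 1 Y]
    [T2Space Y] [SecondCountableTopology Y]
    (actX : Op n → X → X) (actY : Op n → Y → Y),
    IsStein d X → HolAct d G actX → HolAct e G actY → GOka e G actY →
      ClosedOrbits G actX → FiniteStab G L actX → EOP p d e G actX actY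

end EqOka
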