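import Pool.Agent.Lib.MP_fe51c6_an_EO.Boch
import Pool.Agent.Lib.MP_fe51c6_an_EO.LinW

/-! If all orbits are closed, the stabiliser acts trivially in the directions normal to the orbit. -/

open scoped Manifold Topology
open Set

noncomputable section

namespace EqOka

variable {n d : ℕ} {G : RedGrp n} {X : Type} [TopologicalSpace X] [ChartedSpace (Cd d) X]
  [IsManifold 𝓘(ℂ, Cd d) 1 X] [T2Space X] {act : Op n → X → X} {m : X}
  {Ψ : OpenPartialHomeomorph X (Cd d)} {r : ℝ} {U : Op n → Cd d →L[ℂ] Cd d}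

private theorem Weights_scale (hr : 0 < r) (v : Cd d) :
    ∃ c : ℂ, c ≠ 0 ∧ c • v ∈ Metric.ball (0 : Cd d) r := by
  have h1 : 0 < ‖v‖ + 1 := by positivity
  refine ⟨((r / (‖v‖ + 1) : ℝ) : ℂ), ?_, ?_⟩
  · rw [Ne, Complex.ofReal_eq_zero]
    positivity
  · rw [mem_ball_zero_iff, norm_smul, Complex.norm_real, Real.norm_eq_abs,
      abs_of_pos (by positivity), div_mul_eq_mul_div, div_lt_iff₀ h1]
    nlinarith

private theorem Weights_ext (hr : 0 < r) {A B : Cd d →L[ℂ] Cd d}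
    (h : ∀ v ∈ Metric.ball (0 : Cd d) r, A v = B v) : A = B := by
  ext1 v
  obtain ⟨c, hc, hv⟩ := Weights_scale hr v
  have h1 := h _ hv
  rw [map_smul, map_smul] at h1
  exact smul_right_injective (Cd d) hc h1

omit [IsManifold 𝓘(ℂ, Cd d) 1 X] [T2Space X] in
private theorem Weights_src (hB : BochAt d G act m Ψ r U) {v : Cd d}
    (hv : v ∈ Metric.ball (0 : Cd d) r) : Ψ.symm v ∈ Ψ.source ∧ Ψ (Ψ.symm v) = v := by
  rw [← hB.tgt] at hv
  exact ⟨Ψ.map_target hv, Ψ.right_inv hv⟩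

omit [IsManifold 𝓘(ℂ, Cd d) 1 X] [T2Space X] in
private theorem Weights_act (hB : BochAt d G act m Ψ r U) {k : Op n} (hk : k ∈ G.K)
    (hkm : act k m = m) {v : Cd d} (hv : v ∈ Metric.ball (0 : Cd d) r) :
    act k (Ψ.symm v) = Ψ.symm (U k v) := by
  obtain ⟨h1, h2⟩ := Weights_src hB hv
  obtain ⟨h3, h4⟩ := hB.eqv k hk hkm _ h1
  rw [h2] at h4
  rw [← h4, Ψ.left_inv h3]

omit [IsManifold 𝓘(ℂ, Cd d) 1 X] [T2Space X] in
private theorem Weights_symm_zero (hB : BochAt d G act m Ψ r U) : Ψ.symm 0 = m := by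
  rw [← hB.zero, Ψ.left_inv hB.mem]

/-- The one-parameter group `s ↦ U(exp(isη))`. -/
theorem boch_one (hA : HolAct d G act) (hB : BochAt d G act m Ψ r U) : U 1 = 1 := by
  refine Weights_ext hB.pos fun v hv => ?_
  obtain ⟨h1, h2⟩ := Weights_src hB hv
  have h3 := (hB.eqv 1 RedGrp.one_K (hA.one m) _ h1).2
  rw [hA.one, h2] at h3
  exact h3.symm

theorem boch_mul (hA : HolAct d G act) (hB : BochAt d G act m Ψ r U) {a b : Op n} (ha : a ∈ G.K)
    (ham : act a m = m) (hb : b ∈ G.K) (hbm : act b m = m) : U (a * b) = U a * U b := by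
  refine Weights_ext hB.pos fun v hv => ?_
  obtain ⟨h1, h2⟩ := Weights_src hB hv
  have habm : act (a * b) m = m := by rw [hA.mul a ha.1 b hb.1, hbm, ham]
  have h3 := (hB.eqv (a * b) (RedGrp.mul_K ha hb) habm _ h1).2
  obtain ⟨h4, h5⟩ := hB.eqv b hb hbm _ h1
  have h6 := (hB.eqv a ha ham _ h4).2
  rw [hA.mul a ha.1 b hb.1, h6, h5, h2] at h3
  exact h3.symm

private theorem Weights_fix (hA : HolAct d G act) {η : Op n} (hη : η ∈ stab G act m)
    (hs : IsSelfAdjoint η) (s : ℝ) :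
    NormedSpace.exp (((s : ℂ) * Complex.I) • η) ∈ G.K ∧
      act (NormedSpace.exp (((s : ℂ) * Complex.I) • η)) m = m := by
  have h1 := (mem_stab hA m η).1 hη
  exact ⟨RedGrp.exp_I_K h1.1 hs s, h1.2 _⟩

theorem boch_diff (hA : HolAct d G act) (hB : BochAt d G act m Ψ r U) {η : Op n}
    (hη : η ∈ stab G act m) (hs : IsSelfAdjoint η) (v : Cd d) :
    DifferentiableAt ℝ (fun s : ℝ => U (NormedSpace.exp (((s : ℂ) * Complex.I) • η)) v) 0 := by
  have hηl : η ∈ G.lie := ((mem_stab hA m η).1 hη).1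
  -- small vectors
  have small : ∀ v ∈ Metric.ball (0 : Cd d) r, DifferentiableAt ℝ
      (fun s : ℝ => U (NormedSpace.exp (((s : ℂ) * Complex.I) • η)) v) 0 := by
    intro v hv
    obtain ⟨h1, h2⟩ := Weights_src hB hv
    have h3 : (fun s : ℝ => U (NormedSpace.exp (((s : ℂ) * Complex.I) • η)) v) =
        fun s : ℝ => Ψ (act (NormedSpace.exp (((s : ℂ) * Complex.I) • η)) (Ψ.symm v)) := by
      funext s
      obtain ⟨hk, hkm⟩ := Weights_fix hA hη hs s
      rw [(hB.eqv _ hk hkm _ h1).2, h2]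
    rw [h3]
    have h0 : act (NormedSpace.exp ((0 : ℂ) • η)) (Ψ.symm v) = Ψ.symm v := by
      have h00 : (0 : ℂ) • η = 0 := zero_smul ℂ η
      rw [h00, NormedSpace.exp_zero, hA.one]
    have h4 : MDifferentiableAt 𝓘(ℂ, ℂ) 𝓘(ℂ, Cd d)
        (fun z : ℂ => Ψ (act (NormedSpace.exp (z • η)) (Ψ.symm v))) 0 := by
      have e1 : MDifferentiableAt 𝓘(ℂ, Cd d) 𝓘(ℂ, Cd d) Ψ
          (act (NormedSpace.exp ((0 : ℂ) • η)) (Ψ.symm v)) := by
        rw [h0]
        exact hB.hol.fwd _ h1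
      exact MDifferentiableAt.comp (0 : ℂ) e1 (hA.mdiff_orbit hηl (Ψ.symm v) 0)
    have h5 : HasDerivAt (fun z : ℂ => Ψ (act (NormedSpace.exp (z • η)) (Ψ.symm v)))
        (deriv (fun z : ℂ => Ψ (act (NormedSpace.exp (z • η)) (Ψ.symm v))) 0)
        ((fun s : ℝ => (s : ℂ) * Complex.I) 0) := by
      have e2 := h4.differentiableAt.hasDerivAt
      simpa using e2
    have h6 : HasDerivAt (fun s : ℝ => (s : ℂ) * Complex.I) Complex.I 0 := by
      have e3 : HasDerivAt (fun s : ℝ => (s : ℂ)) 1 (0 : ℝ) := Complex.ofRealCLM.hasDerivAt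
      have e4 := e3.mul_const Complex.I
      rw [one_mul] at e4
      exact e4
    exact (h5.scomp (0 : ℝ) h6).differentiableAt
  obtain ⟨c, hc, hv⟩ := Weights_scale hB.pos v
  have h7 := (small _ hv).const_smul c⁻¹
  have h8 : (fun s : ℝ => U (NormedSpace.exp (((s : ℂ) * Complex.I) • η)) v) =
      c⁻¹ • fun s : ℝ => U (NormedSpace.exp (((s : ℂ) * Complex.I) • η)) (c • v) := by
    funext s
    rw [Pi.smul_apply, map_smul, smul_smul, inv_mul_cancel₀ hc, one_smul]
  rw [h8]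
  exact h7

/-- The tangent space of the orbit is invariant under `K_m`. -/
theorem range_invariant (hA : HolAct d G act) (hB : BochAt d G act m Ψ r U) {k : Op n}
    (hk : k ∈ G.K) (hkm : act k m = m) (v : Cd d)
    (hv : v ∈ LinearMap.range (orbD d G act Ψ m : Cd G.dim →ₗ[ℂ] Cd d)) :
    U k v ∈ LinearMap.range (orbD d G act Ψ m : Cd G.dim →ₗ[ℂ] Cd d) := by
  obtain ⟨v', rfl⟩ := hv
  obtain ⟨-, hk1, hk2⟩ := RedGrp.star_K hk
  have hξ : G.bas v' ∈ G.lie := G.bas_mem v'
  obtain ⟨v'', hv''⟩ := RedGrp.exists_bas (RedGrp.Ad_mem hk.1 hk1 hξ)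
  refine ⟨v'', ?_⟩
  have h1 := hasDerivAt_orbit hA hB.hol hB.mem v'
  have h2 := hasDerivAt_orbit hA hB.hol hB.mem v''
  have h3 : HasDerivAt (fun z : ℂ => U k (Ψ (act (NormedSpace.exp (z • G.bas v')) m)))
      (U k (orbD d G act Ψ m v')) 0 := (U k).hasFDerivAt.comp_hasDerivAt (0 : ℂ) h1
  have hcont : Continuous (fun z : ℂ => act (NormedSpace.exp (z • G.bas v')) m) :=
    (hA.mdiff_orbit hξ m).continuous
  have hev : ∀ᶠ z : ℂ in 𝓝 0, act (NormedSpace.exp (z • G.bas v')) m ∈ Ψ.source := by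
    apply hcont.continuousAt.preimage_mem_nhds
    apply Ψ.open_source.mem_nhds
    have h00 : (0 : ℂ) • G.bas v' = 0 := zero_smul ℂ (G.bas v')
    rw [h00, NormedSpace.exp_zero, hA.one]
    exact hB.mem
  have h4 : HasDerivAt (fun z : ℂ => Ψ (act (NormedSpace.exp (z • G.bas v'')) m))
      (U k (orbD d G act Ψ m v')) 0 := by
    refine h3.congr_of_eventuallyEq ?_
    filter_upwards [hev] with z hz
    have he : NormedSpace.exp (z • G.bas v') ∈ G.carrier := RedGrp.exp_smul_mem hξ z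
    have he2 : NormedSpace.exp (z • G.bas v'') ∈ G.carrier :=
      RedGrp.exp_smul_mem (G.bas_mem v'') z
    have h5 : NormedSpace.exp (z • G.bas v'') * k = k * NormedSpace.exp (z • G.bas v') := by
      have h6 : z • G.bas v'' = k * (z • G.bas v') * star k := by
        rw [hv'', mul_smul_comm, smul_mul_assoc]
      rw [h6, exp_conj hk1 hk2, mul_assoc, hk2, mul_one]
    rw [← (hB.eqv k hk hkm _ hz).2, ← hA.mul k hk.1 _ he, ← h5, hA.mul _ he2 k hk.1, hkm]
  exact h2.unique h4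

/-- The action of the one-parameter group on multiples of a weight vector. -/
private theorem Weights_rot (hA : HolAct d G act) (hB : BochAt d G act m Ψ r U) {η : Op n}
    (hη : η ∈ stab G act m) (hs : IsSelfAdjoint η) (w : Cd d) (lam : ℝ)
    (hw : ∀ s : ℝ, U (NormedSpace.exp (((s : ℂ) * Complex.I) • η)) w
      = Complex.exp (((s * lam : ℝ) : ℂ) * Complex.I) • w) (ζ : ℂ)
    (hζ : ζ • w ∈ Metric.ball (0 : Cd d) r) (s : ℝ) :
    act (NormedSpace.exp (((s : ℂ) * Complex.I) • η)) (Ψ.symm (ζ • w)) =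
      Ψ.symm ((Complex.exp (((s * lam : ℝ) : ℂ) * Complex.I) * ζ) • w) := by
  obtain ⟨hk, hkm⟩ := Weights_fix hA hη hs s
  rw [Weights_act hB hk hkm hζ, map_smul, hw s, smul_smul, mul_comm]

/-- The one-parameter group `exp(τη)` on multiples of a weight vector, `τ` complex. -/
private theorem Weights_flow (hA : HolAct d G act) (hB : BochAt d G act m Ψ r U) {η : Op n}
    (hη : η ∈ stab G act m) (hs : IsSelfAdjoint η) (w : Cd d) (lam : ℝ) (hl : lam ≠ 0)
    (hw : ∀ s : ℝ, U (NormedSpace.exp (((s : ℂ) * Complex.I) • η)) w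
      = Complex.exp (((s * lam : ℝ) : ℂ) * Complex.I) • w) (ζ : ℂ)
    (hζ : ζ • w ∈ Metric.ball (0 : Cd d) r) (hζ0 : ζ • w ≠ 0) (τ : ℂ)
    (hτ : Real.exp (τ.re * lam) * ‖ζ • w‖ < r) :
    act (NormedSpace.exp (τ • η)) (Ψ.symm (ζ • w)) =
      Ψ.symm ((Complex.exp (τ * lam) * ζ) • w) := by
  have hηl : η ∈ G.lie := ((mem_stab hA m η).1 hη).1
  have hn : 0 < ‖ζ • w‖ := norm_pos_iff.2 hζ0
  rw [mem_ball_zero_iff] at hζ
  have hnorm : ∀ z : ℂ, ‖(Complex.exp (z * lam) * ζ) • w‖ = Real.exp (z.re * lam) * ‖ζ • w‖ := by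
    intro z
    rw [mul_smul, norm_smul, Complex.norm_exp]
    congr 2
    simp
  -- an interval
  obtain ⟨a, b, ha, hb, haτ, hbτ, hab⟩ : ∃ a b : ℝ, a < 0 ∧ 0 < b ∧ a < τ.re ∧ τ.re < b ∧
      ∀ t : ℝ, a < t → t < b → Real.exp (t * lam) * ‖ζ • w‖ < r := by
    have hβ : 0 < Real.log (r / ‖ζ • w‖) := Real.log_pos (by rwa [lt_div_iff₀ hn, one_mul])
    have hiff : ∀ t : ℝ, Real.exp (t * lam) * ‖ζ • w‖ < r ↔ t * lam < Real.log (r / ‖ζ • w‖) := by
      intro t
      rw [← lt_div_iff₀ hn, Real.lt_log_iff_exp_lt (div_pos hB.pos hn)]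
    have hτ' := (hiff _).1 hτ
    rcases lt_or_gt_of_ne hl with h | h
    · refine ⟨Real.log (r / ‖ζ • w‖) / lam, max τ.re 0 + 1, div_neg_of_pos_of_neg hβ h, ?_, ?_,
        ?_, ?_⟩
      · have := le_max_right τ.re 0
        linarith
      · rw [div_lt_iff_of_neg h]
        exact hτ'
      · have := le_max_left τ.re 0
        linarith
      · intro t ht _
        rw [div_lt_iff_of_neg h] at ht
        exact (hiff t).2 ht
    · refine ⟨min τ.re 0 - 1, Real.log (r / ‖ζ • w‖) / lam, ?_, div_pos hβ h, ?_, ?_, ?_⟩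
      · have := min_le_right τ.re 0
        linarith
      · have := min_le_left τ.re 0
        linarith
      · rw [lt_div_iff₀ h]
        exact hτ'
      · intro t _ ht
        rw [lt_div_iff₀ h] at ht
        exact (hiff t).2 ht
  have h1 := strip_equivariant hA hηl (fun z : ℂ => Ψ.symm ((Complex.exp (z * lam) * ζ) • w)) a b
    ?_ ?_ τ 0 ⟨haτ, hbτ⟩ ?_
  · simp only [sub_zero, zero_mul, Complex.exp_zero, one_mul] at h1
    exact h1.symm
  · intro z hz1 hz2
    have h2 : (Complex.exp (z * lam) * ζ) • w ∈ Ψ.target := by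
      rw [hB.tgt, mem_ball_zero_iff, hnorm]
      exact hab _ hz1 hz2
    have h3 : MDifferentiableAt 𝓘(ℂ, ℂ) 𝓘(ℂ, Cd d)
        (fun z : ℂ => (Complex.exp (z * lam) * ζ) • w) z := by
      rw [mdifferentiableAt_iff_differentiableAt]
      fun_prop
    exact MDifferentiableAt.comp z (hB.hol.bwd _ h2) h3
  · intro z s hz1 hz2
    have h2 : (Complex.exp (z * lam) * ζ) • w ∈ Metric.ball (0 : Cd d) r := by
      rw [mem_ball_zero_iff, hnorm]
      exact hab _ hz1 hz2
    change Ψ.symm ((Complex.exp ((z + s * Complex.I) * lam) * ζ) • w) =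
      act (NormedSpace.exp (((s : ℂ) * Complex.I) • η))
        (Ψ.symm ((Complex.exp (z * lam) * ζ) • w))
    rw [Weights_rot hA hB hη hs w lam hw _ h2 s]
    congr 2
    rw [← mul_assoc, ← Complex.exp_add]
    congr 2
    push_cast
    ring
  · exact ⟨by simpa using ha, by simpa using hb⟩

/-- A weight vector of nonzero weight is tangent to the orbit. -/
theorem weight_mem_range (hA : HolAct d G act) (hc : ClosedOrbits G act)
    (hB : BochAt d G act m Ψ r U) {η : Op n} (hη : η ∈ stab G act m) (hs : IsSelfAdjoint η)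
    (w : Cd d) (lam : ℝ) (hl : lam ≠ 0)
    (hw : ∀ s : ℝ, U (NormedSpace.exp (((s : ℂ) * Complex.I) • η)) w
      = Complex.exp (((s * lam : ℝ) : ℂ) * Complex.I) • w) :
    w ∈ LinearMap.range (orbD d G act Ψ m : Cd G.dim →ₗ[ℂ] Cd d) := by
  by_cases hw0 : w = 0
  · rw [hw0]
    exact Submodule.zero_mem _
  have hηl : η ∈ G.lie := ((mem_stab hA m η).1 hη).1
  obtain ⟨vη, hvη⟩ := RedGrp.exists_bas hηl
  have hsymm : ContinuousAt Ψ.symm 0 := by
    apply Ψ.continuousAt_symm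
    rw [hB.tgt]
    exact Metric.mem_ball_self hB.pos
  -- one multiple of `w`
  have one : ∀ ζ : ℂ, ζ ≠ 0 → ζ • w ∈ Metric.ball (0 : Cd d) r →
      Module.finrank ℂ (stab G act (Ψ.symm (ζ • w))) = Module.finrank ℂ (stab G act m) ∧
        w ∈ LinearMap.range (orbD d G act Ψ (Ψ.symm (ζ • w)) : Cd G.dim →ₗ[ℂ] Cd d) := by
    intro ζ hζ0 hζ
    have hζw : ζ • w ≠ 0 := smul_ne_zero hζ0 hw0
    have hζ' := hζ
    rw [mem_ball_zero_iff] at hζ'
    have hn : 0 < ‖ζ • w‖ := norm_pos_iff.2 hζw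
    constructor
    · -- the limit point
      have h1 : m ∈ closure {y | ∃ g ∈ G.carrier, act g (Ψ.symm (ζ • w)) = y} := by
        have h2 : Filter.Tendsto (fun j : ℕ => Ψ.symm
            ((Complex.exp (((-(j : ℝ) / lam : ℝ) : ℂ) * lam) * ζ) • w)) Filter.atTop (𝓝 m) := by
          rw [← Weights_symm_zero hB]
          refine hsymm.tendsto.comp ?_
          have h3 : ∀ j : ℕ, (Complex.exp (((-(j : ℝ) / lam : ℝ) : ℂ) * lam) * ζ) • w =
              ((Real.exp (-(j : ℝ)) : ℝ) : ℂ) • (ζ • w) := by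
            intro j
            rw [mul_smul]
            congr 1
            rw [Complex.ofReal_exp]
            congr 1
            rw [← Complex.ofReal_mul, div_mul_cancel₀ _ hl]
          simp only [h3]
          have h4 : Filter.Tendsto (fun j : ℕ => ((Real.exp (-(j : ℝ)) : ℝ) : ℂ)) Filter.atTop
              (𝓝 0) := by
            have h5 : Filter.Tendsto (fun j : ℕ => Real.exp (-(j : ℝ))) Filter.atTop (𝓝 0) :=
              Real.tendsto_exp_neg_atTop_nhds_zero.comp tendsto_natCast_atTop_atTop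
            have h6 := (Complex.continuous_ofReal.tendsto 0).comp h5
            rw [Complex.ofReal_zero] at h6
            exact h6
          have h7 := h4.smul_const (ζ • w)
          rw [zero_smul] at h7
          exact h7
        refine mem_closure_of_tendsto h2 (Filter.Eventually.of_forall fun j => ?_)
        refine ⟨NormedSpace.exp ((((-(j : ℝ) / lam : ℝ) : ℂ)) • η), RedGrp.exp_smul_mem hηl _, ?_⟩
        refine Weights_flow hA hB hη hs w lam hl hw ζ hζ hζw _ ?_
        rw [Complex.ofReal_re, div_mul_cancel₀ _ hl]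
        have h8 : Real.exp (-(j : ℝ)) ≤ 1 := Real.exp_le_one_iff.2 (by simp)
        nlinarith
      rw [(hc _).closure_eq] at h1
      obtain ⟨g, hg, hgm⟩ := h1
      obtain ⟨h, hh, hgh, hhg⟩ := G.inv_mem g hg
      rw [← hgm, stab_act hA hg hgh, finrank_conjS hgh hhg]
    · obtain ⟨hsrc, hright⟩ := Weights_src hB hζ
      have h1 := hasDerivAt_orbit hA hB.hol hsrc vη
      rw [hvη] at h1
      have h2 : HasDerivAt (fun z : ℂ => (Complex.exp (z * lam) * ζ) • w)
          (((lam : ℂ) * ζ) • w) 0 := by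
        have h3 : HasDerivAt (fun z : ℂ => Complex.exp (z * lam) * ζ)
            (Complex.exp (0 * (lam : ℂ)) * (1 * (lam : ℂ)) * ζ) 0 :=
          (((hasDerivAt_id (0 : ℂ)).mul_const (lam : ℂ)).cexp).mul_const ζ
        rw [zero_mul, Complex.exp_zero, one_mul, one_mul] at h3
        exact h3.smul_const w
      have h4 : HasDerivAt (fun z : ℂ => Ψ (act (NormedSpace.exp (z • η)) (Ψ.symm (ζ • w))))
          (((lam : ℂ) * ζ) • w) 0 := by
        refine h2.congr_of_eventuallyEq ?_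
        have h5 : ∀ᶠ z : ℂ in 𝓝 0, Real.exp (z.re * lam) * ‖ζ • w‖ < r := by
          have h6 : Continuous fun z : ℂ => Real.exp (z.re * lam) * ‖ζ • w‖ := by fun_prop
          have h7 : Real.exp ((0 : ℂ).re * lam) * ‖ζ • w‖ < r := by
            simpa using hζ'
          exact h6.continuousAt.eventually_lt continuousAt_const h7
        filter_upwards [h5] with z hz
        rw [Weights_flow hA hB hη hs w lam hl hw ζ hζ hζw z hz]
        refine Ψ.right_inv ?_
        rw [hB.tgt, mem_ball_zero_iff, mul_smul, norm_smul, Complex.norm_exp]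
        have h8 : (z * (lam : ℂ)).re = z.re * lam := by simp
        rw [h8]
        exact hz
      have h5 := h1.unique h4
      have h6 : (lam : ℂ) * ζ ≠ 0 := mul_ne_zero (Complex.ofReal_ne_zero.2 hl) hζ0
      refine ⟨((lam : ℂ) * ζ)⁻¹ • vη, ?_⟩
      rw [map_smul]
      change ((lam : ℂ) * ζ)⁻¹ • orbD d G act Ψ (Ψ.symm (ζ • w)) vη = w
      rw [h5, smul_smul, inv_mul_cancel₀ h6, one_smul]
  -- the sequence
  obtain ⟨c, hc0, hcw⟩ := Weights_scale hB.pos w
  set ζ : ℕ → ℂ := fun j => ((1 / ((j : ℝ) + 1) : ℝ) : ℂ) * c with hζdef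
  have hζ0 : ∀ j, ζ j ≠ 0 := fun j =>
    mul_ne_zero (Complex.ofReal_ne_zero.2 (by positivity)) hc0
  have hζb : ∀ j, ζ j • w ∈ Metric.ball (0 : Cd d) r := by
    intro j
    rw [mem_ball_zero_iff] at hcw ⊢
    rw [hζdef]
    simp only
    rw [mul_smul, norm_smul, Complex.norm_real, Real.norm_eq_abs, abs_of_pos (by positivity)]
    have h1 : 1 / ((j : ℝ) + 1) ≤ 1 := by
      rw [div_le_one (by positivity)]
      have : (0 : ℝ) ≤ j := Nat.cast_nonneg j
      linarith
    have h2 : 0 ≤ ‖c • w‖ := norm_nonneg _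
    nlinarith
  have hζt : Filter.Tendsto (fun j => ζ j • w) Filter.atTop (𝓝 0) := by
    have h1 : Filter.Tendsto (fun j : ℕ => ((1 / ((j : ℝ) + 1) : ℝ) : ℂ)) Filter.atTop (𝓝 0) := by
      have h2 := (Complex.continuous_ofReal.tendsto 0).comp
        (tendsto_one_div_add_atTop_nhds_zero_nat (𝕜 := ℝ))
      rw [Complex.ofReal_zero] at h2
      exact h2
    have h3 := (h1.mul_const c).smul_const w
    rw [zero_mul, zero_smul] at h3
    exact h3
  have hx : Filter.Tendsto (fun j => Ψ.symm (ζ j • w)) Filter.atTop (𝓝 m) := by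
    rw [← Weights_symm_zero hB]
    exact hsymm.tendsto.comp hζt
  have horb : Filter.Tendsto (fun j => orbD d G act Ψ (Ψ.symm (ζ j • w))) Filter.atTop
      (𝓝 (orbD d G act Ψ m)) :=
    ((orbD_continuousOn hA hB.hol).continuousAt
      (Ψ.open_source.mem_nhds hB.mem)).tendsto.comp hx
  refine mem_range_of_tendsto (fun j => orbD d G act Ψ (Ψ.symm (ζ j • w))) (orbD d G act Ψ m)
    (fun _ => w) w horb tendsto_const_nhds ?_ ?_
  · intro j
    have h1 := (one (ζ j) (hζ0 j) (hζb j)).1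
    have h2 := finrank_range_orbD hA hB.hol (Weights_src hB (hζb j)).1
    have h3 := finrank_range_orbD hA hB.hol hB.mem
    omega
  · intro j
    exact (one (ζ j) (hζ0 j) (hζb j)).2

theorem U_fix (hA : HolAct d G act) (hc : ClosedOrbits G act) (hB : BochAt d G act m Ψ r U)
    {η : Op n} (hη : η ∈ stab G act m) (hs : IsSelfAdjoint η) (c : Cd d)
    (ho : c ∈ (LinearMap.range (orbD d G act Ψ m : Cd G.dim →ₗ[ℂ] Cd d))ᗮ) (s : ℝ) :
    U (NormedSpace.exp (((s : ℂ) * Complex.I) • η)) c = c := by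
  by_contra hne
  set T : ℝ → Cd d →L[ℂ] Cd d := fun s => U (NormedSpace.exp (((s : ℂ) * Complex.I) • η)) with hT
  have h0 : T 0 = 1 := by
    have h00 : (((0 : ℝ) : ℂ) * Complex.I) • η = 0 := by
      rw [Complex.ofReal_zero, zero_mul]
      exact zero_smul ℂ η
    simp only [hT]
    rw [h00, NormedSpace.exp_zero]
    exact boch_one hA hB
  have hadd : ∀ s t, T (s + t) = T s * T t := by
    intro s t
    obtain ⟨h1, h2⟩ := Weights_fix hA hη hs s
    obtain ⟨h3, h4⟩ := Weights_fix hA hη hs t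
    simp only [hT]
    rw [← boch_mul hA hB h1 h2 h3 h4, ← exp_add_smul]
    congr 3
    push_cast
    ring
  have hiso : ∀ s v, ‖T s v‖ = ‖v‖ := fun s v =>
    hB.iso _ (Weights_fix hA hη hs s).1 (Weights_fix hA hη hs s).2 v
  have hdiff : ∀ v, DifferentiableAt ℝ (fun s => T s v) 0 := fun v => boch_diff hA hB hη hs v
  have hR : ∀ s, ∀ v ∈ LinearMap.range (orbD d G act Ψ m : Cd G.dim →ₗ[ℂ] Cd d),
      T s v ∈ LinearMap.range (orbD d G act Ψ m : Cd G.dim →ₗ[ℂ] Cd d) := fun s v hv =>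
    range_invariant hA hB (Weights_fix hA hη hs s).1 (Weights_fix hA hη hs s).2 v hv
  obtain ⟨w, hw, hw0, lam, hl, hwt⟩ := exists_weight T h0 hadd hiso hdiff _
    (fun s v hv => orth_invariant T h0 hadd hiso _ hR s v hv) c ho s hne
  have h1 := weight_mem_range hA hc hB hη hs w lam hl hwt
  apply hw0
  have h2 : inner ℂ w w = 0 := Submodule.inner_right_of_mem_orthogonal h1 hw
  exact inner_self_eq_zero.1 h2

/-- The stabiliser algebra of `m` fixes the normal slice. -/
theorem stab_le_slice (hA : HolAct d G act) (hc : ClosedOrbits G act)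
    (hB : BochAt d G act m Ψ r U) (hst : StarCl (stab G act m)) (c : Cd d) (hcr : ‖c‖ < r)
    (ho : c ∈ (LinearMap.range (orbD d G act Ψ m : Cd G.dim →ₗ[ℂ] Cd d))ᗮ) :
    stab G act m ≤ stab G act (Ψ.symm c) := by
  have key : ∀ η ∈ stab G act m, IsSelfAdjoint η → η ∈ stab G act (Ψ.symm c) := by
    intro η hη hs
    have hηl : η ∈ G.lie := ((mem_stab hA m η).1 hη).1
    refine (mem_stab hA _ η).2 ⟨hηl, fixed_of_I hA hηl _ fun s => ?_⟩
    obtain ⟨h1, h2⟩ := Weights_fix hA hη hs s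
    rw [Weights_act hB h1 h2 (by rwa [mem_ball_zero_iff]), U_fix hA hc hB hη hs c ho s]
  intro ξ hξ
  obtain ⟨a, ha, b, hb, has, hbs, rfl⟩ := decomp_starCl hst hξ
  exact Submodule.add_mem _ (key a ha has) (Submodule.smul_mem _ _ (key b hb hbs))

end EqOka
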